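import Pool.Agent.Lib.MP_daa227_pr.Conc

/-!
# Law of large numbers for Lipschitz functions of i.i.d. charges
-/

open MeasureTheory ProbabilityTheory Set Filter
open scoped ENNReal Topology

namespace MP_daa227_pr

noncomputable section

/-- Deviation probabilities. -/
lemma conc_prob {μ : Measure ℝ} [IsProbabilityMeasure μ] (hexp : ExpMom μ) {κ γ ε : ℝ} (h0 : 0 ≤ γ)
    (h1 : γ ≤ 1) {k : ℕ} {f : (ℕ → ℝ) → ℝ} (hm : Measurable f) (hl : LipOn k κ f) :
    seqLaw μ {ω | ε * k ≤ |f ω - ∫ ω', f ω' ∂seqLaw μ|} ≤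
      ENNReal.ofReal (2 * Real.exp (concK μ κ * γ ^ 2 * k - γ * (ε * k))) := by
  set m := ∫ ω', f ω' ∂seqLaw μ with hmdef
  have hone : ∀ σ : ℝ, |σ| = 1 → seqLaw μ {ω | ε * k ≤ σ * (f ω - m)} ≤
      ENNReal.ofReal (Real.exp (concK μ κ * γ ^ 2 * k - γ * (ε * k))) := by
    intro σ hσ
    have hc := conc hexp (μ := μ) (κ := κ) (γ := γ * σ)
      (by rw [abs_mul, hσ, mul_one, abs_of_nonneg h0]; exact h1) k hm hl
    rw [← hmdef] at hc
    have hσ2 : (γ * σ) ^ 2 = γ ^ 2 := by
      rw [mul_pow, ← _root_.sq_abs σ, hσ]; ring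
    rw [hσ2] at hc
    have hsub : {ω | ε * k ≤ σ * (f ω - m)} ⊆
        {ω | ENNReal.ofReal (Real.exp (γ * (ε * k))) ≤ ENNReal.ofReal (Real.exp (γ * σ * (f ω - m)))} := by
      intro ω hω
      simp only [Set.mem_ofPred_eq] at hω ⊢
      apply ENNReal.ofReal_le_ofReal
      apply Real.exp_le_exp.2
      rw [mul_assoc]
      exact mul_le_mul_of_nonneg_left hω h0
    have hmk := mul_meas_ge_le_lintegral (μ := seqLaw μ)
      (f := fun ω => ENNReal.ofReal (Real.exp (γ * σ * (f ω - m)))) (by fun_prop)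
      (ENNReal.ofReal (Real.exp (γ * (ε * k))))
    have h3 : ENNReal.ofReal (Real.exp (γ * (ε * k))) * seqLaw μ {ω | ε * k ≤ σ * (f ω - m)} ≤
        ENNReal.ofReal (Real.exp (concK μ κ * γ ^ 2 * k)) :=
      (mul_le_mul_right (measure_mono hsub) _).trans (hmk.trans hc)
    calc seqLaw μ {ω | ε * k ≤ σ * (f ω - m)}
        = ENNReal.ofReal (Real.exp (-(γ * (ε * k)))) *
          (ENNReal.ofReal (Real.exp (γ * (ε * k))) * seqLaw μ {ω | ε * k ≤ σ * (f ω - m)}) := by
          rw [← mul_assoc, ← ENNReal.ofReal_mul (Real.exp_pos _).le, ← Real.exp_add]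
          simp
      _ ≤ ENNReal.ofReal (Real.exp (-(γ * (ε * k)))) * ENNReal.ofReal (Real.exp (concK μ κ * γ ^ 2 * k)) :=
          mul_le_mul_right h3 _
      _ = _ := by
          rw [← ENNReal.ofReal_mul (Real.exp_pos _).le, ← Real.exp_add]
          congr 2
          ring
  have hcup : {ω | ε * k ≤ |f ω - m|} ⊆ {ω | ε * k ≤ 1 * (f ω - m)} ∪ {ω | ε * k ≤ (-1) * (f ω - m)} := by
    intro ω hω
    simp only [Set.mem_ofPred_eq, Set.mem_union] at hω ⊢
    rcases abs_cases (f ω - m) with ⟨h3, _⟩ | ⟨h3, _⟩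
    · left; rw [h3] at hω; linarith
    · right; rw [h3] at hω; linarith
  refine (measure_mono hcup).trans ((measure_union_le _ _).trans ?_)
  rw [two_mul, ENNReal.ofReal_add (Real.exp_pos _).le (Real.exp_pos _).le]
  exact add_le_add (hone 1 (by simp)) (hone (-1) (by simp))

theorem conc_ae {μ : Measure ℝ} [IsProbabilityMeasure μ] (hexp : ExpMom μ) {κ : ℝ}
    (f : ℕ → (ℕ → ℝ) → ℝ) (hm : ∀ N, Measurable (f N)) (hl : ∀ N, LipOn N κ (f N)) :
    ∀ᵐ ω ∂seqLaw μ, Tendsto (fun N : ℕ => (f N ω - ∫ ω', f N ω' ∂seqLaw μ) / N) atTop (𝓝 0) := by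
  have hK0 := concK_nonneg μ κ
  have key : ∀ j : ℕ, ∀ᵐ ω ∂seqLaw μ, ∀ᶠ N : ℕ in atTop,
      |f N ω - ∫ ω', f N ω' ∂seqLaw μ| < 1 / ((j : ℝ) + 1) * N := by
    intro j
    set ε : ℝ := 1 / ((j : ℝ) + 1) with hε
    have hε0 : 0 < ε := by positivity
    set γ := min 1 (ε / (2 * (concK μ κ + 1))) with hγ
    have hγ0 : 0 < γ := lt_min one_pos (by positivity)
    have hγ1 : γ ≤ 1 := min_le_left _ _
    have hγK : concK μ κ * γ ≤ ε / 2 := by
      have h1 : γ ≤ ε / (2 * (concK μ κ + 1)) := min_le_right _ _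
      calc concK μ κ * γ ≤ concK μ κ * (ε / (2 * (concK μ κ + 1))) := mul_le_mul_of_nonneg_left h1 hK0
        _ ≤ ε / 2 := by
            rw [mul_div_assoc', div_le_div_iff₀ (by positivity) (by norm_num)]
            nlinarith
    have hsum : ∑' N : ℕ, seqLaw μ {ω | ε * N ≤ |f N ω - ∫ ω', f N ω' ∂seqLaw μ|} ≠ ∞ := by
      have hb : ∀ N : ℕ, seqLaw μ {ω | ε * N ≤ |f N ω - ∫ ω', f N ω' ∂seqLaw μ|} ≤
          ENNReal.ofReal (2 * (Real.exp (-(γ * ε / 2))) ^ N) := by
        intro N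
        refine (conc_prob hexp (ε := ε) hγ0.le hγ1 (hm N) (hl N)).trans (ENNReal.ofReal_le_ofReal ?_)
        apply mul_le_mul_of_nonneg_left _ (by norm_num)
        rw [← Real.exp_nat_mul]
        apply Real.exp_le_exp.2
        have h2 := mul_le_mul_of_nonneg_left hγK (mul_nonneg hγ0.le (Nat.cast_nonneg N))
        nlinarith
      have hs : Summable (fun N : ℕ => 2 * (Real.exp (-(γ * ε / 2))) ^ N) := by
        apply Summable.mul_left
        apply summable_geometric_of_lt_one (Real.exp_pos _).le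
        rw [Real.exp_lt_one_iff]
        have : 0 < γ * ε := mul_pos hγ0 hε0
        linarith
      exact ne_top_of_le_ne_top hs.tsum_ofReal_ne_top (ENNReal.tsum_le_tsum hb)
    have hbc := ae_eventually_notMem hsum
    filter_upwards [hbc] with ω hω
    filter_upwards [hω] with N hN
    simpa using hN
  have key2 := ae_all_iff.2 key
  filter_upwards [key2] with ω hω
  rw [Metric.tendsto_atTop]
  intro ε hε
  obtain ⟨j, hj⟩ := exists_nat_one_div_lt hε
  obtain ⟨N₀, hN₀⟩ := ((hω j).and (eventually_gt_atTop 0)).exists_forall_of_atTop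
  refine ⟨N₀, fun N hN => ?_⟩
  obtain ⟨h1, h2⟩ := hN₀ N hN
  have hNR : (0 : ℝ) < N := by exact_mod_cast h2
  rw [Real.dist_eq, sub_zero, abs_div, abs_of_pos hNR, div_lt_iff₀ hNR]
  exact h1.trans (mul_lt_mul_of_pos_right hj hNR)

theorem conc_L1 {μ : Measure ℝ} [IsProbabilityMeasure μ] (hexp : ExpMom μ) {κ : ℝ}
    (f : ℕ → (ℕ → ℝ) → ℝ) (hm : ∀ N, Measurable (f N)) (hl : ∀ N, LipOn N κ (f N)) :
    Tendsto (fun N : ℕ => (∫ ω, |f N ω - ∫ ω', f N ω' ∂seqLaw μ| ∂seqLaw μ) / N) atTop (𝓝 0) := by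
  have hK0 := concK_nonneg μ κ
  have hb : ∀ N : ℕ, 1 ≤ N → ∫ ω, |f N ω - ∫ ω', f N ω' ∂seqLaw μ| ∂seqLaw μ ≤
      2 * Real.sqrt N * Real.exp (concK μ κ) := by
    intro N hN
    set m := ∫ ω', f N ω' ∂seqLaw μ with hmdef
    have hNR : (0 : ℝ) < N := by exact_mod_cast hN
    have hN1 : (1 : ℝ) ≤ N := by exact_mod_cast hN
    set s := Real.sqrt N with hs
    have hs0 : 0 < s := Real.sqrt_pos.2 hNR
    have hs1 : 1 ≤ s := Real.one_le_sqrt.2 hN1
    have hsq : s * s = N := Real.mul_self_sqrt hNR.le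
    have hγ : |1 / s| ≤ 1 := by
      rw [abs_of_pos (by positivity), div_le_one hs0]; exact hs1
    have hγ' : |-(1 / s)| ≤ 1 := by rw [abs_neg]; exact hγ
    have e1 := conc hexp (μ := μ) (κ := κ) hγ N (hm N) (hl N)
    have e2 := conc hexp (μ := μ) (κ := κ) hγ' N (hm N) (hl N)
    have hval : ∀ γ : ℝ, γ ^ 2 = 1 / N → concK μ κ * γ ^ 2 * N = concK μ κ := by
      intro γ h; rw [h]; field_simp
    have hg1 : (1 / s) ^ 2 = 1 / (N : ℝ) := by rw [← hsq]; field_simp
    rw [hval _ hg1, ← hmdef] at e1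
    rw [hval _ (by rw [neg_sq]; exact hg1), ← hmdef] at e2
    have hint : Integrable (fun ω => |f N ω - m|) (seqLaw μ) :=
      (((hl N).integrable (hm N) hexp).sub (integrable_const m)).abs
    have hle : ENNReal.ofReal (∫ ω, |f N ω - m| ∂seqLaw μ) ≤
        ENNReal.ofReal (2 * s * Real.exp (concK μ κ)) := by
      rw [ofReal_integral_eq_lintegral_ofReal hint (ae_of_all _ fun _ => abs_nonneg _)]
      calc ∫⁻ ω, ENNReal.ofReal |f N ω - m| ∂seqLaw μ
          ≤ ∫⁻ ω, (ENNReal.ofReal s * ENNReal.ofReal (Real.exp (1 / s * (f N ω - m))) +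
              ENNReal.ofReal s * ENNReal.ofReal (Real.exp (-(1 / s) * (f N ω - m)))) ∂seqLaw μ := by
            apply lintegral_mono
            intro ω
            dsimp only
            rw [← ENNReal.ofReal_mul hs0.le, ← ENNReal.ofReal_mul hs0.le,
              ← ENNReal.ofReal_add (by positivity) (by positivity)]
            apply ENNReal.ofReal_le_ofReal
            have h1 := Real.add_one_le_exp (1 / s * (f N ω - m))
            have h2 := Real.add_one_le_exp (-(1 / s) * (f N ω - m))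
            have h3 : s * (1 / s * (f N ω - m)) = f N ω - m := by field_simp
            have h4 : s * (-(1 / s) * (f N ω - m)) = -(f N ω - m) := by field_simp
            have h5 := mul_le_mul_of_nonneg_left h1 hs0.le
            have h6 := mul_le_mul_of_nonneg_left h2 hs0.le
            have h7 := mul_nonneg hs0.le (Real.exp_pos (1 / s * (f N ω - m))).le
            have h8 := mul_nonneg hs0.le (Real.exp_pos (-(1 / s) * (f N ω - m))).le
            rcases abs_cases (f N ω - m) with ⟨h9, _⟩ | ⟨h9, _⟩ <;> rw [h9] <;> linarith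
        _ = ENNReal.ofReal s * ∫⁻ ω, ENNReal.ofReal (Real.exp (1 / s * (f N ω - m))) ∂seqLaw μ +
            ENNReal.ofReal s * ∫⁻ ω, ENNReal.ofReal (Real.exp (-(1 / s) * (f N ω - m))) ∂seqLaw μ := by
            have := hm N
            rw [lintegral_add_left (by fun_prop), lintegral_const_mul _ (by fun_prop),
              lintegral_const_mul _ (by fun_prop)]
        _ ≤ ENNReal.ofReal s * ENNReal.ofReal (Real.exp (concK μ κ)) +
            ENNReal.ofReal s * ENNReal.ofReal (Real.exp (concK μ κ)) :=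
            add_le_add (mul_le_mul_right e1 _) (mul_le_mul_right e2 _)
        _ = _ := by
            rw [← ENNReal.ofReal_mul hs0.le, ← ENNReal.ofReal_add (by positivity) (by positivity)]
            congr 1
            ring
    exact (ENNReal.ofReal_le_ofReal_iff (by positivity)).1 hle
  have hlim : Tendsto (fun N : ℕ => 2 * Real.exp (concK μ κ) * (1 / Real.sqrt N)) atTop (𝓝 0) := by
    have h1 : Tendsto (fun N : ℕ => Real.sqrt N) atTop atTop :=
      Real.tendsto_sqrt_atTop.comp tendsto_natCast_atTop_atTop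
    have h2 := (h1.const_div_atTop 1).const_mul (2 * Real.exp (concK μ κ))
    rw [mul_zero] at h2
    exact h2
  refine squeeze_zero' ?_ ?_ hlim
  · filter_upwards with N
    exact div_nonneg (integral_nonneg fun _ => abs_nonneg _) (Nat.cast_nonneg _)
  · filter_upwards [eventually_ge_atTop 1] with N hN
    have hNR : (0 : ℝ) < N := by exact_mod_cast hN
    rw [div_le_iff₀ hNR]
    refine (hb N hN).trans (le_of_eq ?_)
    have hsq : Real.sqrt N * Real.sqrt N = N := Real.mul_self_sqrt hNR.le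
    have hs0 : 0 < Real.sqrt N := Real.sqrt_pos.2 hNR
    calc 2 * Real.sqrt N * Real.exp (concK μ κ) =
        2 * Real.exp (concK μ κ) * (1 / Real.sqrt N) * (Real.sqrt N * Real.sqrt N) := by field_simp
      _ = _ := by rw [hsq]

end

end MP_daa227_pr
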