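import Pool.Agent.Lib.MP_daa227_pr.Exc

/-!
# Confinement cost for a general nearest-neighbour chain
-/

open MeasureTheory ProbabilityTheory Set Filter
open scoped ENNReal Topology

namespace MP_daa227_pr

noncomputable section

/-- If `φ ≥ a` on `[-b, b]` and the chain cannot leave this interval within `n` steps, every step
costs at least a factor `exp (-η a)`. -/
lemma Zf_det_le (C : Chain) {φ : ℤ → ℝ} {η a : ℝ} (hη : 0 ≤ η) (b : ℤ)
    (hφ : ∀ z : ℤ, |z| ≤ b → a ≤ φ z) : ∀ (n : ℕ) (ω : ℕ → ℝ) (x : ℤ), |x| + (n : ℤ) ≤ b →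
      Zf C (Wdet η φ) n ω x ≤ Real.exp (-(η * a) * n) := by
  intro n
  induction n with
  | zero =>
    intro ω x _
    simp [Zf]
  | succ n ih =>
    intro ω x hx
    have hstep : ∀ z ∈ Finset.Icc (x - 1) (x + 1),
        C.p x z * Wdet η φ (ω 0) z * Zf C (Wdet η φ) n (shift 1 ω) z ≤
          C.p x z * Real.exp (-(η * a) * ((n + 1 : ℕ) : ℝ)) := by
      intro z hz
      rw [Finset.mem_Icc] at hz
      have habs : |z| ≤ |x| + 1 := by
        rcases abs_cases z with ⟨h, _⟩ | ⟨h, _⟩ <;> rcases abs_cases x with ⟨h', _⟩ | ⟨h', _⟩ <;>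
          omega
      have hzb : |z| + (n : ℤ) ≤ b := by push_cast at hx; omega
      have hzb' : |z| ≤ b := by omega
      have h1 : Zf C (Wdet η φ) n (shift 1 ω) z ≤ Real.exp (-(η * a) * n) := ih _ z hzb
      have h2 : Wdet η φ (ω 0) z ≤ Real.exp (-(η * a)) := by
        unfold Wdet
        apply Real.exp_le_exp.mpr
        have := mul_le_mul_of_nonneg_left (hφ z hzb') hη
        linarith
      have h3 : 0 ≤ Wdet η φ (ω 0) z := (Real.exp_pos _).le
      have hp := C.nonneg x z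
      calc C.p x z * Wdet η φ (ω 0) z * Zf C (Wdet η φ) n (shift 1 ω) z
          ≤ C.p x z * Wdet η φ (ω 0) z * Real.exp (-(η * a) * n) :=
            mul_le_mul_of_nonneg_left h1 (mul_nonneg hp h3)
        _ ≤ C.p x z * Real.exp (-(η * a)) * Real.exp (-(η * a) * n) :=
            mul_le_mul_of_nonneg_right (mul_le_mul_of_nonneg_left h2 hp) (Real.exp_pos _).le
        _ = C.p x z * Real.exp (-(η * a) * ((n + 1 : ℕ) : ℝ)) := by
            rw [mul_assoc, ← Real.exp_add]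
            congr 2
            push_cast
            ring
    calc Zf C (Wdet η φ) (n + 1) ω x
        = ∑ z ∈ Finset.Icc (x - 1) (x + 1),
            C.p x z * Wdet η φ (ω 0) z * Zf C (Wdet η φ) n (shift 1 ω) z := rfl
      _ ≤ ∑ z ∈ Finset.Icc (x - 1) (x + 1),
            C.p x z * Real.exp (-(η * a) * ((n + 1 : ℕ) : ℝ)) := Finset.sum_le_sum hstep
      _ = Real.exp (-(η * a) * ((n + 1 : ℕ) : ℝ)) := by
          rw [← Finset.sum_mul, C.sum_one, one_mul]

theorem confine_general (C : Chain) {φ : ℤ → ℝ} {c θ : ℝ} (hc : 0 < c) (h0 : 0 ≤ θ) (h1 : θ < 1)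
    (hφ : ∀ x : ℤ, c * (1 + |(x : ℝ)|) ^ (-θ) ≤ φ x) : Confine C φ (1 - θ) := by
  intro η hη R
  have hR : (0 : ℝ) ≤ (R : ℝ) := Nat.cast_nonneg R
  refine ⟨1, one_pos, η * c * ((R : ℝ) + 2) ^ (-θ), by positivity, ?_⟩
  intro n x hx
  rw [one_mul]
  rcases Nat.eq_zero_or_pos n with rfl | hn
  · have hne : 1 - θ ≠ 0 := by linarith
    simp [Zf, Real.zero_rpow hne]
  · have hn1 : (1 : ℝ) ≤ (n : ℝ) := by exact_mod_cast hn
    have hn0 : (0 : ℝ) < (n : ℝ) := by linarith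
    have hφ' : ∀ z : ℤ, |z| ≤ (R : ℤ) + (n : ℤ) →
        c * (1 + ((R : ℝ) + (n : ℝ))) ^ (-θ) ≤ φ z := by
      intro z hz
      refine le_trans ?_ (hφ z)
      apply mul_le_mul_of_nonneg_left _ hc.le
      have hz' : |(z : ℝ)| ≤ (R : ℝ) + (n : ℝ) := by exact_mod_cast hz
      exact Real.rpow_le_rpow_of_nonpos (by positivity) (by linarith) (by linarith)
    have key := Zf_det_le C hη.le ((R : ℤ) + (n : ℤ)) hφ' n (fun _ => 0) x (by linarith)
    refine le_trans key (Real.exp_le_exp.mpr ?_)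
    have hle : (1 + ((R : ℝ) + (n : ℝ))) ≤ ((R : ℝ) + 2) * (n : ℝ) := by nlinarith
    have h2 : (((R : ℝ) + 2) * (n : ℝ)) ^ (-θ) ≤ (1 + ((R : ℝ) + (n : ℝ))) ^ (-θ) :=
      Real.rpow_le_rpow_of_nonpos (by positivity) hle (by linarith)
    rw [Real.mul_rpow (by positivity) hn0.le] at h2
    have h3 : (n : ℝ) ^ (1 - θ) = (n : ℝ) ^ (-θ) * (n : ℝ) := by
      rw [show (1 - θ) = -θ + 1 by ring, Real.rpow_add hn0, Real.rpow_one]
    rw [h3]
    have h4 : η * c * (((R : ℝ) + 2) ^ (-θ) * (n : ℝ) ^ (-θ)) * (n : ℝ) ≤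
        η * c * (1 + ((R : ℝ) + (n : ℝ))) ^ (-θ) * (n : ℝ) :=
      mul_le_mul_of_nonneg_right (mul_le_mul_of_nonneg_left h2 (by positivity)) hn0.le
    nlinarith [h4]

end

end MP_daa227_pr
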