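import Pool.Agent.Lib.MP_daa227_pr.Exc

/-!
# Confinement cost for a chain with drift `O(1/|x|)`
-/

open MeasureTheory ProbabilityTheory Set Filter
open scoped ENNReal Topology

namespace MP_daa227_pr

noncomputable section

namespace Conf2

theorem sinh_le_mul_cosh {y : ℝ} (hy : 0 ≤ y) : Real.sinh y ≤ y * Real.cosh y := by
  have hm : MonotoneOn (fun y : ℝ => y * Real.cosh y - Real.sinh y) (Set.Ici 0) := by
    refine monotoneOn_of_deriv_nonneg (convex_Ici 0) (by fun_prop) ?_ ?_
    · intro x _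
      apply DifferentiableAt.differentiableWithinAt
      exact (differentiableAt_id.mul Real.differentiable_cosh.differentiableAt).sub
        Real.differentiable_sinh.differentiableAt
    · intro x hx
      rw [interior_Ici] at hx
      have hx' : 0 < x := hx
      have h1 : HasDerivAt (fun y : ℝ => y * Real.cosh y - Real.sinh y)
          (1 * Real.cosh x + x * Real.sinh x - Real.cosh x) x :=
        ((hasDerivAt_id x).mul (Real.hasDerivAt_cosh x)).sub (Real.hasDerivAt_sinh x)
      rw [h1.deriv]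
      have := Real.sinh_pos_iff.mpr hx'
      nlinarith
  have := hm (Set.mem_Ici.mpr le_rfl) (Set.mem_Ici.mpr hy) hy
  simp at this
  linarith

theorem abs_sinh_le (y : ℝ) : |Real.sinh y| ≤ |y| * Real.cosh y := by
  rcases le_total 0 y with h | h
  · rw [abs_of_nonneg h, abs_of_nonneg (Real.sinh_nonneg_iff.mpr h)]
    exact sinh_le_mul_cosh h
  · rw [abs_of_nonpos h, abs_of_nonpos (Real.sinh_nonpos_iff.mpr h)]
    have := sinh_le_mul_cosh (y := -y) (by linarith)
    rwa [Real.sinh_neg, Real.cosh_neg] at this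

theorem Icc_eq (x : ℤ) : Finset.Icc (x - 1) (x + 1) = {x - 1, x, x + 1} := by
  ext y
  simp only [Finset.mem_Icc, Finset.mem_insert, Finset.mem_singleton]
  omega

theorem sum_Icc (x : ℤ) (f : ℤ → ℝ) :
    ∑ z ∈ Finset.Icc (x - 1) (x + 1), f z = f (x - 1) + f x + f (x + 1) := by
  rw [Icc_eq, Finset.sum_insert, Finset.sum_insert, Finset.sum_singleton]
  · ring
  · simp
  · simp only [Finset.mem_insert, Finset.mem_singleton]
    omega

/-- One step of the chain on `cosh (l x)`. -/
theorem step_cosh (C : Chain) {κ : ℝ} (hκ : 0 ≤ κ)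
    (hdrift : ∀ x : ℤ, |C.p x (x + 1) - C.p x (x - 1)| ≤ κ / (1 + |(x : ℝ)|))
    {l : ℝ} (hl : 0 ≤ l) (x : ℤ) :
    ∑ z ∈ Finset.Icc (x - 1) (x + 1), C.p x z * Real.cosh (l * z) ≤
      Real.exp ((κ + 1 / 2) * l ^ 2) * Real.cosh (l * x) := by
  rw [sum_Icc]
  have hs := C.sum_one x
  rw [sum_Icc] at hs
  have hp0 := C.nonneg x x
  have hpm := C.nonneg x (x - 1)
  have hpp := C.nonneg x (x + 1)
  have h1 : Real.cosh (l * ((x - 1 : ℤ) : ℝ)) =
      Real.cosh (l * x) * Real.cosh l - Real.sinh (l * x) * Real.sinh l := by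
    rw [← Real.cosh_sub]
    congr 1
    push_cast
    ring
  have h2 : Real.cosh (l * ((x + 1 : ℤ) : ℝ)) =
      Real.cosh (l * x) * Real.cosh l + Real.sinh (l * x) * Real.sinh l := by
    rw [← Real.cosh_add]
    congr 1
    push_cast
    ring
  rw [h1, h2]
  have hc1 : 1 ≤ Real.cosh l := Real.one_le_cosh l
  have hcx : 0 < Real.cosh (l * x) := Real.cosh_pos _
  have hsl : 0 ≤ Real.sinh l := Real.sinh_nonneg_iff.mpr hl
  have hsl2 : Real.sinh l ≤ l * Real.cosh l := sinh_le_mul_cosh hl
  have hsx : |Real.sinh (l * x)| ≤ l * |(x : ℝ)| * Real.cosh (l * x) := by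
    have := abs_sinh_le (l * x)
    rwa [abs_mul, abs_of_nonneg hl] at this
  have hd := hdrift x
  set δ := C.p x (x + 1) - C.p x (x - 1) with hδ
  -- the drift term
  have h3 : δ * (Real.sinh (l * x) * Real.sinh l) ≤
      κ * l ^ 2 * Real.cosh l * Real.cosh (l * x) := by
    have h4 : δ * (Real.sinh (l * x) * Real.sinh l) ≤ |δ| * (|Real.sinh (l * x)| * Real.sinh l) := by
      refine (le_abs_self _).trans ?_
      rw [abs_mul, abs_mul, abs_of_nonneg hsl]
    have hx0 : 0 ≤ |(x : ℝ)| := abs_nonneg _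
    have h5 : |δ| * |(x : ℝ)| ≤ κ := by
      calc |δ| * |(x : ℝ)| ≤ κ / (1 + |(x : ℝ)|) * |(x : ℝ)| := by gcongr
        _ = κ * (|(x : ℝ)| / (1 + |(x : ℝ)|)) := by ring
        _ ≤ κ * 1 := by
          gcongr
          rw [div_le_one (by positivity)]
          linarith
        _ = κ := mul_one _
    calc δ * (Real.sinh (l * x) * Real.sinh l) ≤ |δ| * (|Real.sinh (l * x)| * Real.sinh l) := h4
      _ ≤ |δ| * ((l * |(x : ℝ)| * Real.cosh (l * x)) * (l * Real.cosh l)) := by gcongr
      _ = (|δ| * |(x : ℝ)|) * (l ^ 2 * Real.cosh l * Real.cosh (l * x)) := by ring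
      _ ≤ κ * (l ^ 2 * Real.cosh l * Real.cosh (l * x)) := by
        gcongr
      _ = κ * l ^ 2 * Real.cosh l * Real.cosh (l * x) := by ring
  have h6 : C.p x (x - 1) * (Real.cosh (l * x) * Real.cosh l - Real.sinh (l * x) * Real.sinh l) +
      C.p x x * Real.cosh (l * x) +
      C.p x (x + 1) * (Real.cosh (l * x) * Real.cosh l + Real.sinh (l * x) * Real.sinh l) ≤
      (1 + κ * l ^ 2) * (Real.cosh l * Real.cosh (l * x)) := by
    have h7 : C.p x x * Real.cosh (l * x) ≤ C.p x x * (Real.cosh (l * x) * Real.cosh l) := by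
      have : Real.cosh (l * x) ≤ Real.cosh (l * x) * Real.cosh l := by nlinarith
      exact mul_le_mul_of_nonneg_left this hp0
    have h8 : C.p x (x - 1) * (Real.cosh (l * x) * Real.cosh l - Real.sinh (l * x) * Real.sinh l) +
      C.p x x * (Real.cosh (l * x) * Real.cosh l) +
      C.p x (x + 1) * (Real.cosh (l * x) * Real.cosh l + Real.sinh (l * x) * Real.sinh l) =
      (C.p x (x - 1) + C.p x x + C.p x (x + 1)) * (Real.cosh (l * x) * Real.cosh l) +
      δ * (Real.sinh (l * x) * Real.sinh l) := by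
      rw [hδ]
      ring
    rw [hs] at h8
    nlinarith
  refine h6.trans ?_
  have h9 : 1 + κ * l ^ 2 ≤ Real.exp (κ * l ^ 2) := by
    have := Real.add_one_le_exp (κ * l ^ 2)
    linarith
  have h10 := Real.cosh_le_exp_half_sq l
  have h11 : (1 + κ * l ^ 2) * Real.cosh l ≤ Real.exp ((κ + 1 / 2) * l ^ 2) := by
    calc (1 + κ * l ^ 2) * Real.cosh l ≤ Real.exp (κ * l ^ 2) * Real.exp (l ^ 2 / 2) := by
          gcongr
      _ = Real.exp ((κ + 1 / 2) * l ^ 2) := by
          rw [← Real.exp_add]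
          congr 1
          ring
  calc (1 + κ * l ^ 2) * (Real.cosh l * Real.cosh (l * x))
      = ((1 + κ * l ^ 2) * Real.cosh l) * Real.cosh (l * x) := by ring
    _ ≤ Real.exp ((κ + 1 / 2) * l ^ 2) * Real.cosh (l * x) := by gcongr

theorem Zf_det_nonneg (C : Chain) (η : ℝ) (φ : ℤ → ℝ) (n : ℕ) (ω : ℕ → ℝ) (x : ℤ) :
    0 ≤ Zf C (Wdet η φ) n ω x := by
  induction n generalizing ω x with
  | zero => simp [Zf]
  | succ n ih =>
    rw [Zf]
    refine Finset.sum_nonneg fun z _ => ?_
    exact mul_nonneg (mul_nonneg (C.nonneg _ _) (Real.exp_pos _).le) (ih _ _)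

theorem Zf_det_le_one (C : Chain) {η : ℝ} (hη : 0 ≤ η) {φ : ℤ → ℝ} (h0 : ∀ x, 0 ≤ φ x) (n : ℕ)
    (ω : ℕ → ℝ) (x : ℤ) : Zf C (Wdet η φ) n ω x ≤ 1 := by
  induction n generalizing ω x with
  | zero => simp [Zf]
  | succ n ih =>
    rw [Zf, ← C.sum_one x]
    refine Finset.sum_le_sum fun z _ => ?_
    have h1 : Wdet η φ (ω 0) z ≤ 1 := by
      rw [Wdet, Real.exp_le_one_iff]
      have := mul_nonneg hη (h0 z)
      linarith
    have h2 : 0 ≤ Wdet η φ (ω 0) z := (Real.exp_pos _).le
    have h3 := ih (shift 1 ω) z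
    have h4 := Zf_det_nonneg C η φ n (shift 1 ω) z
    have h5 := C.nonneg x z
    calc C.p x z * Wdet η φ (ω 0) z * Zf C (Wdet η φ) n (shift 1 ω) z
        ≤ C.p x z * 1 * 1 := by gcongr
      _ = C.p x z := by ring

theorem main_bound (C : Chain) {κ : ℝ} (hκ : 0 ≤ κ)
    (hdrift : ∀ x : ℤ, |C.p x (x + 1) - C.p x (x - 1)| ≤ κ / (1 + |(x : ℝ)|))
    {η : ℝ} (hη : 0 ≤ η) {φ : ℤ → ℝ} (h0 : ∀ x, 0 ≤ φ x) {l a D : ℝ} (hl : 0 ≤ l) (hD : 0 ≤ D)
    (ha : 0 ≤ a) (hφ : ∀ z : ℤ, |(z : ℝ)| ≤ D → a ≤ η * φ z) (n : ℕ) (ω : ℕ → ℝ) (x : ℤ) :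
    Zf C (Wdet η φ) n ω x ≤ Real.exp (-a * n) +
      n * Real.exp ((κ + 1 / 2) * l ^ 2 * n) * (Real.cosh (l * x) / Real.cosh (l * D)) := by
  induction n generalizing ω x with
  | zero => simp [Zf]
  | succ n ih =>
    rw [Zf]
    set K := κ + 1 / 2 with hK
    have hK0 : 0 ≤ K := by positivity
    set E := Real.exp (K * l ^ 2 * n) with hE
    have hE1 : 1 ≤ E := Real.one_le_exp (by positivity)
    have hcD : 0 < Real.cosh (l * D) := Real.cosh_pos _
    have hterm : ∀ z ∈ Finset.Icc (x - 1) (x + 1),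
        C.p x z * Wdet η φ (ω 0) z * Zf C (Wdet η φ) n (shift 1 ω) z ≤
        C.p x z * Real.exp (-a * (n + 1 : ℕ)) +
          (n + 1) * E / Real.cosh (l * D) * (C.p x z * Real.cosh (l * z)) := by
      intro z _
      have h5 := C.nonneg x z
      have hZ0 := Zf_det_nonneg C η φ n (shift 1 ω) z
      have hZ1 := Zf_det_le_one C hη h0 n (shift 1 ω) z
      have hW0 : 0 ≤ Wdet η φ (ω 0) z := (Real.exp_pos _).le
      have hcz : 0 < Real.cosh (l * z) := Real.cosh_pos _
      have hW1 : Wdet η φ (ω 0) z ≤ 1 := by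
        rw [Wdet, Real.exp_le_one_iff]
        have := mul_nonneg hη (h0 z)
        linarith
      have hgoal : Wdet η φ (ω 0) z * Zf C (Wdet η φ) n (shift 1 ω) z ≤
          Real.exp (-a * (n + 1 : ℕ)) + (n + 1) * E / Real.cosh (l * D) * Real.cosh (l * z) := by
        by_cases hz : |(z : ℝ)| ≤ D
        · have hWa : Wdet η φ (ω 0) z ≤ Real.exp (-a) := by
            rw [Wdet]
            apply Real.exp_le_exp.mpr
            have := hφ z hz
            linarith
          have h6 := ih (shift 1 ω) z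
          have hea : Real.exp (-a) ≤ 1 := Real.exp_le_one_iff.mpr (by linarith)
          have hea0 := Real.exp_pos (-a)
          have h7 : 0 ≤ n * E * (Real.cosh (l * z) / Real.cosh (l * D)) := by positivity
          calc Wdet η φ (ω 0) z * Zf C (Wdet η φ) n (shift 1 ω) z
              ≤ Real.exp (-a) * (Real.exp (-a * n) +
                n * E * (Real.cosh (l * z) / Real.cosh (l * D))) := by gcongr
            _ = Real.exp (-a) * Real.exp (-a * n) +
                Real.exp (-a) * (n * E * (Real.cosh (l * z) / Real.cosh (l * D))) := by ring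
            _ ≤ Real.exp (-a * (n + 1 : ℕ)) +
                1 * (n * E * (Real.cosh (l * z) / Real.cosh (l * D))) := by
                refine add_le_add ?_ ?_
                · rw [← Real.exp_add]
                  apply le_of_eq
                  congr 1
                  push_cast
                  ring
                · exact mul_le_mul_of_nonneg_right hea h7
            _ ≤ Real.exp (-a * (n + 1 : ℕ)) +
                (n + 1) * E / Real.cosh (l * D) * Real.cosh (l * z) := by
                have : 0 ≤ E / Real.cosh (l * D) * Real.cosh (l * z) := by positivity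
                have h8 : (n + 1) * E / Real.cosh (l * D) * Real.cosh (l * z) =
                    1 * (n * E * (Real.cosh (l * z) / Real.cosh (l * D))) +
                    E / Real.cosh (l * D) * Real.cosh (l * z) := by ring
                linarith
        · push Not at hz
          have h6 : Real.cosh (l * D) ≤ Real.cosh (l * z) := by
            rw [← Real.cosh_abs (l * z), ← Real.cosh_abs (l * D), Real.cosh_le_cosh,
              abs_abs, abs_abs, abs_mul, abs_mul, abs_of_nonneg hl, abs_of_nonneg hD]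
            gcongr
          have h7 : 1 ≤ E / Real.cosh (l * D) * Real.cosh (l * z) := by
            rw [div_mul_eq_mul_div, one_le_div hcD]
            nlinarith
          have h8 : E / Real.cosh (l * D) * Real.cosh (l * z) ≤
              (n + 1) * E / Real.cosh (l * D) * Real.cosh (l * z) := by
            have h9 : (n + 1) * E / Real.cosh (l * D) * Real.cosh (l * z) =
              n * (E / Real.cosh (l * D) * Real.cosh (l * z)) +
              E / Real.cosh (l * D) * Real.cosh (l * z) := by ring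
            have : (0 : ℝ) ≤ n * (E / Real.cosh (l * D) * Real.cosh (l * z)) := by positivity
            linarith
          have h9 : Wdet η φ (ω 0) z * Zf C (Wdet η φ) n (shift 1 ω) z ≤ 1 := by
            calc _ ≤ (1 : ℝ) * 1 := by gcongr
              _ = 1 := one_mul _
          have := Real.exp_pos (-a * (n + 1 : ℕ))
          linarith
      calc C.p x z * Wdet η φ (ω 0) z * Zf C (Wdet η φ) n (shift 1 ω) z
          = C.p x z * (Wdet η φ (ω 0) z * Zf C (Wdet η φ) n (shift 1 ω) z) := by ring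
        _ ≤ C.p x z * (Real.exp (-a * (n + 1 : ℕ)) +
              (n + 1) * E / Real.cosh (l * D) * Real.cosh (l * z)) := by gcongr
        _ = _ := by ring
    refine (Finset.sum_le_sum hterm).trans ?_
    rw [Finset.sum_add_distrib, ← Finset.sum_mul, ← Finset.mul_sum, C.sum_one, one_mul]
    have h1 := step_cosh C hκ hdrift hl x
    have h2 : (n + 1) * E / Real.cosh (l * D) *
        ∑ z ∈ Finset.Icc (x - 1) (x + 1), C.p x z * Real.cosh (l * z) ≤
        (n + 1) * E / Real.cosh (l * D) * (Real.exp (K * l ^ 2) * Real.cosh (l * x)) := by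
      gcongr
    have h3 : (n + 1) * E / Real.cosh (l * D) * (Real.exp (K * l ^ 2) * Real.cosh (l * x)) =
        ((n + 1 : ℕ) : ℝ) * Real.exp (K * l ^ 2 * (n + 1 : ℕ)) *
          (Real.cosh (l * x) / Real.cosh (l * D)) := by
      have h4 : Real.exp (K * l ^ 2 * (n + 1 : ℕ)) = E * Real.exp (K * l ^ 2) := by
        rw [hE, ← Real.exp_add]
        congr 1
        push_cast
        ring
      rw [h4]
      push_cast
      ring
    linarith

/-- `t ^ s ≤ (s/b)^s exp (b t)`. -/
theorem rpow_le_exp {s b t : ℝ} (hs : 0 < s) (hb : 0 < b) (ht : 0 ≤ t) :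
    t ^ s ≤ (s / b) ^ s * Real.exp (b * t) := by
  have h1 : t ≤ (s / b) * Real.exp (b / s * t) := by
    have h2 := Real.add_one_le_exp (b / s * t)
    have h3 : b / s * t ≤ Real.exp (b / s * t) := by linarith
    calc t = (s / b) * (b / s * t) := by field_simp
      _ ≤ (s / b) * Real.exp (b / s * t) := by gcongr
  calc t ^ s ≤ ((s / b) * Real.exp (b / s * t)) ^ s := Real.rpow_le_rpow ht h1 hs.le
    _ = (s / b) ^ s * (Real.exp (b / s * t)) ^ s :=
        Real.mul_rpow (by positivity) (Real.exp_pos _).le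
    _ = (s / b) ^ s * Real.exp (b * t) := by
        rw [← Real.exp_mul]
        congr 2
        field_simp

end Conf2

open Conf2 in
theorem confine_bessel (C : Chain) {φ : ℤ → ℝ} {c θ κ : ℝ} (hc : 0 < c) (h0 : 0 ≤ θ) (h1 : θ < 2)
    (hφ : ∀ x : ℤ, c * (1 + |(x : ℝ)|) ^ (-θ) ≤ φ x)
    (hdrift : ∀ x : ℤ, |C.p x (x + 1) - C.p x (x - 1)| ≤ κ / (1 + |(x : ℝ)|)) :
    Confine C φ ((2 - θ) / (2 + θ)) := by
  have hκ : 0 ≤ κ := by
    have h2 := (abs_nonneg _).trans (hdrift 0)
    simpa using h2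
  have hφ0 : ∀ x, 0 ≤ φ x := by
    intro x
    refine le_trans ?_ (hφ x)
    positivity
  intro η hη R
  set r := (2 - θ) / (2 + θ) with hr
  have hr0 : 0 < r := div_pos (by linarith) (by linarith)
  set K := κ + 1 / 2 with hK
  set K' := K + 1 with hK'
  have hK0 : 0 < K := by positivity
  have hK'1 : 1 ≤ K' := by linarith
  set b := 1 / (4 * K') with hb
  have hb0 : 0 < b := by positivity
  set c' := η * c * 2 ^ (-θ) with hc'
  have hc'0 : 0 < c' := by positivity
  set s := 1 / r with hs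
  have hs0 : 0 < s := by positivity
  set Q := (s / (b / 2)) ^ s with hQ
  have hQ0 : 0 < Q := by positivity
  refine ⟨1 + 2 * Real.exp R * Q, by positivity, min c' (b / 2), by positivity, ?_⟩
  intro n x hx
  rcases Nat.eq_zero_or_pos n with hn | hn
  · subst hn
    simp only [Zf, Nat.cast_zero, Real.zero_rpow hr0.ne', mul_zero, Real.exp_zero, mul_one]
    have : 0 < 2 * Real.exp R * Q := by positivity
    linarith
  have hn1 : (1 : ℝ) ≤ n := by exact_mod_cast hn
  have hn0 : (0 : ℝ) < n := by linarith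
  set D := (n : ℝ) ^ (2 / (2 + θ)) with hD
  have hθ2 : 0 < 2 + θ := by linarith
  have hD1 : 1 ≤ D := Real.one_le_rpow hn1 (by positivity)
  have hDn : D ≤ n := by
    calc D ≤ (n : ℝ) ^ (1 : ℝ) := by
          apply Real.rpow_le_rpow_of_exponent_le hn1
          rw [div_le_one hθ2]
          linarith
      _ = n := Real.rpow_one _
  set l := D / (2 * K' * n) with hl
  have hl0 : 0 < l := by positivity
  have hl1 : l ≤ 1 := by
    rw [hl, div_le_one (by positivity)]
    nlinarith
  set a := η * (c * (1 + D) ^ (-θ)) with ha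
  have ha0 : 0 ≤ a := by positivity
  have haφ : ∀ z : ℤ, |(z : ℝ)| ≤ D → a ≤ η * φ z := by
    intro z hz
    have h2 : (1 + D) ^ (-θ) ≤ (1 + |(z : ℝ)|) ^ (-θ) := by
      rw [Real.rpow_neg (by positivity), Real.rpow_neg (by positivity)]
      gcongr
    have h3 := hφ z
    calc a ≤ η * (c * (1 + |(z : ℝ)|) ^ (-θ)) := by
          rw [ha]
          gcongr
      _ ≤ η * φ z := by gcongr
  have hmain := main_bound C hκ hdrift hη.le hφ0 hl0.le (by positivity) ha0 haφ n (fun _ => 0) x
  refine hmain.trans ?_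
  -- powers
  have hDsq : D ^ 2 / n = (n : ℝ) ^ r := by
    have h2 : D ^ 2 = (n : ℝ) ^ (4 / (2 + θ)) := by
      rw [hD, ← Real.rpow_natCast, ← Real.rpow_mul hn0.le]
      congr 1
      push_cast
      ring
    rw [h2]
    nth_rewrite 2 [← Real.rpow_one (n : ℝ)]
    rw [← Real.rpow_sub hn0]
    congr 1
    rw [hr]
    field_simp
    ring
  have han : c' * (n : ℝ) ^ r ≤ a * n := by
    have h2 : (2 * D) ^ (-θ) ≤ (1 + D) ^ (-θ) := by
      rw [Real.rpow_neg (by positivity), Real.rpow_neg (by positivity)]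
      gcongr
      linarith
    have h3 : (2 * D) ^ (-θ) * n = 2 ^ (-θ) * (n : ℝ) ^ r := by
      rw [Real.mul_rpow (by norm_num) (by positivity), hD, ← Real.rpow_mul hn0.le, mul_assoc]
      congr 1
      nth_rewrite 2 [← Real.rpow_one (n : ℝ)]
      rw [← Real.rpow_add hn0]
      congr 1
      rw [hr]
      field_simp
      ring
    calc c' * (n : ℝ) ^ r = η * c * (2 ^ (-θ) * (n : ℝ) ^ r) := by rw [hc']; ring
      _ = η * c * ((2 * D) ^ (-θ) * n) := by rw [h3]
      _ ≤ η * c * ((1 + D) ^ (-θ) * n) := by gcongr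
      _ = a * n := by rw [ha]; ring
  -- the second term
  have hcD : Real.exp (l * D) / 2 ≤ Real.cosh (l * D) := by
    rw [Real.cosh_eq]
    have := Real.exp_pos (-(l * D))
    linarith
  have hcx : Real.cosh (l * x) ≤ Real.exp R := by
    have h2 : |l * (x : ℝ)| ≤ R := by
      rw [abs_mul, abs_of_pos hl0]
      have h3 : |(x : ℝ)| ≤ R := by exact_mod_cast hx
      have h4 : 0 ≤ |(x : ℝ)| := abs_nonneg _
      nlinarith
    rw [← Real.cosh_abs, Real.cosh_eq]
    have h3 : Real.exp (|l * (x : ℝ)|) ≤ Real.exp R := Real.exp_le_exp.mpr h2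
    have h4 : Real.exp (-|l * (x : ℝ)|) ≤ Real.exp R := by
      apply Real.exp_le_exp.mpr
      have : 0 ≤ |l * (x : ℝ)| := abs_nonneg _
      have : (0 : ℝ) ≤ R := by positivity
      linarith
    linarith
  have h5 : Real.exp (K * l ^ 2 * n) * (Real.cosh (l * x) / Real.cosh (l * D)) ≤
      2 * Real.exp R * Real.exp (-b * (n : ℝ) ^ r) := by
    have h6 : Real.cosh (l * x) / Real.cosh (l * D) ≤ Real.exp R / (Real.exp (l * D) / 2) := by
      gcongr
    have h7 : K * l ^ 2 * n - l * D ≤ -b * (n : ℝ) ^ r := by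
      rw [← hDsq]
      have h8 : K * l ^ 2 * n ≤ 1 / (4 * K') * (D ^ 2 / n) := by
        have h9 : K * l ^ 2 * n = K / (4 * K' ^ 2) * (D ^ 2 / n) := by
          rw [hl]
          field_simp
          ring
        rw [h9]
        have h10 : K / (4 * K' ^ 2) ≤ 1 / (4 * K') := by
          rw [div_le_div_iff₀ (by positivity) (by positivity)]
          nlinarith
        gcongr
      have h9 : l * D = 1 / (2 * K') * (D ^ 2 / n) := by
        rw [hl]
        field_simp
      rw [h9]
      have h10 : (1 : ℝ) / (2 * K') = 2 * (1 / (4 * K')) := by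
        field_simp
        norm_num
      rw [h10, hb]
      linarith
    calc Real.exp (K * l ^ 2 * n) * (Real.cosh (l * x) / Real.cosh (l * D))
        ≤ Real.exp (K * l ^ 2 * n) * (Real.exp R / (Real.exp (l * D) / 2)) := by gcongr
      _ = 2 * Real.exp R * Real.exp (K * l ^ 2 * n - l * D) := by
          rw [Real.exp_sub]
          field_simp
      _ ≤ 2 * Real.exp R * Real.exp (-b * (n : ℝ) ^ r) := by gcongr
  have h6 : (n : ℝ) * Real.exp (-b * (n : ℝ) ^ r) ≤ Q * Real.exp (-(b / 2) * (n : ℝ) ^ r) := by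
    have h7 := rpow_le_exp (t := (n : ℝ) ^ r) hs0 (half_pos hb0) (by positivity)
    rw [← Real.rpow_mul hn0.le, hs, mul_one_div_cancel hr0.ne', Real.rpow_one] at h7
    calc (n : ℝ) * Real.exp (-b * (n : ℝ) ^ r)
        ≤ (Q * Real.exp (b / 2 * (n : ℝ) ^ r)) * Real.exp (-b * (n : ℝ) ^ r) := by
          gcongr
      _ = Q * Real.exp (-(b / 2) * (n : ℝ) ^ r) := by
          rw [mul_assoc, ← Real.exp_add]
          congr 2
          ring
  have hmin1 : Real.exp (-a * n) ≤ Real.exp (-min c' (b / 2) * (n : ℝ) ^ r) := by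
    apply Real.exp_le_exp.mpr
    have h7 : min c' (b / 2) * (n : ℝ) ^ r ≤ c' * (n : ℝ) ^ r := by
      gcongr
      exact min_le_left _ _
    linarith
  have hmin2 : Real.exp (-(b / 2) * (n : ℝ) ^ r) ≤ Real.exp (-min c' (b / 2) * (n : ℝ) ^ r) := by
    apply Real.exp_le_exp.mpr
    have h7 : min c' (b / 2) * (n : ℝ) ^ r ≤ (b / 2) * (n : ℝ) ^ r := by
      gcongr
      exact min_le_right _ _
    linarith
  calc Real.exp (-a * n) + n * Real.exp (K * l ^ 2 * n) * (Real.cosh (l * x) / Real.cosh (l * D))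
      = Real.exp (-a * n) +
        n * (Real.exp (K * l ^ 2 * n) * (Real.cosh (l * x) / Real.cosh (l * D))) := by ring
    _ ≤ Real.exp (-a * n) + n * (2 * Real.exp R * Real.exp (-b * (n : ℝ) ^ r)) := by gcongr
    _ = Real.exp (-a * n) + 2 * Real.exp R * (n * Real.exp (-b * (n : ℝ) ^ r)) := by ring
    _ ≤ Real.exp (-a * n) + 2 * Real.exp R * (Q * Real.exp (-(b / 2) * (n : ℝ) ^ r)) := by gcongr
    _ ≤ Real.exp (-min c' (b / 2) * (n : ℝ) ^ r) +
        2 * Real.exp R * (Q * Real.exp (-min c' (b / 2) * (n : ℝ) ^ r)) := by gcongr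
    _ = (1 + 2 * Real.exp R * Q) * Real.exp (-min c' (b / 2) * (n : ℝ) ^ r) := by ring

end

end MP_daa227_pr
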