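import Pool.Agent.Lib.MP_daa227_pr.Limit

/-!
# Reduction of the confinement criterion to the chain started at `0`
-/

open MeasureTheory ProbabilityTheory Set Filter
open scoped ENNReal Topology

namespace MP_daa227_pr

noncomputable section

lemma Zk_one_pos {C : Chain} {W : ℝ → ℤ → ℝ} (hW : ∀ a z, 0 < W a z) (ω : ℕ → ℝ) {x y : ℤ}
    (hy : y ∈ Finset.Icc (x - 1) (x + 1)) (hp : 0 < C.p x y) : 0 < Zk C W 1 ω x y := by
  simp only [Zk]
  apply Finset.sum_pos'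
  · intro z _
    refine mul_nonneg (mul_nonneg (C.nonneg _ _) (hW _ _).le) ?_
    split_ifs <;> norm_num
  · refine ⟨y, hy, ?_⟩
    simp only [if_true, mul_one]
    exact mul_pos hp (hW _ _)

lemma Zk_up_pos {C : Chain} {W : ℝ → ℤ → ℝ} (hW : ∀ a z, 0 < W a z) (ω : ℕ → ℝ) (x : ℤ) :
    ∀ n : ℕ, 0 < Zk C W n ω x (x + n)
  | 0 => by simp [Zk]
  | n + 1 => by
      have h1 := Zk_up_pos hW ω x n (C := C)
      have h2 := Zk_one_pos (C := C) hW (shift n ω) (x := x + n) (y := x + n + 1)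
        (by simp only [Finset.mem_Icc]; omega) (C.up _)
      have h3 := Zk_mul_le C W (fun a z => (hW a z).le) n 1 ω x (x + n) (x + n + 1)
      rw [show x + ((n + 1 : ℕ) : ℤ) = x + n + 1 by push_cast; ring]
      exact (mul_pos h1 h2).trans_le h3

lemma Zk_down_pos {C : Chain} {W : ℝ → ℤ → ℝ} (hW : ∀ a z, 0 < W a z) (ω : ℕ → ℝ) (x : ℤ) :
    ∀ n : ℕ, 0 < Zk C W n ω x (x - n)
  | 0 => by simp [Zk]
  | n + 1 => by
      have h1 := Zk_down_pos hW ω x n (C := C)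
      have h2 := Zk_one_pos (C := C) hW (shift n ω) (x := x - n) (y := x - n - 1)
        (by simp only [Finset.mem_Icc]; omega) (C.down _)
      have h3 := Zk_mul_le C W (fun a z => (hW a z).le) n 1 ω x (x - n) (x - n - 1)
      rw [show x - ((n + 1 : ℕ) : ℤ) = x - n - 1 by push_cast; ring]
      exact (mul_pos h1 h2).trans_le h3

lemma Zk_from_zero_pos {C : Chain} {W : ℝ → ℤ → ℝ} (hW : ∀ a z, 0 < W a z) (ω : ℕ → ℝ) (x : ℤ) :
    0 < Zk C W x.natAbs ω 0 x := by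
  rcases le_or_gt 0 x with h | h
  · have := Zk_up_pos (C := C) hW ω 0 x.natAbs
    rw [show (0 : ℤ) + (x.natAbs : ℤ) = x by omega] at this
    exact this
  · have := Zk_down_pos (C := C) hW ω 0 x.natAbs
    rw [show (0 : ℤ) - (x.natAbs : ℤ) = x by omega] at this
    exact this

lemma Zf_const_shift {C : Chain} {η : ℝ} {φ : ℤ → ℝ} : ∀ (n : ℕ) (ω ω' : ℕ → ℝ) (x : ℤ),
    Zf C (Wdet η φ) n ω x = Zf C (Wdet η φ) n ω' x
  | 0, _, _, _ => rfl
  | n + 1, ω, ω', x => by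
      simp only [Zf, Wdet]
      apply Finset.sum_congr rfl
      intro z _
      congr 1
      exact Zf_const_shift n _ _ z

/-- It is enough to check the confinement criterion for the chain started at `0`. -/
theorem confine_of_zero (C : Chain) {φ : ℤ → ℝ} {r : ℝ} (hr : 0 < r)
    (h : ∀ η : ℝ, 0 < η → ∃ A a : ℝ, 0 < a ∧ ∀ n : ℕ,
      Zf C (Wdet η φ) n (fun _ => 0) 0 ≤ A * Real.exp (-a * (n : ℝ) ^ r)) : Confine C φ r := by
  intro η hη R
  obtain ⟨A, a, ha, hA⟩ := h η hη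
  have hW : ∀ (b : ℝ) (z : ℤ), 0 < Wdet η φ b z := fun _ _ => Real.exp_pos _
  have hA0 : 0 < A := by
    have h1 := hA 0
    have h2 : Zf C (Wdet η φ) 0 (fun _ => 0) 0 = 1 := rfl
    rw [h2] at h1
    by_contra hcon
    push Not at hcon
    have := mul_nonpos_of_nonpos_of_nonneg hcon (Real.exp_pos (-a * ((0 : ℕ) : ℝ) ^ r)).le
    linarith
  obtain ⟨c, hc0, hc⟩ := Model.finset_pos_min (Finset.Icc (-(R : ℤ)) R)
    (fun x c => c ≤ Zk C (Wdet η φ) x.natAbs (fun _ => 0) 0 x) (fun x c c' _ h1 h2 => h1.trans h2)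
    (fun x _ => ⟨_, Zk_from_zero_pos (C := C) hW (fun _ => 0) x, le_rfl⟩)
  refine ⟨A / c, by positivity, a, ha, fun n x hx => ?_⟩
  have hxB : x ∈ Finset.Icc (-(R : ℤ)) R := by rw [Finset.mem_Icc]; rw [abs_le] at hx; omega
  have h1 := Zk_mul_Zf_le C (Wdet η φ) (fun b z => (hW b z).le) x.natAbs n (fun _ => 0) 0 x
  rw [Zf_const_shift n (shift x.natAbs fun _ => 0) (fun _ => 0) x] at h1
  have h2 := hA (x.natAbs + n)
  have h3 : Real.exp (-a * ((x.natAbs + n : ℕ) : ℝ) ^ r) ≤ Real.exp (-a * (n : ℝ) ^ r) := by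
    apply Real.exp_le_exp.2
    have h4 : (n : ℝ) ^ r ≤ ((x.natAbs + n : ℕ) : ℝ) ^ r := by
      apply Real.rpow_le_rpow (Nat.cast_nonneg _) _ hr.le
      exact_mod_cast Nat.le_add_left n x.natAbs
    have := mul_le_mul_of_nonneg_left h4 ha.le
    linarith
  have h5 := hc x hxB
  have h6 : 0 ≤ Zf C (Wdet η φ) n (fun _ => 0) x := (Zf_pos C hW n _ x).le
  have h7 : c * Zf C (Wdet η φ) n (fun _ => 0) x ≤ A * Real.exp (-a * (n : ℝ) ^ r) := by
    calc c * Zf C (Wdet η φ) n (fun _ => 0) x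
        ≤ Zk C (Wdet η φ) x.natAbs (fun _ => 0) 0 x * Zf C (Wdet η φ) n (fun _ => 0) x :=
          mul_le_mul_of_nonneg_right h5 h6
      _ ≤ _ := h1.trans (h2.trans (mul_le_mul_of_nonneg_left h3 hA0.le))
  rw [div_mul_eq_mul_div, le_div_iff₀ hc0]
  linarith

end

end MP_daa227_pr
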