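import Pool.Agent.Lib.MP_daa227_pr.Exc

/-!
# The recursions are expectations under the Markov chain
-/

open MeasureTheory ProbabilityTheory Set Filter
open scoped ENNReal Topology

namespace MP_daa227_pr

noncomputable section

/-- `S` is a Markov chain started at `0` with transition probabilities `p`. -/
def IsChain {Ω : Type*} [MeasurableSpace Ω] (P : Measure Ω) (p : ℤ → ℤ → ℝ) (S : ℕ → Ω → ℤ) : Prop :=
  (∀ n, Measurable (S n)) ∧ ∀ (n : ℕ) (x : ℕ → ℤ), x 0 = 0 →
    P {w | ∀ i ≤ n, S i w = x i} = ENNReal.ofReal (∏ i ∈ Finset.range n, p (x i) (x (i + 1)))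

namespace Mark

/-- Expectation of a product of weights along the chain, as a recursion. -/
def Tw (C : Chain) : ℕ → (ℕ → ℤ → ℝ≥0∞) → ℤ → ℝ≥0∞
  | 0, _, _ => 1
  | N + 1, w, x => ∑ z ∈ Finset.Icc (x - 1) (x + 1),
      ENNReal.ofReal (C.p x z) * w 0 z * Tw C N (fun i => w (i + 1)) z

/-- The event that the chain follows `x` up to time `n`. -/
def Ev {Ω : Type*} (S : ℕ → Ω → ℤ) (n : ℕ) (x : ℕ → ℤ) : Set Ω := {w | ∀ i ≤ n, S i w = x i}

lemma measurableSet_Ev {Ω : Type*} [MeasurableSpace Ω] {S : ℕ → Ω → ℤ}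
    (hS : ∀ n, Measurable (S n)) (n : ℕ) (x : ℕ → ℤ) : MeasurableSet (Ev S n x) := by
  have h : Ev S n x = ⋂ i ∈ Set.Iic n, S i ⁻¹' {x i} := by
    ext w
    simp [Ev]
  rw [h]
  exact MeasurableSet.biInter (Set.to_countable _) fun i _ => hS i (measurableSet_singleton _)

variable {Ω : Type*} [MeasurableSpace Ω] {P : Measure Ω} {C : Chain} {S : ℕ → Ω → ℤ}

lemma lintegral_Ev (hS : IsChain P C.p S) : ∀ (N : ℕ) (w : ℕ → ℤ → ℝ≥0∞) (n : ℕ) (x : ℕ → ℤ),
    x 0 = 0 → ∫⁻ ω in Ev S n x, ∏ i ∈ Finset.range N, w i (S (n + 1 + i) ω) ∂P =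
      P (Ev S n x) * Tw C N w (x n)
  | 0, w, n, x, _ => by simp [Tw]
  | N + 1, w, n, x, hx => by
      set y : ℤ → ℕ → ℤ := fun z i => if i ≤ n then x i else z with hy
      have hy0 : ∀ z, y z 0 = 0 := fun z => by simp [hy, hx]
      have hE : Ev S n x = ⋃ z : ℤ, Ev S (n + 1) (y z) := by
        ext ω
        simp only [Ev, Set.mem_ofPred_eq, Set.mem_iUnion, hy]
        constructor
        · intro h
          refine ⟨S (n + 1) ω, fun i hi => ?_⟩
          by_cases hin : i ≤ n
          · rw [if_pos hin]; exact h i hin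
          · rw [if_neg hin]
            have : i = n + 1 := by omega
            rw [this]
        · rintro ⟨z, h⟩ i hi
          have := h i (by omega)
          rwa [if_pos hi] at this
      have hSz : ∀ z, ∀ ω ∈ Ev S (n + 1) (y z), S (n + 1) ω = z := by
        intro z ω hω
        have := hω (n + 1) le_rfl
        simpa [hy] using this
      have hdisj : Pairwise (Function.onFun Disjoint fun z => Ev S (n + 1) (y z)) := by
        intro z z' hzz
        rw [Function.onFun, Set.disjoint_left]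
        intro ω h1 h2
        exact hzz ((hSz z ω h1).symm.trans (hSz z' ω h2))
      have hP : ∀ z, P (Ev S (n + 1) (y z)) = P (Ev S n x) * ENNReal.ofReal (C.p (x n) z) := by
        intro z
        have h1 := hS.2 (n + 1) (y z) (hy0 z)
        have h2 := hS.2 n x hx
        rw [Ev, Ev, h1, h2, Finset.prod_range_succ, ENNReal.ofReal_mul
          (Finset.prod_nonneg fun i _ => C.nonneg _ _)]
        have h3 : y z n = x n := by simp [hy]
        have h4 : y z (n + 1) = z := by simp [hy]
        rw [h3, h4]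
        congr 2
        apply Finset.prod_congr rfl
        intro i hi
        rw [Finset.mem_range] at hi
        simp only [hy]
        rw [if_pos hi.le, if_pos (show i + 1 ≤ n by omega)]
      have hz : ∀ z, ∫⁻ ω in Ev S (n + 1) (y z), ∏ i ∈ Finset.range (N + 1), w i (S (n + 1 + i) ω) ∂P =
          w 0 z * (P (Ev S (n + 1) (y z)) * Tw C N (fun i => w (i + 1)) z) := by
        intro z
        have h1 := lintegral_Ev hS N (fun i => w (i + 1)) (n + 1) (y z) (hy0 z)
        have h2 : y z (n + 1) = z := by simp [hy]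
        rw [h2] at h1
        rw [← h1, ← lintegral_const_mul]
        · apply setLIntegral_congr_fun (measurableSet_Ev hS.1 _ _)
          intro ω hω
          simp only
          rw [Finset.prod_range_succ', mul_comm]
          have h3 : S (n + 1 + 0) ω = z := hSz z ω hω
          rw [h3]
          congr 1
          apply Finset.prod_congr rfl
          intro i _
          rw [show n + 1 + (i + 1) = n + 1 + 1 + i by omega]
        · exact Finset.measurable_prod _ fun i _ => (measurable_of_countable _).comp (hS.1 _)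
      rw [hE, lintegral_iUnion (fun z => measurableSet_Ev hS.1 _ _) hdisj]
      rw [← hE]
      simp_rw [hz, hP]
      rw [Tw, Finset.mul_sum, tsum_eq_sum (s := Finset.Icc (x n - 1) (x n + 1))]
      · apply Finset.sum_congr rfl
        intro z _
        ring
      · intro z hz'
        rw [C.near _ _ hz']
        simp

lemma lintegral_prod_eq [IsProbabilityMeasure P] (hS : IsChain P C.p S) (N : ℕ)
    (w : ℕ → ℤ → ℝ≥0∞) :
    ∫⁻ ω, ∏ i ∈ Finset.range N, w i (S (i + 1) ω) ∂P = Tw C N w 0 := by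
  have h0 : P (Ev S 0 (fun _ => 0)) = 1 := by
    have := hS.2 0 (fun _ => 0) rfl
    rw [Ev, this]
    simp
  have h1 := lintegral_Ev hS N w 0 (fun _ => 0) rfl
  rw [h0, one_mul] at h1
  have hm := measurableSet_Ev hS.1 0 (fun _ => 0)
  have h2 : P (Ev S 0 (fun _ => 0))ᶜ = 0 := by
    rw [prob_compl_eq_zero_iff hm]
    exact h0
  rw [← lintegral_add_compl _ hm, setLIntegral_measure_zero _ _ h2, add_zero, ← h1]
  apply lintegral_congr
  intro ω
  apply Finset.prod_congr rfl
  intro i _
  rw [show 0 + 1 + i = i + 1 by omega]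

lemma Zf_nonneg {W : ℝ → ℤ → ℝ} (hW : ∀ a z, 0 ≤ W a z) : ∀ (N : ℕ) (ω : ℕ → ℝ) (x : ℤ),
    0 ≤ Zf C W N ω x
  | 0, _, _ => zero_le_one
  | N + 1, ω, x => Finset.sum_nonneg fun z _ =>
      mul_nonneg (mul_nonneg (C.nonneg _ _) (hW _ _)) (Zf_nonneg hW N _ _)

lemma Tw_eq_Zf {W : ℝ → ℤ → ℝ} (hW : ∀ a z, 0 ≤ W a z) : ∀ (N : ℕ) (ω : ℕ → ℝ) (x : ℤ),
    Tw C N (fun i z => ENNReal.ofReal (W (ω i) z)) x = ENNReal.ofReal (Zf C W N ω x)
  | 0, _, _ => by simp [Tw, Zf]
  | N + 1, ω, x => by
      rw [Tw, Zf, ENNReal.ofReal_sum_of_nonneg]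
      · apply Finset.sum_congr rfl
        intro z _
        rw [ENNReal.ofReal_mul (mul_nonneg (C.nonneg _ _) (hW _ _)), ENNReal.ofReal_mul (C.nonneg _ _),
          ← Tw_eq_Zf hW N (shift 1 ω) z]
        rfl
      · intro z _
        exact mul_nonneg (mul_nonneg (C.nonneg _ _) (hW _ _)) (Zf_nonneg hW N _ _)

lemma K0_nonneg' : ∀ (n : ℕ) (x : ℤ), 0 ≤ K0 C n x
  | 0, _ => le_rfl
  | n + 1, x => by
      rw [K0]
      have h1 : 0 ≤ (if n = 0 then C.p x 0 else 0) := by
        split_ifs
        · exact C.nonneg _ _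
        · exact le_rfl
      exact add_nonneg h1 (Finset.sum_nonneg fun z _ => mul_nonneg (C.nonneg _ _) (K0_nonneg' n z))

/-- The weights that single out the first visit to `0` at time `n`. -/
def wK (n : ℕ) : ℕ → ℤ → ℝ≥0∞ := fun i z =>
  if i + 1 < n then (if z = 0 then 0 else 1) else (if z = 0 then 1 else 0)

lemma wK_succ (n : ℕ) : (fun i => wK (n + 1) (i + 1)) = wK n := by
  funext i z
  simp only [wK]
  have : i + 1 + 1 < n + 1 ↔ i + 1 < n := by omega
  simp only [this]

lemma Tw_eq_K0 : ∀ (n : ℕ), 1 ≤ n → ∀ x : ℤ, Tw C n (wK n) x = ENNReal.ofReal (K0 C n x)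
  | 0, h, _ => absurd h (by norm_num)
  | 1, _, x => by
      rw [Tw, K0]
      have h1 : ∀ z ∈ Finset.Icc (x - 1) (x + 1), ENNReal.ofReal (C.p x z) * wK 1 0 z *
          Tw C 0 (fun i => wK 1 (i + 1)) z = if z = 0 then ENNReal.ofReal (C.p x 0) else 0 := by
        intro z _
        simp only [wK, Tw, mul_one]
        by_cases hz : z = 0
        · subst hz; simp
        · simp [hz]
      rw [Finset.sum_congr rfl h1]
      simp only [K0, mul_zero, Finset.sum_const_zero, add_zero, if_true]
      rw [Finset.sum_ite_eq' ]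
      split_ifs with h
      · rfl
      · rw [C.near x 0 h]; simp
  | n + 2, _, x => by
      rw [Tw, wK_succ, K0]
      rw [if_neg (Nat.succ_ne_zero n), zero_add, ENNReal.ofReal_sum_of_nonneg]
      · rw [← Finset.sum_subset (Finset.sdiff_subset (s := Finset.Icc (x - 1) (x + 1)) (t := {0}))]
        · apply Finset.sum_congr rfl
          intro z hz
          rw [Finset.mem_sdiff, Finset.mem_singleton] at hz
          rw [ENNReal.ofReal_mul (C.nonneg _ _), Tw_eq_K0 (n + 1) (by omega) z]
          have : wK (n + 1 + 1) 0 z = 1 := by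
            simp [wK, hz.2]
          rw [this, mul_one]
        · intro z hz hz'
          have h0 : z = 0 := by
            by_contra h
            exact hz' (Finset.mem_sdiff.2 ⟨hz, by simpa using h⟩)
          have : wK (n + 1 + 1) 0 z = 0 := by
            simp [wK, h0]
          rw [this]
          simp
      · intro z _
        exact mul_nonneg (C.nonneg _ _) (K0_nonneg' _ _)

end Mark

open Mark in
theorem Zf_eq_integral {Ω : Type*} [MeasurableSpace Ω] (P : Measure Ω) [IsProbabilityMeasure P]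
    (C : Chain) (S : ℕ → Ω → ℤ) (hS : IsChain P C.p S) (φ : ℤ → ℝ) (β h : ℝ) (N : ℕ) (ω : ℕ → ℝ) :
    ∫ w, Real.exp (∑ n ∈ Finset.range N, (β * ω n - h) * φ (S (n + 1) w)) ∂P =
      Zf C (fun a z => Real.exp ((β * a - h) * φ z)) N ω 0 := by
  have hW : ∀ (a : ℝ) (z : ℤ), 0 ≤ Real.exp ((β * a - h) * φ z) := fun a z => (Real.exp_pos _).le
  rw [integral_eq_lintegral_of_nonneg_ae (ae_of_all _ fun w => (Real.exp_pos _).le)]
  · have h1 : ∀ w, ENNReal.ofReal (Real.exp (∑ n ∈ Finset.range N, (β * ω n - h) * φ (S (n + 1) w))) =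
        ∏ i ∈ Finset.range N, (fun (i : ℕ) (z : ℤ) =>
          ENNReal.ofReal (Real.exp ((β * ω i - h) * φ z))) i (S (i + 1) w) := by
      intro w
      rw [Real.exp_sum, ENNReal.ofReal_prod_of_nonneg fun i _ => (Real.exp_pos _).le]
    have h2 := lintegral_prod_eq hS N (fun (i : ℕ) (z : ℤ) =>
      ENNReal.ofReal (Real.exp ((β * ω i - h) * φ z)))
    rw [lintegral_congr h1, h2, Tw_eq_Zf hW N ω 0, ENNReal.toReal_ofReal (Zf_nonneg hW N ω 0)]
  · apply Measurable.aestronglyMeasurable
    apply Real.measurable_exp.comp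
    apply Finset.measurable_sum
    intro i _
    exact ((measurable_of_countable φ).comp (hS.1 (i + 1))).const_mul _

open Mark in
theorem K0_eq_prob {Ω : Type*} [MeasurableSpace Ω] (P : Measure Ω) [IsProbabilityMeasure P]
    (C : Chain) (S : ℕ → Ω → ℤ) (hS : IsChain P C.p S) (n : ℕ) (hn : 1 ≤ n) :
    (P {w | S n w = 0 ∧ ∀ i, 0 < i → i < n → S i w ≠ 0}).toReal = K0 C n 0 := by
  set E : Set Ω := {w | S n w = 0 ∧ ∀ i, 0 < i → i < n → S i w ≠ 0} with hE
  have hmE : MeasurableSet E := by
    have h : E = S n ⁻¹' {0} ∩ ⋂ i : ℕ, ⋂ _ : 0 < i, ⋂ _ : i < n, S i ⁻¹' {0}ᶜ := by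
      ext w
      simp [hE]
    rw [h]
    refine (hS.1 n (measurableSet_singleton _)).inter ?_
    exact MeasurableSet.iInter fun i => MeasurableSet.iInter fun _ => MeasurableSet.iInter fun _ =>
      hS.1 i (measurableSet_singleton _).compl
  have h1 : ∀ w, ∏ i ∈ Finset.range n, wK n i (S (i + 1) w) = E.indicator 1 w := by
    intro w
    by_cases hw : w ∈ E
    · rw [Set.indicator_of_mem hw, Pi.one_apply]
      apply Finset.prod_eq_one
      intro i hi
      rw [Finset.mem_range] at hi
      simp only [wK]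
      split_ifs with h2 h3 h3
      · exact absurd h3 (hw.2 (i + 1) (Nat.succ_pos i) h2)
      · rfl
      · rfl
      · exfalso
        apply h3
        have : i + 1 = n := by omega
        rw [this]
        exact hw.1
    · rw [Set.indicator_of_notMem hw]
      have h2 : S n w ≠ 0 ∨ ∃ i, 0 < i ∧ i < n ∧ S i w = 0 := by
        by_contra hcon
        push Not at hcon
        exact hw ⟨hcon.1, hcon.2⟩
      rcases h2 with h2 | ⟨i, hi0, hin, hi⟩
      · apply Finset.prod_eq_zero (i := n - 1) (Finset.mem_range.2 (by omega))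
        simp only [wK]
        have h3 : n - 1 + 1 = n := by omega
        rw [h3, if_neg (lt_irrefl n), if_neg h2]
      · apply Finset.prod_eq_zero (i := i - 1) (Finset.mem_range.2 (by omega))
        simp only [wK]
        have h3 : i - 1 + 1 = i := by omega
        rw [h3, if_pos hin, if_pos hi]
  have h2 := lintegral_prod_eq hS n (wK n)
  simp_rw [h1] at h2
  rw [lintegral_indicator_one hmE, Tw_eq_K0 n hn] at h2
  rw [h2, ENNReal.toReal_ofReal (K0_nonneg' n 0)]

end

end MP_daa227_pr
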