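import Pool.Agent.Lib.MP_daa227_pr.Conc

/-!
# Linear forms in the charges: Khinchine-type lower bound for the first absolute moment
-/

open MeasureTheory ProbabilityTheory Set Filter
open scoped ENNReal Topology

namespace MP_daa227_pr

noncomputable section

section
variable {μ : Measure ℝ} [IsProbabilityMeasure μ]

lemma ExpMom.integrable_pow (h : ExpMom μ) (k : ℕ) : Integrable (fun x : ℝ => x ^ k) μ := by
  refine ((h.abs 1).const_mul (Nat.factorial k : ℝ)).mono' (by fun_prop) (ae_of_all _ fun x => ?_)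
  rw [Real.norm_eq_abs, abs_pow, one_mul]
  have h1 := Real.pow_div_factorial_le_exp |x| (abs_nonneg x) k
  have h2 : (0 : ℝ) < (Nat.factorial k : ℝ) := by exact_mod_cast Nat.factorial_pos k
  rw [div_le_iff₀ h2] at h1
  linarith

lemma memLp_linForm (h : ExpMom μ) (n : ℕ) (c : ℕ → ℝ) :
    MemLp (fun ω : ℕ → ℝ => ∑ i ∈ Finset.range n, c i * ω i) 4 (seqLaw μ) := by
  apply memLp_finsetSum
  intro i _
  apply MemLp.const_mul
  have h1 : Integrable (fun ω : ℕ → ℝ => ‖ω i‖ ^ (4 : ℝ≥0∞).toReal) (seqLaw μ) := by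
    have h2 := integrable_apply μ i (Y := fun x => x ^ 4) (by fun_prop) (h.integrable_pow 4)
    refine h2.congr (ae_of_all _ fun ω => ?_)
    have h3 : (4 : ℝ≥0∞).toReal = ((4 : ℕ) : ℝ) := by simp
    dsimp only
    rw [h3, Real.rpow_natCast, Real.norm_eq_abs, ← abs_pow, abs_of_nonneg (by positivity)]
  exact (integrable_norm_rpow_iff (measurable_pi_apply i).aestronglyMeasurable (by simp) (by simp)).1 h1

lemma integrable_linForm_pow (h : ExpMom μ) (n : ℕ) (c : ℕ → ℝ) {k : ℕ} (hk : k ≤ 4) :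
    Integrable (fun ω : ℕ → ℝ => (∑ i ∈ Finset.range n, c i * ω i) ^ k) (seqLaw μ) := by
  have h1 : MemLp (fun ω : ℕ → ℝ => ∑ i ∈ Finset.range n, c i * ω i) (k : ℝ≥0∞) (seqLaw μ) :=
    (memLp_linForm h n c).mono_exponent (by exact_mod_cast hk)
  have h2 := h1.integrable_norm_pow'
  refine (integrable_norm_iff ?_).1 (h2.congr (ae_of_all _ fun ω => ?_))
  · exact h1.aestronglyMeasurable.pow k
  · dsimp only
    rw [norm_pow]

lemma linForm_cons (n : ℕ) (c : ℕ → ℝ) (x : ℝ) (ω : ℕ → ℝ) :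
    ∑ i ∈ Finset.range (n + 1), c i * cons x ω i =
      ∑ i ∈ Finset.range n, c (i + 1) * ω i + c 0 * x := by
  rw [Finset.sum_range_succ']
  simp only [cons_succ, cons_zero]

lemma integral_add₃ {α : Type*} [MeasurableSpace α] {m : Measure α} {f g h : α → ℝ}
    (hf : Integrable f m) (hg : Integrable g m) (hh : Integrable h m) :
    ∫ a, (f a + (g a + h a)) ∂m = ∫ a, f a ∂m + (∫ a, g a ∂m + ∫ a, h a ∂m) := by
  rw [← integral_add hg hh]
  exact integral_add hf (hg.add hh)

lemma integral_add₄ {α : Type*} [MeasurableSpace α] {m : Measure α} {f g h k : α → ℝ}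
    (hf : Integrable f m) (hg : Integrable g m) (hh : Integrable h m) (hk : Integrable k m) :
    ∫ a, (f a + (g a + (h a + k a))) ∂m =
      ∫ a, f a ∂m + (∫ a, g a ∂m + (∫ a, h a ∂m + ∫ a, k a ∂m)) := by
  rw [← integral_add₃ hg hh hk]
  exact integral_add hf (hg.add (hh.add hk))

lemma integral_add₅ {α : Type*} [MeasurableSpace α] {m : Measure α} {f g h k l : α → ℝ}
    (hf : Integrable f m) (hg : Integrable g m) (hh : Integrable h m) (hk : Integrable k m)
    (hl : Integrable l m) :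
    ∫ a, (f a + (g a + (h a + (k a + l a)))) ∂m =
      ∫ a, f a ∂m + (∫ a, g a ∂m + (∫ a, h a ∂m + (∫ a, k a ∂m + ∫ a, l a ∂m))) := by
  rw [← integral_add₄ hg hh hk hl]
  exact integral_add hf (hg.add (hh.add (hk.add hl)))

lemma linForm_moments (hexp : ExpMom μ) (hmean : ∫ x, x ∂μ = 0) (hvar : ∫ x, x ^ 2 ∂μ = 1) :
    ∀ (n : ℕ) (c : ℕ → ℝ),
      ∫ ω, (∑ i ∈ Finset.range n, c i * ω i) ∂seqLaw μ = 0 ∧
      ∫ ω, (∑ i ∈ Finset.range n, c i * ω i) ^ 2 ∂seqLaw μ = ∑ i ∈ Finset.range n, c i ^ 2 ∧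
      ∫ ω, (∑ i ∈ Finset.range n, c i * ω i) ^ 4 ∂seqLaw μ ≤
        (∫ x, x ^ 4 ∂μ + 3) * (∑ i ∈ Finset.range n, c i ^ 2) ^ 2
  | 0, c => by simp
  | n + 1, c => by
      obtain ⟨h1, h2, h4⟩ := linForm_moments hexp hmean hvar n (fun i => c (i + 1))
      have hI : ∀ {k : ℕ}, k ≤ 4 →
          Integrable (fun ω : ℕ → ℝ => (∑ i ∈ Finset.range n, c (i + 1) * ω i) ^ k) (seqLaw μ) :=
        fun {k} hk => integrable_linForm_pow hexp n (fun i => c (i + 1)) hk
      have hI1 : Integrable (fun ω : ℕ → ℝ => (∑ i ∈ Finset.range n, c (i + 1) * ω i)) (seqLaw μ) := by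
        simpa using hI (k := 1) (by norm_num)
      have hm1 : Integrable (fun x : ℝ => x) μ := hexp.integrable_id
      have hm : ∀ k : ℕ, Integrable (fun x : ℝ => x ^ k) μ := fun k => hexp.integrable_pow k
      have hs : ∑ i ∈ Finset.range (n + 1), c i ^ 2 =
          ∑ i ∈ Finset.range n, c (i + 1) ^ 2 + c 0 ^ 2 := Finset.sum_range_succ' _ _
      set s := ∑ i ∈ Finset.range n, c (i + 1) ^ 2 with hsdef
      have hs0 : 0 ≤ s := Finset.sum_nonneg fun i _ => sq_nonneg _
      refine ⟨?_, ?_, ?_⟩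
      · have hJ := integrable_linForm_pow hexp (n + 1) c (k := 1) (by norm_num)
        simp only [pow_one] at hJ
        rw [integral_cons μ (by fun_prop) hJ]
        have hin : ∀ x : ℝ, ∫ ω, (∑ i ∈ Finset.range (n + 1), c i * cons x ω i) ∂seqLaw μ = c 0 * x := by
          intro x
          simp_rw [linForm_cons]
          rw [integral_add hI1 (integrable_const _), h1]
          simp
        simp_rw [hin]
        rw [integral_const_mul, hmean, mul_zero]
      · have hJ := integrable_linForm_pow hexp (n + 1) c (k := 2) (by norm_num)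
        rw [integral_cons μ (by fun_prop) hJ]
        have hin : ∀ x : ℝ, ∫ ω, (∑ i ∈ Finset.range (n + 1), c i * cons x ω i) ^ 2 ∂seqLaw μ
            = s + c 0 ^ 2 * x ^ 2 := by
          intro x
          simp_rw [linForm_cons]
          have e1 : ∀ ω : ℕ → ℝ, (∑ i ∈ Finset.range n, c (i + 1) * ω i + c 0 * x) ^ 2 =
              (∑ i ∈ Finset.range n, c (i + 1) * ω i) ^ 2 +
                ((2 * (c 0 * x)) * (∑ i ∈ Finset.range n, c (i + 1) * ω i) + c 0 ^ 2 * x ^ 2) := by
            intro ω; ring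
          simp_rw [e1]
          rw [integral_add₃ (hI (k := 2) (by norm_num)) (hI1.const_mul _) (integrable_const _),
            integral_const_mul, h1, h2]
          simp [hsdef]
        simp_rw [hin]
        rw [integral_add (integrable_const _) ((hm 2).const_mul _), integral_const_mul, hvar, hs]
        simp
      · have hJ := integrable_linForm_pow hexp (n + 1) c (k := 4) (by norm_num)
        rw [integral_cons μ (by fun_prop) hJ]
        set A := ∫ ω, (∑ i ∈ Finset.range n, c (i + 1) * ω i) ^ 4 ∂seqLaw μ with hA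
        set B := ∫ ω, (∑ i ∈ Finset.range n, c (i + 1) * ω i) ^ 3 ∂seqLaw μ with hB
        have hin : ∀ x : ℝ, ∫ ω, (∑ i ∈ Finset.range (n + 1), c i * cons x ω i) ^ 4 ∂seqLaw μ
            = A + ((4 * c 0 * B) * x + ((6 * c 0 ^ 2 * s) * x ^ 2 + c 0 ^ 4 * x ^ 4)) := by
          intro x
          simp_rw [linForm_cons]
          have e1 : ∀ ω : ℕ → ℝ, (∑ i ∈ Finset.range n, c (i + 1) * ω i + c 0 * x) ^ 4 =
              (∑ i ∈ Finset.range n, c (i + 1) * ω i) ^ 4 +
                ((4 * c 0 * x) * (∑ i ∈ Finset.range n, c (i + 1) * ω i) ^ 3 +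
                ((6 * c 0 ^ 2 * x ^ 2) * (∑ i ∈ Finset.range n, c (i + 1) * ω i) ^ 2 +
                ((4 * c 0 ^ 3 * x ^ 3) * (∑ i ∈ Finset.range n, c (i + 1) * ω i) +
                c 0 ^ 4 * x ^ 4))) := by
            intro ω; ring
          simp_rw [e1]
          rw [integral_add₅ (hI (k := 4) (by norm_num)) ((hI (k := 3) (by norm_num)).const_mul _)
              ((hI (k := 2) (by norm_num)).const_mul _) (hI1.const_mul _) (integrable_const _)]
          rw [integral_const_mul, integral_const_mul, integral_const_mul, h1, h2, ← hA, ← hB]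
          simp
          ring
        simp_rw [hin]
        rw [integral_add₄ (integrable_const _) (hm1.const_mul _) ((hm 2).const_mul _)
            ((hm 4).const_mul _)]
        rw [integral_const_mul, integral_const_mul, integral_const_mul, hmean, hvar, hs]
        simp only [integral_const, probReal_univ, smul_eq_mul, mul_zero, mul_one, zero_add,
          one_mul]
        have hm4 : 0 ≤ ∫ x, x ^ 4 ∂μ := integral_nonneg fun x => by positivity
        have hc2 : 0 ≤ c 0 ^ 2 := sq_nonneg _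
        have hp1 : 0 ≤ (∫ x, x ^ 4 ∂μ) * (c 0 ^ 2 * s) := by positivity
        nlinarith [sq_nonneg (c 0 ^ 2), mul_nonneg hc2 hs0]

end

theorem linForm_lower {μ : Measure ℝ} [IsProbabilityMeasure μ] (hexp : ExpMom μ)
    (hmean : ∫ x, x ∂μ = 0) (hvar : ∫ x, x ^ 2 ∂μ = 1) : ∃ c₀ : ℝ, 0 < c₀ ∧ ∀ (n : ℕ) (c : ℕ → ℝ),
      c₀ * Real.sqrt (∑ i ∈ Finset.range n, c i ^ 2) ≤
        ∫ ω, |∑ i ∈ Finset.range n, c i * ω i| ∂seqLaw μ := by
  have hm4 : 0 ≤ ∫ x, x ^ 4 ∂μ := integral_nonneg fun x => by positivity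
  set K := ∫ x, x ^ 4 ∂μ + 3 with hK
  have hKpos : 0 < K := by linarith
  have hsK : 0 < Real.sqrt K := Real.sqrt_pos.2 hKpos
  refine ⟨(23 / 27) / Real.sqrt K, by positivity, fun n c => ?_⟩
  obtain ⟨-, h2, h4⟩ := linForm_moments hexp hmean hvar n c
  rw [← hK] at h4
  have hS0 : 0 ≤ ∑ i ∈ Finset.range n, c i ^ 2 := Finset.sum_nonneg fun i _ => sq_nonneg _
  set s := Real.sqrt (∑ i ∈ Finset.range n, c i ^ 2) with hs
  have hs2 : ∑ i ∈ Finset.range n, c i ^ 2 = s ^ 2 := by rw [hs, Real.sq_sqrt hS0]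
  rcases eq_or_lt_of_le (Real.sqrt_nonneg (∑ i ∈ Finset.range n, c i ^ 2)) with h0 | h0
  · rw [← hs] at h0
    rw [← h0, mul_zero]
    exact integral_nonneg fun ω => abs_nonneg _
  rw [← hs] at h0
  rw [hs2] at h2 h4
  set q := Real.sqrt K with hq
  have hq2 : K = q ^ 2 := by rw [hq, Real.sq_sqrt hKpos.le]
  have hiabs : Integrable (fun ω : ℕ → ℝ => |∑ i ∈ Finset.range n, c i * ω i|) (seqLaw μ) := by
    have := integrable_linForm_pow hexp n c (k := 1) (by norm_num)
    simp only [pow_one] at this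
    exact this.abs
  have hi2 := integrable_linForm_pow hexp n c (k := 2) (by norm_num)
  have hi4 := integrable_linForm_pow hexp n c (k := 4) (by norm_num)
  have hpt : ∀ ω : ℕ → ℝ, (q * s) ^ 2 * (∑ i ∈ Finset.range n, c i * ω i) ^ 2 -
      (4 / 27) * (∑ i ∈ Finset.range n, c i * ω i) ^ 4 ≤
        (q * s) ^ 3 * |∑ i ∈ Finset.range n, c i * ω i| := by
    intro ω
    set X := ∑ i ∈ Finset.range n, c i * ω i
    have ht : 0 < q * s := mul_pos hsK h0
    set t := q * s
    rw [← _root_.sq_abs X, show X ^ 4 = |X| ^ 4 by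
      rw [← abs_pow, abs_of_nonneg (by positivity)]]
    have hX := abs_nonneg X
    set Y := |X|
    have hfac : t ^ 3 * Y - (t ^ 2 * Y ^ 2 - 4 / 27 * Y ^ 4) =
        (4 / 27) * (Y * ((Y - 3 / 2 * t) ^ 2 * (Y + 3 * t))) := by ring
    have : 0 ≤ (4 / 27) * (Y * ((Y - 3 / 2 * t) ^ 2 * (Y + 3 * t))) := by positivity
    linarith
  have hint := integral_mono ((hi2.const_mul ((q * s) ^ 2)).sub (hi4.const_mul (4 / 27)))
    (hiabs.const_mul ((q * s) ^ 3)) hpt
  rw [integral_const_mul] at hint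
  have hsub : ∫ ω, ((q * s) ^ 2 * (∑ i ∈ Finset.range n, c i * ω i) ^ 2 -
      (4 / 27) * (∑ i ∈ Finset.range n, c i * ω i) ^ 4) ∂seqLaw μ =
      (q * s) ^ 2 * s ^ 2 - (4 / 27) * ∫ ω, (∑ i ∈ Finset.range n, c i * ω i) ^ 4 ∂seqLaw μ := by
    rw [integral_sub (hi2.const_mul _) (hi4.const_mul _), integral_const_mul, integral_const_mul, h2]
  have hint := hsub.symm.le.trans hint
  have hfin : (23 / 27) * (q ^ 2 * s ^ 4) ≤
      (q * s) ^ 3 * ∫ ω, |∑ i ∈ Finset.range n, c i * ω i| ∂seqLaw μ := by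
    rw [hq2] at h4
    nlinarith
  have hqs : 0 < q ^ 2 * s ^ 3 := by positivity
  rw [div_mul_eq_mul_div, div_le_iff₀ hsK]
  have h5 : (23 / 27 * s) * (q ^ 2 * s ^ 3) ≤
      ((∫ ω, |∑ i ∈ Finset.range n, c i * ω i| ∂seqLaw μ) * q) * (q ^ 2 * s ^ 3) := by
    nlinarith
  exact le_of_mul_le_mul_right h5 hqs

end

end MP_daa227_pr
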