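import Pool.Agent.Lib.MP_daa227_pr.ExcLem

/-!
# Occupation times of excursions: upper and lower bounds
-/

open MeasureTheory ProbabilityTheory Set Filter
open scoped ENNReal Topology

namespace MP_daa227_pr

noncomputable section

namespace Occ

theorem sum_Icc (x : ℤ) (f : ℤ → ℝ) :
    ∑ z ∈ Finset.Icc (x - 1) (x + 1), f z = f (x - 1) + f x + f (x + 1) := by
  have h : Finset.Icc (x - 1) (x + 1) = {x - 1, x, x + 1} := by
    ext y
    simp only [Finset.mem_Icc, Finset.mem_insert, Finset.mem_singleton]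
    omega
  rw [h, Finset.sum_insert, Finset.sum_insert, Finset.sum_singleton]
  · ring
  · simp
  · simp only [Finset.mem_insert, Finset.mem_singleton]
    omega

theorem p_le_one (C : Chain) (x z : ℤ) : C.p x z ≤ 1 := by
  by_cases hz : z ∈ Finset.Icc (x - 1) (x + 1)
  · rw [← C.sum_one x]
    exact Finset.single_le_sum (f := fun z => C.p x z) (fun z _ => C.nonneg x z) hz
  · rw [C.near x z hz]
    exact zero_le_one

/-- A uniform lower bound for the jump probabilities on a window. -/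
theorem exists_q (C : Chain) (R : ℕ) : ∃ q : ℝ, 0 < q ∧ q ≤ 1 ∧ ∀ x : ℤ, |x| ≤ (R : ℤ) →
    q ≤ C.p x (x - 1) ∧ q ≤ C.p x (x + 1) := by
  have hne : (Finset.Icc (-(R : ℤ)) R).Nonempty := ⟨0, by simp⟩
  obtain ⟨x₀, -, h₀⟩ := Finset.exists_min_image (Finset.Icc (-(R : ℤ)) R)
    (fun x => min (C.p x (x - 1)) (C.p x (x + 1))) hne
  refine ⟨min (C.p x₀ (x₀ - 1)) (C.p x₀ (x₀ + 1)), lt_min (C.down x₀) (C.up x₀),
    (min_le_left _ _).trans (p_le_one C _ _), ?_⟩
  intro x hx
  have h1 := h₀ x (by rw [Finset.mem_Icc]; exact abs_le.mp hx)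
  exact ⟨h1.trans (min_le_left _ _), h1.trans (min_le_right _ _)⟩

/-- The increasing bounded comparison function. -/
def G (e : ℝ) (k : ℕ) : ℝ := ∑ i ∈ Finset.range k, e ^ i

theorem G_succ (e : ℝ) (k : ℕ) : G e (k + 1) = G e k + e ^ k := by
  rw [G, Finset.sum_range_succ, G]

theorem G_mono {e : ℝ} (he : 0 ≤ e) {j k : ℕ} (h : j ≤ k) : G e j ≤ G e k := by
  unfold G
  apply Finset.sum_le_sum_of_subset_of_nonneg
  · intro i hi
    rw [Finset.mem_range] at hi ⊢
    omega
  · intro i _ _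
    positivity

theorem G_le_two {e : ℝ} (he : 0 ≤ e) (he' : e ≤ 1 / 2) (k : ℕ) : G e k ≤ 2 := by
  have h : G e k ≤ 2 - 2 * (1 / 2) ^ k := by
    induction k with
    | zero => simp [G]
    | succ k ih =>
      rw [G_succ, pow_succ]
      have : e ^ k ≤ (1 / 2 : ℝ) ^ k := pow_le_pow_left₀ he he' k
      nlinarith
  have : (0 : ℝ) < (1 / 2) ^ k := by positivity
  linarith

/-- The comparison function on `ℤ`. -/
def g (e : ℝ) (R : ℕ) (x : ℤ) : ℝ := G e (min x.natAbs (R + 1))

theorem g_zero (e : ℝ) (R : ℕ) : g e R 0 = 0 := by simp [g, G]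

theorem g_nonneg {e : ℝ} (he : 0 ≤ e) (R : ℕ) (x : ℤ) : 0 ≤ g e R x := by
  unfold g G
  positivity

theorem one_le_g {e : ℝ} (he : 0 ≤ e) (R : ℕ) {x : ℤ} (hx : x ≠ 0) : 1 ≤ g e R x := by
  have h1 : G e 1 = 1 := by simp [G]
  rw [← h1]
  unfold g
  apply G_mono he
  have : 1 ≤ x.natAbs := by omega
  omega

theorem g_le_top {e : ℝ} (he : 0 ≤ e) (R : ℕ) (x : ℤ) : g e R x ≤ G e (R + 1) :=
  G_mono he (min_le_right _ _)

/-- The drift inequality inside the window. -/
theorem g_drift (C : Chain) (R : ℕ) {q : ℝ} (hq : 0 < q) (hq1 : q ≤ 1)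
    (hC : ∀ x : ℤ, |x| ≤ (R : ℤ) → q ≤ C.p x (x - 1) ∧ q ≤ C.p x (x + 1))
    (x : ℤ) (hx0 : x ≠ 0) (hxR : |x| ≤ (R : ℤ)) :
    ∑ z ∈ Finset.Icc (x - 1) (x + 1), C.p x z * g (q / 2) R z ≤
      g (q / 2) R x - q / 2 * (q / 2) ^ R := by
  have he : 0 < q / 2 := by positivity
  obtain ⟨hd, hu⟩ := hC x hxR
  have hs := C.sum_one x
  rw [sum_Icc] at hs ⊢
  have hp0 := C.nonneg x x
  have hpm := C.nonneg x (x - 1)
  have hpp := C.nonneg x (x + 1)
  obtain ⟨k, hk⟩ : ∃ k : ℕ, x.natAbs = k + 1 := ⟨x.natAbs - 1, by omega⟩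
  have hkR : k + 1 ≤ R := by
    rw [Int.abs_eq_natAbs] at hxR
    omega
  have hgx : g (q / 2) R x = G (q / 2) k + (q / 2) ^ k := by
    unfold g
    rw [hk, min_eq_left (by omega), G_succ]
  have hpow : (q / 2) ^ R ≤ (q / 2) ^ k :=
    pow_le_pow_of_le_one he.le (by linarith) (by omega)
  have hpowk : (0 : ℝ) < (q / 2) ^ k := by positivity
  rcases lt_or_gt_of_ne hx0 with hneg | hpos
  · have h1 : (x - 1).natAbs = k + 2 := by omega
    have h2 : (x + 1).natAbs = k := by omega
    have hg1 : g (q / 2) R (x - 1) = G (q / 2) k + (q / 2) ^ k + (q / 2) ^ (k + 1) := by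
      unfold g
      rw [h1, min_eq_left (by omega), G_succ, G_succ]
    have hg2 : g (q / 2) R (x + 1) = G (q / 2) k := by
      unfold g
      rw [h2, min_eq_left (by omega)]
    rw [hgx, hg1, hg2]
    have hm1 : C.p x (x - 1) ≤ 1 := p_le_one C _ _
    have e1 : C.p x (x - 1) * (G (q / 2) k + (q / 2) ^ k + (q / 2) ^ (k + 1)) +
        C.p x x * (G (q / 2) k + (q / 2) ^ k) + C.p x (x + 1) * G (q / 2) k =
        (C.p x (x - 1) + C.p x x + C.p x (x + 1)) * (G (q / 2) k + (q / 2) ^ k) +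
          (q / 2) ^ k * (C.p x (x - 1) * (q / 2) - C.p x (x + 1)) := by ring
    rw [e1, hs, one_mul]
    have h3 : C.p x (x - 1) * (q / 2) - C.p x (x + 1) ≤ -(q / 2) := by nlinarith
    have h4 : (q / 2) ^ k * (C.p x (x - 1) * (q / 2) - C.p x (x + 1)) ≤
        (q / 2) ^ k * (-(q / 2)) := mul_le_mul_of_nonneg_left h3 hpowk.le
    nlinarith
  · have h1 : (x + 1).natAbs = k + 2 := by omega
    have h2 : (x - 1).natAbs = k := by omega
    have hg1 : g (q / 2) R (x + 1) = G (q / 2) k + (q / 2) ^ k + (q / 2) ^ (k + 1) := by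
      unfold g
      rw [h1, min_eq_left (by omega), G_succ, G_succ]
    have hg2 : g (q / 2) R (x - 1) = G (q / 2) k := by
      unfold g
      rw [h2, min_eq_left (by omega)]
    rw [hgx, hg1, hg2]
    have hm1 : C.p x (x + 1) ≤ 1 := p_le_one C _ _
    have e1 : C.p x (x - 1) * G (q / 2) k + C.p x x * (G (q / 2) k + (q / 2) ^ k) +
        C.p x (x + 1) * (G (q / 2) k + (q / 2) ^ k + (q / 2) ^ (k + 1)) =
        (C.p x (x - 1) + C.p x x + C.p x (x + 1)) * (G (q / 2) k + (q / 2) ^ k) +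
          (q / 2) ^ k * (C.p x (x + 1) * (q / 2) - C.p x (x - 1)) := by ring
    rw [e1, hs, one_mul]
    have h3 : C.p x (x + 1) * (q / 2) - C.p x (x - 1) ≤ -(q / 2) := by nlinarith
    have h4 : (q / 2) ^ k * (C.p x (x + 1) * (q / 2) - C.p x (x - 1)) ≤
        (q / 2) ^ k * (-(q / 2)) := mul_le_mul_of_nonneg_left h3 hpowk.le
    nlinarith

theorem sum_sdiff_g (C : Chain) (e : ℝ) (R : ℕ) (x : ℤ) :
    ∑ z ∈ Finset.Icc (x - 1) (x + 1) \ {0}, C.p x z * g e R z =
      ∑ z ∈ Finset.Icc (x - 1) (x + 1), C.p x z * g e R z := by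
  apply Finset.sum_subset Finset.sdiff_subset
  intro z hz hz'
  have : z = 0 := by
    by_contra h
    exact hz' (Finset.mem_sdiff.mpr ⟨hz, by simpa using h⟩)
  rw [this, g_zero, mul_zero]

theorem g_outside (C : Chain) {e : ℝ} (he : 0 ≤ e) (R : ℕ) (x : ℤ) :
    ∑ z ∈ Finset.Icc (x - 1) (x + 1), C.p x z * g e R z ≤ G e (R + 1) := by
  calc ∑ z ∈ Finset.Icc (x - 1) (x + 1), C.p x z * g e R z
      ≤ ∑ z ∈ Finset.Icc (x - 1) (x + 1), C.p x z * G e (R + 1) := by
        apply Finset.sum_le_sum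
        intro z _
        exact mul_le_mul_of_nonneg_left (g_le_top he R z) (C.nonneg x z)
    _ = G e (R + 1) := by rw [← Finset.sum_mul, C.sum_one, one_mul]

end Occ

open Occ

theorem visits_exp_bound (C : Chain) (R : ℕ) : ∃ l : ℝ, 0 < l ∧ ∃ M : ℝ, 0 < M ∧ ∀ n : ℕ,
    KU C n (fun _ z => if |z| ≤ (R : ℤ) then l else 0) 0 ≤ M := by
  obtain ⟨q, hq, hq1, hC⟩ := exists_q C R
  have he : 0 < q / 2 := by positivity
  have he2 : q / 2 ≤ 1 / 2 := by linarith
  set l : ℝ := q / 4 * (q / 2) ^ R with hl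
  have hl0 : 0 < l := by positivity
  set u : ℤ → ℝ := fun z => if |z| ≤ (R : ℤ) then l else 0 with hu
  have hul : ∀ z, u z ≤ l := by
    intro z
    simp only [hu]
    split_ifs
    · exact le_rfl
    · exact hl0.le
  have hu0 : ∀ z, 0 ≤ u z := by
    intro z
    simp only [hu]
    split_ifs
    · exact hl0.le
    · exact le_rfl
  -- one step
  have hstep : ∀ x : ℤ, x ≠ 0 →
      Real.exp (u x) * ∑ z ∈ Finset.Icc (x - 1) (x + 1) \ {0}, C.p x z * g (q / 2) R z ≤
        g (q / 2) R x := by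
    intro x hx
    rw [sum_sdiff_g]
    by_cases hxR : |x| ≤ (R : ℤ)
    · have h1 := g_drift C R hq hq1 hC x hx hxR
      have h2 : u x = l := by simp only [hu]; rw [if_pos hxR]
      have h3 : g (q / 2) R x ≤ 2 := G_le_two he.le he2 _
      have h4 : 0 ≤ g (q / 2) R x := g_nonneg he.le R x
      have h5 : 1 - l ≤ Real.exp (-l) := by
        have := Real.add_one_le_exp (-l)
        linarith
      have h6 : g (q / 2) R x - q / 2 * (q / 2) ^ R ≤ Real.exp (-l) * g (q / 2) R x := by
        have h7 : (1 - l) * g (q / 2) R x ≤ Real.exp (-l) * g (q / 2) R x :=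
          mul_le_mul_of_nonneg_right h5 h4
        have h8 : l * g (q / 2) R x ≤ l * 2 := mul_le_mul_of_nonneg_left h3 hl0.le
        have h9 : l * 2 = q / 2 * (q / 2) ^ R := by rw [hl]; ring
        linarith
      rw [h2]
      calc Real.exp l * ∑ z ∈ Finset.Icc (x - 1) (x + 1), C.p x z * g (q / 2) R z
          ≤ Real.exp l * (Real.exp (-l) * g (q / 2) R x) :=
            mul_le_mul_of_nonneg_left (h1.trans h6) (Real.exp_pos _).le
        _ = g (q / 2) R x := by
            rw [← mul_assoc, ← Real.exp_add]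
            simp
    · have h2 : u x = 0 := by simp only [hu]; rw [if_neg hxR]
      rw [h2, Real.exp_zero, one_mul]
      refine (g_outside C he.le R x).trans (le_of_eq ?_)
      unfold g
      rw [min_eq_right]
      rw [Int.abs_eq_natAbs] at hxR
      omega
  have hKU : ∀ n : ℕ, ∀ x : ℤ, x ≠ 0 → Real.exp (u x) * KU C n (fun _ => u) x ≤
      Real.exp (2 * l) * g (q / 2) R x := by
    intro n
    induction n with
    | zero =>
      intro x hx
      rw [KU, mul_zero]
      have := g_nonneg he.le R x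
      positivity
    | succ n ih =>
      intro x hx
      rw [KU]
      by_cases hn : n = 0
      · subst hn
        simp only [KU, mul_zero, Finset.sum_const_zero, add_zero, if_true]
        have h1 := one_le_g he.le R hx
        have h2 := p_le_one C x 0
        have h3 := C.nonneg x 0
        have h4 : Real.exp (u x) ≤ Real.exp l := Real.exp_le_exp.mpr (hul x)
        have h5 : Real.exp (u 0) ≤ Real.exp l := Real.exp_le_exp.mpr (hul 0)
        have h6 : Real.exp (2 * l) = Real.exp l * (1 * Real.exp l) * 1 := by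
          rw [one_mul, mul_one, ← Real.exp_add]
          congr 1
          ring
        calc Real.exp (u x) * (C.p x 0 * Real.exp (u 0))
            ≤ Real.exp l * (1 * Real.exp l) := by gcongr
          _ = Real.exp (2 * l) * 1 := by rw [h6]; ring
          _ ≤ Real.exp (2 * l) * g (q / 2) R x := by gcongr
      · rw [if_neg hn, zero_add]
        have h1 : ∑ z ∈ Finset.Icc (x - 1) (x + 1) \ {0}, C.p x z * Real.exp (u z) *
            KU C n (ushift fun _ => u) z ≤
            Real.exp (2 * l) * ∑ z ∈ Finset.Icc (x - 1) (x + 1) \ {0}, C.p x z * g (q / 2) R z := by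
          rw [Finset.mul_sum]
          apply Finset.sum_le_sum
          intro z hz
          rw [Finset.mem_sdiff, Finset.mem_singleton] at hz
          have h2 := ih z hz.2
          have h3 : (ushift fun _ => u) = (fun _ : ℕ => u) := rfl
          rw [h3, mul_assoc]
          calc C.p x z * (Real.exp (u z) * KU C n (fun _ => u) z)
              ≤ C.p x z * (Real.exp (2 * l) * g (q / 2) R z) :=
                mul_le_mul_of_nonneg_left h2 (C.nonneg x z)
            _ = Real.exp (2 * l) * (C.p x z * g (q / 2) R z) := by ring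
        calc Real.exp (u x) * ∑ z ∈ Finset.Icc (x - 1) (x + 1) \ {0}, C.p x z * Real.exp (u z) *
            KU C n (ushift fun _ => u) z
            ≤ Real.exp (u x) * (Real.exp (2 * l) *
                ∑ z ∈ Finset.Icc (x - 1) (x + 1) \ {0}, C.p x z * g (q / 2) R z) :=
              mul_le_mul_of_nonneg_left h1 (Real.exp_pos _).le
          _ = Real.exp (2 * l) * (Real.exp (u x) *
                ∑ z ∈ Finset.Icc (x - 1) (x + 1) \ {0}, C.p x z * g (q / 2) R z) := by ring
          _ ≤ Real.exp (2 * l) * g (q / 2) R x :=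
              mul_le_mul_of_nonneg_left (hstep x hx) (Real.exp_pos _).le
  refine ⟨l, hl0, Real.exp l + Real.exp (2 * l) * 2, by positivity, ?_⟩
  intro n
  change KU C n (fun _ => u) 0 ≤ _
  cases n with
  | zero =>
    rw [KU]
    positivity
  | succ n =>
    rw [KU]
    apply add_le_add
    · split_ifs
      · have h1 := p_le_one C 0 0
        have h2 := C.nonneg 0 0
        calc C.p 0 0 * Real.exp (u 0) ≤ 1 * Real.exp l := by
              have := hul 0
              gcongr
          _ = Real.exp l := one_mul _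
      · exact (Real.exp_pos _).le
    · have h1 : ∑ z ∈ Finset.Icc ((0 : ℤ) - 1) (0 + 1) \ {0}, C.p 0 z * Real.exp (u z) *
            KU C n (ushift fun _ => u) z ≤
            Real.exp (2 * l) * ∑ z ∈ Finset.Icc ((0 : ℤ) - 1) (0 + 1) \ {0},
              C.p 0 z * g (q / 2) R z := by
          rw [Finset.mul_sum]
          apply Finset.sum_le_sum
          intro z hz
          rw [Finset.mem_sdiff, Finset.mem_singleton] at hz
          have h2 := hKU n z hz.2
          have h3 : (ushift fun _ => u) = (fun _ : ℕ => u) := rfl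
          rw [h3, mul_assoc]
          calc C.p 0 z * (Real.exp (u z) * KU C n (fun _ => u) z)
              ≤ C.p 0 z * (Real.exp (2 * l) * g (q / 2) R z) :=
                mul_le_mul_of_nonneg_left h2 (C.nonneg 0 z)
            _ = Real.exp (2 * l) * (C.p 0 z * g (q / 2) R z) := by ring
      refine h1.trans ?_
      apply mul_le_mul_of_nonneg_left _ (Real.exp_pos _).le
      rw [sum_sdiff_g]
      exact (g_outside C he.le R 0).trans (G_le_two he.le he2 _)

namespace Occ

theorem AU_mono (C : Chain) (n : ℕ) (u v : ℕ → ℤ → ℝ) (h : ∀ i z, u i z ≤ v i z) (x : ℤ) :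
    AU C n u x ≤ AU C n v x := by
  induction n generalizing u v x with
  | zero => exact le_rfl
  | succ n ih =>
    rw [AU, AU]
    apply add_le_add
    · split_ifs
      · exact mul_le_mul_of_nonneg_left (h 0 0) (C.nonneg _ _)
      · exact le_rfl
    · apply Finset.sum_le_sum
      intro z _
      apply mul_le_mul_of_nonneg_left _ (C.nonneg x z)
      apply add_le_add
      · exact mul_le_mul_of_nonneg_right (h 0 z) (K0_nonneg C n z)
      · exact ih (ushift u) (ushift v) (fun i z => h (i + 1) z) z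

theorem AU_affine (C : Chain) (n : ℕ) (u : ℕ → ℤ → ℝ) (a b : ℝ) (x : ℤ) :
    AU C n (fun i z => a * u i z + b) x = a * AU C n u x + b * n * K0 C n x := by
  induction n generalizing u x with
  | zero => simp [AU, K0]
  | succ n ih =>
    rw [AU, AU, K0]
    have h1 : ∀ z ∈ Finset.Icc (x - 1) (x + 1) \ {0}, C.p x z * ((a * u 0 z + b) * K0 C n z +
        AU C n (ushift fun i z => a * u i z + b) z) =
        a * (C.p x z * (u 0 z * K0 C n z + AU C n (ushift u) z)) +
          b * ((n : ℝ) + 1) * (C.p x z * K0 C n z) := by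
      intro z _
      have h2 : (ushift fun i z => a * u i z + b) = (fun i z => a * ushift u i z + b) := rfl
      rw [h2, ih]
      ring
    rw [Finset.sum_congr rfl h1, Finset.sum_add_distrib, ← Finset.mul_sum, ← Finset.mul_sum]
    by_cases hn : n = 0
    · subst hn
      simp only [if_true]
      push_cast
      ring
    · simp only [if_neg hn]
      push_cast
      ring

theorem log_bound {K M a : ℝ} (hK : 0 < K) (hM : 0 < M) (h : K * Real.exp a ≤ M) :
    a ≤ Real.log M - Real.log K := by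
  have h1 : Real.exp a ≤ M / K := by
    rw [le_div_iff₀ hK]
    linarith
  have h2 : a ≤ Real.log (M / K) := (Real.le_log_iff_exp_le (by positivity)).mpr h1
  rwa [Real.log_div hM.ne' hK.ne'] at h2

theorem log_combine (a b : ℝ) : |a| + |b| ≤ (1 + |a|) * (1 + |b|) := by
  have h1 := abs_nonneg a
  have h2 := abs_nonneg b
  nlinarith

end Occ

theorem occ_upper (C : Chain) {φ : ℤ → ℝ} (h0 : ∀ x, 0 ≤ φ x) (hlim : Tendsto φ cofinite (𝓝 0))
    {ε : ℝ} (hε : 0 < ε) : ∃ A : ℝ, 0 < A ∧ ∀ n : ℕ, 0 < K0 C n 0 →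
      AU C n (fun _ z => φ z) 0 / K0 C n 0 ≤ ε * n + A * (1 + |Real.log (K0 C n 0)|) := by
  have hfin : {z : ℤ | ¬ φ z < ε}.Finite := by
    have := hlim.eventually (gt_mem_nhds hε)
    exact this
  obtain ⟨R, hR⟩ : ∃ R : ℕ, ∀ z : ℤ, ¬ φ z < ε → |z| ≤ (R : ℤ) := by
    refine ⟨(hfin.toFinset.image Int.natAbs).sup id, ?_⟩
    intro z hz
    have h1 : z.natAbs ∈ hfin.toFinset.image Int.natAbs :=
      Finset.mem_image_of_mem _ (by simpa using hz)
    have h2 : id z.natAbs ≤ (hfin.toFinset.image Int.natAbs).sup id := Finset.le_sup h1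
    rw [Int.abs_eq_natAbs]
    exact_mod_cast h2
  obtain ⟨Φ, hΦ0, hΦ⟩ : ∃ Φ : ℝ, 0 < Φ ∧ ∀ z : ℤ, |z| ≤ (R : ℤ) → φ z ≤ Φ := by
    refine ⟨1 + ∑ z ∈ Finset.Icc (-(R : ℤ)) R, φ z, ?_, ?_⟩
    · have : 0 ≤ ∑ z ∈ Finset.Icc (-(R : ℤ)) R, φ z := Finset.sum_nonneg fun z _ => h0 z
      linarith
    · intro z hz
      have h1 : z ∈ Finset.Icc (-(R : ℤ)) R := by
        rw [Finset.mem_Icc]
        exact abs_le.mp hz
      have h2 := Finset.single_le_sum (f := φ) (fun z _ => h0 z) h1
      linarith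
  obtain ⟨l, hl, M, hM, hKU⟩ := visits_exp_bound C R
  refine ⟨Φ / l * (1 + |Real.log M|), by positivity, ?_⟩
  intro n hn
  set u : ℕ → ℤ → ℝ := fun _ z => if |z| ≤ (R : ℤ) then l else 0 with hu
  have h1 : AU C n (fun _ z => φ z) 0 ≤ AU C n (fun i z => Φ / l * u i z + ε) 0 := by
    apply AU_mono
    intro i z
    simp only [hu]
    split_ifs with hz
    · have h2 : Φ / l * l = Φ := by field_simp
      rw [h2]
      have := hΦ z hz
      linarith
    · rw [mul_zero, zero_add]
      by_contra h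
      exact hz (hR z (fun h' => h h'.le))
  rw [AU_affine] at h1
  have h2 : AU C n u 0 / K0 C n 0 ≤ Real.log M - Real.log (K0 C n 0) :=
    log_bound hn hM ((KU_jensen C n u 0 hn).trans (hKU n))
  have h3 : AU C n u 0 / K0 C n 0 ≤ (1 + |Real.log M|) * (1 + |Real.log (K0 C n 0)|) := by
    refine h2.trans (le_trans ?_ (log_combine _ _))
    have h4 := le_abs_self (Real.log M)
    have h5 := neg_abs_le (Real.log (K0 C n 0))
    linarith
  calc AU C n (fun _ z => φ z) 0 / K0 C n 0
      ≤ (Φ / l * AU C n u 0 + ε * n * K0 C n 0) / K0 C n 0 := by gcongr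
    _ = Φ / l * (AU C n u 0 / K0 C n 0) + ε * n := by
        field_simp
    _ ≤ Φ / l * ((1 + |Real.log M|) * (1 + |Real.log (K0 C n 0)|)) + ε * n := by gcongr
    _ = ε * n + Φ / l * (1 + |Real.log M|) * (1 + |Real.log (K0 C n 0)|) := by ring

namespace Occ

theorem Zf_det_nonneg (C : Chain) (η : ℝ) (φ : ℤ → ℝ) (n : ℕ) (ω : ℕ → ℝ) (x : ℤ) :
    0 ≤ Zf C (Wdet η φ) n ω x := by
  induction n generalizing ω x with
  | zero => exact zero_le_one
  | succ n ih =>
    rw [Zf]
    apply Finset.sum_nonneg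
    intro z _
    exact mul_nonneg (mul_nonneg (C.nonneg _ _) (Real.exp_pos _).le) (ih _ _)

theorem KU_le_Zf (C : Chain) (φ : ℤ → ℝ) (n : ℕ) (ω : ℕ → ℝ) (x : ℤ) :
    KU C n (fun _ z => -φ z) x ≤ Zf C (Wdet 1 φ) n ω x := by
  induction n generalizing ω x with
  | zero =>
    rw [KU, Zf]
    exact zero_le_one
  | succ n ih =>
    rw [KU, Zf]
    by_cases hn : n = 0
    · subst hn
      simp only [KU, mul_zero, Finset.sum_const_zero, add_zero, if_true, Zf, mul_one]
      by_cases h0 : (0 : ℤ) ∈ Finset.Icc (x - 1) (x + 1)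
      · have h1 := Finset.single_le_sum (f := fun z => C.p x z * Wdet 1 φ (ω 0) z)
          (fun z _ => mul_nonneg (C.nonneg x z) (Real.exp_pos _).le) h0
        refine le_trans (le_of_eq ?_) h1
        simp [Wdet]
      · rw [C.near x 0 h0, zero_mul]
        exact Finset.sum_nonneg fun z _ => mul_nonneg (C.nonneg x z) (Real.exp_pos _).le
    · rw [if_neg hn, zero_add]
      have h3 : (ushift fun _ z => -φ z) = (fun (_ : ℕ) z => -φ z) := rfl
      rw [h3]
      calc ∑ z ∈ Finset.Icc (x - 1) (x + 1) \ {0}, C.p x z * Real.exp (-φ z) *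
            KU C n (fun _ z => -φ z) z
          ≤ ∑ z ∈ Finset.Icc (x - 1) (x + 1) \ {0}, C.p x z * Wdet 1 φ (ω 0) z *
              Zf C (Wdet 1 φ) n (shift 1 ω) z := by
            apply Finset.sum_le_sum
            intro z _
            have h4 : Wdet 1 φ (ω 0) z = Real.exp (-φ z) := by simp [Wdet]
            rw [h4]
            exact mul_le_mul_of_nonneg_left (ih _ z)
              (mul_nonneg (C.nonneg x z) (Real.exp_pos _).le)
        _ ≤ ∑ z ∈ Finset.Icc (x - 1) (x + 1), C.p x z * Wdet 1 φ (ω 0) z *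
              Zf C (Wdet 1 φ) n (shift 1 ω) z := by
            apply Finset.sum_le_sum_of_subset_of_nonneg Finset.sdiff_subset
            intro z _ _
            exact mul_nonneg (mul_nonneg (C.nonneg x z) (Real.exp_pos _).le)
              (Zf_det_nonneg C 1 φ n _ z)

end Occ

theorem occ_lower (C : Chain) {φ : ℤ → ℝ} (h0 : ∀ x, 0 ≤ φ x) {r : ℝ} (hr : 0 < r)
    (hconf : Confine C φ r) : ∃ c : ℝ, 0 < c ∧ ∃ A : ℝ, 0 < A ∧ ∀ n : ℕ, 0 < K0 C n 0 →
      c * (n : ℝ) ^ r - A * (1 + |Real.log (K0 C n 0)|) ≤ AU C n (fun _ z => φ z) 0 / K0 C n 0 := by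
  obtain ⟨C₁, hC₁, c₂, hc₂, hZ⟩ := hconf 1 one_pos 0
  refine ⟨c₂, hc₂, 1 + |Real.log C₁|, by positivity, ?_⟩
  intro n hn
  have h1 : KU C n (fun _ z => -φ z) 0 ≤ C₁ * Real.exp (-c₂ * (n : ℝ) ^ r) :=
    (KU_le_Zf C φ n (fun _ => 0) 0).trans (hZ n 0 (by simp))
  have h2 := log_bound hn (by positivity) ((KU_jensen C n _ 0 hn).trans h1)
  rw [Real.log_mul hC₁.ne' (Real.exp_pos _).ne', Real.log_exp] at h2
  have h3 : AU C n (fun _ z => -φ z) 0 = -AU C n (fun _ z => φ z) 0 := by
    have h4 := AU_affine C n (fun _ z => φ z) (-1) 0 0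
    simp only [neg_mul, one_mul, add_zero, zero_mul] at h4
    exact h4
  rw [h3, neg_div] at h2
  have h4 := le_abs_self (Real.log C₁)
  have h5 := neg_abs_le (Real.log (K0 C n 0))
  have h6 := log_combine (Real.log C₁) (Real.log (K0 C n 0))
  linarith

end

end MP_daa227_pr
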