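import Pool.Agent.Lib.MP_daa227_pr.Free
import Pool.Agent.Lib.MP_daa227_pr.Occ
import Pool.Agent.Lib.MP_daa227_pr.Lin

/-!
# The free energy is nonnegative, and positive at `h = 0`
-/

open MeasureTheory ProbabilityTheory Set Filter
open scoped ENNReal Topology

namespace MP_daa227_pr

noncomputable section

set_option linter.unusedSectionVars false

namespace Model

variable (M : Model)

/-- Normalised occupation numbers of an excursion of length `n`. -/
def oc (n i : ℕ) : ℝ := occ M.C M.φ n i 0 / K0 M.C n 0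

/-- Expected contact of an excursion of length `n`. -/
def Ac (n : ℕ) : ℝ := AU M.C n (fun _ z => M.φ z) 0 / K0 M.C n 0

lemma sum_oc (n : ℕ) : ∑ i ∈ Finset.range n, M.oc n i = M.Ac n := by
  have h := AU_eq_occ M.C M.φ n (fun _ => 1) 0
  simp only [one_mul] at h
  unfold oc Ac
  rw [← Finset.sum_div, ← h]

lemma Gk_le_Zk {C : Chain} {W : ℝ → ℤ → ℝ} (hW : ∀ a z, 0 < W a z) (B : Finset ℤ) :
    ∀ (n : ℕ) (ω : ℕ → ℝ) (x y : ℤ), 0 ≤ Gk C W B n ω x y ∧ Gk C W B n ω x y ≤ Zk C W n ω x y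
  | 0, ω, x, y => by
      simp only [Gk, Zk]
      refine ⟨le_rfl, ?_⟩
      split_ifs <;> norm_num
  | n + 1, ω, x, y => by
      have ih := Gk_le_Zk hW B n (shift 1 ω) (C := C)
      have hnn : ∀ z, 0 ≤ C.p x z * W (ω 0) z * Gk C W B n (shift 1 ω) z y := fun z =>
        mul_nonneg (mul_nonneg (C.nonneg _ _) (hW _ _).le) (ih z y).1
      constructor
      · simp only [Gk]
        refine add_nonneg ?_ (Finset.sum_nonneg fun z _ => hnn z)
        split_ifs
        · exact mul_nonneg (C.nonneg _ _) (hW _ _).le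
        · exact le_rfl
      · rcases Nat.eq_zero_or_pos n with rfl | hn
        · simp only [Gk, Zk, if_true, mul_zero, Finset.sum_const_zero, add_zero]
          by_cases hy : y ∈ Finset.Icc (x - 1) (x + 1)
          · refine le_trans (le_of_eq ?_) (Finset.single_le_sum (f := fun z => C.p x z * W (ω 0) z *
              (if z = y then 1 else 0)) (fun z _ => ?_) hy)
            · simp
            · refine mul_nonneg (mul_nonneg (C.nonneg _ _) (hW _ _).le) ?_
              split_ifs <;> norm_num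
          · rw [C.near x y hy, zero_mul]
            apply Finset.sum_nonneg
            intro z _
            refine mul_nonneg (mul_nonneg (C.nonneg _ _) (hW _ _).le) ?_
            split_ifs <;> norm_num
        · simp only [Gk, Zk]
          rw [if_neg hn.ne', zero_add]
          refine (Finset.sum_le_sum_of_subset_of_nonneg Finset.sdiff_subset (fun z _ _ => hnn z)).trans ?_
          apply Finset.sum_le_sum
          intro z _
          exact mul_le_mul_of_nonneg_left (ih z y).2 (mul_nonneg (C.nonneg _ _) (hW _ _).le)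

/-- One excursion. -/
lemma logZ_ge (h : ℝ) {n : ℕ} (_hn : Even n) (hK : 0 < K0 M.C n 0) (ω : ℕ → ℝ) :
    Real.log (K0 M.C n 0) + ∑ i ∈ Finset.range n, (M.β * ω i - h) * M.oc n i ≤
      Real.log (M.Z h n ω 0 0) := by
  have h1 : K0 M.C n 0 * Real.exp (∑ i ∈ Finset.range n, (M.β * ω i - h) * M.oc n i) ≤ M.Z h n ω 0 0 := by
    have h2 := KU_jensen M.C n (fun i z => (M.β * ω i - h) * M.φ z) 0 hK
    rw [← KU_eq_Gk M.C M.φ M.β h n ω 0, AU_eq_occ M.C M.φ n (fun i => M.β * ω i - h) 0] at h2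
    have h3 : (∑ i ∈ Finset.range n, (M.β * ω i - h) * occ M.C M.φ n i 0) / K0 M.C n 0 =
        ∑ i ∈ Finset.range n, (M.β * ω i - h) * M.oc n i := by
      rw [Finset.sum_div]
      apply Finset.sum_congr rfl
      intro i _
      unfold oc
      ring
    rw [h3] at h2
    exact h2.trans (Gk_le_Zk (M.W_pos h) _ n ω 0 0).2
  have h4 := Real.log_le_log (mul_pos hK (Real.exp_pos _)) h1
  rwa [Real.log_mul hK.ne' (Real.exp_pos _).ne', Real.log_exp] at h4

lemma integrable_lin (n : ℕ) (c : ℕ → ℝ) (k : ℕ) :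
    Integrable (fun ω : ℕ → ℝ => ∑ i ∈ Finset.range n, c i * ω (i + k)) (seqLaw M.μ) :=
  integrable_finsetSum _ fun i _ =>
    (integrable_apply M.μ (i + k) (Y := fun x => x) measurable_id M.exp_mom.integrable_id).const_mul _

lemma integral_lin (n : ℕ) (c : ℕ → ℝ) (k : ℕ) :
    ∫ ω : ℕ → ℝ, ∑ i ∈ Finset.range n, c i * ω (i + k) ∂seqLaw M.μ = 0 := by
  rw [integral_finsetSum _ (fun i _ =>
    (integrable_apply M.μ (i + k) (Y := fun x => x) measurable_id M.exp_mom.integrable_id).const_mul _)]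
  apply Finset.sum_eq_zero
  intro i _
  rw [integral_const_mul, integral_apply M.μ (i + k) (Y := fun x => x) measurable_id, M.mean, mul_zero]

/-- One excursion, averaged. -/
lemma Ψ_ge_exc (h : ℝ) {n : ℕ} (hn : Even n) (hK : 0 < K0 M.C n 0) :
    Real.log (K0 M.C n 0) - h * M.Ac n ≤ M.Ψ h n := by
  have h1 : ∀ ω : ℕ → ℝ, (Real.log (K0 M.C n 0) - h * M.Ac n) +
      ∑ i ∈ Finset.range n, (M.β * M.oc n i) * ω (i + 0) ≤ Real.log (M.Z h n ω 0 0) := by
    intro ω
    refine le_trans (le_of_eq ?_) (M.logZ_ge h hn hK ω)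
    rw [← M.sum_oc, Finset.mul_sum]
    have : ∑ i ∈ Finset.range n, (M.β * ω i - h) * M.oc n i =
        ∑ i ∈ Finset.range n, (M.β * M.oc n i) * ω (i + 0) - ∑ i ∈ Finset.range n, h * M.oc n i := by
      rw [← Finset.sum_sub_distrib]
      apply Finset.sum_congr rfl
      intro i _
      simp only [Nat.add_zero]
      ring
    rw [this]
    ring
  have h2 := integral_mono ((integrable_const _).add (M.integrable_lin n (fun i => M.β * M.oc n i) 0))
    (M.integrable_logZ h hn) h1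
  have h3 : ∫ ω : ℕ → ℝ, ((Real.log (K0 M.C n 0) - h * M.Ac n) +
      ∑ i ∈ Finset.range n, (M.β * M.oc n i) * ω (i + 0)) ∂seqLaw M.μ =
      Real.log (K0 M.C n 0) - h * M.Ac n := by
    rw [integral_add (integrable_const _) (M.integrable_lin n (fun i => M.β * M.oc n i) 0),
      M.integral_lin n (fun i => M.β * M.oc n i) 0]
    simp
  have h4 : ∫ ω : ℕ → ℝ, ((Real.log (K0 M.C n 0) - h * M.Ac n) +
      ∑ i ∈ Finset.range n, (M.β * M.oc n i) * ω (i + 0)) ∂seqLaw M.μ ≤ M.Ψ h n := h2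
  rw [h3] at h4
  exact h4

/-- The return probabilities decay polynomially along powers of two. -/
def PolyReturn (C : Chain) : Prop := ∃ A₀ : ℝ, 0 < A₀ ∧ ∀ k : ℕ, 1 ≤ k → |Real.log (K0 C (2 ^ k) 0)| ≤ A₀ * k

lemma K0_two_pow_pos (C : Chain) {k : ℕ} (hk : 1 ≤ k) : 0 < K0 C (2 ^ k) 0 := by
  obtain ⟨j, rfl⟩ : ∃ j, k = j + 1 := ⟨k - 1, by omega⟩
  rw [pow_succ, mul_comm]
  exact K0_even_pos C (2 ^ j) Nat.one_le_two_pow

lemma even_two_pow {k : ℕ} (hk : 1 ≤ k) : Even (2 ^ k) := (Nat.even_pow).2 ⟨even_two, by omega⟩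

lemma Ac_nonneg {n : ℕ} : 0 ≤ M.Ac n := by
  unfold Ac
  apply div_nonneg _ (K0_nonneg _ _ _)
  have h := Occ.AU_mono M.C n (fun _ _ => 0) (fun _ z => M.φ z) (fun i z => (M.φ_pos z).le) 0
  have h2 := AU_eq_occ M.C M.φ n (fun _ => 0) 0
  simp only [zero_mul, Finset.sum_const_zero] at h2
  rw [h2] at h
  exact h

lemma tendsto_k_div (A : ℝ) : Tendsto (fun k : ℕ => A * (k : ℝ) / 2 ^ k) atTop (𝓝 0) := by
  have h1 := tendsto_pow_const_mul_const_pow_of_abs_lt_one 1 (r := (1 / 2 : ℝ))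
    (by rw [abs_of_pos] <;> norm_num)
  have h2 := h1.const_mul A
  rw [mul_zero] at h2
  refine h2.congr (fun k => ?_)
  rw [pow_one, one_div, inv_pow]
  ring

/-- The density of contacts of a long excursion vanishes. -/
lemma Ac_small (hK : PolyReturn M.C) {ε : ℝ} (hε : 0 < ε) :
    ∀ᶠ k : ℕ in atTop, M.Ac (2 ^ k) / 2 ^ k ≤ ε := by
  obtain ⟨A₀, hA₀, hK⟩ := hK
  obtain ⟨A, hA, hup⟩ := occ_upper M.C (fun x => (M.φ_pos x).le) M.φ_lim (half_pos hε)
  have h1 := (tendsto_k_div (A * A₀)).add (tendsto_k_div A)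
  rw [add_zero] at h1
  have h2 := h1.eventually (ge_mem_nhds (half_pos hε))
  filter_upwards [h2, eventually_ge_atTop 1] with k h3 hk
  have h4 := hup (2 ^ k) (K0_two_pow_pos M.C hk)
  have h5 := hK k hk
  have hk1 : (1 : ℝ) ≤ k := by exact_mod_cast hk
  have h2k : (0 : ℝ) < 2 ^ k := by positivity
  rw [div_le_iff₀ h2k]
  rw [← add_div, div_le_iff₀ h2k] at h3
  unfold Ac
  push_cast at h4
  have h6 : A * (1 + |Real.log (K0 M.C (2 ^ k) 0)|) ≤ A * k + A * A₀ * k := by
    have := mul_le_mul_of_nonneg_left (add_le_add hk1 h5) hA.le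
    linarith
  linarith

theorem Fr_nonneg (hK : PolyReturn M.C) (h : ℝ) : 0 ≤ M.Fr h := by
  apply le_of_forall_pos_lt_add
  intro ε hε
  have hK' := hK
  obtain ⟨A₀, hA₀, hK'⟩ := hK'
  have hε2 : 0 < ε / (2 * (|h| + 1)) := by positivity
  have h1 := M.Ac_small hK hε2
  have h2 := (tendsto_k_div A₀).eventually (gt_mem_nhds (half_pos hε))
  obtain ⟨k, ⟨h3, h4⟩, hk⟩ := ((h1.and h2).and (eventually_ge_atTop 1)).exists
  have h2k : (0 : ℝ) < 2 ^ k := by positivity
  have h5 := M.Ψ_ge_exc h (even_two_pow hk) (K0_two_pow_pos M.C hk)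
  have h6 := M.Ψ_le_Fr h (even_two_pow hk)
  have h7 := hK' k hk
  have h8 : h * M.Ac (2 ^ k) ≤ |h| * (ε / (2 * (|h| + 1)) * 2 ^ k) := by
    rw [div_le_iff₀ h2k] at h3
    exact mul_le_mul (le_abs_self h) h3 M.Ac_nonneg (abs_nonneg h)
  have h9 : |h| * (ε / (2 * (|h| + 1)) * 2 ^ k) ≤ ε / 2 * 2 ^ k := by
    have h10 : |h| * (ε / (2 * (|h| + 1))) ≤ ε / 2 := by
      rw [mul_div_assoc', div_le_div_iff₀ (by positivity) (by norm_num)]
      nlinarith [abs_nonneg h]
    calc |h| * (ε / (2 * (|h| + 1)) * 2 ^ k) = |h| * (ε / (2 * (|h| + 1))) * 2 ^ k := by ring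
      _ ≤ _ := mul_le_mul_of_nonneg_right h10 h2k.le
  rw [div_lt_iff₀ h2k] at h4
  have h11 := neg_abs_le (Real.log (K0 M.C (2 ^ k) 0))
  push_cast at h6
  have h12 : -(ε * 2 ^ k) < 2 ^ k * M.Fr h := by linarith
  have h13 : -ε < M.Fr h := by
    have : 2 ^ k * (-ε) < 2 ^ k * M.Fr h := by linarith
    exact lt_of_mul_lt_mul_left this h2k.le
  linarith

/-- Comparison of one long excursion with two short ones. -/
lemma two_strategies {c₀ : ℝ} (hc₀ : 0 < c₀) (hlin : ∀ (n : ℕ) (c : ℕ → ℝ),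
      c₀ * Real.sqrt (∑ i ∈ Finset.range n, c i ^ 2) ≤
        ∫ ω, |∑ i ∈ Finset.range n, c i * ω i| ∂seqLaw M.μ) {H : ℕ} (hH : Even H)
    (hK1 : 0 < K0 M.C H 0) (hK2 : 0 < K0 M.C (H + H) 0) :
    -(|Real.log (K0 M.C (H + H) 0)| + 2 * |Real.log (K0 M.C H 0)|) +
      M.β * c₀ / 2 * (|M.Ac (H + H) - 2 * M.Ac H| / Real.sqrt ((H + H : ℕ) : ℝ)) ≤ M.Ψ 0 (H + H) := by
  set N := H + H with hN
  have hNev : Even N := hH.add hH
  set m := |Real.log (K0 M.C N 0)| + 2 * |Real.log (K0 M.C H 0)| with hm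
  -- coefficients of the second strategy
  set o' : ℕ → ℝ := fun i => if i < H then M.oc H i else M.oc H (i - H) with ho'
  set X : (ℕ → ℝ) → ℝ := fun ω => ∑ i ∈ Finset.range N, (M.β * M.oc N i) * ω i with hX
  set Y : (ℕ → ℝ) → ℝ := fun ω => ∑ i ∈ Finset.range N, (M.β * o' i) * ω i with hY
  have hXle : ∀ ω, -m + X ω ≤ Real.log (M.Z 0 N ω 0 0) := by
    intro ω
    refine le_trans ?_ (M.logZ_ge 0 hNev hK2 ω)
    have h1 := neg_abs_le (Real.log (K0 M.C N 0))
    have h2 : X ω = ∑ i ∈ Finset.range N, (M.β * ω i - 0) * M.oc N i := by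
      apply Finset.sum_congr rfl; intro i _; ring
    have h3 := abs_nonneg (Real.log (K0 M.C H 0))
    rw [h2]
    linarith
  have hYle : ∀ ω, -m + Y ω ≤ Real.log (M.Z 0 N ω 0 0) := by
    intro ω
    have h1 := M.logZ_ge 0 hH hK1 ω
    have h2 := M.logZ_ge 0 hH hK1 (shift H ω)
    have h3 := Real.log_le_log (mul_pos (M.Z_pos 0 hH ω) (M.Z_pos 0 hH (shift H ω))) (M.Z_mul_le 0 H H ω 0 0 0)
    rw [Real.log_mul (M.Z_pos 0 hH ω).ne' (M.Z_pos 0 hH _).ne'] at h3
    have h4 : Y ω = ∑ i ∈ Finset.range H, (M.β * ω i - 0) * M.oc H i +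
        ∑ i ∈ Finset.range H, (M.β * shift H ω i - 0) * M.oc H i := by
      rw [hY, hN]
      dsimp only
      rw [Finset.sum_range_add]
      congr 1
      · apply Finset.sum_congr rfl
        intro i hi
        rw [ho']
        dsimp only
        rw [if_pos (Finset.mem_range.1 hi)]
        ring
      · apply Finset.sum_congr rfl
        intro i _
        rw [ho']
        dsimp only
        rw [if_neg (by omega), Nat.add_sub_cancel_left, shift_apply, Nat.add_comm i H]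
        ring
    have h5 := neg_abs_le (Real.log (K0 M.C H 0))
    have h6 := abs_nonneg (Real.log (K0 M.C N 0))
    rw [h4]
    linarith
  have hXi : Integrable X (seqLaw M.μ) := M.integrable_lin N (fun i => M.β * M.oc N i) 0
  have hYi : Integrable Y (seqLaw M.μ) := M.integrable_lin N (fun i => M.β * o' i) 0
  have hX0 : ∫ ω, X ω ∂seqLaw M.μ = 0 := M.integral_lin N (fun i => M.β * M.oc N i) 0
  have hY0 : ∫ ω, Y ω ∂seqLaw M.μ = 0 := M.integral_lin N (fun i => M.β * o' i) 0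
  have hpt : ∀ ω, -m + (1 / 2) * (X ω + Y ω + |X ω - Y ω|) ≤ Real.log (M.Z 0 N ω 0 0) := by
    intro ω
    have h1 := hXle ω
    have h2 := hYle ω
    rcases abs_cases (X ω - Y ω) with ⟨h3, _⟩ | ⟨h3, _⟩ <;> rw [h3] <;> linarith
  have habs : Integrable (fun ω => |X ω - Y ω|) (seqLaw M.μ) := (hXi.sub hYi).abs
  have hsumi : Integrable (fun ω => X ω + Y ω) (seqLaw M.μ) := hXi.add hYi
  have hsumi2 : Integrable (fun ω => X ω + Y ω + |X ω - Y ω|) (seqLaw M.μ) := hsumi.add habs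
  have hint := integral_mono ((integrable_const (-m)).add (hsumi2.const_mul (1 / 2)))
    (M.integrable_logZ 0 hNev) hpt
  have hval : ∫ ω, (-m + (1 / 2) * (X ω + Y ω + |X ω - Y ω|)) ∂seqLaw M.μ =
      -m + (1 / 2) * ∫ ω, |X ω - Y ω| ∂seqLaw M.μ := by
    rw [integral_add (integrable_const _) (hsumi2.const_mul _), integral_const_mul,
      integral_add hsumi habs, integral_add hXi hYi, hX0, hY0]
    simp
  have hint' : -m + (1 / 2) * ∫ ω, |X ω - Y ω| ∂seqLaw M.μ ≤ M.Ψ 0 N := by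
    rw [← hval]; exact hint
  -- lower bound for the absolute moment
  have hdiff : ∀ ω, X ω - Y ω = ∑ i ∈ Finset.range N, (M.β * (M.oc N i - o' i)) * ω i := by
    intro ω
    rw [hX, hY]
    dsimp only
    rw [← Finset.sum_sub_distrib]
    apply Finset.sum_congr rfl
    intro i _
    ring
  have hlow := hlin N (fun i => M.β * (M.oc N i - o' i))
  simp_rw [← hdiff] at hlow
  have hsumo' : ∑ i ∈ Finset.range N, o' i = 2 * M.Ac H := by
    rw [hN, Finset.sum_range_add, two_mul]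
    congr 1
    · rw [← M.sum_oc]
      apply Finset.sum_congr rfl
      intro i hi
      rw [ho']
      dsimp only
      rw [if_pos (Finset.mem_range.1 hi)]
    · rw [← M.sum_oc]
      apply Finset.sum_congr rfl
      intro i _
      rw [ho']
      dsimp only
      rw [if_neg (by omega), Nat.add_sub_cancel_left]
  have hcs : |∑ i ∈ Finset.range N, (M.β * (M.oc N i - o' i))| ≤
      Real.sqrt N * Real.sqrt (∑ i ∈ Finset.range N, (M.β * (M.oc N i - o' i)) ^ 2) := by
    rw [← Real.sqrt_mul (Nat.cast_nonneg _)]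
    apply Real.abs_le_sqrt
    have := sq_sum_le_card_mul_sum_sq (s := Finset.range N) (f := fun i => M.β * (M.oc N i - o' i))
    rw [Finset.card_range] at this
    exact this
  have hsum : ∑ i ∈ Finset.range N, (M.β * (M.oc N i - o' i)) = M.β * (M.Ac N - 2 * M.Ac H) := by
    rw [← Finset.mul_sum, Finset.sum_sub_distrib, M.sum_oc, hsumo']
  rw [hsum, abs_mul, abs_of_pos M.β_pos] at hcs
  have hfin : M.β * |M.Ac N - 2 * M.Ac H| / Real.sqrt N ≤
      Real.sqrt (∑ i ∈ Finset.range N, (M.β * (M.oc N i - o' i)) ^ 2) := by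
    apply div_le_of_le_mul₀ (Real.sqrt_nonneg _) (Real.sqrt_nonneg _)
    linarith
  have h1 := mul_le_mul_of_nonneg_left hfin hc₀.le
  have h2 : M.β * c₀ / 2 * (|M.Ac N - 2 * M.Ac H| / Real.sqrt N) =
      (1 / 2) * (c₀ * (M.β * |M.Ac N - 2 * M.Ac H| / Real.sqrt N)) := by ring
  rw [h2]
  linarith

theorem Fr_zero_pos (hK : PolyReturn M.C) {r₀ : ℝ} (hr₀ : 1 / 2 < r₀) (hconf₀ : Confine M.C M.φ r₀) :
    0 < M.Fr 0 := by
  obtain ⟨r, hr, hr1, hconf⟩ : ∃ r' : ℝ, 1 / 2 < r' ∧ r' ≤ 1 ∧ Confine M.C M.φ r' :=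
    ⟨min r₀ 1, lt_min hr₀ (by norm_num), min_le_right _ _,
      hconf₀.mono (lt_min (by linarith) one_pos) (min_le_left _ _)⟩
  by_contra hcon
  push Not at hcon
  have hK' := hK
  obtain ⟨A₀, hA₀, hK'⟩ := hK'
  obtain ⟨c₀, hc₀, hlin⟩ := linForm_lower M.exp_mom M.mean M.var
  obtain ⟨c, hc, A, hA, hlow⟩ := occ_lower M.C (fun x => (M.φ_pos x).le) (by linarith : 0 < r) hconf
  have hβ := M.β_pos
  set a : ℕ → ℝ := fun k => M.Ac (2 ^ k) / 2 ^ k with ha
  set C₁ := 6 * A₀ / (M.β * c₀) with hC₁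
  have hC₁0 : 0 < C₁ := by positivity
  set p := (2 : ℝ) ^ (-(1 / 2 : ℝ)) with hp
  have hp0 : 0 < p := by positivity
  -- increments
  have hinc : ∀ k : ℕ, 1 ≤ k → a k - a (k + 1) ≤ C₁ * ((k : ℝ) + 1) * p ^ (k + 1) := by
    intro k hk
    have hpos1 := K0_two_pow_pos M.C hk
    have hpos2 := K0_two_pow_pos M.C (k := k + 1) (by omega)
    have h22 : 2 ^ k + 2 ^ k = 2 ^ (k + 1) := by rw [pow_succ]; ring
    have h1 := M.two_strategies hc₀ hlin (even_two_pow hk) hpos1 (by rw [h22]; exact hpos2)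
    rw [h22] at h1
    have h2 : M.Ψ 0 (2 ^ (k + 1)) ≤ 0 :=
      (M.Ψ_le_Fr 0 (even_two_pow (by omega))).trans
        (mul_nonpos_of_nonneg_of_nonpos (Nat.cast_nonneg _) hcon)
    have h3 := hK' k hk
    have h4 := hK' (k + 1) (by omega)
    push_cast at h4 h1
    have h5 : M.β * c₀ / 2 * (|M.Ac (2 ^ (k + 1)) - 2 * M.Ac (2 ^ k)| / Real.sqrt (2 ^ (k + 1))) ≤
        3 * A₀ * (k + 1) := by nlinarith
    have h6 : |M.Ac (2 ^ (k + 1)) - 2 * M.Ac (2 ^ k)| / Real.sqrt (2 ^ (k + 1)) ≤ C₁ * (k + 1) := by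
      have h7 : |M.Ac (2 ^ (k + 1)) - 2 * M.Ac (2 ^ k)| / Real.sqrt (2 ^ (k + 1)) ≤
          (3 * A₀ * (k + 1)) / (M.β * c₀ / 2) := by
        rw [le_div_iff₀ (by positivity)]
        linarith
      refine h7.trans (le_of_eq ?_)
      rw [hC₁]
      field_simp
      ring
    have h2k : (0 : ℝ) < 2 ^ (k + 1) := by positivity
    have h8 : a k - a (k + 1) ≤ |M.Ac (2 ^ (k + 1)) - 2 * M.Ac (2 ^ k)| / 2 ^ (k + 1) := by
      rw [ha]
      dsimp only
      rw [le_div_iff₀ h2k, sub_mul, div_mul_cancel₀ _ h2k.ne']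
      have h9 : M.Ac (2 ^ k) / 2 ^ k * 2 ^ (k + 1) = 2 * M.Ac (2 ^ k) := by
        rw [pow_succ]; field_simp
      rw [h9, abs_sub_comm]
      exact le_abs_self _
    refine h8.trans ?_
    have h10 : |M.Ac (2 ^ (k + 1)) - 2 * M.Ac (2 ^ k)| / 2 ^ (k + 1) =
        (|M.Ac (2 ^ (k + 1)) - 2 * M.Ac (2 ^ k)| / Real.sqrt (2 ^ (k + 1))) * p ^ (k + 1) := by
      rw [hp, pow_half_aux, div_mul_div_comm, mul_one, Real.mul_self_sqrt h2k.le]
    rw [h10]
    exact mul_le_mul_of_nonneg_right h6 (by positivity)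
  -- geometric rate
  set s := (3 / 2 - r) / 2 with hs
  have hs0 : 0 < s := by rw [hs]; linarith
  have hs1 : s < 1 / 2 := by rw [hs]; linarith
  have hs2 : 1 - r < s := by rw [hs]; linarith
  set q := (2 : ℝ) ^ (-s) with hq
  have hq0 : 0 < q := by positivity
  have hq1 : q < 1 := by rw [hq]; exact Real.rpow_lt_one_of_one_lt_of_neg (by norm_num) (by linarith)
  have hpq : p / q < 1 := by
    rw [div_lt_one hq0, hp, hq]
    exact Real.rpow_lt_rpow_of_exponent_lt (by norm_num) (by linarith)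
  obtain ⟨B₀, hB₀, hB⟩ : ∃ B₀ : ℝ, 0 < B₀ ∧ ∀ k : ℕ, ((k : ℝ) + 1) * p ^ (k + 1) ≤ B₀ * q ^ (k + 1) := by
    have h1 := tendsto_pow_const_mul_const_pow_of_abs_lt_one 1 (r := p / q)
      (by rw [abs_of_pos (by positivity)]; exact hpq)
    obtain ⟨B, hB⟩ := h1.bddAbove_range
    refine ⟨max B 1, by positivity, fun k => ?_⟩
    have h2 : ((k + 1 : ℕ) : ℝ) ^ 1 * (p / q) ^ (k + 1) ≤ B := hB ⟨k + 1, rfl⟩
    rw [pow_one, div_pow, mul_div_assoc', div_le_iff₀ (by positivity)] at h2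
    push_cast at h2
    exact h2.trans (mul_le_mul_of_nonneg_right (le_max_left _ _) (by positivity))
  set C₄ := C₁ * B₀ / (1 - q) with hC₄
  have h1q : 0 < 1 - q := by linarith
  have hC₄0 : 0 < C₄ := by positivity
  set b : ℕ → ℝ := fun k => a k - C₄ * q ^ k with hb
  have hbmono : ∀ k : ℕ, 1 ≤ k → b k ≤ b (k + 1) := by
    intro k hk
    have h1 := hinc k hk
    have h2 := mul_le_mul_of_nonneg_left (hB k) hC₁0.le
    have h3 : C₁ * (B₀ * q ^ (k + 1)) ≤ C₄ * q ^ k - C₄ * q ^ (k + 1) := by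
      have h4 : C₄ * q ^ k - C₄ * q ^ (k + 1) = C₁ * B₀ * q ^ k := by
        rw [hC₄, pow_succ]
        field_simp
      rw [h4, pow_succ]
      have h5 : q ^ k * q ≤ q ^ k := mul_le_of_le_one_right (by positivity) hq1.le
      have h6 := mul_le_mul_of_nonneg_left h5 (by positivity : 0 ≤ C₁ * B₀)
      linarith
    rw [hb]
    dsimp only
    linarith
  have hbm : ∀ k m : ℕ, 1 ≤ k → k ≤ m → b k ≤ b m := by
    intro k m hk hkm
    induction m, hkm using Nat.le_induction with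
    | base => exact le_rfl
    | succ m hm ih => exact ih.trans (hbmono m (by omega))
  have hak : ∀ k : ℕ, 1 ≤ k → a k ≤ C₄ * q ^ k := by
    intro k hk
    have h1 : b k ≤ 0 := by
      apply le_of_forall_pos_le_add
      intro ε hε
      obtain ⟨m, h2, h3⟩ := ((M.Ac_small hK hε).and (eventually_ge_atTop k)).exists
      have h4 := hbm k m hk h3
      have h5 : b m ≤ a m := by
        rw [hb]; dsimp only
        have : 0 < C₄ * q ^ m := by positivity
        linarith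
      have h6 : a m ≤ ε := h2
      linarith
    rw [hb] at h1
    dsimp only at h1
    linarith
  -- contradiction
  set t := (2 : ℝ) ^ r with ht
  have ht0 : 0 < t := by positivity
  have htk : ∀ k : ℕ, ((2 : ℝ) ^ k) ^ r = t ^ k := by
    intro k
    rw [ht, ← Real.rpow_natCast, ← Real.rpow_natCast, ← Real.rpow_mul (by norm_num),
      ← Real.rpow_mul (by norm_num), mul_comm]
  have hx1 : q * 2 / t < 1 := by
    rw [div_lt_one ht0, hq, ht]
    calc (2 : ℝ) ^ (-s) * 2 = (2 : ℝ) ^ (-s + 1) := by rw [Real.rpow_add (by norm_num), Real.rpow_one]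
      _ < 2 ^ r := Real.rpow_lt_rpow_of_exponent_lt (by norm_num) (by linarith)
  have hy1 : 1 / t < 1 := by
    rw [div_lt_one ht0, ht]
    exact Real.one_lt_rpow (by norm_num) (by linarith)
  have hbound : ∀ k : ℕ, 1 ≤ k → c ≤ C₄ * (q * 2 / t) ^ k + (A * (1 / t) ^ k + A * A₀ * ((k : ℝ) * (1 / t) ^ k)) := by
    intro k hk
    have h1 := hlow (2 ^ k) (K0_two_pow_pos M.C hk)
    have h2 := hK' k hk
    have h3 := hak k hk
    have h2k : (0 : ℝ) < 2 ^ k := by positivity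
    rw [ha] at h3
    dsimp only at h3
    rw [div_le_iff₀ h2k] at h3
    push_cast at h1
    rw [htk] at h1
    have h4 : M.Ac (2 ^ k) = AU M.C (2 ^ k) (fun _ z => M.φ z) 0 / K0 M.C (2 ^ k) 0 := rfl
    rw [← h4] at h1
    have h5 := mul_le_mul_of_nonneg_left h2 hA.le
    have h6 : c * t ^ k ≤ C₄ * q ^ k * 2 ^ k + (A + A * A₀ * k) := by linarith
    have h7 : c ≤ (C₄ * q ^ k * 2 ^ k + (A + A * A₀ * k)) / t ^ k := by
      rw [le_div_iff₀ (by positivity)]; exact h6
    refine h7.trans (le_of_eq ?_)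
    rw [div_pow, mul_pow, div_pow, one_pow]
    field_simp
  have hlim : Tendsto (fun k : ℕ => C₄ * (q * 2 / t) ^ k + (A * (1 / t) ^ k + A * A₀ * ((k : ℝ) * (1 / t) ^ k)))
      atTop (𝓝 0) := by
    have e1 := tendsto_pow_atTop_nhds_zero_of_lt_one (r := q * 2 / t) (by positivity) hx1
    have e2 := tendsto_pow_atTop_nhds_zero_of_lt_one (r := 1 / t) (by positivity) hy1
    have e3 := tendsto_pow_const_mul_const_pow_of_abs_lt_one 1 (r := 1 / t)
      (by rw [abs_of_pos (by positivity)]; exact hy1)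
    simp only [pow_one] at e3
    have := (e1.const_mul C₄).add ((e2.const_mul A).add (e3.const_mul (A * A₀)))
    simpa using this
  have hc' : c ≤ 0 := by
    refine ge_of_tendsto hlim ?_
    filter_upwards [eventually_ge_atTop 1] with k hk
    exact hbound k hk
  linarith

end Model

end

end MP_daa227_pr
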