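import Pool.Agent.Lib.MP_daa227_pr.Mom

/-!
# Decomposition of a renewal sum at the first gap of the second type
-/

open MeasureTheory ProbabilityTheory Set Filter
open scoped ENNReal Topology

namespace MP_daa227_pr

noncomputable section

lemma BIGGAP_conv (Gs : ℕ → (ℕ → ℝ) → ℤ → ℤ → ℝ) (B : Finset ℤ) (n : ℕ) (ω : ℕ → ℝ) (x : ℤ)
    (F : ℕ → ℤ → ℝ) :
    ∑ L ∈ Finset.Ioc 0 n, ∑ z ∈ B, Gs L ω x z *
      ∑ t ∈ Finset.range (n - L), ∑ w ∈ B, Ren Gs B t (shift L ω) z w * F (t + L) w =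
    ∑ t ∈ Finset.Ioo 0 n, ∑ w ∈ B, Ren Gs B t ω x w * F t w := by
  have h1 : ∀ L ∈ Finset.Ioc 0 n, (∑ z ∈ B, Gs L ω x z *
      ∑ t ∈ Finset.range (n - L), ∑ w ∈ B, Ren Gs B t (shift L ω) z w * F (t + L) w) =
      ∑ t ∈ Finset.Ico L n, ∑ z ∈ B, ∑ w ∈ B,
        Gs L ω x z * (Ren Gs B (t - L) (shift L ω) z w * F t w) := by
    intro L hL
    rw [Finset.mem_Ioc] at hL
    rw [Finset.sum_comm (s := Finset.Ico L n)]
    apply Finset.sum_congr rfl
    intro z _
    have h5 : Finset.Ico L n = (Finset.range (n - L)).map (addRightEmbedding L) := by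
      rw [Finset.range_eq_Ico, Finset.map_add_right_Ico]
      ext i; simp only [Finset.mem_Ico]; omega
    rw [h5, Finset.sum_map, Finset.mul_sum]
    apply Finset.sum_congr rfl
    intro t _
    rw [Finset.mul_sum]
    simp only [addRightEmbedding_apply, Nat.add_sub_cancel]
  rw [Finset.sum_congr rfl h1]
  have h2 : ∀ t ∈ Finset.Ioo 0 n, (∑ w ∈ B, Ren Gs B t ω x w * F t w) =
      ∑ L ∈ Finset.Ioc 0 t, ∑ z ∈ B, ∑ w ∈ B,
        Gs L ω x z * (Ren Gs B (t - L) (shift L ω) z w * F t w) := by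
    intro t ht
    rw [Finset.mem_Ioo] at ht
    simp_rw [Ren_pos_eq B Gs (show t ≠ 0 by omega), Finset.sum_mul]
    rw [Finset.sum_comm]
    apply Finset.sum_congr rfl; intro L _
    rw [Finset.sum_comm]
    apply Finset.sum_congr rfl; intro z _
    apply Finset.sum_congr rfl; intro w _
    ring
  rw [Finset.sum_congr rfl h2]
  apply Finset.sum_comm'
  intro L t
  simp only [Finset.mem_Ioc, Finset.mem_Ico, Finset.mem_Ioo]
  omega

/-- Resolvent identity: decomposition at the first gap of type `Gb`. -/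
theorem Ren_split (G Gs Gb : ℕ → (ℕ → ℝ) → ℤ → ℤ → ℝ) (B : Finset ℤ)
    (hG : ∀ L ω x y, G L ω x y = Gs L ω x y + Gb L ω x y) :
    ∀ (n : ℕ) (ω : ℕ → ℝ) (x y : ℤ), x ∈ B → Ren G B n ω x y = Ren Gs B n ω x y +
      ∑ t ∈ Finset.range n, ∑ s ∈ Finset.Ioc t n, ∑ z ∈ B, ∑ z' ∈ B,
        Ren Gs B t ω x z * Gb (s - t) (shift t ω) z z' * Ren G B (n - s) (shift s ω) z' y := by
  intro n
  induction n using Nat.strong_induction_on with
  | _ n ih =>
    intro ω x y hx
    rcases Nat.eq_zero_or_pos n with rfl | hn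
    · simp [Ren_zero]
    · set F : ℕ → ℤ → ℝ := fun t w => ∑ s ∈ Finset.Ioc t n, ∑ w' ∈ B,
        Gb (s - t) (shift t ω) w w' * Ren G B (n - s) (shift s ω) w' y with hF
      have h1 : ∀ L ∈ Finset.Ioc 0 n, ∀ z ∈ B, Ren G B (n - L) (shift L ω) z y =
          Ren Gs B (n - L) (shift L ω) z y + ∑ t ∈ Finset.range (n - L), ∑ w ∈ B,
            Ren Gs B t (shift L ω) z w * F (t + L) w := by
        intro L hL z hz
        rw [Finset.mem_Ioc] at hL
        rw [ih (n - L) (by omega) (shift L ω) z y hz]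
        congr 1
        apply Finset.sum_congr rfl; intro t ht
        rw [Finset.mem_range] at ht
        rw [Finset.sum_comm]
        apply Finset.sum_congr rfl; intro w _
        rw [hF]
        simp only [Finset.mul_sum]
        have h2 : Finset.Ioc (t + L) n = (Finset.Ioc t (n - L)).map (addRightEmbedding L) := by
          rw [Finset.map_add_right_Ioc]
          congr 1
          omega
        rw [h2, Finset.sum_map]
        apply Finset.sum_congr rfl; intro s hs
        rw [Finset.mem_Ioc] at hs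
        apply Finset.sum_congr rfl; intro w' _
        simp only [addRightEmbedding_apply]
        rw [shift_shift, shift_shift, show s + L - (t + L) = s - t by omega,
          show n - (s + L) = n - L - s by omega]
        ring
      have h3 : ∀ t ∈ Finset.range n, (∑ s ∈ Finset.Ioc t n, ∑ z ∈ B, ∑ z' ∈ B,
          Ren Gs B t ω x z * Gb (s - t) (shift t ω) z z' * Ren G B (n - s) (shift s ω) z' y) =
          ∑ w ∈ B, Ren Gs B t ω x w * F t w := by
        intro t _
        rw [Finset.sum_comm]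
        apply Finset.sum_congr rfl; intro w _
        rw [hF]
        simp only [Finset.mul_sum]
        apply Finset.sum_congr rfl; intro s _
        apply Finset.sum_congr rfl; intro w' _
        ring
      rw [Finset.sum_congr rfl h3]
      have h4 : Finset.range n = insert 0 (Finset.Ioo 0 n) := by
        ext i; simp only [Finset.mem_range, Finset.mem_insert, Finset.mem_Ioo]; omega
      rw [h4, Finset.sum_insert (by simp), ← BIGGAP_conv, Ren_pos_eq B G (by omega),
        Ren_pos_eq B Gs (by omega)]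
      have h5 : (∑ w ∈ B, Ren Gs B 0 ω x w * F 0 w) =
          ∑ L ∈ Finset.Ioc 0 n, ∑ z ∈ B, Gb L ω x z * Ren G B (n - L) (shift L ω) z y := by
        rw [Finset.sum_eq_single x]
        · rw [Ren_zero, if_pos rfl, hF]; simp
        · intro z _ hz
          rw [Ren_zero, if_neg (fun h => hz h.symm)]; simp
        · intro h; exact absurd hx h
      rw [h5, ← Finset.sum_add_distrib, ← Finset.sum_add_distrib]
      apply Finset.sum_congr rfl; intro L hL
      rw [← Finset.sum_add_distrib, ← Finset.sum_add_distrib]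
      apply Finset.sum_congr rfl; intro z hz
      rw [hG, add_mul]
      have h6 := h1 L hL z hz
      nth_rewrite 1 [h6]
      ring

/-- Real-number bookkeeping for `mom_Ren_split`. -/
lemma BIGGAP_real {D a τ S c : ℝ} (hD : 0 ≤ D) (haτ : a < τ) {κ' : ℕ → ℝ}
    (hS : ∀ n : ℕ, ∑ L ∈ Finset.Ioc 0 n, κ' L ≤ S)
    (hc : 0 ≤ c) (hq : c * (2 * D) * S ≤ 1 - Real.exp (-(τ - a))) (n : ℕ) :
    D * Real.exp (a * n) + ∑ t ∈ Finset.range n, ∑ s ∈ Finset.Ioc t n,
      c * (D * Real.exp (a * t) * (κ' (s - t) * Real.exp (τ * ((s - t : ℕ) : ℝ))) *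
        (2 * D * Real.exp (τ * ((n - s : ℕ) : ℝ)))) ≤ 2 * D * Real.exp (τ * n) := by
  set r := Real.exp (-(τ - a)) with hr
  have hr0 : 0 ≤ r := (Real.exp_pos _).le
  have hterm : ∀ t ∈ Finset.range n, (∑ s ∈ Finset.Ioc t n,
      c * (D * Real.exp (a * t) * (κ' (s - t) * Real.exp (τ * ((s - t : ℕ) : ℝ))) *
        (2 * D * Real.exp (τ * ((n - s : ℕ) : ℝ))))) ≤
      (c * (2 * D) * S) * (D * Real.exp (τ * n)) * r ^ t := by
    intro t ht
    rw [Finset.mem_range] at ht
    have h1 : ∀ s ∈ Finset.Ioc t n,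
        c * (D * Real.exp (a * t) * (κ' (s - t) * Real.exp (τ * ((s - t : ℕ) : ℝ))) *
          (2 * D * Real.exp (τ * ((n - s : ℕ) : ℝ)))) =
        (c * (2 * D) * (D * Real.exp (τ * n)) * r ^ t) * κ' (s - t) := by
      intro s hs
      rw [Finset.mem_Ioc] at hs
      have e1 : Real.exp (a * t) * (Real.exp (τ * ((s - t : ℕ) : ℝ)) *
          Real.exp (τ * ((n - s : ℕ) : ℝ))) = Real.exp (τ * n) * r ^ t := by
        rw [hr, ← Real.exp_nat_mul, ← Real.exp_add, ← Real.exp_add, ← Real.exp_add,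
          Nat.cast_sub hs.1.le, Nat.cast_sub hs.2]
        congr 1
        ring
      linear_combination (c * D * κ' (s - t) * (2 * D)) * e1
    rw [Finset.sum_congr rfl h1, ← Finset.mul_sum]
    have h2 : ∑ s ∈ Finset.Ioc t n, κ' (s - t) = ∑ L ∈ Finset.Ioc 0 (n - t), κ' L := by
      have h3 : Finset.Ioc t n = (Finset.Ioc 0 (n - t)).map (addRightEmbedding t) := by
        rw [Finset.map_add_right_Ioc]
        congr 1 <;> omega
      rw [h3, Finset.sum_map]
      simp only [addRightEmbedding_apply, Nat.add_sub_cancel]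
    rw [h2]
    have h4 : 0 ≤ c * (2 * D) * (D * Real.exp (τ * n)) * r ^ t := by positivity
    refine (mul_le_mul_of_nonneg_left (hS (n - t)) h4).trans_eq ?_
    ring
  have hsum := Finset.sum_le_sum hterm
  rw [← Finset.mul_sum] at hsum
  have hgeo : (1 - r) * ∑ t ∈ Finset.range n, r ^ t ≤ 1 := by
    rw [mul_neg_geom_sum]
    have := pow_nonneg hr0 n
    linarith
  have hg0 : 0 ≤ ∑ t ∈ Finset.range n, r ^ t := Finset.sum_nonneg fun i _ => pow_nonneg hr0 i
  have hE : 0 ≤ D * Real.exp (τ * n) := by positivity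
  have h5 : (c * (2 * D) * S) * (D * Real.exp (τ * n)) * ∑ t ∈ Finset.range n, r ^ t ≤
      D * Real.exp (τ * n) := by
    calc _ ≤ (1 - r) * (D * Real.exp (τ * n)) * ∑ t ∈ Finset.range n, r ^ t := by
          gcongr
      _ = ((1 - r) * ∑ t ∈ Finset.range n, r ^ t) * (D * Real.exp (τ * n)) := by ring
      _ ≤ 1 * (D * Real.exp (τ * n)) := mul_le_mul_of_nonneg_right hgeo hE
      _ = _ := one_mul _
  have h6 : D * Real.exp (a * n) ≤ D * Real.exp (τ * n) := by
    gcongr
  linarith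

theorem mom_Ren_split {μ : Measure ℝ} [IsProbabilityMeasure μ] {γ : ℝ} (h0 : 0 < γ) (h1 : γ ≤ 1)
    {κ : ℝ} (hκ0 : 0 ≤ κ) {G Gs Gb : ℕ → (ℕ → ℝ) → ℤ → ℤ → ℝ} {B : Finset ℤ}
    (hGs : ∀ L x y, Good L κ (fun ω => Gs L ω x y)) (hGb : ∀ L x y, Good L κ (fun ω => Gb L ω x y))
    (hG : ∀ L ω x y, G L ω x y = Gs L ω x y + Gb L ω x y)
    {D a τ : ℝ} (hD : 0 ≤ D) (haτ : a < τ) {κ' : ℕ → ℝ} (hκ'0 : ∀ t, 0 ≤ κ' t)
    (hζ : ∀ t : ℕ, ∀ x ∈ B, ∀ y ∈ B,
      mom μ γ (fun ω => Ren Gs B t ω x y) ≤ ENNReal.ofReal (D * Real.exp (a * t)))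
    (hκ : ∀ L : ℕ, 1 ≤ L → ∀ x ∈ B, ∀ y ∈ B,
      mom μ γ (fun ω => Gb L ω x y) ≤ ENNReal.ofReal (κ' L * Real.exp (τ * L)))
    {S : ℝ} (hS : ∀ n : ℕ, ∑ L ∈ Finset.Ioc 0 n, κ' L ≤ S)
    (hq : (B.card : ℝ) ^ 2 * (2 * D) * S ≤ 1 - Real.exp (-(τ - a))) :
    ∀ n : ℕ, ∀ x ∈ B, ∀ y ∈ B,
      mom μ γ (fun ω => Ren G B n ω x y) ≤ ENNReal.ofReal (2 * D * Real.exp (τ * n)) := by
  have hGg : ∀ L x y, Good L κ (fun ω => G L ω x y) := fun L x y =>
    ((hGs L x y).add (hGb L x y)).congr fun ω => hG L ω x y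
  have hR := good_Ren hκ0 (B := B) hGg
  have hRs := good_Ren hκ0 (B := B) hGs
  intro n
  induction n using Nat.strong_induction_on with
  | _ n ih =>
    intro x hx y hy
    have hterm : ∀ t ∈ Finset.range n, ∀ s ∈ Finset.Ioc t n, ∀ z z' : ℤ,
        Good n κ (fun ω => Ren Gs B t ω x z * Gb (s - t) (shift t ω) z z' *
          Ren G B (n - s) (shift s ω) z' y) := by
      intro t ht s hs z z'
      rw [Finset.mem_range] at ht
      rw [Finset.mem_Ioc] at hs
      have h2 := (hRs t x z).mul_shift (hGb (s - t) z z')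
      rw [show t + (s - t) = s by omega] at h2
      have h3 := h2.mul_shift (hR (n - s) z' y)
      rw [show s + (n - s) = n by omega] at h3
      exact h3
    have hstr : mom μ γ (fun ω => Ren G B n ω x y) ≤ mom μ γ (fun ω => Ren Gs B n ω x y) +
        ∑ t ∈ Finset.range n, ∑ s ∈ Finset.Ioc t n, ∑ z ∈ B, ∑ z' ∈ B,
          mom μ γ (fun ω => Ren Gs B t ω x z * Gb (s - t) (shift t ω) z z' *
            Ren G B (n - s) (shift s ω) z' y) := by
      rw [mom_congr (fun ω => Ren_split G Gs Gb B hG n ω x y hx)]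
      refine (mom_add_le h0.le h1 (hRs n x y).meas (hRs n x y).nonneg (fun ω => ?_)).trans ?_
      · exact (Good.sum hκ0 _ fun t ht => Good.sum hκ0 _ fun s hs => Good.sum hκ0 _ fun z _ =>
          Good.sum hκ0 _ fun z' _ => hterm t ht s hs z z').nonneg ω
      refine add_le_add le_rfl ?_
      refine (mom_sum_le h0 h1 _ (fun t ht => ?_) (fun t ht ω => ?_)).trans ?_
      · exact (Good.sum hκ0 _ fun s hs => Good.sum hκ0 _ fun z _ => Good.sum hκ0 _ fun z' _ =>
          hterm t ht s hs z z').meas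
      · exact (Good.sum hκ0 _ fun s hs => Good.sum hκ0 _ fun z _ => Good.sum hκ0 _ fun z' _ =>
          hterm t ht s hs z z').nonneg ω
      apply Finset.sum_le_sum
      intro t ht
      refine (mom_sum_le h0 h1 _ (fun s hs => ?_) (fun s hs ω => ?_)).trans ?_
      · exact (Good.sum hκ0 _ fun z _ => Good.sum hκ0 _ fun z' _ => hterm t ht s hs z z').meas
      · exact (Good.sum hκ0 _ fun z _ => Good.sum hκ0 _ fun z' _ => hterm t ht s hs z z').nonneg ω
      apply Finset.sum_le_sum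
      intro s hs
      refine (mom_sum_le h0 h1 _ (fun z _ => ?_) (fun z _ ω => ?_)).trans ?_
      · exact (Good.sum hκ0 _ fun z' _ => hterm t ht s hs z z').meas
      · exact (Good.sum hκ0 _ fun z' _ => hterm t ht s hs z z').nonneg ω
      apply Finset.sum_le_sum
      intro z _
      refine (mom_sum_le h0 h1 _ (fun z' _ => ?_) (fun z' _ ω => ?_)).trans le_rfl
      · exact (hterm t ht s hs z z').meas
      · exact (hterm t ht s hs z z').nonneg ω
    refine hstr.trans ?_
    have hterm2 : ∀ t ∈ Finset.range n, ∀ s ∈ Finset.Ioc t n, ∀ z ∈ B, ∀ z' ∈ B,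
        mom μ γ (fun ω => Ren Gs B t ω x z * Gb (s - t) (shift t ω) z z' *
            Ren G B (n - s) (shift s ω) z' y) ≤
          ENNReal.ofReal (D * Real.exp (a * t) * (κ' (s - t) * Real.exp (τ * ((s - t : ℕ) : ℝ))) *
            (2 * D * Real.exp (τ * ((n - s : ℕ) : ℝ)))) := by
      intro t ht s hs z hz z' hz'
      rw [Finset.mem_range] at ht
      rw [Finset.mem_Ioc] at hs
      have h2 := (hRs t x z).mul_shift (hGb (s - t) z z')
      rw [show t + (s - t) = s by omega] at h2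
      rw [mom_mul_shift (k := s) (F := fun ω => Ren Gs B t ω x z * Gb (s - t) (shift t ω) z z')
        (G := fun ω => Ren G B (n - s) ω z' y) h0.le h2.meas (hR (n - s) z' y).meas h2.depOn h2.nonneg]
      rw [mom_mul_shift (k := t) (F := fun ω => Ren Gs B t ω x z)
        (G := fun ω => Gb (s - t) ω z z') h0.le (hRs t x z).meas (hGb _ _ _).meas (hRs t x z).depOn
          (hRs t x z).nonneg]
      have hp1 : 0 ≤ D * Real.exp (a * t) := by positivity
      have hp2 : 0 ≤ κ' (s - t) * Real.exp (τ * ((s - t : ℕ) : ℝ)) :=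
        mul_nonneg (hκ'0 _) (Real.exp_pos _).le
      rw [ENNReal.ofReal_mul (mul_nonneg hp1 hp2), ENNReal.ofReal_mul hp1]
      exact mul_le_mul' (mul_le_mul' (hζ t x hx z hz) (hκ (s - t) (by omega) z hz z' hz'))
        (ih (n - s) (by omega) z' hz' y hy)
    have hsum : ∑ t ∈ Finset.range n, ∑ s ∈ Finset.Ioc t n, ∑ z ∈ B, ∑ z' ∈ B,
          mom μ γ (fun ω => Ren Gs B t ω x z * Gb (s - t) (shift t ω) z z' *
            Ren G B (n - s) (shift s ω) z' y) ≤
        ∑ t ∈ Finset.range n, ∑ s ∈ Finset.Ioc t n, ∑ z ∈ B, ∑ z' ∈ B,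
          ENNReal.ofReal (D * Real.exp (a * t) * (κ' (s - t) * Real.exp (τ * ((s - t : ℕ) : ℝ))) *
            (2 * D * Real.exp (τ * ((n - s : ℕ) : ℝ)))) :=
      Finset.sum_le_sum fun t ht => Finset.sum_le_sum fun s hs => Finset.sum_le_sum fun z hz =>
        Finset.sum_le_sum fun z' hz' => hterm2 t ht s hs z hz z' hz'
    refine (add_le_add (hζ n x hx y hy) hsum).trans ?_
    set E : ℕ → ℕ → ℝ := fun t s =>
      D * Real.exp (a * t) * (κ' (s - t) * Real.exp (τ * ((s - t : ℕ) : ℝ))) *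
            (2 * D * Real.exp (τ * ((n - s : ℕ) : ℝ))) with hE
    have hn0 : ∀ t s, 0 ≤ E t s := fun t s =>
      mul_nonneg (mul_nonneg (by positivity) (mul_nonneg (hκ'0 _) (Real.exp_pos _).le))
        (by positivity)
    have hreal : ∑ t ∈ Finset.range n, ∑ s ∈ Finset.Ioc t n, ∑ _z ∈ B, ∑ _z' ∈ B,
          ENNReal.ofReal (E t s) =
        ENNReal.ofReal (∑ t ∈ Finset.range n, ∑ s ∈ Finset.Ioc t n, ∑ _z ∈ B, ∑ _z' ∈ B, E t s) := by
      rw [ENNReal.ofReal_sum_of_nonneg (fun t _ => Finset.sum_nonneg fun s _ => Finset.sum_nonneg fun z _ =>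
        Finset.sum_nonneg fun z' _ => hn0 t s)]
      apply Finset.sum_congr rfl; intro t _
      rw [ENNReal.ofReal_sum_of_nonneg (fun s _ => Finset.sum_nonneg fun z _ =>
        Finset.sum_nonneg fun z' _ => hn0 t s)]
      apply Finset.sum_congr rfl; intro s _
      rw [ENNReal.ofReal_sum_of_nonneg (fun z _ => Finset.sum_nonneg fun z' _ => hn0 t s)]
      apply Finset.sum_congr rfl; intro z _
      rw [ENNReal.ofReal_sum_of_nonneg (fun z' _ => hn0 t s)]
    rw [hreal, ← ENNReal.ofReal_add (by positivity) (Finset.sum_nonneg fun t _ =>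
      Finset.sum_nonneg fun s _ => Finset.sum_nonneg fun z _ => Finset.sum_nonneg fun z' _ => hn0 t s)]
    apply ENNReal.ofReal_le_ofReal
    have h5 := BIGGAP_real (c := (B.card : ℝ) ^ 2) hD haτ hS (by positivity) hq n
    refine le_trans (le_of_eq ?_) h5
    congr 1
    apply Finset.sum_congr rfl; intro t _
    apply Finset.sum_congr rfl; intro s _
    simp only [Finset.sum_const, nsmul_eq_mul, hE]
    ring

end

end MP_daa227_pr
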