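import Pool.Agent.Lib.MP_daa227_pr.Kernel

/-!
# First and last visit decompositions
-/

open MeasureTheory ProbabilityTheory Set Filter
open scoped ENNReal

namespace MP_daa227_pr

noncomputable section

/-- one step of the sum over first visits -/
lemma deco_step (C : Chain) (W : ℝ → ℤ → ℝ) (B : Finset ℤ) (n : ℕ) (ω : ℕ → ℝ) (x : ℤ)
    (F : ℕ → ℤ → ℝ) :
    ∑ L ∈ Finset.Ioc 0 (n + 1), ∑ w ∈ B, Gk C W B L ω x w * F L w =
      ∑ w ∈ Finset.Icc (x - 1) (x + 1) ∩ B, C.p x w * W (ω 0) w * F 1 w +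
      ∑ z ∈ Finset.Icc (x - 1) (x + 1) \ B, C.p x z * W (ω 0) z *
        ∑ L ∈ Finset.Ioc 0 n, ∑ w ∈ B, Gk C W B L (shift 1 ω) z w * F (L + 1) w := by
  have h0 : ∑ L ∈ Finset.Ioc 0 (n + 1), ∑ w ∈ B, Gk C W B L ω x w * F L w =
      ∑ L ∈ Finset.range (n + 1), ∑ w ∈ B, Gk C W B (L + 1) ω x w * F (L + 1) w := by
    rw [Finset.range_eq_Ico, Finset.sum_Ico_add' (fun L => ∑ w ∈ B, Gk C W B L ω x w * F L w)]
    congr 1
  rw [h0]
  simp only [Gk, add_mul, Finset.sum_add_distrib]
  congr 1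
  · rw [Finset.sum_eq_single 0]
    · simp only [if_pos, zero_add]
      rw [Finset.inter_comm, ← Finset.sum_subset (Finset.inter_subset_left (s₁ := B)
        (s₂ := Finset.Icc (x - 1) (x + 1)))]
      intro w hwB hw
      have hw' : w ∉ Finset.Icc (x - 1) (x + 1) := fun h => hw (Finset.mem_inter.mpr ⟨hwB, h⟩)
      rw [C.near x w hw', zero_mul, zero_mul]
    · intro L _ hL
      refine Finset.sum_eq_zero fun w _ => ?_
      rw [if_neg hL, zero_mul]
    · intro h
      exact absurd (Finset.mem_range.mpr (Nat.succ_pos n)) h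
  · have h1 : ∀ L ∈ Finset.range (n + 1), ∑ w ∈ B,
        (∑ z ∈ Finset.Icc (x - 1) (x + 1) \ B, C.p x z * W (ω 0) z * Gk C W B L (shift 1 ω) z w) *
          F (L + 1) w =
        ∑ z ∈ Finset.Icc (x - 1) (x + 1) \ B, C.p x z * W (ω 0) z *
          ∑ w ∈ B, Gk C W B L (shift 1 ω) z w * F (L + 1) w := by
      intro L _
      simp_rw [Finset.sum_mul]
      rw [Finset.sum_comm]
      refine Finset.sum_congr rfl fun z _ => ?_
      rw [Finset.mul_sum]
      refine Finset.sum_congr rfl fun w _ => ?_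
      ring
    rw [Finset.sum_congr rfl h1, Finset.sum_comm]
    refine Finset.sum_congr rfl fun z _ => ?_
    rw [← Finset.mul_sum]
    congr 1
    rw [Finset.sum_range_succ']
    have h2 : ∑ w ∈ B, Gk C W B 0 (shift 1 ω) z w * F (0 + 1) w = 0 :=
      Finset.sum_eq_zero fun w _ => by simp only [Gk, zero_mul]
    rw [h2, add_zero, Finset.range_eq_Ico, Finset.sum_Ico_add' (fun L => ∑ w ∈ B,
      Gk C W B L (shift 1 ω) z w * F (L + 1) w)]
    congr 1

theorem Zk_eq_Ren (C : Chain) (W : ℝ → ℤ → ℝ) (B : Finset ℤ) {y : ℤ} (hy : y ∈ B) :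
    ∀ (n : ℕ) (ω : ℕ → ℝ) (x : ℤ), Zk C W n ω x y = Ren (Gk C W B) B n ω x y := by
  intro n
  induction n with
  | zero =>
    intro ω x
    rw [Ren_zero]
    rfl
  | succ n ih =>
    intro ω x
    rw [Ren_pos_eq B (Gk C W B) (Nat.succ_ne_zero n),
      deco_step C W B n ω x (fun L w => Ren (Gk C W B) B (n + 1 - L) (shift L ω) w y)]
    rw [Zk, ← Finset.sum_inter_add_sum_sdiff (Finset.Icc (x - 1) (x + 1)) B]
    congr 1
    · refine Finset.sum_congr rfl fun w _ => ?_
      rw [ih, Nat.add_sub_cancel]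
    · refine Finset.sum_congr rfl fun z hz => ?_
      congr 1
      rw [ih]
      have hzB : z ∉ B := (Finset.mem_sdiff.mp hz).2
      rcases Nat.eq_zero_or_pos n with h0 | h0
      · subst h0
        rw [Ren_zero, if_neg (fun h : z = y => hzB (by rw [h]; exact hy))]
        simp
      · rw [Ren_pos_eq B (Gk C W B) h0.ne']
        refine Finset.sum_congr rfl fun L _ => Finset.sum_congr rfl fun w _ => ?_
        rw [shift_shift, Nat.add_sub_add_right]

/-- first visit decomposition of the free partition function -/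
lemma Zf_first (C : Chain) (W : ℝ → ℤ → ℝ) (B : Finset ℤ) :
    ∀ (n : ℕ) (ω : ℕ → ℝ) (x : ℤ), Zf C W n ω x = Gf C W B n ω x +
      ∑ L ∈ Finset.Ioc 0 n, ∑ w ∈ B, Gk C W B L ω x w * Zf C W (n - L) (shift L ω) w := by
  intro n
  induction n with
  | zero => intro ω x; simp [Zf, Gf]
  | succ n ih =>
    intro ω x
    rw [deco_step C W B n ω x (fun L w => Zf C W (n + 1 - L) (shift L ω) w)]
    rw [Zf, Gf, ← Finset.sum_inter_add_sum_sdiff (Finset.Icc (x - 1) (x + 1)) B]
    have h1 : ∀ z ∈ Finset.Icc (x - 1) (x + 1) \ B,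
        C.p x z * W (ω 0) z * Zf C W n (shift 1 ω) z =
        C.p x z * W (ω 0) z * Gf C W B n (shift 1 ω) z + C.p x z * W (ω 0) z *
          ∑ L ∈ Finset.Ioc 0 n, ∑ w ∈ B, Gk C W B L (shift 1 ω) z w *
            Zf C W (n + 1 - (L + 1)) (shift (L + 1) ω) w := by
      intro z _
      rw [ih, mul_add]
      congr 2
      refine Finset.sum_congr rfl fun L _ => Finset.sum_congr rfl fun w _ => ?_
      rw [shift_shift, Nat.add_sub_add_right]
    rw [Finset.sum_congr rfl h1, Finset.sum_add_distrib, Nat.add_sub_cancel]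
    ring

theorem Zf_last (C : Chain) (W : ℝ → ℤ → ℝ) (B : Finset ℤ) :
    ∀ (n : ℕ) (ω : ℕ → ℝ) (x : ℤ), x ∈ B → Zf C W n ω x =
      ∑ u ∈ Finset.range (n + 1), ∑ y ∈ B, Zk C W u ω x y * Gf C W B (n - u) (shift u ω) y := by
  intro n
  induction n using Nat.strong_induction_on with
  | _ n ih =>
    intro ω x hx
    rw [Zf_first C W B, Finset.sum_range_succ']
    have h0 : ∑ y ∈ B, Zk C W 0 ω x y * Gf C W B (n - 0) (shift 0 ω) y = Gf C W B n ω x := by
      rw [Finset.sum_eq_single x]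
      · simp [Zk]
      · intro y _ hy
        simp only [Zk]
        rw [if_neg (fun h => hy h.symm), zero_mul]
      · intro h; exact absurd hx h
    rw [h0, add_comm]
    congr 1
    -- the sum over the last visit, with the first visit summed out
    have h1 : ∀ L ∈ Finset.Ioc 0 n, ∑ w ∈ B, Gk C W B L ω x w * Zf C W (n - L) (shift L ω) w =
        ∑ u ∈ Finset.Icc L n, ∑ w ∈ B, ∑ y ∈ B, Gk C W B L ω x w *
          Zk C W (u - L) (shift L ω) w y * Gf C W B (n - u) (shift u ω) y := by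
      intro L hL
      rw [Finset.mem_Ioc] at hL
      have h5 : Finset.Icc L n = (Finset.range (n - L + 1)).map (addRightEmbedding L) := by
        rw [Finset.range_eq_Ico, Finset.map_add_right_Ico]
        ext i; simp only [Finset.mem_Icc, Finset.mem_Ico]; omega
      rw [h5, Finset.sum_map, Finset.sum_comm]
      refine Finset.sum_congr rfl fun w hw => ?_
      rw [ih (n - L) (by omega) (shift L ω) w hw, Finset.mul_sum]
      refine Finset.sum_congr rfl fun u hu => ?_
      rw [Finset.mul_sum]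
      refine Finset.sum_congr rfl fun y _ => ?_
      simp only [addRightEmbedding_apply, Nat.add_sub_cancel]
      rw [shift_shift, show n - L - u = n - (u + L) by omega]
      ring
    rw [Finset.sum_congr rfl h1]
    have h2 : ∑ u ∈ Finset.range n, ∑ y ∈ B, Zk C W (u + 1) ω x y *
          Gf C W B (n - (u + 1)) (shift (u + 1) ω) y =
        ∑ u ∈ Finset.Ioc 0 n, ∑ y ∈ B, Zk C W u ω x y * Gf C W B (n - u) (shift u ω) y := by
      rw [Finset.range_eq_Ico, Finset.sum_Ico_add' (fun u => ∑ y ∈ B, Zk C W u ω x y *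
          Gf C W B (n - u) (shift u ω) y)]
      congr 1
    rw [h2]
    have h3 : ∀ u ∈ Finset.Ioc 0 n, ∑ y ∈ B, Zk C W u ω x y * Gf C W B (n - u) (shift u ω) y =
        ∑ L ∈ Finset.Ioc 0 u, ∑ w ∈ B, ∑ y ∈ B, Gk C W B L ω x w *
          Zk C W (u - L) (shift L ω) w y * Gf C W B (n - u) (shift u ω) y := by
      intro u hu
      rw [Finset.mem_Ioc] at hu
      have h4 : ∀ y ∈ B, Zk C W u ω x y * Gf C W B (n - u) (shift u ω) y =
          ∑ L ∈ Finset.Ioc 0 u, ∑ w ∈ B, Gk C W B L ω x w *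
          Zk C W (u - L) (shift L ω) w y * Gf C W B (n - u) (shift u ω) y := by
        intro y hy
        rw [Zk_eq_Ren C W B hy, Ren_pos_eq B (Gk C W B) (by omega), Finset.sum_mul]
        refine Finset.sum_congr rfl fun L _ => ?_
        rw [Finset.sum_mul]
        refine Finset.sum_congr rfl fun w _ => ?_
        rw [Zk_eq_Ren C W B hy]
      rw [Finset.sum_congr rfl h4, Finset.sum_comm]
      refine Finset.sum_congr rfl fun L _ => ?_
      rw [Finset.sum_comm]
    rw [Finset.sum_congr rfl h3]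
    apply Finset.sum_comm'
    intro L u
    simp only [Finset.mem_Ioc, Finset.mem_Icc]
    omega

end

end MP_daa227_pr
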