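import Mathlib

set_option autoImplicit false

/-!
A sum of stretched exponentials.
-/

namespace MP_daa227_pr

theorem exp_series_le {r : ℝ} (hr : 1 / 2 < r) : ∃ M : ℝ, 0 < M ∧ ∀ a : ℝ, 0 < a → a ≤ 1 →
    ∀ m n : ℕ, ∑ L ∈ Finset.Ioc m n, Real.exp (-a * (L : ℝ) ^ r) ≤
      M / a ^ 4 * Real.exp (-(a / 2) * (m : ℝ) ^ r) := by
  have hs : Summable (fun L : ℕ => (L : ℝ) ^ (-(4 * r))) :=
    Real.summable_nat_rpow.mpr (by linarith)
  have hnn : ∀ L : ℕ, 0 ≤ (L : ℝ) ^ (-(4 * r)) := fun L => Real.rpow_nonneg (Nat.cast_nonneg L) _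
  set Z : ℝ := ∑' L : ℕ, (L : ℝ) ^ (-(4 * r)) with hZ
  have hZ0 : 0 ≤ Z := tsum_nonneg hnn
  refine ⟨384 * Z + 1, by positivity, ?_⟩
  intro a ha _ m n
  have ha4 : 0 < a ^ 4 := by positivity
  have key : ∀ L ∈ Finset.Ioc m n, Real.exp (-a * (L : ℝ) ^ r) ≤
      384 / a ^ 4 * Real.exp (-(a / 2) * (m : ℝ) ^ r) * (L : ℝ) ^ (-(4 * r)) := by
    intro L hL
    rw [Finset.mem_Ioc] at hL
    have hLpos : (0 : ℝ) < L := by
      have : 0 < L := by omega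
      exact_mod_cast this
    have hmL : (m : ℝ) ^ r ≤ (L : ℝ) ^ r :=
      Real.rpow_le_rpow (Nat.cast_nonneg m) (by exact_mod_cast hL.1.le) (by linarith)
    have hLr : 0 < (L : ℝ) ^ r := Real.rpow_pos_of_pos hLpos r
    set y : ℝ := a / 2 * (L : ℝ) ^ r with hy
    have hy0 : 0 < y := by positivity
    have h1 : Real.exp (-a * (L : ℝ) ^ r) = Real.exp (-y) * Real.exp (-y) := by
      rw [← Real.exp_add]
      congr 1
      rw [hy]
      ring
    have h2 : Real.exp (-y) ≤ Real.exp (-(a / 2) * (m : ℝ) ^ r) := by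
      apply Real.exp_le_exp.mpr
      rw [hy]
      nlinarith
    have h3 : Real.exp (-y) ≤ 24 / y ^ 4 := by
      have h4 : y ^ 4 / 24 ≤ Real.exp y := by
        have := Real.pow_div_factorial_le_exp y hy0.le 4
        have h5 : ((Nat.factorial 4 : ℕ) : ℝ) = 24 := by norm_num [Nat.factorial]
        rwa [h5] at this
      rw [Real.exp_neg, inv_le_comm₀ (Real.exp_pos y) (by positivity)]
      rw [inv_div]
      exact h4
    have h4 : y ^ 4 = a ^ 4 / 16 * (L : ℝ) ^ (4 * r) := by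
      rw [hy, mul_pow, ← Real.rpow_natCast ((L : ℝ) ^ r) 4, ← Real.rpow_mul hLpos.le,
        show r * ((4 : ℕ) : ℝ) = 4 * r by push_cast; ring]
      ring
    have hL4 : 0 < (L : ℝ) ^ (4 * r) := Real.rpow_pos_of_pos hLpos _
    have h5 : 24 / y ^ 4 = 384 / a ^ 4 * (L : ℝ) ^ (-(4 * r)) := by
      rw [h4, Real.rpow_neg hLpos.le]
      field_simp
      norm_num
    rw [h1]
    calc Real.exp (-y) * Real.exp (-y)
        ≤ Real.exp (-(a / 2) * (m : ℝ) ^ r) * (24 / y ^ 4) := by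
          gcongr
      _ = 384 / a ^ 4 * Real.exp (-(a / 2) * (m : ℝ) ^ r) * (L : ℝ) ^ (-(4 * r)) := by
          rw [h5]
          ring
  calc ∑ L ∈ Finset.Ioc m n, Real.exp (-a * (L : ℝ) ^ r)
      ≤ ∑ L ∈ Finset.Ioc m n,
        384 / a ^ 4 * Real.exp (-(a / 2) * (m : ℝ) ^ r) * (L : ℝ) ^ (-(4 * r)) :=
        Finset.sum_le_sum key
    _ = 384 / a ^ 4 * Real.exp (-(a / 2) * (m : ℝ) ^ r) *
        ∑ L ∈ Finset.Ioc m n, (L : ℝ) ^ (-(4 * r)) := by rw [Finset.mul_sum]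
    _ ≤ 384 / a ^ 4 * Real.exp (-(a / 2) * (m : ℝ) ^ r) * Z := by
        have h6 : ∑ L ∈ Finset.Ioc m n, (L : ℝ) ^ (-(4 * r)) ≤ Z :=
          hs.sum_le_tsum _ (fun L _ => hnn L)
        have h7 : 0 ≤ 384 / a ^ 4 * Real.exp (-(a / 2) * (m : ℝ) ^ r) := by positivity
        exact mul_le_mul_of_nonneg_left h6 h7
    _ = 384 * Z / a ^ 4 * Real.exp (-(a / 2) * (m : ℝ) ^ r) := by ring
    _ ≤ (384 * Z + 1) / a ^ 4 * Real.exp (-(a / 2) * (m : ℝ) ^ r) := by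
        gcongr
        linarith

end MP_daa227_pr
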