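import Pool.Agent.Lib.MP_daa227_pr.Gap
import Pool.Agent.Lib.MP_daa227_pr.Ser
import Pool.Agent.Lib.MP_daa227_pr.Deco

/-!
# At the critical point the quenched averages decrease at most like `√n log n`
-/

open MeasureTheory ProbabilityTheory Set Filter
open scoped ENNReal Topology

namespace MP_daa227_pr

noncomputable section

set_option linter.unusedSectionVars false

namespace Model

variable (M : Model)

/-- Bounded fractional moments exclude localisation. -/
lemma Fr_nonpos_of_mom {γ D h : ℝ} (h0 : 0 < γ)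
    (hb : ∀ n, Even n → mom M.μ γ (fun ω => M.Z h n ω 0 0) ≤ ENNReal.ofReal D) : M.Fr h ≤ 0 := by
  apply M.Fr_nonpos_of_bdd (c := Real.log (max D 1) / γ)
  intro n hn
  have h1 := (M.exp_le_mom_Z h0.le h hn).trans (hb n hn)
  have h2 : Real.exp (γ * M.Ψ h n) ≤ max D 1 := by
    have h3 : ENNReal.ofReal (Real.exp (γ * M.Ψ h n)) ≤ ENNReal.ofReal (max D 1) :=
      h1.trans (ENNReal.ofReal_le_ofReal (le_max_left _ _))
    rwa [ENNReal.ofReal_le_ofReal_iff (by positivity)] at h3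
  rw [le_div_iff₀ h0, mul_comm]
  rw [Real.le_log_iff_exp_le (by positivity)]
  exact h2

/-- The renewal representation. -/
lemma Z_eq_Ren (h : ℝ) (R : ℕ) (n : ℕ) (ω : ℕ → ℝ) (x : ℤ) {y : ℤ} (hy : y ∈ Finset.Icc (-(R : ℤ)) R) :
    M.Z h n ω x y = Ren (M.G h R) (Finset.Icc (-(R : ℤ)) R) n ω x y :=
  Zk_eq_Ren M.C (M.W h) _ hy n ω x

lemma zero_mem_box (R : ℕ) : (0 : ℤ) ∈ Finset.Icc (-(R : ℤ)) R := by
  rw [Finset.mem_Icc]; omega

/-- Shifting the summation over the end of the straddling gap. -/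
lemma sum_gap_shift (κ' : ℕ → ℝ) {t T : ℕ} (ht : t ≤ T) (n : ℕ) :
    ∑ s ∈ Finset.Ioc T n, κ' (s - t) = ∑ L ∈ Finset.Ioc (T - t) (n - t), κ' L := by
  by_cases hn : T ≤ n
  · have h2 : Finset.Ioc T n = (Finset.Ioc (T - t) (n - t)).map (addRightEmbedding t) := by
      rw [Finset.map_add_right_Ioc]
      congr 1 <;> omega
    rw [h2, Finset.sum_map]
    apply Finset.sum_congr rfl
    intro s _
    simp
  · push Not at hn
    rw [Finset.Ioc_eq_empty (by omega), Finset.Ioc_eq_empty (by omega)]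
    simp

lemma tendsto_poly_exp {s c : ℝ} (hs : 0 < s) (hc : 0 < c) :
    Tendsto (fun x : ℝ => (x + 1) ^ 3 * Real.exp (-c * x ^ s)) atTop (𝓝 0) := by
  have h1 := (tendsto_rpow_mul_exp_neg_mul_atTop_nhds_zero (3 / s) c hc).comp (tendsto_rpow_atTop hs)
  have h2 : Tendsto (fun x : ℝ => 8 * ((x ^ s) ^ (3 / s) * Real.exp (-c * x ^ s))) atTop (𝓝 0) := by
    have := h1.const_mul 8
    rw [mul_zero] at this
    exact this
  refine squeeze_zero' ?_ ?_ h2
  · filter_upwards [eventually_ge_atTop (0 : ℝ)] with x hx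
    positivity
  · filter_upwards [eventually_ge_atTop (1 : ℝ)] with x hx
    have hx0 : 0 ≤ x := by linarith
    rw [← Real.rpow_mul hx0, mul_div_cancel₀ _ hs.ne', show (3 : ℝ) = ((3 : ℕ) : ℝ) by norm_num,
      Real.rpow_natCast, ← mul_assoc]
    apply mul_le_mul_of_nonneg_right _ (Real.exp_pos _).le
    have h3 : (x + 1) ^ 3 ≤ (2 * x) ^ 3 := pow_le_pow_left₀ (by linarith) (by linarith) 3
    calc (x + 1) ^ 3 ≤ (2 * x) ^ 3 := h3
      _ = 8 * x ^ 3 := by ring

/-- **Finite volume bound at criticality.** -/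
theorem Ψ_ge_crit {r : ℝ} (hr : 1 / 2 < r) (hconf : Confine M.C M.φ r) {hc : ℝ} (hc0 : 0 < hc)
    (hcrit : ∀ h, 0 < M.Fr h ↔ h < hc) :
    ∃ CA : ℝ, 0 < CA ∧ ∀ n : ℕ, Even n → -(CA * Real.sqrt n * Real.log (n + 2)) ≤ M.Ψ hc n := by
  obtain ⟨R, C₁, hC₁, c₂, hc₂, hc₂1, hgap⟩ := M.gap_bound (by linarith : 0 < r) hconf
    (η := hc / 4) (by linarith)
  obtain ⟨K, CB, hCB, hext⟩ := M.ext_bound hc R
  obtain ⟨Ms, hMs, hser⟩ := exp_series_le hr
  set Kc := concK M.μ M.κ with hKc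
  have hKc0 : 0 ≤ Kc := concK_nonneg _ _
  set B := Finset.Icc (-(R : ℤ)) R with hB
  set D := CB * Real.exp (1 + Kc) with hD
  have hDpos : 0 < D := by positivity
  set E := (B.card : ℝ) ^ 2 * D * C₁ * Ms / c₂ ^ 4 with hE
  have hcard : (0 : ℝ) < (B.card : ℝ) ^ 2 := by
    have : 0 < B.card := Finset.card_pos.2 ⟨0, zero_mem_box R⟩
    positivity
  have hEpos : 0 < E := by positivity
  set c₃ := c₂ / 2 * (1 / 8) ^ r with hc₃
  have hc₃pos : 0 < c₃ := by positivity
  -- the threshold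
  have hlim := tendsto_poly_exp (s := r - 1 / 2) (by linarith) hc₃pos
  obtain ⟨Nst, hNst⟩ : ∃ Nst : ℕ, ∀ N : ℕ, Nst ≤ N → 8 * (K + 1) ≤ N ∧
      E * ((N : ℝ) + 1) ^ 3 * Real.exp (-c₃ * (N : ℝ) ^ (r - 1 / 2)) ≤ 1 / 2 := by
    have h1 : Tendsto (fun N : ℕ => E * (((N : ℝ) + 1) ^ 3 * Real.exp (-c₃ * (N : ℝ) ^ (r - 1 / 2))))
        atTop (𝓝 0) := by
      have := (hlim.comp tendsto_natCast_atTop_atTop).const_mul E
      rw [mul_zero] at this
      exact this
    have h2 := h1.eventually (ge_mem_nhds (show (0 : ℝ) < 1 / 2 by norm_num))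
    obtain ⟨N₀, hN₀⟩ := (h2.and (eventually_ge_atTop (8 * (K + 1)))).exists_forall_of_atTop
    refine ⟨N₀, fun N hN => ⟨(hN₀ N hN).2, ?_⟩⟩
    have := (hN₀ N hN).1
    rw [mul_assoc]
    exact this
  set CA := max (6 + 2 * (Real.log (2 * E + 1) / Real.log 2)) (|M.Ψ hc 2| * Real.sqrt Nst / Real.log 2 + 1) with hCA
  have hlog2 : 0 < Real.log 2 := Real.log_pos (by norm_num)
  have hCA6 : 6 + 2 * (Real.log (2 * E + 1) / Real.log 2) ≤ CA := le_max_left _ _
  have hCA1 : |M.Ψ hc 2| * Real.sqrt Nst / Real.log 2 + 1 ≤ CA := le_max_right _ _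
  have hlogE : 0 ≤ Real.log (2 * E + 1) := Real.log_nonneg (by linarith)
  have hCApos : 0 < CA := by
    have : 0 ≤ Real.log (2 * E + 1) / Real.log 2 := by positivity
    linarith
  refine ⟨CA, hCApos, ?_⟩
  intro N
  induction N using Nat.strong_induction_on with
  | _ N ih =>
  intro hN
  by_cases hsmall : N < Nst
  · -- trivial bound
    obtain ⟨m, hm⟩ := hN
    have h1 := M.Ψ_even_ge hc m
    rw [show 2 * m = N by omega] at h1
    have h2 : (m : ℝ) * M.Ψ hc 2 ≥ -(|M.Ψ hc 2| * m) := by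
      have hm0 : (0 : ℝ) ≤ m := Nat.cast_nonneg m
      have := mul_le_mul_of_nonneg_left (neg_abs_le (M.Ψ hc 2)) hm0
      linarith only [this]
    have h3 : (m : ℝ) ≤ Real.sqrt N * Real.sqrt Nst := by
      have h4 : (m : ℝ) ≤ N := by exact_mod_cast (by omega : m ≤ N)
      have h5 : (N : ℝ) = Real.sqrt N * Real.sqrt N := (Real.mul_self_sqrt (Nat.cast_nonneg _)).symm
      have h6 : Real.sqrt N ≤ Real.sqrt Nst := Real.sqrt_le_sqrt (by exact_mod_cast hsmall.le)
      calc (m : ℝ) ≤ N := h4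
        _ = Real.sqrt N * Real.sqrt N := h5
        _ ≤ _ := mul_le_mul_of_nonneg_left h6 (Real.sqrt_nonneg _)
    have h7 : Real.log 2 ≤ Real.log (N + 2) :=
      Real.log_le_log (by norm_num) (by have : (0:ℝ) ≤ N := Nat.cast_nonneg N; linarith)
    have h8 : |M.Ψ hc 2| * Real.sqrt Nst ≤ CA * Real.log (N + 2) := by
      have h9 : |M.Ψ hc 2| * Real.sqrt Nst / Real.log 2 ≤ CA := by linarith
      rw [div_le_iff₀ hlog2] at h9
      exact h9.trans (mul_le_mul_of_nonneg_left h7 hCApos.le)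
    have h10 : |M.Ψ hc 2| * m ≤ CA * Real.sqrt N * Real.log (N + 2) := by
      calc |M.Ψ hc 2| * m ≤ |M.Ψ hc 2| * (Real.sqrt N * Real.sqrt Nst) :=
            mul_le_mul_of_nonneg_left h3 (abs_nonneg _)
        _ = (|M.Ψ hc 2| * Real.sqrt Nst) * Real.sqrt N := by ring
        _ ≤ (CA * Real.log (N + 2)) * Real.sqrt N :=
            mul_le_mul_of_nonneg_right h8 (Real.sqrt_nonneg _)
        _ = _ := by ring
    linarith
  push Not at hsmall
  by_contra hcon
  push Not at hcon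
  obtain ⟨hN8, hEg⟩ := hNst N hsmall
  have hNpos : 0 < N := by omega
  have hNR : (0 : ℝ) < N := by exact_mod_cast hNpos
  have hN1 : (1 : ℝ) ≤ N := by exact_mod_cast hNpos
  set sN := Real.sqrt N with hsN
  have hsNpos : 0 < sN := Real.sqrt_pos.2 hNR
  have hsN1 : 1 ≤ sN := by rw [hsN]; exact Real.one_le_sqrt.2 hN1
  have hsq : sN * sN = N := Real.mul_self_sqrt hNR.le
  -- choice of h
  set gp := -(CA * sN * Real.log (N + 2)) - M.Ψ hc N with hgp
  have hgp0 : 0 < gp := by rw [hgp]; linarith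
  have hΦ := M.Φ_pos
  set ε := min (hc / 2) (min (gp / (2 * M.Φ * N)) (1 / (M.Φ * sN))) with hε
  have hε0 : 0 < ε := by
    rw [hε]; exact lt_min (by linarith) (lt_min (by positivity) (by positivity))
  set h := hc - ε with hh
  have hhc : h < hc := by rw [hh]; linarith
  have hh2 : 2 * (hc / 4) ≤ h := by
    have : ε ≤ hc / 2 := min_le_left _ _
    rw [hh]; linarith
  have hh0 : |h| ≤ hc := by
    rw [abs_of_nonneg (by linarith)]; exact hhc.le
  have hFr : M.Fr h ≤ 1 / sN := by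
    have h1 := M.Fr_lip hhc.le
    have h2 : M.Fr hc ≤ 0 := by
      by_contra hcon2
      push Not at hcon2
      exact lt_irrefl _ ((hcrit hc).1 hcon2)
    have h3 : (hc - h) * M.Φ ≤ 1 / sN := by
      have h4 : ε ≤ 1 / (M.Φ * sN) := (min_le_right _ _).trans (min_le_right _ _)
      have h5 : hc - h = ε := by rw [hh]; ring
      rw [h5]
      calc ε * M.Φ ≤ 1 / (M.Φ * sN) * M.Φ := mul_le_mul_of_nonneg_right h4 hΦ.le
        _ = 1 / sN := by field_simp
    linarith
  have hFr0 : 0 < M.Fr h := (hcrit h).2 hhc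
  have hΨN : M.Ψ h N ≤ -(CA * sN * Real.log (N + 2)) := by
    have h1 := M.Ψ_lip hhc.le hN
    have h4 : ε ≤ gp / (2 * M.Φ * N) := (min_le_right _ _).trans (min_le_left _ _)
    have h5 : hc - h = ε := by rw [hh]; ring
    rw [h5] at h1
    have h6 : ε * M.Φ * N ≤ gp / 2 := by
      calc ε * M.Φ * N ≤ gp / (2 * M.Φ * N) * M.Φ * N := by
            apply mul_le_mul_of_nonneg_right _ hNR.le
            exact mul_le_mul_of_nonneg_right h4 hΦ.le
        _ = gp / 2 := by field_simp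
    linarith
  -- contradiction with Fr h > 0
  set γ := 1 / sN with hγ
  have hγ0 : 0 < γ := by positivity
  have hγ1 : γ ≤ 1 := by rw [hγ, div_le_one hsNpos]; exact hsN1
  have hγ2 : γ ^ 2 * N = 1 := by
    rw [hγ, ← hsq]; field_simp
  set a := γ * c₂ with ha
  have ha0 : 0 < a := by positivity
  have ha1 : a ≤ 1 := mul_le_one₀ hγ1 hc₂.le hc₂1
  set T := N - K with hT
  set t₀ := N - N / 4 with ht₀
  set ν := Real.exp (-(CA / 2) * Real.log (N + 2)) with hν
  have hlogN : 0 < Real.log (N + 2) := Real.log_pos (by linarith)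
  have hν1 : ν ≤ 1 := by
    rw [hν]; apply Real.exp_le_one_iff.2
    exact mul_nonpos_of_nonpos_of_nonneg (by linarith only [hCApos]) hlogN.le
  -- bounds on Ψ h m
  have hΨ1 : ∀ m, Even m → m ≤ N → γ * M.Ψ h m ≤ 1 := by
    intro m hm hmN
    have h1 := M.Ψ_le_Fr h hm
    have hmR : (m : ℝ) ≤ N := by exact_mod_cast hmN
    have h2 : (m : ℝ) * M.Fr h ≤ N * (1 / sN) := mul_le_mul hmR hFr hFr0.le hNR.le
    calc γ * M.Ψ h m ≤ γ * (N * (1 / sN)) := mul_le_mul_of_nonneg_left (h1.trans h2) hγ0.le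
      _ = γ ^ 2 * N := by rw [hγ]; ring
      _ = 1 := hγ2
  have hΨ2 : ∀ m, Even m → t₀ ≤ m → m ≤ N → γ * M.Ψ h m ≤ -(CA / 2) * Real.log (N + 2) := by
    intro m hm hm0 hmN
    have hev : Even (N - m) := (Nat.even_sub hmN).2 ⟨fun _ => hm, fun _ => hN⟩
    have h1 := M.Ψ_add h hm hev
    rw [show m + (N - m) = N by omega] at h1
    have h2 := M.Ψ_anti hhc.le hev
    have h3 := ih (N - m) (by omega) hev
    have h4 : Real.sqrt ((N - m : ℕ) : ℝ) ≤ sN / 2 := by
      have h5 : ((N - m : ℕ) : ℝ) ≤ N / 4 := by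
        have h6 : 4 * (N - m) ≤ N := by omega
        have h7 : (4 : ℝ) * ((N - m : ℕ) : ℝ) ≤ N := by exact_mod_cast h6
        linarith
      calc Real.sqrt ((N - m : ℕ) : ℝ) ≤ Real.sqrt (N / 4) := Real.sqrt_le_sqrt h5
        _ = sN / 2 := by
            rw [Real.sqrt_div hNR.le, show (4 : ℝ) = 2 ^ 2 by norm_num, Real.sqrt_sq (by norm_num)]
    have h8 : Real.log (((N - m : ℕ) : ℝ) + 2) ≤ Real.log (N + 2) := by
      apply Real.log_le_log (by positivity)
      have : ((N - m : ℕ) : ℝ) ≤ N := by exact_mod_cast Nat.sub_le _ _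
      linarith
    have h8' : 0 ≤ Real.log (((N - m : ℕ) : ℝ) + 2) := Real.log_nonneg (by
      have : (0 : ℝ) ≤ ((N - m : ℕ) : ℝ) := Nat.cast_nonneg _
      linarith)
    have h9 : CA * Real.sqrt ((N - m : ℕ) : ℝ) * Real.log (((N - m : ℕ) : ℝ) + 2) ≤
        CA * (sN / 2) * Real.log (N + 2) :=
      mul_le_mul (mul_le_mul_of_nonneg_left h4 hCApos.le) h8 h8' (by positivity)
    have h10 : M.Ψ h m ≤ -(CA / 2 * sN * Real.log (N + 2)) := by linarith
    calc γ * M.Ψ h m ≤ γ * -(CA / 2 * sN * Real.log (N + 2)) := mul_le_mul_of_nonneg_left h10 hγ0.le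
      _ = -(CA / 2) * Real.log (N + 2) := by rw [hγ]; field_simp
  -- the short moments
  set ζ : ℕ → ℝ := fun t => if t < t₀ then D else D * ν with hζdef
  have hζ0 : ∀ t, 0 ≤ ζ t := by
    intro t; rw [hζdef]; dsimp only; split_ifs <;> positivity
  have hζD : ∀ t ≤ T, ζ t ≤ D := by
    intro t _; rw [hζdef]; dsimp only
    split_ifs
    · exact le_rfl
    · exact mul_le_of_le_one_right hDpos.le hν1
  have hζ : ∀ t ≤ T, ∀ x ∈ B, ∀ y ∈ B,
      mom M.μ γ (fun ω => Ren (M.G h R) B t ω x y) ≤ ENNReal.ofReal (ζ t) := by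
    intro t ht x hx y hy
    obtain ⟨m, hm, hm1, hm2, hm3⟩ := hext h hh0 γ hγ0.le hγ1 x hx y hy t
    have hmN : m ≤ N := by omega
    rw [← mom_congr (fun ω => M.Z_eq_Ren h R t ω x hy)]
    refine hm3.trans ?_
    refine (mul_le_mul_right (M.mom_Z_le_exp hγ0.le hγ1 h hm) _).trans ?_
    rw [← ENNReal.ofReal_mul (by linarith)]
    apply ENNReal.ofReal_le_ofReal
    have h1 : concK M.μ M.κ * γ ^ 2 * m ≤ Kc := by
      have hmR : (m : ℝ) ≤ N := by exact_mod_cast hmN
      calc concK M.μ M.κ * γ ^ 2 * m ≤ Kc * γ ^ 2 * N :=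
            mul_le_mul_of_nonneg_left hmR (by positivity)
        _ = Kc * (γ ^ 2 * N) := by ring
        _ = Kc := by rw [hγ2, mul_one]
    rw [hζdef]
    dsimp only
    split_ifs with hlt
    · rw [hD]
      apply mul_le_mul_of_nonneg_left _ (by linarith)
      apply Real.exp_le_exp.2
      have := hΨ1 m hm hmN
      linarith
    · push Not at hlt
      rw [hD, show CB * Real.exp (1 + Kc) * ν = CB * (Real.exp (1 + Kc) * ν) by ring]
      apply mul_le_mul_of_nonneg_left _ (by linarith)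
      rw [hν, ← Real.exp_add]
      apply Real.exp_le_exp.2
      have := hΨ2 m hm (hlt.trans hm1) hmN
      linarith
  set κ' : ℕ → ℝ := fun L => C₁ * Real.exp (-a * (L : ℝ) ^ r) with hκ'def
  have hκ'0 : ∀ t, 0 ≤ κ' t := by intro t; rw [hκ'def]; positivity
  have hκ : ∀ L, 1 ≤ L → ∀ x ∈ B, ∀ y ∈ B, mom M.μ γ (fun ω => M.G h R L ω x y) ≤
      ENNReal.ofReal (κ' L) := by
    intro L hL x hx y hy
    exact M.gap_mom hC₁ hγ0 hγ1 (hgap h hh2 L hL x hx y hy)
  -- the straddling sum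
  have hq : ∀ n, (B.card : ℝ) ^ 2 * ∑ t ∈ Finset.range (T + 1), ζ t *
      ∑ s ∈ Finset.Ioc T n, κ' (s - t) ≤ 1 := by
    intro n
    set g := Real.exp (-c₃ * (N : ℝ) ^ (r - 1 / 2)) with hg
    have hterm : ∀ t ∈ Finset.range (T + 1), ζ t * ∑ s ∈ Finset.Ioc T n, κ' (s - t) ≤
        D * (C₁ * (Ms / a ^ 4)) * (g + ν) := by
      intro t ht
      rw [Finset.mem_range] at ht
      have htT : t ≤ T := by omega
      rw [sum_gap_shift κ' htT n]
      have h1 : ∑ L ∈ Finset.Ioc (T - t) (n - t), κ' L ≤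
          C₁ * (Ms / a ^ 4 * Real.exp (-(a / 2) * ((T - t : ℕ) : ℝ) ^ r)) := by
        rw [hκ'def]
        dsimp only
        rw [← Finset.mul_sum]
        exact mul_le_mul_of_nonneg_left (hser a ha0 ha1 (T - t) (n - t)) (by linarith)
      have hMa : 0 ≤ C₁ * (Ms / a ^ 4) := by positivity
      by_cases hlt : t < t₀
      · have hz : ζ t = D := by rw [hζdef]; dsimp only; rw [if_pos hlt]
        rw [hz]
        have h2 : Real.exp (-(a / 2) * ((T - t : ℕ) : ℝ) ^ r) ≤ g := by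
          rw [hg]
          apply Real.exp_le_exp.2
          have h3 : (N : ℝ) / 8 ≤ ((T - t : ℕ) : ℝ) := by
            have h4 : N ≤ 8 * (T - t) := by omega
            have h5 : (N : ℝ) ≤ 8 * ((T - t : ℕ) : ℝ) := by exact_mod_cast h4
            linarith
          have h6 : ((N : ℝ) / 8) ^ r ≤ ((T - t : ℕ) : ℝ) ^ r :=
            Real.rpow_le_rpow (by positivity) h3 (by linarith)
          have h7 : c₃ * (N : ℝ) ^ (r - 1 / 2) = (a / 2) * ((N : ℝ) / 8) ^ r := by
            rw [hc₃, ha, hγ, Real.rpow_sub hNR, div_eq_mul_one_div (N : ℝ) 8,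
              Real.mul_rpow hNR.le (by norm_num), ← Real.sqrt_eq_rpow, ← hsN]
            field_simp
          have h8 := mul_le_mul_of_nonneg_left h6 (by positivity : 0 ≤ a / 2)
          linarith
        calc D * ∑ L ∈ Finset.Ioc (T - t) (n - t), κ' L
            ≤ D * (C₁ * (Ms / a ^ 4 * g)) := by
              refine mul_le_mul_of_nonneg_left (h1.trans ?_) hDpos.le
              exact mul_le_mul_of_nonneg_left (mul_le_mul_of_nonneg_left h2 (by positivity)) (by linarith)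
          _ = D * (C₁ * (Ms / a ^ 4)) * g := by ring
          _ ≤ _ := by
              apply mul_le_mul_of_nonneg_left _ (mul_nonneg hDpos.le hMa)
              have : 0 ≤ ν := (Real.exp_pos _).le
              linarith
      · have hz : ζ t = D * ν := by rw [hζdef]; dsimp only; rw [if_neg hlt]
        rw [hz]
        have h2 : Real.exp (-(a / 2) * ((T - t : ℕ) : ℝ) ^ r) ≤ 1 := by
          apply Real.exp_le_one_iff.2
          have : 0 ≤ ((T - t : ℕ) : ℝ) ^ r := Real.rpow_nonneg (Nat.cast_nonneg _) _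
          exact mul_nonpos_of_nonpos_of_nonneg (by linarith only [ha0]) this
        calc D * ν * ∑ L ∈ Finset.Ioc (T - t) (n - t), κ' L
            ≤ D * ν * (C₁ * (Ms / a ^ 4 * 1)) := by
              refine mul_le_mul_of_nonneg_left (h1.trans ?_) (by positivity)
              exact mul_le_mul_of_nonneg_left (mul_le_mul_of_nonneg_left h2 (by positivity)) (by linarith)
          _ = D * (C₁ * (Ms / a ^ 4)) * ν := by ring
          _ ≤ _ := by
              apply mul_le_mul_of_nonneg_left _ (mul_nonneg hDpos.le hMa)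
              have : 0 ≤ g := (Real.exp_pos _).le
              linarith
    have hsum := Finset.sum_le_sum hterm
    rw [Finset.sum_const, Finset.card_range, nsmul_eq_mul] at hsum
    have hTN : ((T + 1 : ℕ) : ℝ) ≤ N + 1 := by
      have : T + 1 ≤ N + 1 := by omega
      exact_mod_cast this
    have ha4 : Ms / a ^ 4 = Ms / c₂ ^ 4 * (N : ℝ) ^ 2 := by
      rw [ha, hγ, ← hsq]
      field_simp
    have hgν0 : 0 ≤ g + ν := by
      have h1 : 0 < g := Real.exp_pos _
      have h2 : 0 < ν := Real.exp_pos _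
      linarith
    have hbig : (B.card : ℝ) ^ 2 * (((T + 1 : ℕ) : ℝ) * (D * (C₁ * (Ms / a ^ 4)) * (g + ν))) ≤
        E * ((N : ℝ) + 1) ^ 3 * (g + ν) := by
      calc (B.card : ℝ) ^ 2 * (((T + 1 : ℕ) : ℝ) * (D * (C₁ * (Ms / a ^ 4)) * (g + ν)))
          ≤ (B.card : ℝ) ^ 2 * (((N : ℝ) + 1) * (D * (C₁ * (Ms / a ^ 4)) * (g + ν))) := by
            apply mul_le_mul_of_nonneg_left _ hcard.le
            apply mul_le_mul_of_nonneg_right hTN
            have : 0 ≤ C₁ * (Ms / a ^ 4) := by positivity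
            positivity
        _ = E * (((N : ℝ) + 1) * (N : ℝ) ^ 2) * (g + ν) := by
            rw [ha4, hE]
            field_simp
        _ ≤ E * ((N : ℝ) + 1) ^ 3 * (g + ν) := by
            apply mul_le_mul_of_nonneg_right _ hgν0
            apply mul_le_mul_of_nonneg_left _ hEpos.le
            rw [show ((N : ℝ) + 1) ^ 3 = ((N : ℝ) + 1) * ((N : ℝ) + 1) ^ 2 by ring]
            exact mul_le_mul_of_nonneg_left (pow_le_pow_left₀ hNR.le (by linarith only) 2) (by linarith only [hNR])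
    have hνb : E * ((N : ℝ) + 1) ^ 3 * ν ≤ 1 / 2 := by
      have h1 : ((N : ℝ) + 1) ^ 3 ≤ Real.exp (3 * Real.log (N + 2)) := by
        rw [show 3 * Real.log ((N : ℝ) + 2) = ((3 : ℕ) : ℝ) * Real.log (N + 2) by norm_num,
          Real.exp_nat_mul, Real.exp_log (by linarith)]
        exact pow_le_pow_left₀ (by linarith) (by linarith) 3
      have h2 : ((N : ℝ) + 1) ^ 3 * ν ≤ 1 / (2 * E + 1) := by
        calc ((N : ℝ) + 1) ^ 3 * ν ≤ Real.exp (3 * Real.log (N + 2)) * ν :=
              mul_le_mul_of_nonneg_right h1 (Real.exp_pos _).le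
          _ = Real.exp ((3 - CA / 2) * Real.log (N + 2)) := by
              rw [hν, ← Real.exp_add]; congr 1; ring
          _ ≤ Real.exp (-Real.log (2 * E + 1)) := by
              apply Real.exp_le_exp.2
              have h3 : Real.log 2 ≤ Real.log (N + 2) := Real.log_le_log (by norm_num) (by linarith)
              have h4 : Real.log (2 * E + 1) / Real.log 2 ≤ CA / 2 - 3 := by linarith
              rw [div_le_iff₀ hlog2] at h4
              have h5 : 0 ≤ CA / 2 - 3 := by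
                have : 0 ≤ Real.log (2 * E + 1) / Real.log 2 := by positivity
                linarith
              have h6 := mul_le_mul_of_nonneg_left h3 h5
              linarith only [h4, h6]
          _ = 1 / (2 * E + 1) := by
              rw [Real.exp_neg, Real.exp_log (by linarith), one_div]
      calc E * ((N : ℝ) + 1) ^ 3 * ν = E * (((N : ℝ) + 1) ^ 3 * ν) := by ring
        _ ≤ E * (1 / (2 * E + 1)) := mul_le_mul_of_nonneg_left h2 hEpos.le
        _ ≤ 1 / 2 := by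
            rw [mul_one_div, div_le_div_iff₀ (by linarith) (by norm_num)]
            linarith
    calc (B.card : ℝ) ^ 2 * ∑ t ∈ Finset.range (T + 1), ζ t * ∑ s ∈ Finset.Ioc T n, κ' (s - t)
        ≤ (B.card : ℝ) ^ 2 * (((T + 1 : ℕ) : ℝ) * (D * (C₁ * (Ms / a ^ 4)) * (g + ν))) :=
          mul_le_mul_of_nonneg_left hsum hcard.le
      _ ≤ E * ((N : ℝ) + 1) ^ 3 * (g + ν) := hbig
      _ = E * ((N : ℝ) + 1) ^ 3 * g + E * ((N : ℝ) + 1) ^ 3 * ν := by ring
      _ ≤ 1 := by linarith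
  have hmom := mom_Ren_le hγ0 hγ1 M.κ_pos.le (G := M.G h R) (B := B)
    (fun L x y => M.good_G h R L x y) T hDpos.le le_rfl hζ0 hκ'0 hζ hζD hκ hq
  have hfin : M.Fr h ≤ 0 := by
    apply M.Fr_nonpos_of_mom (D := D) hγ0
    intro n _
    have h1 := hmom n 0 (zero_mem_box R) 0 (zero_mem_box R)
    rw [one_pow, mul_one] at h1
    rw [mom_congr (fun ω => M.Z_eq_Ren h R n ω 0 (zero_mem_box R))]
    exact h1
  linarith

end Model

end

end MP_daa227_pr
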