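import Pool.Agent.Lib.MP_daa227_pr.SmDefs
import Pool.Agent.Lib.MP_daa227_pr.Finite

/-!
# Block bound for the quenched free energy
-/

open MeasureTheory ProbabilityTheory Set Filter
open scoped ENNReal Topology

namespace MP_daa227_pr

noncomputable section

set_option linter.unusedSectionVars false

lemma Zk_Wu_aux (C : Chain) (φ : ℤ → ℝ) (β h : ℝ) : ∀ (n : ℕ) (ω : ℕ → ℝ) (x y : ℤ),
    Zk C (fun a z => Real.exp ((β * a - h) * φ z)) n ω x y =
      Zk C (Wu φ) n (fun k => β * ω k - h) x y
  | 0, ω, x, y => by simp only [Zk]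
  | n + 1, ω, x, y => by
      simp only [Zk]
      apply Finset.sum_congr rfl
      intro z _
      rw [Zk_Wu_aux C φ β h n (shift 1 ω) z y]
      rfl

section
variable {μ : Measure ℝ} [IsProbabilityMeasure μ] (C : Chain) {W : ℝ → ℤ → ℝ} {κ : ℝ}
  (hκ : 0 ≤ κ) (hW : GoodW κ W) (B : Finset ℤ)

include hκ hW

/-- Annealed mass of the first gap. -/
lemma gap_mass {cy : ℝ} (hcy : 1 ≤ cy)
    (hout : ∀ z ∉ B, mom μ 1 (fun ω => W (ω 0) z) ≤ 1)
    (hin : ∀ z, mom μ 1 (fun ω => W (ω 0) z) ≤ ENNReal.ofReal cy) :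
    ∀ (n : ℕ) (x : ℤ), ∑ L ∈ Finset.range n, ∑ z' ∈ B, mom μ 1 (fun ω => Gk C W B (L + 1) ω x z') ≤
      ENNReal.ofReal cy
  | 0, x => by simp
  | n + 1, x => by
      have ih := gap_mass hcy hout hin n
      -- first step
      have h1 : ∀ L : ℕ, ∀ z' ∈ B, mom μ 1 (fun ω => Gk C W B (L + 1) ω x z') ≤
          (if L = 0 then ENNReal.ofReal (C.p x z') * ENNReal.ofReal cy else 0) +
          ∑ z ∈ Finset.Icc (x - 1) (x + 1) \ B, ENNReal.ofReal (C.p x z) *
            mom μ 1 (fun ω => Gk C W B L ω z z') := by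
        intro L z' _
        simp only [Gk]
        have hg1 : Good 1 κ (fun ω : ℕ → ℝ => C.p x z' * W (ω 0) z') :=
          (hW.good z').const_mul (C.nonneg x z')
        have hg2 := hg1.ite hκ (L = 0)
        have hg3 : ∀ z ∈ Finset.Icc (x - 1) (x + 1) \ B,
            Good (1 + L) κ (fun ω => C.p x z * W (ω 0) z * Gk C W B L (shift 1 ω) z z') := fun z _ =>
          ((hW.good z).const_mul (C.nonneg x z)).mul_shift (good_Gk C hκ hW B L z z')
        refine (mom_add_le (F := fun ω => if L = 0 then C.p x z' * W (ω 0) z' else 0)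
          (G := fun ω => ∑ z ∈ Finset.Icc (x - 1) (x + 1) \ B,
            C.p x z * W (ω 0) z * Gk C W B L (shift 1 ω) z z') zero_le_one le_rfl hg2.meas hg2.nonneg
          (fun ω => Finset.sum_nonneg fun z hz => (hg3 z hz).nonneg ω)).trans ?_
        refine add_le_add ?_ ?_
        · by_cases hL : L = 0
          · simp only [hL, if_true]
            rw [mom_const_mul (F := fun ω => W (ω 0) z') zero_le_one (C.nonneg x z') (hW.good z').meas,
              ENNReal.rpow_one]
            exact mul_le_mul' le_rfl (hin z')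
          · simp only [hL, if_false]
            rw [mom_zero zero_lt_one]
        · refine (mom_step_le C hκ hW zero_lt_one le_rfl _ x (fun _ => 1)
            (F := fun z ω => Gk C W B L ω z z') (k := L) (fun z _ => good_Gk C hκ hW B L z z')
            (fun z => mom μ 1 (fun ω => Gk C W B L ω z z'))
            (fun z hz => hout z (Finset.mem_sdiff.1 hz).2) (fun z _ => le_rfl)).trans ?_
          apply le_of_eq
          apply Finset.sum_congr rfl
          intro z _
          rw [ENNReal.rpow_one, mul_one]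
      have h2 : ∑ L ∈ Finset.range (n + 1), ∑ z' ∈ B, mom μ 1 (fun ω => Gk C W B (L + 1) ω x z') ≤
          ∑ z' ∈ B, ENNReal.ofReal (C.p x z') * ENNReal.ofReal cy +
          ∑ z ∈ Finset.Icc (x - 1) (x + 1) \ B, ENNReal.ofReal (C.p x z) *
            ∑ L ∈ Finset.range (n + 1), ∑ z' ∈ B, mom μ 1 (fun ω => Gk C W B L ω z z') := by
        refine (Finset.sum_le_sum fun L _ => Finset.sum_le_sum fun z' hz' => h1 L z' hz').trans ?_
        apply le_of_eq
        simp only [Finset.sum_add_distrib]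
        congr 1
        · rw [Finset.sum_range_succ']
          simp
        · simp only [Finset.mul_sum]
          rw [Finset.sum_comm' (s := Finset.range (n + 1)) (t := fun _ => B) (t' := B)
            (s' := fun _ => Finset.range (n + 1)) (by simp)]
          rw [Finset.sum_congr rfl (fun z' _ => Finset.sum_comm)]
          rw [Finset.sum_comm]
          apply Finset.sum_congr rfl
          intro z _
          rw [Finset.sum_comm]
      refine h2.trans ?_
      have h3 : ∀ z, ∑ L ∈ Finset.range (n + 1), ∑ z' ∈ B, mom μ 1 (fun ω => Gk C W B L ω z z') ≤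
          ENNReal.ofReal cy := by
        intro z
        rw [Finset.sum_range_succ']
        simp only [Gk]
        rw [mom_zero zero_lt_one]
        simp only [Finset.sum_const_zero, add_zero]
        exact ih z
      have h4 : ∑ z' ∈ B, ENNReal.ofReal (C.p x z') * ENNReal.ofReal cy ≤
          ∑ z' ∈ Finset.Icc (x - 1) (x + 1) ∩ B, ENNReal.ofReal (C.p x z') * ENNReal.ofReal cy := by
        apply le_of_eq
        symm
        apply Finset.sum_subset Finset.inter_subset_right
        intro z hz hz'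
        rw [C.near x z (fun h => hz' (Finset.mem_inter.2 ⟨h, hz⟩))]
        simp
      calc _ ≤ ∑ z' ∈ Finset.Icc (x - 1) (x + 1) ∩ B, ENNReal.ofReal (C.p x z') * ENNReal.ofReal cy +
            ∑ z ∈ Finset.Icc (x - 1) (x + 1) \ B, ENNReal.ofReal (C.p x z) * ENNReal.ofReal cy := by
              refine add_le_add h4 (Finset.sum_le_sum fun z _ => mul_le_mul' le_rfl (h3 z))
        _ = ∑ z ∈ Finset.Icc (x - 1) (x + 1), ENNReal.ofReal (C.p x z) * ENNReal.ofReal cy := by
              rw [← Finset.sum_union]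
              · congr 1
                ext z
                simp only [Finset.mem_union, Finset.mem_inter, Finset.mem_sdiff]
                tauto
              · rw [Finset.disjoint_left]
                intro z hz hz'
                exact (Finset.mem_sdiff.1 hz').2 (Finset.mem_inter.1 hz).2
        _ = ENNReal.ofReal cy := by
              rw [← Finset.sum_mul, ← ENNReal.ofReal_sum_of_nonneg (fun z _ => C.nonneg x z), C.sum_one,
                ENNReal.ofReal_one, one_mul]

end

/-- The majorant of the partition function divided by the block sums. -/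
def Vb (G : ℕ → (ℕ → ℝ) → ℤ → ℤ → ℝ) (B : Finset ℤ) (n : ℕ) (l : ℕ) (ω : ℕ → ℝ) : ℝ :=
  (if l = 0 then 1 else 0) + ∑ L : Fin l,
    (if (l - 1) % n < L + 1 then ∑ t ∈ Finset.range ((l - 1) % n + 1), ∑ z ∈ B, ∑ z' ∈ B,
      G (L + 1 - t) (shift t ω) z z' else 0) * Vb G B n (l - (L + 1)) (shift (L + 1) ω)
termination_by l
decreasing_by omega

lemma Vb_zero (G : ℕ → (ℕ → ℝ) → ℤ → ℤ → ℝ) (B : Finset ℤ) (n : ℕ) (ω : ℕ → ℝ) :
    Vb G B n 0 ω = 1 := by rw [Vb]; simp

lemma Vb_pos_eq (G : ℕ → (ℕ → ℝ) → ℤ → ℤ → ℝ) (B : Finset ℤ) (n : ℕ) {l : ℕ} (hl : l ≠ 0)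
    (ω : ℕ → ℝ) : Vb G B n l ω = ∑ s ∈ Finset.Ioc ((l - 1) % n) l,
      (∑ t ∈ Finset.range ((l - 1) % n + 1), ∑ z ∈ B, ∑ z' ∈ B, G (s - t) (shift t ω) z z') *
        Vb G B n (l - s) (shift s ω) := by
  rw [Vb, if_neg hl, zero_add,
    Fin.sum_univ_eq_sum_range (fun L => (if (l - 1) % n < L + 1 then
      ∑ t ∈ Finset.range ((l - 1) % n + 1), ∑ z ∈ B, ∑ z' ∈ B,
      G (L + 1 - t) (shift t ω) z z' else 0) * Vb G B n (l - (L + 1)) (shift (L + 1) ω)),
    Finset.range_eq_Ico, Finset.sum_Ico_add' (fun L => (if (l - 1) % n < L then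
      ∑ t ∈ Finset.range ((l - 1) % n + 1), ∑ z ∈ B, ∑ z' ∈ B,
      G (L - t) (shift t ω) z z' else 0) * Vb G B n (l - L) (shift L ω))]
  simp only [ite_mul, zero_mul]
  rw [← Finset.sum_filter]
  apply Finset.sum_congr _ (fun _ _ => rfl)
  ext s
  simp only [Finset.mem_filter, Finset.mem_Ico, Finset.mem_Ioc]
  have : (l - 1) % n ≤ l - 1 := Nat.mod_le _ _
  omega

section
variable {μ : Measure ℝ} [IsProbabilityMeasure μ] {κ : ℝ} (hκ : 0 ≤ κ)
  {G : ℕ → (ℕ → ℝ) → ℤ → ℤ → ℝ} (hG : ∀ L x y, Good L κ (fun ω => G L ω x y)) (B : Finset ℤ) (n : ℕ)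

include hκ hG

lemma good_gsum {T s : ℕ} (hTs : T < s) : Good s κ (fun ω => ∑ t ∈ Finset.range (T + 1), ∑ z ∈ B,
    ∑ z' ∈ B, G (s - t) (shift t ω) z z') := by
  apply Good.sum hκ; intro t ht
  apply Good.sum hκ; intro z _
  apply Good.sum hκ; intro z' _
  rw [Finset.mem_range] at ht
  have h1 := (Good.const (k := t) (κ := κ) (c := 1) hκ zero_le_one).mul_shift (hG (s - t) z z')
  rw [show t + (s - t) = s by omega] at h1
  exact h1.congr (fun ω => by simp)

lemma good_Vb : ∀ l : ℕ, Good l κ (fun ω => Vb G B n l ω) := by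
  intro l
  induction l using Nat.strong_induction_on with
  | _ l ih =>
    rcases Nat.eq_zero_or_pos l with rfl | hl
    · exact (Good.const (k := 0) (κ := κ) (c := 1) hκ zero_le_one).congr (fun ω => Vb_zero G B n ω)
    · refine Good.congr ?_ (fun ω => Vb_pos_eq G B n hl.ne' ω)
      apply Good.sum hκ
      intro s hs
      rw [Finset.mem_Ioc] at hs
      have h1 := (good_gsum hκ hG B (T := (l - 1) % n) hs.1).mul_shift (ih (l - s) (by omega))
      rw [show s + (l - s) = l by omega] at h1
      exact h1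

lemma mom_Vb_le {cy : ℝ} (hcy : 1 ≤ cy) (hn : 1 ≤ n) (hB : B.Nonempty)
    (hgap : ∀ (m : ℕ) (x : ℤ), ∑ L ∈ Finset.range m, ∑ z' ∈ B, mom μ 1 (fun ω => G (L + 1) ω x z') ≤
      ENNReal.ofReal cy) (l : ℕ) :
    mom μ 1 (fun ω => Vb G B n l ω) ≤ ENNReal.ofReal ((n * B.card * cy) ^ ((l + n - 1) / n)) := by
  have hn' : (1 : ℝ) ≤ n := by exact_mod_cast hn
  have hB' : (1 : ℝ) ≤ B.card := by exact_mod_cast hB.card_pos
  have hQ : 1 ≤ (n : ℝ) * B.card * cy := by
    have h1 := mul_le_mul hn' hB' zero_le_one (by linarith)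
    have h2 := mul_le_mul h1 hcy zero_le_one (by positivity)
    linarith
  induction l using Nat.strong_induction_on with
  | _ l ih =>
    rcases Nat.eq_zero_or_pos l with rfl | hl
    · rw [mom_congr (fun ω => Vb_zero G B n ω), mom_const]
      simp only [ENNReal.ofReal_one, ENNReal.one_rpow]
      rw [← ENNReal.ofReal_one]
      exact ENNReal.ofReal_le_ofReal (one_le_pow₀ hQ)
    · rw [mom_congr (fun ω => Vb_pos_eq G B n hl.ne' ω)]
      set T := (l - 1) % n with hT
      have hTn : T < n := Nat.mod_lt _ (by omega)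
      have hTl : T ≤ l - 1 := Nat.mod_le _ _
      set k := (l - 1) / n with hk
      have hkT : l - 1 = n * k + T := by rw [hk, hT]; exact (Nat.div_add_mod _ _).symm
      have hdiv : (l + n - 1) / n = k + 1 := by
        rw [show l + n - 1 = (T) + n * (k + 1) by
          have : l = n * k + T + 1 := by omega
          rw [this, Nat.mul_add]; omega]
        rw [Nat.add_mul_div_left _ _ (by omega), Nat.div_eq_of_lt hTn, zero_add]
      rw [hdiv]
      refine (mom_sum_le zero_lt_one le_rfl _ (fun s hs => ?_) (fun s hs ω => ?_)).trans ?_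
      · rw [Finset.mem_Ioc] at hs
        exact ((good_gsum hκ hG B (T := T) hs.1).mul_shift (good_Vb hκ hG B n (l - s))).meas
      · rw [Finset.mem_Ioc] at hs
        exact ((good_gsum hκ hG B (T := T) hs.1).mul_shift (good_Vb hκ hG B n (l - s))).nonneg ω
      have h1 : ∀ s ∈ Finset.Ioc T l, mom μ 1 (fun ω => (∑ t ∈ Finset.range (T + 1), ∑ z ∈ B,
          ∑ z' ∈ B, G (s - t) (shift t ω) z z') * Vb G B n (l - s) (shift s ω)) ≤
          (∑ t ∈ Finset.range (T + 1), ∑ z ∈ B, ∑ z' ∈ B, mom μ 1 (fun ω => G (s - t) ω z z')) *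
            ENNReal.ofReal ((n * B.card * cy) ^ k) := by
        intro s hs
        rw [Finset.mem_Ioc] at hs
        have hg := good_gsum hκ hG B (T := T) hs.1
        rw [mom_mul_shift (k := s) (F := fun ω => ∑ t ∈ Finset.range (T + 1), ∑ z ∈ B,
          ∑ z' ∈ B, G (s - t) (shift t ω) z z') (G := fun ω => Vb G B n (l - s) ω) zero_le_one
          hg.meas (good_Vb hκ hG B n _).meas hg.depOn hg.nonneg]
        refine mul_le_mul' ?_ ?_
        · have hterm : ∀ t ∈ Finset.range (T + 1), ∀ z z' : ℤ,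
              Good s κ (fun ω => G (s - t) (shift t ω) z z') := by
            intro t ht z z'
            rw [Finset.mem_range] at ht
            have h1 := (Good.const (k := t) (κ := κ) (c := 1) hκ zero_le_one).mul_shift (hG (s - t) z z')
            rw [show t + (s - t) = s by omega] at h1
            exact h1.congr (fun ω => by simp)
          refine (mom_sum_le zero_lt_one le_rfl _ (fun t ht => ?_) (fun t ht ω => ?_)).trans ?_
          · exact (Good.sum hκ _ fun z _ => Good.sum hκ _ fun z' _ => hterm t ht z z').meas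
          · exact (Good.sum hκ _ fun z _ => Good.sum hκ _ fun z' _ => hterm t ht z z').nonneg ω
          apply Finset.sum_le_sum
          intro t ht
          refine (mom_sum_le zero_lt_one le_rfl _ (fun z _ => ?_) (fun z _ ω => ?_)).trans ?_
          · exact (Good.sum hκ _ fun z' _ => hterm t ht z z').meas
          · exact (Good.sum hκ _ fun z' _ => hterm t ht z z').nonneg ω
          apply Finset.sum_le_sum
          intro z _
          refine (mom_sum_le zero_lt_one le_rfl _ (fun z' _ => ?_) (fun z' _ ω => ?_)).trans ?_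
          · exact (hterm t ht z z').meas
          · exact (hterm t ht z z').nonneg ω
          apply Finset.sum_le_sum
          intro z' _
          rw [mom_shift (G := fun ω => G (s - t) ω z z') (hG _ _ _).meas t]
        · refine (ih (l - s) (by omega)).trans (ENNReal.ofReal_le_ofReal ?_)
          apply pow_le_pow_right₀ hQ
          have h2 : (l - s + n - 1) ≤ n * k + (n - 1) := by omega
          calc (l - s + n - 1) / n ≤ (n * k + (n - 1)) / n := Nat.div_le_div_right h2
            _ = k := by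
              rw [Nat.mul_add_div (by omega), Nat.div_eq_of_lt (by omega), add_zero]
      refine (Finset.sum_le_sum h1).trans ?_
      rw [← Finset.sum_mul]
      have h3 : ∑ s ∈ Finset.Ioc T l, ∑ t ∈ Finset.range (T + 1), ∑ z ∈ B, ∑ z' ∈ B,
          mom μ 1 (fun ω => G (s - t) ω z z') ≤ ENNReal.ofReal (n * B.card * cy) := by
        rw [Finset.sum_comm]
        have h4 : ∀ t ∈ Finset.range (T + 1), ∑ s ∈ Finset.Ioc T l, ∑ z ∈ B, ∑ z' ∈ B,
            mom μ 1 (fun ω => G (s - t) ω z z') ≤ ENNReal.ofReal (B.card * cy) := by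
          intro t ht
          rw [Finset.mem_range] at ht
          rw [Finset.sum_comm]
          have h5 : ∀ z ∈ B, ∑ s ∈ Finset.Ioc T l, ∑ z' ∈ B, mom μ 1 (fun ω => G (s - t) ω z z') ≤
              ENNReal.ofReal cy := by
            intro z _
            have h6 : ∑ s ∈ Finset.Ioc T l, ∑ z' ∈ B, mom μ 1 (fun ω => G (s - t) ω z z') =
                ∑ L ∈ Finset.Ico (T - t) (l - t), ∑ z' ∈ B, mom μ 1 (fun ω => G (L + 1) ω z z') := by
              have h7 : Finset.Ioc T l = (Finset.Ico (T - t) (l - t)).map (addRightEmbedding (t + 1)) := by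
                rw [Finset.map_add_right_Ico]
                ext i; simp only [Finset.mem_Ioc, Finset.mem_Ico]; omega
              rw [h7, Finset.sum_map]
              apply Finset.sum_congr rfl
              intro L _
              simp only [addRightEmbedding_apply]
              rw [show L + (t + 1) - t = L + 1 by omega]
            rw [h6]
            refine (Finset.sum_le_sum_of_subset (t := Finset.range (l - t)) ?_).trans (hgap (l - t) z)
            intro i hi
            rw [Finset.mem_Ico] at hi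
            exact Finset.mem_range.2 hi.2
          refine (Finset.sum_le_sum h5).trans ?_
          rw [Finset.sum_const, nsmul_eq_mul, ENNReal.ofReal_mul (Nat.cast_nonneg _), ENNReal.ofReal_natCast]
        refine (Finset.sum_le_sum h4).trans ?_
        rw [Finset.sum_const, nsmul_eq_mul, Finset.card_range, mul_assoc (n : ℝ),
          ENNReal.ofReal_mul (Nat.cast_nonneg n), ENNReal.ofReal_natCast]
        refine mul_le_mul' ?_ le_rfl
        exact_mod_cast hTn
      calc _ ≤ ENNReal.ofReal (n * B.card * cy) * ENNReal.ofReal ((n * B.card * cy) ^ k) :=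
            mul_le_mul' h3 le_rfl
        _ = _ := by
            rw [← ENNReal.ofReal_mul (by linarith), pow_succ, mul_comm]

end

/-! ### The block sums of the model -/

lemma prod_Ico_anti {f : ℕ → ℝ} (hf : ∀ k, 1 ≤ f k) {a b : ℕ} (hab : a ≤ b) (m : ℕ) :
    ∏ k ∈ Finset.Ico b m, f k ≤ ∏ k ∈ Finset.Ico a m, f k := by
  have h1 : ∀ a b, 1 ≤ ∏ k ∈ Finset.Ico a b, f k := fun a b =>
    Finset.prod_induction _ (fun x => 1 ≤ x) (fun a b ha hb => one_le_mul_of_one_le_of_one_le ha hb)
      le_rfl fun k _ => hf k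
  by_cases hbm : b ≤ m
  · rw [← Finset.prod_Ico_consecutive f hab hbm]
    exact le_mul_of_one_le_left (zero_le_one.trans (h1 b m)) (h1 a b)
  · rw [Finset.Ico_eq_empty (by omega), Finset.prod_empty]
    exact h1 a m

namespace Model

variable (M : Model)

/-- The block sum as a function of the charges. -/
def Sb (h : ℝ) (R n : ℕ) (ω : ℕ → ℝ) : ℝ :=
  ∑ i ∈ Finset.range (n + 1), ∑ j ∈ Finset.Icc i n,
    ∑ x ∈ (Finset.Icc (-(R : ℤ)) R).filter (fun x => Even ((i : ℤ) + x)),
      ∑ y ∈ Finset.Icc (-(R : ℤ)) R, M.Z h (j - i) (shift i ω) x y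

lemma Sb_eq (h : ℝ) (R n : ℕ) (ω : ℕ → ℝ) :
    SB M.C M.φ R n (fun k => M.β * ω k - h) = M.Sb h R n ω := by
  unfold SB Sb
  apply Finset.sum_congr rfl; intro i _
  apply Finset.sum_congr rfl; intro j _
  apply Finset.sum_congr rfl; intro x _
  apply Finset.sum_congr rfl; intro y _
  exact (Zk_Wu_aux M.C M.φ M.β h (j - i) (shift i ω) x y).symm

lemma good_Sb (h : ℝ) (R n : ℕ) : Good n M.κ (fun ω => M.Sb h R n ω) := by
  have hκ := M.κ_pos.le
  apply Good.sum hκ; intro i hi
  apply Good.sum hκ; intro j hj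
  apply Good.sum hκ; intro x _
  apply Good.sum hκ; intro y _
  rw [Finset.mem_Icc] at hj
  have h1 := (Good.const (k := i) (κ := M.κ) (c := 1) hκ zero_le_one).mul_shift (M.good_Z h (j - i) x y)
  exact (h1.congr (fun ω => by simp)).mono hκ (by omega)

lemma Z_le_Sb (h : ℝ) {R n i t : ℕ} (hi : i + t ≤ n) {x y : ℤ} (hx : x ∈ Finset.Icc (-(R : ℤ)) R)
    (hy : y ∈ Finset.Icc (-(R : ℤ)) R) (hp : Even ((i : ℤ) + x)) (ω : ℕ → ℝ) :
    M.Z h t (shift i ω) x y ≤ M.Sb h R n ω := by
  have h0 : ∀ (a : ℕ) (ω' : ℕ → ℝ) (u v : ℤ), 0 ≤ M.Z h a ω' u v := fun a ω' u v => M.Z_nonneg h a ω' u v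
  unfold Sb
  refine le_trans ?_ (Finset.single_le_sum (f := fun i => ∑ j ∈ Finset.Icc i n,
    ∑ x ∈ (Finset.Icc (-(R : ℤ)) R).filter (fun x => Even ((i : ℤ) + x)),
      ∑ y ∈ Finset.Icc (-(R : ℤ)) R, M.Z h (j - i) (shift i ω) x y) (fun i _ =>
        Finset.sum_nonneg fun j _ => Finset.sum_nonneg fun x _ => Finset.sum_nonneg fun y _ => h0 _ _ _ _)
        (Finset.mem_range.2 (by omega : i < n + 1)))
  refine le_trans ?_ (Finset.single_le_sum (f := fun j =>
    ∑ x ∈ (Finset.Icc (-(R : ℤ)) R).filter (fun x => Even ((i : ℤ) + x)),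
      ∑ y ∈ Finset.Icc (-(R : ℤ)) R, M.Z h (j - i) (shift i ω) x y) (fun j _ =>
        Finset.sum_nonneg fun x _ => Finset.sum_nonneg fun y _ => h0 _ _ _ _)
        (Finset.mem_Icc.2 (⟨by omega, hi⟩ : i ≤ i + t ∧ i + t ≤ n)))
  refine le_trans ?_ (Finset.single_le_sum (f := fun x =>
      ∑ y ∈ Finset.Icc (-(R : ℤ)) R, M.Z h (i + t - i) (shift i ω) x y) (fun x _ =>
        Finset.sum_nonneg fun y _ => h0 _ _ _ _) (Finset.mem_filter.2 ⟨hx, hp⟩))
  refine le_trans ?_ (Finset.single_le_sum (f := fun y => M.Z h (i + t - i) (shift i ω) x y)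
    (fun y _ => h0 _ _ _ _) hy)
  rw [Nat.add_sub_cancel_left]

lemma one_le_Sb (h : ℝ) (R n : ℕ) (ω : ℕ → ℝ) : 1 ≤ M.Sb h R n ω := by
  have h1 := M.Z_le_Sb h (R := R) (n := n) (i := 0) (t := 0) (by omega) (zero_mem_box R) (zero_mem_box R)
    (by simp) ω
  refine le_trans (le_of_eq ?_) h1
  simp [Z, Zk]

/-- The pointwise bound. -/
lemma Z_le_block (hnl : ∀ x, M.C.p x x = 0) (h : ℝ) (R : ℕ) {n : ℕ} (hn : Even n) (hn1 : 1 ≤ n)
    (m : ℕ) (ω : ℕ → ℝ) : ∀ r t : ℕ, t + r = m * n → ∀ x ∈ Finset.Icc (-(R : ℤ)) R,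
      Even ((t : ℤ) + x) → M.Z h r (shift t ω) x 0 ≤
        (∏ k ∈ Finset.Ico (t / n) m, M.Sb h R n (shift (k * n) ω)) *
          Vb (M.G h R) (Finset.Icc (-(R : ℤ)) R) n r (shift t ω) := by
  intro r
  induction r using Nat.strong_induction_on with
  | _ r ih =>
    intro t htr x hx hpar
    set B := Finset.Icc (-(R : ℤ)) R with hB
    have hprod1 : ∀ a, 1 ≤ ∏ k ∈ Finset.Ico a m, M.Sb h R n (shift (k * n) ω) := fun a =>
      Finset.prod_induction _ (fun x => 1 ≤ x) (fun a b ha hb => one_le_mul_of_one_le_of_one_le ha hb)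
        le_rfl fun k _ => M.one_le_Sb h R n _
    have hVnn : ∀ l ω', 0 ≤ Vb (M.G h R) B n l ω' := fun l ω' =>
      (good_Vb M.κ_pos.le (M.good_G h R) B n l).nonneg ω'
    have hGnn : ∀ l ω' u v, 0 ≤ M.G h R l ω' u v := fun l ω' u v => (M.good_G h R l u v).nonneg ω'
    rcases Nat.eq_zero_or_pos r with rfl | hr
    · rw [Vb_zero, mul_one]
      refine le_trans ?_ (hprod1 _)
      unfold Z
      simp only [Zk]
      split_ifs <;> norm_num
    · set T := (r - 1) % n with hT
      have hTn : T < n := Nat.mod_lt _ (by omega)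
      have hTr : T < r := by
        have : T ≤ r - 1 := Nat.mod_le _ _
        omega
      set q := t / n with hq
      set t₀ := t % n with ht₀
      have htq : t = n * q + t₀ := (Nat.div_add_mod _ _).symm
      have ht₀n : t₀ < n := Nat.mod_lt _ (by omega)
      have hqm : q < m := by
        rw [hq, Nat.div_lt_iff_lt_mul (by omega)]
        omega
      have hTt : t₀ + T + 1 = n := by
        have h1 : r - 1 = n * (m - q - 1) + (n - 1 - t₀) := by
          have h2 : m * n = n * q + n * (m - q - 1) + n := by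
            obtain ⟨d, hd⟩ : ∃ d, m = q + d + 1 := ⟨m - q - 1, by omega⟩
            rw [hd]
            rw [show q + d + 1 - q - 1 = d by omega]
            ring
          omega
        have h3 : T = n - 1 - t₀ := by
          rw [hT, h1, Nat.mul_add_mod]
          exact Nat.mod_eq_of_lt (by omega)
        omega
      rw [M.Z_eq_Ren h R r (shift t ω) x (zero_mem_box R), Ren_straddle B (M.G h R) T r hTr _ x 0 hx,
        Vb_pos_eq _ _ _ hr.ne', Finset.mul_sum, Finset.sum_comm]
      apply Finset.sum_le_sum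
      intro s hs
      rw [Finset.mem_Ioc] at hs
      rw [Finset.sum_mul, Finset.mul_sum]
      apply Finset.sum_le_sum
      intro t' ht'
      rw [Finset.mem_range] at ht'
      rw [Finset.sum_mul, Finset.mul_sum]
      apply Finset.sum_le_sum
      intro z hz
      rw [Finset.sum_mul, Finset.mul_sum]
      apply Finset.sum_le_sum
      intro z' hz'
      -- the three factors
      have h1 : Ren (M.G h R) B t' (shift t ω) x z ≤ M.Sb h R n (shift (q * n) ω) := by
        rw [← M.Z_eq_Ren h R t' (shift t ω) x hz]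
        have h2 : shift t ω = shift t₀ (shift (q * n) ω) := by
          rw [shift_shift]
          congr 1
          rw [htq]; ring
        rw [h2]
        apply M.Z_le_Sb h (by omega) hx hz
        have h3 : (t : ℤ) + x = (t₀ : ℤ) + x + n * q := by rw [htq]; push_cast; ring
        rw [h3, Int.even_add] at hpar
        have h4 : Even ((n : ℤ) * q) := ((Int.even_coe_nat n).2 hn).mul_right _
        exact hpar.2 h4
      have h2 : Ren (M.G h R) B (r - s) (shift s (shift t ω)) z' 0 ≤
          (∏ k ∈ Finset.Ico (q + 1) m, M.Sb h R n (shift (k * n) ω)) *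
            Vb (M.G h R) B n (r - s) (shift s (shift t ω)) := by
        rw [← M.Z_eq_Ren h R (r - s) _ z' (zero_mem_box R), shift_shift, Nat.add_comm s t]
        by_cases hp : Even (((t + s : ℕ) : ℤ) + z')
        · refine (ih (r - s) (by omega) (t + s) (by omega) z' hz' hp).trans ?_
          apply mul_le_mul_of_nonneg_right _ (hVnn _ _)
          apply prod_Ico_anti (fun k => M.one_le_Sb h R n _)
          rw [Nat.le_div_iff_mul_le (by omega), Nat.add_mul, one_mul]
          have : q * n = n * q := Nat.mul_comm _ _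
          omega
        · rw [show M.Z h (r - s) (shift (t + s) ω) z' 0 = 0 from ?_]
          · exact mul_nonneg (zero_le_one.trans (hprod1 _)) (hVnn _ _)
          · unfold Z
            apply Zk_parity hnl
            intro h5
            apply hp
            have h6 : (((r - s : ℕ) : ℤ) + z' + 0) + (((t + s : ℕ) : ℤ) + z') = ((m * n : ℕ) : ℤ) + 2 * z' := by
              rw [← htr]
              push_cast [hs.2]
              ring
            have h7 : Even (((m * n : ℕ) : ℤ) + 2 * z') := by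
              apply Even.add
              · exact (Int.even_coe_nat _).2 (hn.mul_left m)
              · exact even_two_mul _
            rw [← h6, Int.even_add] at h7
            exact h7.1 h5
      have h3 : 0 ≤ M.G h R (s - t') (shift t' (shift t ω)) z z' := hGnn _ _ _ _
      have h4 : 0 ≤ Ren (M.G h R) B t' (shift t ω) x z := by
        rw [← M.Z_eq_Ren h R t' (shift t ω) x hz]; exact M.Z_nonneg _ _ _ _ _
      have h5 : 0 ≤ Ren (M.G h R) B (r - s) (shift s (shift t ω)) z' 0 := by
        rw [← M.Z_eq_Ren h R (r - s) _ z' (zero_mem_box R)]; exact M.Z_nonneg _ _ _ _ _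
      rw [Finset.prod_eq_prod_Ico_succ_bot hqm]
      calc Ren (M.G h R) B t' (shift t ω) x z * M.G h R (s - t') (shift t' (shift t ω)) z z' *
            Ren (M.G h R) B (r - s) (shift s (shift t ω)) z' 0
          ≤ M.Sb h R n (shift (q * n) ω) * M.G h R (s - t') (shift t' (shift t ω)) z z' *
            ((∏ k ∈ Finset.Ico (q + 1) m, M.Sb h R n (shift (k * n) ω)) *
            Vb (M.G h R) B n (r - s) (shift s (shift t ω))) := by
              apply mul_le_mul _ h2 h5
                (mul_nonneg (zero_le_one.trans (M.one_le_Sb _ _ _ _)) h3)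
              exact mul_le_mul_of_nonneg_right h1 h3
        _ = _ := by ring

end Model

theorem Ψ_le_block (M : Model) (hnl : ∀ x, M.C.p x x = 0) {h : ℝ} {R : ℕ} {cy : ℝ} (hcy : 1 ≤ cy)
    (hout : ∀ z, z ∉ Finset.Icc (-(R : ℤ)) R → mom M.μ 1 (fun ω => M.W h (ω 0) z) ≤ 1)
    (hin : ∀ z, mom M.μ 1 (fun ω => M.W h (ω 0) z) ≤ ENNReal.ofReal cy) {n : ℕ} (hn : Even n)
    (hn1 : 1 ≤ n) (m : ℕ) :
    M.Ψ h (m * n) ≤ m * (∫ ω, Real.log (SB M.C M.φ R n (fun k => M.β * ω k - h)) ∂seqLaw M.μ +
      Real.log (n * (2 * R + 1) * cy)) := by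
  set B := Finset.Icc (-(R : ℤ)) R with hB
  have hcard : (B.card : ℝ) = 2 * R + 1 := by
    rw [hB, Int.card_Icc]
    have : ((R : ℤ) + 1 - -(R : ℤ)).toNat = 2 * R + 1 := by omega
    rw [this]
    push_cast
    ring
  have hBne : B.Nonempty := ⟨0, Model.zero_mem_box R⟩
  have hκ := M.κ_pos.le
  set N := m * n with hN
  have hNe : Even N := hn.mul_left m
  have hpt : ∀ ω, M.Z h N ω 0 0 ≤ (∏ k ∈ Finset.range m, M.Sb h R n (shift (k * n) ω)) *
      Vb (M.G h R) B n N ω := by
    intro ω
    have := M.Z_le_block hnl h R hn hn1 m ω N 0 (by omega) 0 (Model.zero_mem_box R) (by simp)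
    rw [Nat.zero_div, ← Finset.range_eq_Ico, shift_zero] at this
    exact this
  have hprodpos : ∀ ω, 0 < ∏ k ∈ Finset.range m, M.Sb h R n (shift (k * n) ω) := fun ω =>
    Finset.prod_pos fun k _ => one_pos.trans_le (M.one_le_Sb _ _ _ _)
  have hgV := good_Vb hκ (M.good_G h R) B n N
  have hVpos : ∀ ω, 0 < Vb (M.G h R) B n N ω := by
    intro ω
    have h1 := (M.Z_pos h hNe ω).trans_le (hpt ω)
    exact (mul_pos_iff_of_pos_left (hprodpos ω)).1 h1
  have hSpos : ∀ k, ∀ ω, 0 < M.Sb h R n (shift (k * n) ω) := fun k ω =>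
    one_pos.trans_le (M.one_le_Sb _ _ _ _)
  have hSint : Integrable (fun ω => Real.log (M.Sb h R n ω)) (seqLaw M.μ) :=
    (M.good_Sb h R n).integrable_log M.exp_mom (fun ω => one_pos.trans_le (M.one_le_Sb _ _ _ _))
  have hSint' : ∀ k, Integrable (fun ω => Real.log (M.Sb h R n (shift (k * n) ω))) (seqLaw M.μ) :=
    fun k => integrable_shift M.μ (k * n) (Y := fun ω => Real.log (M.Sb h R n ω))
      (M.good_Sb h R n).meas.log hSint
  have hVint := hgV.integrable_log M.exp_mom hVpos
  have h1 : M.Ψ h N ≤ ∫ ω, (∑ k ∈ Finset.range m, Real.log (M.Sb h R n (shift (k * n) ω)) +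
      Real.log (Vb (M.G h R) B n N ω)) ∂seqLaw M.μ := by
    unfold Model.Ψ
    apply integral_mono (M.integrable_logZ h hNe)
    · exact (integrable_finsetSum _ fun k _ => hSint' k).add hVint
    intro ω
    dsimp only
    refine (Real.log_le_log (M.Z_pos h hNe ω) (hpt ω)).trans ?_
    rw [Real.log_mul (hprodpos ω).ne' (hVpos ω).ne', Real.log_prod (fun k _ => (hSpos k ω).ne')]
  have h2 : ∫ ω, (∑ k ∈ Finset.range m, Real.log (M.Sb h R n (shift (k * n) ω)) +
      Real.log (Vb (M.G h R) B n N ω)) ∂seqLaw M.μ =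
      m * ∫ ω, Real.log (M.Sb h R n ω) ∂seqLaw M.μ + ∫ ω, Real.log (Vb (M.G h R) B n N ω) ∂seqLaw M.μ := by
    rw [integral_add (integrable_finsetSum _ fun k _ => hSint' k) hVint,
      integral_finsetSum _ (fun k _ => hSint' k)]
    congr 1
    have h3 : ∀ k ∈ Finset.range m, ∫ ω, Real.log (M.Sb h R n (shift (k * n) ω)) ∂seqLaw M.μ =
        ∫ ω, Real.log (M.Sb h R n ω) ∂seqLaw M.μ := fun k _ =>
      integral_shift M.μ (k * n) (Y := fun ω => Real.log (M.Sb h R n ω)) (M.good_Sb h R n).meas.log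
    rw [Finset.sum_congr rfl h3]
    simp
  have hn' : (1 : ℝ) ≤ n := by exact_mod_cast hn1
  have hR0 : (0 : ℝ) ≤ R := Nat.cast_nonneg R
  have hQ0 : 0 < (n : ℝ) * (2 * R + 1) * cy := by positivity
  have h4 : ∫ ω, Real.log (Vb (M.G h R) B n N ω) ∂seqLaw M.μ ≤ m * Real.log (n * (2 * R + 1) * cy) := by
    have h5 := exp_le_mom' M.exp_mom zero_le_one hgV hVpos
    have h6 := h5.trans (mom_Vb_le hκ (M.good_G h R) B n hcy hn1 hBne
      (fun k x => gap_mass M.C hκ (M.goodW h) B hcy hout hin k x) N)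
    rw [hcard, show (N + n - 1) / n = m from ?_, one_mul] at h6
    · rw [ENNReal.ofReal_le_ofReal_iff (by positivity)] at h6
      rw [← Real.log_pow]
      exact (Real.le_log_iff_exp_le (by positivity)).2 h6
    · rw [hN, show m * n + n - 1 = (n - 1) + m * n by omega, Nat.add_mul_div_right _ _ (by omega),
        Nat.div_eq_of_lt (by omega), zero_add]
  have h7 : ∫ ω, Real.log (SB M.C M.φ R n (fun k => M.β * ω k - h)) ∂seqLaw M.μ =
      ∫ ω, Real.log (M.Sb h R n ω) ∂seqLaw M.μ := by
    congr 1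
    funext ω
    rw [M.Sb_eq]
  rw [h7]
  linarith

end

end MP_daa227_pr
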