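import Pool.Agent.Lib.MP_daa227_pr.Mom

/-!
# The pinning model, its finite volume free energy
-/

open MeasureTheory ProbabilityTheory Set Filter
open scoped ENNReal Topology

namespace MP_daa227_pr

noncomputable section

/-- The data of the model: chain, charge law, potential, inverse temperature. -/
structure Model where
  /-- the chain -/
  C : Chain
  /-- the charge law -/
  μ : Measure ℝ
  prob : IsProbabilityMeasure μ
  exp_mom : ExpMom μ
  mean : ∫ x, x ∂μ = 0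
  var : ∫ x, x ^ 2 ∂μ = 1
  /-- the potential -/
  φ : ℤ → ℝ
  /-- a bound for the potential -/
  Φ : ℝ
  φ_pos : ∀ x, 0 < φ x
  φ_le : ∀ x, φ x ≤ Φ
  φ_lim : Tendsto φ cofinite (𝓝 0)
  /-- inverse temperature -/
  β : ℝ
  β_pos : 0 < β

namespace Model

variable (M : Model)

instance : IsProbabilityMeasure M.μ := M.prob

/-- Site weights. -/
def W (h : ℝ) : ℝ → ℤ → ℝ := fun a z => Real.exp ((M.β * a - h) * M.φ z)

/-- logarithmic Lipschitz constant -/
def κ : ℝ := M.β * M.Φ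

lemma Φ_pos : 0 < M.Φ := (M.φ_pos 0).trans_le (M.φ_le 0)

lemma κ_pos : 0 < M.κ := mul_pos M.β_pos M.Φ_pos

lemma goodW (h : ℝ) : GoodW M.κ (M.W h) := by
  refine ⟨fun z => ?_, fun a z => Real.exp_pos _, fun a b z => ?_⟩
  · unfold W; fun_prop
  · unfold W
    rw [← Real.exp_add]
    apply Real.exp_le_exp.2
    have h1 : M.β * (a - b) * M.φ z ≤ M.κ * |a - b| := by
      unfold κ
      calc M.β * (a - b) * M.φ z ≤ M.β * |a - b| * M.φ z := by
            apply mul_le_mul_of_nonneg_right _ (M.φ_pos z).le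
            exact mul_le_mul_of_nonneg_left (le_abs_self _) M.β_pos.le
        _ ≤ M.β * |a - b| * M.Φ :=
            mul_le_mul_of_nonneg_left (M.φ_le z) (mul_nonneg M.β_pos.le (abs_nonneg _))
        _ = _ := by ring
    nlinarith

/-- Partition functions. -/
def Z (h : ℝ) (n : ℕ) (ω : ℕ → ℝ) (x y : ℤ) : ℝ := Zk M.C (M.W h) n ω x y

lemma good_Z (h : ℝ) (n : ℕ) (x y : ℤ) : Good n M.κ (fun ω => M.Z h n ω x y) :=
  good_Zk M.C M.κ_pos.le (M.goodW h) n x y

/-- Gap kernels with respect to the box `[-R, R]`. -/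
def G (h : ℝ) (R : ℕ) : ℕ → (ℕ → ℝ) → ℤ → ℤ → ℝ := Gk M.C (M.W h) (Finset.Icc (-(R : ℤ)) R)

lemma good_G (h : ℝ) (R : ℕ) (n : ℕ) (x y : ℤ) : Good n M.κ (fun ω => M.G h R n ω x y) :=
  good_Gk M.C M.κ_pos.le (M.goodW h) _ n x y

lemma Z_nonneg (h : ℝ) (n : ℕ) (ω : ℕ → ℝ) (x y : ℤ) : 0 ≤ M.Z h n ω x y := (M.good_Z h n x y).nonneg ω

end Model

/-- Supermultiplicativity. -/
theorem Zk_mul_le (C : Chain) (W : ℝ → ℤ → ℝ) (hW : ∀ a z, 0 ≤ W a z) :
    ∀ (m n : ℕ) (ω : ℕ → ℝ) (x y z : ℤ),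
      Zk C W m ω x y * Zk C W n (shift m ω) y z ≤ Zk C W (m + n) ω x z := by
  have hZ0 : ∀ (n : ℕ) (ω : ℕ → ℝ) (x y : ℤ), 0 ≤ Zk C W n ω x y := by
    intro n
    induction n with
    | zero => intro ω x y; simp only [Zk]; split_ifs <;> norm_num
    | succ n ih =>
      intro ω x y
      simp only [Zk]
      exact Finset.sum_nonneg fun z _ => mul_nonneg (mul_nonneg (C.nonneg _ _) (hW _ _)) (ih _ _ _)
  intro m
  induction m with
  | zero =>
    intro n ω x y z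
    simp only [Zk, shift_zero, Nat.zero_add]
    split_ifs with h
    · rw [h, one_mul]
    · rw [zero_mul]; exact hZ0 _ _ _ _
  | succ m ih =>
    intro n ω x y z
    rw [show m + 1 + n = (m + n) + 1 by omega]
    simp only [Zk]
    rw [Finset.sum_mul]
    apply Finset.sum_le_sum
    intro w _
    rw [mul_assoc]
    apply mul_le_mul_of_nonneg_left _ (mul_nonneg (C.nonneg _ _) (hW _ _))
    have h1 := ih n (shift 1 ω) w y z
    rw [shift_shift] at h1
    exact h1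

/-- One step up and down. -/
lemma Zk_two_pos (C : Chain) {W : ℝ → ℤ → ℝ} (hW : ∀ a z, 0 < W a z) (ω : ℕ → ℝ) (x : ℤ) :
    0 < Zk C W 2 ω x x := by
  have h1 : 0 < Zk C W 1 ω x (x + 1) := by
    simp only [Zk]
    apply Finset.sum_pos'
    · intro z _
      refine mul_nonneg (mul_nonneg (C.nonneg _ _) (hW _ _).le) ?_
      split_ifs <;> norm_num
    · refine ⟨x + 1, by simp only [Finset.mem_Icc]; omega, ?_⟩
      simp only [if_true, mul_one]
      exact mul_pos (C.up x) (hW _ _)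
  have h2 : 0 < Zk C W 1 (shift 1 ω) (x + 1) x := by
    simp only [Zk]
    apply Finset.sum_pos'
    · intro z _
      refine mul_nonneg (mul_nonneg (C.nonneg _ _) (hW _ _).le) ?_
      split_ifs <;> norm_num
    · refine ⟨x, by simp only [Finset.mem_Icc]; omega, ?_⟩
      simp only [if_true, mul_one]
      have := C.down (x + 1)
      rw [add_sub_cancel_right] at this
      exact mul_pos this (hW _ _)
  exact (mul_pos h1 h2).trans_le (Zk_mul_le C W (fun a z => (hW a z).le) 1 1 ω x (x + 1) x)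

lemma Zk_even_pos (C : Chain) {W : ℝ → ℤ → ℝ} (hW : ∀ a z, 0 < W a z) (x : ℤ) :
    ∀ (n : ℕ) (ω : ℕ → ℝ), 0 < Zk C W (2 * n) ω x x
  | 0, ω => by simp [Zk]
  | n + 1, ω => by
      have h1 := Zk_even_pos C hW x n (shift 2 ω)
      have h2 := Zk_mul_le C W (fun a z => (hW a z).le) 2 (2 * n) ω x x x
      rw [show 2 + 2 * n = 2 * (n + 1) by ring] at h2
      exact (mul_pos (Zk_two_pos C hW ω x) h1).trans_le h2

namespace Model

variable (M : Model)

lemma W_pos (h : ℝ) (a : ℝ) (z : ℤ) : 0 < M.W h a z := Real.exp_pos _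

lemma Z_mul_le (h : ℝ) (m n : ℕ) (ω : ℕ → ℝ) (x y z : ℤ) :
    M.Z h m ω x y * M.Z h n (shift m ω) y z ≤ M.Z h (m + n) ω x z :=
  Zk_mul_le M.C (M.W h) (fun a z => (M.W_pos h a z).le) m n ω x y z

lemma Z_pos (h : ℝ) {n : ℕ} (hn : Even n) (ω : ℕ → ℝ) : 0 < M.Z h n ω 0 0 := by
  obtain ⟨m, rfl⟩ := hn
  rw [← two_mul]
  exact Zk_even_pos M.C (M.W_pos h) 0 m ω

/-- Quenched average of the logarithm of the constrained partition function. -/
def Ψ (h : ℝ) (n : ℕ) : ℝ := ∫ ω, Real.log (M.Z h n ω 0 0) ∂seqLaw M.μ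

lemma integrable_logZ (h : ℝ) {n : ℕ} (hn : Even n) :
    Integrable (fun ω => Real.log (M.Z h n ω 0 0)) (seqLaw M.μ) :=
  (M.good_Z h n 0 0).integrable_log M.exp_mom (fun ω => M.Z_pos h hn ω)

lemma Ψ_add (h : ℝ) {m n : ℕ} (hm : Even m) (hn : Even n) : M.Ψ h m + M.Ψ h n ≤ M.Ψ h (m + n) := by
  have h1 : M.Ψ h n = ∫ ω, Real.log (M.Z h n (shift m ω) 0 0) ∂seqLaw M.μ := by
    unfold Ψ
    exact (integral_shift M.μ m (Y := fun ω => Real.log (M.Z h n ω 0 0)) (M.good_Z h n 0 0).meas.log).symm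
  have h2 := integrable_shift M.μ m (Y := fun ω => Real.log (M.Z h n ω 0 0)) (M.good_Z h n 0 0).meas.log
    (M.integrable_logZ h hn)
  rw [h1]
  unfold Ψ
  rw [← integral_add (M.integrable_logZ h hm) h2]
  apply integral_mono ((M.integrable_logZ h hm).add h2) (M.integrable_logZ h (hm.add hn))
  intro ω
  simp only [Pi.add_apply]
  rw [← Real.log_mul (M.Z_pos h hm ω).ne' (M.Z_pos h hn _).ne']
  exact Real.log_le_log (mul_pos (M.Z_pos h hm ω) (M.Z_pos h hn _)) (M.Z_mul_le h m n ω 0 0 0)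

lemma Ψ_zero (h : ℝ) : M.Ψ h 0 = 0 := by
  unfold Ψ Z
  simp [Zk]

lemma Zk_le_of_W_le {C : Chain} {W W' : ℝ → ℤ → ℝ} {c : ℝ} (hW0 : ∀ a z, 0 ≤ W a z)
    (hc : 0 ≤ c) (hW : ∀ a z, W a z ≤ c * W' a z) :
    ∀ (n : ℕ) (ω : ℕ → ℝ) (x y : ℤ), 0 ≤ Zk C W n ω x y ∧ Zk C W n ω x y ≤ c ^ n * Zk C W' n ω x y
  | 0, ω, x, y => by simp only [Zk, pow_zero, one_mul]; split_ifs <;> norm_num
  | n + 1, ω, x, y => by
      simp only [Zk]
      constructor
      · exact Finset.sum_nonneg fun z _ => mul_nonneg (mul_nonneg (C.nonneg _ _) (hW0 _ _))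
          (Zk_le_of_W_le hW0 hc hW n _ _ _).1
      · rw [Finset.mul_sum]
        apply Finset.sum_le_sum
        intro z _
        have h1 := (Zk_le_of_W_le (C := C) hW0 hc hW n (shift 1 ω) z y)
        calc C.p x z * W (ω 0) z * Zk C W n (shift 1 ω) z y
            ≤ C.p x z * (c * W' (ω 0) z) * (c ^ n * Zk C W' n (shift 1 ω) z y) := by
              apply mul_le_mul _ h1.2 h1.1
                (mul_nonneg (C.nonneg _ _) ((hW0 _ _).trans (hW _ _)))
              exact mul_le_mul_of_nonneg_left (hW _ _) (C.nonneg _ _)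
          _ = _ := by ring

lemma Z_anti {h h' : ℝ} (hh : h ≤ h') (n : ℕ) (ω : ℕ → ℝ) (x y : ℤ) :
    M.Z h' n ω x y ≤ M.Z h n ω x y := by
  have h1 := (Zk_le_of_W_le (C := M.C) (W := M.W h') (W' := M.W h) (c := 1)
    (fun a z => (M.W_pos _ _ _).le) zero_le_one (fun a z => by
      rw [one_mul]
      unfold W
      apply Real.exp_le_exp.2
      exact mul_le_mul_of_nonneg_right (by linarith) (M.φ_pos z).le) n ω x y).2
  rw [one_pow, one_mul] at h1
  exact h1

lemma Z_le_exp {h h' : ℝ} (hh : h ≤ h') (n : ℕ) (ω : ℕ → ℝ) (x y : ℤ) :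
    M.Z h n ω x y ≤ Real.exp ((h' - h) * M.Φ * n) * M.Z h' n ω x y := by
  have h1 := (Zk_le_of_W_le (C := M.C) (W := M.W h) (W' := M.W h') (c := Real.exp ((h' - h) * M.Φ))
    (fun a z => (M.W_pos _ _ _).le) (Real.exp_pos _).le (fun a z => by
      unfold W
      rw [← Real.exp_add]
      apply Real.exp_le_exp.2
      have := mul_le_mul_of_nonneg_left (M.φ_le z) (sub_nonneg.2 hh)
      nlinarith) n ω x y).2
  rw [← Real.exp_nat_mul] at h1
  rw [show (n : ℝ) * ((h' - h) * M.Φ) = (h' - h) * M.Φ * n by ring] at h1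
  exact h1

lemma Ψ_anti {h h' : ℝ} (hh : h ≤ h') {n : ℕ} (hn : Even n) : M.Ψ h' n ≤ M.Ψ h n := by
  apply integral_mono (M.integrable_logZ h' hn) (M.integrable_logZ h hn)
  intro ω
  exact Real.log_le_log (M.Z_pos h' hn ω) (M.Z_anti hh n ω 0 0)

lemma Ψ_lip {h h' : ℝ} (hh : h ≤ h') {n : ℕ} (hn : Even n) :
    M.Ψ h n ≤ M.Ψ h' n + (h' - h) * M.Φ * n := by
  have h1 : M.Ψ h' n + (h' - h) * M.Φ * n =
      ∫ ω, (Real.log (M.Z h' n ω 0 0) + (h' - h) * M.Φ * n) ∂seqLaw M.μ := by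
    rw [integral_add (M.integrable_logZ h' hn) (integrable_const _)]
    simp [Ψ]
  rw [h1]
  apply integral_mono (M.integrable_logZ h hn) ((M.integrable_logZ h' hn).add (integrable_const _))
  intro ω
  simp only [Pi.add_apply]
  have h2 := Real.log_le_log (M.Z_pos h hn ω) (M.Z_le_exp hh n ω 0 0)
  rw [Real.log_mul (Real.exp_pos _).ne' (M.Z_pos h' hn ω).ne', Real.log_exp] at h2
  linarith

/-- Crude lower bound. -/
lemma Ψ_even_ge (h : ℝ) (n : ℕ) : n * M.Ψ h 2 ≤ M.Ψ h (2 * n) := by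
  induction n with
  | zero => simp [M.Ψ_zero]
  | succ n ih =>
    have h1 := M.Ψ_add h (m := 2 * n) (n := 2) (even_two_mul n) even_two
    rw [show 2 * n + 2 = 2 * (n + 1) by ring] at h1
    push_cast
    linarith

lemma mom_Z_le_exp {γ : ℝ} (h0 : 0 ≤ γ) (h1 : γ ≤ 1) (h : ℝ) {n : ℕ} (hn : Even n) :
    mom M.μ γ (fun ω => M.Z h n ω 0 0) ≤
      ENNReal.ofReal (Real.exp (γ * M.Ψ h n + concK M.μ M.κ * γ ^ 2 * n)) :=
  mom_le_exp M.exp_mom h0 h1 (M.good_Z h n 0 0) (fun ω => M.Z_pos h hn ω)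

lemma exp_le_mom_Z {γ : ℝ} (h0 : 0 ≤ γ) (h : ℝ) {n : ℕ} (hn : Even n) :
    ENNReal.ofReal (Real.exp (γ * M.Ψ h n)) ≤ mom M.μ γ (fun ω => M.Z h n ω 0 0) :=
  exp_le_mom' M.exp_mom h0 (M.good_Z h n 0 0) (fun ω => M.Z_pos h hn ω)

/-! ### Annealed weights -/

/-- A constant with `E exp (t ω) ≤ 1 + A t²` for `0 ≤ t ≤ β Φ`. -/
def A : ℝ := ∫ x, x ^ 2 * Real.exp (M.κ * |x|) ∂M.μ

lemma A_nonneg : 0 ≤ M.A := integral_nonneg fun x => by positivity

lemma exp_le_quad (x : ℝ) : Real.exp x ≤ 1 + x + x ^ 2 * Real.exp |x| := by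
  rcases le_or_gt |x| 1 with h | h
  · have h1 := (abs_le.1 (Real.abs_exp_sub_one_sub_id_le h)).2
    have h2 : 1 ≤ Real.exp |x| := Real.one_le_exp (abs_nonneg x)
    nlinarith [sq_nonneg x]
  · rcases lt_abs.1 h with h3 | h3
    · rw [abs_of_pos (by linarith)]
      have h4 : 1 ≤ x ^ 2 := by nlinarith
      have := Real.exp_pos x
      nlinarith
    · have h5 : Real.exp x ≤ 1 := Real.exp_le_one_iff.2 (by linarith)
      have h2 : 1 ≤ Real.exp |x| := Real.one_le_exp (abs_nonneg x)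
      nlinarith [sq_nonneg x]

/-- Exponential moments of the charge: `E exp (t ω) ≤ 1 + A t²`. -/
lemma exp_moment_le {t : ℝ} (h0 : 0 ≤ t) (h1 : t ≤ M.κ) :
    ∫ x, Real.exp (t * x) ∂M.μ ≤ 1 + M.A * t ^ 2 := by
  have hi := M.exp_mom.sq_abs M.κ
  have h2 : ∫ x, Real.exp (t * x) ∂M.μ ≤ ∫ x, (1 + t * x + t ^ 2 * (x ^ 2 * Real.exp (M.κ * |x|))) ∂M.μ := by
    apply integral_mono (M.exp_mom t)
    · exact ((integrable_const _).add (M.exp_mom.integrable_id.const_mul t)).add (hi.const_mul _)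
    intro x
    dsimp only
    refine (exp_le_quad (t * x)).trans ?_
    rw [mul_pow, mul_assoc (t ^ 2)]
    have h3 : Real.exp |t * x| ≤ Real.exp (M.κ * |x|) := by
      apply Real.exp_le_exp.2
      rw [abs_mul, abs_of_nonneg h0]
      exact mul_le_mul_of_nonneg_right h1 (abs_nonneg x)
    have h4 := mul_le_mul_of_nonneg_left (mul_le_mul_of_nonneg_left h3 (sq_nonneg x)) (sq_nonneg t)
    linarith
  have h5 : ∫ x, (1 + t * x + t ^ 2 * (x ^ 2 * Real.exp (M.κ * |x|))) ∂M.μ = 1 + M.A * t ^ 2 := by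
    have hA : Integrable (fun x => 1 + t * x) M.μ :=
      (integrable_const _).add (M.exp_mom.integrable_id.const_mul t)
    rw [integral_add hA (hi.const_mul _),
      integral_add (integrable_const _) (M.exp_mom.integrable_id.const_mul t),
      integral_const_mul, integral_const_mul, M.mean]
    simp [A, mul_comm]
  linarith

lemma integrable_W (h : ℝ) (z : ℤ) : Integrable (fun a => M.W h a z) M.μ := by
  have h1 : (fun a => M.W h a z) = fun a => Real.exp (-h * M.φ z) * Real.exp ((M.β * M.φ z) * a) := by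
    funext a
    unfold W
    rw [← Real.exp_add]
    congr 1
    ring
  rw [h1]
  exact (M.exp_mom _).const_mul _

/-- Annealed site weight. -/
lemma EW_le (h : ℝ) (z : ℤ) :
    ∫⁻ a, ENNReal.ofReal (M.W h a z) ∂M.μ ≤
      ENNReal.ofReal (Real.exp (-h * M.φ z + M.A * M.β ^ 2 * M.φ z ^ 2)) := by
  rw [← ofReal_integral_eq_lintegral_ofReal (M.integrable_W h z) (ae_of_all _ fun _ => (M.W_pos h _ z).le)]
  apply ENNReal.ofReal_le_ofReal
  have h1 : ∀ a, M.W h a z = Real.exp (-h * M.φ z) * Real.exp ((M.β * M.φ z) * a) := by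
    intro a
    unfold W
    rw [← Real.exp_add]
    congr 1
    ring
  simp_rw [h1]
  rw [integral_const_mul, Real.exp_add]
  apply mul_le_mul_of_nonneg_left _ (Real.exp_pos _).le
  refine (M.exp_moment_le (mul_nonneg M.β_pos.le (M.φ_pos z).le)
    (mul_le_mul_of_nonneg_left (M.φ_le z) M.β_pos.le)).trans ?_
  have := Real.add_one_le_exp (M.A * M.β ^ 2 * M.φ z ^ 2)
  nlinarith

lemma mom_one_W (h : ℝ) (z : ℤ) :
    mom M.μ 1 (fun ω => M.W h (ω 0) z) = ∫⁻ a, ENNReal.ofReal (M.W h a z) ∂M.μ := by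
  rw [mom_one]
  exact lintegral_apply M.μ 0 (Y := fun a => ENNReal.ofReal (M.W h a z))
    (((M.goodW h).meas z).ennreal_ofReal)

end Model

end

end MP_daa227_pr
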