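import Pool.Agent.Lib.MP_daa227_pr.SmDefs
import Pool.Agent.Lib.MP_daa227_pr.Lin
import Pool.Agent.Lib.MP_daa227_pr.Model

/-!
# Expected maxima of linear forms in the charges
-/

open MeasureTheory ProbabilityTheory Set Filter
open scoped ENNReal Topology

namespace MP_daa227_pr

noncomputable section

namespace MaxE

/-- Jensen for the logarithm. -/
lemma jensen {μ : Measure ℝ} [IsProbabilityMeasure μ] {S : (ℕ → ℝ) → ℝ} (hS : Measurable S)
    (h1 : ∀ ω, 1 ≤ S ω) {c : ℝ} (hc : 0 < c)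
    (hint : ∫⁻ ω, ENNReal.ofReal (S ω) ∂seqLaw μ ≤ ENNReal.ofReal c) :
    Integrable (fun ω => Real.log (S ω)) (seqLaw μ) ∧
      ∫ ω, Real.log (S ω) ∂seqLaw μ ≤ Real.log c := by
  have h0 : ∀ ω, 0 ≤ S ω := fun ω => zero_le_one.trans (h1 ω)
  have hSi : Integrable S (seqLaw μ) := by
    refine ⟨hS.aestronglyMeasurable, ?_⟩
    rw [hasFiniteIntegral_iff_ofReal (ae_of_all _ h0)]
    exact lt_of_le_of_lt hint ENNReal.ofReal_lt_top
  have hSe : ∫ ω, S ω ∂seqLaw μ ≤ c := by
    rw [integral_eq_lintegral_of_nonneg_ae (ae_of_all _ h0) hS.aestronglyMeasurable]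
    exact ENNReal.toReal_le_of_le_ofReal hc.le hint
  have hli : Integrable (fun ω => Real.log (S ω)) (seqLaw μ) := by
    refine hSi.mono' (Real.measurable_log.comp hS).aestronglyMeasurable (ae_of_all _ fun ω => ?_)
    rw [Real.norm_eq_abs, abs_of_nonneg (Real.log_nonneg (h1 ω))]
    linarith [Real.log_le_sub_one_of_pos (lt_of_lt_of_le one_pos (h1 ω))]
  refine ⟨hli, ?_⟩
  have h2 : ∀ ω, Real.log (S ω) ≤ S ω / c - 1 + Real.log c := by
    intro ω
    have hpos : 0 < S ω := lt_of_lt_of_le one_pos (h1 ω)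
    have h3 := Real.log_le_sub_one_of_pos (div_pos hpos hc)
    rw [Real.log_div hpos.ne' hc.ne'] at h3
    linarith
  have h3 : ∫ ω, Real.log (S ω) ∂seqLaw μ ≤ ∫ ω, (S ω / c - 1 + Real.log c) ∂seqLaw μ :=
    integral_mono hli (((hSi.div_const c).sub (integrable_const _)).add (integrable_const _)) h2
  refine h3.trans ?_
  have h4 : ∫ ω, (S ω / c - 1 + Real.log c) ∂seqLaw μ =
      (∫ ω, S ω ∂seqLaw μ) / c - 1 + Real.log c := by
    have e1 : Integrable (fun ω => S ω / c - 1) (seqLaw μ) :=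
      (hSi.div_const c).sub (integrable_const _)
    rw [integral_add e1 (integrable_const _),
      integral_sub (hSi.div_const c) (integrable_const _), integral_div]
    simp
  rw [h4]
  have h5 : (∫ ω, S ω ∂seqLaw μ) / c ≤ 1 := (div_le_one hc).mpr hSe
  linarith

/-- The constant in the bound for the exponential moments. -/
def CC (μ : Measure ℝ) (Φ : ℝ) : ℝ := ∫ x, x ^ 2 * Real.exp (Φ * |x|) ∂μ

lemma CC_nonneg (μ : Measure ℝ) (Φ : ℝ) : 0 ≤ CC μ Φ :=
  integral_nonneg fun x => by positivity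

lemma one_le {μ : Measure ℝ} [IsProbabilityMeasure μ] (hexp : ExpMom μ)
    (hmean : ∫ x, x ∂μ = 0) {Φ u : ℝ} (hu : |u| ≤ Φ) :
    ∫⁻ x, ENNReal.ofReal (Real.exp (u * x)) ∂μ ≤ ENNReal.ofReal (Real.exp (CC μ Φ * u ^ 2)) := by
  rw [← ofReal_integral_eq_lintegral_ofReal (hexp u) (ae_of_all _ fun x => (Real.exp_pos _).le)]
  apply ENNReal.ofReal_le_ofReal
  have hi := hexp.sq_abs Φ
  have h2 : ∫ x, Real.exp (u * x) ∂μ ≤
      ∫ x, (1 + u * x + u ^ 2 * (x ^ 2 * Real.exp (Φ * |x|))) ∂μ := by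
    apply integral_mono (hexp u)
    · exact ((integrable_const _).add (hexp.integrable_id.const_mul u)).add (hi.const_mul _)
    intro x
    dsimp only
    refine (Model.exp_le_quad (u * x)).trans ?_
    rw [mul_pow, mul_assoc (u ^ 2)]
    have h3 : Real.exp |u * x| ≤ Real.exp (Φ * |x|) := by
      apply Real.exp_le_exp.2
      rw [abs_mul]
      exact mul_le_mul_of_nonneg_right hu (abs_nonneg x)
    have h4 := mul_le_mul_of_nonneg_left (mul_le_mul_of_nonneg_left h3 (sq_nonneg x)) (sq_nonneg u)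
    linarith
  have h5 : ∫ x, (1 + u * x + u ^ 2 * (x ^ 2 * Real.exp (Φ * |x|))) ∂μ = 1 + CC μ Φ * u ^ 2 := by
    have hA : Integrable (fun x => 1 + u * x) μ :=
      (integrable_const _).add (hexp.integrable_id.const_mul u)
    rw [integral_add hA (hi.const_mul _),
      integral_add (integrable_const _) (hexp.integrable_id.const_mul u),
      integral_const_mul, integral_const_mul, hmean]
    simp [CC, mul_comm]
  have h6 := Real.add_one_le_exp (CC μ Φ * u ^ 2)
  linarith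

lemma lin_le {μ : Measure ℝ} [IsProbabilityMeasure μ] (hexp : ExpMom μ)
    (hmean : ∫ x, x ∂μ = 0) {Φ : ℝ} : ∀ (N : ℕ) (c : ℕ → ℝ), (∀ k, |c k| ≤ Φ) →
      ∫⁻ ω, ENNReal.ofReal (Real.exp (∑ k ∈ Finset.range N, c k * ω k)) ∂seqLaw μ ≤
        ENNReal.ofReal (Real.exp (CC μ Φ * ∑ k ∈ Finset.range N, c k ^ 2))
  | 0, c, _ => by simp
  | N + 1, c, hc => by
      have ih := lin_le hexp hmean N (fun k => c (k + 1)) (fun k => hc (k + 1))
      rw [lintegral_cons μ (F := fun ω => ENNReal.ofReal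
        (Real.exp (∑ k ∈ Finset.range (N + 1), c k * ω k))) (by fun_prop)]
      have h1 : ∀ (x : ℝ) (ω : ℕ → ℝ),
          ENNReal.ofReal (Real.exp (∑ k ∈ Finset.range (N + 1), c k * cons x ω k)) =
          ENNReal.ofReal (Real.exp (∑ k ∈ Finset.range N, c (k + 1) * ω k)) *
            ENNReal.ofReal (Real.exp (c 0 * x)) := by
        intro x ω
        rw [linForm_cons, Real.exp_add, ENNReal.ofReal_mul (Real.exp_pos _).le]
      simp_rw [h1]
      have h2 : ∀ x : ℝ, ∫⁻ ω, ENNReal.ofReal (Real.exp (∑ k ∈ Finset.range N, c (k + 1) * ω k)) *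
            ENNReal.ofReal (Real.exp (c 0 * x)) ∂seqLaw μ =
          (∫⁻ ω, ENNReal.ofReal (Real.exp (∑ k ∈ Finset.range N, c (k + 1) * ω k)) ∂seqLaw μ) *
            ENNReal.ofReal (Real.exp (c 0 * x)) := fun x =>
        lintegral_mul_const _ (by fun_prop)
      simp_rw [h2]
      rw [lintegral_const_mul _ (by fun_prop), Finset.sum_range_succ', mul_add, Real.exp_add,
        ENNReal.ofReal_mul (Real.exp_pos _).le]
      exact mul_le_mul' ih (one_le hexp hmean (hc 0))

lemma abs_le' {μ : Measure ℝ} [IsProbabilityMeasure μ] : ∀ R : ℕ,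
      ∫⁻ ω, ENNReal.ofReal (Real.exp (∑ k ∈ Finset.range R, |ω k|)) ∂seqLaw μ ≤
        (∫⁻ x, ENNReal.ofReal (Real.exp |x|) ∂μ) ^ R
  | 0 => by simp
  | R + 1 => by
      have ih := abs_le' (μ := μ) R
      rw [lintegral_cons μ (F := fun ω => ENNReal.ofReal
        (Real.exp (∑ k ∈ Finset.range (R + 1), |ω k|))) (by fun_prop)]
      have h1 : ∀ (x : ℝ) (ω : ℕ → ℝ),
          ENNReal.ofReal (Real.exp (∑ k ∈ Finset.range (R + 1), |cons x ω k|)) =
          ENNReal.ofReal (Real.exp (∑ k ∈ Finset.range R, |ω k|)) *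
            ENNReal.ofReal (Real.exp |x|) := by
        intro x ω
        rw [Finset.sum_range_succ']
        simp only [cons_succ, cons_zero]
        rw [Real.exp_add, ENNReal.ofReal_mul (Real.exp_pos _).le]
      simp_rw [h1]
      have h2 : ∀ x : ℝ, ∫⁻ ω, ENNReal.ofReal (Real.exp (∑ k ∈ Finset.range R, |ω k|)) *
            ENNReal.ofReal (Real.exp |x|) ∂seqLaw μ =
          (∫⁻ ω, ENNReal.ofReal (Real.exp (∑ k ∈ Finset.range R, |ω k|)) ∂seqLaw μ) *
            ENNReal.ofReal (Real.exp |x|) := fun x =>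
        lintegral_mul_const _ (by fun_prop)
      simp_rw [h2]
      rw [lintegral_const_mul _ (by fun_prop), pow_succ]
      exact mul_le_mul' ih le_rfl

end MaxE

open MaxE in
theorem max_lin {μ : Measure ℝ} [IsProbabilityMeasure μ] (hexp : ExpMom μ)
    (hmean : ∫ x, x ∂μ = 0) {Φ : ℝ} (hΦ : 0 ≤ Φ) : ∃ A : ℝ, 0 < A ∧ ∀ s : ℝ, 1 ≤ s →
      ∀ m : ℕ, 1 ≤ m → ∀ (N : ℕ) (c : ℕ → ℕ → ℝ), (∀ i < m, ∀ k, |c i k| ≤ Φ) →
        (∀ i < m, ∑ k ∈ Finset.range N, c i k ^ 2 ≤ s ^ 2) →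
          ∃ g : (ℕ → ℝ) → ℝ, Integrable g (seqLaw μ) ∧
            (∀ ω, ∀ i < m, |∑ k ∈ Finset.range N, c i k * ω k| ≤ g ω) ∧
            ∫ ω, g ω ∂seqLaw μ ≤ A * s * (1 + Real.log m) := by
  have hC := CC_nonneg μ Φ
  set C := CC μ Φ with hCdef
  refine ⟨1 + C, by linarith, fun s hs m hm N c hc hc2 => ?_⟩
  have hs0 : 0 < s := by linarith
  let X : ℕ → (ℕ → ℝ) → ℝ := fun i ω => ∑ k ∈ Finset.range N, c i k * ω k
  let S : (ℕ → ℝ) → ℝ := fun ω =>
    ∑ i ∈ Finset.range m, (Real.exp (X i ω / s) + Real.exp (-(X i ω / s)))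
  have hterm : ∀ ω, ∀ i ∈ Finset.range m, Real.exp (X i ω / s) + Real.exp (-(X i ω / s)) ≤ S ω := by
    intro ω i hi
    exact Finset.single_le_sum (f := fun i => Real.exp (X i ω / s) + Real.exp (-(X i ω / s)))
      (fun _ _ => by positivity) hi
  have hS1 : ∀ ω, 1 ≤ S ω := by
    intro ω
    refine le_trans ?_ (hterm ω 0 (Finset.mem_range.mpr hm))
    have h1 := Real.add_one_le_exp (X 0 ω / s)
    have h2 := Real.add_one_le_exp (-(X 0 ω / s))
    linarith
  have hSm : Measurable S := by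
    apply Finset.measurable_fun_sum
    intro i _
    fun_prop
  have hone : ∀ i ∈ Finset.range m, ∫⁻ ω, ENNReal.ofReal
      (Real.exp (X i ω / s) + Real.exp (-(X i ω / s))) ∂seqLaw μ ≤
        ENNReal.ofReal (2 * Real.exp C) := by
    intro i hi
    have hi' := Finset.mem_range.mp hi
    have hbd : ∀ (σ : ℝ), |σ| = 1 → ∫⁻ ω, ENNReal.ofReal (Real.exp (σ * (X i ω / s))) ∂seqLaw μ ≤
        ENNReal.ofReal (Real.exp C) := by
      intro σ hσ
      have h1 := lin_le hexp hmean (Φ := Φ) N (fun k => σ * (c i k / s)) (fun k => by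
        rw [abs_mul, hσ, one_mul, abs_div, abs_of_pos hs0]
        exact (div_le_self (abs_nonneg _) hs).trans (hc i hi' k))
      have h2 : ∀ ω : ℕ → ℝ, σ * (X i ω / s) =
          ∑ k ∈ Finset.range N, σ * (c i k / s) * ω k := by
        intro ω
        simp only [X]
        rw [Finset.sum_div, Finset.mul_sum]
        refine Finset.sum_congr rfl fun k _ => ?_
        ring
      simp_rw [h2]
      refine h1.trans (ENNReal.ofReal_le_ofReal (Real.exp_le_exp.mpr ?_))
      have h3 : ∑ k ∈ Finset.range N, (σ * (c i k / s)) ^ 2 ≤ 1 := by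
        have hσ2 : σ ^ 2 = 1 := by rw [← _root_.sq_abs, hσ, one_pow]
        have h4 : ∀ k, (σ * (c i k / s)) ^ 2 = c i k ^ 2 / s ^ 2 := by
          intro k
          rw [mul_pow, hσ2, one_mul, div_pow]
        simp_rw [h4]
        rw [← Finset.sum_div, div_le_one (by positivity)]
        exact hc2 i hi'
      calc C * ∑ k ∈ Finset.range N, (σ * (c i k / s)) ^ 2 ≤ C * 1 :=
            mul_le_mul_of_nonneg_left h3 hC
        _ = C := mul_one C
    have h1 := hbd 1 (by simp)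
    have h2 := hbd (-1) (by simp)
    simp only [one_mul, neg_mul] at h1 h2
    have h3 : ∀ ω, ENNReal.ofReal (Real.exp (X i ω / s) + Real.exp (-(X i ω / s))) =
        ENNReal.ofReal (Real.exp (X i ω / s)) + ENNReal.ofReal (Real.exp (-(X i ω / s))) :=
      fun ω => ENNReal.ofReal_add (Real.exp_pos _).le (Real.exp_pos _).le
    simp_rw [h3]
    rw [lintegral_add_left (by fun_prop), two_mul,
      ENNReal.ofReal_add (Real.exp_pos _).le (Real.exp_pos _).le]
    exact add_le_add h1 h2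
  have hm0 : (0 : ℝ) < m := by exact_mod_cast hm
  have hSint : ∫⁻ ω, ENNReal.ofReal (S ω) ∂seqLaw μ ≤ ENNReal.ofReal (m * (2 * Real.exp C)) := by
    have h1 : ∀ ω, ENNReal.ofReal (S ω) = ∑ i ∈ Finset.range m,
        ENNReal.ofReal (Real.exp (X i ω / s) + Real.exp (-(X i ω / s))) := fun ω =>
      ENNReal.ofReal_sum_of_nonneg fun i _ => by positivity
    simp_rw [h1]
    rw [lintegral_finsetSum _ (fun i _ => by fun_prop)]
    calc ∑ i ∈ Finset.range m, ∫⁻ ω, ENNReal.ofReal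
          (Real.exp (X i ω / s) + Real.exp (-(X i ω / s))) ∂seqLaw μ
        ≤ ∑ _i ∈ Finset.range m, ENNReal.ofReal (2 * Real.exp C) := Finset.sum_le_sum hone
      _ = ENNReal.ofReal (m * (2 * Real.exp C)) := by
          rw [Finset.sum_const, Finset.card_range, nsmul_eq_mul,
            ENNReal.ofReal_mul hm0.le, ENNReal.ofReal_natCast]
  obtain ⟨hint, hle⟩ := jensen hSm hS1 (by positivity) hSint
  refine ⟨fun ω => s * Real.log (S ω), hint.const_mul s, fun ω i hi => ?_, ?_⟩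
  · have h1 := hterm ω i (Finset.mem_range.mpr hi)
    have h2 : Real.exp (|X i ω| / s) ≤ S ω := by
      refine le_trans ?_ h1
      rcases abs_cases (X i ω) with ⟨h, _⟩ | ⟨h, _⟩ <;> rw [h]
      · linarith [Real.exp_pos (-(X i ω / s))]
      · rw [neg_div]
        linarith [Real.exp_pos (X i ω / s)]
    have h3 : |X i ω| / s ≤ Real.log (S ω) :=
      (Real.le_log_iff_exp_le (lt_of_lt_of_le one_pos (hS1 ω))).mpr h2
    rw [div_le_iff₀ hs0] at h3
    change |X i ω| ≤ s * Real.log (S ω)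
    linarith
  · rw [integral_const_mul]
    have h1 : Real.log (m * (2 * Real.exp C)) = Real.log m + (Real.log 2 + C) := by
      rw [Real.log_mul hm0.ne' (by positivity), Real.log_mul two_ne_zero (Real.exp_pos _).ne',
        Real.log_exp]
    rw [h1] at hle
    have h2 : Real.log 2 ≤ 1 := by
      have := Real.log_two_lt_d9
      linarith
    have h3 : 0 ≤ Real.log m := Real.log_nonneg (by exact_mod_cast hm)
    have h4 : Real.log m + (Real.log 2 + C) ≤ (1 + C) * (1 + Real.log m) := by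
      nlinarith [mul_nonneg hC h3]
    calc s * ∫ ω, Real.log (S ω) ∂seqLaw μ ≤ s * ((1 + C) * (1 + Real.log m)) :=
          mul_le_mul_of_nonneg_left (hle.trans h4) hs0.le
      _ = (1 + C) * s * (1 + Real.log m) := by ring

open MaxE in
theorem max_abs {μ : Measure ℝ} [IsProbabilityMeasure μ] (hexp : ExpMom μ) (R : ℕ) :
    ∃ A : ℝ, 0 < A ∧ ∀ m : ℕ, 1 ≤ m → ∃ g : (ℕ → ℝ) → ℝ, Integrable g (seqLaw μ) ∧
      (∀ ω, ∀ i < m, ∑ k ∈ Finset.range R, |ω (i + k)| ≤ g ω) ∧
      ∫ ω, g ω ∂seqLaw μ ≤ A * (1 + Real.log m) := by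
  have hex : Integrable (fun x => Real.exp |x|) μ := by
    have := hexp.abs 1
    simpa using this
  set K : ℝ := ∫ x, Real.exp |x| ∂μ with hK
  have hK1 : 1 ≤ K := by
    have h1 : ∫ _x : ℝ, (1 : ℝ) ∂μ ≤ ∫ x, Real.exp |x| ∂μ :=
      integral_mono (integrable_const _) hex fun x => by
        have := Real.add_one_le_exp |x|
        have := abs_nonneg x
        dsimp only
        linarith
    simpa using h1
  have hKl : ∫⁻ x, ENNReal.ofReal (Real.exp |x|) ∂μ = ENNReal.ofReal K :=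
    (ofReal_integral_eq_lintegral_ofReal hex (ae_of_all _ fun x => (Real.exp_pos _).le)).symm
  have hlK : 0 ≤ Real.log (K ^ R) := Real.log_nonneg (one_le_pow₀ hK1)
  refine ⟨1 + Real.log (K ^ R), by linarith, fun m hm => ?_⟩
  have hm0 : (0 : ℝ) < m := by exact_mod_cast hm
  let S : (ℕ → ℝ) → ℝ := fun ω =>
    ∑ i ∈ Finset.range m, Real.exp (∑ k ∈ Finset.range R, |ω (i + k)|)
  have hterm : ∀ ω, ∀ i ∈ Finset.range m,
      Real.exp (∑ k ∈ Finset.range R, |ω (i + k)|) ≤ S ω := by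
    intro ω i hi
    exact Finset.single_le_sum
      (f := fun i => Real.exp (∑ k ∈ Finset.range R, |ω (i + k)|))
      (fun _ _ => by positivity) hi
  have hS1 : ∀ ω, 1 ≤ S ω := by
    intro ω
    refine le_trans ?_ (hterm ω 0 (Finset.mem_range.mpr hm))
    exact Real.one_le_exp (Finset.sum_nonneg fun _ _ => abs_nonneg _)
  have hSm : Measurable S := by
    apply Finset.measurable_fun_sum
    intro i _
    fun_prop
  have hone : ∀ i ∈ Finset.range m, ∫⁻ ω, ENNReal.ofReal
      (Real.exp (∑ k ∈ Finset.range R, |ω (i + k)|)) ∂seqLaw μ ≤ ENNReal.ofReal (K ^ R) := by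
    intro i _
    have h1 := abs_le' (μ := μ) R
    rw [hKl, ← ENNReal.ofReal_pow (by linarith)] at h1
    refine le_trans (le_of_eq ?_) h1
    rw [← lintegral_shift μ i (Y := fun ω => ENNReal.ofReal
      (Real.exp (∑ k ∈ Finset.range R, |ω k|))) (by fun_prop)]
    simp only [shift_apply, add_comm]
  have hSint : ∫⁻ ω, ENNReal.ofReal (S ω) ∂seqLaw μ ≤ ENNReal.ofReal (m * K ^ R) := by
    have h1 : ∀ ω, ENNReal.ofReal (S ω) = ∑ i ∈ Finset.range m,
        ENNReal.ofReal (Real.exp (∑ k ∈ Finset.range R, |ω (i + k)|)) := fun ω =>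
      ENNReal.ofReal_sum_of_nonneg fun i _ => by positivity
    simp_rw [h1]
    rw [lintegral_finsetSum _ (fun i _ => by fun_prop)]
    calc ∑ i ∈ Finset.range m, ∫⁻ ω, ENNReal.ofReal
          (Real.exp (∑ k ∈ Finset.range R, |ω (i + k)|)) ∂seqLaw μ
        ≤ ∑ _i ∈ Finset.range m, ENNReal.ofReal (K ^ R) := Finset.sum_le_sum hone
      _ = ENNReal.ofReal (m * K ^ R) := by
          rw [Finset.sum_const, Finset.card_range, nsmul_eq_mul,
            ENNReal.ofReal_mul hm0.le, ENNReal.ofReal_natCast]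
  have hKR : 0 < K ^ R := by positivity
  obtain ⟨hint, hle⟩ := jensen hSm hS1 (by positivity) hSint
  refine ⟨fun ω => Real.log (S ω), hint, fun ω i hi => ?_, ?_⟩
  · exact (Real.le_log_iff_exp_le (lt_of_lt_of_le one_pos (hS1 ω))).mpr
      (hterm ω i (Finset.mem_range.mpr hi))
  · rw [Real.log_mul hm0.ne' hKR.ne'] at hle
    have h3 : 0 ≤ Real.log m := Real.log_nonneg (by exact_mod_cast hm)
    nlinarith [mul_nonneg hlK h3]

end

end MP_daa227_pr
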