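import Pool.Agent.Lib.MP_daa227_pr.SmDefs

/-!
# Closure properties of finite sums of exponentials of linear forms
-/

open MeasureTheory ProbabilityTheory Set Filter
open scoped ENNReal Topology

namespace MP_daa227_pr

noncomputable section

/-- An arbitrary finite index type. -/
theorem ExpSum.of_fintype {ι : Type*} [Fintype ι] {Φ : ℝ} {n : ℕ} {F : (ℕ → ℝ) → ℝ} (a : ι → ℝ)
    (ψ : ι → ℕ → ℝ) (ha : ∀ i, 0 ≤ a i) (hψ : ∀ i k, 0 ≤ ψ i k ∧ ψ i k ≤ Φ)
    (hF : ∀ u, F u = ∑ i, a i * Real.exp (∑ k ∈ Finset.range n, u k * ψ i k)) :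
    ExpSum Φ n F := by
  refine ⟨Fintype.card ι, fun i => a ((Fintype.equivFin ι).symm i),
    fun i => ψ ((Fintype.equivFin ι).symm i), fun i => ha _, fun i k => hψ _ k, fun u => ?_⟩
  rw [hF u]
  exact ((Fintype.equivFin ι).symm.sum_comp
    (fun i => a i * Real.exp (∑ k ∈ Finset.range n, u k * ψ i k))).symm

theorem ExpSum.congr {Φ : ℝ} {n : ℕ} {F G : (ℕ → ℝ) → ℝ} (h : ExpSum Φ n F)
    (e : ∀ u, G u = F u) : ExpSum Φ n G := by
  have : G = F := funext e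
  rw [this]; exact h

theorem ExpSum.const {Φ c : ℝ} (hΦ : 0 ≤ Φ) (hc : 0 ≤ c) (n : ℕ) : ExpSum Φ n (fun _ => c) := by
  refine ExpSum.of_fintype (ι := Unit) (fun _ => c) (fun _ _ => 0) (fun _ => hc)
    (fun _ _ => ⟨le_rfl, hΦ⟩) (fun u => ?_)
  simp

theorem ExpSum.add {Φ : ℝ} {n : ℕ} {F G : (ℕ → ℝ) → ℝ} (hF : ExpSum Φ n F)
    (hG : ExpSum Φ n G) : ExpSum Φ n (fun u => F u + G u) := by
  obtain ⟨m, a, ψ, ha, hψ, hF⟩ := hF
  obtain ⟨m', a', ψ', ha', hψ', hG⟩ := hG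
  refine ExpSum.of_fintype (ι := Fin m ⊕ Fin m') (Sum.elim a a') (Sum.elim ψ ψ') ?_ ?_ ?_
  · rintro (i | i)
    · exact ha i
    · exact ha' i
  · rintro (i | i) k
    · exact hψ i k
    · exact hψ' i k
  · intro u
    rw [hF u, hG u, Fintype.sum_sum_type]
    rfl

theorem ExpSum.sum {ι : Type*} {Φ : ℝ} {n : ℕ} (s : Finset ι) {F : ι → (ℕ → ℝ) → ℝ} (hΦ : 0 ≤ Φ)
    (hF : ∀ i ∈ s, ExpSum Φ n (F i)) : ExpSum Φ n (fun u => ∑ i ∈ s, F i u) := by
  classical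
  induction s using Finset.induction_on with
  | empty => simpa using ExpSum.const hΦ le_rfl n
  | insert a s ha ih =>
    have h1 := (hF a (Finset.mem_insert_self a s)).add
      (ih (fun i hi => hF i (Finset.mem_insert_of_mem hi)))
    exact h1.congr (fun u => by rw [Finset.sum_insert ha])

theorem ExpSum.mul_shift {Φ : ℝ} {k l : ℕ} {F G : (ℕ → ℝ) → ℝ} (hF : ExpSum Φ k F)
    (hG : ExpSum Φ l G) : ExpSum Φ (k + l) (fun u => F u * G (shift k u)) := by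
  obtain ⟨m, a, ψ, ha, hψ, hF⟩ := hF
  obtain ⟨m', a', ψ', ha', hψ', hG⟩ := hG
  refine ExpSum.of_fintype (ι := Fin m × Fin m') (fun p => a p.1 * a' p.2)
    (fun p i => if i < k then ψ p.1 i else ψ' p.2 (i - k)) ?_ ?_ ?_
  · intro p
    exact mul_nonneg (ha _) (ha' _)
  · intro p i
    by_cases hi : i < k
    · simp only [if_pos hi]
      exact hψ _ _
    · simp only [if_neg hi]
      exact hψ' _ _
  · intro u
    rw [hF u, hG (shift k u), Finset.sum_mul_sum, Fintype.sum_prod_type]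
    refine Finset.sum_congr rfl fun i _ => Finset.sum_congr rfl fun j _ => ?_
    rw [Finset.sum_range_add, Real.exp_add]
    have h1 : ∑ x ∈ Finset.range k, u x * (if x < k then ψ i x else ψ' j (x - k)) =
        ∑ x ∈ Finset.range k, u x * ψ i x := by
      refine Finset.sum_congr rfl fun x hx => ?_
      rw [if_pos (Finset.mem_range.1 hx)]
    have h2 : ∑ x ∈ Finset.range l, u (k + x) *
        (if k + x < k then ψ i (k + x) else ψ' j (k + x - k)) =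
        ∑ x ∈ Finset.range l, shift k u x * ψ' j x := by
      refine Finset.sum_congr rfl fun x hx => ?_
      rw [if_neg (by omega), Nat.add_sub_cancel_left, shift_apply, Nat.add_comm k x]
    rw [h1, h2]
    ring

theorem ExpSum.mono {Φ : ℝ} {n n' : ℕ} (hΦ : 0 ≤ Φ) {F : (ℕ → ℝ) → ℝ} (hF : ExpSum Φ n F)
    (h : n ≤ n') : ExpSum Φ n' F := by
  have h1 := hF.mul_shift (ExpSum.const hΦ zero_le_one (n' - n))
  rw [show n + (n' - n) = n' by omega] at h1
  exact h1.congr (fun u => (mul_one _).symm)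

theorem ExpSum.site {φ : ℤ → ℝ} {Φ c : ℝ} (hφ : ∀ x, 0 ≤ φ x ∧ φ x ≤ Φ) (hc : 0 ≤ c) (z : ℤ) :
    ExpSum Φ 1 (fun u => c * Wu φ (u 0) z) := by
  refine ExpSum.of_fintype (ι := Unit) (fun _ => c) (fun _ _ => φ z) (fun _ => hc)
    (fun _ _ => hφ z) (fun u => ?_)
  simp [Wu]

theorem expSum_Zk (C : Chain) {φ : ℤ → ℝ} {Φ : ℝ} (hφ : ∀ x, 0 ≤ φ x ∧ φ x ≤ Φ) (n : ℕ) (x y : ℤ) :
    ExpSum Φ n (fun u => Zk C (Wu φ) n u x y) := by
  have hΦ : 0 ≤ Φ := (hφ 0).1.trans (hφ 0).2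
  induction n generalizing x with
  | zero =>
    simp only [Zk]
    split_ifs
    · exact ExpSum.const hΦ zero_le_one _
    · exact ExpSum.const hΦ le_rfl _
  | succ n ih =>
    simp only [Zk]
    refine ExpSum.sum _ hΦ fun z _ => ?_
    have h1 := (ExpSum.site hφ (C.nonneg x z) z).mul_shift (ih z)
    rw [Nat.add_comm n 1]
    exact h1

theorem expSum_Gk (C : Chain) {φ : ℤ → ℝ} {Φ : ℝ} (hφ : ∀ x, 0 ≤ φ x ∧ φ x ≤ Φ) (B : Finset ℤ)
    (n : ℕ) (x y : ℤ) : ExpSum Φ n (fun u => Gk C (Wu φ) B n u x y) := by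
  have hΦ : 0 ≤ Φ := (hφ 0).1.trans (hφ 0).2
  induction n generalizing x with
  | zero =>
    simp only [Gk]
    exact ExpSum.const hΦ le_rfl _
  | succ n ih =>
    simp only [Gk]
    refine ExpSum.add ?_ (ExpSum.sum _ hΦ fun z _ => ?_)
    · split_ifs
      · exact (ExpSum.site hφ (C.nonneg x y) y).mono hΦ (by omega)
      · exact ExpSum.const hΦ le_rfl _
    · have h1 := (ExpSum.site hφ (C.nonneg x z) z).mul_shift (ih z)
      rw [Nat.add_comm n 1]
      exact h1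

theorem expSum_SB (C : Chain) {φ : ℤ → ℝ} {Φ : ℝ} (hφ : ∀ x, 0 ≤ φ x ∧ φ x ≤ Φ) (R n : ℕ) :
    ExpSum Φ n (fun u => SB C φ R n u) := by
  have hΦ : 0 ≤ Φ := (hφ 0).1.trans (hφ 0).2
  unfold SB
  refine ExpSum.sum _ hΦ fun i _ => ExpSum.sum _ hΦ fun j hj => ExpSum.sum _ hΦ fun x _ =>
    ExpSum.sum _ hΦ fun y _ => ?_
  rw [Finset.mem_Icc] at hj
  have h1 := (ExpSum.const hΦ zero_le_one i).mul_shift (expSum_Zk C hφ (j - i) x y)
  exact (h1.mono hΦ (by omega)).congr (fun u => (one_mul _).symm)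

theorem Zk_Wu (C : Chain) (φ : ℤ → ℝ) (β h : ℝ) (n : ℕ) (ω : ℕ → ℝ) (x y : ℤ) :
    Zk C (fun a z => Real.exp ((β * a - h) * φ z)) n ω x y =
      Zk C (Wu φ) n (fun k => β * ω k - h) x y := by
  induction n generalizing ω x with
  | zero => rfl
  | succ n ih =>
    simp only [Zk]
    refine Finset.sum_congr rfl fun z _ => ?_
    rw [ih]
    rfl

end

end MP_daa227_pr
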