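import Pool.Agent.Lib.MP_daa227_pr.SmDefs
import Pool.Agent.Lib.MP_daa227_pr.ExpS

/-!
# Strategy lower bound from the escape exponent
-/

open MeasureTheory ProbabilityTheory Set Filter
open scoped ENNReal Topology

namespace MP_daa227_pr

noncomputable section

lemma strat_congr (C : Chain) {W W' : ℝ → ℤ → ℝ} : ∀ (n : ℕ) (ω ω' : ℕ → ℝ) (x y : ℤ),
    (∀ k z, W (ω k) z = W' (ω' k) z) → Zk C W n ω x y = Zk C W' n ω' x y := by
  intro n
  induction n with
  | zero => intro ω ω' x y _; simp only [Zk]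
  | succ n ih =>
    intro ω ω' x y h
    simp only [Zk]
    refine Finset.sum_congr rfl fun z _ => ?_
    rw [h 0 z, ih (shift 1 ω) (shift 1 ω') z y fun k z => h (k + 1) z]

lemma strat_le_one (C : Chain) {W : ℝ → ℤ → ℝ} (h0 : ∀ a z, 0 ≤ W a z) : ∀ (n : ℕ) (ω : ℕ → ℝ)
    (x y : ℤ), (∀ k z, W (ω k) z ≤ 1) → 0 ≤ Zk C W n ω x y ∧ Zk C W n ω x y ≤ 1 := by
  intro n
  induction n with
  | zero =>
    intro ω x y _
    simp only [Zk]
    split_ifs <;> norm_num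
  | succ n ih =>
    intro ω x y h
    simp only [Zk]
    have h1 : ∀ z, 0 ≤ Zk C W n (shift 1 ω) z y ∧ Zk C W n (shift 1 ω) z y ≤ 1 := fun z =>
      ih (shift 1 ω) z y fun k z => h (k + 1) z
    refine ⟨Finset.sum_nonneg fun z _ => mul_nonneg (mul_nonneg (C.nonneg x z) (h0 _ z)) (h1 z).1,
      ?_⟩
    calc ∑ z ∈ Finset.Icc (x - 1) (x + 1), C.p x z * W (ω 0) z * Zk C W n (shift 1 ω) z y
        ≤ ∑ z ∈ Finset.Icc (x - 1) (x + 1), C.p x z := by
          refine Finset.sum_le_sum fun z _ => ?_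
          have h2 : W (ω 0) z * Zk C W n (shift 1 ω) z y ≤ 1 :=
            mul_le_one₀ (h 0 z) (h1 z).1 (h1 z).2
          rw [mul_assoc]
          exact mul_le_of_le_one_right (C.nonneg x z) h2
      _ = 1 := C.sum_one x

theorem strategy (C : Chain) {φ : ℤ → ℝ} {Φ ξ : ℝ} (hφ : ∀ x, 0 ≤ φ x ∧ φ x ≤ Φ)
    (h : Escape C φ ξ) : ∃ A : ℝ, 0 < A ∧ ∀ n : ℕ, Even n → ∃ b : ℕ → ℝ, (∀ k, 0 ≤ b k ∧ b k ≤ Φ) ∧
      ∑ k ∈ Finset.range n, b k ≤ A * ((n : ℝ) ^ ξ + 1) ∧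
      ∀ u : ℕ → ℝ, Real.exp (-(A * ((n : ℝ) ^ ξ + 1)) + ∑ k ∈ Finset.range n, u k * b k) ≤
        Zk C (Wu φ) n u 0 0 := by
  obtain ⟨η, hη, A, hA, hesc⟩ := h
  have hΦ : 0 ≤ Φ := (hφ 0).1.trans (hφ 0).2
  refine ⟨max A (A / η), lt_max_of_lt_left hA, fun n hn => ?_⟩
  obtain ⟨m, a, ψ, ha, hψ, hF0⟩ := expSum_Zk C hφ n 0 0
  have hF : ∀ u, Zk C (Wu φ) n u 0 0 =
      ∑ i, a i * Real.exp (∑ k ∈ Finset.range n, u k * ψ i k) := hF0
  have hX : 0 ≤ (n : ℝ) ^ ξ + 1 := by positivity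
  set V : ℝ := Zk C (Wdet η φ) n (fun _ => 0) 0 0 with hV
  have hVlow : Real.exp (-(A * ((n : ℝ) ^ ξ + 1))) ≤ V := hesc n hn
  have hVpos : 0 < V := (Real.exp_pos _).trans_le hVlow
  have hVeq : V = ∑ i, a i * Real.exp (∑ k ∈ Finset.range n, (-η) * ψ i k) := by
    rw [← hF (fun _ => -η)]
    refine strat_congr C n _ _ 0 0 fun k z => ?_
    simp only [Wdet, Wu]
  -- the tilted weights
  set p : Fin m → ℝ := fun i => a i * Real.exp (∑ k ∈ Finset.range n, (-η) * ψ i k) / V with hp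
  have hp0 : ∀ i, 0 ≤ p i := fun i => div_nonneg (mul_nonneg (ha i) (Real.exp_pos _).le) hVpos.le
  have hp1 : ∑ i, p i = 1 := by
    rw [hp]
    simp only
    rw [← Finset.sum_div, ← hVeq, div_self hVpos.ne']
  set b : ℕ → ℝ := fun k => ∑ i, p i * ψ i k with hb
  have hb0 : ∀ k, 0 ≤ b k := fun k => Finset.sum_nonneg fun i _ => mul_nonneg (hp0 i) (hψ i k).1
  have hb1 : ∀ k, b k ≤ Φ := fun k => by
    calc b k ≤ ∑ i, p i * Φ := Finset.sum_le_sum fun i _ =>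
          mul_le_mul_of_nonneg_left (hψ i k).2 (hp0 i)
      _ = Φ := by rw [← Finset.sum_mul, hp1, one_mul]
  -- Jensen
  have hJ : ∀ u : ℕ → ℝ, V * Real.exp (∑ k ∈ Finset.range n, (u k + η) * b k) ≤
      Zk C (Wu φ) n u 0 0 := by
    intro u
    have h1 : Zk C (Wu φ) n u 0 0 =
        V * ∑ i, p i * Real.exp (∑ k ∈ Finset.range n, (u k + η) * ψ i k) := by
      rw [hF u, Finset.mul_sum]
      refine Finset.sum_congr rfl fun i _ => ?_
      rw [hp]
      simp only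
      have h2 : ∑ k ∈ Finset.range n, u k * ψ i k =
          ∑ k ∈ Finset.range n, (-η) * ψ i k + ∑ k ∈ Finset.range n, (u k + η) * ψ i k := by
        rw [← Finset.sum_add_distrib]
        exact Finset.sum_congr rfl fun k _ => by ring
      rw [h2, Real.exp_add]
      field_simp
    have h3 : Real.exp (∑ i, p i • ∑ k ∈ Finset.range n, (u k + η) * ψ i k) ≤
        ∑ i, p i • Real.exp (∑ k ∈ Finset.range n, (u k + η) * ψ i k) :=
      convexOn_exp.map_sum_le (fun i _ => hp0 i) hp1 (fun i _ => mem_univ _)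
    have h4 : ∑ i, p i • ∑ k ∈ Finset.range n, (u k + η) * ψ i k =
        ∑ k ∈ Finset.range n, (u k + η) * b k := by
      simp only [smul_eq_mul, hb, Finset.mul_sum]
      rw [Finset.sum_comm]
      refine Finset.sum_congr rfl fun k _ => Finset.sum_congr rfl fun i _ => by ring
    rw [h1]
    refine mul_le_mul_of_nonneg_left ?_ hVpos.le
    rw [← h4]
    exact h3
  refine ⟨b, fun k => ⟨hb0 k, hb1 k⟩, ?_, ?_⟩
  · have h1 := hJ (fun _ => 0)
    have h2 : Zk C (Wu φ) n (fun _ => 0) 0 0 ≤ 1 :=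
      (strat_le_one C (fun a z => (Real.exp_pos _).le) n (fun _ => 0) 0 0 fun k z => by
        rw [zero_mul, Real.exp_zero]).2
    have h3 : ∑ k ∈ Finset.range n, ((0 : ℝ) + η) * b k = η * ∑ k ∈ Finset.range n, b k := by
      rw [zero_add, Finset.mul_sum]
    rw [h3] at h1
    have h4 : Real.exp (-(A * ((n : ℝ) ^ ξ + 1)) + η * ∑ k ∈ Finset.range n, b k) ≤ 1 := by
      rw [Real.exp_add]
      exact (mul_le_mul_of_nonneg_right hVlow (Real.exp_pos _).le).trans (h1.trans h2)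
    rw [Real.exp_le_one_iff] at h4
    have h5 : ∑ k ∈ Finset.range n, b k ≤ A / η * ((n : ℝ) ^ ξ + 1) := by
      rw [div_mul_eq_mul_div, le_div_iff₀ hη]
      linarith
    exact h5.trans (mul_le_mul_of_nonneg_right (le_max_right _ _) hX)
  · intro u
    refine le_trans ?_ (hJ u)
    have h1 : 0 ≤ η * ∑ k ∈ Finset.range n, b k :=
      mul_nonneg hη.le (Finset.sum_nonneg fun k _ => hb0 k)
    have h2 : ∑ k ∈ Finset.range n, (u k + η) * b k =
        ∑ k ∈ Finset.range n, u k * b k + η * ∑ k ∈ Finset.range n, b k := by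
      rw [Finset.mul_sum, ← Finset.sum_add_distrib]
      exact Finset.sum_congr rfl fun k _ => by ring
    have h3 : -(max A (A / η) * ((n : ℝ) ^ ξ + 1)) ≤ -(A * ((n : ℝ) ^ ξ + 1)) :=
      neg_le_neg (mul_le_mul_of_nonneg_right (le_max_left _ _) hX)
    rw [Real.exp_add]
    refine mul_le_mul ((Real.exp_le_exp.mpr h3).trans hVlow) ?_ (Real.exp_pos _).le hVpos.le
    rw [Real.exp_le_exp, h2]
    linarith

end

end MP_daa227_pr
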