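import Pool.Agent.Lib.MP_daa227_pr.Block
import Pool.Agent.Lib.MP_daa227_pr.Crit
import Pool.Agent.Lib.MP_daa227_pr.Strat
import Pool.Agent.Lib.MP_daa227_pr.MaxE

/-!
# The block sums at the critical point
-/

open MeasureTheory ProbabilityTheory Set Filter
open scoped ENNReal Topology

namespace MP_daa227_pr

noncomputable section

lemma Zk_to_zero_pos {C : Chain} {W : ℝ → ℤ → ℝ} (hW : ∀ a z, 0 < W a z) (ω : ℕ → ℝ) (x : ℤ) :
    0 < Zk C W x.natAbs ω x 0 := by
  rcases le_or_gt 0 x with h | h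
  · have := Zk_down_pos (C := C) hW ω x x.natAbs
    rw [show x - (x.natAbs : ℤ) = 0 by omega] at this
    exact this
  · have := Zk_up_pos (C := C) hW ω x x.natAbs
    rw [show x + (x.natAbs : ℤ) = 0 by omega] at this
    exact this

namespace Model

variable (M : Model)

/-- Straight paths. -/
lemma path_lower (h : ℝ) (R : ℕ) : ∃ Cp : ℝ, 0 ≤ Cp ∧ ∀ x ∈ Finset.Icc (-(R : ℤ)) R, ∀ ω : ℕ → ℝ,
    Real.exp (-(Cp + M.κ * ∑ k ∈ Finset.range R, |ω k|)) ≤ M.Z h x.natAbs ω 0 x ∧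
    Real.exp (-(Cp + M.κ * ∑ k ∈ Finset.range R, |ω k|)) ≤ M.Z h x.natAbs ω x 0 := by
  obtain ⟨c, hc, hmin⟩ := finset_pos_min (Finset.Icc (-(R : ℤ)) R)
    (fun x c => c ≤ M.Z h x.natAbs (fun _ => 0) 0 x ∧ c ≤ M.Z h x.natAbs (fun _ => 0) x 0)
    (fun x c c' _ h1 h2 => ⟨h1.trans h2.1, h1.trans h2.2⟩)
    (fun x _ => ⟨min (M.Z h x.natAbs (fun _ => 0) 0 x) (M.Z h x.natAbs (fun _ => 0) x 0),
      lt_min (Zk_from_zero_pos (M.W_pos h) _ x) (Zk_to_zero_pos (M.W_pos h) _ x),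
      min_le_left _ _, min_le_right _ _⟩)
  refine ⟨max 0 (-Real.log c), le_max_left _ _, fun x hx ω => ?_⟩
  have hxR : x.natAbs ≤ R := by rw [Finset.mem_Icc] at hx; omega
  have key : ∀ F : (ℕ → ℝ) → ℝ, Good x.natAbs M.κ F → c ≤ F (fun _ => 0) →
      Real.exp (-(max 0 (-Real.log c) + M.κ * ∑ k ∈ Finset.range R, |ω k|)) ≤ F ω := by
    intro F hF hc1
    have h1 := hF.ratio (fun _ => 0) ω
    have h2 : Real.exp (M.κ * ∑ i ∈ Finset.range x.natAbs, |(0 : ℝ) - ω i|) ≤
        Real.exp (M.κ * ∑ k ∈ Finset.range R, |ω k|) := by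
      apply Real.exp_le_exp.2
      apply mul_le_mul_of_nonneg_left _ M.κ_pos.le
      refine le_trans (le_of_eq (Finset.sum_congr rfl fun i _ => by rw [zero_sub, abs_neg])) ?_
      exact Finset.sum_le_sum_of_subset_of_nonneg (Finset.range_mono hxR) (fun _ _ _ => abs_nonneg _)
    have h3 : c ≤ Real.exp (M.κ * ∑ k ∈ Finset.range R, |ω k|) * F ω :=
      hc1.trans (h1.trans (mul_le_mul_of_nonneg_right h2 (hF.nonneg ω)))
    rw [neg_add, Real.exp_add, Real.exp_neg (M.κ * _)]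
    rw [← div_eq_mul_inv, div_le_iff₀ (Real.exp_pos _), mul_comm (F ω)]
    refine le_trans ?_ h3
    rw [← Real.le_log_iff_exp_le hc]
    have := le_max_right 0 (-Real.log c)
    linarith
  exact ⟨key _ (M.good_Z h _ 0 x) (hmin x hx).1, key _ (M.good_Z h _ x 0) (hmin x hx).2⟩

/-- Escape strategies for the model. -/
lemma gap_lower {ξ : ℝ} (hesc : Escape M.C M.φ ξ) (h : ℝ) : ∃ A : ℝ, 0 < A ∧ ∀ l : ℕ, ∃ b : ℕ → ℝ,
    (∀ k, 0 ≤ b k ∧ b k ≤ M.Φ) ∧ ∑ k ∈ Finset.range l, b k ≤ A * ((l : ℝ) ^ ξ + 1) ∧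
    (Even l → ∀ ω : ℕ → ℝ, Real.exp (-(A * ((l : ℝ) ^ ξ + 1)) + M.β * ∑ k ∈ Finset.range l, b k * ω k) ≤
      M.Z h l ω 0 0) := by
  obtain ⟨A, hA, hstr⟩ := strategy M.C (Φ := M.Φ) (fun x => ⟨(M.φ_pos x).le, M.φ_le x⟩) hesc
  refine ⟨A * (1 + |h|), by positivity, fun l => ?_⟩
  have hl0 : 0 ≤ (l : ℝ) ^ ξ + 1 := by positivity
  have hA' : A ≤ A * (1 + |h|) := by
    have := abs_nonneg h
    nlinarith
  by_cases hl : Even l
  · obtain ⟨b, hb, hbs, hZ⟩ := hstr l hl
    refine ⟨b, hb, hbs.trans (mul_le_mul_of_nonneg_right hA' hl0), fun _ ω => ?_⟩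
    have h1 := hZ (fun k => M.β * ω k - h)
    rw [← Zk_Wu_aux M.C M.φ M.β h l ω 0 0] at h1
    refine le_trans ?_ h1
    apply Real.exp_le_exp.2
    have h2 : ∑ k ∈ Finset.range l, (M.β * ω k - h) * b k =
        M.β * ∑ k ∈ Finset.range l, b k * ω k - h * ∑ k ∈ Finset.range l, b k := by
      rw [Finset.mul_sum, Finset.mul_sum, ← Finset.sum_sub_distrib]
      apply Finset.sum_congr rfl
      intro k _
      ring
    rw [h2]
    have h3 : 0 ≤ ∑ k ∈ Finset.range l, b k := Finset.sum_nonneg fun k _ => (hb k).1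
    have h4 : h * ∑ k ∈ Finset.range l, b k ≤ |h| * (A * ((l : ℝ) ^ ξ + 1)) :=
      mul_le_mul (le_abs_self h) hbs h3 (abs_nonneg h)
    nlinarith
  · refine ⟨fun _ => 0, fun k => ⟨le_rfl, M.Φ_pos.le⟩, ?_, fun h' => absurd h' hl⟩
    simp only [Finset.sum_const_zero]
    positivity

end Model

theorem block_crit (M : Model) (hnl : ∀ x, M.C.p x x = 0) {ξ : ℝ} (hξ : 0 ≤ ξ)
    (hesc : Escape M.C M.φ ξ) {hc : ℝ} (hF : M.Fr hc ≤ 0) (R : ℕ) : ∃ A : ℝ, 0 < A ∧
      ∀ n : ℕ, Even n → ∫ ω, Real.log (SB M.C M.φ R n (fun k => M.β * ω k - hc)) ∂seqLaw M.μ ≤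
        A * ((n : ℝ) ^ ξ + 1) * (1 + Real.log (n + 1)) := by
  obtain ⟨Cp, hCp, hpath⟩ := M.path_lower hc R
  obtain ⟨A, hA, hgapex⟩ := M.gap_lower hesc hc
  choose b hb hbs hbZ using hgapex
  obtain ⟨A₁, hA₁, hlin⟩ := max_lin M.exp_mom M.mean M.Φ_pos.le
  obtain ⟨A₃, hA₃, habs⟩ := max_abs M.exp_mom (μ := M.μ) R
  have hΦ := M.Φ_pos
  have hκ := M.κ_pos
  have hβ := M.β_pos
  set c₁ : ℝ := (4 * (R : ℝ) + 1) ^ ξ + 1 with hc₁
  set c₂ : ℝ := 1 + Real.log (4 * (R : ℝ) + 1) with hc₂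
  have hR0 : (0 : ℝ) ≤ R := Nat.cast_nonneg R
  have hc₁0 : 1 ≤ c₁ := by
    rw [hc₁]
    have : 0 ≤ (4 * (R : ℝ) + 1) ^ ξ := by positivity
    linarith
  have hc₂0 : 1 ≤ c₂ := by
    rw [hc₂]
    have : 0 ≤ Real.log (4 * (R : ℝ) + 1) := Real.log_nonneg (by linarith)
    linarith
  have hlogR : 0 ≤ Real.log (2 * (R : ℝ) + 1) := Real.log_nonneg (by linarith)
  refine ⟨2 + 2 * Real.log (2 * (R : ℝ) + 1) + 2 * Cp + 2 * A * c₁ + 2 * M.κ * A₃ * c₂ +
    2 * M.β * A₁ * (1 + M.Φ * A) * c₁ * c₂, by positivity, fun n hn => ?_⟩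
  set N := n + 4 * R with hN
  have hNe : Even N := by
    rw [hN]
    exact hn.add ⟨2 * R, by ring⟩
  set P : ℝ := (N : ℝ) ^ ξ + 1 with hP
  set s : ℝ := 1 + M.Φ * A * P with hs
  have hP0 : 0 ≤ P := by positivity
  have hs1 : 1 ≤ s := by
    rw [hs]
    have : 0 ≤ M.Φ * A * P := by positivity
    linarith
  have hss : s ≤ s ^ 2 := by nlinarith
  have hmono : ∀ l : ℕ, l ≤ N → (l : ℝ) ^ ξ + 1 ≤ P := by
    intro l hl
    rw [hP]
    have : (l : ℝ) ^ ξ ≤ (N : ℝ) ^ ξ := Real.rpow_le_rpow (Nat.cast_nonneg _) (by exact_mod_cast hl) hξ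
    linarith
  -- squares
  have hsq : ∀ l : ℕ, l ≤ N → ∑ k ∈ Finset.range l, b l k ^ 2 ≤ s ^ 2 := by
    intro l hl
    calc ∑ k ∈ Finset.range l, b l k ^ 2 ≤ ∑ k ∈ Finset.range l, M.Φ * b l k := by
          apply Finset.sum_le_sum
          intro k _
          rw [sq]
          exact mul_le_mul_of_nonneg_right (hb l k).2 (hb l k).1
      _ = M.Φ * ∑ k ∈ Finset.range l, b l k := by rw [Finset.mul_sum]
      _ ≤ M.Φ * (A * ((l : ℝ) ^ ξ + 1)) := mul_le_mul_of_nonneg_left (hbs l) hΦ.le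
      _ ≤ M.Φ * (A * P) := by
          apply mul_le_mul_of_nonneg_left _ hΦ.le
          exact mul_le_mul_of_nonneg_left (hmono l hl) hA.le
      _ ≤ s := by rw [hs]; linarith
      _ ≤ s ^ 2 := hss
  -- the two families of linear forms
  have hs1eq : ∀ (l : ℕ) (f : ℕ → ℝ), l ≤ N → ∑ k ∈ Finset.range N, (if k < l then f k else 0) =
      ∑ k ∈ Finset.range l, f k := by
    intro l f hl
    rw [← Finset.sum_filter]
    apply Finset.sum_congr _ (fun _ _ => rfl)
    ext k; simp only [Finset.mem_filter, Finset.mem_range]; omega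
  have hs2eq : ∀ (l : ℕ) (f : ℕ → ℝ), l ≤ N → ∑ k ∈ Finset.range N, (if l ≤ k then f (k - l) else 0) =
      ∑ k ∈ Finset.range (N - l), f k := by
    intro l f hl
    rw [← Finset.sum_filter]
    have h1 : (Finset.range N).filter (fun k => l ≤ k) = (Finset.range (N - l)).map (addRightEmbedding l) := by
      ext k
      simp only [Finset.mem_filter, Finset.mem_range, Finset.mem_map, addRightEmbedding_apply]
      constructor
      · rintro ⟨h1, h2⟩
        exact ⟨k - l, by omega, by omega⟩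
      · rintro ⟨a, h1, rfl⟩
        omega
    rw [h1, Finset.sum_map]
    apply Finset.sum_congr rfl
    intro k _
    simp
  obtain ⟨g₁, hg₁i, hg₁, hg₁m⟩ := hlin s hs1 (N + 1) (by omega) N (fun i k => if k < i then b i k else 0)
    (by
      intro i _ k
      split_ifs
      · rw [abs_of_nonneg (hb i k).1]; exact (hb i k).2
      · simpa using hΦ.le)
    (by
      intro i hi
      have h1 : ∀ k, (if k < i then b i k else 0) ^ 2 = if k < i then b i k ^ 2 else 0 := by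
        intro k; split_ifs <;> simp
      simp only [h1]
      rw [hs1eq i (fun k => b i k ^ 2) (by omega)]
      exact hsq i (by omega))
  obtain ⟨g₂, hg₂i, hg₂, hg₂m⟩ := hlin s hs1 (N + 1) (by omega) N
    (fun i k => if i ≤ k then b (N - i) (k - i) else 0)
    (by
      intro i _ k
      split_ifs
      · rw [abs_of_nonneg (hb _ _).1]; exact (hb _ _).2
      · simpa using hΦ.le)
    (by
      intro i hi
      have h1 : ∀ k, (if i ≤ k then b (N - i) (k - i) else 0) ^ 2 =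
          if i ≤ k then b (N - i) (k - i) ^ 2 else 0 := by
        intro k; split_ifs <;> simp
      simp only [h1]
      rw [hs2eq i (fun k => b (N - i) k ^ 2) (by omega)]
      exact hsq (N - i) (by omega))
  obtain ⟨g₃, hg₃i, hg₃, hg₃m⟩ := habs (N + 1) (by omega)
  -- error term
  set E : (ℕ → ℝ) → ℝ := fun ω => 2 * Cp + 2 * M.κ * g₃ ω + 2 * (A * P) + M.β * g₁ ω + M.β * g₂ ω with hE
  -- lower bounds for the gaps
  have hgap1 : ∀ l : ℕ, l ≤ N → Even l → ∀ ω, Real.exp (-(A * P) - M.β * g₁ ω) ≤ M.Z hc l ω 0 0 := by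
    intro l hl hle ω
    refine le_trans ?_ (hbZ l hle ω)
    apply Real.exp_le_exp.2
    have h1 := hg₁ ω l (by omega)
    have h2 : ∑ k ∈ Finset.range N, (if k < l then b l k else 0) * ω k = ∑ k ∈ Finset.range l, b l k * ω k := by
      rw [← hs1eq l (fun k => b l k * ω k) hl]
      apply Finset.sum_congr rfl
      intro k _
      split_ifs <;> simp
    rw [h2] at h1
    have h3 := mul_le_mul_of_nonneg_left (abs_le.1 h1).1 hβ.le
    have h4 := mul_le_mul_of_nonneg_left (hmono l hl) hA.le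
    linarith
  have hgap2 : ∀ l : ℕ, l ≤ N → Even (N - l) → ∀ ω,
      Real.exp (-(A * P) - M.β * g₂ ω) ≤ M.Z hc (N - l) (shift l ω) 0 0 := by
    intro l hl hle ω
    refine le_trans ?_ (hbZ (N - l) hle (shift l ω))
    apply Real.exp_le_exp.2
    have h1 := hg₂ ω l (by omega)
    have h2 : ∑ k ∈ Finset.range N, (if l ≤ k then b (N - l) (k - l) else 0) * ω k =
        ∑ k ∈ Finset.range (N - l), b (N - l) k * shift l ω k := by
      rw [← hs2eq l (fun k => b (N - l) k * shift l ω k) hl]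
      apply Finset.sum_congr rfl
      intro k _
      split_ifs with hk
      · rw [shift_apply, Nat.sub_add_cancel hk]
      · simp
    rw [h2] at h1
    have h3 := mul_le_mul_of_nonneg_left (abs_le.1 h1).1 hβ.le
    have h4 := mul_le_mul_of_nonneg_left (hmono (N - l) (Nat.sub_le _ _)) hA.le
    linarith
  have hpth : ∀ l : ℕ, l ≤ N → ∀ x ∈ Finset.Icc (-(R : ℤ)) R, ∀ ω,
      Real.exp (-(Cp + M.κ * g₃ ω)) ≤ M.Z hc x.natAbs (shift l ω) 0 x ∧
      Real.exp (-(Cp + M.κ * g₃ ω)) ≤ M.Z hc x.natAbs (shift l ω) x 0 := by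
    intro l hl x hx ω
    have h1 : Real.exp (-(Cp + M.κ * g₃ ω)) ≤
        Real.exp (-(Cp + M.κ * ∑ k ∈ Finset.range R, |shift l ω k|)) := by
      apply Real.exp_le_exp.2
      have h2 := hg₃ ω l (by omega)
      have h3 : ∑ k ∈ Finset.range R, |shift l ω k| ≤ g₃ ω := by
        refine le_trans (le_of_eq ?_) h2
        apply Finset.sum_congr rfl
        intro k _
        rw [shift_apply, Nat.add_comm]
      have := mul_le_mul_of_nonneg_left h3 hκ.le
      linarith
    exact ⟨h1.trans (hpath x hx _).1, h1.trans (hpath x hx _).2⟩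
  -- the pointwise bound
  have hpt : ∀ ω, ∀ i j : ℕ, i ≤ j → j ≤ n → ∀ x ∈ Finset.Icc (-(R : ℤ)) R, ∀ y ∈ Finset.Icc (-(R : ℤ)) R,
      Even ((i : ℤ) + x) → M.Z hc (j - i) (shift i (shift (2 * R) ω)) x y ≤
        M.Z hc N ω 0 0 * Real.exp (E ω) := by
    intro ω i j hij hjn x hx y hy hpar
    have hZN := M.Z_pos hc hNe ω
    by_cases hpy : Even ((j : ℤ) + y)
    · have hxR : x.natAbs ≤ R := by rw [Finset.mem_Icc] at hx; omega
      have hyR : y.natAbs ≤ R := by rw [Finset.mem_Icc] at hy; omega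
      set a := 2 * R + i - x.natAbs with ha
      set b' := 2 * R + j + y.natAbs with hb'
      have hax : a + x.natAbs = 2 * R + i := by omega
      have hb'N : b' ≤ N := by omega
      have haN : a ≤ N := by omega
      have hae : Even a := by
        rw [← Int.even_coe_nat]
        have h1 : (a : ℤ) = 2 * R + i - x.natAbs := by omega
        rw [h1]
        rw [Int.even_add] at hpar
        have h2 : Even ((x.natAbs : ℤ)) ↔ Even x := by
          rw [Int.even_coe_nat, Int.natAbs_even]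
        rw [Int.even_sub, Int.even_add, h2]
        simp [hpar]
      have hbe : Even b' := by
        rw [← Int.even_coe_nat]
        have h1 : (b' : ℤ) = 2 * R + j + y.natAbs := by omega
        rw [h1]
        rw [Int.even_add] at hpy
        have h2 : Even ((y.natAbs : ℤ)) ↔ Even y := by
          rw [Int.even_coe_nat, Int.natAbs_even]
        rw [Int.even_add, Int.even_add, h2]
        simp [hpy]
      have hNbe : Even (N - b') := (Nat.even_sub hb'N).2 ⟨fun _ => hbe, fun _ => hNe⟩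
      -- factors
      have f1 := hgap1 a haN hae ω
      have f2 := (hpth a haN x hx ω).1
      have f4 := (hpth (2 * R + j) (by omega) y hy ω).2
      have f5 := hgap2 b' hb'N hNbe ω
      have hz : 0 ≤ M.Z hc (j - i) (shift (2 * R + i) ω) x y := M.Z_nonneg _ _ _ _ _
      have m1 := M.Z_mul_le hc a x.natAbs ω 0 0 x
      rw [hax] at m1
      have m2 := M.Z_mul_le hc (2 * R + i) (j - i) ω 0 x y
      rw [show 2 * R + i + (j - i) = 2 * R + j by omega] at m2
      have m3 := M.Z_mul_le hc (2 * R + j) y.natAbs ω 0 y 0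
      have m4 := M.Z_mul_le hc b' (N - b') ω 0 0 0
      rw [show b' + (N - b') = N by omega] at m4
      rw [← hb'] at m3
      have hshift : shift i (shift (2 * R) ω) = shift (2 * R + i) ω := by
        rw [shift_shift, Nat.add_comm]
      rw [hshift]
      have e1 : Real.exp (-(A * P) - M.β * g₁ ω) * Real.exp (-(Cp + M.κ * g₃ ω)) ≤
          M.Z hc (2 * R + i) ω 0 x :=
        (mul_le_mul f1 f2 (Real.exp_pos _).le ((Real.exp_pos _).le.trans f1)).trans m1
      have e2 : Real.exp (-(A * P) - M.β * g₁ ω) * Real.exp (-(Cp + M.κ * g₃ ω)) *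
          M.Z hc (j - i) (shift (2 * R + i) ω) x y ≤ M.Z hc (2 * R + j) ω 0 y :=
        (mul_le_mul_of_nonneg_right e1 hz).trans m2
      have e3 : Real.exp (-(A * P) - M.β * g₁ ω) * Real.exp (-(Cp + M.κ * g₃ ω)) *
          M.Z hc (j - i) (shift (2 * R + i) ω) x y * Real.exp (-(Cp + M.κ * g₃ ω)) ≤
          M.Z hc b' ω 0 0 :=
        (mul_le_mul e2 f4 (Real.exp_pos _).le (M.Z_nonneg _ _ _ _ _)).trans m3
      have e4 : Real.exp (-(A * P) - M.β * g₁ ω) * Real.exp (-(Cp + M.κ * g₃ ω)) *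
          M.Z hc (j - i) (shift (2 * R + i) ω) x y * Real.exp (-(Cp + M.κ * g₃ ω)) *
          Real.exp (-(A * P) - M.β * g₂ ω) ≤ M.Z hc N ω 0 0 :=
        (mul_le_mul e3 f5 (Real.exp_pos _).le (M.Z_nonneg _ _ _ _ _)).trans m4
      have e5 : Real.exp (-(A * P) - M.β * g₁ ω) * Real.exp (-(Cp + M.κ * g₃ ω)) *
          Real.exp (-(Cp + M.κ * g₃ ω)) * Real.exp (-(A * P) - M.β * g₂ ω) = Real.exp (-(E ω)) := by
        rw [← Real.exp_add, ← Real.exp_add, ← Real.exp_add, hE]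
        congr 1
        ring
      have e6 : M.Z hc (j - i) (shift (2 * R + i) ω) x y * Real.exp (-(E ω)) ≤ M.Z hc N ω 0 0 := by
        rw [← e5]
        refine le_trans (le_of_eq ?_) e4
        ring
      rw [Real.exp_neg, ← div_eq_mul_inv, div_le_iff₀ (Real.exp_pos _)] at e6
      exact e6
    · have h1 : M.Z hc (j - i) (shift i (shift (2 * R) ω)) x y = 0 := by
        unfold Model.Z
        apply Model.Zk_parity hnl
        intro h2
        apply hpy
        have h3 : (j : ℤ) + y = (((j - i : ℕ) : ℤ) + x + y) + ((i : ℤ) + x) - 2 * x := by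
          push_cast [hij]
          ring
        rw [h3]
        exact (h2.add hpar).sub (even_two_mul _)
      rw [h1]
      positivity
  have hSbound : ∀ ω, M.Sb hc R n (shift (2 * R) ω) ≤
      ((n : ℝ) + 1) ^ 2 * (2 * R + 1) ^ 2 * (M.Z hc N ω 0 0 * Real.exp (E ω)) := by
    intro ω
    have hZE : 0 ≤ M.Z hc N ω 0 0 * Real.exp (E ω) := mul_nonneg (M.Z_nonneg _ _ _ _ _) (Real.exp_pos _).le
    have hcard : ((Finset.Icc (-(R : ℤ)) R).card : ℝ) = 2 * R + 1 := by
      rw [Int.card_Icc]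
      have : ((R : ℤ) + 1 - -(R : ℤ)).toNat = 2 * R + 1 := by omega
      rw [this]
      push_cast
      ring
    set Q := M.Z hc N ω 0 0 * Real.exp (E ω) with hQ
    unfold Model.Sb
    have b1 : ∀ i ∈ Finset.range (n + 1), ∀ j ∈ Finset.Icc i n,
        ∑ x ∈ (Finset.Icc (-(R : ℤ)) R).filter (fun x => Even ((i : ℤ) + x)),
          ∑ y ∈ Finset.Icc (-(R : ℤ)) R, M.Z hc (j - i) (shift i (shift (2 * R) ω)) x y ≤
        (2 * R + 1) ^ 2 * Q := by
      intro i _ j hj
      rw [Finset.mem_Icc] at hj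
      calc _ ≤ ∑ x ∈ (Finset.Icc (-(R : ℤ)) R).filter (fun x => Even ((i : ℤ) + x)),
          ∑ y ∈ Finset.Icc (-(R : ℤ)) R, Q := by
            apply Finset.sum_le_sum
            intro x hx
            rw [Finset.mem_filter] at hx
            apply Finset.sum_le_sum
            intro y hy
            exact hpt ω i j hj.1 hj.2 x hx.1 y hy hx.2
        _ ≤ ∑ x ∈ Finset.Icc (-(R : ℤ)) R, ∑ y ∈ Finset.Icc (-(R : ℤ)) R, Q :=
            Finset.sum_le_sum_of_subset_of_nonneg (Finset.filter_subset _ _)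
              (fun x _ _ => Finset.sum_nonneg fun _ _ => hZE)
        _ = _ := by
            rw [Finset.sum_const, Finset.sum_const, nsmul_eq_mul, nsmul_eq_mul, hcard]
            ring
    have hR2 : 0 ≤ (2 * (R : ℝ) + 1) ^ 2 * Q := by positivity
    calc _ ≤ ∑ i ∈ Finset.range (n + 1), ∑ j ∈ Finset.Icc i n, (2 * (R : ℝ) + 1) ^ 2 * Q :=
          Finset.sum_le_sum fun i hi => Finset.sum_le_sum fun j hj => b1 i hi j hj
      _ ≤ ∑ i ∈ Finset.range (n + 1), ∑ j ∈ Finset.range (n + 1), (2 * (R : ℝ) + 1) ^ 2 * Q := by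
          apply Finset.sum_le_sum
          intro i _
          apply Finset.sum_le_sum_of_subset_of_nonneg _ (fun _ _ _ => hR2)
          intro j hj
          rw [Finset.mem_Icc] at hj
          exact Finset.mem_range.2 (by omega)
      _ = _ := by
          rw [Finset.sum_const, Finset.sum_const, Finset.card_range, nsmul_eq_mul, nsmul_eq_mul]
          push_cast
          ring
  -- integrate
  have hn0 : (0 : ℝ) ≤ n := Nat.cast_nonneg n
  have hSpos : ∀ ω, 0 < M.Sb hc R n ω := fun ω => one_pos.trans_le (M.one_le_Sb _ _ _ _)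
  have hSint : Integrable (fun ω => Real.log (M.Sb hc R n ω)) (seqLaw M.μ) :=
    (M.good_Sb hc R n).integrable_log M.exp_mom hSpos
  have h7 : ∫ ω, Real.log (SB M.C M.φ R n (fun k => M.β * ω k - hc)) ∂seqLaw M.μ =
      ∫ ω, Real.log (M.Sb hc R n (shift (2 * R) ω)) ∂seqLaw M.μ := by
    rw [integral_shift M.μ (2 * R) (Y := fun ω => Real.log (M.Sb hc R n ω)) (M.good_Sb hc R n).meas.log]
    congr 1
    funext ω
    rw [M.Sb_eq]
  have hSint' : Integrable (fun ω => Real.log (M.Sb hc R n (shift (2 * R) ω))) (seqLaw M.μ) :=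
    integrable_shift M.μ (2 * R) (Y := fun ω => Real.log (M.Sb hc R n ω)) (M.good_Sb hc R n).meas.log hSint
  have hEint : Integrable E (seqLaw M.μ) := by
    rw [hE]
    exact ((((integrable_const _).add (hg₃i.const_mul _)).add (integrable_const _)).add
      (hg₁i.const_mul _)).add (hg₂i.const_mul _)
  have hZint := M.integrable_logZ hc hNe
  have h8 : ∫ ω, Real.log (M.Sb hc R n (shift (2 * R) ω)) ∂seqLaw M.μ ≤
      ∫ ω, (2 * Real.log ((n : ℝ) + 1) + 2 * Real.log (2 * (R : ℝ) + 1) +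
        (Real.log (M.Z hc N ω 0 0) + E ω)) ∂seqLaw M.μ := by
    apply integral_mono hSint' ((integrable_const _).add (hZint.add hEint))
    intro ω
    change Real.log (M.Sb hc R n (shift (2 * R) ω)) ≤ 2 * Real.log ((n : ℝ) + 1) +
      2 * Real.log (2 * (R : ℝ) + 1) + (Real.log (M.Z hc N ω 0 0) + E ω)
    have hZN := M.Z_pos hc hNe ω
    refine (Real.log_le_log (hSpos _) (hSbound ω)).trans ?_
    rw [Real.log_mul (by positivity) (by positivity), Real.log_mul (by positivity) (by positivity),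
      Real.log_mul (by positivity) (by positivity), Real.log_pow, Real.log_pow, Real.log_exp]
    push_cast
    linarith
  have h9 : ∫ ω, (2 * Real.log ((n : ℝ) + 1) + 2 * Real.log (2 * (R : ℝ) + 1) +
        (Real.log (M.Z hc N ω 0 0) + E ω)) ∂seqLaw M.μ =
      2 * Real.log ((n : ℝ) + 1) + 2 * Real.log (2 * (R : ℝ) + 1) + (M.Ψ hc N + ∫ ω, E ω ∂seqLaw M.μ) := by
    have hZE : Integrable (fun ω => Real.log (M.Z hc N ω 0 0) + E ω) (seqLaw M.μ) := hZint.add hEint
    rw [integral_add (integrable_const _) hZE, integral_add hZint hEint]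
    simp [Model.Ψ]
  have h10 : ∫ ω, E ω ∂seqLaw M.μ = 2 * Cp + 2 * M.κ * ∫ ω, g₃ ω ∂seqLaw M.μ + 2 * (A * P) +
      M.β * ∫ ω, g₁ ω ∂seqLaw M.μ + M.β * ∫ ω, g₂ ω ∂seqLaw M.μ := by
    rw [hE]
    have i1 : Integrable (fun ω => 2 * Cp + 2 * M.κ * g₃ ω) (seqLaw M.μ) :=
      (integrable_const _).add (hg₃i.const_mul _)
    have i2 : Integrable (fun ω => 2 * Cp + 2 * M.κ * g₃ ω + 2 * (A * P)) (seqLaw M.μ) :=
      i1.add (integrable_const _)
    have i3 : Integrable (fun ω => 2 * Cp + 2 * M.κ * g₃ ω + 2 * (A * P) + M.β * g₁ ω) (seqLaw M.μ) :=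
      i2.add (hg₁i.const_mul _)
    rw [integral_add i3 (hg₂i.const_mul _), integral_add i2 (hg₁i.const_mul _),
      integral_add i1 (integrable_const _), integral_add (integrable_const _) (hg₃i.const_mul _),
      integral_const_mul (2 * M.κ) g₃, integral_const_mul M.β g₁, integral_const_mul M.β g₂]
    simp only [integral_const, probReal_univ, smul_eq_mul, one_mul]
  have h11 : M.Ψ hc N ≤ 0 := by
    have h1 := M.Ψ_le_Fr hc hNe
    have h2 : (N : ℝ) * M.Fr hc ≤ 0 := mul_nonpos_of_nonneg_of_nonpos (Nat.cast_nonneg _) hF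
    linarith
  -- comparison of the sizes
  set P' : ℝ := (n : ℝ) ^ ξ + 1 with hP'
  set L' : ℝ := 1 + Real.log ((n : ℝ) + 1) with hL'
  have hlogn : 0 ≤ Real.log ((n : ℝ) + 1) := Real.log_nonneg (by linarith)
  have hP'1 : 1 ≤ P' := by
    rw [hP']
    have : 0 ≤ (n : ℝ) ^ ξ := by positivity
    linarith
  have hL'1 : 1 ≤ L' := by rw [hL']; linarith
  have hPP' : P ≤ c₁ * P' := by
    rw [hP, hP', hc₁]
    have h1 : (N : ℝ) ≤ (4 * (R : ℝ) + 1) * (n : ℝ) + 4 * R := by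
      rw [hN]
      push_cast
      nlinarith
    have hr0 : 0 ≤ (4 * (R : ℝ) + 1) ^ ξ := by positivity
    have hn00 : 0 ≤ (n : ℝ) ^ ξ := by positivity
    rcases Nat.eq_zero_or_pos n with h0 | hpos
    · have h2 : (N : ℝ) ^ ξ ≤ (4 * (R : ℝ) + 1) ^ ξ := by
        apply Real.rpow_le_rpow (Nat.cast_nonneg _) _ hξ
        rw [hN, h0]
        push_cast
        linarith
      nlinarith
    · have hn1 : (1 : ℝ) ≤ n := by exact_mod_cast hpos
      have h2 : (N : ℝ) ^ ξ ≤ (4 * (R : ℝ) + 1) ^ ξ * (n : ℝ) ^ ξ := by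
        rw [← Real.mul_rpow (by positivity) (by positivity)]
        apply Real.rpow_le_rpow (Nat.cast_nonneg _) _ hξ
        rw [hN]
        push_cast
        nlinarith
      nlinarith
  have hLL' : 1 + Real.log ((N + 1 : ℕ) : ℝ) ≤ c₂ * L' := by
    rw [hL', hc₂]
    have h1 : Real.log ((N + 1 : ℕ) : ℝ) ≤ Real.log ((4 * (R : ℝ) + 1) * ((n : ℝ) + 1)) := by
      apply Real.log_le_log (by positivity)
      rw [hN]
      push_cast
      nlinarith
    rw [Real.log_mul (by positivity) (by positivity)] at h1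
    have h2 : 0 ≤ Real.log (4 * (R : ℝ) + 1) := Real.log_nonneg (by linarith)
    nlinarith
  have hsP : s ≤ (1 + M.Φ * A) * (c₁ * P') := by
    have h1 : 1 ≤ P := by
      rw [hP]
      have : 0 ≤ (N : ℝ) ^ ξ := by positivity
      linarith
    have h2 : s ≤ (1 + M.Φ * A) * P := by
      rw [hs]
      linarith
    exact h2.trans (mul_le_mul_of_nonneg_left hPP' (by positivity))
  have hPL : 1 ≤ P' * L' := one_le_mul_of_one_le_of_one_le hP'1 hL'1
  have hPLP : P' ≤ P' * L' := le_mul_of_one_le_right (by linarith) hL'1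
  have hPLL : L' ≤ P' * L' := le_mul_of_one_le_left (by linarith) hP'1
  have hL0 : 0 ≤ 1 + Real.log ((N + 1 : ℕ) : ℝ) := by
    have : 0 ≤ Real.log ((N + 1 : ℕ) : ℝ) := Real.log_nonneg (by
      have : (0 : ℝ) ≤ N := Nat.cast_nonneg _
      push_cast
      linarith)
    linarith
  have hgb : ∀ I : ℝ, I ≤ A₁ * s * (1 + Real.log ((N + 1 : ℕ) : ℝ)) →
      M.β * I ≤ M.β * A₁ * (1 + M.Φ * A) * c₁ * c₂ * (P' * L') := by
    intro I hI
    have h1 : A₁ * s * (1 + Real.log ((N + 1 : ℕ) : ℝ)) ≤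
        A₁ * ((1 + M.Φ * A) * (c₁ * P')) * (c₂ * L') :=
      mul_le_mul (mul_le_mul_of_nonneg_left hsP hA₁.le) hLL' hL0 (by positivity)
    have h2 := mul_le_mul_of_nonneg_left (hI.trans h1) hβ.le
    refine h2.trans (le_of_eq ?_)
    ring
  have hb1 := hgb _ hg₁m
  have hb2 := hgb _ hg₂m
  have hb3 : 2 * M.κ * ∫ ω, g₃ ω ∂seqLaw M.μ ≤ 2 * M.κ * A₃ * c₂ * (P' * L') := by
    have h1 : ∫ ω, g₃ ω ∂seqLaw M.μ ≤ A₃ * (c₂ * (P' * L')) := by
      refine hg₃m.trans ?_
      apply mul_le_mul_of_nonneg_left _ hA₃.le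
      refine hLL'.trans ?_
      exact mul_le_mul_of_nonneg_left hPLL (by linarith)
    have h2 := mul_le_mul_of_nonneg_left h1 (by positivity : 0 ≤ 2 * M.κ)
    refine h2.trans (le_of_eq ?_)
    ring
  have hb4 : 2 * (A * P) ≤ 2 * A * c₁ * (P' * L') := by
    have h1 : P ≤ c₁ * (P' * L') := hPP'.trans (mul_le_mul_of_nonneg_left hPLP (by linarith))
    have h2 := mul_le_mul_of_nonneg_left h1 (by positivity : 0 ≤ 2 * A)
    linarith
  have hb5 : 2 * Real.log ((n : ℝ) + 1) ≤ 2 * (P' * L') := by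
    have : Real.log ((n : ℝ) + 1) ≤ L' := by rw [hL']; linarith
    linarith
  have hb6 : 2 * Real.log (2 * (R : ℝ) + 1) ≤ 2 * Real.log (2 * (R : ℝ) + 1) * (P' * L') :=
    le_mul_of_one_le_right (by positivity) hPL
  have hb7 : 2 * Cp ≤ 2 * Cp * (P' * L') := le_mul_of_one_le_right (by positivity) hPL
  rw [h7]
  refine h8.trans ?_
  rw [h9, h10]
  have hfin : (2 + 2 * Real.log (2 * (R : ℝ) + 1) + 2 * Cp + 2 * A * c₁ + 2 * M.κ * A₃ * c₂ +
    2 * M.β * A₁ * (1 + M.Φ * A) * c₁ * c₂) * P' * L' =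
    2 * (P' * L') + 2 * Real.log (2 * (R : ℝ) + 1) * (P' * L') + 2 * Cp * (P' * L') +
      2 * A * c₁ * (P' * L') + 2 * M.κ * A₃ * c₂ * (P' * L') +
      2 * (M.β * A₁ * (1 + M.Φ * A) * c₁ * c₂ * (P' * L')) := by ring
  rw [hfin]
  linarith only [h11, hb1, hb2, hb3, hb4, hb5, hb6, hb7]

end

end MP_daa227_pr
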