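import Pool.Agent.Lib.MP_daa227_pr.Hold

/-!
# Hoelder inequality for renewal partition functions, second form
-/

open MeasureTheory ProbabilityTheory Set Filter
open scoped ENNReal

namespace MP_daa227_pr

noncomputable section

theorem Ren_holder2 {ι : Type*} (s : Finset ι) (lam : ι → ℝ) (hlam : ∀ i ∈ s, 0 < lam i)
    (hsum : ∑ i ∈ s, lam i = 1) (G : ι → ℕ → (ℕ → ℝ) → ℤ → ℤ → ℝ)
    (G0 : ℕ → (ℕ → ℝ) → ℤ → ℤ → ℝ) (B : Finset ℤ)
    (hG : ∀ i ∈ s, ∀ L ω x y, 0 ≤ G i L ω x y) (hG0 : ∀ L ω x y, 0 ≤ G0 L ω x y)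
    (hle : ∀ L : ℕ, 1 ≤ L → ∀ (ω : ℕ → ℝ) (x : ℤ), ∀ y ∈ B,
      G0 L ω x y ≤ ∏ i ∈ s, (G i L ω x y) ^ lam i) :
    ∀ (n : ℕ) (ω : ℕ → ℝ) (x y : ℤ), Ren G0 B n ω x y ≤ ∏ i ∈ s, (Ren (G i) B n ω x y) ^ lam i := by
  have hR : ∀ i ∈ s, ∀ (m : ℕ) (ω : ℕ → ℝ) (x y : ℤ), 0 ≤ Ren (G i) B m ω x y :=
    fun i hi => Ren_nonneg _ B (hG i hi)
  intro n
  induction n using Nat.strong_induction_on with
  | _ n ih =>
    intro ω x y
    rcases Nat.eq_zero_or_pos n with hn | hn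
    · subst hn
      by_cases hxy : x = y
      · subst hxy
        rw [Ren_zero, if_pos rfl]
        apply le_of_eq
        symm
        apply Finset.prod_eq_one
        intro i _
        rw [Ren_zero, if_pos rfl, Real.one_rpow]
      · rw [Ren_zero, if_neg hxy]
        exact Finset.prod_nonneg fun i hi => Real.rpow_nonneg (hR i hi _ _ _ _) _
    · rw [Ren_pos_eq B G0 hn.ne', ← Finset.sum_product']
      have h1 : ∀ q ∈ Finset.Ioc 0 n ×ˢ B, G0 q.1 ω x q.2 * Ren G0 B (n - q.1) (shift q.1 ω) q.2 y ≤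
          ∏ i ∈ s, (G i q.1 ω x q.2 * Ren (G i) B (n - q.1) (shift q.1 ω) q.2 y) ^ lam i := by
        rintro ⟨L, z⟩ hq
        rw [Finset.mem_product] at hq
        obtain ⟨hL, hz⟩ := hq
        dsimp only at hL hz ⊢
        have hL' := Finset.mem_Ioc.1 hL
        have h2 := ih (n - L) (by omega) (shift L ω) z y
        have h3 := hle L (by omega) ω x z hz
        have h7 : ∀ i ∈ s, (G i L ω x z * Ren (G i) B (n - L) (shift L ω) z y) ^ lam i =
            (G i L ω x z) ^ lam i * (Ren (G i) B (n - L) (shift L ω) z y) ^ lam i := by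
          intro i hi
          rw [Real.mul_rpow (hG i hi _ _ _ _) (hR i hi _ _ _ _)]
        rw [Finset.prod_congr rfl h7, Finset.prod_mul_distrib]
        exact mul_le_mul h3 h2 (Ren_nonneg G0 B hG0 _ _ _ _)
          (Finset.prod_nonneg fun i hi => Real.rpow_nonneg (hG i hi _ _ _ _) _)
      refine (Finset.sum_le_sum h1).trans ?_
      refine (hold_sum s (Finset.Ioc 0 n ×ˢ B) lam hlam hsum
        (fun i q => G i q.1 ω x q.2 * Ren (G i) B (n - q.1) (shift q.1 ω) q.2 y)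
        (fun i hi q _ => mul_nonneg (hG i hi _ _ _ _) (hR i hi _ _ _ _))).trans (le_of_eq ?_)
      apply Finset.prod_congr rfl
      intro i _
      rw [Ren_pos_eq B (G i) hn.ne', ← Finset.sum_product']

theorem hold2_Gk_nonneg (C : Chain) (W : ℝ → ℤ → ℝ) (B : Finset ℤ) (hW : ∀ a z, 0 ≤ W a z) :
    ∀ (n : ℕ) (ω : ℕ → ℝ) (x y : ℤ), 0 ≤ Gk C W B n ω x y := by
  intro n
  induction n with
  | zero => intro ω x y; simp [Gk]
  | succ n ih =>
    intro ω x y
    rw [Gk]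
    refine add_nonneg ?_ (Finset.sum_nonneg fun z _ =>
      mul_nonneg (mul_nonneg (C.nonneg _ _) (hW _ _)) (ih _ _ _))
    split_ifs
    · exact mul_nonneg (C.nonneg _ _) (hW _ _)
    · exact le_rfl

theorem Gk_holder2 {ι : Type*} (s : Finset ι) (lam : ι → ℝ) (hlam : ∀ i ∈ s, 0 < lam i)
    (hsum : ∑ i ∈ s, lam i = 1) (C : Chain) (W : ι → ℝ → ℤ → ℝ) (W0 : ℝ → ℤ → ℝ) (B : Finset ℤ)
    (hW : ∀ i ∈ s, ∀ a z, 0 ≤ W i a z) (hW0 : ∀ a z, 0 ≤ W0 a z)
    (hle : ∀ a z, W0 a z ≤ ∏ i ∈ s, (W i a z) ^ lam i) :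
    ∀ (n : ℕ) (ω : ℕ → ℝ) (x y : ℤ), Gk C W0 B n ω x y ≤ ∏ i ∈ s, (Gk C (W i) B n ω x y) ^ lam i := by
  have hR : ∀ i ∈ s, ∀ (m : ℕ) (ω : ℕ → ℝ) (x y : ℤ), 0 ≤ Gk C (W i) B m ω x y :=
    fun i hi => hold2_Gk_nonneg C (W i) B (hW i hi)
  -- the one step weight
  have hone : ∀ (x z : ℤ) (a : ℝ), C.p x z * W0 a z ≤ ∏ i ∈ s, (C.p x z * W i a z) ^ lam i := by
    intro x z a
    have h7 : ∀ i ∈ s, (C.p x z * W i a z) ^ lam i = (C.p x z) ^ lam i * (W i a z) ^ lam i := by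
      intro i hi
      rw [Real.mul_rpow (C.nonneg _ _) (hW i hi _ _)]
    rw [Finset.prod_congr rfl h7, Finset.prod_mul_distrib,
      ← Real.rpow_sum_of_nonneg (C.nonneg _ _) (fun i hi => (hlam i hi).le), hsum, Real.rpow_one]
    exact mul_le_mul_of_nonneg_left (hle a z) (C.nonneg _ _)
  intro n
  induction n with
  | zero =>
    intro ω x y
    simp only [Gk]
    exact Finset.prod_nonneg fun i _ => Real.rpow_nonneg le_rfl _
  | succ n ih =>
    intro ω x y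
    rcases Nat.eq_zero_or_pos n with hn | hn
    · subst hn
      simp only [Gk, if_true, mul_zero, Finset.sum_const_zero, add_zero]
      exact hone x y (ω 0)
    · have e0 : Gk C W0 B (n + 1) ω x y =
          ∑ z ∈ Finset.Icc (x - 1) (x + 1) \ B, C.p x z * W0 (ω 0) z * Gk C W0 B n (shift 1 ω) z y := by
        rw [Gk, if_neg hn.ne', zero_add]
      have e1 : ∀ i ∈ s, (Gk C (W i) B (n + 1) ω x y) ^ lam i =
          (∑ z ∈ Finset.Icc (x - 1) (x + 1) \ B,
            C.p x z * W i (ω 0) z * Gk C (W i) B n (shift 1 ω) z y) ^ lam i := by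
        intro i _
        rw [Gk, if_neg hn.ne', zero_add]
      rw [e0, Finset.prod_congr rfl e1]
      have h1 : ∀ z ∈ Finset.Icc (x - 1) (x + 1) \ B,
          C.p x z * W0 (ω 0) z * Gk C W0 B n (shift 1 ω) z y ≤
          ∏ i ∈ s, (C.p x z * W i (ω 0) z * Gk C (W i) B n (shift 1 ω) z y) ^ lam i := by
        intro z _
        have h7 : ∀ i ∈ s, (C.p x z * W i (ω 0) z * Gk C (W i) B n (shift 1 ω) z y) ^ lam i =
            (C.p x z * W i (ω 0) z) ^ lam i * (Gk C (W i) B n (shift 1 ω) z y) ^ lam i := by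
          intro i hi
          rw [Real.mul_rpow (mul_nonneg (C.nonneg _ _) (hW i hi _ _)) (hR i hi _ _ _ _)]
        rw [Finset.prod_congr rfl h7, Finset.prod_mul_distrib]
        exact mul_le_mul (hone x z (ω 0)) (ih _ _ _) (hold2_Gk_nonneg C W0 B hW0 _ _ _ _)
          (Finset.prod_nonneg fun i hi => Real.rpow_nonneg
            (mul_nonneg (C.nonneg _ _) (hW i hi _ _)) _)
      refine (Finset.sum_le_sum h1).trans ?_
      exact hold_sum s (Finset.Icc (x - 1) (x + 1) \ B) lam hlam hsum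
        (fun i z => C.p x z * W i (ω 0) z * Gk C (W i) B n (shift 1 ω) z y)
        (fun i hi z _ => mul_nonneg (mul_nonneg (C.nonneg _ _) (hW i hi _ _)) (hR i hi _ _ _ _))

end

end MP_daa227_pr
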