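import Pool.Agent.Lib.MP_daa227_pr.KeyM
import Pool.Agent.Lib.MP_daa227_pr.Hold2

/-!
# Combination of the gap scales by Hölder's inequality
-/

open MeasureTheory ProbabilityTheory Set Filter
open scoped ENNReal Topology

namespace MP_daa227_pr

noncomputable section

set_option linter.unusedSectionVars false

/-- weights -/
def cLam (J : ℕ) (lam : ℕ → ℝ) : ℕ → ℝ
  | 0 => 1 - ∑ j ∈ Finset.range J, lam j
  | j + 1 => lam j

/-- fields -/
def cH (h Ck : ℝ) (γ : ℕ → ℝ) : ℕ → ℝ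
  | 0 => h
  | j + 1 => h + Ck * γ j

/-- gap weights -/
def cG (g : ℕ → ℕ → ℝ) : ℕ → ℕ → ℝ
  | 0 => fun _ => 0
  | j + 1 => g j

namespace Model

variable (M : Model)

lemma combine {h h'' F ε t B₀ φm Ck : ℝ} {R : ℕ}
    (hφm : ∀ y ∈ Finset.Icc (-(R : ℤ)) R, φm ≤ M.φ y) {J : ℕ} {γ lam : ℕ → ℝ}
    (hlam : ∀ j < J, 0 < lam j) (hlam1 : ∑ j ∈ Finset.range J, lam j < 1)
    {g : ℕ → ℕ → ℝ} (hg : ∀ j < J, ∀ L, 0 ≤ g j L) {mb : ℕ}
    (hsum : ∀ L : ℕ, mb < L → t * L ≤ ∑ j ∈ Finset.range J, lam j * g j L) (ht : 0 ≤ t)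
    (hh0 : 0 ≤ h'' - h - Ck * ∑ j ∈ Finset.range J, lam j * γ j)
    (hh : t * mb ≤ (h'' - h - Ck * ∑ j ∈ Finset.range J, lam j * γ j) * φm)
    (hΨ : ∀ j < J, ∀ N : ℕ, Even N → M.ΨR (h + Ck * γ j) R (g j) N ≤ F * (1 + ε) * N + B₀)
    (hF : M.Fr h ≤ F) (hF0 : 0 ≤ F) (hε : 0 ≤ ε) (hB₀ : 0 ≤ B₀) :
    M.Fr h'' + t ≤ F * (1 + ε) := by
  set s := Finset.range (J + 1) with hs
  set lam' := cLam J lam with hlam'
  set hi := cH h Ck γ with hhi
  set gi := cG g with hgi
  have l0 : ∀ i ∈ s, 0 < lam' i := by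
    intro i hi'
    rw [hs, Finset.mem_range] at hi'
    cases i with
    | zero => rw [hlam']; simp only [cLam]; linarith
    | succ j => rw [hlam']; simp only [cLam]; exact hlam j (by omega)
  have l1 : ∑ i ∈ s, lam' i = 1 := by
    rw [hs, Finset.sum_range_succ', hlam']
    simp only [cLam]
    ring
  set hbar := h + Ck * ∑ j ∈ Finset.range J, lam j * γ j with hhbar
  have lh : ∑ i ∈ s, lam' i * hi i = hbar := by
    rw [hs, Finset.sum_range_succ', hlam', hhi]
    simp only [cLam, cH]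
    have e : ∀ j ∈ Finset.range J, lam j * (h + Ck * γ j) = h * lam j + Ck * (lam j * γ j) := by
      intro j _; ring
    rw [Finset.sum_congr rfl e, Finset.sum_add_distrib, ← Finset.mul_sum, ← Finset.mul_sum, hhbar]
    ring
  have gn : ∀ i ∈ s, ∀ L, 0 ≤ gi i L := by
    intro i hi' L
    rw [hs, Finset.mem_range] at hi'
    cases i with
    | zero => rw [hgi]; simp [cG]
    | succ j => rw [hgi]; simp only [cG]; exact hg j (by omega) L
  have lg : ∀ L, ∑ i ∈ s, lam' i * gi i L = ∑ j ∈ Finset.range J, lam j * g j L := by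
    intro L
    rw [hs, Finset.sum_range_succ', hlam', hgi]
    simp only [cLam, cG, mul_zero, add_zero]
  -- Hölder for the gap kernels
  have hW : ∀ a z, M.W hbar a z ≤ ∏ i ∈ s, (M.W (hi i) a z) ^ lam' i := by
    intro a z
    apply le_of_eq
    unfold W
    have e1 : ∀ i ∈ s, (Real.exp ((M.β * a - hi i) * M.φ z)) ^ lam' i =
        Real.exp (lam' i * ((M.β * a - hi i) * M.φ z)) := by
      intro i _
      rw [← Real.exp_mul, mul_comm]
    rw [Finset.prod_congr rfl e1, ← Real.exp_sum]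
    congr 1
    have e2 : ∀ i ∈ s, lam' i * ((M.β * a - hi i) * M.φ z) =
        (M.β * a * M.φ z) * lam' i - M.φ z * (lam' i * hi i) := by
      intro i _; ring
    rw [Finset.sum_congr rfl e2, Finset.sum_sub_distrib, ← Finset.mul_sum, ← Finset.mul_sum, l1, lh]
    ring
  have hGH : ∀ (L : ℕ) (ω : ℕ → ℝ) (x y : ℤ), M.G hbar R L ω x y ≤
      ∏ i ∈ s, (M.G (hi i) R L ω x y) ^ lam' i := fun L ω x y =>
    Gk_holder2 s lam' l0 l1 M.C (fun i => M.W (hi i)) (M.W hbar) (Finset.Icc (-(R : ℤ)) R)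
      (fun i _ a z => (M.W_pos _ a z).le) (fun a z => (M.W_pos _ a z).le) hW L ω x y
  have hGn : ∀ (h : ℝ) (L : ℕ) (ω : ℕ → ℝ) (x y : ℤ), 0 ≤ M.G h R L ω x y := fun h L ω x y =>
    (M.good_G h R L x y).nonneg ω
  set g0 : ℕ → ℝ := fun L => (fun _ => (0 : ℝ)) L - (-t) * L with hg0
  have hle : ∀ L : ℕ, 1 ≤ L → ∀ (ω : ℕ → ℝ) (x : ℤ), ∀ y ∈ Finset.Icc (-(R : ℤ)) R,
      M.Gt h'' R g0 L ω x y ≤ ∏ i ∈ s, (M.Gt (hi i) R (gi i) L ω x y) ^ lam' i := by
    intro L _ ω x y hy
    have e1 : ∏ i ∈ s, (M.Gt (hi i) R (gi i) L ω x y) ^ lam' i =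
        Real.exp (∑ i ∈ s, lam' i * gi i L) * ∏ i ∈ s, (M.G (hi i) R L ω x y) ^ lam' i := by
      rw [Real.exp_sum, ← Finset.prod_mul_distrib]
      apply Finset.prod_congr rfl
      intro i _
      unfold Gt
      rw [Real.mul_rpow (Real.exp_pos _).le (hGn _ _ _ _ _), ← Real.exp_mul, mul_comm (gi i L)]
    rw [e1]
    have hδ : 0 ≤ h'' - hbar := by rw [hhbar]; linarith
    have h2 := M.G_shift (h := hbar) hδ R L ω x y
    rw [add_sub_cancel] at h2
    have h3 : M.Gt h'' R g0 L ω x y = Real.exp (t * L) * M.G h'' R L ω x y := by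
      unfold Gt
      rw [hg0]
      simp only [zero_sub, neg_mul, neg_neg]
    rw [h3]
    have h4 : t * L ≤ ∑ i ∈ s, lam' i * gi i L + (h'' - hbar) * M.φ y := by
      rw [lg]
      by_cases hL : mb < L
      · have := hsum L hL
        have h5 : 0 ≤ (h'' - hbar) * M.φ y := mul_nonneg hδ (M.φ_pos y).le
        linarith
      · push Not at hL
        have h5 : 0 ≤ ∑ j ∈ Finset.range J, lam j * g j L :=
          Finset.sum_nonneg fun j hj => mul_nonneg (hlam j (Finset.mem_range.1 hj)).le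
            (hg j (Finset.mem_range.1 hj) L)
        have h6 : t * L ≤ t * mb := mul_le_mul_of_nonneg_left (by exact_mod_cast hL) ht
        have h7 : (h'' - hbar) * φm ≤ (h'' - hbar) * M.φ y :=
          mul_le_mul_of_nonneg_left (hφm y hy) hδ
        have h8 : h'' - h - Ck * ∑ j ∈ Finset.range J, lam j * γ j = h'' - hbar := by
          rw [hhbar]; ring
        rw [h8] at hh
        linarith
    calc Real.exp (t * L) * M.G h'' R L ω x y
        ≤ Real.exp (∑ i ∈ s, lam' i * gi i L + (h'' - hbar) * M.φ y) * M.G h'' R L ω x y :=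
          mul_le_mul_of_nonneg_right (Real.exp_le_exp.2 h4) (hGn _ _ _ _ _)
      _ = Real.exp (∑ i ∈ s, lam' i * gi i L) *
          (Real.exp ((h'' - hbar) * M.φ y) * M.G h'' R L ω x y) := by
          rw [Real.exp_add]; ring
      _ ≤ Real.exp (∑ i ∈ s, lam' i * gi i L) * M.G hbar R L ω x y :=
          mul_le_mul_of_nonneg_left h2 (Real.exp_pos _).le
      _ ≤ _ := mul_le_mul_of_nonneg_left (hGH L ω x y) (Real.exp_pos _).le
  have hRen := Ren_holder2 s lam' l0 l1 (fun i => M.Gt (hi i) R (gi i)) (M.Gt h'' R g0)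
    (Finset.Icc (-(R : ℤ)) R)
    (fun i _ L ω x y => (M.good_Gt (hi i) R (gi i) L x y).nonneg ω)
    (fun L ω x y => (M.good_Gt h'' R g0 L x y).nonneg ω) hle
  -- the main inequality
  have hmain : ∀ N : ℕ, Even N → M.Ψ h'' N ≤ (F * (1 + ε) - t) * N + B₀ := by
    intro N hN
    have hp : ∀ i ∈ s, ∀ ω, 0 < M.Rt (hi i) R (gi i) N ω := fun i hi' ω =>
      M.Rt_pos (hi i) R hN (gn i hi') ω
    have hint : ∀ i ∈ s, Integrable (fun ω => Real.log (M.Rt (hi i) R (gi i) N ω)) (seqLaw M.μ) :=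
      fun i hi' => (M.good_Rt (hi i) R (gi i) N).integrable_log M.exp_mom (hp i hi')
    have hpt : ∀ ω, t * N + Real.log (M.Z h'' N ω 0 0) ≤
        ∑ i ∈ s, lam' i * Real.log (M.Rt (hi i) R (gi i) N ω) := by
      intro ω
      have h1 : Ren (M.Gt h'' R g0) (Finset.Icc (-(R : ℤ)) R) N ω 0 0 ≤
        ∏ i ∈ s, (M.Rt (hi i) R (gi i) N ω) ^ lam' i := hRen N ω 0 0
      have h2 : Ren (M.Gt h'' R g0) (Finset.Icc (-(R : ℤ)) R) N ω 0 0 =
          Real.exp (t * N) * M.Z h'' N ω 0 0 := by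
        have h3 := M.Rt_tilt h'' R (fun _ => (0 : ℝ)) (-t) N ω
        rw [M.Rt_zero_eq, neg_neg] at h3
        exact h3
      rw [h2] at h1
      have hZ := M.Z_pos h'' hN ω
      have h4 := Real.log_le_log (mul_pos (Real.exp_pos _) hZ) h1
      rw [Real.log_mul (Real.exp_pos _).ne' hZ.ne', Real.log_exp, Real.log_prod
        (fun i hi' => (Real.rpow_pos_of_pos (hp i hi' ω) _).ne')] at h4
      refine h4.trans (le_of_eq ?_)
      apply Finset.sum_congr rfl
      intro i hi'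
      exact Real.log_rpow (hp i hi' ω) _
    have h5 : t * N + M.Ψ h'' N ≤ ∑ i ∈ s, lam' i * M.ΨR (hi i) R (gi i) N := by
      have h6 : ∫ ω, (t * N + Real.log (M.Z h'' N ω 0 0)) ∂seqLaw M.μ ≤
          ∫ ω, ∑ i ∈ s, lam' i * Real.log (M.Rt (hi i) R (gi i) N ω) ∂seqLaw M.μ :=
        integral_mono ((integrable_const _).add (M.integrable_logZ h'' hN))
          (integrable_finsetSum _ fun i hi' => (hint i hi').const_mul _) hpt
      rw [integral_add (integrable_const _) (M.integrable_logZ h'' hN),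
        integral_finsetSum _ (fun i hi' => (hint i hi').const_mul _)] at h6
      simp only [integral_const, probReal_univ, smul_eq_mul, one_mul] at h6
      refine h6.trans (le_of_eq ?_)
      apply Finset.sum_congr rfl
      intro i _
      rw [integral_const_mul]
      rfl
    have h7 : ∑ i ∈ s, lam' i * M.ΨR (hi i) R (gi i) N ≤
        ∑ i ∈ s, lam' i * (F * (1 + ε) * N + B₀) := by
      apply Finset.sum_le_sum
      intro i hi'
      apply mul_le_mul_of_nonneg_left _ (l0 i hi').le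
      rw [hs, Finset.mem_range] at hi'
      cases i with
      | zero =>
        rw [hhi, hgi]
        simp only [cH, cG]
        have h8 : M.ΨR h R (fun _ => 0) N = M.Ψ h N := by
          unfold ΨR Ψ
          simp only [M.Rt_zero_eq]
        rw [h8]
        have h9 := M.Ψ_le_Fr h hN
        have h10 : (N : ℝ) * M.Fr h ≤ N * F := mul_le_mul_of_nonneg_left hF (Nat.cast_nonneg _)
        have h11 : 0 ≤ F * ε * N := by positivity
        linarith
      | succ j =>
        rw [hhi, hgi]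
        simp only [cH, cG]
        exact hΨ j (by omega) N hN
    rw [← Finset.sum_mul, l1, one_mul] at h7
    linarith
  -- limit
  have h1 : Tendsto (fun n : ℕ => (F * (1 + ε) - t) + B₀ / (2 * n : ℝ)) atTop
      (𝓝 (F * (1 + ε) - t)) := by
    have h2 : Tendsto (fun n : ℕ => (2 * n : ℝ)) atTop atTop :=
      tendsto_natCast_atTop_atTop.const_mul_atTop (by norm_num)
    have h3 := (h2.const_div_atTop B₀).const_add (F * (1 + ε) - t)
    rwa [add_zero] at h3
  have h2 : M.Fr h'' ≤ F * (1 + ε) - t := by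
    refine le_of_tendsto_of_tendsto (M.tendsto_Fr h'') h1 ?_
    filter_upwards [eventually_gt_atTop 0] with n hn
    have h3 := hmain (2 * n) (even_two_mul n)
    have h4 : (0 : ℝ) < 2 * n := by positivity
    rw [div_le_iff₀ h4, add_mul, div_mul_cancel₀ _ h4.ne']
    push_cast at h3
    exact h3
  linarith

end Model

end

end MP_daa227_pr
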