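import Pool.Agent.Lib.MP_daa227_pr.Seq

/-!
# Concentration of Lipschitz functions of i.i.d. charges
-/

open MeasureTheory ProbabilityTheory Set Filter
open scoped ENNReal

namespace MP_daa227_pr

noncomputable section

/-- All exponential moments are finite. -/
def ExpMom (μ : Measure ℝ) : Prop := ∀ t : ℝ, Integrable (fun x => Real.exp (t * x)) μ

/-- `f` depends on the first `k` charges and is `κ`-Lipschitz in each. -/
def LipOn (k : ℕ) (κ : ℝ) (f : (ℕ → ℝ) → ℝ) : Prop :=
  ∀ ω ω' : ℕ → ℝ, |f ω - f ω'| ≤ κ * ∑ i ∈ Finset.range k, |ω i - ω' i|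

set_option linter.unusedSectionVars false

section
variable {μ : Measure ℝ} [IsProbabilityMeasure μ]

lemma ExpMom.abs (h : ExpMom μ) (t : ℝ) : Integrable (fun x => Real.exp (t * |x|)) μ := by
  refine ((h t).add (h (-t))).mono' (by fun_prop) (ae_of_all _ fun x => ?_)
  rw [Real.norm_eq_abs, abs_of_pos (Real.exp_pos _)]
  rcases abs_cases x with ⟨h1, _⟩ | ⟨h1, _⟩ <;> rw [h1] <;> simp only [Pi.add_apply]
  · linarith [Real.exp_pos (-t * x)]
  · rw [show t * -x = -t * x by ring]
    linarith [Real.exp_pos (t * x)]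

lemma ExpMom.sq_abs (h : ExpMom μ) (t : ℝ) : Integrable (fun x => x ^ 2 * Real.exp (t * |x|)) μ := by
  refine ((h.abs (t + 1)).const_mul 2).mono' (by fun_prop) (ae_of_all _ fun x => ?_)
  rw [Real.norm_eq_abs, abs_of_nonneg (by positivity)]
  have h1 : x ^ 2 ≤ 2 * Real.exp |x| := by
    have := Real.quadratic_le_exp_of_nonneg (abs_nonneg x)
    rw [_root_.sq_abs] at this
    nlinarith [abs_nonneg x]
  rw [show (t + 1) * |x| = |x| + t * |x| by ring, Real.exp_add]
  nlinarith [Real.exp_pos (t * |x|)]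

lemma ExpMom.integrable_abs (h : ExpMom μ) : Integrable (fun x => |x|) μ := by
  refine (h.abs 1).mono' (by fun_prop) (ae_of_all _ fun x => ?_)
  rw [Real.norm_eq_abs, abs_abs, one_mul]
  linarith [Real.add_one_le_exp |x|]

lemma ExpMom.integrable_id (h : ExpMom μ) : Integrable (fun x : ℝ => x) μ := by
  refine h.integrable_abs.mono' (by fun_prop) (ae_of_all _ fun x => le_rfl)

lemma LipOn.depOn {k : ℕ} {κ : ℝ} {f : (ℕ → ℝ) → ℝ} (h : LipOn k κ f) : DepOn k f := by
  intro ω ω' hω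
  have h1 := h ω ω'
  rw [Finset.sum_eq_zero (fun i hi => by rw [hω i (Finset.mem_range.1 hi)]; simp), mul_zero] at h1
  have := abs_nonneg (f ω - f ω')
  have h2 : |f ω - f ω'| = 0 := le_antisymm h1 this
  rw [abs_eq_zero] at h2
  linarith

lemma LipOn.integrable {k : ℕ} {κ : ℝ} {f : (ℕ → ℝ) → ℝ} (h : LipOn k κ f) (hm : Measurable f)
    (hexp : ExpMom μ) : Integrable f (seqLaw μ) := by
  have h1 : Integrable (fun ω : ℕ → ℝ => |f (fun _ => 0)| + κ * ∑ i ∈ Finset.range k, |ω i|) (seqLaw μ) := by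
    refine (integrable_const _).add (Integrable.const_mul ?_ _)
    exact integrable_finsetSum _ fun i _ =>
      integrable_apply μ i (Y := fun x => |x|) (by fun_prop) hexp.integrable_abs
  refine h1.mono' hm.aestronglyMeasurable (ae_of_all _ fun ω => ?_)
  have h2 := h ω (fun _ => 0)
  simp only [sub_zero] at h2
  rw [Real.norm_eq_abs]
  have h3 : |f ω| ≤ |f (fun _ => 0)| + |f ω - f (fun _ => 0)| := by
    have := abs_add_le (f (fun _ => 0)) (f ω - f (fun _ => 0))
    rw [add_sub_cancel] at this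
    exact this
  linarith

lemma sum_cons (k : ℕ) (x x' : ℝ) (ω ω' : ℕ → ℝ) :
    ∑ i ∈ Finset.range (k + 1), |cons x ω i - cons x' ω' i| =
      |x - x'| + ∑ i ∈ Finset.range k, |ω i - ω' i| := by
  rw [Finset.sum_range_succ']
  simp only [cons_succ, cons_zero]
  ring

lemma sinh_mul_le {γ v : ℝ} (h0 : 0 ≤ γ) (h1 : γ ≤ 1) (hv : 0 ≤ v) :
    Real.sinh (γ * v) ≤ γ * Real.sinh v := by
  have hc : ConvexOn ℝ (Set.Ici (0 : ℝ)) Real.sinh := by
    apply MonotoneOn.convexOn_of_deriv (convex_Ici 0) Real.continuous_sinh.continuousOn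
      Real.differentiable_sinh.differentiableOn
    rw [Real.deriv_sinh, interior_Ici]
    intro a ha b hb hab
    rw [Real.cosh_le_cosh, abs_of_pos ha, abs_of_pos hb]
    exact hab
  have h2 := hc.2 (x := v) (y := 0) hv (Set.mem_Ici.2 le_rfl) h0 (sub_nonneg.2 h1) (by ring)
  simpa [smul_eq_mul] using h2

lemma cosh_mul_le {γ u : ℝ} (h1 : |γ| ≤ 1) :
    Real.cosh (γ * u) ≤ 1 + γ ^ 2 * Real.cosh u := by
  have key : ∀ w : ℝ, Real.cosh w = 1 + 2 * Real.sinh (|w| / 2) ^ 2 := by
    intro w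
    rw [← Real.cosh_abs w, show |w| = 2 * (|w| / 2) by ring, Real.cosh_two_mul, Real.cosh_sq]
    ring_nf
  rw [key (γ * u), key u]
  have h2 : |γ * u| / 2 = |γ| * (|u| / 2) := by rw [abs_mul]; ring
  rw [h2]
  have h3 := sinh_mul_le (abs_nonneg γ) h1 (v := |u| / 2) (by positivity)
  have h4 : 0 ≤ Real.sinh (|γ| * (|u| / 2)) := Real.sinh_nonneg_iff.2 (by positivity)
  have h5 : Real.sinh (|γ| * (|u| / 2)) ^ 2 ≤ (|γ| * Real.sinh (|u| / 2)) ^ 2 :=
    pow_le_pow_left₀ h4 h3 2
  rw [mul_pow, _root_.sq_abs] at h5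
  nlinarith [sq_nonneg γ]

/-- The constant of the concentration inequality. -/
def concK (μ : Measure ℝ) (κ : ℝ) : ℝ :=
  (∫⁻ x, ∫⁻ y, ENNReal.ofReal (Real.cosh (κ * (x - y))) ∂μ ∂μ).toReal

lemma concK_nonneg (μ : Measure ℝ) (κ : ℝ) : 0 ≤ concK μ κ := ENNReal.toReal_nonneg

lemma concK_lt_top (hexp : ExpMom μ) (κ : ℝ) :
    ∫⁻ x, ∫⁻ y, ENNReal.ofReal (Real.cosh (κ * (x - y))) ∂μ ∂μ < ∞ := by
  have hI : ∫⁻ x, ENNReal.ofReal (Real.exp (|κ| * |x|)) ∂μ < ∞ := by
    have := (hexp.abs |κ|).hasFiniteIntegral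
    rw [hasFiniteIntegral_iff_ofReal (ae_of_all _ fun x => (Real.exp_pos _).le)] at this
    exact this
  calc ∫⁻ x, ∫⁻ y, ENNReal.ofReal (Real.cosh (κ * (x - y))) ∂μ ∂μ
      ≤ ∫⁻ x, ∫⁻ y, ENNReal.ofReal (Real.exp (|κ| * |x|)) * ENNReal.ofReal (Real.exp (|κ| * |y|)) ∂μ ∂μ := by
        apply lintegral_mono; intro x
        apply lintegral_mono; intro y
        dsimp only
        rw [← ENNReal.ofReal_mul (Real.exp_pos _).le, ← Real.exp_add]
        apply ENNReal.ofReal_le_ofReal
        have h1 : |κ * (x - y)| ≤ |κ| * |x| + |κ| * |y| := by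
          rw [abs_mul, ← mul_add]
          exact mul_le_mul_of_nonneg_left (abs_sub _ _) (abs_nonneg _)
        rw [← Real.cosh_abs, Real.cosh_eq]
        have h2 : Real.exp (|κ * (x - y)|) ≤ Real.exp (|κ| * |x| + |κ| * |y|) := Real.exp_le_exp.2 h1
        have h3 : Real.exp (-|κ * (x - y)|) ≤ Real.exp (|κ * (x - y)|) :=
          Real.exp_le_exp.2 (by linarith [abs_nonneg (κ * (x - y))])
        linarith
    _ = (∫⁻ x, ENNReal.ofReal (Real.exp (|κ| * |x|)) ∂μ) * ∫⁻ x, ENNReal.ofReal (Real.exp (|κ| * |x|)) ∂μ := by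
        have h1 : ∀ x, ∫⁻ y, ENNReal.ofReal (Real.exp (|κ| * |x|)) * ENNReal.ofReal (Real.exp (|κ| * |y|)) ∂μ
            = ENNReal.ofReal (Real.exp (|κ| * |x|)) * ∫⁻ y, ENNReal.ofReal (Real.exp (|κ| * |y|)) ∂μ :=
          fun x => lintegral_const_mul _ (by fun_prop)
        simp_rw [h1]
        rw [lintegral_mul_const _ (by fun_prop)]
    _ < ∞ := ENNReal.mul_lt_top hI hI

/-- One dimensional step. -/
lemma conc_one (hexp : ExpMom μ) {f : ℝ → ℝ} (hf : Measurable f) {κ : ℝ}
    (hl : ∀ x y, |f x - f y| ≤ κ * |x - y|) {γ : ℝ} (hγ : |γ| ≤ 1) :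
    ∫⁻ x, ENNReal.ofReal (Real.exp (γ * (f x - ∫ y, f y ∂μ))) ∂μ ≤
      ENNReal.ofReal (Real.exp (concK μ κ * γ ^ 2)) := by
  have hfb : ∀ y, |f y| ≤ |f 0| + κ * |y| := by
    intro y
    have h1 := hl y 0
    rw [sub_zero] at h1
    have := abs_add_le (f 0) (f y - f 0)
    rw [add_sub_cancel] at this
    linarith
  have hfi : Integrable f μ := by
    refine ((integrable_const |f 0|).add (hexp.integrable_abs.const_mul κ)).mono' hf.aestronglyMeasurable
      (ae_of_all _ fun y => ?_)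
    rw [Real.norm_eq_abs]
    exact hfb y
  have hei : Integrable (fun y => Real.exp (-γ * f y)) μ := by
    refine ((hexp.abs (|γ| * κ)).const_mul (Real.exp (|γ| * |f 0|))).mono' (by fun_prop)
      (ae_of_all _ fun y => ?_)
    rw [Real.norm_eq_abs, abs_of_pos (Real.exp_pos _), ← Real.exp_add]
    apply Real.exp_le_exp.2
    have h1 : -γ * f y ≤ |γ| * |f y| := by
      rw [← abs_neg γ, ← abs_mul]; exact le_abs_self _
    have h2 := mul_le_mul_of_nonneg_left (hfb y) (abs_nonneg γ)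
    nlinarith
  have hJ : Real.exp (-γ * ∫ y, f y ∂μ) ≤ ∫ y, Real.exp (-γ * f y) ∂μ := by
    have h1 := convexOn_exp.map_integral_le (μ := μ) (f := fun y => -γ * f y)
      Real.continuous_exp.continuousOn isClosed_univ (ae_of_all _ fun _ => Set.mem_univ _)
      (hfi.const_mul _) hei
    rw [integral_const_mul] at h1
    exact h1
  have hJ2 : ENNReal.ofReal (Real.exp (-γ * ∫ y, f y ∂μ)) ≤ ∫⁻ y, ENNReal.ofReal (Real.exp (-γ * f y)) ∂μ := by
    rw [← ofReal_integral_eq_lintegral_ofReal hei (ae_of_all _ fun _ => (Real.exp_pos _).le)]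
    exact ENNReal.ofReal_le_ofReal hJ
  set I := ∫⁻ x, ∫⁻ y, ENNReal.ofReal (Real.exp (γ * (f x - f y))) ∂μ ∂μ with hI
  have h1 : ∫⁻ x, ENNReal.ofReal (Real.exp (γ * (f x - ∫ y, f y ∂μ))) ∂μ ≤ I := by
    apply lintegral_mono; intro x
    dsimp only
    calc ENNReal.ofReal (Real.exp (γ * (f x - ∫ y, f y ∂μ)))
        = ENNReal.ofReal (Real.exp (γ * f x)) * ENNReal.ofReal (Real.exp (-γ * ∫ y, f y ∂μ)) := by
          rw [← ENNReal.ofReal_mul (Real.exp_pos _).le, ← Real.exp_add]; congr 2; ring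
      _ ≤ ENNReal.ofReal (Real.exp (γ * f x)) * ∫⁻ y, ENNReal.ofReal (Real.exp (-γ * f y)) ∂μ :=
          mul_le_mul_right hJ2 _
      _ = ∫⁻ y, ENNReal.ofReal (Real.exp (γ * (f x - f y))) ∂μ := by
          rw [← lintegral_const_mul _ (by fun_prop)]
          congr 1; ext y
          rw [← ENNReal.ofReal_mul (Real.exp_pos _).le, ← Real.exp_add]; congr 2; ring
  have h2 : I = ∫⁻ x, ∫⁻ y, ENNReal.ofReal (Real.exp (γ * (f y - f x))) ∂μ ∂μ := by
    rw [hI, lintegral_lintegral_swap]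
    apply Measurable.aemeasurable
    have : Measurable (fun q : ℝ × ℝ => ENNReal.ofReal (Real.exp (γ * (f q.1 - f q.2)))) := by fun_prop
    exact this
  have h3 : I + I = 2 * ∫⁻ x, ∫⁻ y, ENNReal.ofReal (Real.cosh (γ * (f x - f y))) ∂μ ∂μ := by
    conv_lhs => rw [h2]
    conv_lhs => lhs; rw [← h2, hI]
    rw [← lintegral_add_left (by
      have : Measurable (fun q : ℝ × ℝ => ENNReal.ofReal (Real.exp (γ * (f q.1 - f q.2)))) := by fun_prop
      exact this.lintegral_prod_right')]
    rw [← lintegral_const_mul _ (by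
      have : Measurable (fun q : ℝ × ℝ => ENNReal.ofReal (Real.cosh (γ * (f q.1 - f q.2)))) := by
        apply Measurable.ennreal_ofReal
        exact Real.measurable_cosh.comp (by fun_prop)
      exact this.lintegral_prod_right')]
    congr 1; ext x
    rw [← lintegral_add_left (by fun_prop)]
    rw [← lintegral_const_mul _ (by
        apply Measurable.ennreal_ofReal
        exact Real.measurable_cosh.comp (by fun_prop))]
    congr 1; ext y
    rw [← ENNReal.ofReal_add (Real.exp_pos _).le (Real.exp_pos _).le,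
      show (2 : ℝ≥0∞) = ENNReal.ofReal 2 by simp, ← ENNReal.ofReal_mul (by norm_num), Real.cosh_eq]
    congr 1
    rw [show -(γ * (f x - f y)) = γ * (f y - f x) by ring]
    ring
  have h4 : I = ∫⁻ x, ∫⁻ y, ENNReal.ofReal (Real.cosh (γ * (f x - f y))) ∂μ ∂μ := by
    rw [← two_mul] at h3
    exact (ENNReal.mul_right_inj (by norm_num) (by norm_num)).1 h3
  have h5 : I ≤ ∫⁻ x, ∫⁻ y, (1 + ENNReal.ofReal (γ ^ 2) * ENNReal.ofReal (Real.cosh (κ * (x - y)))) ∂μ ∂μ := by
    rw [h4]
    apply lintegral_mono; intro x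
    apply lintegral_mono; intro y
    dsimp only
    rw [← ENNReal.ofReal_mul (sq_nonneg γ), show (1 : ℝ≥0∞) = ENNReal.ofReal 1 by simp,
      ← ENNReal.ofReal_add zero_le_one (mul_nonneg (sq_nonneg γ) (Real.cosh_pos _).le)]
    apply ENNReal.ofReal_le_ofReal
    refine le_trans ?_ (cosh_mul_le (u := κ * (x - y)) hγ)
    rw [Real.cosh_le_cosh, abs_mul, abs_mul, abs_mul]
    refine mul_le_mul_of_nonneg_left ((hl x y).trans ?_) (abs_nonneg γ)
    exact mul_le_mul_of_nonneg_right (le_abs_self κ) (abs_nonneg _)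
  have h6 : ∫⁻ x, ∫⁻ y, (1 + ENNReal.ofReal (γ ^ 2) * ENNReal.ofReal (Real.cosh (κ * (x - y)))) ∂μ ∂μ
      = 1 + ENNReal.ofReal (γ ^ 2) * ENNReal.ofReal (concK μ κ) := by
    have hm : Measurable (fun q : ℝ × ℝ => ENNReal.ofReal (Real.cosh (κ * (q.1 - q.2)))) := by
        apply Measurable.ennreal_ofReal
        exact Real.measurable_cosh.comp (by fun_prop)
    have h7 : ∀ x, ∫⁻ y, (1 + ENNReal.ofReal (γ ^ 2) * ENNReal.ofReal (Real.cosh (κ * (x - y)))) ∂μ
        = 1 + ENNReal.ofReal (γ ^ 2) * ∫⁻ y, ENNReal.ofReal (Real.cosh (κ * (x - y))) ∂μ := by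
      intro x
      have hm' : Measurable (fun y : ℝ => ENNReal.ofReal (Real.cosh (κ * (x - y)))) :=
        hm.comp measurable_prodMk_left
      rw [lintegral_add_left measurable_const, lintegral_const_mul _ hm']
      simp
    simp_rw [h7]
    rw [lintegral_add_left measurable_const, lintegral_const_mul _ hm.lintegral_prod_right']
    rw [concK, ENNReal.ofReal_toReal (concK_lt_top hexp κ).ne]
    simp
  calc _ ≤ I := h1
    _ ≤ _ := h5
    _ = 1 + ENNReal.ofReal (γ ^ 2) * ENNReal.ofReal (concK μ κ) := h6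
    _ = ENNReal.ofReal (1 + γ ^ 2 * concK μ κ) := by
        rw [ENNReal.ofReal_add zero_le_one (mul_nonneg (sq_nonneg _) (concK_nonneg _ _)),
          ENNReal.ofReal_mul (sq_nonneg _)]
        simp
    _ ≤ _ := by
        apply ENNReal.ofReal_le_ofReal
        have := Real.add_one_le_exp (concK μ κ * γ ^ 2)
        linarith

/-- Concentration for Lipschitz functions of the first `k` charges. -/
lemma conc (hexp : ExpMom μ) {κ γ : ℝ} (hγ : |γ| ≤ 1) :
    ∀ (k : ℕ) {f : (ℕ → ℝ) → ℝ}, Measurable f → LipOn k κ f →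
      ∫⁻ ω, ENNReal.ofReal (Real.exp (γ * (f ω - ∫ ω', f ω' ∂seqLaw μ))) ∂seqLaw μ ≤
        ENNReal.ofReal (Real.exp (concK μ κ * γ ^ 2 * k))
  | 0, f, hf, hl => by
      have hc : ∀ ω, f ω = f (fun _ => 0) := fun ω => hl.depOn _ _ (by simp)
      have h1 : ∫ ω', f ω' ∂seqLaw μ = f (fun _ => 0) := by
        simp_rw [hc]; simp
      rw [h1]
      have h2 : ∀ ω, ENNReal.ofReal (Real.exp (γ * (f ω - f (fun _ => 0)))) = 1 := by
        intro ω; rw [hc ω]; simp
      simp_rw [h2]
      simp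
  | k + 1, f, hf, hl => by
      have hfi : Integrable f (seqLaw μ) := hl.integrable hf hexp
      set g : (ℕ → ℝ) → ℝ := fun ω => ∫ x, f (cons x ω) ∂μ with hg
      have hsec : ∀ ω, ∀ x y, |f (cons x ω) - f (cons y ω)| ≤ κ * |x - y| := by
        intro ω x y
        have := hl (cons x ω) (cons y ω)
        rw [sum_cons] at this
        simpa using this
      have hmc : Measurable (fun q : ℝ × (ℕ → ℝ) => f (cons q.1 q.2)) := hf.comp measurable_cons
      have hsecm : ∀ ω, Measurable (fun x => f (cons x ω)) := fun ω => hmc.comp measurable_prodMk_right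
      have hseci : ∀ ω, Integrable (fun x => f (cons x ω)) μ := by
        intro ω
        refine ((integrable_const |f (cons 0 ω)|).add (hexp.integrable_abs.const_mul κ)).mono'
          (hsecm ω).aestronglyMeasurable (ae_of_all _ fun y => ?_)
        rw [Real.norm_eq_abs]
        have h1 := hsec ω y 0
        rw [sub_zero] at h1
        have := abs_add_le (f (cons 0 ω)) (f (cons y ω) - f (cons 0 ω))
        rw [add_sub_cancel] at this
        simp only [Pi.add_apply]
        linarith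
      have hgm : Measurable g := by
        have : StronglyMeasurable (fun ω : ℕ → ℝ => ∫ x, (fun q : (ℕ → ℝ) × ℝ => f (cons q.2 q.1)) (ω, x) ∂μ) :=
          StronglyMeasurable.integral_prod_right'
            (hmc.comp measurable_swap).stronglyMeasurable
        exact this.measurable
      have hgl : LipOn k κ g := by
        intro ω ω'
        rw [hg]
        dsimp only
        rw [← integral_sub (hseci ω) (hseci ω')]
        have h1 := norm_integral_le_of_norm_le_const (μ := μ) (f := fun x => f (cons x ω) - f (cons x ω'))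
          (C := κ * ∑ i ∈ Finset.range k, |ω i - ω' i|) (ae_of_all _ fun x => by
            rw [Real.norm_eq_abs]
            have := hl (cons x ω) (cons x ω')
            rw [sum_cons] at this
            simpa using this)
        simpa using h1
      have hgint : ∫ ω, g ω ∂seqLaw μ = ∫ ω, f ω ∂seqLaw μ := (integral_cons_symm μ hf hfi).symm
      set c := ∫ ω, f ω ∂seqLaw μ with hc
      rw [lintegral_cons_symm μ (F := fun ω => ENNReal.ofReal (Real.exp (γ * (f ω - c)))) (by fun_prop)]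
      calc ∫⁻ ω, ∫⁻ x, ENNReal.ofReal (Real.exp (γ * (f (cons x ω) - c))) ∂μ ∂seqLaw μ
          = ∫⁻ ω, ENNReal.ofReal (Real.exp (γ * (g ω - c))) *
              ∫⁻ x, ENNReal.ofReal (Real.exp (γ * (f (cons x ω) - g ω))) ∂μ ∂seqLaw μ := by
            congr 1; ext ω
            rw [← lintegral_const_mul _ ((((hsecm ω).sub_const _).const_mul γ).exp).ennreal_ofReal]
            congr 1; ext x
            rw [← ENNReal.ofReal_mul (Real.exp_pos _).le, ← Real.exp_add]
            congr 2; ring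
        _ ≤ ∫⁻ ω, ENNReal.ofReal (Real.exp (γ * (g ω - c))) *
              ENNReal.ofReal (Real.exp (concK μ κ * γ ^ 2)) ∂seqLaw μ := by
            apply lintegral_mono; intro ω
            exact mul_le_mul_right (conc_one hexp (hsecm ω) (hsec ω) hγ) _
        _ = (∫⁻ ω, ENNReal.ofReal (Real.exp (γ * (g ω - ∫ ω', g ω' ∂seqLaw μ))) ∂seqLaw μ) *
              ENNReal.ofReal (Real.exp (concK μ κ * γ ^ 2)) := by
            rw [lintegral_mul_const _ (by fun_prop), hgint]
        _ ≤ ENNReal.ofReal (Real.exp (concK μ κ * γ ^ 2 * k)) * ENNReal.ofReal (Real.exp (concK μ κ * γ ^ 2)) :=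
            mul_le_mul_left (conc hexp hγ k hgm hgl) _
        _ = _ := by
            rw [← ENNReal.ofReal_mul (Real.exp_pos _).le, ← Real.exp_add]
            congr 2
            push_cast
            ring

end

end

end MP_daa227_pr
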