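import Pool.Agent.Lib.MP_daa227_pr.SmDefs

/-!
# Module DENS: change of measure cost for a tilt of `n` coordinates
-/

open MeasureTheory ProbabilityTheory Set Filter
open scoped ENNReal Topology

namespace MP_daa227_pr

noncomputable section

namespace Dens

/-- The one-coordinate density of the tilted law. -/
def r (μ : Measure ℝ) (t : ℝ) (x : ℝ) : ℝ := Real.exp (t * x) / ∫ y, Real.exp (t * y) ∂μ

/-- The density of the first `n` coordinates. -/
def rho (μ : Measure ℝ) (t : ℝ) (n : ℕ) (ω : ℕ → ℝ) : ℝ := ∏ k ∈ Finset.range n, r μ t (ω k)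

set_option linter.unusedSectionVars false

section
variable {μ : Measure ℝ} [IsProbabilityMeasure μ]

lemma mgf_ge_one (hexp : ExpMom μ) (hmean : ∫ x, x ∂μ = 0) (t : ℝ) :
    1 ≤ ∫ y, Real.exp (t * y) ∂μ := by
  have h1 : ∫ y, (t * y + 1) ∂μ ≤ ∫ y, Real.exp (t * y) ∂μ := by
    apply integral_mono
    · exact (hexp.integrable_id.const_mul t).add (integrable_const _)
    · exact hexp t
    · intro y
      exact Real.add_one_le_exp _
  rw [integral_add (hexp.integrable_id.const_mul t) (integrable_const _), integral_const_mul,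
    hmean] at h1
  simpa using h1

lemma r_nonneg (t x : ℝ) : 0 ≤ r μ t x :=
  div_nonneg (Real.exp_pos _).le (integral_nonneg fun _ => (Real.exp_pos _).le)

lemma measurable_r (t : ℝ) : Measurable (r μ t) := by
  unfold r
  fun_prop

lemma measurable_rho (t : ℝ) (n : ℕ) : Measurable (rho μ t n) := by
  unfold rho
  apply Finset.measurable_prod
  intro k _
  exact (measurable_r t).comp (measurable_pi_apply k)

lemma rho_nonneg (t : ℝ) (n : ℕ) (ω : ℕ → ℝ) : 0 ≤ rho μ t n ω :=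
  Finset.prod_nonneg fun _ _ => r_nonneg _ _

lemma rho_cons (t : ℝ) (n : ℕ) (x : ℝ) (ω : ℕ → ℝ) :
    rho μ t (n + 1) (cons x ω) = r μ t x * rho μ t n ω := by
  unfold rho
  rw [Finset.prod_range_succ']
  simp [mul_comm]

lemma lintegral_tilted (hexp : ExpMom μ) (t : ℝ) :
    ∀ (n : ℕ) {Y : (ℕ → ℝ) → ℝ≥0∞}, Measurable Y → DepOn n Y →
      ∫⁻ ω, Y ω ∂seqLaw (μ.tilted (fun x => t * x)) =
        ∫⁻ ω, ENNReal.ofReal (rho μ t n ω) * Y ω ∂seqLaw μ := by
  have : IsProbabilityMeasure (μ.tilted (fun x => t * x)) := isProbabilityMeasure_tilted (hexp t)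
  intro n
  induction n with
  | zero =>
    intro Y hY hd
    have hc : ∀ ω, Y ω = Y (fun _ => 0) := fun ω => hd _ _ (by simp)
    simp_rw [hc]
    simp [rho]
  | succ n ih =>
    intro Y hY hd
    rw [lintegral_cons _ hY]
    have h1 : ∀ x, ∫⁻ ω, Y (cons x ω) ∂seqLaw (μ.tilted (fun x => t * x)) =
        ∫⁻ ω, ENNReal.ofReal (rho μ t n ω) * Y (cons x ω) ∂seqLaw μ := fun x =>
      ih (hY.comp (measurable_cons' x)) (hd.cons x)
    simp_rw [h1]
    have hm : Measurable fun x => ∫⁻ ω, ENNReal.ofReal (rho μ t n ω) * Y (cons x ω) ∂seqLaw μ := by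
      apply Measurable.lintegral_prod_right'
        (f := fun q : ℝ × (ℕ → ℝ) => ENNReal.ofReal (rho μ t n q.2) * Y (cons q.1 q.2))
      exact (((measurable_rho t n).comp measurable_snd).ennreal_ofReal).mul
        (hY.comp measurable_cons)
    have hw : Measurable fun x => ENNReal.ofReal (Real.exp (t * x) / ∫ y, Real.exp (t * y) ∂μ) := by
      fun_prop
    unfold Measure.tilted
    rw [lintegral_withDensity_eq_lintegral_mul _ hw hm,
      lintegral_cons μ (F := fun ω => ENNReal.ofReal (rho μ t (n + 1) ω) * Y ω)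
        ((measurable_rho t (n + 1)).ennreal_ofReal.mul hY)]
    apply lintegral_congr
    intro x
    have hmm : Measurable fun ω => ENNReal.ofReal (rho μ t n ω) * Y (cons x ω) :=
      (measurable_rho t n).ennreal_ofReal.mul (hY.comp (measurable_cons' x))
    rw [Pi.mul_apply, ← lintegral_const_mul _ hmm]
    apply lintegral_congr
    intro ω
    rw [rho_cons, ENNReal.ofReal_mul (r_nonneg _ _), mul_assoc]
    rfl

lemma lintegral_rho_pow (t : ℝ) (s : ℕ) : ∀ n : ℕ,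
    ∫⁻ ω, ENNReal.ofReal (rho μ t n ω) ^ s ∂seqLaw μ =
      (∫⁻ x, ENNReal.ofReal (r μ t x) ^ s ∂μ) ^ n := by
  intro n
  induction n with
  | zero => simp [rho]
  | succ n ih =>
    rw [lintegral_cons μ (F := fun ω => ENNReal.ofReal (rho μ t (n + 1) ω) ^ s)
      ((measurable_rho t (n + 1)).ennreal_ofReal.pow_const s)]
    have h1 : ∀ x, ∫⁻ ω, ENNReal.ofReal (rho μ t (n + 1) (cons x ω)) ^ s ∂seqLaw μ =
        ENNReal.ofReal (r μ t x) ^ s * (∫⁻ x, ENNReal.ofReal (r μ t x) ^ s ∂μ) ^ n := by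
      intro x
      rw [← ih, ← lintegral_const_mul _ ((measurable_rho t n).ennreal_ofReal.pow_const s)]
      apply lintegral_congr
      intro ω
      rw [rho_cons, ENNReal.ofReal_mul (r_nonneg _ _), mul_pow]
    simp_rw [h1]
    rw [lintegral_mul_const _ ((measurable_r t).ennreal_ofReal.pow_const s), pow_succ, mul_comm]

/-- The constant. -/
def Cs (μ : Measure ℝ) (s : ℕ) : ℝ := (s : ℝ) ^ 2 * ∫ x, x ^ 2 * Real.exp (s * |x|) ∂μ

lemma Cs_nonneg (s : ℕ) : 0 ≤ Cs μ s := by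
  unfold Cs
  apply mul_nonneg (sq_nonneg _)
  exact integral_nonneg fun x => by positivity

lemma mgf_le (hexp : ExpMom μ) (hmean : ∫ x, x ∂μ = 0) {t : ℝ} (h0 : 0 ≤ t) (h1 : t ≤ 1)
    (s : ℕ) : ∫ x, Real.exp (s * t * x) ∂μ ≤ 1 + Cs μ s * t ^ 2 := by
  have hi := hexp.sq_abs (s : ℝ)
  have h2 : ∫ x, Real.exp (s * t * x) ∂μ ≤
      ∫ x, (1 + s * t * x + (s * t) ^ 2 * (x ^ 2 * Real.exp (s * |x|))) ∂μ := by
    apply integral_mono (hexp (s * t))
    · exact ((integrable_const _).add (hexp.integrable_id.const_mul (s * t))).add (hi.const_mul _)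
    intro x
    dsimp only
    refine (Model.exp_le_quad (s * t * x)).trans ?_
    rw [mul_pow (s * t) x, mul_assoc ((s * t) ^ 2)]
    have h3 : Real.exp |s * t * x| ≤ Real.exp (s * |x|) := by
      apply Real.exp_le_exp.2
      rw [abs_mul, abs_of_nonneg (by positivity)]
      apply mul_le_mul_of_nonneg_right _ (abs_nonneg x)
      calc (s : ℝ) * t ≤ s * 1 := mul_le_mul_of_nonneg_left h1 (Nat.cast_nonneg _)
        _ = s := mul_one _
    have h4 := mul_le_mul_of_nonneg_left (mul_le_mul_of_nonneg_left h3 (sq_nonneg x))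
      (sq_nonneg (s * t))
    linarith
  have h5 : ∫ x, (1 + s * t * x + (s * t) ^ 2 * (x ^ 2 * Real.exp (s * |x|))) ∂μ
      = 1 + Cs μ s * t ^ 2 := by
    have hA : Integrable (fun x => 1 + s * t * x) μ :=
      (integrable_const _).add (hexp.integrable_id.const_mul (s * t))
    rw [integral_add hA (hi.const_mul _),
      integral_add (integrable_const _) (hexp.integrable_id.const_mul (s * t)),
      integral_const_mul, integral_const_mul, hmean]
    unfold Cs
    simp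
    ring
  linarith

lemma lintegral_r_pow_le (hexp : ExpMom μ) (hmean : ∫ x, x ∂μ = 0) {t : ℝ} (h0 : 0 ≤ t)
    (h1 : t ≤ 1) (s : ℕ) :
    ∫⁻ x, ENNReal.ofReal (r μ t x) ^ s ∂μ ≤ ENNReal.ofReal (Real.exp (Cs μ s * t ^ 2)) := by
  have hM := mgf_ge_one hexp hmean t
  have h2 : ∀ x, ENNReal.ofReal (r μ t x) ^ s ≤ ENNReal.ofReal (Real.exp (s * t * x)) := by
    intro x
    rw [← ENNReal.ofReal_pow (r_nonneg _ _)]
    apply ENNReal.ofReal_le_ofReal
    have h3 : r μ t x ≤ Real.exp (t * x) := by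
      unfold r
      exact div_le_self (Real.exp_pos _).le hM
    calc r μ t x ^ s ≤ Real.exp (t * x) ^ s := pow_le_pow_left₀ (r_nonneg _ _) h3 s
      _ = Real.exp (s * t * x) := by
          rw [← Real.exp_nat_mul]
          congr 1
          ring
  calc ∫⁻ x, ENNReal.ofReal (r μ t x) ^ s ∂μ
      ≤ ∫⁻ x, ENNReal.ofReal (Real.exp (s * t * x)) ∂μ := lintegral_mono h2
    _ = ENNReal.ofReal (∫ x, Real.exp (s * t * x) ∂μ) :=
        (ofReal_integral_eq_lintegral_ofReal (hexp (s * t))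
          (ae_of_all _ fun _ => (Real.exp_pos _).le)).symm
    _ ≤ ENNReal.ofReal (Real.exp (Cs μ s * t ^ 2)) := by
        apply ENNReal.ofReal_le_ofReal
        refine (mgf_le hexp hmean h0 h1 s).trans ?_
        have := Real.add_one_le_exp (Cs μ s * t ^ 2)
        linarith

lemma lintegral_rho_pow_le (hexp : ExpMom μ) (hmean : ∫ x, x ∂μ = 0) {t : ℝ} (h0 : 0 ≤ t)
    (h1 : t ≤ 1) {n : ℕ} (hn : (n : ℝ) * t ^ 2 ≤ 1) (s : ℕ) :
    ∫⁻ ω, ENNReal.ofReal (rho μ t n ω) ^ s ∂seqLaw μ ≤ ENNReal.ofReal (Real.exp (Cs μ s)) := by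
  rw [lintegral_rho_pow]
  calc (∫⁻ x, ENNReal.ofReal (r μ t x) ^ s ∂μ) ^ n
      ≤ ENNReal.ofReal (Real.exp (Cs μ s * t ^ 2)) ^ n := by
        gcongr
        exact lintegral_r_pow_le hexp hmean h0 h1 s
    _ = ENNReal.ofReal (Real.exp (n * (Cs μ s * t ^ 2))) := by
        rw [← ENNReal.ofReal_pow (Real.exp_pos _).le, ← Real.exp_nat_mul]
    _ ≤ ENNReal.ofReal (Real.exp (Cs μ s)) := by
        apply ENNReal.ofReal_le_ofReal
        apply Real.exp_le_exp.2
        have h2 := mul_le_mul_of_nonneg_left hn (Cs_nonneg (μ := μ) s)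
        calc (n : ℝ) * (Cs μ s * t ^ 2) = Cs μ s * (n * t ^ 2) := by ring
          _ ≤ Cs μ s := by linarith

lemma pointwise {x T N : ℝ} (hx : 0 ≤ x) (hN : 0 < N) (hT : 0 < T) {q : ℕ} (hq : N ≤ T ^ q) :
    x ≤ T + 1 / N * x ^ (q + 1) := by
  rcases le_or_gt x T with h | h
  · have : 0 ≤ 1 / N * x ^ (q + 1) := by positivity
    linarith
  · have h1 : T ^ q ≤ x ^ q := pow_le_pow_left₀ hT.le h.le q
    have h2 : x ≤ 1 / N * x ^ (q + 1) := by
      rw [one_div_mul_eq_div, le_div_iff₀ hN, pow_succ, mul_comm]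
      exact mul_le_mul_of_nonneg_right (hq.trans h1) hx
    linarith

end

end Dens

open Dens in
theorem tilt_change {μ : Measure ℝ} [IsProbabilityMeasure μ] (hexp : ExpMom μ)
    (hmean : ∫ x, x ∂μ = 0) {ε : ℝ} (hε : 0 < ε) :
    ∃ A : ℝ, 0 < A ∧ ∀ t : ℝ, 0 < t → t ≤ 1 → ∀ n : ℕ, 1 ≤ n → (n : ℝ) * t ^ 2 ≤ 1 →
      ∀ f : (ℕ → ℝ) → ℝ, Measurable f → DepOn n f → (∀ ω, 0 ≤ f ω) →
        Integrable (fun ω => f ω ^ 2) (seqLaw μ) →
          ∫ ω, f ω ∂seqLaw (μ.tilted (fun x => t * x)) ≤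
            (n : ℝ) ^ ε * ∫ ω, f ω ∂seqLaw μ + A / n * Real.sqrt (∫ ω, f ω ^ 2 ∂seqLaw μ) := by
  set q : ℕ := ⌈1 / ε⌉₊ with hq
  set C : ℝ := Real.exp (Cs μ ((q + 1) * 2)) with hC
  have hCpos : 0 < C := Real.exp_pos _
  refine ⟨Real.sqrt C, Real.sqrt_pos.2 hCpos, ?_⟩
  intro t ht0 ht1 n hn hnt f hf hdep hf0 hf2
  have hnpos : (0 : ℝ) < n := by
    have : (1 : ℝ) ≤ n := by exact_mod_cast hn
    linarith
  have hn1 : (1 : ℝ) ≤ n := by exact_mod_cast hn
  have hfi : Integrable f (seqLaw μ) := by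
    refine ((integrable_const (1 : ℝ)).add hf2).mono' hf.aestronglyMeasurable
      (ae_of_all _ fun ω => ?_)
    rw [Real.norm_eq_abs, abs_of_nonneg (hf0 ω)]
    simp only [Pi.add_apply]
    nlinarith [hf0 ω, sq_nonneg (f ω - 1)]
  have hTq : (n : ℝ) ≤ ((n : ℝ) ^ ε) ^ q := by
    rw [← Real.rpow_natCast, ← Real.rpow_mul hnpos.le]
    calc (n : ℝ) = (n : ℝ) ^ (1 : ℝ) := (Real.rpow_one _).symm
      _ ≤ (n : ℝ) ^ (ε * q) := by
          apply Real.rpow_le_rpow_of_exponent_le hn1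
          have h1 : 1 / ε ≤ q := Nat.le_ceil _
          rw [div_le_iff₀ hε] at h1
          linarith
  have hTpos : 0 < (n : ℝ) ^ ε := Real.rpow_pos_of_pos hnpos _
  -- bound of the lintegral
  have hSqrt : (∫⁻ ω, ENNReal.ofReal (f ω) ^ (2 : ℝ) ∂seqLaw μ) ^ (1 / (2 : ℝ)) =
      ENNReal.ofReal (Real.sqrt (∫ ω, f ω ^ 2 ∂seqLaw μ)) := by
    have h1 : ∫⁻ ω, ENNReal.ofReal (f ω) ^ (2 : ℝ) ∂seqLaw μ =
        ENNReal.ofReal (∫ ω, f ω ^ 2 ∂seqLaw μ) := by
      rw [ofReal_integral_eq_lintegral_ofReal hf2 (ae_of_all _ fun ω => sq_nonneg _)]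
      apply lintegral_congr
      intro ω
      rw [ENNReal.rpow_two, ENNReal.ofReal_pow (hf0 ω)]
    rw [h1, ENNReal.ofReal_rpow_of_nonneg (integral_nonneg fun ω => sq_nonneg _) (by norm_num),
      Real.sqrt_eq_rpow]
  have hrho : (∫⁻ ω, (ENNReal.ofReal (rho μ t n ω) ^ (q + 1)) ^ (2 : ℝ) ∂seqLaw μ) ^ (1 / (2 : ℝ)) ≤
      ENNReal.ofReal (Real.sqrt C) := by
    have h1 : ∫⁻ ω, (ENNReal.ofReal (rho μ t n ω) ^ (q + 1)) ^ (2 : ℝ) ∂seqLaw μ ≤
        ENNReal.ofReal C := by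
      refine le_trans (le_of_eq ?_) (lintegral_rho_pow_le hexp hmean ht0.le ht1 hnt ((q + 1) * 2))
      apply lintegral_congr
      intro ω
      rw [ENNReal.rpow_two, pow_mul]
    calc (∫⁻ ω, (ENNReal.ofReal (rho μ t n ω) ^ (q + 1)) ^ (2 : ℝ) ∂seqLaw μ) ^ (1 / (2 : ℝ))
        ≤ ENNReal.ofReal C ^ (1 / (2 : ℝ)) := ENNReal.rpow_le_rpow h1 (by norm_num)
      _ = ENNReal.ofReal (Real.sqrt C) := by
          rw [ENNReal.ofReal_rpow_of_nonneg hCpos.le (by norm_num), Real.sqrt_eq_rpow]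
  have hmr : Measurable fun ω => ENNReal.ofReal (rho μ t n ω) := (measurable_rho t n).ennreal_ofReal
  have hmf : Measurable fun ω => ENNReal.ofReal (f ω) := hf.ennreal_ofReal
  have hCS : ∫⁻ ω, ENNReal.ofReal (rho μ t n ω) ^ (q + 1) * ENNReal.ofReal (f ω) ∂seqLaw μ ≤
      ENNReal.ofReal (Real.sqrt C) * ENNReal.ofReal (Real.sqrt (∫ ω, f ω ^ 2 ∂seqLaw μ)) := by
    have h1 := ENNReal.lintegral_mul_le_Lp_mul_Lq (seqLaw μ) Real.HolderConjugate.two_two
      (f := fun ω => ENNReal.ofReal (rho μ t n ω) ^ (q + 1)) (g := fun ω => ENNReal.ofReal (f ω))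
      (hmr.pow_const _).aemeasurable hmf.aemeasurable
    refine h1.trans ?_
    rw [hSqrt]
    gcongr
  have hmain : ∫⁻ ω, ENNReal.ofReal (f ω) ∂seqLaw (μ.tilted (fun x => t * x)) ≤
      ENNReal.ofReal ((n : ℝ) ^ ε * ∫ ω, f ω ∂seqLaw μ
        + Real.sqrt C / n * Real.sqrt (∫ ω, f ω ^ 2 ∂seqLaw μ)) := by
    rw [lintegral_tilted hexp t n hmf
      (fun ω ω' h => by rw [hdep ω ω' h])]
    calc ∫⁻ ω, ENNReal.ofReal (rho μ t n ω) * ENNReal.ofReal (f ω) ∂seqLaw μ
        ≤ ∫⁻ ω, (ENNReal.ofReal ((n : ℝ) ^ ε) * ENNReal.ofReal (f ω)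
            + ENNReal.ofReal (1 / n) *
              (ENNReal.ofReal (rho μ t n ω) ^ (q + 1) * ENNReal.ofReal (f ω))) ∂seqLaw μ := by
          apply lintegral_mono
          intro ω
          dsimp only
          rw [← mul_assoc, ← add_mul]
          gcongr
          rw [← ENNReal.ofReal_pow (rho_nonneg _ _ _), ← ENNReal.ofReal_mul (by positivity),
            ← ENNReal.ofReal_add hTpos.le (mul_nonneg (by positivity)
              (pow_nonneg (rho_nonneg _ _ _) _))]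
          apply ENNReal.ofReal_le_ofReal
          exact pointwise (rho_nonneg _ _ _) hnpos hTpos hTq
      _ = ENNReal.ofReal ((n : ℝ) ^ ε) * ENNReal.ofReal (∫ ω, f ω ∂seqLaw μ)
            + ENNReal.ofReal (1 / n) *
              ∫⁻ ω, ENNReal.ofReal (rho μ t n ω) ^ (q + 1) * ENNReal.ofReal (f ω) ∂seqLaw μ := by
          have hmm : Measurable fun ω =>
              ENNReal.ofReal (rho μ t n ω) ^ (q + 1) * ENNReal.ofReal (f ω) :=
            (hmr.pow_const _).mul hmf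
          rw [lintegral_add_left (hmf.const_mul _), lintegral_const_mul _ hmf,
            lintegral_const_mul _ hmm,
            ofReal_integral_eq_lintegral_ofReal hfi (ae_of_all _ hf0)]
      _ ≤ ENNReal.ofReal ((n : ℝ) ^ ε) * ENNReal.ofReal (∫ ω, f ω ∂seqLaw μ)
            + ENNReal.ofReal (1 / n) * (ENNReal.ofReal (Real.sqrt C) *
              ENNReal.ofReal (Real.sqrt (∫ ω, f ω ^ 2 ∂seqLaw μ))) := by
          gcongr
      _ = ENNReal.ofReal ((n : ℝ) ^ ε * ∫ ω, f ω ∂seqLaw μ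
        + Real.sqrt C / n * Real.sqrt (∫ ω, f ω ^ 2 ∂seqLaw μ)) := by
          have hi0 : 0 ≤ ∫ ω, f ω ∂seqLaw μ := integral_nonneg hf0
          have hn0 : (0 : ℝ) ≤ 1 / n := by positivity
          rw [← ENNReal.ofReal_mul (Real.sqrt_nonneg _), ← ENNReal.ofReal_mul hn0,
            ← ENNReal.ofReal_mul hTpos.le, ← ENNReal.ofReal_add
              (mul_nonneg hTpos.le hi0) (by positivity)]
          congr 1
          ring
  rw [integral_eq_lintegral_of_nonneg_ae (ae_of_all _ hf0) hf.aestronglyMeasurable]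
  apply ENNReal.toReal_le_of_le_ofReal _ hmain
  have : 0 ≤ ∫ ω, f ω ∂seqLaw μ := integral_nonneg hf0
  positivity

end

end MP_daa227_pr
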