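import Pool.Agent.Lib.MP_daa227_pr.Kernel

/-!
# Definitions: excursions from `0` with deterministic site functions, confinement exponents
-/

open MeasureTheory ProbabilityTheory Set Filter
open scoped ENNReal

namespace MP_daa227_pr

noncomputable section

/-- Deterministic weights `exp (-η φ z)`. -/
def Wdet (η : ℝ) (φ : ℤ → ℝ) : ℝ → ℤ → ℝ := fun _ z => Real.exp (-η * φ z)

/-- `E_x exp (-η ∑_{i=1}^n φ(S_i)) ≤ C₁ exp (-c₂ n^r)`, locally uniformly in `x`. -/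
def Confine (C : Chain) (φ : ℤ → ℝ) (r : ℝ) : Prop :=
  ∀ η : ℝ, 0 < η → ∀ R : ℕ, ∃ C₁ : ℝ, 0 < C₁ ∧ ∃ c₂ : ℝ, 0 < c₂ ∧ ∀ n : ℕ, ∀ x : ℤ, |x| ≤ (R : ℤ) →
    Zf C (Wdet η φ) n (fun _ => 0) x ≤ C₁ * Real.exp (-c₂ * (n : ℝ) ^ r)

/-- Forget the first site function. -/
def ushift (u : ℕ → ℤ → ℝ) : ℕ → ℤ → ℝ := fun i => u (i + 1)

/-- `KU C n u x = E_x[exp (∑_{i<n} u_i(S_{i+1})); the first visit to 0 after time 0 is at time n]`. -/
def KU (C : Chain) : ℕ → (ℕ → ℤ → ℝ) → ℤ → ℝ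
  | 0, _, _ => 0
  | n + 1, u, x => (if n = 0 then C.p x 0 * Real.exp (u 0 0) else 0) +
      ∑ z ∈ Finset.Icc (x - 1) (x + 1) \ {0}, C.p x z * Real.exp (u 0 z) * KU C n (ushift u) z

/-- `K0 C n x = P_x(the first visit to 0 after time 0 is at time n)`. -/
def K0 (C : Chain) : ℕ → ℤ → ℝ
  | 0, _ => 0
  | n + 1, x => (if n = 0 then C.p x 0 else 0) +
      ∑ z ∈ Finset.Icc (x - 1) (x + 1) \ {0}, C.p x z * K0 C n z

/-- `AU C n u x = E_x[∑_{i<n} u_i(S_{i+1}); the first visit to 0 after time 0 is at time n]`. -/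
def AU (C : Chain) : ℕ → (ℕ → ℤ → ℝ) → ℤ → ℝ
  | 0, _, _ => 0
  | n + 1, u, x => (if n = 0 then C.p x 0 * u 0 0 else 0) +
      ∑ z ∈ Finset.Icc (x - 1) (x + 1) \ {0}, C.p x z * (u 0 z * K0 C n z + AU C n (ushift u) z)

/-- `occ C φ n i x = E_x[φ(S_{i+1}); the first visit to 0 after time 0 is at time n]` for `i < n`. -/
def occ (C : Chain) (φ : ℤ → ℝ) : ℕ → ℕ → ℤ → ℝ
  | 0, _, _ => 0
  | n + 1, 0, x => (if n = 0 then C.p x 0 * φ 0 else 0) +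
      ∑ z ∈ Finset.Icc (x - 1) (x + 1) \ {0}, C.p x z * (φ z * K0 C n z)
  | n + 1, i + 1, x => ∑ z ∈ Finset.Icc (x - 1) (x + 1) \ {0}, C.p x z * occ C φ n i z

end

end MP_daa227_pr
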