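import Pool.Agent.Lib.MP_daa227_pr.Exc

/-!
# Excursions with site functions: Jensen's inequality, occupation times, positivity
-/

open MeasureTheory ProbabilityTheory Set Filter
open scoped ENNReal Topology

namespace MP_daa227_pr

noncomputable section

theorem K0_nonneg (C : Chain) (n : ℕ) (x : ℤ) : 0 ≤ K0 C n x := by
  induction n generalizing x with
  | zero => exact le_rfl
  | succ n ih =>
    rw [K0]
    apply add_nonneg
    · split_ifs
      · exact C.nonneg _ _
      · exact le_rfl
    · exact Finset.sum_nonneg fun z _ => mul_nonneg (C.nonneg _ _) (ih z)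

/-- The inequality `exp X ≥ exp m (1 + X - m)` in integrated form. -/
theorem KU_ge (C : Chain) (n : ℕ) (u : ℕ → ℤ → ℝ) (x : ℤ) (m : ℝ) :
    Real.exp m * ((1 - m) * K0 C n x + AU C n u x) ≤ KU C n u x := by
  induction n generalizing u x m with
  | zero => simp [K0, AU, KU]
  | succ n ih =>
    rw [K0, AU, KU]
    have h1 : Real.exp m * ((1 - m) * (if n = 0 then C.p x 0 else 0) +
        (if n = 0 then C.p x 0 * u 0 0 else 0)) ≤
        (if n = 0 then C.p x 0 * Real.exp (u 0 0) else 0) := by
      split_ifs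
      · have h2 := Real.add_one_le_exp (u 0 0 - m)
        have h3 : Real.exp (u 0 0) = Real.exp m * Real.exp (u 0 0 - m) := by
          rw [← Real.exp_add]
          congr 1
          ring
        have h4 := C.nonneg x 0
        have h5 := Real.exp_pos m
        rw [h3]
        have h6 : Real.exp m * ((1 - m) * C.p x 0 + C.p x 0 * u 0 0) =
            C.p x 0 * (Real.exp m * (u 0 0 - m + 1)) := by ring
        rw [h6]
        gcongr
      · simp
    have h2 : ∀ z ∈ Finset.Icc (x - 1) (x + 1) \ {0}, C.p x z * (Real.exp m *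
        ((1 - m) * K0 C n z + (u 0 z * K0 C n z + AU C n (ushift u) z))) ≤
        C.p x z * Real.exp (u 0 z) * KU C n (ushift u) z := by
      intro z _
      rw [mul_assoc (C.p x z)]
      apply mul_le_mul_of_nonneg_left _ (C.nonneg x z)
      have h3 := ih (ushift u) z (m - u 0 z)
      have h4 : Real.exp m = Real.exp (u 0 z) * Real.exp (m - u 0 z) := by
        rw [← Real.exp_add]
        congr 1
        ring
      calc Real.exp m * ((1 - m) * K0 C n z + (u 0 z * K0 C n z + AU C n (ushift u) z))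
          = Real.exp (u 0 z) * (Real.exp (m - u 0 z) *
              ((1 - (m - u 0 z)) * K0 C n z + AU C n (ushift u) z)) := by
            rw [h4]
            ring
        _ ≤ Real.exp (u 0 z) * KU C n (ushift u) z := by
            gcongr
    have h3 := Finset.sum_le_sum h2
    refine le_trans (le_of_eq ?_) (add_le_add h1 h3)
    have h4 : ∑ z ∈ Finset.Icc (x - 1) (x + 1) \ {0}, C.p x z * (Real.exp m *
        ((1 - m) * K0 C n z + (u 0 z * K0 C n z + AU C n (ushift u) z))) =
        Real.exp m * ((1 - m) * ∑ z ∈ Finset.Icc (x - 1) (x + 1) \ {0}, C.p x z * K0 C n z +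
          ∑ z ∈ Finset.Icc (x - 1) (x + 1) \ {0},
            C.p x z * (u 0 z * K0 C n z + AU C n (ushift u) z)) := by
      rw [Finset.mul_sum (Finset.Icc (x - 1) (x + 1) \ {0}) _ (1 - m), ← Finset.sum_add_distrib,
        Finset.mul_sum]
      refine Finset.sum_congr rfl fun z _ => ?_
      ring
    rw [h4]
    ring

theorem KU_jensen (C : Chain) (n : ℕ) (u : ℕ → ℤ → ℝ) (x : ℤ) (h : 0 < K0 C n x) :
    K0 C n x * Real.exp (AU C n u x / K0 C n x) ≤ KU C n u x := by
  refine le_trans (le_of_eq ?_) (KU_ge C n u x (AU C n u x / K0 C n x))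
  have h1 : AU C n u x / K0 C n x * K0 C n x = AU C n u x := div_mul_cancel₀ _ h.ne'
  rw [sub_mul, h1]
  ring

theorem AU_eq_occ (C : Chain) (φ : ℤ → ℝ) (n : ℕ) (c : ℕ → ℝ) (x : ℤ) :
    AU C n (fun i z => c i * φ z) x = ∑ i ∈ Finset.range n, c i * occ C φ n i x := by
  induction n generalizing c x with
  | zero => simp [AU]
  | succ n ih =>
    rw [AU, Finset.sum_range_succ']
    have h1 : ushift (fun i z => c i * φ z) = fun i z => (fun i => c (i + 1)) i * φ z := rfl
    rw [h1]
    simp_rw [ih (fun i => c (i + 1))]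
    simp only [occ]
    have h2 : ∀ i ∈ Finset.range n, c (i + 1) * ∑ z ∈ Finset.Icc (x - 1) (x + 1) \ {0},
        C.p x z * occ C φ n i z = ∑ z ∈ Finset.Icc (x - 1) (x + 1) \ {0},
        C.p x z * (c (i + 1) * occ C φ n i z) := by
      intro i _
      rw [Finset.mul_sum]
      refine Finset.sum_congr rfl fun z _ => ?_
      ring
    rw [Finset.sum_congr rfl h2, Finset.sum_comm]
    simp_rw [mul_add, Finset.sum_add_distrib, ← Finset.mul_sum]
    have h3 : ∑ z ∈ Finset.Icc (x - 1) (x + 1) \ {0}, C.p x z * (c 0 * φ z * K0 C n z) =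
        c 0 * ∑ z ∈ Finset.Icc (x - 1) (x + 1) \ {0}, C.p x z * (φ z * K0 C n z) := by
      rw [Finset.mul_sum]
      refine Finset.sum_congr rfl fun z _ => ?_
      ring
    rw [h3]
    split_ifs <;> ring

theorem KU_eq_Gk (C : Chain) (φ : ℤ → ℝ) (β h : ℝ) (n : ℕ) (ω : ℕ → ℝ) (x : ℤ) :
    Gk C (fun a z => Real.exp ((β * a - h) * φ z)) {0} n ω x 0 =
      KU C n (fun i z => (β * ω i - h) * φ z) x := by
  induction n generalizing ω x with
  | zero => rfl
  | succ n ih =>
    rw [Gk, KU]
    congr 1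
    refine Finset.sum_congr rfl fun z _ => ?_
    rw [ih]
    rfl

/-- Walking down one step. -/
theorem K0_step (C : Chain) (n : ℕ) (x y : ℤ) (hy : y = x - 1 ∨ y = x + 1) (h0 : y ≠ 0)
    (h : 0 < K0 C n y) : 0 < K0 C (n + 1) x := by
  rw [K0]
  have hp : 0 < C.p x y := by
    rcases hy with rfl | rfl
    · exact C.down x
    · exact C.up x
  have h1 : y ∈ Finset.Icc (x - 1) (x + 1) \ {0} := by
    rw [Finset.mem_sdiff, Finset.mem_Icc, Finset.mem_singleton]
    refine ⟨⟨?_, ?_⟩, h0⟩ <;> rcases hy with rfl | rfl <;> omega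
  have h2 : C.p x y * K0 C n y ≤ ∑ z ∈ Finset.Icc (x - 1) (x + 1) \ {0}, C.p x z * K0 C n z :=
    Finset.single_le_sum (f := fun z => C.p x z * K0 C n z)
      (fun z _ => mul_nonneg (C.nonneg _ _) (K0_nonneg C n z)) h1
  have h3 : 0 < C.p x y * K0 C n y := mul_pos hp h
  have h4 : (0 : ℝ) ≤ (if n = 0 then C.p x 0 else 0) := by
    split_ifs
    · exact C.nonneg _ _
    · exact le_rfl
  linarith

theorem K0_down (C : Chain) (n : ℕ) : 0 < K0 C (n + 1) ((n : ℤ) + 1) := by
  induction n with
  | zero =>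
    rw [K0]
    simp only [if_true, K0, mul_zero, Finset.sum_const_zero, add_zero, CharP.cast_eq_zero]
    have := C.down (0 + 1)
    simpa using this
  | succ n ih =>
    apply K0_step C (n + 1) _ ((n : ℤ) + 1) _ (by omega) ih
    left
    push_cast
    ring

theorem K0_up (C : Chain) (n k : ℕ) (hk : k ≤ n) : 0 < K0 C (n + 1 + k) ((n : ℤ) + 1 - k) := by
  induction k with
  | zero => simpa using K0_down C n
  | succ k ih =>
    have h1 := ih (by omega)
    rw [← add_assoc]
    apply K0_step C (n + 1 + k) _ ((n : ℤ) + 1 - k) _ (by omega) h1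
    right
    push_cast
    ring

theorem K0_even_pos (C : Chain) (n : ℕ) (hn : 1 ≤ n) : 0 < K0 C (2 * n) 0 := by
  obtain ⟨m, rfl⟩ : ∃ m, n = m + 1 := ⟨n - 1, by omega⟩
  have h1 := K0_up C m m le_rfl
  rw [show 2 * (m + 1) = m + 1 + m + 1 by ring]
  apply K0_step C (m + 1 + m) _ ((m : ℤ) + 1 - m) _ (by omega) h1
  right
  ring

end

end MP_daa227_pr
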