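import Pool.Agent.Lib.MP_daa227_pr.Model

/-!
# Annealed bounds, free energy, critical point
-/

open MeasureTheory ProbabilityTheory Set Filter
open scoped ENNReal Topology

namespace MP_daa227_pr

noncomputable section

set_option linter.unusedSectionVars false

lemma Confine.mono {C : Chain} {φ : ℤ → ℝ} {r r' : ℝ} (h : Confine C φ r) (hr' : 0 < r') (hrr : r' ≤ r) :
    Confine C φ r' := by
  intro η hη R
  obtain ⟨C₁, hC₁, c₂, hc₂, hb⟩ := h η hη R
  refine ⟨C₁, hC₁, c₂, hc₂, fun n x hx => (hb n x hx).trans ?_⟩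
  apply mul_le_mul_of_nonneg_left _ hC₁.le
  apply Real.exp_le_exp.2
  rcases Nat.eq_zero_or_pos n with rfl | hn
  · simp [Real.zero_rpow hr'.ne', Real.zero_rpow (hr'.trans_le hrr).ne']
  · have h1 : (n : ℝ) ^ r' ≤ (n : ℝ) ^ r :=
      Real.rpow_le_rpow_of_exponent_le (by exact_mod_cast hn) hrr
    have := mul_le_mul_of_nonneg_left h1 hc₂.le
    linarith

lemma pow_half_aux (J : ℕ) : ((2 : ℝ) ^ (-(1 / 2 : ℝ))) ^ J = 1 / Real.sqrt (2 ^ J) := by
  rw [Real.sqrt_eq_rpow, ← Real.rpow_natCast ((2 : ℝ) ^ (-(1 / 2 : ℝ))) J, ← Real.rpow_mul (by norm_num),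
    ← Real.rpow_natCast 2 J, ← Real.rpow_mul (by norm_num),
    show (-(1 / 2 : ℝ)) * (J : ℝ) = -((J : ℝ) * (1 / 2)) by ring, Real.rpow_neg (by norm_num)]
  exact (one_div _).symm

lemma Chain.p_le_one (C : Chain) (x y : ℤ) : C.p x y ≤ 1 := by
  by_cases hy : y ∈ Finset.Icc (x - 1) (x + 1)
  · rw [← C.sum_one x]
    exact Finset.single_le_sum (f := fun z => C.p x z) (fun z _ => C.nonneg x z) hy
  · rw [C.near x y hy]; exact zero_le_one

section
variable {μ : Measure ℝ} [IsProbabilityMeasure μ] {γ : ℝ} (C : Chain) {W : ℝ → ℤ → ℝ} {κ : ℝ}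
  (hκ : 0 ≤ κ) (hW : GoodW κ W) (B : Finset ℤ)

include hκ hW

/-- One transfer step for fractional moments. -/
lemma mom_step_le (h0 : 0 < γ) (h1 : γ ≤ 1) (s : Finset ℤ) (x : ℤ) (w : ℤ → ℝ≥0∞)
    {k : ℕ} {F : ℤ → (ℕ → ℝ) → ℝ} (hF : ∀ z ∈ s, Good k κ (F z)) (f : ℤ → ℝ≥0∞)
    (hw : ∀ z ∈ s, mom μ γ (fun ω => W (ω 0) z) ≤ w z)
    (hf : ∀ z ∈ s, mom μ γ (F z) ≤ f z) :
    mom μ γ (fun ω => ∑ z ∈ s, C.p x z * W (ω 0) z * F z (shift 1 ω)) ≤
      ∑ z ∈ s, ENNReal.ofReal (C.p x z) ^ γ * w z * f z := by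
  have hg : ∀ z ∈ s, Good (1 + k) κ (fun ω => C.p x z * W (ω 0) z * F z (shift 1 ω)) := fun z hz =>
    ((hW.good z).const_mul (C.nonneg x z)).mul_shift (hF z hz)
  refine (mom_sum_le h0 h1 s (fun z hz => (hg z hz).meas) (fun z hz => (hg z hz).nonneg)).trans ?_
  apply Finset.sum_le_sum
  intro z hz
  have h2 := (hW.good z).const_mul (C.nonneg x z)
  rw [mom_mul_shift (k := 1) (F := fun ω => C.p x z * W (ω 0) z) (G := F z) h0.le h2.meas (hF z hz).meas
    h2.depOn h2.nonneg]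
  rw [mom_const_mul (F := fun ω => W (ω 0) z) h0.le (C.nonneg x z) (hW.good z).meas]
  exact mul_le_mul' (mul_le_mul_right (hw z hz) _) (hf z hz)

/-- Annealed gap kernels. -/
lemma mom_one_Gk_le {v : ℤ → ℝ} (hv0 : ∀ z, 0 ≤ v z)
    (hv : ∀ z ∉ B, mom μ 1 (fun ω => W (ω 0) z) ≤ ENNReal.ofReal (v z)) {cy : ℝ} (hcy : 0 ≤ cy)
    {y : ℤ} (hy : mom μ 1 (fun ω => W (ω 0) y) ≤ ENNReal.ofReal cy) :
    ∀ (n : ℕ) (x : ℤ), 0 ≤ Zf C (fun _ z => v z) n (fun _ => 0) x ∧
      mom μ 1 (fun ω => Gk C W B (n + 1) ω x y) ≤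
      ENNReal.ofReal (cy * Zf C (fun _ z => v z) n (fun _ => 0) x)
  | 0, x => by
      simp only [Gk, Zf, if_true, mul_zero, Finset.sum_const_zero, add_zero, mul_one]
      refine ⟨zero_le_one, ?_⟩
      rw [mom_const_mul (F := fun ω => W (ω 0) y) zero_le_one (C.nonneg x y) (hW.good y).meas,
        ENNReal.rpow_one]
      calc ENNReal.ofReal (C.p x y) * mom μ 1 (fun ω => W (ω 0) y)
          ≤ 1 * ENNReal.ofReal cy := by
            refine mul_le_mul' ?_ hy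
            rw [← ENNReal.ofReal_one]
            exact ENNReal.ofReal_le_ofReal (C.p_le_one x y)
        _ = _ := one_mul _
  | n + 1, x => by
      have ih := mom_one_Gk_le hv0 hv hcy hy n
      have hZ : Zf C (fun _ z => v z) (n + 1) (fun _ => 0) x =
          ∑ z ∈ Finset.Icc (x - 1) (x + 1), C.p x z * v z * Zf C (fun _ z => v z) n (fun _ => 0) z := rfl
      have hterm : ∀ z, 0 ≤ C.p x z * v z * Zf C (fun _ z => v z) n (fun _ => 0) z := fun z =>
        mul_nonneg (mul_nonneg (C.nonneg _ _) (hv0 z)) (ih z).1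
      refine ⟨?_, ?_⟩
      · rw [hZ]
        exact Finset.sum_nonneg fun z _ => hterm z
      · have h1 : ∀ ω : ℕ → ℝ, Gk C W B (n + 1 + 1) ω x y =
            ∑ z ∈ Finset.Icc (x - 1) (x + 1) \ B, C.p x z * W (ω 0) z * Gk C W B (n + 1) (shift 1 ω) z y := by
          intro ω
          conv_lhs => rw [Gk]
          rw [if_neg (Nat.succ_ne_zero n), zero_add]
        rw [mom_congr h1]
        refine (mom_step_le C hκ hW zero_lt_one le_rfl _ x (fun z => ENNReal.ofReal (v z))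
          (F := fun z ω => Gk C W B (n + 1) ω z y) (k := n + 1)
          (fun z _ => good_Gk C hκ hW B (n + 1) z y)
          (fun z => ENNReal.ofReal (cy * Zf C (fun _ z => v z) n (fun _ => 0) z))
          (fun z hz => hv z (Finset.mem_sdiff.1 hz).2) (fun z _ => (ih z).2)).trans ?_
        rw [hZ, Finset.mul_sum, ENNReal.ofReal_sum_of_nonneg (fun z _ => mul_nonneg hcy (hterm z))]
        refine (Finset.sum_le_sum_of_subset Finset.sdiff_subset).trans ?_
        apply Finset.sum_le_sum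
        intro z _
        rw [ENNReal.rpow_one, ← ENNReal.ofReal_mul (C.nonneg _ _),
          ← ENNReal.ofReal_mul (mul_nonneg (C.nonneg _ _) (hv0 z))]
        apply ENNReal.ofReal_le_ofReal
        apply le_of_eq
        ring

/-- Annealed bound for paths avoiding `B`. -/
lemma mom_one_Gf_le {w : ℝ} (hw0 : 0 ≤ w)
    (hv : ∀ z ∉ B, mom μ 1 (fun ω => W (ω 0) z) ≤ ENNReal.ofReal w) :
    ∀ (n : ℕ) (x : ℤ), mom μ 1 (fun ω => Gf C W B n ω x) ≤ ENNReal.ofReal (w ^ n)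
  | 0, x => by simp only [Gf, pow_zero]; rw [mom_const, ENNReal.rpow_one]
  | n + 1, x => by
      have ih := mom_one_Gf_le hw0 hv n
      simp only [Gf]
      refine (mom_step_le C hκ hW zero_lt_one le_rfl _ x (fun _ => ENNReal.ofReal w)
          (F := fun z ω => Gf C W B n ω z) (k := n) (fun z _ => good_Gf C hκ hW B n z)
          (fun z => ENNReal.ofReal (w ^ n))
          (fun z hz => hv z (Finset.mem_sdiff.1 hz).2) (fun z _ => ih z)).trans ?_
      refine (Finset.sum_le_sum_of_subset Finset.sdiff_subset).trans ?_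
      have h1 : ∑ z ∈ Finset.Icc (x - 1) (x + 1), ENNReal.ofReal (C.p x z) ^ (1 : ℝ) * ENNReal.ofReal w *
          ENNReal.ofReal (w ^ n) = ∑ z ∈ Finset.Icc (x - 1) (x + 1), ENNReal.ofReal (C.p x z * w ^ (n + 1)) := by
        apply Finset.sum_congr rfl
        intro z _
        rw [ENNReal.rpow_one, ← ENNReal.ofReal_mul (C.nonneg _ _),
          ← ENNReal.ofReal_mul (mul_nonneg (C.nonneg _ _) hw0)]
        congr 1
        ring
      rw [h1, ← ENNReal.ofReal_sum_of_nonneg (fun z _ => mul_nonneg (C.nonneg _ _) (pow_nonneg hw0 _)),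
        ← Finset.sum_mul, C.sum_one, one_mul]

/-- Annealed bound for the point to point partition function. -/
lemma mom_one_Zk_le {w : ℝ} (hw0 : 0 ≤ w)
    (hv : ∀ z, mom μ 1 (fun ω => W (ω 0) z) ≤ ENNReal.ofReal w) :
    ∀ (n : ℕ) (x y : ℤ), mom μ 1 (fun ω => Zk C W n ω x y) ≤ ENNReal.ofReal (w ^ n)
  | 0, x, y => by
      simp only [Zk, pow_zero]
      rw [mom_const, ENNReal.rpow_one]
      apply ENNReal.ofReal_le_ofReal
      split_ifs <;> norm_num
  | n + 1, x, y => by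
      have ih := mom_one_Zk_le hw0 hv n
      simp only [Zk]
      refine (mom_step_le C hκ hW zero_lt_one le_rfl _ x (fun _ => ENNReal.ofReal w)
          (F := fun z ω => Zk C W n ω z y) (k := n) (fun z _ => good_Zk C hκ hW n z y)
          (fun z => ENNReal.ofReal (w ^ n))
          (fun z _ => hv z) (fun z _ => ih z y)).trans ?_
      have h1 : ∑ z ∈ Finset.Icc (x - 1) (x + 1), ENNReal.ofReal (C.p x z) ^ (1 : ℝ) * ENNReal.ofReal w *
          ENNReal.ofReal (w ^ n) = ∑ z ∈ Finset.Icc (x - 1) (x + 1), ENNReal.ofReal (C.p x z * w ^ (n + 1)) := by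
        apply Finset.sum_congr rfl
        intro z _
        rw [ENNReal.rpow_one, ← ENNReal.ofReal_mul (C.nonneg _ _),
          ← ENNReal.ofReal_mul (mul_nonneg (C.nonneg _ _) hw0)]
        congr 1
        ring
      rw [h1, ← ENNReal.ofReal_sum_of_nonneg (fun z _ => mul_nonneg (C.nonneg _ _) (pow_nonneg hw0 _)),
        ← Finset.sum_mul, C.sum_one, one_mul]

end

namespace Model

variable (M : Model)

/-- Annealed site weights are bounded by `1` for large `h`. -/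
lemma EW_le_of {h : ℝ} {z : ℤ} {a : ℝ} (h1 : -h * M.φ z + M.A * M.β ^ 2 * M.φ z ^ 2 ≤ a) :
    mom M.μ 1 (fun ω => M.W h (ω 0) z) ≤ ENNReal.ofReal (Real.exp a) := by
  rw [M.mom_one_W]
  exact (M.EW_le h z).trans (ENNReal.ofReal_le_ofReal (Real.exp_le_exp.2 h1))

/-- A uniform bound for the annealed site weights. -/
lemma EW_le_unif {H h : ℝ} (hh : |h| ≤ H) (z : ℤ) :
    mom M.μ 1 (fun ω => M.W h (ω 0) z) ≤
      ENNReal.ofReal (Real.exp (H * M.Φ + M.A * M.β ^ 2 * M.Φ ^ 2)) := by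
  apply M.EW_le_of
  have h1 : -h * M.φ z ≤ H * M.Φ := by
    calc -h * M.φ z ≤ |h| * M.φ z := mul_le_mul_of_nonneg_right (neg_le_abs h) (M.φ_pos z).le
      _ ≤ H * M.Φ := mul_le_mul hh (M.φ_le z) (M.φ_pos z).le ((abs_nonneg h).trans hh)
  have h2 : M.φ z ^ 2 ≤ M.Φ ^ 2 := pow_le_pow_left₀ (M.φ_pos z).le (M.φ_le z) 2
  have h3 : M.A * M.β ^ 2 * M.φ z ^ 2 ≤ M.A * M.β ^ 2 * M.Φ ^ 2 :=
    mul_le_mul_of_nonneg_left h2 (mul_nonneg M.A_nonneg (sq_nonneg _))
  linarith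

lemma Ψ_le_of_mom_one {h : ℝ} {n : ℕ} (hn : Even n) {a : ℝ}
    (h1 : mom M.μ 1 (fun ω => M.Z h n ω 0 0) ≤ ENNReal.ofReal (Real.exp a)) : M.Ψ h n ≤ a := by
  have h2 := (M.exp_le_mom_Z zero_le_one h hn).trans h1
  rw [ENNReal.ofReal_le_ofReal_iff (Real.exp_pos _).le, one_mul, Real.exp_le_exp] at h2
  exact h2

lemma Ψ_le_linear (h : ℝ) : ∃ c : ℝ, 0 ≤ c ∧ ∀ n, Even n → M.Ψ h n ≤ c * n := by
  refine ⟨|h| * M.Φ + M.A * M.β ^ 2 * M.Φ ^ 2, ?_, fun n hn => ?_⟩
  · have := M.Φ_pos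
    have := M.A_nonneg
    positivity
  · apply M.Ψ_le_of_mom_one hn
    refine (mom_one_Zk_le M.C M.κ_pos.le (M.goodW h) (Real.exp_pos _).le
      (fun z => M.EW_le_unif le_rfl z) n 0 0).trans ?_
    apply ENNReal.ofReal_le_ofReal
    rw [← Real.exp_nat_mul, mul_comm]

lemma subadd (h : ℝ) : Subadditive (fun n => -M.Ψ h (2 * n)) := by
  intro m n
  have := M.Ψ_add h (even_two_mul m) (even_two_mul n)
  show -M.Ψ h (2 * (m + n)) ≤ -M.Ψ h (2 * m) + -M.Ψ h (2 * n)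
  rw [mul_add]
  linarith

/-- The free energy, from the constrained partition functions. -/
def Fr (h : ℝ) : ℝ := -(M.subadd h).lim / 2

lemma bddBelow (h : ℝ) : BddBelow (Set.range fun n : ℕ => -M.Ψ h (2 * n) / n) := by
  obtain ⟨c, hc0, hc⟩ := M.Ψ_le_linear h
  refine ⟨-(2 * c), ?_⟩
  rintro _ ⟨n, rfl⟩
  dsimp only
  rcases Nat.eq_zero_or_pos n with rfl | hn
  · simp; positivity
  · rw [le_div_iff₀ (by exact_mod_cast hn)]
    have h1 := hc (2 * n) (even_two_mul n)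
    push_cast at h1
    linarith

lemma tendsto_Fr (h : ℝ) : Tendsto (fun n : ℕ => M.Ψ h (2 * n) / (2 * n)) atTop (𝓝 (M.Fr h)) := by
  have h1 := ((M.subadd h).tendsto_lim (M.bddBelow h)).neg.div_const 2
  refine h1.congr (fun n => ?_)
  rw [neg_div, div_div, neg_div, neg_neg, mul_comm (n : ℝ)]

lemma Ψ_le_Fr (h : ℝ) {n : ℕ} (hn : Even n) : M.Ψ h n ≤ n * M.Fr h := by
  obtain ⟨m, rfl⟩ := hn
  rw [← two_mul]
  rcases Nat.eq_zero_or_pos m with rfl | hm
  · simp [M.Ψ_zero]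
  · have h1 := (M.subadd h).lim_le_div (M.bddBelow h) hm.ne'
    rw [le_div_iff₀ (by exact_mod_cast hm)] at h1
    unfold Fr
    push_cast
    linarith

lemma Fr_anti {h h' : ℝ} (hh : h ≤ h') : M.Fr h' ≤ M.Fr h := by
  refine le_of_tendsto_of_tendsto' (M.tendsto_Fr h') (M.tendsto_Fr h) (fun n => ?_)
  exact div_le_div_of_nonneg_right (M.Ψ_anti hh (even_two_mul n)) (by positivity)

lemma Fr_lip {h h' : ℝ} (hh : h ≤ h') : M.Fr h ≤ M.Fr h' + (h' - h) * M.Φ := by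
  have h1 := (M.tendsto_Fr h').add_const ((h' - h) * M.Φ)
  refine le_of_tendsto_of_tendsto (M.tendsto_Fr h) h1 ?_
  filter_upwards [eventually_gt_atTop 0] with n hn
  have h2 := M.Ψ_lip hh (even_two_mul n)
  have h3 : (0 : ℝ) < 2 * n := by positivity
  rw [div_le_iff₀ h3, add_mul, div_mul_cancel₀ _ h3.ne']
  push_cast at h2
  exact h2

lemma Fr_nonpos_of_bdd {h c : ℝ} (hb : ∀ n, Even n → M.Ψ h n ≤ c) : M.Fr h ≤ 0 := by
  have h1 : Tendsto (fun n : ℕ => c / (2 * n : ℝ)) atTop (𝓝 0) := by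
    have h2 : Tendsto (fun n : ℕ => (2 * n : ℝ)) atTop atTop :=
      tendsto_natCast_atTop_atTop.const_mul_atTop (by norm_num)
    exact h2.const_div_atTop c
  refine le_of_tendsto_of_tendsto' (M.tendsto_Fr h) h1 (fun n => ?_)
  exact div_le_div_of_nonneg_right (hb _ (even_two_mul n)) (by positivity)

/-- For large `h` there is no free energy. -/
lemma Fr_nonpos_large {h : ℝ} (hh : M.A * M.β ^ 2 * M.Φ ≤ h) : M.Fr h ≤ 0 := by
  apply M.Fr_nonpos_of_bdd (c := 0)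
  intro n hn
  apply M.Ψ_le_of_mom_one hn
  refine (mom_one_Zk_le M.C M.κ_pos.le (M.goodW h) zero_le_one
      (fun z => ?_) n 0 0).trans ?_
  · have h1 := M.EW_le_of (h := h) (z := z) (a := 0) (by
      have h2 : M.A * M.β ^ 2 * M.φ z ≤ h := by
        refine le_trans ?_ hh
        exact mul_le_mul_of_nonneg_left (M.φ_le z) (mul_nonneg M.A_nonneg (sq_nonneg _))
      nlinarith [M.φ_pos z])
    rwa [Real.exp_zero] at h1
  · rw [one_pow, Real.exp_zero]

/-- The critical point, provided the free energy is positive at `0`. -/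
lemma exists_hc (h0 : 0 < M.Fr 0) : ∃ hc : ℝ, 0 < hc ∧ (∀ h, 0 < M.Fr h ↔ h < hc) := by
  set S : Set ℝ := {h | 0 < M.Fr h} with hS
  have hne : S.Nonempty := ⟨0, h0⟩
  have hbdd : BddAbove S := by
    refine ⟨M.A * M.β ^ 2 * M.Φ, fun h hh => ?_⟩
    by_contra hcon
    push Not at hcon
    have := M.Fr_nonpos_large hcon.le
    have h1 : 0 < M.Fr h := hh
    linarith
  have hopen : ∀ h, 0 < M.Fr h → ∃ h', h < h' ∧ 0 < M.Fr h' := by
    intro h hh
    refine ⟨h + M.Fr h / (2 * M.Φ), by have := M.Φ_pos; linarith [div_pos hh (by positivity : 0 < 2 * M.Φ)], ?_⟩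
    have h1 := M.Fr_lip (h := h) (h' := h + M.Fr h / (2 * M.Φ))
      (by have := M.Φ_pos; linarith [div_pos hh (by positivity : 0 < 2 * M.Φ)])
    have h2 : (h + M.Fr h / (2 * M.Φ) - h) * M.Φ = M.Fr h / 2 := by
      have := M.Φ_pos
      field_simp
      ring
    rw [h2] at h1
    linarith
  refine ⟨sSup S, ?_, fun h => ⟨fun hh => ?_, fun hh => ?_⟩⟩
  · obtain ⟨h', h1, h2⟩ := hopen 0 h0
    exact h1.trans_le (le_csSup hbdd h2)
  · obtain ⟨h', h1, h2⟩ := hopen h hh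
    exact h1.trans_le (le_csSup hbdd h2)
  · obtain ⟨h', h1, h2⟩ := exists_lt_of_lt_csSup hne hh
    exact h1.trans_le (M.Fr_anti h2.le)

end Model

end

end MP_daa227_pr
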