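import Pool.Agent.Lib.MP_daa227_pr.Free

/-!
# Gap kernels; comparison with loops at the origin
-/

open MeasureTheory ProbabilityTheory Set Filter
open scoped ENNReal Topology

namespace MP_daa227_pr

noncomputable section

set_option linter.unusedSectionVars false

lemma exists_box {φ : ℤ → ℝ} (hlim : Tendsto φ cofinite (𝓝 0)) {a : ℝ} (ha : 0 < a) :
    ∃ R : ℕ, ∀ z : ℤ, z ∉ Finset.Icc (-(R : ℤ)) R → φ z < a := by
  have h1 : ∀ᶠ z in cofinite, φ z < a := hlim.eventually (gt_mem_nhds ha)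
  rw [Filter.eventually_cofinite] at h1
  obtain ⟨R, hR⟩ : ∃ R : ℕ, ∀ z ∈ h1.toFinset, z.natAbs ≤ R :=
    ⟨h1.toFinset.sup Int.natAbs, fun z hz => Finset.le_sup (f := Int.natAbs) hz⟩
  refine ⟨R, fun z hz => ?_⟩
  by_contra hcon
  apply hz
  have h2 := hR z (by simpa using hcon)
  rw [Finset.mem_Icc]
  omega

namespace Model

variable (M : Model)

/-- The annealed gap kernels decay like a stretched exponential. -/
lemma gap_bound {r : ℝ} (hr : 0 < r) (hconf : Confine M.C M.φ r) {η : ℝ} (hη : 0 < η) :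
    ∃ R : ℕ, ∃ C₁ : ℝ, 1 ≤ C₁ ∧ ∃ c₂ : ℝ, 0 < c₂ ∧ c₂ ≤ 1 ∧ ∀ h, 2 * η ≤ h → ∀ L : ℕ, 1 ≤ L →
      ∀ x ∈ Finset.Icc (-(R : ℤ)) R, ∀ y ∈ Finset.Icc (-(R : ℤ)) R,
        mom M.μ 1 (fun ω => M.G h R L ω x y) ≤ ENNReal.ofReal (C₁ * Real.exp (-c₂ * (L : ℝ) ^ r)) := by
  have hA := M.A_nonneg
  have ha0 : 0 < η / (M.A * M.β ^ 2 + 1) := by positivity
  obtain ⟨R, hR⟩ := exists_box M.φ_lim ha0
  obtain ⟨C₁, hC₁, c₂, hc₂, hC⟩ := hconf η hη R
  set cy := Real.exp (M.A * M.β ^ 2 * M.Φ ^ 2) with hcy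
  set c₃ := min (c₂ * 2 ^ (-r)) 1 with hc₃
  have hc₃pos : 0 < c₃ := by
    rw [hc₃]; exact lt_min (by positivity) one_pos
  refine ⟨R, max 1 (cy * C₁ * Real.exp c₃), le_max_left _ _, c₃, hc₃pos, min_le_right _ _, ?_⟩
  intro h hh L hL x hx y _
  obtain ⟨n, rfl⟩ : ∃ n, L = n + 1 := ⟨L - 1, by omega⟩
  have h0 : 0 ≤ h := by linarith
  have hv : ∀ z ∉ Finset.Icc (-(R : ℤ)) R,
      mom M.μ 1 (fun ω => M.W h (ω 0) z) ≤ ENNReal.ofReal (Real.exp (-η * M.φ z)) := by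
    intro z hz
    apply M.EW_le_of
    have h1 := hR z hz
    rw [lt_div_iff₀ (by positivity)] at h1
    have h2 := M.φ_pos z
    have h3 : M.A * M.β ^ 2 * M.φ z ^ 2 ≤ η * M.φ z := by nlinarith
    nlinarith
  have hy : mom M.μ 1 (fun ω => M.W h (ω 0) y) ≤ ENNReal.ofReal cy := by
    apply M.EW_le_of
    have h2 := M.φ_pos y
    have h3 : M.φ y ^ 2 ≤ M.Φ ^ 2 := pow_le_pow_left₀ h2.le (M.φ_le y) 2
    have h4 := mul_le_mul_of_nonneg_left h3 (mul_nonneg hA (sq_nonneg M.β))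
    nlinarith
  have h5 := (mom_one_Gk_le M.C M.κ_pos.le (M.goodW h) (Finset.Icc (-(R : ℤ)) R)
    (v := fun z => Real.exp (-η * M.φ z)) (fun z => (Real.exp_pos _).le) hv (Real.exp_pos _).le hy n x).2
  refine h5.trans (ENNReal.ofReal_le_ofReal ?_)
  have h6 := hC n x (by rw [Finset.mem_Icc] at hx; rw [abs_le]; omega)
  calc cy * Zf M.C (fun _ z => Real.exp (-η * M.φ z)) n (fun _ => 0) x
      ≤ cy * (C₁ * Real.exp (-c₂ * (n : ℝ) ^ r)) := mul_le_mul_of_nonneg_left h6 (Real.exp_pos _).le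
    _ ≤ cy * (C₁ * (Real.exp c₃ * Real.exp (-c₃ * ((n + 1 : ℕ) : ℝ) ^ r))) := by
        refine mul_le_mul_of_nonneg_left (mul_le_mul_of_nonneg_left ?_ hC₁.le) (Real.exp_pos _).le
        rw [← Real.exp_add]
        apply Real.exp_le_exp.2
        rcases Nat.eq_zero_or_pos n with rfl | hn
        · simp only [Nat.cast_zero, Nat.zero_add, Nat.cast_one, Real.one_rpow, Real.zero_rpow hr.ne']
          linarith
        · have hn' : (1 : ℝ) ≤ n := by exact_mod_cast hn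
          have h7 : ((n + 1 : ℕ) : ℝ) ^ r ≤ 2 ^ r * (n : ℝ) ^ r := by
            rw [← Real.mul_rpow (by norm_num) (by positivity)]
            apply Real.rpow_le_rpow (by positivity) _ hr.le
            push_cast
            linarith
          have h8 : c₃ * ((n + 1 : ℕ) : ℝ) ^ r ≤ c₂ * (n : ℝ) ^ r := by
            calc c₃ * ((n + 1 : ℕ) : ℝ) ^ r ≤ (c₂ * 2 ^ (-r)) * (2 ^ r * (n : ℝ) ^ r) := by
                  apply mul_le_mul (min_le_left _ _) h7 (by positivity) (by positivity)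
              _ = c₂ * (n : ℝ) ^ r := by
                  rw [mul_assoc, ← mul_assoc ((2 : ℝ) ^ (-r)), ← Real.rpow_add (by norm_num)]
                  simp
          linarith
    _ = cy * C₁ * Real.exp c₃ * Real.exp (-c₃ * ((n + 1 : ℕ) : ℝ) ^ r) := by ring
    _ ≤ _ := mul_le_mul_of_nonneg_right (le_max_right _ _) (Real.exp_pos _).le

/-- Fractional moments of the gap kernels. -/
lemma gap_mom {r : ℝ} {R : ℕ} {C₁ c₂ h γ : ℝ} (hC₁ : 1 ≤ C₁) (h0 : 0 < γ) (h1 : γ ≤ 1) {L : ℕ} {x y : ℤ}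
    (hb : mom M.μ 1 (fun ω => M.G h R L ω x y) ≤ ENNReal.ofReal (C₁ * Real.exp (-c₂ * (L : ℝ) ^ r))) :
    mom M.μ γ (fun ω => M.G h R L ω x y) ≤
      ENNReal.ofReal (C₁ * Real.exp (-(γ * c₂) * (L : ℝ) ^ r)) := by
  refine (mom_le_rpow h0 h1 (M.good_G h R L x y).meas (M.good_G h R L x y).nonneg).trans ?_
  refine (ENNReal.rpow_le_rpow hb h0.le).trans ?_
  rw [ENNReal.ofReal_rpow_of_pos (mul_pos (by linarith) (Real.exp_pos _))]
  apply ENNReal.ofReal_le_ofReal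
  rw [Real.mul_rpow (by linarith) (Real.exp_pos _).le, ← Real.exp_mul]
  have h2 : C₁ ^ γ ≤ C₁ := by
    calc C₁ ^ γ ≤ C₁ ^ (1 : ℝ) := Real.rpow_le_rpow_of_exponent_le hC₁ h1
      _ = C₁ := Real.rpow_one _
  rw [show -c₂ * (L : ℝ) ^ r * γ = -(γ * c₂) * (L : ℝ) ^ r by ring]
  exact mul_le_mul_of_nonneg_right h2 (Real.exp_pos _).le

/-- `y` can be reached from `x` in `n` steps, with a lower bound on the fractional moments which is
uniform in `|h| ≤ H`, `0 ≤ γ ≤ 1`. -/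
def Reach (H : ℝ) (x y : ℤ) (n : ℕ) : Prop :=
  ∃ c : ℝ, 0 < c ∧ ∀ h, |h| ≤ H → ∀ γ, 0 ≤ γ → γ ≤ 1 →
    ENNReal.ofReal c ≤ mom M.μ γ (fun ω => M.Z h n ω x y)

lemma Reach.trans {H : ℝ} {x y z : ℤ} {m n : ℕ} (h1 : M.Reach H x y m) (h2 : M.Reach H y z n) :
    M.Reach H x z (m + n) := by
  obtain ⟨c, hc, h1⟩ := h1
  obtain ⟨c', hc', h2⟩ := h2
  refine ⟨c * c', mul_pos hc hc', fun h hh γ h0 hγ => ?_⟩
  rw [ENNReal.ofReal_mul hc.le]
  refine (mul_le_mul' (h1 h hh γ h0 hγ) (h2 h hh γ h0 hγ)).trans ?_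
  rw [← mom_mul_shift (k := m) h0 (M.good_Z h m x y).meas (M.good_Z h n y z).meas
    (M.good_Z h m x y).depOn (M.good_Z h m x y).nonneg]
  exact mom_mono h0 fun ω => M.Z_mul_le h m n ω x y z

lemma reach_refl (H : ℝ) (x : ℤ) : M.Reach H x x 0 := by
  refine ⟨1, one_pos, fun h _ γ h0 _ => ?_⟩
  have h1 : ∀ ω : ℕ → ℝ, M.Z h 0 ω x x = 1 := fun ω => by simp [Z, Zk]
  rw [mom_congr h1, mom_const]
  simp

lemma reach_step {H : ℝ} {x y : ℤ} (hy : y ∈ Finset.Icc (x - 1) (x + 1)) (hp : 0 < M.C.p x y) :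
    M.Reach H x y 1 := by
  refine ⟨M.C.p x y * Real.exp (-(H * M.Φ)), mul_pos hp (Real.exp_pos _), fun h hh γ h0 hγ => ?_⟩
  have hH : 0 ≤ H := (abs_nonneg h).trans hh
  have h1 : ∀ ω : ℕ → ℝ, M.C.p x y * M.W h (ω 0) y ≤ M.Z h 1 ω x y := by
    intro ω
    unfold Z
    simp only [Zk]
    refine le_trans (le_of_eq ?_) (Finset.single_le_sum (f := fun z => M.C.p x z * M.W h (ω 0) z *
      (if z = y then 1 else 0)) (fun z _ => ?_) hy)
    · simp
    · refine mul_nonneg (mul_nonneg (M.C.nonneg _ _) (M.W_pos _ _ _).le) ?_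
      split_ifs <;> norm_num
  refine le_trans ?_ (mom_mono h0 h1)
  have hg : Good 1 M.κ (fun ω : ℕ → ℝ => M.C.p x y * M.W h (ω 0) y) :=
    ((M.goodW h).good y).const_mul (M.C.nonneg x y)
  have hpos : ∀ ω : ℕ → ℝ, 0 < M.C.p x y * M.W h (ω 0) y := fun ω => mul_pos hp (M.W_pos _ _ _)
  refine le_trans ?_ (exp_le_mom' M.exp_mom h0 hg hpos)
  have h2 : ∀ ω : ℕ → ℝ, Real.log (M.C.p x y * M.W h (ω 0) y) =
      Real.log (M.C.p x y) - h * M.φ y + (M.β * M.φ y) * ω 0 := by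
    intro ω
    rw [Real.log_mul hp.ne' (M.W_pos _ _ _).ne']
    unfold W
    rw [Real.log_exp]
    ring
  have hi0 : Integrable (fun ω : ℕ → ℝ => ω 0) (seqLaw M.μ) :=
    integrable_apply M.μ 0 (Y := fun x => x) measurable_id M.exp_mom.integrable_id
  have h3 : ∫ ω : ℕ → ℝ, ω 0 ∂seqLaw M.μ = 0 := by
    rw [integral_apply M.μ 0 (Y := fun x => x) measurable_id]
    exact M.mean
  simp_rw [h2]
  rw [integral_add (integrable_const _) (hi0.const_mul _), integral_const_mul, h3]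
  simp only [integral_const, probReal_univ, smul_eq_mul, one_mul, mul_zero, add_zero]
  apply ENNReal.ofReal_le_ofReal
  have h4 : h * M.φ y ≤ H * M.Φ := by
    calc h * M.φ y ≤ |h| * M.φ y := mul_le_mul_of_nonneg_right (le_abs_self h) (M.φ_pos y).le
      _ ≤ H * M.Φ := mul_le_mul hh (M.φ_le y) (M.φ_pos y).le hH
  have h5 : Real.log (M.C.p x y) ≤ 0 := Real.log_nonpos hp.le (M.C.p_le_one x y)
  have h6 : 0 ≤ H * M.Φ := mul_nonneg hH M.Φ_pos.le
  calc M.C.p x y * Real.exp (-(H * M.Φ)) = Real.exp (Real.log (M.C.p x y) - H * M.Φ) := by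
        rw [sub_eq_add_neg, Real.exp_add, Real.exp_log hp]
    _ ≤ Real.exp (γ * (Real.log (M.C.p x y) - H * M.Φ)) := by
        apply Real.exp_le_exp.2
        nlinarith
    _ ≤ _ := by
        apply Real.exp_le_exp.2
        apply mul_le_mul_of_nonneg_left _ h0
        linarith

lemma reach_up (H : ℝ) (x : ℤ) : ∀ n : ℕ, M.Reach H x (x + n) n
  | 0 => by simpa using M.reach_refl H x
  | n + 1 => by
      have h1 := M.reach_step (H := H) (x := x + n) (y := x + n + 1)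
        (by simp only [Finset.mem_Icc]; omega) (M.C.up _)
      have h2 := Reach.trans M (reach_up H x n) h1
      rw [show x + ((n + 1 : ℕ) : ℤ) = x + n + 1 by push_cast; ring]
      exact h2

lemma reach_down (H : ℝ) (x : ℤ) : ∀ n : ℕ, M.Reach H x (x - n) n
  | 0 => by simpa using M.reach_refl H x
  | n + 1 => by
      have h1 := M.reach_step (H := H) (x := x - n) (y := x - n - 1)
        (by simp only [Finset.mem_Icc]; omega) (M.C.down _)
      have h2 := Reach.trans M (reach_down H x n) h1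
      rw [show x - ((n + 1 : ℕ) : ℤ) = x - n - 1 by push_cast; ring]
      exact h2

lemma reach_from_zero (H : ℝ) (x : ℤ) : M.Reach H 0 x x.natAbs := by
  rcases le_or_gt 0 x with h | h
  · have := M.reach_up H 0 x.natAbs
    rw [show (0 : ℤ) + (x.natAbs : ℤ) = x by omega] at this
    exact this
  · have := M.reach_down H 0 x.natAbs
    rw [show (0 : ℤ) - (x.natAbs : ℤ) = x by omega] at this
    exact this

lemma reach_to_zero (H : ℝ) (x : ℤ) : M.Reach H x 0 x.natAbs := by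
  rcases le_or_gt 0 x with h | h
  · have := M.reach_down H x x.natAbs
    rw [show x - (x.natAbs : ℤ) = 0 by omega] at this
    exact this
  · have := M.reach_up H x x.natAbs
    rw [show x + (x.natAbs : ℤ) = 0 by omega] at this
    exact this

/-- Parity. -/
lemma Zk_parity {C : Chain} (hb : ∀ x, C.p x x = 0) (W : ℝ → ℤ → ℝ) :
    ∀ (n : ℕ) (ω : ℕ → ℝ) (x y : ℤ), ¬ Even ((n : ℤ) + x + y) → Zk C W n ω x y = 0
  | 0, ω, x, y, h => by
      simp only [Zk]
      rw [if_neg]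
      rintro rfl
      apply h
      simp
  | n + 1, ω, x, y, h => by
      simp only [Zk]
      apply Finset.sum_eq_zero
      intro z hz
      by_cases hzx : z = x
      · rw [hzx, hb]; simp
      · rw [Zk_parity hb W n (shift 1 ω) z y, mul_zero]
        intro h2
        apply h
        rw [Finset.mem_Icc] at hz
        have h3 : z = x + 1 ∨ z = x - 1 := by omega
        rcases h3 with rfl | rfl
        · have : ((n + 1 : ℕ) : ℤ) + x + y = (n : ℤ) + (x + 1) + y := by push_cast; ring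
          rw [this]; exact h2
        · have : ((n + 1 : ℕ) : ℤ) + x + y = (n : ℤ) + (x - 1) + y + 2 := by push_cast; ring
          rw [this]
          exact h2.add even_two

lemma finset_pos_min (s : Finset ℤ) (P : ℤ → ℝ → Prop) (hmono : ∀ x c c', 0 < c' → c' ≤ c → P x c → P x c')
    (h : ∀ x ∈ s, ∃ c, 0 < c ∧ P x c) : ∃ c, 0 < c ∧ ∀ x ∈ s, P x c := by
  classical
  induction s using Finset.induction_on with
  | empty => exact ⟨1, one_pos, by simp⟩
  | insert a s ha ih =>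
    obtain ⟨c, hc, h1⟩ := ih (fun x hx => h x (Finset.mem_insert_of_mem hx))
    obtain ⟨c', hc', h2⟩ := h a (Finset.mem_insert_self _ _)
    refine ⟨min c c', lt_min hc hc', fun x hx => ?_⟩
    rcases Finset.mem_insert.1 hx with rfl | hx
    · exact hmono x c' _ (lt_min hc hc') (min_le_right _ _) h2
    · exact hmono x c _ (lt_min hc hc') (min_le_left _ _) (h1 x hx)

/-- Point to point partition functions in the box are comparable with loops at the origin of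
slightly larger even length. -/
lemma ext_bound (H : ℝ) (R : ℕ) : ∃ K : ℕ, ∃ CB : ℝ, 1 ≤ CB ∧ ∀ h, |h| ≤ H → ∀ γ, 0 ≤ γ → γ ≤ 1 →
    ∀ x ∈ Finset.Icc (-(R : ℤ)) R, ∀ y ∈ Finset.Icc (-(R : ℤ)) R, ∀ l : ℕ, ∃ m : ℕ, Even m ∧ l ≤ m ∧
      m ≤ l + K ∧ mom M.μ γ (fun ω => M.Z h l ω x y) ≤
        ENNReal.ofReal CB * mom M.μ γ (fun ω => M.Z h m ω 0 0) := by
  -- uniform lower bounds
  have huni : ∀ (f : ℤ → ℤ × ℤ × ℕ), (∀ x ∈ Finset.Icc (-(R : ℤ)) R, M.Reach H (f x).1 (f x).2.1 (f x).2.2) →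
      ∃ c, 0 < c ∧ ∀ x ∈ Finset.Icc (-(R : ℤ)) R, ∀ h, |h| ≤ H → ∀ γ, 0 ≤ γ → γ ≤ 1 →
        ENNReal.ofReal c ≤ mom M.μ γ (fun ω => M.Z h (f x).2.2 ω (f x).1 (f x).2.1) := by
    intro f hf
    apply finset_pos_min (Finset.Icc (-(R : ℤ)) R) (fun x c => ∀ h, |h| ≤ H → ∀ γ, 0 ≤ γ → γ ≤ 1 →
        ENNReal.ofReal c ≤ mom M.μ γ (fun ω => M.Z h (f x).2.2 ω (f x).1 (f x).2.1))
    · intro x c c' _ hc h1 h hh γ h0 hγ
      exact (ENNReal.ofReal_le_ofReal hc).trans (h1 h hh γ h0 hγ)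
    · intro x hx
      exact hf x hx
  obtain ⟨c₁, hc₁, h1⟩ := huni (fun x => (0, x, x.natAbs)) (fun x _ => M.reach_from_zero H x)
  obtain ⟨c₂, hc₂, h2⟩ := huni (fun x => (x, 0, x.natAbs)) (fun x _ => M.reach_to_zero H x)
  -- combination
  have hcomb : ∀ {d₁ d₂ : ℝ} (_ : 0 < d₁) (_ : 0 < d₂) (h γ : ℝ) (x y : ℤ) (a b l : ℕ), 0 ≤ γ →
      ENNReal.ofReal d₁ ≤ mom M.μ γ (fun ω => M.Z h a ω 0 x) →
      ENNReal.ofReal d₂ ≤ mom M.μ γ (fun ω => M.Z h b ω y 0) →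
      mom M.μ γ (fun ω => M.Z h l ω x y) ≤
        ENNReal.ofReal (d₁ * d₂)⁻¹ * mom M.μ γ (fun ω => M.Z h (a + l + b) ω 0 0) := by
    intro d₁ d₂ hd₁ hd₂ h γ x y a b l h0 hA hB
    have h3 : ENNReal.ofReal d₁ * mom M.μ γ (fun ω => M.Z h l ω x y) * ENNReal.ofReal d₂ ≤
        mom M.μ γ (fun ω => M.Z h (a + l + b) ω 0 0) := by
      calc ENNReal.ofReal d₁ * mom M.μ γ (fun ω => M.Z h l ω x y) * ENNReal.ofReal d₂
          ≤ mom M.μ γ (fun ω => M.Z h a ω 0 x) * mom M.μ γ (fun ω => M.Z h l ω x y) *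
              mom M.μ γ (fun ω => M.Z h b ω y 0) := mul_le_mul' (mul_le_mul' hA le_rfl) hB
        _ = mom M.μ γ (fun ω => M.Z h a ω 0 x * M.Z h l (shift a ω) x y) *
              mom M.μ γ (fun ω => M.Z h b ω y 0) := by
            rw [mom_mul_shift (k := a) (F := fun ω => M.Z h a ω 0 x) (G := fun ω => M.Z h l ω x y) h0
              (M.good_Z h a 0 x).meas (M.good_Z h l x y).meas
              (M.good_Z h a 0 x).depOn (M.good_Z h a 0 x).nonneg]
        _ ≤ mom M.μ γ (fun ω => M.Z h (a + l) ω 0 y) * mom M.μ γ (fun ω => M.Z h b ω y 0) :=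
            mul_le_mul_left (mom_mono h0 fun ω => M.Z_mul_le h a l ω 0 x y) _
        _ = mom M.μ γ (fun ω => M.Z h (a + l) ω 0 y * M.Z h b (shift (a + l) ω) y 0) := by
            rw [mom_mul_shift (k := a + l) (F := fun ω => M.Z h (a + l) ω 0 y) (G := fun ω => M.Z h b ω y 0) h0
              (M.good_Z h (a + l) 0 y).meas (M.good_Z h b y 0).meas
              (M.good_Z h (a + l) 0 y).depOn (M.good_Z h (a + l) 0 y).nonneg]
        _ ≤ _ := mom_mono h0 fun ω => M.Z_mul_le h (a + l) b ω 0 y 0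
    calc mom M.μ γ (fun ω => M.Z h l ω x y)
        = ENNReal.ofReal (d₁ * d₂)⁻¹ *
          (ENNReal.ofReal d₁ * mom M.μ γ (fun ω => M.Z h l ω x y) * ENNReal.ofReal d₂) := by
          rw [show ENNReal.ofReal d₁ * mom M.μ γ (fun ω => M.Z h l ω x y) * ENNReal.ofReal d₂ =
            (ENNReal.ofReal d₁ * ENNReal.ofReal d₂) * mom M.μ γ (fun ω => M.Z h l ω x y) by ring,
            ← ENNReal.ofReal_mul hd₁.le, ← mul_assoc, ← ENNReal.ofReal_mul (by positivity),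
            inv_mul_cancel₀ (mul_pos hd₁ hd₂).ne', ENNReal.ofReal_one, one_mul]
      _ ≤ _ := mul_le_mul_right h3 _
  by_cases hb : ∀ x, M.C.p x x = 0
  · -- bipartite chain
    refine ⟨2 * R + 1, max 1 (c₁ * c₂)⁻¹, le_max_left _ _, fun h hh γ h0 hγ x hx y hy l => ?_⟩
    have hx' := Finset.mem_Icc.1 hx
    have hy' := Finset.mem_Icc.1 hy
    rcases Nat.even_or_odd (x.natAbs + l + y.natAbs) with he | ho
    · refine ⟨x.natAbs + l + y.natAbs, he, by omega, by omega, ?_⟩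
      refine (hcomb hc₁ hc₂ h γ x y x.natAbs y.natAbs l h0 (h1 x hx h hh γ h0 hγ)
        (h2 y hy h hh γ h0 hγ)).trans ?_
      exact mul_le_mul_left (ENNReal.ofReal_le_ofReal (le_max_right _ _)) _
    · refine ⟨x.natAbs + l + y.natAbs + 1, ho.add_one, by omega, by omega, ?_⟩
      have h3 : ∀ ω : ℕ → ℝ, M.Z h l ω x y = 0 := by
        intro ω
        apply Zk_parity hb
        intro he
        rw [← Nat.not_even_iff_odd] at ho
        apply ho
        rw [Int.even_iff] at he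
        rw [Nat.even_iff]
        omega
      rcases h0.lt_or_eq with hpos | hz
      · rw [mom_congr h3, mom_zero hpos]
        exact bot_le
      · rw [← hz]
        have h4 : ∀ F : (ℕ → ℝ) → ℝ, mom M.μ 0 F = 1 := by intro F; simp [mom]
        rw [h4, h4, mul_one, ← ENNReal.ofReal_one]
        exact ENNReal.ofReal_le_ofReal (le_max_left _ _)
  · -- a lazy site
    push Not at hb
    obtain ⟨z₀, hz₀⟩ := hb
    have hz₀' : 0 < M.C.p z₀ z₀ := lt_of_le_of_ne (M.C.nonneg _ _) (Ne.symm hz₀)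
    have hstay : M.Reach H z₀ z₀ 1 := M.reach_step (by simp only [Finset.mem_Icc]; omega) hz₀'
    obtain ⟨c₃, hc₃, h3⟩ := huni (fun x => (x, 0, x.natAbs + (z₀.natAbs + 1 + z₀.natAbs)))
      (fun x _ => Reach.trans M (M.reach_to_zero H x)
        (Reach.trans M (Reach.trans M (M.reach_from_zero H z₀) hstay) (M.reach_to_zero H z₀)))
    refine ⟨2 * R + 2 * z₀.natAbs + 1, max 1 (max (c₁ * c₂)⁻¹ (c₁ * c₃)⁻¹), le_max_left _ _,
      fun h hh γ h0 hγ x hx y hy l => ?_⟩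
    have hx' := Finset.mem_Icc.1 hx
    have hy' := Finset.mem_Icc.1 hy
    rcases Nat.even_or_odd (x.natAbs + l + y.natAbs) with he | ho
    · refine ⟨x.natAbs + l + y.natAbs, he, by omega, by omega, ?_⟩
      refine (hcomb hc₁ hc₂ h γ x y x.natAbs y.natAbs l h0 (h1 x hx h hh γ h0 hγ)
        (h2 y hy h hh γ h0 hγ)).trans ?_
      exact mul_le_mul_left (ENNReal.ofReal_le_ofReal ((le_max_left _ _).trans (le_max_right _ _))) _
    · refine ⟨x.natAbs + l + (y.natAbs + (z₀.natAbs + 1 + z₀.natAbs)), ?_, by omega, by omega, ?_⟩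
      · rw [Nat.even_iff]
        rw [Nat.odd_iff] at ho
        omega
      refine (hcomb hc₁ hc₃ h γ x y x.natAbs _ l h0 (h1 x hx h hh γ h0 hγ)
        (h3 y hy h hh γ h0 hγ)).trans ?_
      exact mul_le_mul_left (ENNReal.ofReal_le_ofReal ((le_max_right _ _).trans (le_max_right _ _))) _

end Model

end

end MP_daa227_pr
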