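import Pool.Agent.Lib.MP_daa227_pr.Exc

/-!
# Functions of the charges with controlled logarithmic oscillation
-/

open MeasureTheory ProbabilityTheory Set Filter
open scoped ENNReal

namespace MP_daa227_pr

noncomputable section

/-- `F ≥ 0` is measurable and changing the first `k` charges changes it at most by the factor
`exp (κ ∑ |ω i - ω' i|)`. -/
structure Good (k : ℕ) (κ : ℝ) (F : (ℕ → ℝ) → ℝ) : Prop where
  meas : Measurable F
  nonneg : ∀ ω, 0 ≤ F ω
  ratio : ∀ ω ω', F ω ≤ Real.exp (κ * ∑ i ∈ Finset.range k, |ω i - ω' i|) * F ω'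

/-- The site weights have logarithmic Lipschitz constant `κ` in the charge. -/
structure GoodW (κ : ℝ) (W : ℝ → ℤ → ℝ) : Prop where
  meas : ∀ z, Measurable (fun a => W a z)
  pos : ∀ a z, 0 < W a z
  ratio : ∀ a b z, W a z ≤ Real.exp (κ * |a - b|) * W b z

lemma Good.congr {k : ℕ} {κ : ℝ} {F G : (ℕ → ℝ) → ℝ} (h : Good k κ F) (e : ∀ ω, G ω = F ω) :
    Good k κ G := by
  have : G = F := funext e
  rw [this]; exact h

lemma Good.mono {k l : ℕ} {κ : ℝ} (hκ : 0 ≤ κ) {F : (ℕ → ℝ) → ℝ} (h : Good k κ F) (hkl : k ≤ l) :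
    Good l κ F := by
  refine ⟨h.meas, h.nonneg, fun ω ω' => (h.ratio ω ω').trans ?_⟩
  apply mul_le_mul_of_nonneg_right _ (h.nonneg ω')
  apply Real.exp_le_exp.2
  apply mul_le_mul_of_nonneg_left _ hκ
  exact Finset.sum_le_sum_of_subset_of_nonneg (Finset.range_mono hkl) (fun _ _ _ => abs_nonneg _)

lemma Good.depOn {k : ℕ} {κ : ℝ} {F : (ℕ → ℝ) → ℝ} (h : Good k κ F) : DepOn k F := by
  have key : ∀ ω ω' : ℕ → ℝ, (∀ i < k, ω i = ω' i) → F ω ≤ F ω' := by
    intro ω ω' hω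
    have h1 := h.ratio ω ω'
    rw [Finset.sum_eq_zero (fun i hi => by rw [hω i (Finset.mem_range.1 hi)]; simp), mul_zero,
      Real.exp_zero, one_mul] at h1
    exact h1
  intro ω ω' hω
  exact le_antisymm (key ω ω' hω) (key ω' ω (fun i hi => (hω i hi).symm))

lemma Good.const {k : ℕ} {κ c : ℝ} (hκ : 0 ≤ κ) (hc : 0 ≤ c) : Good k κ (fun _ => c) := by
  refine ⟨measurable_const, fun _ => hc, fun ω ω' => ?_⟩
  have h1 : 0 ≤ κ * ∑ i ∈ Finset.range k, |ω i - ω' i| :=
    mul_nonneg hκ (Finset.sum_nonneg fun _ _ => abs_nonneg _)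
  have h2 := Real.one_le_exp h1
  nlinarith

lemma Good.add {k : ℕ} {κ : ℝ} {F G : (ℕ → ℝ) → ℝ} (hF : Good k κ F) (hG : Good k κ G) :
    Good k κ (fun ω => F ω + G ω) := by
  refine ⟨hF.meas.add hG.meas, fun ω => add_nonneg (hF.nonneg ω) (hG.nonneg ω), fun ω ω' => ?_⟩
  have h1 := hF.ratio ω ω'
  have h2 := hG.ratio ω ω'
  nlinarith

lemma Good.sum {ι : Type*} {k : ℕ} {κ : ℝ} (hκ : 0 ≤ κ) (s : Finset ι) {F : ι → (ℕ → ℝ) → ℝ}
    (hF : ∀ i ∈ s, Good k κ (F i)) : Good k κ (fun ω => ∑ i ∈ s, F i ω) := by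
  classical
  induction s using Finset.induction_on with
  | empty => simpa using Good.const (k := k) hκ le_rfl
  | insert a s ha ih =>
    have h1 := (hF a (Finset.mem_insert_self a s)).add (ih (fun i hi => hF i (Finset.mem_insert_of_mem hi)))
    exact h1.congr (fun ω => by rw [Finset.sum_insert ha])

lemma Good.const_mul {k : ℕ} {κ c : ℝ} (hc : 0 ≤ c) {F : (ℕ → ℝ) → ℝ} (hF : Good k κ F) :
    Good k κ (fun ω => c * F ω) := by
  refine ⟨hF.meas.const_mul c, fun ω => mul_nonneg hc (hF.nonneg ω), fun ω ω' => ?_⟩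
  have h1 := hF.ratio ω ω'
  calc c * F ω ≤ c * (Real.exp (κ * ∑ i ∈ Finset.range k, |ω i - ω' i|) * F ω') :=
        mul_le_mul_of_nonneg_left h1 hc
    _ = _ := by ring

lemma Good.ite {k : ℕ} {κ : ℝ} (hκ : 0 ≤ κ) {F : (ℕ → ℝ) → ℝ} (hF : Good k κ F) (P : Prop) [Decidable P] :
    Good k κ (fun ω => if P then F ω else 0) := by
  by_cases h : P
  · simpa [h] using hF
  · simpa [h] using Good.const (k := k) hκ le_rfl

lemma sum_shift_le (k l : ℕ) (ω ω' : ℕ → ℝ) :
    ∑ i ∈ Finset.range k, |ω i - ω' i| + ∑ i ∈ Finset.range l, |shift k ω i - shift k ω' i| =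
      ∑ i ∈ Finset.range (k + l), |ω i - ω' i| := by
  rw [Finset.sum_range_add]
  congr 1
  apply Finset.sum_congr rfl
  intro i _
  simp only [shift_apply, Nat.add_comm i k]

lemma Good.mul_shift {k l : ℕ} {κ : ℝ} {F G : (ℕ → ℝ) → ℝ} (hF : Good k κ F) (hG : Good l κ G) :
    Good (k + l) κ (fun ω => F ω * G (shift k ω)) := by
  refine ⟨hF.meas.mul (hG.meas.comp (measurable_shift k)),
    fun ω => mul_nonneg (hF.nonneg ω) (hG.nonneg _), fun ω ω' => ?_⟩
  rw [← sum_shift_le, mul_add, Real.exp_add]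
  calc F ω * G (shift k ω)
      ≤ (Real.exp (κ * ∑ i ∈ Finset.range k, |ω i - ω' i|) * F ω') *
        (Real.exp (κ * ∑ i ∈ Finset.range l, |shift k ω i - shift k ω' i|) * G (shift k ω')) :=
        mul_le_mul (hF.ratio ω ω') (hG.ratio _ _) (hG.nonneg _)
          (mul_nonneg (Real.exp_pos _).le (hF.nonneg _))
    _ = _ := by ring

lemma Good.pos {k : ℕ} {κ : ℝ} {F : (ℕ → ℝ) → ℝ} (hF : Good k κ F) {ω₀ : ℕ → ℝ} (h : 0 < F ω₀)
    (ω : ℕ → ℝ) : 0 < F ω := by
  have h1 := hF.ratio ω₀ ω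
  have h2 := hF.nonneg ω
  rcases h2.lt_or_eq with h3 | h3
  · exact h3
  · rw [← h3, mul_zero] at h1; linarith

lemma Good.log_lip {k : ℕ} {κ : ℝ} {F : (ℕ → ℝ) → ℝ} (hF : Good k κ F) (hpos : ∀ ω, 0 < F ω) :
    LipOn k κ (fun ω => Real.log (F ω)) := by
  have key : ∀ ω ω', Real.log (F ω) - Real.log (F ω') ≤ κ * ∑ i ∈ Finset.range k, |ω i - ω' i| := by
    intro ω ω'
    have h1 := Real.log_le_log (hpos ω) (hF.ratio ω ω')
    rw [Real.log_mul (Real.exp_pos _).ne' (hpos ω').ne', Real.log_exp] at h1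
    linarith
  intro ω ω'
  rw [abs_le]
  constructor
  · have h1 := key ω' ω
    have h2 : ∑ i ∈ Finset.range k, |ω' i - ω i| = ∑ i ∈ Finset.range k, |ω i - ω' i| :=
      Finset.sum_congr rfl (fun i _ => abs_sub_comm _ _)
    rw [h2] at h1
    linarith
  · exact key ω ω'

lemma GoodW.good {κ : ℝ} {W : ℝ → ℤ → ℝ} (hW : GoodW κ W) (z : ℤ) :
    Good 1 κ (fun ω : ℕ → ℝ => W (ω 0) z) := by
  refine ⟨(hW.meas z).comp (measurable_pi_apply 0), fun ω => (hW.pos _ _).le, fun ω ω' => ?_⟩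
  simpa using hW.ratio (ω 0) (ω' 0) z

section
variable (C : Chain) {W : ℝ → ℤ → ℝ} {κ : ℝ} (hκ : 0 ≤ κ) (hW : GoodW κ W) (B : Finset ℤ)

include hκ hW

lemma good_Zk : ∀ (n : ℕ) (x y : ℤ), Good n κ (fun ω => Zk C W n ω x y)
  | 0, x, y => by
      simp only [Zk]
      exact Good.ite hκ (Good.const hκ zero_le_one) _
  | n + 1, x, y => by
      simp only [Zk]
      refine Good.sum hκ _ fun z _ => ?_
      have h1 := ((hW.good z).const_mul (C.nonneg x z)).mul_shift (good_Zk n z y)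
      rw [Nat.add_comm n 1]
      exact h1

lemma good_Zf : ∀ (n : ℕ) (x : ℤ), Good n κ (fun ω => Zf C W n ω x)
  | 0, x => by
      simp only [Zf]
      exact Good.const hκ zero_le_one
  | n + 1, x => by
      simp only [Zf]
      refine Good.sum hκ _ fun z _ => ?_
      have h1 := ((hW.good z).const_mul (C.nonneg x z)).mul_shift (good_Zf n z)
      rw [Nat.add_comm n 1]
      exact h1

lemma good_Gk : ∀ (n : ℕ) (x y : ℤ), Good n κ (fun ω => Gk C W B n ω x y)
  | 0, x, y => by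
      simp only [Gk]
      exact Good.const hκ le_rfl
  | n + 1, x, y => by
      simp only [Gk]
      refine Good.add ?_ (Good.sum hκ _ fun z _ => ?_)
      · exact Good.ite hκ (((hW.good y).const_mul (C.nonneg x y)).mono hκ (by omega)) _
      · have h1 := ((hW.good z).const_mul (C.nonneg x z)).mul_shift (good_Gk n z y)
        rw [Nat.add_comm n 1]
        exact h1

lemma good_Gf : ∀ (n : ℕ) (x : ℤ), Good n κ (fun ω => Gf C W B n ω x)
  | 0, x => by
      simp only [Gf]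
      exact Good.const hκ zero_le_one
  | n + 1, x => by
      simp only [Gf]
      refine Good.sum hκ _ fun z _ => ?_
      have h1 := ((hW.good z).const_mul (C.nonneg x z)).mul_shift (good_Gf n z)
      rw [Nat.add_comm n 1]
      exact h1

end

lemma good_Ren {κ : ℝ} (hκ : 0 ≤ κ) {G : ℕ → (ℕ → ℝ) → ℤ → ℤ → ℝ} {B : Finset ℤ}
    (hG : ∀ L x y, Good L κ (fun ω => G L ω x y)) :
    ∀ (n : ℕ) (x y : ℤ), Good n κ (fun ω => Ren G B n ω x y) := by
  intro n
  induction n using Nat.strong_induction_on with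
  | _ n ih =>
    intro x y
    rcases Nat.eq_zero_or_pos n with rfl | hn
    · refine Good.congr (F := fun _ => if x = y then 1 else 0) ?_ (fun ω => Ren_zero B G ω x y)
      exact Good.ite hκ (Good.const hκ zero_le_one) _
    · refine Good.congr ?_ (fun ω => Ren_pos_eq B G hn.ne' ω x y)
      refine Good.sum hκ _ fun L hL => Good.sum hκ _ fun z _ => ?_
      rw [Finset.mem_Ioc] at hL
      have h1 := (hG L x z).mul_shift (ih (n - L) (by omega) z y)
      rw [show L + (n - L) = n by omega] at h1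
      exact h1

end

end MP_daa227_pr
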