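import Pool.Agent.Lib.MP_daa227_pr.SmDefs
import Pool.Agent.Lib.MP_daa227_pr.Deco
import Pool.Agent.Lib.MP_daa227_pr.Finite

/-!
# Jensen inequality along the renewal recursion, growth of the homogeneous renewal function
-/

open MeasureTheory ProbabilityTheory Set Filter
open scoped ENNReal Topology

namespace MP_daa227_pr

noncomputable section

lemma HcA.Uh_nonneg {k : ℕ → ℝ} (hk0 : ∀ L, 0 ≤ k L) (N : ℕ) : 0 ≤ Uh k N := by
  induction N using Nat.strong_induction_on with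
  | _ N ih =>
    rcases Nat.eq_zero_or_pos N with rfl | hN
    · rw [Uh_zero]
      exact zero_le_one
    · rw [Uh_pos_eq k hN.ne']
      refine Finset.sum_nonneg fun L hL => ?_
      rw [Finset.mem_Ioc] at hL
      exact mul_nonneg (hk0 L) (ih _ (by omega))

/-- Renewal equation of the constrained partition function. -/
lemma HcA.Z_eq (M : Model) {N : ℕ} (hN : N ≠ 0) (ω : ℕ → ℝ) :
    M.Z 0 N ω 0 0 = ∑ L ∈ Finset.Ioc 0 N, Gk M.C (M.W 0) {0} L ω 0 0 *
      M.Z 0 (N - L) (shift L ω) 0 0 := by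
  unfold Model.Z
  rw [Zk_eq_Ren M.C (M.W 0) {0} (Finset.mem_singleton_self 0), Ren_pos_eq _ _ hN]
  refine Finset.sum_congr rfl fun L _ => ?_
  rw [Finset.sum_singleton, Zk_eq_Ren M.C (M.W 0) {0} (Finset.mem_singleton_self 0)]

theorem renewal_jensen (M : Model) (k : ℕ → ℝ) (hk0 : ∀ L, 0 ≤ k L)
    (hk : ∀ L, 1 ≤ L → 0 < k L → (∀ ω, 0 < Gk M.C (M.W 0) {0} L ω 0 0) ∧
      Real.log (k L) ≤ ∫ ω, Real.log (Gk M.C (M.W 0) {0} L ω 0 0) ∂seqLaw M.μ) :
    ∀ N : ℕ, 0 < Uh k N → (∀ ω, 0 < M.Z 0 N ω 0 0) ∧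
      Real.log (Uh k N) ≤ ∫ ω, Real.log (M.Z 0 N ω 0 0) ∂seqLaw M.μ := by
  intro N
  induction N using Nat.strong_induction_on with
  | _ N ih =>
    intro hUN
    rcases Nat.eq_zero_or_pos N with rfl | hN
    · have h1 : ∀ ω, M.Z 0 0 ω 0 0 = 1 := fun ω => by
        unfold Model.Z
        simp [Zk]
      refine ⟨fun ω => by rw [h1]; exact one_pos, ?_⟩
      rw [Uh_zero]
      simp [h1]
    · have hG0 : ∀ L ω, 0 ≤ Gk M.C (M.W 0) {0} L ω 0 0 := fun L ω =>
        (good_Gk M.C M.κ_pos.le (M.goodW 0) {0} L 0 0).nonneg ω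
      set S := (Finset.Ioc 0 N).filter fun L => 0 < k L * Uh k (N - L) with hSdef
      have hS : ∀ L ∈ S, 1 ≤ L ∧ L ≤ N ∧ 0 < k L ∧ 0 < Uh k (N - L) := by
        intro L hL
        rw [hSdef, Finset.mem_filter, Finset.mem_Ioc] at hL
        obtain ⟨⟨h1, h2⟩, h3⟩ := hL
        refine ⟨h1, h2, ?_, ?_⟩
        · exact lt_of_le_of_ne (hk0 L) fun h => by rw [← h, zero_mul] at h3; exact h3.false
        · exact lt_of_le_of_ne (HcA.Uh_nonneg hk0 _) fun h => by
            rw [← h, mul_zero] at h3; exact h3.false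
      have hsum : ∑ L ∈ S, k L * Uh k (N - L) = Uh k N := by
        rw [Uh_pos_eq k hN.ne', hSdef, Finset.sum_filter]
        refine Finset.sum_congr rfl fun L _ => ?_
        split_ifs with h
        · rfl
        · exact le_antisymm (mul_nonneg (hk0 L) (HcA.Uh_nonneg hk0 _)) (not_lt.mp h)
      set q : ℕ → ℝ := fun L => k L * Uh k (N - L) / Uh k N with hq
      have hq1 : ∑ L ∈ S, q L = 1 := by
        simp only [hq]
        rw [← Finset.sum_div, hsum, div_self hUN.ne']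
      have hqpos : ∀ L ∈ S, 0 < q L := fun L hL => by
        obtain ⟨_, _, h3, h4⟩ := hS L hL
        exact div_pos (mul_pos h3 h4) hUN
      have hne : S.Nonempty := by
        rw [Finset.nonempty_iff_ne_empty]
        intro h
        rw [h, Finset.sum_empty] at hq1
        exact zero_ne_one hq1
      have hGpos : ∀ L ∈ S, ∀ ω, 0 < Gk M.C (M.W 0) {0} L ω 0 0 := fun L hL =>
        (hk L (hS L hL).1 (hS L hL).2.2.1).1
      have hZpos : ∀ L ∈ S, ∀ ω, 0 < M.Z 0 (N - L) ω 0 0 := fun L hL =>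
        (ih (N - L) (by have := hS L hL; omega) (hS L hL).2.2.2).1
      have hle : ∀ ω, ∑ L ∈ S, Gk M.C (M.W 0) {0} L ω 0 0 * M.Z 0 (N - L) (shift L ω) 0 0 ≤
          M.Z 0 N ω 0 0 := by
        intro ω
        rw [HcA.Z_eq M hN.ne']
        refine Finset.sum_le_sum_of_subset_of_nonneg (Finset.filter_subset _ _) ?_
        intro L _ _
        exact mul_nonneg (hG0 L ω) (M.Z_nonneg 0 _ _ _ _)
      have hposS : ∀ ω, 0 < ∑ L ∈ S, Gk M.C (M.W 0) {0} L ω 0 0 *
          M.Z 0 (N - L) (shift L ω) 0 0 := fun ω =>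
        Finset.sum_pos (fun L hL => mul_pos (hGpos L hL ω) (hZpos L hL _)) hne
      have hZN : ∀ ω, 0 < M.Z 0 N ω 0 0 := fun ω => (hposS ω).trans_le (hle ω)
      refine ⟨hZN, ?_⟩
      have hjen : ∀ ω, ∑ L ∈ S, q L * (Real.log (Gk M.C (M.W 0) {0} L ω 0 0) +
          Real.log (M.Z 0 (N - L) (shift L ω) 0 0) - Real.log (q L)) ≤
          Real.log (M.Z 0 N ω 0 0) := by
        intro ω
        refine le_trans ?_ (Real.log_le_log (hposS ω) (hle ω))
        have h1 := strictConcaveOn_log_Ioi.concaveOn.le_map_sum (t := S) (w := q)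
          (p := fun L => Gk M.C (M.W 0) {0} L ω 0 0 * M.Z 0 (N - L) (shift L ω) 0 0 / q L)
          (fun L hL => (hqpos L hL).le) hq1 (fun L hL =>
            div_pos (mul_pos (hGpos L hL ω) (hZpos L hL _)) (hqpos L hL))
        simp only [smul_eq_mul] at h1
        have h2 : ∑ L ∈ S, q L * (Gk M.C (M.W 0) {0} L ω 0 0 *
            M.Z 0 (N - L) (shift L ω) 0 0 / q L) =
            ∑ L ∈ S, Gk M.C (M.W 0) {0} L ω 0 0 * M.Z 0 (N - L) (shift L ω) 0 0 := by
          refine Finset.sum_congr rfl fun L hL => ?_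
          have := (hqpos L hL).ne'
          field_simp
        rw [h2] at h1
        refine le_trans (le_of_eq ?_) h1
        refine Finset.sum_congr rfl fun L hL => ?_
        rw [Real.log_div (mul_pos (hGpos L hL ω) (hZpos L hL _)).ne' (hqpos L hL).ne',
          Real.log_mul (hGpos L hL ω).ne' (hZpos L hL _).ne']
      have hiG : ∀ L ∈ S, Integrable (fun ω => Real.log (Gk M.C (M.W 0) {0} L ω 0 0))
          (seqLaw M.μ) := fun L hL =>
        (good_Gk M.C M.κ_pos.le (M.goodW 0) {0} L 0 0).integrable_log M.exp_mom (hGpos L hL)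
      have hiZ' : ∀ L ∈ S, Integrable (fun ω => Real.log (M.Z 0 (N - L) ω 0 0))
          (seqLaw M.μ) := fun L hL =>
        (M.good_Z 0 (N - L) 0 0).integrable_log M.exp_mom (hZpos L hL)
      have hiZ : ∀ L ∈ S, Integrable (fun ω => Real.log (M.Z 0 (N - L) (shift L ω) 0 0))
          (seqLaw M.μ) := fun L hL =>
        integrable_shift M.μ L (Y := fun ω => Real.log (M.Z 0 (N - L) ω 0 0))
          (M.good_Z 0 (N - L) 0 0).meas.log (hiZ' L hL)
      have hiS : ∀ L ∈ S, Integrable (fun ω => q L * (Real.log (Gk M.C (M.W 0) {0} L ω 0 0) +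
          Real.log (M.Z 0 (N - L) (shift L ω) 0 0) - Real.log (q L))) (seqLaw M.μ) :=
        fun L hL => (((hiG L hL).add (hiZ L hL)).sub (integrable_const _)).const_mul _
      have hint : ∫ ω, ∑ L ∈ S, q L * (Real.log (Gk M.C (M.W 0) {0} L ω 0 0) +
          Real.log (M.Z 0 (N - L) (shift L ω) 0 0) - Real.log (q L)) ∂seqLaw M.μ ≤
          ∫ ω, Real.log (M.Z 0 N ω 0 0) ∂seqLaw M.μ :=
        integral_mono (integrable_finsetSum _ hiS)
          ((M.good_Z 0 N 0 0).integrable_log M.exp_mom hZN) hjen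
      refine le_trans ?_ hint
      rw [integral_finsetSum _ hiS]
      have hterm : ∀ L ∈ S, q L * Real.log (Uh k N) ≤
          ∫ ω, q L * (Real.log (Gk M.C (M.W 0) {0} L ω 0 0) +
          Real.log (M.Z 0 (N - L) (shift L ω) 0 0) - Real.log (q L)) ∂seqLaw M.μ := by
        intro L hL
        obtain ⟨h1, h2, h3, h4⟩ := hS L hL
        rw [integral_const_mul]
        refine mul_le_mul_of_nonneg_left ?_ (hqpos L hL).le
        have e1 : ∫ ω, (Real.log (Gk M.C (M.W 0) {0} L ω 0 0) +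
            Real.log (M.Z 0 (N - L) (shift L ω) 0 0) - Real.log (q L)) ∂seqLaw M.μ =
            ∫ ω, Real.log (Gk M.C (M.W 0) {0} L ω 0 0) ∂seqLaw M.μ +
            ∫ ω, Real.log (M.Z 0 (N - L) (shift L ω) 0 0) ∂seqLaw M.μ - Real.log (q L) := by
          have f1 : Integrable (fun ω => Real.log (Gk M.C (M.W 0) {0} L ω 0 0) +
              Real.log (M.Z 0 (N - L) (shift L ω) 0 0)) (seqLaw M.μ) :=
            (hiG L hL).add (hiZ L hL)
          rw [integral_sub f1 (integrable_const _), integral_add (hiG L hL) (hiZ L hL)]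
          simp
        rw [e1, integral_shift M.μ L (Y := fun ω => Real.log (M.Z 0 (N - L) ω 0 0))
          (M.good_Z 0 (N - L) 0 0).meas.log]
        have e2 := (hk L h1 h3).2
        have e3 := (ih (N - L) (by omega) h4).2
        have e4 : Real.log (q L) = Real.log (k L) + Real.log (Uh k (N - L)) -
            Real.log (Uh k N) := by
          simp only [hq]
          rw [Real.log_div (mul_pos h3 h4).ne' hUN.ne', Real.log_mul h3.ne' h4.ne']
        linarith
      calc Real.log (Uh k N) = ∑ L ∈ S, q L * Real.log (Uh k N) := by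
            rw [← Finset.sum_mul, hq1, one_mul]
        _ ≤ _ := Finset.sum_le_sum hterm

lemma HcA.Uh_odd {k : ℕ → ℝ} (hodd : ∀ L, ¬ Even L → k L = 0) (N : ℕ) (hN : ¬ Even N) :
    Uh k N = 0 := by
  induction N using Nat.strong_induction_on with
  | _ N ih =>
    have h0 : N ≠ 0 := fun h => hN (by rw [h]; exact Even.zero)
    rw [Uh_pos_eq k h0]
    refine Finset.sum_eq_zero fun L hL => ?_
    rw [Finset.mem_Ioc] at hL
    by_cases hLe : Even L
    · rw [ih (N - L) (by omega) (fun h => hN ?_), mul_zero]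
      have := h.add hLe
      rwa [Nat.sub_add_cancel hL.2] at this
    · rw [hodd L hLe, zero_mul]

lemma HcA.step {k : ℕ → ℝ} (hk0 : ∀ L, 0 ≤ k L) (L₀ m : ℕ) :
    (∑ L ∈ Finset.Ioc 0 L₀, k L) * ∑ N ∈ Finset.range (m * L₀ + 1), Uh k N ≤
      ∑ N ∈ Finset.range ((m + 1) * L₀ + 1), Uh k N := by
  set Q := (m + 1) * L₀ with hQ
  have hQL : m * L₀ + L₀ = Q := by rw [hQ, Nat.add_mul, one_mul]
  have h1 : ∑ N ∈ Finset.Ioc 0 Q, Uh k N ≤ ∑ N ∈ Finset.range (Q + 1), Uh k N := by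
    refine Finset.sum_le_sum_of_subset_of_nonneg ?_ fun N _ _ => HcA.Uh_nonneg hk0 N
    intro N hN
    rw [Finset.mem_Ioc] at hN
    rw [Finset.mem_range]
    omega
  refine le_trans ?_ h1
  have h2 : ∑ N ∈ Finset.Ioc 0 Q, Uh k N =
      ∑ L ∈ Finset.Ioc 0 Q, ∑ N ∈ Finset.Icc L Q, k L * Uh k (N - L) := by
    rw [← Finset.sum_comm' (s := Finset.Ioc 0 Q) (t := fun N => Finset.Ioc 0 N)]
    · refine Finset.sum_congr rfl fun N hN => ?_
      rw [Finset.mem_Ioc] at hN
      rw [Uh_pos_eq k (by omega)]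
    · intro N L
      simp only [Finset.mem_Ioc, Finset.mem_Icc]
      omega
  rw [h2, Finset.sum_mul]
  have h3 : ∑ L ∈ Finset.Ioc 0 L₀, ∑ N ∈ Finset.Icc L Q, k L * Uh k (N - L) ≤
      ∑ L ∈ Finset.Ioc 0 Q, ∑ N ∈ Finset.Icc L Q, k L * Uh k (N - L) := by
    refine Finset.sum_le_sum_of_subset_of_nonneg ?_ fun L _ _ =>
      Finset.sum_nonneg fun N _ => mul_nonneg (hk0 L) (HcA.Uh_nonneg hk0 _)
    intro L hL
    rw [Finset.mem_Ioc] at hL ⊢
    omega
  refine le_trans ?_ h3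
  refine Finset.sum_le_sum fun L hL => ?_
  rw [Finset.mem_Ioc] at hL
  rw [← Finset.mul_sum]
  refine mul_le_mul_of_nonneg_left ?_ (hk0 L)
  have h4 : Finset.Icc L Q = (Finset.range (Q - L + 1)).map (addRightEmbedding L) := by
    rw [Finset.range_eq_Ico, Finset.map_add_right_Ico]
    ext i
    simp only [Finset.mem_Icc, Finset.mem_Ico]
    omega
  rw [h4, Finset.sum_map]
  simp only [addRightEmbedding_apply, Nat.add_sub_cancel]
  refine Finset.sum_le_sum_of_subset_of_nonneg ?_ fun N _ _ => HcA.Uh_nonneg hk0 N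
  intro N hN
  rw [Finset.mem_range] at hN ⊢
  omega

theorem Uh_growth (k : ℕ → ℝ) (hk0 : ∀ L, 0 ≤ k L) (hodd : ∀ L, ¬ Even L → k L = 0)
    (hS : ∃ L₀ : ℕ, 1 < ∑ L ∈ Finset.Ioc 0 L₀, k L) : ∃ N : ℕ, Even N ∧ 1 ≤ N ∧ 1 < Uh k N := by
  obtain ⟨L₀, hL₀⟩ := hS
  by_contra hcon
  push Not at hcon
  set S := ∑ L ∈ Finset.Ioc 0 L₀, k L with hSdef
  have hU : ∀ N, Uh k N ≤ 1 := by
    intro N
    rcases Nat.eq_zero_or_pos N with rfl | hN
    · rw [Uh_zero]
    · by_cases he : Even N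
      · exact hcon N he hN
      · rw [HcA.Uh_odd hodd N he]
        exact zero_le_one
  have hT : ∀ m : ℕ, S ^ m ≤ ∑ N ∈ Finset.range (m * L₀ + 1), Uh k N := by
    intro m
    induction m with
    | zero => simp [Uh_zero]
    | succ m ih =>
      refine le_trans ?_ (HcA.step hk0 L₀ m)
      rw [pow_succ, mul_comm]
      exact mul_le_mul_of_nonneg_left ih (by linarith)
  have hT' : ∀ m : ℕ, S ^ m ≤ 1 + m * L₀ := by
    intro m
    refine (hT m).trans ?_
    calc ∑ N ∈ Finset.range (m * L₀ + 1), Uh k N ≤ ∑ N ∈ Finset.range (m * L₀ + 1), (1 : ℝ) :=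
          Finset.sum_le_sum fun N _ => hU N
      _ = 1 + m * L₀ := by
          rw [Finset.sum_const, Finset.card_range, nsmul_eq_mul]
          push_cast
          ring
  have hlim : Tendsto (fun m : ℕ => (1 + (m : ℝ) * L₀) / S ^ m) atTop (𝓝 0) := by
    have h1 := tendsto_pow_const_div_const_pow_of_one_lt 0 hL₀
    have h2 := (tendsto_pow_const_div_const_pow_of_one_lt 1 hL₀).const_mul (L₀ : ℝ)
    have h3 := h1.add h2
    simp only [mul_zero, add_zero] at h3
    refine h3.congr fun m => ?_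
    rw [pow_zero, pow_one]
    ring
  obtain ⟨m, hm⟩ := (hlim.eventually (gt_mem_nhds (zero_lt_one))).exists
  have hpos : 0 < S ^ m := pow_pos (by linarith) m
  rw [div_lt_one hpos] at hm
  exact absurd (hT' m) (not_le.mpr hm)

end

end MP_daa227_pr
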