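import Pool.Agent.Lib.MP_daa227_pr.SmDefs
import Pool.Agent.Lib.MP_daa227_pr.ExcLem
import Pool.Agent.Lib.MP_daa227_pr.Lin
import Pool.Agent.Lib.MP_daa227_pr.ExpS

/-!
# Strict gain of disorder for one excursion length
-/

open MeasureTheory ProbabilityTheory Set Filter
open scoped ENNReal Topology

namespace MP_daa227_pr

noncomputable section

namespace HcB

theorem integral_linForm {μ : Measure ℝ} [IsProbabilityMeasure μ] (hexp : ExpMom μ)
    (hmean : ∫ x, x ∂μ = 0) (hvar : ∫ x, x ^ 2 ∂μ = 1) (n : ℕ) (c : ℕ → ℝ) :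
    Integrable (fun ω : ℕ → ℝ => ∑ i ∈ Finset.range n, c i * ω i) (seqLaw μ) ∧
      ∫ ω, (∑ i ∈ Finset.range n, c i * ω i) ∂seqLaw μ = 0 := by
  refine ⟨?_, (linForm_moments hexp hmean hvar n c).1⟩
  have h1 := integrable_linForm_pow hexp n c (k := 1) (by norm_num)
  simpa using h1

/-- Change of the field. -/
theorem Gk_Wu (C : Chain) (φ : ℤ → ℝ) (β h : ℝ) (B : Finset ℤ) (n : ℕ) (ω : ℕ → ℝ) (x y : ℤ) :
    Gk C (fun a z => Real.exp ((β * a - h) * φ z)) B n ω x y =
      Gk C (Wu φ) B n (fun k => β * ω k - h) x y := by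
  induction n generalizing ω x with
  | zero => rfl
  | succ n ih =>
    rw [Gk, Gk]
    congr 1
    refine Finset.sum_congr rfl fun z _ => ?_
    rw [ih]
    rfl

theorem Gk_W (M : Model) (B : Finset ℤ) (n : ℕ) (ω : ℕ → ℝ) (x y : ℤ) :
    Gk M.C (M.W 0) B n ω x y = Gk M.C (Wu M.φ) B n (fun k => M.β * ω k) x y := by
  have h1 := Gk_Wu M.C M.φ M.β 0 B n ω x y
  simp only [sub_zero] at h1
  rw [← h1]
  congr 1
  funext a z
  simp [Model.W]

theorem Gk_nonneg (C : Chain) (φ : ℤ → ℝ) (B : Finset ℤ) (n : ℕ) (u : ℕ → ℝ) (x y : ℤ) :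
    0 ≤ Gk C (Wu φ) B n u x y := by
  induction n generalizing u x with
  | zero => exact le_rfl
  | succ n ih =>
    rw [Gk]
    apply add_nonneg
    · split_ifs
      · exact mul_nonneg (C.nonneg _ _) (Real.exp_pos _).le
      · exact le_rfl
    · exact Finset.sum_nonneg fun z _ =>
        mul_nonneg (mul_nonneg (C.nonneg _ _) (Real.exp_pos _).le) (ih _ _)

/-- The kernel without field. -/
theorem Gk_zero_field (C : Chain) (φ : ℤ → ℝ) (n : ℕ) (x : ℤ) :
    Gk C (Wu φ) {0} n (fun _ => 0) x 0 = K0 C n x := by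
  induction n generalizing x with
  | zero => rfl
  | succ n ih =>
    rw [Gk, K0]
    have h1 : ∀ z, Wu φ ((fun _ : ℕ => (0 : ℝ)) 0) z = 1 := fun z => by simp [Wu]
    have h2 : shift 1 (fun _ : ℕ => (0 : ℝ)) = fun _ => 0 := rfl
    simp only [h1, mul_one, h2, ih]

/-- The weight of a path bounds the kernel from below. -/
theorem Gk_path (C : Chain) (φ : ℤ → ℝ) (n : ℕ) : ∀ γ : ℕ → ℤ,
    (∀ k < n + 1, γ (k + 1) = γ k + 1 ∨ γ (k + 1) = γ k - 1) →
    (∀ k, 0 < k → k < n + 1 → γ k ≠ 0) → γ (n + 1) = 0 →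
    ∃ q : ℝ, 0 < q ∧ ∀ u : ℕ → ℝ,
      q * Real.exp (∑ k ∈ Finset.range (n + 1), u k * φ (γ (k + 1))) ≤
        Gk C (Wu φ) {0} (n + 1) u (γ 0) 0 := by
  induction n with
  | zero =>
    intro γ hstep _ hend
    have hp : 0 < C.p (γ 0) (γ 1) := by
      rcases hstep 0 (by norm_num) with h | h
      · rw [zero_add] at h
        rw [h]
        exact C.up _
      · rw [zero_add] at h
        rw [h]
        exact C.down _
    refine ⟨C.p (γ 0) (γ 1), hp, fun u => ?_⟩
    rw [Gk, if_pos rfl]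
    rw [zero_add] at hend
    simp only [zero_add, Finset.sum_range_one, hend, Gk, mul_zero, Finset.sum_const_zero, add_zero]
    exact le_rfl
  | succ n ih =>
    intro γ hstep hne hend
    obtain ⟨q, hq, hqu⟩ := ih (fun k => γ (k + 1)) (fun k hk => hstep (k + 1) (by omega))
      (fun k _ hk => hne (k + 1) (by omega) (by omega)) hend
    have h01 := hstep 0 (by omega)
    rw [zero_add] at h01
    have hp : 0 < C.p (γ 0) (γ 1) := by
      rcases h01 with h | h
      · rw [h]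
        exact C.up _
      · rw [h]
        exact C.down _
    refine ⟨C.p (γ 0) (γ 1) * q, mul_pos hp hq, fun u => ?_⟩
    rw [Gk, if_neg (Nat.succ_ne_zero n), zero_add]
    have hmem : γ 1 ∈ Finset.Icc (γ 0 - 1) (γ 0 + 1) \ {0} := by
      rw [Finset.mem_sdiff, Finset.mem_Icc, Finset.mem_singleton]
      refine ⟨⟨?_, ?_⟩, hne 1 (by omega) (by omega)⟩ <;> rcases h01 with h | h <;> omega
    have h1 := Finset.single_le_sum (f := fun z => C.p (γ 0) z * Wu φ (u 0) z *
      Gk C (Wu φ) {0} (n + 1) (shift 1 u) z 0) (fun z _ => mul_nonneg (mul_nonneg (C.nonneg _ _)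
        (Real.exp_pos _).le) (Gk_nonneg C φ {0} _ _ _ _)) hmem
    refine le_trans ?_ h1
    have h2 := hqu (shift 1 u)
    simp only [zero_add] at h2
    rw [Finset.sum_range_succ', Real.exp_add]
    have h3 : ∀ k, shift 1 u k = u (k + 1) := fun k => by simp [shift]
    simp only [h3] at h2
    have h4 : Wu φ (u 0) (γ 1) = Real.exp (u 0 * φ (γ (0 + 1))) := by
      rw [zero_add]
      rfl
    rw [h4]
    calc C.p (γ 0) (γ 1) * q * (Real.exp (∑ k ∈ Finset.range (n + 1), u (k + 1) * φ (γ (k + 1 + 1))) *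
          Real.exp (u 0 * φ (γ (0 + 1))))
        = C.p (γ 0) (γ 1) * Real.exp (u 0 * φ (γ (0 + 1))) *
          (q * Real.exp (∑ k ∈ Finset.range (n + 1), u (k + 1) * φ (γ (k + 1 + 1)))) := by ring
      _ ≤ _ := by
        refine mul_le_mul_of_nonneg_left h2 ?_
        positivity

/-- Comparison of exponential growth rates. -/
theorem rate_eq {q K a b : ℝ} (hq : 0 < q) (h : ∀ s : ℝ, q * Real.exp (s * a) ≤ K * Real.exp (s * b)) :
    a = b := by
  by_contra hne
  have hab : a - b ≠ 0 := sub_ne_zero.2 hne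
  have hK : 0 < K := by
    have := h 0
    simp only [zero_mul, Real.exp_zero, mul_one] at this
    linarith
  have h1 := h ((Real.log (K / q) + 1) / (a - b))
  set s := (Real.log (K / q) + 1) / (a - b) with hs
  have h2 : s * a = s * b + (Real.log (K / q) + 1) := by
    rw [hs]
    field_simp
    ring
  rw [h2, Real.exp_add, Real.exp_add, Real.exp_log (by positivity)] at h1
  have h3 := Real.exp_pos (s * b)
  have h4 : q * (Real.exp (s * b) * (K / q * Real.exp 1)) = K * Real.exp (s * b) * Real.exp 1 := by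
    field_simp
  rw [h4] at h1
  have h5 : 1 < Real.exp 1 := by
    have := Real.add_one_lt_exp (one_ne_zero)
    linarith
  have h6 : 0 < K * Real.exp (s * b) := by positivity
  nlinarith

/-- Equality in Jensen's inequality. -/
theorem jensen_eq {ι : Type*} (s : Finset ι) (a l : ι → ℝ) (ha : ∀ i ∈ s, 0 ≤ a i)
    (hK : 0 < ∑ i ∈ s, a i) :
    0 ≤ Real.log (∑ i ∈ s, a i * Real.exp (l i)) - Real.log (∑ i ∈ s, a i) -
      (∑ i ∈ s, a i * l i) / ∑ i ∈ s, a i ∧
    (Real.log (∑ i ∈ s, a i * Real.exp (l i)) - Real.log (∑ i ∈ s, a i) -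
      (∑ i ∈ s, a i * l i) / ∑ i ∈ s, a i = 0 → ∀ i ∈ s, ∀ j ∈ s, 0 < a i → 0 < a j → l i = l j) := by
  set K := ∑ i ∈ s, a i with hKdef
  set m := (∑ i ∈ s, a i * l i) / K with hm
  have hmK : ∑ i ∈ s, a i * l i = m * K := by
    rw [hm]
    field_simp
  set T := ∑ i ∈ s, a i * (Real.exp (l i - m) - 1 - (l i - m)) with hT
  have hterm : ∀ i ∈ s, 0 ≤ a i * (Real.exp (l i - m) - 1 - (l i - m)) := by
    intro i hi
    have := Real.add_one_le_exp (l i - m)
    exact mul_nonneg (ha i hi) (by linarith)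
  have hT0 : 0 ≤ T := Finset.sum_nonneg hterm
  have hS : ∑ i ∈ s, a i * Real.exp (l i) = Real.exp m * (K + T) := by
    have h1 : T = (∑ i ∈ s, a i * Real.exp (l i - m)) - K - (m * K - m * K) := by
      have e1 : ∑ i ∈ s, a i * (Real.exp (l i - m) - 1 - (l i - m)) =
          ∑ i ∈ s, a i * Real.exp (l i - m) - ∑ i ∈ s, a i -
            (∑ i ∈ s, a i * l i - m * ∑ i ∈ s, a i) := by
        rw [Finset.mul_sum, ← Finset.sum_sub_distrib, ← Finset.sum_sub_distrib,
          ← Finset.sum_sub_distrib]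
        refine Finset.sum_congr rfl fun i _ => ?_
        ring
      rw [hT, e1, hmK]
    have h2 : K + T = ∑ i ∈ s, a i * Real.exp (l i - m) := by
      rw [h1]
      ring
    rw [h2, Finset.mul_sum]
    refine Finset.sum_congr rfl fun i _ => ?_
    rw [Real.exp_sub]
    field_simp
  have hlog : Real.log (∑ i ∈ s, a i * Real.exp (l i)) - Real.log K - m =
      Real.log (1 + T / K) := by
    rw [hS, Real.log_mul (Real.exp_pos m).ne' (by positivity), Real.log_exp,
      show K + T = K * (1 + T / K) by field_simp, Real.log_mul hK.ne' (by positivity)]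
    ring
  rw [hlog]
  have hTK : 0 ≤ T / K := by positivity
  refine ⟨Real.log_nonneg (by linarith), ?_⟩
  intro h0
  have h1 : T = 0 := by
    by_contra hne
    have hTpos : 0 < T / K := div_pos (lt_of_le_of_ne hT0 (Ne.symm hne)) hK
    have := Real.log_pos (show (1 : ℝ) < 1 + T / K by linarith)
    linarith
  have h2 := (Finset.sum_eq_zero_iff_of_nonneg hterm).1 h1
  have h3 : ∀ i ∈ s, 0 < a i → l i = m := by
    intro i hi hai
    have h4 := h2 i hi
    rcases mul_eq_zero.1 h4 with h5 | h5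
    · exact absurd h5 hai.ne'
    · by_contra hne
      have := Real.add_one_lt_exp (sub_ne_zero.2 hne)
      linarith
  intro i hi j hj hai haj
  rw [h3 i hi hai, h3 j hj haj]

end HcB

theorem exc_mean (M : Model) {L : ℕ} (hL : 1 ≤ L) (hK : 0 < K0 M.C L 0) :
    (∀ ω, 0 < Gk M.C (M.W 0) {0} L ω 0 0) ∧
      Real.log (K0 M.C L 0) ≤ ∫ ω, Real.log (Gk M.C (M.W 0) {0} L ω 0 0) ∂seqLaw M.μ := by
  have h1 : ∀ ω : ℕ → ℝ, K0 M.C L 0 * Real.exp (∑ i ∈ Finset.range L,
      (M.β / K0 M.C L 0 * occ M.C M.φ L i 0) * ω i) ≤ Gk M.C (M.W 0) {0} L ω 0 0 := by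
    intro ω
    have h2 := KU_jensen M.C L (fun i z => (M.β * ω i) * M.φ z) 0 hK
    rw [AU_eq_occ M.C M.φ L (fun i => M.β * ω i) 0] at h2
    have h3 := KU_eq_Gk M.C M.φ M.β 0 L ω 0
    simp only [sub_zero] at h3
    rw [← h3] at h2
    have h4 : (fun a z => Real.exp (M.β * a * M.φ z)) = M.W 0 := by
      funext a z
      simp [Model.W]
    rw [h4] at h2
    refine le_trans (le_of_eq ?_) h2
    congr 2
    rw [Finset.sum_div]
    refine Finset.sum_congr rfl fun i _ => ?_
    ring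
  have hpos : ∀ ω, 0 < Gk M.C (M.W 0) {0} L ω 0 0 := fun ω =>
    lt_of_lt_of_le (by positivity) (h1 ω)
  refine ⟨hpos, ?_⟩
  obtain ⟨hi, h0⟩ := HcB.integral_linForm M.exp_mom M.mean M.var L
    (fun i => M.β / K0 M.C L 0 * occ M.C M.φ L i 0)
  have h5 : Real.log (K0 M.C L 0) = ∫ ω, (Real.log (K0 M.C L 0) + ∑ i ∈ Finset.range L,
      (M.β / K0 M.C L 0 * occ M.C M.φ L i 0) * ω i) ∂seqLaw M.μ := by
    rw [integral_add (integrable_const _) hi, h0]
    simp
  rw [h5]
  have hint := (good_Gk M.C M.κ_pos.le (M.goodW 0) {0} L 0 0).integrable_log M.exp_mom hpos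
  refine integral_mono ((integrable_const _).add hi) hint fun ω => ?_
  have h6 := Real.log_le_log (by positivity) (h1 ω)
  rw [Real.log_mul hK.ne' (Real.exp_pos _).ne', Real.log_exp] at h6
  exact h6

theorem exc_gain (M : Model) : ∃ L : ℕ, Even L ∧ 1 ≤ L ∧ 0 < K0 M.C L 0 ∧
    Real.log (K0 M.C L 0) < ∫ ω, Real.log (Gk M.C (M.W 0) {0} L ω 0 0) ∂seqLaw M.μ := by
  -- a site where the potential is not two-periodic
  obtain ⟨x₀, hx₀, hφne⟩ : ∃ x₀ : ℕ, 2 ≤ x₀ ∧ M.φ ((x₀ : ℤ) + 1) ≠ M.φ ((x₀ : ℤ) - 1) := by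
    by_contra hcon
    push Not at hcon
    have h1 : ∀ n : ℕ, M.φ (2 * n + 1) = M.φ 1 := by
      intro n
      induction n with
      | zero => simp
      | succ n ih =>
        rw [← ih]
        have := hcon (2 * n + 2) (by omega)
        push_cast at this ⊢
        rw [show (2 * ((n : ℤ) + 1) + 1) = 2 * (n : ℤ) + 2 + 1 by ring, this]
        congr 1
        ring
    have h2 : Tendsto (fun n : ℕ => M.φ (2 * n + 1)) atTop (𝓝 0) := by
      have h3 : Function.Injective (fun n : ℕ => (2 * (n : ℤ) + 1)) := by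
        intro a b hab
        simp only at hab
        omega
      have h4 := h3.tendsto_cofinite
      rw [Nat.cofinite_eq_atTop] at h4
      exact M.φ_lim.comp h4
    have h5 : Tendsto (fun _ : ℕ => M.φ 1) atTop (𝓝 0) := by
      refine h2.congr fun n => ?_
      rw [h1 n]
    have h6 := tendsto_nhds_unique h5 tendsto_const_nhds
    exact (M.φ_pos 1).ne h6
  refine ⟨2 * (x₀ + 1), even_two_mul _, by omega, K0_even_pos M.C (x₀ + 1) (by omega), ?_⟩
  have hKpos := K0_even_pos M.C (x₀ + 1) (by omega)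
  obtain ⟨hpos, hle⟩ := exc_mean M (L := 2 * (x₀ + 1)) (by omega) hKpos
  rcases lt_or_eq_of_le hle with hlt | heq
  · exact hlt
  exfalso
  -- the representation as a sum of exponentials
  obtain ⟨m, a, ψ, ha, hψ, hF⟩ := expSum_Gk M.C (φ := M.φ) (Φ := M.Φ)
    (fun x => ⟨(M.φ_pos x).le, M.φ_le x⟩) {0} (2 * (x₀ + 1)) 0 0
  replace hF : ∀ u, Gk M.C (Wu M.φ) {0} (2 * (x₀ + 1)) u 0 0 =
    ∑ i, a i * Real.exp (∑ k ∈ Finset.range (2 * (x₀ + 1)), u k * ψ i k) := hF
  have hK : K0 M.C (2 * (x₀ + 1)) 0 = ∑ i, a i := by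
    have h1 := hF (fun _ => 0)
    rw [HcB.Gk_zero_field] at h1
    rw [h1]
    simp
  set L := 2 * (x₀ + 1) with hL
  set K := K0 M.C L 0 with hKdef
  have hKs : 0 < ∑ i, a i := hK ▸ hKpos
  -- the defect in Jensen's inequality
  set l : Fin m → (ℕ → ℝ) → ℝ := fun i ω => ∑ k ∈ Finset.range L, (M.β * ψ i k) * ω k with hl
  have hG : ∀ ω, Gk M.C (M.W 0) {0} L ω 0 0 = ∑ i, a i * Real.exp (l i ω) := by
    intro ω
    rw [HcB.Gk_W, hF]
    refine Finset.sum_congr rfl fun i _ => ?_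
    congr 2
    refine Finset.sum_congr rfl fun k _ => ?_
    ring
  set D : (ℕ → ℝ) → ℝ := fun ω => Real.log (∑ i, a i * Real.exp (l i ω)) - Real.log (∑ i, a i) -
      (∑ i, a i * l i ω) / ∑ i, a i with hD
  have hD0 : ∀ ω, 0 ≤ D ω := fun ω =>
    (HcB.jensen_eq Finset.univ a (fun i => l i ω) (fun i _ => ha i) hKs).1
  have hli : ∀ i, Integrable (fun ω => l i ω) (seqLaw M.μ) ∧ ∫ ω, l i ω ∂seqLaw M.μ = 0 := fun i =>
    HcB.integral_linForm M.exp_mom M.mean M.var L (fun k => M.β * ψ i k)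
  have hint : Integrable (fun ω => Real.log (Gk M.C (M.W 0) {0} L ω 0 0)) (seqLaw M.μ) :=
    (good_Gk M.C M.κ_pos.le (M.goodW 0) {0} L 0 0).integrable_log M.exp_mom hpos
  have hint2 : Integrable (fun ω => Real.log (∑ i, a i * Real.exp (l i ω))) (seqLaw M.μ) := by
    refine hint.congr (ae_of_all _ fun ω => ?_)
    simp only [hG ω]
  have hsum : Integrable (fun ω => (∑ i, a i * l i ω) / ∑ i, a i) (seqLaw M.μ) ∧
      ∫ ω, (∑ i, a i * l i ω) / ∑ i, a i ∂seqLaw M.μ = 0 := by
    have h1 : Integrable (fun ω => ∑ i, a i * l i ω) (seqLaw M.μ) :=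
      integrable_finsetSum _ fun i _ => (hli i).1.const_mul _
    refine ⟨h1.div_const _, ?_⟩
    rw [integral_div, integral_finsetSum _ fun i _ => (hli i).1.const_mul _]
    simp [integral_const_mul, (hli _).2]
  have hDint : Integrable D (seqLaw M.μ) := (hint2.sub (integrable_const _)).sub hsum.1
  have hDz : ∫ ω, D ω ∂seqLaw M.μ = 0 := by
    have h1 : ∫ ω, D ω ∂seqLaw M.μ = ∫ ω, (Real.log (∑ i, a i * Real.exp (l i ω)) -
        Real.log (∑ i, a i)) ∂seqLaw M.μ - ∫ ω, (∑ i, a i * l i ω) / ∑ i, a i ∂seqLaw M.μ :=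
      integral_sub (hint2.sub (integrable_const _)) hsum.1
    rw [h1, hsum.2, integral_sub hint2 (integrable_const _)]
    have h2 : ∫ ω, Real.log (∑ i, a i * Real.exp (l i ω)) ∂seqLaw M.μ = Real.log K := by
      rw [heq]
      refine integral_congr_ae (ae_of_all _ fun ω => ?_)
      simp only [hG ω]
    rw [h2, ← hK]
    simp
  have hae : D =ᵐ[seqLaw M.μ] 0 := (integral_eq_zero_iff_of_nonneg hD0 hDint).1 hDz
  have hψeq : ∀ i j, 0 < a i → 0 < a j → ∀ k < L, ψ i k = ψ j k := by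
    intro i j hi hj k hk
    have h1 : ∀ᵐ ω ∂seqLaw M.μ, (∑ k ∈ Finset.range L, (M.β * (ψ i k - ψ j k)) * ω k) ^ 2 = 0 := by
      filter_upwards [hae] with ω hω
      have h2 := (HcB.jensen_eq Finset.univ a (fun i => l i ω) (fun i _ => ha i) hKs).2 hω i
        (Finset.mem_univ i) j (Finset.mem_univ j) hi hj
      have h3 : ∑ k ∈ Finset.range L, (M.β * (ψ i k - ψ j k)) * ω k = l i ω - l j ω := by
        rw [hl, ← Finset.sum_sub_distrib]
        refine Finset.sum_congr rfl fun k _ => ?_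
        ring
      rw [h3, h2]
      simp
    have h4 := (linForm_moments M.exp_mom M.mean M.var L (fun k => M.β * (ψ i k - ψ j k))).2.1
    rw [integral_congr_ae h1] at h4
    simp only [integral_zero] at h4
    have h5 := (Finset.sum_eq_zero_iff_of_nonneg (fun k _ => sq_nonneg _)).1 h4.symm k
      (Finset.mem_range.2 hk)
    have h6 := pow_eq_zero_iff (two_ne_zero) |>.1 h5
    rcases mul_eq_zero.1 h6 with h7 | h7
    · exact absurd h7 M.β_pos.ne'
    · linarith
  -- hence the kernel is log-linear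
  obtain ⟨i₀, _, hi₀⟩ : ∃ i ∈ Finset.univ, 0 < a i := by
    by_contra hcon
    push Not at hcon
    exact absurd (Finset.sum_nonpos hcon) (not_le.2 hKs)
  have hlin : ∀ u : ℕ → ℝ, Gk M.C (Wu M.φ) {0} L u 0 0 =
      K * Real.exp (∑ k ∈ Finset.range L, u k * ψ i₀ k) := by
    intro u
    rw [hF u, hK, Finset.sum_mul]
    refine Finset.sum_congr rfl fun i _ => ?_
    rcases eq_or_lt_of_le (ha i) with h1 | h1
    · rw [← h1, zero_mul, zero_mul]
    · congr 2
      refine Finset.sum_congr rfl fun k hk => ?_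
      rw [hψeq i i₀ h1 hi₀ k (Finset.mem_range.1 hk)]
  have hLx : x₀ < L := by omega
  have hsingle : ∀ (f : ℕ → ℝ) (s : ℝ), ∑ k ∈ Finset.range L, (if k = x₀ then s else 0) * f k =
      s * f x₀ := by
    intro f s
    rw [Finset.sum_eq_single x₀]
    · rw [if_pos rfl]
    · intro k _ hk
      rw [if_neg hk, zero_mul]
    · intro h
      exact absurd (Finset.mem_range.2 hLx) h
  -- the two paths
  have hA := HcB.Gk_path M.C M.φ (2 * x₀ + 1) (fun k => if k ≤ x₀ + 1 then (k : ℤ) else 2 * x₀ + 2 - k)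
    (fun k hk => by
      split_ifs <;> push_cast <;> omega) (fun k hk0 hk => by
      split_ifs <;> omega) (by
      rw [if_neg (by omega)]
      push_cast
      ring)
  have hB := HcB.Gk_path M.C M.φ (2 * x₀ + 1) (fun k => if k = x₀ + 1 then (x₀ : ℤ) - 1 else
      if k ≤ x₀ + 1 then (k : ℤ) else 2 * x₀ + 2 - k)
    (fun k hk => by
      split_ifs <;> push_cast <;> omega) (fun k hk0 hk => by
      split_ifs <;> omega) (by
      rw [if_neg (by omega), if_neg (by omega)]
      push_cast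
      ring)
  obtain ⟨qA, hqA, hA⟩ := hA
  obtain ⟨qB, hqB, hB⟩ := hB
  have eA : M.φ ((x₀ : ℤ) + 1) = ψ i₀ x₀ := by
    refine HcB.rate_eq (K := K) hqA fun s => ?_
    have h1 := hA (fun k => if k = x₀ then s else 0)
    have h2 := hlin (fun k => if k = x₀ then s else 0)
    have h3 : 2 * x₀ + 1 + 1 = L := by omega
    rw [h3] at h1
    simp only [Nat.zero_le, if_true, Nat.cast_zero] at h1
    rw [hsingle] at h1 h2
    rw [h2] at h1
    simpa using h1
  have eB : M.φ ((x₀ : ℤ) - 1) = ψ i₀ x₀ := by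
    refine HcB.rate_eq (K := K) hqB fun s => ?_
    have h1 := hB (fun k => if k = x₀ then s else 0)
    have h2 := hlin (fun k => if k = x₀ then s else 0)
    have h3 : 2 * x₀ + 1 + 1 = L := by omega
    rw [h3] at h1
    have h4 : ¬ (0 = x₀ + 1) := by omega
    simp only [h4, if_false, Nat.zero_le, if_true, Nat.cast_zero] at h1
    rw [hsingle] at h1 h2
    rw [h2] at h1
    simpa using h1
  exact hφne (eA.trans eB.symm)

end

end MP_daa227_pr
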