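import Pool.Agent.Lib.MP_daa227_pr.SmDefs
import Pool.Agent.Lib.MP_daa227_pr.Conf2

/-!
# From free to constrained end point by reversibility
-/

open MeasureTheory ProbabilityTheory Set Filter
open scoped ENNReal Topology

namespace MP_daa227_pr

noncomputable section

namespace Rev

/-! ### Growth of the reversible measure -/

theorem one_sub_ge_exp {x : ℝ} (h0 : 0 ≤ x) (h1 : x ≤ 1 / 2) : Real.exp (-(2 * x)) ≤ 1 - x := by
  rw [Real.exp_neg, inv_le_comm₀ (Real.exp_pos _) (by linarith)]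
  have h2 : 2 * x + 1 ≤ Real.exp (2 * x) := Real.add_one_le_exp _
  refine le_trans ?_ h2
  rw [inv_le_iff_one_le_mul₀ (by linarith)]
  nlinarith

theorem ratio_le {κ u v a b : ℝ} (n : ℕ) (hκ : 0 ≤ κ) (hN : κ / (2 + (n : ℝ)) ≤ 1 / 2)
    (hu : |u| ≤ κ / (1 + n)) (hv : |v| ≤ κ / (2 + n)) (ha : 2 * a = 1 + u) (hb : 2 * b = 1 + v)
    (ha0 : 0 < a) (hb0 : 0 < b) : a / b ≤ Real.exp (3 * κ / (1 + n)) := by
  have h1 : 0 < 1 + (n : ℝ) := by positivity
  have h2 : 0 < 2 + (n : ℝ) := by positivity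
  have h3 : 1 + u ≤ Real.exp (κ / (1 + n)) := by
    have h4 : u + 1 ≤ Real.exp u := Real.add_one_le_exp u
    have h5 : Real.exp u ≤ Real.exp (κ / (1 + n)) := Real.exp_le_exp.2 ((le_abs_self u).trans hu)
    linarith
  have h6 : Real.exp (-(2 * (κ / (2 + n)))) ≤ 1 + v := by
    have h7 := one_sub_ge_exp (x := κ / (2 + (n : ℝ))) (by positivity) hN
    have h8 := neg_le_of_abs_le hv
    linarith
  have h9 : κ / (2 + (n : ℝ)) ≤ κ / (1 + n) :=
    div_le_div_of_nonneg_left hκ h1 (by linarith)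
  rw [div_le_iff₀ hb0]
  have h10 : Real.exp (3 * κ / (1 + n)) * Real.exp (-(2 * (κ / (2 + n)))) ≥
      Real.exp (κ / (1 + n)) := by
    rw [← Real.exp_add]
    apply Real.exp_le_exp.2
    have h11 : 3 * κ / (1 + (n : ℝ)) = 3 * (κ / (1 + n)) := by ring
    rw [h11]
    linarith
  have h12 : Real.exp (3 * κ / (1 + n)) * Real.exp (-(2 * (κ / (2 + n)))) ≤
      Real.exp (3 * κ / (1 + n)) * (1 + v) :=
    mul_le_mul_of_nonneg_left h6 (Real.exp_pos _).le
  nlinarith

theorem growth {a : ℕ → ℝ} (ha : ∀ n, 0 < a n) {κ : ℝ} (hκ : 0 ≤ κ) (N₀ : ℕ)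
    (h : ∀ n, N₀ ≤ n → a (n + 1) ≤ a n * Real.exp (3 * κ / (1 + n))) :
    ∃ C : ℝ, 0 < C ∧ ∀ n : ℕ, a n ≤ C * ((n : ℝ) + 1) ^ (6 * κ) := by
  refine ⟨∑ j ∈ Finset.range (N₀ + 1), a j, Finset.sum_pos (fun j _ => ha j) ⟨0, by simp⟩, ?_⟩
  set C := ∑ j ∈ Finset.range (N₀ + 1), a j with hC
  have hC0 : 0 < C := Finset.sum_pos (fun j _ => ha j) ⟨0, by simp⟩
  have hsmall : ∀ n ≤ N₀, a n ≤ C * ((n : ℝ) + 1) ^ (6 * κ) := by
    intro n hn
    have h1 : a n ≤ C := by
      rw [hC]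
      exact Finset.single_le_sum (f := a) (fun j _ => (ha j).le)
        (Finset.mem_range.2 (by omega))
    have h2 : 1 ≤ ((n : ℝ) + 1) ^ (6 * κ) :=
      Real.one_le_rpow (by linarith [(Nat.cast_nonneg n : (0 : ℝ) ≤ n)]) (by positivity)
    nlinarith
  intro n
  rcases Nat.le_total n N₀ with hn | hn
  · exact hsmall n hn
  · induction n, hn using Nat.le_induction with
    | base => exact hsmall N₀ le_rfl
    | succ n hn ih =>
      refine (h n hn).trans ?_
      have h1 : 0 < (n : ℝ) + 1 := by positivity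
      have h2 : Real.exp (3 * κ / (1 + n)) ≤ (((n : ℝ) + 2) / (n + 1)) ^ (6 * κ) := by
        rw [Real.rpow_def_of_pos (by positivity)]
        apply Real.exp_le_exp.2
        have h3 : 1 / ((n : ℝ) + 2) ≤ Real.log (((n : ℝ) + 2) / (n + 1)) := by
          have h4 := Real.one_sub_inv_le_log_of_pos (x := ((n : ℝ) + 2) / (n + 1)) (by positivity)
          refine le_trans (le_of_eq ?_) h4
          field_simp
          ring
        have h5 : 1 / (2 * ((n : ℝ) + 1)) ≤ 1 / ((n : ℝ) + 2) := by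
          apply one_div_le_one_div_of_le (by positivity)
          linarith [(Nat.cast_nonneg n : (0 : ℝ) ≤ n)]
        have h6 : 3 * κ / (1 + (n : ℝ)) = 1 / (2 * ((n : ℝ) + 1)) * (6 * κ) := by
          field_simp
          ring
        rw [h6]
        exact mul_le_mul_of_nonneg_right (h5.trans h3) (by positivity)
      calc a n * Real.exp (3 * κ / (1 + n))
          ≤ (C * ((n : ℝ) + 1) ^ (6 * κ)) * (((n : ℝ) + 2) / (n + 1)) ^ (6 * κ) :=
            mul_le_mul ih h2 (Real.exp_pos _).le (by positivity)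
        _ = C * (((n + 1 : ℕ) : ℝ) + 1) ^ (6 * κ) := by
            rw [mul_assoc, ← Real.mul_rpow h1.le (by positivity)]
            congr 2
            push_cast
            field_simp
            ring

section

variable (C : Chain)

/-- reversible measure on the right half line -/
def pr : ℕ → ℝ
  | 0 => 1
  | n + 1 => pr n * (C.p n (n + 1) / C.p (n + 1) n)

/-- reversible measure on the left half line -/
def pl : ℕ → ℝ
  | 0 => 1
  | n + 1 => pl n * (C.p (-n) (-n - 1) / C.p (-n - 1) (-n))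

theorem down' (x : ℤ) : 0 < C.p (x + 1) x := by
  have h := C.down (x + 1)
  rwa [add_sub_cancel_right] at h

theorem up' (x : ℤ) : 0 < C.p (x - 1) x := by
  have h := C.up (x - 1)
  rwa [sub_add_cancel] at h

theorem pr_pos (n : ℕ) : 0 < pr C n := by
  induction n with
  | zero => exact one_pos
  | succ n ih => exact mul_pos ih (div_pos (C.up _) (down' C _))

theorem pl_pos (n : ℕ) : 0 < pl C n := by
  induction n with
  | zero => exact one_pos
  | succ n ih => exact mul_pos ih (div_pos (C.down _) (up' C _))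

/-- the reversible measure -/
def rv (x : ℤ) : ℝ := if 0 ≤ x then pr C x.toNat else pl C (-x).toNat

theorem rv_pos (x : ℤ) : 0 < rv C x := by
  unfold rv
  split
  · exact pr_pos C _
  · exact pl_pos C _

theorem rv_nat (n : ℕ) : rv C n = pr C n := by
  unfold rv
  rw [if_pos (Int.natCast_nonneg n), Int.toNat_natCast]

theorem rv_neg (n : ℕ) : rv C (-n) = pl C n := by
  unfold rv
  cases n with
  | zero => simp [pr, pl]
  | succ n =>
    rw [if_neg (by push_cast; omega), neg_neg, Int.toNat_natCast]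

/-- detailed balance -/
theorem balance (x : ℤ) : rv C x * C.p x (x + 1) = rv C (x + 1) * C.p (x + 1) x := by
  rcases le_or_gt 0 x with hx | hx
  · lift x to ℕ using hx
    have h1 : rv C ((x : ℤ) + 1) = pr C (x + 1) := by
      have := rv_nat C (x + 1)
      push_cast at this
      exact this
    rw [h1, rv_nat, pr]
    have h2 := (down' C (x : ℤ)).ne'
    field_simp
  · obtain ⟨n, rfl⟩ : ∃ n : ℕ, x = -((n : ℤ) + 1) := ⟨(-x - 1).toNat, by omega⟩
    have h1 : rv C (-((n : ℤ) + 1)) = pl C (n + 1) := by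
      have := rv_neg C (n + 1)
      push_cast at this
      exact this
    have h2 : -((n : ℤ) + 1) + 1 = -n := by ring
    rw [h2, rv_neg, h1, pl]
    have h3 : -((n : ℤ) + 1) = -n - 1 := by ring
    rw [h3]
    have h4 := (up' C (-(n : ℤ))).ne'
    field_simp

theorem balance' {x z : ℤ} (hz : z ∈ Finset.Icc (x - 1) (x + 1)) :
    rv C x * C.p x z = rv C z * C.p z x := by
  rw [Finset.mem_Icc] at hz
  have h : z = x - 1 ∨ z = x ∨ z = x + 1 := by omega
  rcases h with rfl | rfl | rfl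
  · have h1 := balance C (x - 1)
    rw [sub_add_cancel] at h1
    exact h1.symm
  · rfl
  · exact balance C x

theorem rv_growth (hnl : ∀ x, C.p x x = 0) {κ : ℝ}
    (hdrift : ∀ x : ℤ, |C.p x (x + 1) - C.p x (x - 1)| ≤ κ / (1 + |(x : ℝ)|)) :
    ∃ A : ℝ, 0 < A ∧ ∀ m : ℕ, ∀ x ∈ Finset.Icc (-(m : ℤ)) m,
      rv C x ≤ A * ((m : ℝ) + 1) ^ (6 * κ) := by
  have hκ : 0 ≤ κ := by
    have h := hdrift 0
    simp only [Int.cast_zero, abs_zero, add_zero, div_one] at h
    exact (abs_nonneg _).trans h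
  have hsum : ∀ x, C.p x (x + 1) + C.p x (x - 1) = 1 := by
    intro x
    have h := C.sum_one x
    rw [Conf2.sum_Icc, hnl] at h
    linarith
  obtain ⟨N₀, hN₀⟩ := exists_nat_ge (2 * κ)
  have hN : ∀ n : ℕ, N₀ ≤ n → κ / (2 + (n : ℝ)) ≤ 1 / 2 := by
    intro n hn
    rw [div_le_iff₀ (by positivity)]
    have : (N₀ : ℝ) ≤ n := by exact_mod_cast hn
    linarith
  have habs : ∀ n : ℕ, |(n : ℝ)| = n := fun n => abs_of_nonneg (Nat.cast_nonneg n)
  have hr : ∀ n, N₀ ≤ n → pr C (n + 1) ≤ pr C n * Real.exp (3 * κ / (1 + n)) := by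
    intro n hn
    rw [pr]
    refine mul_le_mul_of_nonneg_left ?_ (pr_pos C n).le
    have h1 := hdrift n
    have h2 := hdrift (n + 1)
    have h3 := hsum n
    have h4 := hsum (n + 1)
    rw [add_sub_cancel_right] at h2 h4
    have e1 : |((n : ℤ) : ℝ)| = n := by simp
    have e2 : |(((n : ℤ) + 1 : ℤ) : ℝ)| = n + 1 := by
      push_cast
      exact abs_of_nonneg (by positivity)
    rw [e1] at h1
    rw [e2] at h2
    have e3 : 1 + ((n : ℝ) + 1) = 2 + n := by ring
    rw [e3] at h2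
    refine ratio_le (u := C.p n (n + 1) - C.p n (n - 1))
      (v := -(C.p (n + 1) (n + 1 + 1) - C.p (n + 1) n)) n hκ (hN n hn) h1 ?_ ?_ ?_
      (C.up _) (down' C _)
    · rwa [abs_neg]
    · linarith
    · linarith
  have hl : ∀ n, N₀ ≤ n → pl C (n + 1) ≤ pl C n * Real.exp (3 * κ / (1 + n)) := by
    intro n hn
    rw [pl]
    refine mul_le_mul_of_nonneg_left ?_ (pl_pos C n).le
    have h1 := hdrift (-n)
    have h2 := hdrift (-n - 1)
    have h3 := hsum (-n)
    have h4 := hsum (-n - 1)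
    rw [sub_add_cancel] at h2 h4
    have e1 : |((-(n : ℤ) : ℤ) : ℝ)| = n := by
      push_cast
      rw [abs_neg, habs]
    have e2 : |((-(n : ℤ) - 1 : ℤ) : ℝ)| = n + 1 := by
      push_cast
      rw [← neg_add', abs_neg]
      exact abs_of_nonneg (by positivity)
    rw [e1] at h1
    rw [e2] at h2
    have e3 : 1 + ((n : ℝ) + 1) = 2 + n := by ring
    rw [e3] at h2
    refine ratio_le (u := -(C.p (-n) (-n + 1) - C.p (-n) (-n - 1)))
      (v := C.p (-n - 1) (-n) - C.p (-n - 1) (-n - 1 - 1)) n hκ (hN n hn) ?_ h2 ?_ ?_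
      (C.down _) (up' C _)
    · rwa [abs_neg]
    · linarith
    · linarith
  obtain ⟨A, hA, hA'⟩ := growth (pr_pos C) hκ N₀ hr
  obtain ⟨B, hB, hB'⟩ := growth (pl_pos C) hκ N₀ hl
  refine ⟨A + B, by positivity, fun m x hx => ?_⟩
  rw [Finset.mem_Icc] at hx
  have key : ∀ k : ℕ, k ≤ m → ((k : ℝ) + 1) ^ (6 * κ) ≤ ((m : ℝ) + 1) ^ (6 * κ) := by
    intro k hk
    apply Real.rpow_le_rpow (by positivity) _ (by positivity)
    have : (k : ℝ) ≤ m := by exact_mod_cast hk
    linarith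
  have hm0 : 0 < ((m : ℝ) + 1) ^ (6 * κ) := by positivity
  unfold rv
  split
  · refine (hA' _).trans ?_
    have h1 := key x.toNat (by omega)
    nlinarith
  · refine (hB' _).trans ?_
    have h1 := key (-x).toNat (by omega)
    nlinarith

end

/-! ### The kernel -/

section

variable (C : Chain) (η : ℝ) (φ : ℤ → ℝ)

/-- one step weight -/
def qk (x z : ℤ) : ℝ := C.p x z * Real.exp (-η * φ z)

/-- point to point weight -/
def Kk (n : ℕ) (x y : ℤ) : ℝ := Zk C (Wdet η φ) n (fun _ => 0) x y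

/-- point to line weight -/
def Fk (n : ℕ) (x : ℤ) : ℝ := Zf C (Wdet η φ) n (fun _ => 0) x

theorem Kk_zero (x y : ℤ) : Kk C η φ 0 x y = if x = y then 1 else 0 := rfl

theorem Kk_succ (n : ℕ) (x y : ℤ) :
    Kk C η φ (n + 1) x y = ∑ z ∈ Finset.Icc (x - 1) (x + 1), qk C η φ x z * Kk C η φ n z y := rfl

theorem Fk_succ (n : ℕ) (x : ℤ) :
    Fk C η φ (n + 1) x = ∑ z ∈ Finset.Icc (x - 1) (x + 1), qk C η φ x z * Fk C η φ n z := rfl

theorem qk_nonneg (x z : ℤ) : 0 ≤ qk C η φ x z := mul_nonneg (C.nonneg x z) (Real.exp_pos _).le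

theorem Kk_nonneg (n : ℕ) (x y : ℤ) : 0 ≤ Kk C η φ n x y := by
  induction n generalizing x with
  | zero =>
    rw [Kk_zero]
    split <;> norm_num
  | succ n ih =>
    rw [Kk_succ]
    exact Finset.sum_nonneg fun z _ => mul_nonneg (qk_nonneg C η φ x z) (ih z)

theorem Kk_last (n : ℕ) (x y : ℤ) :
    Kk C η φ (n + 1) x y = ∑ z ∈ Finset.Icc (y - 1) (y + 1), Kk C η φ n x z * qk C η φ z y := by
  induction n generalizing x with
  | zero =>
    rw [Kk_succ]
    have h1 : ∀ z, qk C η φ x z * Kk C η φ 0 z y = if z = y then qk C η φ x y else 0 := by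
      intro z
      rw [Kk_zero]
      split
      · next h => rw [h, mul_one]
      · rw [mul_zero]
    have h2 : ∀ z, Kk C η φ 0 x z * qk C η φ z y = if x = z then qk C η φ x y else 0 := by
      intro z
      rw [Kk_zero]
      split
      · next h => rw [h, one_mul]
      · rw [zero_mul]
    simp_rw [h1, h2]
    rw [Finset.sum_ite_eq', Finset.sum_ite_eq]
    have h3 : (y ∈ Finset.Icc (x - 1) (x + 1)) ↔ (x ∈ Finset.Icc (y - 1) (y + 1)) := by
      simp only [Finset.mem_Icc]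
      omega
    by_cases h : y ∈ Finset.Icc (x - 1) (x + 1)
    · rw [if_pos h, if_pos (h3.1 h)]
    · rw [if_neg h, if_neg (fun h' => h (h3.2 h'))]
  | succ n ih =>
    rw [Kk_succ]
    simp_rw [ih, Finset.mul_sum]
    rw [Finset.sum_comm]
    refine Finset.sum_congr rfl fun w _ => ?_
    rw [Kk_succ, Finset.sum_mul]
    refine Finset.sum_congr rfl fun z _ => ?_
    ring

/-- weighted reversible measure -/
def rh (x : ℤ) : ℝ := rv C x * Real.exp (-η * φ x)

theorem rh_pos (x : ℤ) : 0 < rh C η φ x := mul_pos (rv_pos C x) (Real.exp_pos _)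

theorem rh_balance {x z : ℤ} (hz : z ∈ Finset.Icc (x - 1) (x + 1)) :
    rh C η φ x * qk C η φ x z = rh C η φ z * qk C η φ z x := by
  unfold rh qk
  have h := balance' C hz
  calc rv C x * Real.exp (-η * φ x) * (C.p x z * Real.exp (-η * φ z))
      = (rv C x * C.p x z) * (Real.exp (-η * φ x) * Real.exp (-η * φ z)) := by ring
    _ = (rv C z * C.p z x) * (Real.exp (-η * φ x) * Real.exp (-η * φ z)) := by rw [h]
    _ = _ := by ring

theorem Kk_symm (n : ℕ) (x y : ℤ) :
    rh C η φ x * Kk C η φ n x y = rh C η φ y * Kk C η φ n y x := by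
  induction n generalizing x with
  | zero =>
    rw [Kk_zero, Kk_zero]
    by_cases h : x = y
    · rw [h]
    · rw [if_neg h, if_neg (Ne.symm h), mul_zero, mul_zero]
  | succ n ih =>
    rw [Kk_succ, Kk_last, Finset.mul_sum, Finset.mul_sum]
    refine Finset.sum_congr rfl fun z hz => ?_
    rw [← mul_assoc, rh_balance C η φ hz]
    calc rh C η φ z * qk C η φ z x * Kk C η φ n z y
        = qk C η φ z x * (rh C η φ z * Kk C η φ n z y) := by ring
      _ = qk C η φ z x * (rh C η φ y * Kk C η φ n y z) := by rw [ih]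
      _ = _ := by ring

theorem Kk_mul_le (m n : ℕ) (x z : ℤ) (S : Finset ℤ) :
    ∑ y ∈ S, Kk C η φ m x y * Kk C η φ n y z ≤ Kk C η φ (m + n) x z := by
  induction m generalizing x with
  | zero =>
    rw [Nat.zero_add]
    have h1 : ∀ y, Kk C η φ 0 x y * Kk C η φ n y z = if x = y then Kk C η φ n x z else 0 := by
      intro y
      rw [Kk_zero]
      split
      · next h => rw [h, one_mul]
      · rw [zero_mul]
    simp_rw [h1]
    rw [Finset.sum_ite_eq]
    split
    · exact le_rfl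
    · exact Kk_nonneg C η φ n x z
  | succ m ih =>
    have h1 : m + 1 + n = (m + n) + 1 := by omega
    rw [h1, Kk_succ]
    calc ∑ y ∈ S, Kk C η φ (m + 1) x y * Kk C η φ n y z
        = ∑ w ∈ Finset.Icc (x - 1) (x + 1), qk C η φ x w *
            ∑ y ∈ S, Kk C η φ m w y * Kk C η φ n y z := by
          simp_rw [Kk_succ, Finset.sum_mul, Finset.mul_sum]
          rw [Finset.sum_comm]
          refine Finset.sum_congr rfl fun w _ => Finset.sum_congr rfl fun y _ => ?_
          ring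
      _ ≤ _ := Finset.sum_le_sum fun w _ =>
          mul_le_mul_of_nonneg_left (ih w) (qk_nonneg C η φ x w)

theorem sum_Kk (m : ℕ) (x : ℤ) (S : Finset ℤ) (hS : Finset.Icc (x - m) (x + m) ⊆ S) :
    ∑ y ∈ S, Kk C η φ m x y = Fk C η φ m x := by
  induction m generalizing x with
  | zero =>
    simp_rw [Kk_zero]
    rw [Finset.sum_ite_eq, if_pos]
    · rfl
    · apply hS
      simp
  | succ m ih =>
    simp_rw [Kk_succ, Fk_succ]
    rw [Finset.sum_comm]
    refine Finset.sum_congr rfl fun z hz => ?_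
    rw [← Finset.mul_sum, ih z]
    intro w hw
    apply hS
    rw [Finset.mem_Icc] at hz hw ⊢
    push_cast
    omega

end

end Rev

open Rev in
theorem point_of_free (C : Chain) (hnl : ∀ x, C.p x x = 0) {φ : ℤ → ℝ} {κ : ℝ}
    (hφ0 : ∀ x, 0 ≤ φ x) (hdrift : ∀ x : ℤ, |C.p x (x + 1) - C.p x (x - 1)| ≤ κ / (1 + |(x : ℝ)|))
    {η : ℝ} (hη : 0 < η) : ∃ A : ℝ, 0 < A ∧ ∀ m : ℕ,
      (Zf C (Wdet η φ) m (fun _ => 0) 0) ^ 2 / (A * ((m : ℝ) + 1) ^ A) ≤
        Zk C (Wdet η φ) (2 * m) (fun _ => 0) 0 0 := by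
  have hκ : 0 ≤ κ := by
    have h := hdrift 0
    simp only [Int.cast_zero, abs_zero, add_zero, div_one] at h
    exact (abs_nonneg _).trans h
  obtain ⟨A₀, hA₀, hgr⟩ := rv_growth C hnl hdrift
  set r0 := rh C η φ 0 with hr0
  have hr0p : 0 < r0 := rh_pos C η φ 0
  refine ⟨2 * A₀ / r0 + (6 * κ + 1), by positivity, fun m => ?_⟩
  set A := 2 * A₀ / r0 + (6 * κ + 1) with hA
  have hA0 : 0 < A := by positivity
  set S := Finset.Icc (-(m : ℤ)) m with hS
  have hF : ∑ y ∈ S, Kk C η φ m 0 y = Fk C η φ m 0 := by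
    apply sum_Kk
    rw [zero_sub, zero_add]
  -- Cauchy-Schwarz
  have hcs : (∑ y ∈ S, Kk C η φ m 0 y) ^ 2 ≤
      (∑ y ∈ S, Kk C η φ m 0 y ^ 2 / rh C η φ y) * ∑ y ∈ S, rh C η φ y := by
    apply Finset.sum_sq_le_sum_mul_sum_of_sq_le_mul
    · intro y _
      exact div_nonneg (sq_nonneg _) (rh_pos C η φ y).le
    · intro y _
      exact (rh_pos C η φ y).le
    · intro y _
      exact (div_mul_cancel₀ _ (rh_pos C η φ y).ne').ge
  have hlow : r0 * ∑ y ∈ S, Kk C η φ m 0 y ^ 2 / rh C η φ y ≤ Kk C η φ (2 * m) 0 0 := by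
    rw [two_mul]
    refine le_trans (le_of_eq ?_) (Kk_mul_le C η φ m m 0 0 S)
    rw [Finset.mul_sum]
    refine Finset.sum_congr rfl fun y _ => ?_
    have h1 := Kk_symm C η φ m 0 y
    have h2 := (rh_pos C η φ y).ne'
    have h3 : Kk C η φ m y 0 = r0 * Kk C η φ m 0 y / rh C η φ y := by
      rw [eq_div_iff h2, mul_comm]
      exact h1.symm
    rw [h3]
    ring
  have hm1 : (0 : ℝ) < (m : ℝ) + 1 := by positivity
  have hsumr : ∑ y ∈ S, rh C η φ y ≤ 2 * A₀ * ((m : ℝ) + 1) ^ (6 * κ + 1) := by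
    calc ∑ y ∈ S, rh C η φ y ≤ ∑ _y ∈ S, A₀ * ((m : ℝ) + 1) ^ (6 * κ) := by
          refine Finset.sum_le_sum fun y hy => ?_
          unfold rh
          have h1 : Real.exp (-η * φ y) ≤ 1 := by
            rw [Real.exp_le_one_iff]
            have := mul_nonneg hη.le (hφ0 y)
            linarith
          have h2 := hgr m y hy
          have h3 := rv_pos C y
          nlinarith [Real.exp_pos (-η * φ y)]
      _ = (2 * m + 1) * (A₀ * ((m : ℝ) + 1) ^ (6 * κ)) := by
          rw [Finset.sum_const, hS, Int.card_Icc, nsmul_eq_mul]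
          congr 1
          have : ((m : ℤ) + 1 - -(m : ℤ)).toNat = 2 * m + 1 := by omega
          rw [this]
          push_cast
          ring
      _ ≤ (2 * ((m : ℝ) + 1)) * (A₀ * ((m : ℝ) + 1) ^ (6 * κ)) := by
          apply mul_le_mul_of_nonneg_right _ (by positivity)
          linarith
      _ = _ := by
          rw [Real.rpow_add hm1, Real.rpow_one]
          ring
  have hbig : 2 * A₀ * ((m : ℝ) + 1) ^ (6 * κ + 1) ≤ r0 * (A * ((m : ℝ) + 1) ^ A) := by
    have h1 : ((m : ℝ) + 1) ^ (6 * κ + 1) ≤ ((m : ℝ) + 1) ^ A := by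
      apply Real.rpow_le_rpow_of_exponent_le
      · linarith [(Nat.cast_nonneg m : (0 : ℝ) ≤ m)]
      · have : 0 ≤ 2 * A₀ / r0 := by positivity
        linarith
    have h2 : 2 * A₀ ≤ r0 * A := by
      rw [hA, mul_add]
      have : r0 * (2 * A₀ / r0) = 2 * A₀ := by field_simp
      rw [this]
      have : 0 ≤ r0 * (6 * κ + 1) := by positivity
      linarith
    calc 2 * A₀ * ((m : ℝ) + 1) ^ (6 * κ + 1)
        ≤ (r0 * A) * ((m : ℝ) + 1) ^ A :=
          mul_le_mul h2 h1 (by positivity) (by positivity)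
      _ = _ := by ring
  have hT0 : 0 ≤ ∑ y ∈ S, Kk C η φ m 0 y ^ 2 / rh C η φ y :=
    Finset.sum_nonneg fun y _ => div_nonneg (sq_nonneg _) (rh_pos C η φ y).le
  rw [hF] at hcs
  show Fk C η φ m 0 ^ 2 / (A * ((m : ℝ) + 1) ^ A) ≤ Kk C η φ (2 * m) 0 0
  rw [div_le_iff₀ (by positivity)]
  calc Fk C η φ m 0 ^ 2
      ≤ (∑ y ∈ S, Kk C η φ m 0 y ^ 2 / rh C η φ y) * (r0 * (A * ((m : ℝ) + 1) ^ A)) :=
        hcs.trans (mul_le_mul_of_nonneg_left (hsumr.trans hbig) hT0)
    _ = (r0 * ∑ y ∈ S, Kk C η φ m 0 y ^ 2 / rh C η φ y) * (A * ((m : ℝ) + 1) ^ A) := by ring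
    _ ≤ Kk C η φ (2 * m) 0 0 * (A * ((m : ℝ) + 1) ^ A) :=
        mul_le_mul_of_nonneg_right hlow (by positivity)

end

end MP_daa227_pr
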