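import Pool.Agent.Lib.MP_daa227_pr.SmDefs
import Pool.Agent.Lib.MP_daa227_pr.Conf2

/-!
# A lower bound for the free partition function by a subsolution
-/

open MeasureTheory ProbabilityTheory Set Filter
open scoped ENNReal Topology

namespace MP_daa227_pr

noncomputable section

namespace Sub

/-- The profile. -/
def ps (s : ℝ) (y : ℕ) : ℝ := (1 + (y : ℝ)) ^ (-s)

/-- The truncated profile. -/
def dd (s : ℝ) (D y : ℕ) : ℝ := max (ps s y - ps s D) 0

/-- The sum of the truncated profile. -/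
def gg (s : ℝ) (D k : ℕ) : ℝ := ∑ y ∈ Finset.range k, dd s D y

theorem abs_cast (z : ℤ) : |(z : ℝ)| = (z.natAbs : ℝ) := by
  rw [Nat.cast_natAbs, Int.cast_abs]

theorem ps_pos (s : ℝ) (y : ℕ) : 0 < ps s y := Real.rpow_pos_of_pos (by positivity) _

theorem ps_anti {s : ℝ} (hs : 0 ≤ s) {x y : ℕ} (h : x ≤ y) : ps s y ≤ ps s x := by
  refine Real.rpow_le_rpow_of_nonpos (by positivity) ?_ (by linarith)
  have : (x : ℝ) ≤ y := by exact_mod_cast h
  linarith

theorem dd_nonneg (s : ℝ) (D y : ℕ) : 0 ≤ dd s D y := le_max_right _ _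

theorem dd_le (s : ℝ) (D y : ℕ) : dd s D y ≤ ps s y :=
  max_le (by linarith [ps_pos s D]) (ps_pos s y).le

theorem dd_zero {s : ℝ} (hs : 0 ≤ s) {D y : ℕ} (h : D ≤ y) : dd s D y = 0 := by
  have := ps_anti hs h
  exact max_eq_right (by linarith)

theorem dd_anti {s : ℝ} (hs : 0 ≤ s) (D : ℕ) {x y : ℕ} (h : x ≤ y) : dd s D y ≤ dd s D x := by
  have := ps_anti hs h
  exact max_le_max (by linarith) le_rfl

theorem gg_le {s : ℝ} (hs : 0 ≤ s) (D k : ℕ) : gg s D k ≤ gg s D D := by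
  unfold gg
  rcases le_total k D with h | h
  · exact Finset.sum_le_sum_of_subset_of_nonneg (Finset.range_mono h)
      (fun y _ _ => dd_nonneg _ _ _)
  · refine (Finset.sum_subset (Finset.range_mono h) ?_).ge
    intro y _ hy
    refine dd_zero hs ?_
    simpa using hy

theorem ps_diff {s : ℝ} (hs : 0 ≤ s) (hs1 : s ≤ 1) {r : ℕ} (hr : 1 ≤ r) :
    ps s (r - 1) - ps s r ≤ 2 * (1 + (r : ℝ)) ^ (-s) * (1 + (r : ℝ))⁻¹ := by
  have hr' : (1 : ℝ) ≤ r := by exact_mod_cast hr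
  have h1 : (1 + ((r - 1 : ℕ) : ℝ)) = r := by
    rw [Nat.cast_sub hr]
    push_cast
    ring
  unfold ps
  rw [h1]
  have h2 : ((r : ℝ)) ^ (-s) = (1 + (r : ℝ)) ^ (-s) * ((1 + (r : ℝ)) / r) ^ s := by
    rw [Real.div_rpow (by positivity) (by positivity), Real.rpow_neg (by positivity),
      Real.rpow_neg (by positivity)]
    have : (0 : ℝ) < (1 + (r : ℝ)) ^ s := Real.rpow_pos_of_pos (by positivity) _
    field_simp
  have h3 : ((1 + (r : ℝ)) / r) ^ s ≤ 1 + 2 * (1 + (r : ℝ))⁻¹ := by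
    have h4 : (1 : ℝ) ≤ (1 + (r : ℝ)) / r := by
      rw [le_div_iff₀ (by positivity)]
      linarith
    calc ((1 + (r : ℝ)) / r) ^ s ≤ ((1 + (r : ℝ)) / r) ^ (1 : ℝ) :=
          Real.rpow_le_rpow_of_exponent_le h4 hs1
      _ = (1 + (r : ℝ)) / r := Real.rpow_one _
      _ ≤ 1 + 2 * (1 + (r : ℝ))⁻¹ := by
        rw [div_le_iff₀ (by positivity)]
        field_simp
        nlinarith
  have h5 : (0 : ℝ) < (1 + (r : ℝ)) ^ (-s) := Real.rpow_pos_of_pos (by positivity) _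
  rw [h2]
  nlinarith [mul_le_mul_of_nonneg_left h3 h5.le]

/-- The final estimate. -/
theorem final {K0 K1 B CB π δ ψr ψD δD d1 S : ℝ} (hK0 : 0 ≤ K0) (hK1 : 0 ≤ K1) (hπ : 0 < π)
    (hπ1 : π ≤ 1) (hB : B = 8 * (K1 + K0 * Real.exp K0 + 1) / π)
    (hCB : CB = 4 * (K0 + 2 * (B * K1)) + 8 * (B * K1) * (K0 - Real.log π))
    (hδ0 : 0 < δ) (hδ1 : δ ≤ 1) (hψr : 0 < ψr) (hψD : 0 < ψD) (hr2 : ψr ^ 2 = δ)
    (hD2 : ψD ^ 2 = δD) (hd1 : d1 = max (ψr - ψD) 0)
    (hS1 : 1 - B * K1 * δ + π * (B ^ 2 * d1 ^ 2 / 2) ≤ S) (hS2 : π ≤ S) :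
    Real.exp (-(CB * δD)) ≤ Real.exp (-(K0 * δ)) * S := by
  have hlog : Real.log π ≤ 0 := Real.log_nonpos hπ.le hπ1
  have hδD : 0 < δD := by rw [← hD2]; positivity
  have hexp : 0 < Real.exp K0 := Real.exp_pos _
  have hK0e : 0 ≤ K0 * Real.exp K0 := by positivity
  have hB0 : 0 < B := by rw [hB]; positivity
  have hBK : 0 ≤ B * K1 := by positivity
  have hCB0 : 0 ≤ CB := by
    rw [hCB]
    have : 0 ≤ K0 - Real.log π := by linarith
    positivity
  have hS0 : 0 < S := hπ.trans_le hS2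
  rcases le_or_gt (ψr / 2) d1 with hc | hc
  · -- large increments
    have h1 : δ / 4 ≤ d1 ^ 2 := by
      rw [← hr2]
      nlinarith
    have hπB : π * B = 8 * (K1 + K0 * Real.exp K0 + 1) := by
      rw [hB]
      field_simp
    have hB1 : 1 ≤ B := by
      rw [hB, le_div_iff₀ hπ]
      nlinarith
    have h2 : K0 * Real.exp K0 ≤ π * B ^ 2 / 8 - B * K1 := by
      have : π * B ^ 2 / 8 - B * K1 = B * (K0 * Real.exp K0 + 1) := by
        have : π * B ^ 2 = (π * B) * B := by ring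
        rw [this, hπB]
        ring
      rw [this]
      nlinarith
    have h3 : 1 + K0 * Real.exp K0 * δ ≤ S := by
      refine le_trans ?_ hS1
      have h4 : π * (B ^ 2 * (δ / 4) / 2) ≤ π * (B ^ 2 * d1 ^ 2 / 2) := by gcongr
      nlinarith [mul_le_mul_of_nonneg_right h2 hδ0.le]
    have h4 : Real.exp (K0 * δ) ≤ 1 + K0 * Real.exp K0 * δ := by
      have h5 : 1 - K0 * δ ≤ Real.exp (-(K0 * δ)) := Real.one_sub_le_exp_neg _
      have h6 : Real.exp (K0 * δ) * Real.exp (-(K0 * δ)) = 1 := by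
        rw [← Real.exp_add, add_neg_cancel, Real.exp_zero]
      have h7 : 0 < Real.exp (K0 * δ) := Real.exp_pos _
      have h8 : Real.exp (K0 * δ) ≤ Real.exp K0 := Real.exp_le_exp.mpr (by nlinarith)
      have h9 : Real.exp (K0 * δ) * (1 - K0 * δ) ≤ 1 :=
        (mul_le_mul_of_nonneg_left h5 h7.le).trans h6.le
      have h10 : K0 * δ * Real.exp (K0 * δ) ≤ K0 * δ * Real.exp K0 :=
        mul_le_mul_of_nonneg_left h8 (by positivity)
      nlinarith
    have h5 : 1 ≤ Real.exp (-(K0 * δ)) * S := by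
      have h6 : Real.exp (-(K0 * δ)) * Real.exp (K0 * δ) = 1 := by
        rw [← Real.exp_add, neg_add_cancel, Real.exp_zero]
      rw [← h6]
      exact mul_le_mul_of_nonneg_left (h4.trans h3) (Real.exp_pos _).le
    refine le_trans ?_ h5
    rw [Real.exp_le_one_iff]
    have : 0 ≤ CB * δD := by positivity
    linarith
  · have hψ : ψr < 2 * ψD := by
      have : ψr - ψD ≤ d1 := by rw [hd1]; exact le_max_left _ _
      linarith
    have hδ4 : δ ≤ 4 * δD := by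
      rw [← hr2, ← hD2]
      nlinarith
    rcases le_or_gt (B * K1 * δ) (1 / 2) with h1 | h1
    · have h2 : Real.exp (-(2 * (B * K1 * δ))) ≤ 1 - B * K1 * δ := by
        set t := B * K1 * δ with ht
        have ht0 : 0 ≤ t := by positivity
        have h3 : 1 + 2 * t ≤ Real.exp (2 * t) := by
          have := Real.add_one_le_exp (2 * t)
          linarith
        have h4 : Real.exp (-(2 * t)) * Real.exp (2 * t) = 1 := by
          rw [← Real.exp_add, neg_add_cancel, Real.exp_zero]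
        have h5 : 0 < Real.exp (-(2 * t)) := Real.exp_pos _
        have h6 : Real.exp (-(2 * t)) * (1 + 2 * t) ≤ 1 :=
          (mul_le_mul_of_nonneg_left h3 h5.le).trans h4.le
        have h7 : 1 ≤ (1 - t) * (1 + 2 * t) := by nlinarith
        have h8 : Real.exp (-(2 * t)) * (1 + 2 * t) ≤ (1 - t) * (1 + 2 * t) := h6.trans h7
        exact le_of_mul_le_mul_right h8 (by positivity)
      have h3 : 1 - B * K1 * δ ≤ S := by
        refine le_trans ?_ hS1
        have : 0 ≤ π * (B ^ 2 * d1 ^ 2 / 2) := by positivity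
        linarith
      calc Real.exp (-(CB * δD)) ≤ Real.exp (-(K0 * δ) + -(2 * (B * K1 * δ))) := by
            rw [Real.exp_le_exp]
            have h4 : 4 * (K0 + 2 * (B * K1)) ≤ CB := by
              rw [hCB]
              have : 0 ≤ 8 * (B * K1) * (K0 - Real.log π) := by
                have : 0 ≤ K0 - Real.log π := by linarith
                positivity
              linarith
            have h5 := mul_le_mul_of_nonneg_right h4 hδD.le
            have h6 : 0 ≤ K0 + 2 * (B * K1) := by positivity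
            have h7 := mul_le_mul_of_nonneg_left hδ4 h6
            nlinarith
        _ = Real.exp (-(K0 * δ)) * Real.exp (-(2 * (B * K1 * δ))) := Real.exp_add _ _
        _ ≤ Real.exp (-(K0 * δ)) * S :=
            mul_le_mul_of_nonneg_left (h2.trans h3) (Real.exp_pos _).le
    · have h2 : 1 ≤ 8 * (B * K1) * δD := by
        have := mul_le_mul_of_nonneg_left hδ4 hBK
        nlinarith
      have h3 : K0 - Real.log π ≤ CB * δD := by
        have h4 : 0 ≤ K0 - Real.log π := by linarith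
        have h5 : 8 * (B * K1) * (K0 - Real.log π) ≤ CB := by
          rw [hCB]
          have : 0 ≤ 4 * (K0 + 2 * (B * K1)) := by positivity
          linarith
        have h6 := mul_le_mul_of_nonneg_right h5 hδD.le
        have h7 := mul_le_mul_of_nonneg_right h2 h4
        nlinarith
      calc Real.exp (-(CB * δD)) ≤ Real.exp (-K0 + Real.log π) := by
            rw [Real.exp_le_exp]
            linarith
        _ = Real.exp (-K0) * π := by rw [Real.exp_add, Real.exp_log hπ]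
        _ ≤ Real.exp (-(K0 * δ)) * S := by
            refine mul_le_mul ?_ hS2 hπ.le (Real.exp_pos _).le
            rw [Real.exp_le_exp]
            nlinarith

/-- The lower bound for the inner sum away from the origin. -/
theorem inner_sum {κ B π ρ s θ po pi d1 d2 : ℝ} (hκ : 0 ≤ κ) (hB : 0 < B) (hπ : 0 < π)
    (hρ : 1 ≤ ρ) (hs : θ = 2 * s) (hs1 : s ≤ 1) (hpo : π ≤ po) (hpi : 0 ≤ pi)
    (hsum : po + pi = 1) (hdrift : |po - pi| ≤ κ / ρ) (hd1 : 0 ≤ d1) (hd1' : d1 ≤ ρ ^ (-s))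
    (hd12 : d1 ≤ d2) (hd2 : d2 - d1 ≤ 2 * ρ ^ (-s) * ρ⁻¹) :
    1 - B * (κ + 2) * ρ ^ (-θ) + π * (B ^ 2 * d1 ^ 2 / 2) ≤
      po * Real.exp (B * d1) + pi * Real.exp (-(B * d2)) ∧
    π ≤ po * Real.exp (B * d1) + pi * Real.exp (-(B * d2)) := by
  have hρ0 : 0 < ρ := by linarith
  have hps : 0 < ρ ^ (-s) := Real.rpow_pos_of_pos hρ0 _
  have hδ : ρ ^ (-s) * ρ⁻¹ ≤ ρ ^ (-θ) := by
    have h1 : ρ⁻¹ = ρ ^ (-1 : ℝ) := (Real.rpow_neg_one ρ).symm
    rw [h1, ← Real.rpow_add hρ0]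
    exact Real.rpow_le_rpow_of_exponent_le hρ (by linarith)
  have hx : 0 ≤ B * d1 := by positivity
  have h1 : 1 + B * d1 + (B * d1) ^ 2 / 2 ≤ Real.exp (B * d1) := Real.quadratic_le_exp_of_nonneg hx
  have h2 : 1 - B * d2 ≤ Real.exp (-(B * d2)) := Real.one_sub_le_exp_neg _
  have hpo0 : 0 ≤ po := hπ.le.trans hpo
  have hpi1 : pi ≤ 1 := by linarith
  constructor
  · have h3 : po * (1 + B * d1 + (B * d1) ^ 2 / 2) + pi * (1 - B * d2) ≤
        po * Real.exp (B * d1) + pi * Real.exp (-(B * d2)) :=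
      add_le_add (mul_le_mul_of_nonneg_left h1 hpo0) (mul_le_mul_of_nonneg_left h2 hpi)
    refine le_trans ?_ h3
    have h4 : -(κ * (ρ ^ (-s) * ρ⁻¹)) ≤ (po - pi) * d1 := by
      have h5 : |(po - pi) * d1| ≤ κ / ρ * ρ ^ (-s) := by
        rw [abs_mul, abs_of_nonneg hd1]
        exact mul_le_mul hdrift hd1' hd1 (by positivity)
      have h6 := neg_abs_le ((po - pi) * d1)
      have h7 : κ / ρ * ρ ^ (-s) = κ * (ρ ^ (-s) * ρ⁻¹) := by
        rw [div_eq_mul_inv]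
        ring
      linarith
    have h5 : pi * (d2 - d1) ≤ 2 * (ρ ^ (-s) * ρ⁻¹) := by
      have h6 : pi * (d2 - d1) ≤ 1 * (d2 - d1) :=
        mul_le_mul_of_nonneg_right hpi1 (by linarith)
      linarith
    have h6 : -((κ + 2) * ρ ^ (-θ)) ≤ po * d1 - pi * d2 := by
      have h7 : (κ + 2) * (ρ ^ (-s) * ρ⁻¹) ≤ (κ + 2) * ρ ^ (-θ) :=
        mul_le_mul_of_nonneg_left hδ (by linarith)
      have h8 : po * d1 - pi * d2 = (po - pi) * d1 - pi * (d2 - d1) := by ring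
      rw [h8]
      linarith
    have h7 : -(B * (κ + 2) * ρ ^ (-θ)) ≤ B * (po * d1 - pi * d2) := by
      have := mul_le_mul_of_nonneg_left h6 hB.le
      nlinarith
    have h8 : π * (B ^ 2 * d1 ^ 2 / 2) ≤ po * (B ^ 2 * d1 ^ 2 / 2) :=
      mul_le_mul_of_nonneg_right hpo (by positivity)
    have h9 : po * (1 + B * d1 + (B * d1) ^ 2 / 2) + pi * (1 - B * d2) =
        (po + pi) + B * (po * d1 - pi * d2) + po * (B ^ 2 * d1 ^ 2 / 2) := by ring
    rw [h9, hsum]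
    linarith
  · have h3 : 1 ≤ Real.exp (B * d1) := Real.one_le_exp hx
    have h4 : 0 ≤ pi * Real.exp (-(B * d2)) := mul_nonneg hpi (Real.exp_pos _).le
    have h5 : po * 1 ≤ po * Real.exp (B * d1) := mul_le_mul_of_nonneg_left h3 hpo0
    linarith

/-- A uniform lower bound for the transition probabilities. -/
theorem exists_pi (C : Chain) (hnl : ∀ x, C.p x x = 0) {κ : ℝ}
    (hdrift : ∀ x : ℤ, |C.p x (x + 1) - C.p x (x - 1)| ≤ κ / (1 + |(x : ℝ)|)) :
    ∃ π : ℝ, 0 < π ∧ π ≤ 1 ∧ ∀ x, π ≤ C.p x (x + 1) ∧ π ≤ C.p x (x - 1) := by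
  obtain ⟨R, hR⟩ := exists_nat_gt (2 * κ)
  have hne : (Finset.Icc (-(R : ℤ)) R).Nonempty := ⟨0, by simp⟩
  obtain ⟨x0, _, hx0⟩ := Finset.exists_min_image (Finset.Icc (-(R : ℤ)) R)
    (fun x => min (C.p x (x + 1)) (C.p x (x - 1))) hne
  refine ⟨min (min (C.p x0 (x0 + 1)) (C.p x0 (x0 - 1))) (1 / 4),
    lt_min (lt_min (C.up _) (C.down _)) (by norm_num), (min_le_right _ _).trans (by norm_num),
    fun x => ?_⟩
  by_cases hx : x ∈ Finset.Icc (-(R : ℤ)) R
  · have h1 := hx0 x hx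
    have h2 : min (min (C.p x0 (x0 + 1)) (C.p x0 (x0 - 1))) (1 / 4) ≤
        min (C.p x (x + 1)) (C.p x (x - 1)) := (min_le_left _ _).trans h1
    exact ⟨h2.trans (min_le_left _ _), h2.trans (min_le_right _ _)⟩
  · have hs := C.sum_one x
    rw [Conf2.sum_Icc, hnl x] at hs
    have h1 : (R : ℝ) ≤ |(x : ℝ)| := by
      rw [Finset.mem_Icc, not_and_or, not_le, not_le] at hx
      rcases hx with hx | hx
      · have : (x : ℝ) < -(R : ℝ) := by exact_mod_cast hx
        rw [abs_of_neg (by have : (0 : ℝ) ≤ R := Nat.cast_nonneg _; linarith)]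
        linarith
      · have : (R : ℝ) < x := by exact_mod_cast hx
        exact this.le.trans (le_abs_self _)
    have h2 : κ / (1 + |(x : ℝ)|) ≤ 1 / 2 := by
      rw [div_le_div_iff₀ (by positivity) (by norm_num)]
      linarith
    have h3 := abs_le.mp ((hdrift x).trans h2)
    have h4 : min (min (C.p x0 (x0 + 1)) (C.p x0 (x0 - 1))) (1 / 4) ≤ 1 / 4 := min_le_right _ _
    constructor <;> linarith [h3.1, h3.2]

theorem gg_succ (s : ℝ) (D r : ℕ) : gg s D (r + 1) - gg s D r = dd s D r := by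
  unfold gg
  rw [Finset.sum_range_succ]
  ring

theorem gg_pred (s : ℝ) (D : ℕ) {r : ℕ} (hr : 1 ≤ r) :
    gg s D (r - 1) - gg s D r = -dd s D (r - 1) := by
  have h := gg_succ s D (r - 1)
  rw [Nat.sub_add_cancel hr] at h
  linarith

theorem dd_diff {s : ℝ} (hs : 0 ≤ s) (hs1 : s ≤ 1) (D : ℕ) {r : ℕ} (hr : 1 ≤ r) :
    dd s D (r - 1) - dd s D r ≤ 2 * (1 + (r : ℝ)) ^ (-s) * (1 + (r : ℝ))⁻¹ := by
  have h1 := ps_diff hs hs1 hr
  have h2 : ps s r ≤ ps s (r - 1) := ps_anti hs (Nat.sub_le r 1)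
  unfold dd
  rcases le_total (ps s r - ps s D) 0 with h3 | h3
  · rw [max_eq_right h3]
    rcases le_total (ps s (r - 1) - ps s D) 0 with h4 | h4
    · rw [max_eq_right h4]
      linarith
    · rw [max_eq_left h4]
      linarith
  · have h4 : 0 ≤ ps s (r - 1) - ps s D := by linarith
    rw [max_eq_left h3, max_eq_left h4]
    linarith

/-- The constants. -/
theorem step_pos {κ B CB π K0 s θ : ℝ} (hκ : 0 ≤ κ) (hK0 : 0 ≤ K0) (hπ : 0 < π) (hπ1 : π ≤ 1)
    (hB : B = 8 * ((κ + 2) + K0 * Real.exp K0 + 1) / π)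
    (hCB : CB = 4 * (K0 + 2 * (B * (κ + 2))) + 8 * (B * (κ + 2)) * (K0 - Real.log π))
    (hθ : θ = 2 * s) (hs0 : 0 ≤ s) (hs1 : s ≤ 1) (D : ℕ) {r : ℕ} (hr : 1 ≤ r)
    {po pi fo fi : ℝ} (hpo : π ≤ po) (hpi : 0 ≤ pi) (hsum : po + pi = 1)
    (hdrift : |po - pi| ≤ κ / (1 + (r : ℝ))) (hfo : fo ≤ K0 * (1 + (r : ℝ)) ^ (-θ))
    (hfi : fi ≤ K0 * (1 + (r : ℝ)) ^ (-θ)) :
    Real.exp (-(CB * (1 + (D : ℝ)) ^ (-θ))) ≤
      po * Real.exp (-fo) * Real.exp (B * (gg s D (r + 1) - gg s D r)) +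
      pi * Real.exp (-fi) * Real.exp (B * (gg s D (r - 1) - gg s D r)) := by
  have hB0 : 0 < B := by
    rw [hB]
    have := Real.exp_pos K0
    positivity
  have hρ : (1 : ℝ) ≤ 1 + (r : ℝ) := by
    have : (0 : ℝ) ≤ r := Nat.cast_nonneg r
    linarith
  have hpow : ∀ k : ℕ, ((1 + (k : ℝ)) ^ (-s)) ^ 2 = (1 + (k : ℝ)) ^ (-θ) := by
    intro k
    rw [← Real.rpow_natCast, ← Real.rpow_mul (by positivity), hθ]
    congr 1
    push_cast
    ring
  have h1 := inner_sum (d1 := dd s D r) (d2 := dd s D (r - 1)) hκ hB0 hπ hρ hθ hs1 hpo hpi hsum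
    hdrift (dd_nonneg _ _ _) (dd_le _ _ _) (dd_anti hs0 D (Nat.sub_le r 1))
    (dd_diff hs0 hs1 D hr)
  have hδ0 : 0 < (1 + (r : ℝ)) ^ (-θ) := Real.rpow_pos_of_pos (by positivity) _
  have hδ1 : (1 + (r : ℝ)) ^ (-θ) ≤ 1 := Real.rpow_le_one_of_one_le_of_nonpos hρ (by linarith)
  have h2 := final (K1 := κ + 2) (ψr := (1 + (r : ℝ)) ^ (-s)) (ψD := (1 + (D : ℝ)) ^ (-s))
    (δ := (1 + (r : ℝ)) ^ (-θ)) (δD := (1 + (D : ℝ)) ^ (-θ)) (d1 := dd s D r) hK0 (by linarith) hπ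
    hπ1 hB hCB hδ0 hδ1 (Real.rpow_pos_of_pos (by positivity) _)
    (Real.rpow_pos_of_pos (by positivity) _) (hpow r) (hpow D) rfl h1.1 h1.2
  refine h2.trans ?_
  rw [gg_succ, gg_pred s D hr, mul_add, mul_neg]
  have hpo0 : 0 ≤ po := hπ.le.trans hpo
  have e1 : Real.exp (-(K0 * (1 + (r : ℝ)) ^ (-θ))) ≤ Real.exp (-fo) :=
    Real.exp_le_exp.mpr (by linarith)
  have e2 : Real.exp (-(K0 * (1 + (r : ℝ)) ^ (-θ))) ≤ Real.exp (-fi) :=
    Real.exp_le_exp.mpr (by linarith)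
  refine add_le_add ?_ ?_
  · calc Real.exp (-(K0 * (1 + (r : ℝ)) ^ (-θ))) * (po * Real.exp (B * dd s D r))
        = (po * Real.exp (B * dd s D r)) * Real.exp (-(K0 * (1 + (r : ℝ)) ^ (-θ))) := by ring
      _ ≤ (po * Real.exp (B * dd s D r)) * Real.exp (-fo) :=
          mul_le_mul_of_nonneg_left e1 (mul_nonneg hpo0 (Real.exp_pos _).le)
      _ = _ := by ring
  · calc Real.exp (-(K0 * (1 + (r : ℝ)) ^ (-θ))) * (pi * Real.exp (-(B * dd s D (r - 1))))
        = (pi * Real.exp (-(B * dd s D (r - 1)))) *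
            Real.exp (-(K0 * (1 + (r : ℝ)) ^ (-θ))) := by ring
      _ ≤ (pi * Real.exp (-(B * dd s D (r - 1)))) * Real.exp (-fi) :=
          mul_le_mul_of_nonneg_left e2 (mul_nonneg hpi (Real.exp_pos _).le)
      _ = _ := by ring

theorem step_zero {κ B CB π K0 s θ : ℝ} (hκ : 0 ≤ κ) (hK0 : 0 ≤ K0) (hπ : 0 < π) (hπ1 : π ≤ 1)
    (hB : B = 8 * ((κ + 2) + K0 * Real.exp K0 + 1) / π)
    (hCB : CB = 4 * (K0 + 2 * (B * (κ + 2))) + 8 * (B * (κ + 2)) * (K0 - Real.log π))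
    (hθ : θ = 2 * s) (D : ℕ)
    {po pi fo fi : ℝ} (hpo : 0 ≤ po) (hpi : 0 ≤ pi) (hsum : po + pi = 1)
    (hfo : fo ≤ K0) (hfi : fi ≤ K0) :
    Real.exp (-(CB * (1 + (D : ℝ)) ^ (-θ))) ≤
      po * Real.exp (-fo) * Real.exp (B * (gg s D 1 - gg s D 0)) +
      pi * Real.exp (-fi) * Real.exp (B * (gg s D 1 - gg s D 0)) := by
  have hB0 : 0 < B := by
    rw [hB]
    have := Real.exp_pos K0
    positivity
  have hpow : ((1 + (D : ℝ)) ^ (-s)) ^ 2 = (1 + (D : ℝ)) ^ (-θ) := by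
    rw [← Real.rpow_natCast, ← Real.rpow_mul (by positivity), hθ]
    congr 1
    push_cast
    ring
  have hd0 : dd s D 0 = max (1 - (1 + (D : ℝ)) ^ (-s)) 0 := by
    unfold dd ps
    simp
  have hx : 0 ≤ B * dd s D 0 := mul_nonneg hB0.le (dd_nonneg _ _ _)
  have hq : 1 + B * dd s D 0 + (B * dd s D 0) ^ 2 / 2 ≤ Real.exp (B * dd s D 0) :=
    Real.quadratic_le_exp_of_nonneg hx
  have h1 : 1 - B * (κ + 2) * 1 + π * (B ^ 2 * dd s D 0 ^ 2 / 2) ≤ Real.exp (B * dd s D 0) := by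
    refine le_trans ?_ hq
    have h2 : π * (B ^ 2 * dd s D 0 ^ 2 / 2) ≤ 1 * (B ^ 2 * dd s D 0 ^ 2 / 2) :=
      mul_le_mul_of_nonneg_right hπ1 (by positivity)
    have h3 : 0 ≤ B * (κ + 2) := by positivity
    have h4 : (B * dd s D 0) ^ 2 / 2 = 1 * (B ^ 2 * dd s D 0 ^ 2 / 2) := by ring
    rw [h4]
    linarith
  have h2 : π ≤ Real.exp (B * dd s D 0) := hπ1.trans (Real.one_le_exp hx)
  have h3 := final (K1 := κ + 2) (ψr := 1) (ψD := (1 + (D : ℝ)) ^ (-s))
    (δ := 1) (δD := (1 + (D : ℝ)) ^ (-θ)) (d1 := dd s D 0) hK0 (by linarith) hπ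
    hπ1 hB hCB one_pos le_rfl one_pos
    (Real.rpow_pos_of_pos (by positivity) _) (one_pow 2) hpow hd0 h1 h2
  refine h3.trans ?_
  rw [show (1 : ℕ) = 0 + 1 from rfl, gg_succ, mul_one]
  have e1 : Real.exp (-K0) ≤ Real.exp (-fo) := Real.exp_le_exp.mpr (by linarith)
  have e2 : Real.exp (-K0) ≤ Real.exp (-fi) := Real.exp_le_exp.mpr (by linarith)
  have e3 : 0 < Real.exp (B * dd s D 0) := Real.exp_pos _
  calc Real.exp (-K0) * Real.exp (B * dd s D 0)
      = (po + pi) * (Real.exp (-K0) * Real.exp (B * dd s D 0)) := by rw [hsum, one_mul]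
    _ = po * Real.exp (-K0) * Real.exp (B * dd s D 0) +
        pi * Real.exp (-K0) * Real.exp (B * dd s D 0) := by ring
    _ ≤ _ := by gcongr

/-- The induction. -/
theorem sub_le (C : Chain) {φ : ℤ → ℝ} {η a B Gm : ℝ} {G : ℤ → ℝ} (hB : 0 ≤ B)
    (hG : ∀ x, G x ≤ Gm)
    (hstep : ∀ x, Real.exp (-a) ≤ ∑ z ∈ Finset.Icc (x - 1) (x + 1),
      C.p x z * Real.exp (-η * φ z) * Real.exp (B * (G z - G x))) :
    ∀ (m : ℕ) (ω : ℕ → ℝ) (x : ℤ),
      Real.exp (-(a * m) + B * (G x - Gm)) ≤ Zf C (Wdet η φ) m ω x := by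
  intro m
  induction m with
  | zero =>
    intro ω x
    rw [Zf, Real.exp_le_one_iff]
    have := mul_nonneg hB (sub_nonneg.mpr (hG x))
    push_cast
    nlinarith
  | succ m ih =>
    intro ω x
    rw [Zf]
    calc Real.exp (-(a * ((m + 1 : ℕ) : ℝ)) + B * (G x - Gm))
        = Real.exp (-(a * m) + B * (G x - Gm)) * Real.exp (-a) := by
          rw [← Real.exp_add]
          congr 1
          push_cast
          ring
      _ ≤ Real.exp (-(a * m) + B * (G x - Gm)) * ∑ z ∈ Finset.Icc (x - 1) (x + 1),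
            C.p x z * Real.exp (-η * φ z) * Real.exp (B * (G z - G x)) :=
          mul_le_mul_of_nonneg_left (hstep x) (Real.exp_pos _).le
      _ = ∑ z ∈ Finset.Icc (x - 1) (x + 1),
            C.p x z * Real.exp (-η * φ z) * Real.exp (-(a * m) + B * (G z - Gm)) := by
          rw [Finset.mul_sum]
          refine Finset.sum_congr rfl fun z _ => ?_
          have : Real.exp (-(a * m) + B * (G z - Gm)) =
              Real.exp (-(a * m) + B * (G x - Gm)) * Real.exp (B * (G z - G x)) := by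
            rw [← Real.exp_add]
            congr 1
            ring
          rw [this]
          ring
      _ ≤ _ := by
          refine Finset.sum_le_sum fun z _ => ?_
          exact mul_le_mul_of_nonneg_left (ih _ z) (mul_nonneg (C.nonneg _ _) (Real.exp_pos _).le)

theorem phi_le {φ : ℤ → ℝ} {c θ : ℝ} (hc : 0 < c) (h0 : 0 < θ)
    (hφ : ∀ x : ℤ, φ x ≤ c * (1 + |(x : ℝ)|) ^ (-θ)) {η : ℝ} (hη : 0 < η) {z : ℤ} {r : ℕ}
    (h : (1 + (r : ℝ)) / 2 ≤ 1 + |(z : ℝ)|) :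
    η * φ z ≤ η * c * 2 ^ θ * (1 + (r : ℝ)) ^ (-θ) := by
  have h1 : (1 + |(z : ℝ)|) ^ (-θ) ≤ ((1 + (r : ℝ)) / 2) ^ (-θ) :=
    Real.rpow_le_rpow_of_nonpos (by positivity) h (by linarith)
  have h2 : ((1 + (r : ℝ)) / 2) ^ (-θ) = 2 ^ θ * (1 + (r : ℝ)) ^ (-θ) := by
    rw [Real.div_rpow (by positivity) (by norm_num), Real.rpow_neg (x := 2) (by norm_num)]
    field_simp
  calc η * φ z ≤ η * (c * (1 + |(z : ℝ)|) ^ (-θ)) := mul_le_mul_of_nonneg_left (hφ z) hη.le
    _ ≤ η * (c * (2 ^ θ * (1 + (r : ℝ)) ^ (-θ))) := by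
        rw [h2] at h1
        gcongr
    _ = _ := by ring

theorem gg_bound {s : ℝ} (hs0 : 0 ≤ s) (hs1 : s < 1) (D k : ℕ) :
    gg s D k ≤ (k : ℝ) ^ (1 - s) / (1 - s) := by
  induction k with
  | zero =>
    unfold gg
    simp only [Finset.range_zero, Finset.sum_empty]
    positivity
  | succ k ih =>
    have h1 := gg_succ s D k
    have h2 := dd_le s D k
    have hk : (0 : ℝ) < 1 + (k : ℝ) := by positivity
    have hs2 : 0 < 1 - s := by linarith
    have h3 : (k : ℝ) ^ (1 - s) ≤ (1 + (k : ℝ)) ^ (1 - s) - (1 - s) * (1 + (k : ℝ)) ^ (-s) := by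
      have h4 : (k : ℝ) = (1 + (k : ℝ)) * (1 + -(1 + (k : ℝ))⁻¹) := by
        field_simp
        ring
      have h5 : (-1 : ℝ) ≤ -(1 + (k : ℝ))⁻¹ := by
        have : (1 + (k : ℝ))⁻¹ ≤ 1 := inv_le_one_of_one_le₀ (by
          have : (0 : ℝ) ≤ k := Nat.cast_nonneg k
          linarith)
        linarith
      have h6 := rpow_one_add_le_one_add_mul_self h5 hs2.le (by linarith : 1 - s ≤ 1)
      have h7 : (k : ℝ) ^ (1 - s) = (1 + (k : ℝ)) ^ (1 - s) * (1 + -(1 + (k : ℝ))⁻¹) ^ (1 - s) := by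
        rw [← Real.mul_rpow hk.le (by linarith), ← h4]
      have h8 : (1 + (k : ℝ)) ^ (-s) = (1 + (k : ℝ)) ^ (1 - s) * (1 + (k : ℝ))⁻¹ := by
        rw [← Real.rpow_neg_one, ← Real.rpow_add hk]
        congr 1
        ring
      rw [h7, h8]
      have h9 : 0 < (1 + (k : ℝ)) ^ (1 - s) := Real.rpow_pos_of_pos hk _
      nlinarith [mul_le_mul_of_nonneg_left h6 h9.le]
    have h4 : ps s k = (1 + (k : ℝ)) ^ (-s) := rfl
    have h5 : gg s D (k + 1) ≤ (k : ℝ) ^ (1 - s) / (1 - s) + (1 + (k : ℝ)) ^ (-s) := by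
      rw [← h4]
      linarith
    refine h5.trans ?_
    rw [div_add' _ _ _ hs2.ne', div_le_div_iff_of_pos_right hs2]
    push_cast
    rw [add_comm (k : ℝ) 1]
    linarith

end Sub

open MP_daa227_pr.Sub in
theorem Zf_escape (C : Chain) (hnl : ∀ x, C.p x x = 0) {φ : ℤ → ℝ} {c θ κ : ℝ} (hc : 0 < c)
    (h0 : 0 < θ) (h1 : θ < 2) (hφ0 : ∀ x, 0 ≤ φ x)
    (hφ : ∀ x : ℤ, φ x ≤ c * (1 + |(x : ℝ)|) ^ (-θ))
    (hdrift : ∀ x : ℤ, |C.p x (x + 1) - C.p x (x - 1)| ≤ κ / (1 + |(x : ℝ)|)) {η : ℝ} (hη : 0 < η) :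
    ∃ A : ℝ, 0 < A ∧ ∀ n : ℕ, Real.exp (-(A * ((n : ℝ) ^ ((2 - θ) / (2 + θ)) + 1))) ≤
      Zf C (Wdet η φ) n (fun _ => 0) 0 := by
  have hκ : 0 ≤ κ := by
    have h := (abs_nonneg _).trans (hdrift 0)
    simpa using h
  obtain ⟨π, hπ, hπ1, hpi⟩ := exists_pi C hnl hdrift
  set s : ℝ := θ / 2 with hs
  have hθ : θ = 2 * s := by rw [hs]; ring
  have hs0 : 0 ≤ s := by rw [hs]; linarith
  have hs1 : s < 1 := by rw [hs]; linarith
  set K0 : ℝ := η * c * 2 ^ θ with hK0d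
  have hK0 : 0 ≤ K0 := by positivity
  set B : ℝ := 8 * ((κ + 2) + K0 * Real.exp K0 + 1) / π with hB
  set CB : ℝ := 4 * (K0 + 2 * (B * (κ + 2))) + 8 * (B * (κ + 2)) * (K0 - Real.log π) with hCB
  have hB0 : 0 < B := by
    have := Real.exp_pos K0
    positivity
  have hCB0 : 0 ≤ CB := by
    have h2 : Real.log π ≤ 0 := Real.log_nonpos hπ.le hπ1
    have h3 : 0 ≤ K0 - Real.log π := by linarith
    positivity
  have hsum : ∀ x, C.p x (x - 1) + C.p x (x + 1) = 1 := by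
    intro x
    have h := C.sum_one x
    rw [Conf2.sum_Icc, hnl x] at h
    linarith
  have hstep : ∀ (D : ℕ) (x : ℤ), Real.exp (-(CB * (1 + (D : ℝ)) ^ (-θ))) ≤
      ∑ z ∈ Finset.Icc (x - 1) (x + 1), C.p x z * Real.exp (-η * φ z) *
        Real.exp (B * (gg s D z.natAbs - gg s D x.natAbs)) := by
    intro D x
    rw [Conf2.sum_Icc, hnl x, zero_mul, zero_mul, add_zero]
    have hneg : ∀ z : ℤ, -η * φ z = -(η * φ z) := fun z => by ring
    rw [hneg, hneg]
    rcases lt_trichotomy x 0 with hx | hx | hx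
    · -- negative
      have hr : 1 ≤ x.natAbs := by omega
      have e1 : (x - 1).natAbs = x.natAbs + 1 := by omega
      have e2 : (x + 1).natAbs = x.natAbs - 1 := by omega
      have hxr : |(x : ℝ)| = (x.natAbs : ℝ) := abs_cast x
      have hz1 : |((x - 1 : ℤ) : ℝ)| = (x.natAbs : ℝ) + 1 := by
        rw [abs_cast, e1, Nat.cast_add, Nat.cast_one]
      have hz2 : |((x + 1 : ℤ) : ℝ)| = (x.natAbs : ℝ) - 1 := by
        rw [abs_cast, e2, Nat.cast_sub hr, Nat.cast_one]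
      have hr' : (1 : ℝ) ≤ x.natAbs := by exact_mod_cast hr
      have hd := hdrift x
      rw [hxr, abs_sub_comm] at hd
      have h2 := step_pos hκ hK0 hπ hπ1 hB hCB hθ hs0 hs1.le D hr (hpi x).2 (C.nonneg _ _)
        (hsum x) hd (phi_le hc h0 hφ hη (z := x - 1) (by rw [hz1]; linarith))
        (phi_le hc h0 hφ hη (z := x + 1) (by rw [hz2]; linarith))
      rw [e1, e2]
      exact h2
    · subst hx
      have h2 := step_zero (s := s) hκ hK0 hπ hπ1 hB hCB hθ D (C.nonneg 0 (0 - 1))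
        (C.nonneg 0 (0 + 1)) (hsum 0)
        (fo := η * φ (0 - 1)) (fi := η * φ (0 + 1)) (by
          have := phi_le (r := 0) hc h0 hφ hη (z := 0 - 1) (by norm_num)
          simpa using this) (by
          have := phi_le (r := 0) hc h0 hφ hη (z := 0 + 1) (by norm_num)
          simpa using this)
      simpa using h2
    · have hr : 1 ≤ x.natAbs := by omega
      have e1 : (x + 1).natAbs = x.natAbs + 1 := by omega
      have e2 : (x - 1).natAbs = x.natAbs - 1 := by omega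
      have hxr : |(x : ℝ)| = (x.natAbs : ℝ) := abs_cast x
      have hz1 : |((x + 1 : ℤ) : ℝ)| = (x.natAbs : ℝ) + 1 := by
        rw [abs_cast, e1, Nat.cast_add, Nat.cast_one]
      have hz2 : |((x - 1 : ℤ) : ℝ)| = (x.natAbs : ℝ) - 1 := by
        rw [abs_cast, e2, Nat.cast_sub hr, Nat.cast_one]
      have hr' : (1 : ℝ) ≤ x.natAbs := by exact_mod_cast hr
      have hd := hdrift x
      rw [hxr] at hd
      have h2 := step_pos hκ hK0 hπ hπ1 hB hCB hθ hs0 hs1.le D hr (hpi x).1 (C.nonneg _ _)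
        (by rw [add_comm]; exact hsum x) hd
        (phi_le hc h0 hφ hη (z := x + 1) (by rw [hz1]; linarith))
        (phi_le hc h0 hφ hη (z := x - 1) (by rw [hz2]; linarith))
      rw [e1, e2]
      linarith
  have hξ0 : 0 < 2 / (2 + θ) := by positivity
  refine ⟨CB + B / (1 - s) + 1, by
    have : 0 < 1 - s := by linarith
    positivity, fun n => ?_⟩
  set D : ℕ := ⌈(n : ℝ) ^ (2 / (2 + θ))⌉₊ with hD
  have hsub := sub_le C (φ := φ) (η := η) (a := CB * (1 + (D : ℝ)) ^ (-θ)) (B := B)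
    (Gm := gg s D D) (G := fun x => gg s D x.natAbs) hB0.le (fun x => gg_le hs0 D _) (hstep D) n
    (fun _ => 0) 0
  refine le_trans ?_ hsub
  rw [Real.exp_le_exp]
  have hG0 : gg s D (0 : ℤ).natAbs = 0 := by
    unfold gg
    simp
  rw [hG0, zero_sub]
  have hD1 : (n : ℝ) ^ (2 / (2 + θ)) ≤ D := Nat.le_ceil _
  have hD2 : (D : ℝ) ≤ (n : ℝ) ^ (2 / (2 + θ)) + 1 := (Nat.ceil_lt_add_one (by positivity)).le
  have hn0 : (0 : ℝ) ≤ n := Nat.cast_nonneg n
  set N : ℝ := (n : ℝ) ^ ((2 - θ) / (2 + θ)) with hN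
  have hN0 : 0 ≤ N := by positivity
  -- first term
  have k1 : (1 + (D : ℝ)) ^ (-θ) * n ≤ N := by
    rcases Nat.eq_zero_or_pos n with rfl | hn
    · simp only [Nat.cast_zero, mul_zero]
      exact hN0
    · have hn1 : (0 : ℝ) < n := by exact_mod_cast hn
      have h2 : (1 + (D : ℝ)) ^ (-θ) ≤ ((n : ℝ) ^ (2 / (2 + θ))) ^ (-θ) :=
        Real.rpow_le_rpow_of_nonpos (by positivity) (by linarith) (by linarith)
      calc (1 + (D : ℝ)) ^ (-θ) * n ≤ ((n : ℝ) ^ (2 / (2 + θ))) ^ (-θ) * n :=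
            mul_le_mul_of_nonneg_right h2 hn0
        _ = N := by
            rw [← Real.rpow_mul hn0, hN]
            nth_rewrite 2 [← Real.rpow_one (n : ℝ)]
            rw [← Real.rpow_add hn1]
            congr 1
            field_simp
            ring
  -- second term
  have k2 : gg s D D ≤ (N + 1) / (1 - s) := by
    have hs2 : 0 < 1 - s := by linarith
    refine (gg_bound hs0 hs1 D D).trans ?_
    rw [div_le_div_iff_of_pos_right hs2]
    calc (D : ℝ) ^ (1 - s) ≤ ((n : ℝ) ^ (2 / (2 + θ)) + 1) ^ (1 - s) :=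
          Real.rpow_le_rpow (by positivity) hD2 hs2.le
      _ ≤ ((n : ℝ) ^ (2 / (2 + θ))) ^ (1 - s) + 1 ^ (1 - s) :=
          Real.rpow_add_le_add_rpow (by positivity) zero_le_one hs2.le (by linarith)
      _ = N + 1 := by
          rw [Real.one_rpow, ← Real.rpow_mul hn0, hN]
          congr 2
          rw [hs]
          field_simp
  have k3 : CB * ((1 + (D : ℝ)) ^ (-θ) * n) ≤ CB * N := mul_le_mul_of_nonneg_left k1 hCB0
  have k4 : B * gg s D D ≤ B * ((N + 1) / (1 - s)) := mul_le_mul_of_nonneg_left k2 hB0.le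
  have k5 : B * ((N + 1) / (1 - s)) = B / (1 - s) * (N + 1) := by ring
  nlinarith

end

end MP_daa227_pr
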