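import Pool.Agent.Lib.MP_daa227_pr.Mark
import Pool.Agent.Lib.MP_daa227_pr.Free
import Pool.Agent.Lib.MP_daa227_pr.Gap
import Pool.Agent.Lib.MP_daa227_pr.HcA
import Pool.Agent.Lib.MP_daa227_pr.HcB
import Pool.Agent.Lib.MP_daa227_pr.Sub
import Pool.Agent.Lib.MP_daa227_pr.Rev

/-!
# Positivity of the critical point for recurrent chains; escape exponents of Bessel-like chains
-/

open MeasureTheory ProbabilityTheory Set Filter
open scoped ENNReal Topology

namespace MP_daa227_pr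

noncomputable section

lemma K0_parity {C : Chain} (hb : ∀ x, C.p x x = 0) : ∀ (n : ℕ) (x : ℤ), ¬ Even ((n : ℤ) + x) →
    K0 C n x = 0
  | 0, _, _ => rfl
  | n + 1, x, h => by
      rw [K0]
      have h1 : (if n = 0 then C.p x 0 else 0) = 0 := by
        split_ifs with hn
        · by_cases hx : x = 0
          · rw [hx, hb]
          · apply C.near
            rw [Finset.mem_Icc]
            intro h2
            have h3 : x = 1 ∨ x = -1 := by omega
            apply h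
            rw [hn]
            rcases h3 with rfl | rfl
            · exact ⟨1, by norm_num⟩
            · exact ⟨0, by norm_num⟩
        · rfl
      rw [h1, zero_add]
      apply Finset.sum_eq_zero
      intro z hz
      by_cases hzx : z = x
      · rw [hzx, hb]; simp
      · rw [K0_parity hb n z, mul_zero]
        intro h2
        apply h
        rw [Finset.mem_sdiff, Finset.mem_Icc] at hz
        have h3 : z = x + 1 ∨ z = x - 1 := by omega
        rcases h3 with rfl | rfl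
        · have : ((n + 1 : ℕ) : ℤ) + x = (n : ℤ) + (x + 1) := by push_cast; ring
          rw [this]; exact h2
        · have : ((n + 1 : ℕ) : ℤ) + x = (n : ℤ) + (x - 1) + 2 := by push_cast; ring
          rw [this]
          exact h2.add even_two

/-- Recurrence: the return probabilities sum to one. -/
lemma hasSum_K0 {Ω : Type*} [MeasurableSpace Ω] {P : Measure Ω} [IsProbabilityMeasure P]
    {C : Chain} {S : ℕ → Ω → ℤ} (hS : IsChain P C.p S) (hrec : ∀ᵐ w ∂P, ∃ n, 0 < n ∧ S n w = 0) :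
    HasSum (fun n : ℕ => K0 C (n + 1) 0) 1 := by
  set E : ℕ → Set Ω := fun n => {w | S (n + 1) w = 0 ∧ ∀ i, 0 < i → i < n + 1 → S i w ≠ 0} with hE
  have hmE : ∀ n, MeasurableSet (E n) := by
    intro n
    have h : E n = S (n + 1) ⁻¹' {0} ∩ ⋂ i : ℕ, ⋂ _ : 0 < i, ⋂ _ : i < n + 1, S i ⁻¹' {0}ᶜ := by
      ext w
      simp [hE]
    rw [h]
    refine (hS.1 _ (measurableSet_singleton _)).inter ?_
    exact MeasurableSet.iInter fun i => MeasurableSet.iInter fun _ => MeasurableSet.iInter fun _ =>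
      hS.1 i (measurableSet_singleton _).compl
  have hdisj : Pairwise (Function.onFun Disjoint E) := by
    intro n m hnm
    rw [Function.onFun, Set.disjoint_left]
    intro w h1 h2
    rcases lt_or_gt_of_ne hnm with h | h
    · exact h2.2 (n + 1) (Nat.succ_pos n) (by omega) h1.1
    · exact h1.2 (m + 1) (Nat.succ_pos m) (by omega) h2.1
  have hU : P (⋃ n, E n) = 1 := by
    rw [← prob_compl_eq_zero_iff (MeasurableSet.iUnion hmE)]
    have h1 : (⋃ n, E n)ᶜ ⊆ {w | ¬ ∃ n, 0 < n ∧ S n w = 0} := by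
      intro w hw hcon
      apply hw
      classical
      rw [Set.mem_iUnion]
      have hf := Nat.find_spec hcon
      refine ⟨Nat.find hcon - 1, ?_⟩
      have h2 : Nat.find hcon - 1 + 1 = Nat.find hcon := by omega
      refine ⟨by rw [h2]; exact hf.2, fun i hi hi2 h0 => ?_⟩
      rw [h2] at hi2
      exact Nat.find_min hcon hi2 ⟨hi, h0⟩
    exact measure_mono_null h1 hrec
  have hsum : ∑' n, P (E n) = 1 := by rw [← measure_iUnion hdisj hmE, hU]
  have h1 : HasSum (fun n => (P (E n)).toReal) 1 := by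
    have h2 := ENNReal.hasSum_toReal (f := fun n => P (E n)) (by rw [hsum]; exact ENNReal.one_ne_top)
    have h3 : ∑' n, (P (E n)).toReal = 1 := by
      rw [← ENNReal.tsum_toReal_eq (fun n => measure_ne_top P _), hsum, ENNReal.toReal_one]
    rw [h3] at h2
    exact h2
  have h2 : (fun n => (P (E n)).toReal) = fun n : ℕ => K0 C (n + 1) 0 := by
    funext n
    exact K0_eq_prob P C S hS (n + 1) (Nat.succ_pos n)
  rw [← h2]
  exact h1

namespace Model

variable (M : Model)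

/-- For a recurrent chain the free energy at `h = 0` is positive. -/
lemma Fr_zero_pos_of_rec (hnl : ∀ x, M.C.p x x = 0) (hsum : HasSum (fun n : ℕ => K0 M.C (n + 1) 0) 1) :
    0 < M.Fr 0 := by
  obtain ⟨L₁, hL₁e, hL₁1, hL₁K, hgain⟩ := exc_gain M
  set g := ∫ ω, Real.log (Gk M.C (M.W 0) {0} L₁ ω 0 0) ∂seqLaw M.μ with hg
  set k : ℕ → ℝ := fun L => if L = L₁ then Real.exp g else K0 M.C L 0 with hk
  have hKn : ∀ n x, 0 ≤ K0 M.C n x := Mark.K0_nonneg'
  have hk0 : ∀ L, 0 ≤ k L := by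
    intro L
    rw [hk]; dsimp only
    split_ifs
    · exact (Real.exp_pos _).le
    · exact hKn _ _
  have hodd : ∀ L, ¬ Even L → k L = 0 := by
    intro L hL
    rw [hk]; dsimp only
    rw [if_neg (fun h : L = L₁ => hL (h.symm ▸ hL₁e))]
    apply K0_parity hnl
    rw [add_zero, Int.even_coe_nat]
    exact hL
  have hkgt : K0 M.C L₁ 0 < k L₁ := by
    rw [hk]; dsimp only
    rw [if_pos rfl]
    calc K0 M.C L₁ 0 = Real.exp (Real.log (K0 M.C L₁ 0)) := (Real.exp_log hL₁K).symm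
      _ < Real.exp g := Real.exp_lt_exp.2 hgain
  have hkge : ∀ L, K0 M.C L 0 ≤ k L := by
    intro L
    by_cases h : L = L₁
    · rw [h]; exact hkgt.le
    · rw [hk]; dsimp only; rw [if_neg h]
  -- total mass larger than one
  have hS : ∃ L₀ : ℕ, 1 < ∑ L ∈ Finset.Ioc 0 L₀, k L := by
    have h1 := hsum.tendsto_sum_nat
    set d := k L₁ - K0 M.C L₁ 0 with hd
    have hd0 : 0 < d := by rw [hd]; linarith
    have h2 : ∀ᶠ n : ℕ in atTop, 1 - d < ∑ i ∈ Finset.range n, K0 M.C (i + 1) 0 :=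
      h1.eventually (lt_mem_nhds (by linarith))
    obtain ⟨n, hn1, hn2⟩ := (h2.and (eventually_ge_atTop L₁)).exists
    refine ⟨n, ?_⟩
    have h3 : ∑ i ∈ Finset.range n, K0 M.C (i + 1) 0 = ∑ L ∈ Finset.Ioc 0 n, K0 M.C L 0 := by
      rw [Finset.range_eq_Ico, Finset.sum_Ico_add' (fun L => K0 M.C L 0)]
      congr 1
    rw [h3] at hn1
    have hmem : L₁ ∈ Finset.Ioc 0 n := Finset.mem_Ioc.2 ⟨hL₁1, hn2⟩
    have h4 : ∑ L ∈ Finset.Ioc 0 n, K0 M.C L 0 + d ≤ ∑ L ∈ Finset.Ioc 0 n, k L := by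
      rw [← Finset.add_sum_erase _ _ hmem, ← Finset.add_sum_erase (Finset.Ioc 0 n) k hmem]
      have h5 : ∑ L ∈ (Finset.Ioc 0 n).erase L₁, K0 M.C L 0 ≤ ∑ L ∈ (Finset.Ioc 0 n).erase L₁, k L :=
        Finset.sum_le_sum fun L _ => hkge L
      rw [hd]
      linarith
    linarith
  obtain ⟨N, hNe, hN1, hN⟩ := Uh_growth k hk0 hodd hS
  have hjen := renewal_jensen M k hk0 (fun L hL hkL => by
    by_cases h : L = L₁
    · rw [h]
      refine ⟨(exc_mean M hL₁1 hL₁K).1, ?_⟩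
      rw [hk]; dsimp only
      rw [if_pos rfl, Real.log_exp]
    · rw [hk] at hkL ⊢
      dsimp only at hkL ⊢
      rw [if_neg h] at hkL ⊢
      exact exc_mean M hL hkL) N (one_pos.trans hN)
  have h1 : 0 < M.Ψ 0 N := (Real.log_pos hN).trans_le hjen.2
  have h2 := M.Ψ_le_Fr 0 hNe
  have hN0 : (0 : ℝ) < N := by exact_mod_cast hN1
  exact (mul_pos_iff_of_pos_left hN0).1 (h1.trans_le h2)

end Model

/-- Escape exponent of Bessel-like chains. -/
theorem escape_bessel (C : Chain) (hnl : ∀ x, C.p x x = 0) {φ : ℤ → ℝ} {c θ κ : ℝ} (hc : 0 < c)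
    (h0 : 0 < θ) (h1 : θ < 2) (hφ0 : ∀ x, 0 ≤ φ x)
    (hφ : ∀ x : ℤ, φ x ≤ c * (1 + |(x : ℝ)|) ^ (-θ))
    (hdrift : ∀ x : ℤ, |C.p x (x + 1) - C.p x (x - 1)| ≤ κ / (1 + |(x : ℝ)|)) :
    Escape C φ ((2 - θ) / (2 + θ)) := by
  set ξ := (2 - θ) / (2 + θ) with hξ
  have hξ0 : 0 < ξ := div_pos (by linarith) (by linarith)
  have hξ1 : ξ ≤ 1 := by rw [hξ, div_le_one (by linarith)]; linarith
  obtain ⟨A₁, hA₁, hZf⟩ := Zf_escape C hnl hc h0 h1 hφ0 hφ hdrift (η := 1) one_pos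
  obtain ⟨A₂, hA₂, hZk⟩ := point_of_free C hnl hφ0 hdrift (η := 1) one_pos
  refine ⟨1, one_pos, 2 * A₁ + |Real.log A₂| + A₂ / ξ, by positivity, fun n hn => ?_⟩
  obtain ⟨m, hm⟩ := hn
  have hm2 : n = 2 * m := by omega
  rw [hm2]
  refine le_trans ?_ (hZk m)
  have hm0 : (0 : ℝ) ≤ m := Nat.cast_nonneg m
  have h2 : Real.exp (-(2 * (A₁ * ((m : ℝ) ^ ξ + 1)))) ≤ (Zf C (Wdet 1 φ) m (fun _ => 0) 0) ^ 2 := by
    have h3 := pow_le_pow_left₀ (Real.exp_pos _).le (hZf m) 2
    rw [← Real.exp_nat_mul] at h3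
    refine le_trans (le_of_eq ?_) h3
    congr 1
    push_cast
    ring
  rw [le_div_iff₀ (by positivity)]
  refine le_trans ?_ h2
  have h4 : A₂ * ((m : ℝ) + 1) ^ A₂ = Real.exp (Real.log A₂ + A₂ * Real.log (m + 1)) := by
    rw [Real.exp_add, Real.exp_log hA₂, mul_comm A₂ (Real.log _), Real.exp_mul,
      Real.exp_log (by positivity)]
  rw [h4, ← Real.exp_add]
  apply Real.exp_le_exp.2
  have h5 : Real.log ((m : ℝ) + 1) ≤ ((m : ℝ) ^ ξ + 1) / ξ := by
    refine (Real.log_le_rpow_div (by positivity) hξ0).trans ?_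
    apply div_le_div_of_nonneg_right _ hξ0.le
    have := Real.rpow_add_le_add_rpow hm0 zero_le_one hξ0.le hξ1
    rwa [Real.one_rpow] at this
  have h6 : (m : ℝ) ^ ξ ≤ (((2 * m : ℕ) : ℝ)) ^ ξ := by
    apply Real.rpow_le_rpow hm0 _ hξ0.le
    push_cast
    linarith
  set X := (((2 * m : ℕ) : ℝ)) ^ ξ + 1 with hX
  have hX1 : 1 ≤ X := by
    rw [hX]
    have : 0 ≤ (((2 * m : ℕ) : ℝ)) ^ ξ := by positivity
    linarith
  have h7 : (m : ℝ) ^ ξ + 1 ≤ X := by rw [hX]; linarith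
  have h8 : A₂ * Real.log ((m : ℝ) + 1) ≤ A₂ / ξ * X := by
    calc A₂ * Real.log ((m : ℝ) + 1) ≤ A₂ * (((m : ℝ) ^ ξ + 1) / ξ) :=
          mul_le_mul_of_nonneg_left h5 hA₂.le
      _ = A₂ / ξ * ((m : ℝ) ^ ξ + 1) := by ring
      _ ≤ _ := mul_le_mul_of_nonneg_left h7 (by positivity)
  have h9 : Real.log A₂ ≤ |Real.log A₂| * X :=
    (le_abs_self _).trans (le_mul_of_one_le_right (abs_nonneg _) hX1)
  have h10 : 2 * (A₁ * ((m : ℝ) ^ ξ + 1)) ≤ 2 * A₁ * X := by
    have := mul_le_mul_of_nonneg_left h7 (by positivity : 0 ≤ 2 * A₁)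
    linarith
  have h11 : (2 * A₁ + |Real.log A₂| + A₂ / ξ) * X = 2 * A₁ * X + |Real.log A₂| * X + A₂ / ξ * X := by
    ring
  rw [h11]
  linarith

namespace Mark

variable {C : Chain}

/-- The weights for the point to point partition function. -/
def wZ (W : ℤ → ℝ) (n : ℕ) : ℕ → ℤ → ℝ≥0∞ := fun i z =>
  if i + 1 = n ∧ z ≠ 0 then 0 else ENNReal.ofReal (W z)

lemma wZ_succ (W : ℤ → ℝ) (n : ℕ) : (fun i => wZ W (n + 1) (i + 1)) = wZ W n := by
  funext i z
  simp only [wZ]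
  have : i + 1 + 1 = n + 1 ↔ i + 1 = n := by omega
  simp only [this]

lemma Zk_nn {W : ℝ → ℤ → ℝ} (hW : ∀ a z, 0 ≤ W a z) : ∀ (N : ℕ) (ω : ℕ → ℝ) (x y : ℤ),
    0 ≤ Zk C W N ω x y
  | 0, _, _, _ => by simp only [Zk]; split_ifs <;> norm_num
  | N + 1, ω, x, y => Finset.sum_nonneg fun z _ =>
      mul_nonneg (mul_nonneg (C.nonneg _ _) (hW _ _)) (Zk_nn hW N _ _ _)

lemma Tw_eq_Zk {W : ℝ → ℤ → ℝ} (hW : ∀ a z, 0 ≤ W a z) (hWc : ∀ a b z, W a z = W b z) :
    ∀ (N : ℕ), 1 ≤ N → ∀ (ω : ℕ → ℝ) (x : ℤ),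
    Tw C N (wZ (W 0) N) x = ENNReal.ofReal (Zk C W N ω x 0)
  | 0, h, _, _ => absurd h (by norm_num)
  | 1, _, ω, x => by
      rw [Tw, Zk, ENNReal.ofReal_sum_of_nonneg]
      · apply Finset.sum_congr rfl
        intro z _
        simp only [wZ, Tw, mul_one, Zk]
        by_cases hz : z = 0
        · simp only [hz, ne_eq, not_true_eq_false, and_false, if_false, if_true, mul_one]
          rw [ENNReal.ofReal_mul (C.nonneg _ _), hWc (ω 0) 0]
        · simp [hz]
      · intro z _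
        exact mul_nonneg (mul_nonneg (C.nonneg _ _) (hW _ _)) (Zk_nn hW 0 _ _ _)
  | N + 2, _, ω, x => by
      rw [Tw, Zk, wZ_succ, ENNReal.ofReal_sum_of_nonneg]
      · apply Finset.sum_congr rfl
        intro z _
        rw [ENNReal.ofReal_mul (mul_nonneg (C.nonneg _ _) (hW _ _)), ENNReal.ofReal_mul (C.nonneg _ _),
          ← Tw_eq_Zk hW hWc (N + 1) (by omega) (shift 1 ω) z]
        have : wZ (W 0) (N + 1 + 1) 0 z = ENNReal.ofReal (W (ω 0) z) := by
          rw [wZ, if_neg (by omega), hWc (ω 0) 0]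
        rw [this]
      · intro z _
        exact mul_nonneg (mul_nonneg (C.nonneg _ _) (hW _ _)) (Zk_nn hW _ _ _ _)

end Mark

open Mark in
theorem Zk_det_eq_integral {Ω : Type*} [MeasurableSpace Ω] (P : Measure Ω) [IsProbabilityMeasure P]
    (C : Chain) (S : ℕ → Ω → ℤ) (hS : IsChain P C.p S) (φ : ℤ → ℝ) (η : ℝ) {N : ℕ} (hN : 1 ≤ N) :
    ∫ w in {w | S N w = 0}, Real.exp (-η * ∑ i ∈ Finset.range N, φ (S (i + 1) w)) ∂P =
      Zk C (Wdet η φ) N (fun _ => 0) 0 0 := by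
  have hW : ∀ (a : ℝ) (z : ℤ), 0 ≤ Wdet η φ a z := fun a z => (Real.exp_pos _).le
  have hmeas : MeasurableSet {w | S N w = 0} := hS.1 N (measurableSet_singleton 0)
  rw [integral_eq_lintegral_of_nonneg_ae (ae_of_all _ fun w => (Real.exp_pos _).le)]
  · rw [← lintegral_indicator hmeas]
    have h1 : ∀ w, ({w | S N w = 0} : Set Ω).indicator
        (fun w => ENNReal.ofReal (Real.exp (-η * ∑ i ∈ Finset.range N, φ (S (i + 1) w)))) w =
        ∏ i ∈ Finset.range N, wZ (Wdet η φ 0) N i (S (i + 1) w) := by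
      intro w
      by_cases hw : S N w = 0
      · rw [Set.indicator_of_mem (show w ∈ {w | S N w = 0} from hw)]
        rw [Finset.mul_sum, Real.exp_sum, ENNReal.ofReal_prod_of_nonneg fun i _ => (Real.exp_pos _).le]
        apply Finset.prod_congr rfl
        intro i hi
        simp only [wZ, Wdet]
        rw [if_neg]
        rintro ⟨h1, h2⟩
        apply h2
        rw [h1]; exact hw
      · rw [Set.indicator_of_notMem (show w ∉ {w | S N w = 0} from hw)]
        symm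
        apply Finset.prod_eq_zero (i := N - 1) (Finset.mem_range.2 (by omega))
        simp only [wZ]
        rw [show N - 1 + 1 = N by omega, if_pos ⟨rfl, hw⟩]
    rw [lintegral_congr h1, lintegral_prod_eq hS N, Tw_eq_Zk hW (fun _ _ _ => rfl) N hN (fun _ => 0) 0,
      ENNReal.toReal_ofReal (Zk_nn hW N _ _ _)]
  · apply Measurable.aestronglyMeasurable
    apply Real.measurable_exp.comp
    apply Measurable.const_mul
    apply Finset.measurable_sum
    intro i _
    exact (measurable_of_countable φ).comp (hS.1 (i + 1))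

end

end MP_daa227_pr
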