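import Pool.Agent.Lib.MP_daa227_pr.HcPos

/-!
# Positivity of the critical point for recurrent chains, without the parity assumption
-/

open MeasureTheory ProbabilityTheory Set Filter
open scoped ENNReal Topology

namespace MP_daa227_pr

noncomputable section

/-- The renewal function is supermultiplicative. -/
lemma Uh_mul {k : ℕ → ℝ} (hk0 : ∀ L, 0 ≤ k L) (a b : ℕ) : Uh k a * Uh k b ≤ Uh k (a + b) := by
  induction a using Nat.strong_induction_on with
  | _ a ih =>
    rcases Nat.eq_zero_or_pos a with rfl | ha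
    · rw [Uh_zero, one_mul, Nat.zero_add]
    · rw [Uh_pos_eq k ha.ne', Uh_pos_eq k (n := a + b) (by omega), Finset.sum_mul]
      calc ∑ L ∈ Finset.Ioc 0 a, k L * Uh k (a - L) * Uh k b
          ≤ ∑ L ∈ Finset.Ioc 0 a, k L * Uh k (a + b - L) := by
            refine Finset.sum_le_sum fun L hL => ?_
            rw [Finset.mem_Ioc] at hL
            rw [mul_assoc]
            refine mul_le_mul_of_nonneg_left ?_ (hk0 L)
            have := ih (a - L) (by omega)
            rw [show a - L + b = a + b - L by omega] at this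
            exact this
        _ ≤ _ := by
            refine Finset.sum_le_sum_of_subset_of_nonneg ?_ fun L _ _ =>
              mul_nonneg (hk0 L) (HcA.Uh_nonneg hk0 _)
            intro L hL
            rw [Finset.mem_Ioc] at hL ⊢
            omega

/-- Growth of the renewal function at some even time. -/
theorem Uh_growth' (k : ℕ → ℝ) (hk0 : ∀ L, 0 ≤ k L)
    (hS : ∃ L₀ : ℕ, 1 < ∑ L ∈ Finset.Ioc 0 L₀, k L) : ∃ N : ℕ, Even N ∧ 1 ≤ N ∧ 1 < Uh k N := by
  obtain ⟨L₀, hL₀⟩ := hS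
  have key : ∃ N : ℕ, 1 ≤ N ∧ 1 < Uh k N := by
    by_contra hcon
    push Not at hcon
    set S := ∑ L ∈ Finset.Ioc 0 L₀, k L with hSdef
    have hU : ∀ N, Uh k N ≤ 1 := by
      intro N
      rcases Nat.eq_zero_or_pos N with rfl | hN
      · rw [Uh_zero]
      · exact hcon N hN
    have hT : ∀ m : ℕ, S ^ m ≤ ∑ N ∈ Finset.range (m * L₀ + 1), Uh k N := by
      intro m
      induction m with
      | zero => simp [Uh_zero]
      | succ m ih =>
        refine le_trans ?_ (HcA.step hk0 L₀ m)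
        rw [pow_succ, mul_comm]
        exact mul_le_mul_of_nonneg_left ih (by linarith)
    have hT' : ∀ m : ℕ, S ^ m ≤ 1 + m * L₀ := by
      intro m
      refine (hT m).trans ?_
      calc ∑ N ∈ Finset.range (m * L₀ + 1), Uh k N ≤ ∑ N ∈ Finset.range (m * L₀ + 1), (1 : ℝ) :=
            Finset.sum_le_sum fun N _ => hU N
        _ = 1 + m * L₀ := by
            rw [Finset.sum_const, Finset.card_range, nsmul_eq_mul]
            push_cast
            ring
    have hlim : Tendsto (fun m : ℕ => (1 + (m : ℝ) * L₀) / S ^ m) atTop (𝓝 0) := by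
      have h1 := tendsto_pow_const_div_const_pow_of_one_lt 0 hL₀
      have h2 := (tendsto_pow_const_div_const_pow_of_one_lt 1 hL₀).const_mul (L₀ : ℝ)
      have h3 := h1.add h2
      simp only [mul_zero, add_zero] at h3
      refine h3.congr fun m => ?_
      rw [pow_zero, pow_one]
      ring
    obtain ⟨m, hm⟩ := (hlim.eventually (gt_mem_nhds (zero_lt_one))).exists
    have hpos : 0 < S ^ m := pow_pos (by linarith) m
    rw [div_lt_one hpos] at hm
    exact absurd (hT' m) (not_le.mpr hm)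
  obtain ⟨N, hN1, hN⟩ := key
  refine ⟨N + N, ⟨N, rfl⟩, by omega, lt_of_lt_of_le ?_ (Uh_mul hk0 N N)⟩
  nlinarith

namespace Model

variable (M : Model)

/-- For a recurrent chain the free energy at `h = 0` is positive. -/
lemma Fr_zero_pos_of_rec' (hsum : HasSum (fun n : ℕ => K0 M.C (n + 1) 0) 1) : 0 < M.Fr 0 := by
  obtain ⟨L₁, hL₁e, hL₁1, hL₁K, hgain⟩ := exc_gain M
  set g := ∫ ω, Real.log (Gk M.C (M.W 0) {0} L₁ ω 0 0) ∂seqLaw M.μ with hg
  set k : ℕ → ℝ := fun L => if L = L₁ then Real.exp g else K0 M.C L 0 with hk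
  have hKn : ∀ n x, 0 ≤ K0 M.C n x := Mark.K0_nonneg'
  have hk0 : ∀ L, 0 ≤ k L := by
    intro L
    rw [hk]; dsimp only
    split_ifs
    · exact (Real.exp_pos _).le
    · exact hKn _ _
  have hkgt : K0 M.C L₁ 0 < k L₁ := by
    rw [hk]; dsimp only
    rw [if_pos rfl]
    calc K0 M.C L₁ 0 = Real.exp (Real.log (K0 M.C L₁ 0)) := (Real.exp_log hL₁K).symm
      _ < Real.exp g := Real.exp_lt_exp.2 hgain
  have hkge : ∀ L, K0 M.C L 0 ≤ k L := by
    intro L
    by_cases h : L = L₁
    · rw [h]; exact hkgt.le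
    · rw [hk]; dsimp only; rw [if_neg h]
  -- total mass larger than one
  have hS : ∃ L₀ : ℕ, 1 < ∑ L ∈ Finset.Ioc 0 L₀, k L := by
    have h1 := hsum.tendsto_sum_nat
    set d := k L₁ - K0 M.C L₁ 0 with hd
    have hd0 : 0 < d := by rw [hd]; linarith
    have h2 : ∀ᶠ n : ℕ in atTop, 1 - d < ∑ i ∈ Finset.range n, K0 M.C (i + 1) 0 :=
      h1.eventually (lt_mem_nhds (by linarith))
    obtain ⟨n, hn1, hn2⟩ := (h2.and (eventually_ge_atTop L₁)).exists
    refine ⟨n, ?_⟩
    have h3 : ∑ i ∈ Finset.range n, K0 M.C (i + 1) 0 = ∑ L ∈ Finset.Ioc 0 n, K0 M.C L 0 := by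
      rw [Finset.range_eq_Ico, Finset.sum_Ico_add' (fun L => K0 M.C L 0)]
      congr 1
    rw [h3] at hn1
    have hmem : L₁ ∈ Finset.Ioc 0 n := Finset.mem_Ioc.2 ⟨hL₁1, hn2⟩
    have h4 : ∑ L ∈ Finset.Ioc 0 n, K0 M.C L 0 + d ≤ ∑ L ∈ Finset.Ioc 0 n, k L := by
      rw [← Finset.add_sum_erase _ _ hmem, ← Finset.add_sum_erase (Finset.Ioc 0 n) k hmem]
      have h5 : ∑ L ∈ (Finset.Ioc 0 n).erase L₁, K0 M.C L 0 ≤ ∑ L ∈ (Finset.Ioc 0 n).erase L₁, k L :=
        Finset.sum_le_sum fun L _ => hkge L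
      rw [hd]
      linarith
    linarith
  obtain ⟨N, hNe, hN1, hN⟩ := Uh_growth' k hk0 hS
  have hjen := renewal_jensen M k hk0 (fun L hL hkL => by
    by_cases h : L = L₁
    · rw [h]
      refine ⟨(exc_mean M hL₁1 hL₁K).1, ?_⟩
      rw [hk]; dsimp only
      rw [if_pos rfl, Real.log_exp]
    · rw [hk] at hkL ⊢
      dsimp only at hkL ⊢
      rw [if_neg h] at hkL ⊢
      exact exc_mean M hL hkL) N (one_pos.trans hN)
  have h1 : 0 < M.Ψ 0 N := (Real.log_pos hN).trans_le hjen.2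
  have h2 := M.Ψ_le_Fr 0 hNe
  have hN0 : (0 : ℝ) < N := by exact_mod_cast hN1
  exact (mul_pos_iff_of_pos_left hN0).1 (h1.trans_le h2)

end Model

end

end MP_daa227_pr
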