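import Pool.Agent.Lib.MP_daa227_pr.Kernel

/-!
# Hoelder inequality, tilting and monotonicity for renewal partition functions
-/

open MeasureTheory ProbabilityTheory Set Filter
open scoped ENNReal

namespace MP_daa227_pr

noncomputable section

/-- Generalised Hoelder inequality for finite sums. -/
theorem hold_sum {ι κ : Type*} (s : Finset ι) (T : Finset κ) (lam : ι → ℝ)
    (hlam : ∀ i ∈ s, 0 < lam i) (hsum : ∑ i ∈ s, lam i = 1) (a : ι → κ → ℝ)
    (ha : ∀ i ∈ s, ∀ k ∈ T, 0 ≤ a i k) :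
    ∑ k ∈ T, ∏ i ∈ s, a i k ^ lam i ≤ ∏ i ∈ s, (∑ k ∈ T, a i k) ^ lam i := by
  have hA : ∀ i ∈ s, 0 ≤ ∑ k ∈ T, a i k := fun i hi => Finset.sum_nonneg (ha i hi)
  by_cases h0 : ∃ i ∈ s, ∑ k ∈ T, a i k = 0
  · obtain ⟨i, hi, h0⟩ := h0
    have h1 : ∀ k ∈ T, a i k = 0 := (Finset.sum_eq_zero_iff_of_nonneg (ha i hi)).1 h0
    have h2 : ∑ k ∈ T, ∏ i ∈ s, a i k ^ lam i = 0 := by
      apply Finset.sum_eq_zero
      intro k hk
      apply Finset.prod_eq_zero hi
      rw [h1 k hk, Real.zero_rpow (hlam i hi).ne']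
    rw [h2]
    exact Finset.prod_nonneg fun j hj => Real.rpow_nonneg (hA j hj) _
  · push Not at h0
    have hpos : ∀ i ∈ s, 0 < ∑ k ∈ T, a i k := fun i hi => lt_of_le_of_ne (hA i hi) (h0 i hi).symm
    have h1 : ∀ k ∈ T, ∏ i ∈ s, a i k ^ lam i ≤
        (∏ i ∈ s, (∑ k ∈ T, a i k) ^ lam i) * ∑ i ∈ s, lam i * (a i k / ∑ k ∈ T, a i k) := by
      intro k hk
      have h2 := Real.geom_mean_le_arith_mean_weighted s lam (fun i => a i k / ∑ k ∈ T, a i k)
        (fun i hi => (hlam i hi).le) hsum (fun i hi => div_nonneg (ha i hi k hk) (hA i hi))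
      have h3 : ∏ i ∈ s, a i k ^ lam i = (∏ i ∈ s, (∑ k ∈ T, a i k) ^ lam i) *
          ∏ i ∈ s, (a i k / ∑ k ∈ T, a i k) ^ lam i := by
        rw [← Finset.prod_mul_distrib]
        apply Finset.prod_congr rfl
        intro i hi
        rw [← Real.mul_rpow (hA i hi) (div_nonneg (ha i hi k hk) (hA i hi)),
          mul_div_cancel₀ _ (hpos i hi).ne']
      rw [h3]
      exact mul_le_mul_of_nonneg_left h2
        (Finset.prod_nonneg fun j hj => Real.rpow_nonneg (hA j hj) _)
    refine (Finset.sum_le_sum h1).trans ?_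
    rw [← Finset.mul_sum, Finset.sum_comm]
    have h4 : ∑ i ∈ s, ∑ k ∈ T, lam i * (a i k / ∑ k ∈ T, a i k) = 1 := by
      rw [← hsum]
      apply Finset.sum_congr rfl
      intro i hi
      rw [← Finset.mul_sum, ← Finset.sum_div, div_self (hpos i hi).ne', mul_one]
    rw [h4, mul_one]

theorem Ren_nonneg (G : ℕ → (ℕ → ℝ) → ℤ → ℤ → ℝ) (B : Finset ℤ)
    (hG : ∀ L ω x y, 0 ≤ G L ω x y) :
    ∀ (n : ℕ) (ω : ℕ → ℝ) (x y : ℤ), 0 ≤ Ren G B n ω x y := by
  intro n
  induction n using Nat.strong_induction_on with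
  | _ n ih =>
    intro ω x y
    rcases Nat.eq_zero_or_pos n with hn | hn
    · subst hn
      rw [Ren_zero]
      split_ifs <;> norm_num
    · rw [Ren_pos_eq B G hn.ne']
      refine Finset.sum_nonneg fun L hL => Finset.sum_nonneg fun z _ => ?_
      rw [Finset.mem_Ioc] at hL
      exact mul_nonneg (hG _ _ _ _) (ih (n - L) (by omega) _ _ _)

theorem Ren_holder {ι : Type*} (s : Finset ι) (lam : ι → ℝ) (hlam : ∀ i ∈ s, 0 < lam i)
    (hsum : ∑ i ∈ s, lam i = 1) (g : ι → ℕ → ℝ) (G : ℕ → (ℕ → ℝ) → ℤ → ℤ → ℝ) (B : Finset ℤ)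
    (hG : ∀ L ω x y, 0 ≤ G L ω x y) :
    ∀ (n : ℕ) (ω : ℕ → ℝ) (x y : ℤ), (∀ L ∈ Finset.Ioc 0 n, 0 ≤ ∑ i ∈ s, lam i * g i L) →
      Ren G B n ω x y ≤
        ∏ i ∈ s, (Ren (fun L ω x y => Real.exp (g i L) * G L ω x y) B n ω x y) ^ lam i := by
  intro n
  induction n using Nat.strong_induction_on with
  | _ n ih =>
    intro ω x y hg
    have hR : ∀ (i : ι) (m : ℕ) (ω : ℕ → ℝ) (x y : ℤ),
        0 ≤ Ren (fun L ω x y => Real.exp (g i L) * G L ω x y) B m ω x y := fun i =>
      Ren_nonneg _ B fun L ω x y => mul_nonneg (Real.exp_pos _).le (hG L ω x y)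
    rcases Nat.eq_zero_or_pos n with hn | hn
    · subst hn
      by_cases hxy : x = y
      · subst hxy
        rw [Ren_zero, if_pos rfl]
        apply le_of_eq
        symm
        apply Finset.prod_eq_one
        intro i _
        rw [Ren_zero, if_pos rfl, Real.one_rpow]
      · rw [Ren_zero, if_neg hxy]
        exact Finset.prod_nonneg fun i _ => Real.rpow_nonneg (hR i _ _ _ _) _
    · rw [Ren_pos_eq B G hn.ne', ← Finset.sum_product']
      have h1 : ∀ q ∈ Finset.Ioc 0 n ×ˢ B, G q.1 ω x q.2 * Ren G B (n - q.1) (shift q.1 ω) q.2 y ≤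
          ∏ i ∈ s, (Real.exp (g i q.1) * G q.1 ω x q.2 *
            Ren (fun L ω x y => Real.exp (g i L) * G L ω x y) B (n - q.1) (shift q.1 ω) q.2 y) ^
              lam i := by
        rintro ⟨L, z⟩ hq
        rw [Finset.mem_product] at hq
        obtain ⟨hL, hz⟩ := hq
        dsimp only at hL hz ⊢
        have hL' := Finset.mem_Ioc.1 hL
        have h2 := ih (n - L) (by omega) (shift L ω) z y (fun L' hL' => hg L' (by
          rw [Finset.mem_Ioc] at hL' ⊢
          omega))
        have h3 : G L ω x z ≤ ∏ i ∈ s, (Real.exp (g i L) * G L ω x z) ^ lam i := by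
          have h4 : ∏ i ∈ s, (Real.exp (g i L) * G L ω x z) ^ lam i =
              Real.exp (∑ i ∈ s, lam i * g i L) * G L ω x z := by
            have h5 : ∀ i ∈ s, (Real.exp (g i L) * G L ω x z) ^ lam i =
                Real.exp (lam i * g i L) * (G L ω x z) ^ lam i := by
              intro i _
              rw [Real.mul_rpow (Real.exp_pos _).le (hG _ _ _ _), ← Real.exp_mul, mul_comm (g i L)]
            rw [Finset.prod_congr rfl h5, Finset.prod_mul_distrib, ← Real.exp_sum,
              ← Real.rpow_sum_of_nonneg (hG _ _ _ _) (fun i hi => (hlam i hi).le), hsum,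
              Real.rpow_one]
          rw [h4]
          have h6 : 1 ≤ Real.exp (∑ i ∈ s, lam i * g i L) := Real.one_le_exp (hg L hL)
          exact le_mul_of_one_le_left (hG _ _ _ _) h6
        have h7 : ∀ i ∈ s, (Real.exp (g i L) * G L ω x z *
            Ren (fun L ω x y => Real.exp (g i L) * G L ω x y) B (n - L) (shift L ω) z y) ^ lam i =
            (Real.exp (g i L) * G L ω x z) ^ lam i *
              (Ren (fun L ω x y => Real.exp (g i L) * G L ω x y) B (n - L) (shift L ω) z y) ^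
                lam i := by
          intro i _
          rw [Real.mul_rpow (mul_nonneg (Real.exp_pos _).le (hG _ _ _ _)) (hR i _ _ _ _)]
        rw [Finset.prod_congr rfl h7, Finset.prod_mul_distrib]
        exact mul_le_mul h3 h2 (Ren_nonneg G B hG _ _ _ _)
          (Finset.prod_nonneg fun i _ => Real.rpow_nonneg
            (mul_nonneg (Real.exp_pos _).le (hG _ _ _ _)) _)
      refine (Finset.sum_le_sum h1).trans ?_
      refine (hold_sum s (Finset.Ioc 0 n ×ˢ B) lam hlam hsum
        (fun i q => Real.exp (g i q.1) * G q.1 ω x q.2 *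
            Ren (fun L ω x y => Real.exp (g i L) * G L ω x y) B (n - q.1) (shift q.1 ω) q.2 y)
        (fun i _ q _ => mul_nonneg (mul_nonneg (Real.exp_pos _).le (hG _ _ _ _))
          (hR i _ _ _ _))).trans (le_of_eq ?_)
      apply Finset.prod_congr rfl
      intro i _
      rw [Ren_pos_eq B (fun L ω x y => Real.exp (g i L) * G L ω x y) hn.ne', ← Finset.sum_product']

theorem Ren_tilt (G : ℕ → (ℕ → ℝ) → ℤ → ℤ → ℝ) (B : Finset ℤ) (c : ℝ) (g : ℕ → ℝ) :
    ∀ (n : ℕ) (ω : ℕ → ℝ) (x y : ℤ),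
      Ren (fun L ω x y => Real.exp (g L - c * L) * G L ω x y) B n ω x y =
        Real.exp (-c * n) * Ren (fun L ω x y => Real.exp (g L) * G L ω x y) B n ω x y := by
  intro n
  induction n using Nat.strong_induction_on with
  | _ n ih =>
    intro ω x y
    rcases Nat.eq_zero_or_pos n with hn | hn
    · subst hn
      rw [Ren_zero, Ren_zero]
      simp
    · rw [Ren_pos_eq B _ hn.ne', Ren_pos_eq B _ hn.ne', Finset.mul_sum]
      apply Finset.sum_congr rfl
      intro L hL
      rw [Finset.mem_Ioc] at hL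
      rw [Finset.mul_sum]
      apply Finset.sum_congr rfl
      intro z _
      rw [ih (n - L) (by omega)]
      have h1 : Real.exp (g L - c * L) * Real.exp (-c * ((n - L : ℕ) : ℝ)) =
          Real.exp (-c * n) * Real.exp (g L) := by
        rw [← Real.exp_add, ← Real.exp_add]
        congr 1
        rw [Nat.cast_sub hL.2]
        ring
      linear_combination (G L ω x z * Ren (fun L ω x y => Real.exp (g L) * G L ω x y) B (n - L)
        (shift L ω) z y) * h1

theorem Ren_mono (G G' : ℕ → (ℕ → ℝ) → ℤ → ℤ → ℝ) (B : Finset ℤ) :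
    ∀ (n : ℕ), (∀ L ∈ Finset.Ioc 0 n, ∀ ω x y, y ∈ B → 0 ≤ G L ω x y ∧ G L ω x y ≤ G' L ω x y) →
      ∀ (ω : ℕ → ℝ) (x y : ℤ), 0 ≤ Ren G B n ω x y ∧ Ren G B n ω x y ≤ Ren G' B n ω x y := by
  intro n
  induction n using Nat.strong_induction_on with
  | _ n ih =>
    intro h ω x y
    rcases Nat.eq_zero_or_pos n with hn | hn
    · subst hn
      rw [Ren_zero, Ren_zero]
      refine ⟨?_, le_rfl⟩
      split_ifs <;> norm_num
    · rw [Ren_pos_eq B _ hn.ne', Ren_pos_eq B _ hn.ne']
      have key : ∀ L ∈ Finset.Ioc 0 n, ∀ z ∈ B,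
          0 ≤ G L ω x z * Ren G B (n - L) (shift L ω) z y ∧
          G L ω x z * Ren G B (n - L) (shift L ω) z y ≤
            G' L ω x z * Ren G' B (n - L) (shift L ω) z y := by
        intro L hL z hz
        have hL' := Finset.mem_Ioc.1 hL
        obtain ⟨h1, h2⟩ := h L hL ω x z hz
        obtain ⟨h3, h4⟩ := ih (n - L) (by omega) (fun L' hL'' => h L' (by
          rw [Finset.mem_Ioc] at hL'' ⊢
          omega)) (shift L ω) z y
        exact ⟨mul_nonneg h1 h3, mul_le_mul h2 h4 h3 (h1.trans h2)⟩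
      exact ⟨Finset.sum_nonneg fun L hL => Finset.sum_nonneg fun z hz => (key L hL z hz).1,
        Finset.sum_le_sum fun L hL => Finset.sum_le_sum fun z hz => (key L hL z hz).2⟩

end

end MP_daa227_pr
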