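import Pool.Agent.Lib.MP_daa227_pr.Conc

/-!
# Transfer kernels of the polymer and their renewal structure
-/

open MeasureTheory ProbabilityTheory Set Filter
open scoped ENNReal

namespace MP_daa227_pr

noncomputable section

/-- A nearest-neighbour Markov chain on `ℤ` (steps `-1`, `0`, `1`), irreducible. -/
structure Chain where
  /-- transition probabilities -/
  p : ℤ → ℤ → ℝ
  nonneg : ∀ x y, 0 ≤ p x y
  near : ∀ x y, y ∉ Finset.Icc (x - 1) (x + 1) → p x y = 0
  sum_one : ∀ x, ∑ y ∈ Finset.Icc (x - 1) (x + 1), p x y = 1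
  up : ∀ x, 0 < p x (x + 1)
  down : ∀ x, 0 < p x (x - 1)

variable (C : Chain) (W : ℝ → ℤ → ℝ) (B : Finset ℤ)

/-- Point-to-point partition function over `n` steps. -/
def Zk : ℕ → (ℕ → ℝ) → ℤ → ℤ → ℝ
  | 0, _, x, y => if x = y then 1 else 0
  | n + 1, ω, x, y => ∑ z ∈ Finset.Icc (x - 1) (x + 1), C.p x z * W (ω 0) z * Zk n (shift 1 ω) z y

/-- Point-to-line partition function over `n` steps. -/
def Zf : ℕ → (ℕ → ℝ) → ℤ → ℝ
  | 0, _, _ => 1
  | n + 1, ω, x => ∑ z ∈ Finset.Icc (x - 1) (x + 1), C.p x z * W (ω 0) z * Zf n (shift 1 ω) z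

/-- Weight of paths of length `n` from `x` to `y` avoiding `B` strictly in between. -/
def Gk : ℕ → (ℕ → ℝ) → ℤ → ℤ → ℝ
  | 0, _, _, _ => 0
  | n + 1, ω, x, y => (if n = 0 then C.p x y * W (ω 0) y else 0) +
      ∑ z ∈ Finset.Icc (x - 1) (x + 1) \ B, C.p x z * W (ω 0) z * Gk n (shift 1 ω) z y

/-- Weight of paths of length `n` from `x` avoiding `B` after time `0`. -/
def Gf : ℕ → (ℕ → ℝ) → ℤ → ℝ
  | 0, _, _ => 1
  | n + 1, ω, x => ∑ z ∈ Finset.Icc (x - 1) (x + 1) \ B, C.p x z * W (ω 0) z * Gf n (shift 1 ω) z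

/-- Renewal partition function built from the gap kernels `G`. -/
def Ren (G : ℕ → (ℕ → ℝ) → ℤ → ℤ → ℝ) (B : Finset ℤ) (n : ℕ) (ω : ℕ → ℝ) (x y : ℤ) : ℝ :=
  (if n = 0 ∧ x = y then 1 else 0) +
    ∑ L : Fin n, ∑ z ∈ B, G (L + 1) ω x z * Ren G B (n - (L + 1)) (shift (L + 1) ω) z y
termination_by n
decreasing_by omega

lemma Ren_eq (G : ℕ → (ℕ → ℝ) → ℤ → ℤ → ℝ) (n : ℕ) (ω : ℕ → ℝ) (x y : ℤ) :
    Ren G B n ω x y = (if n = 0 ∧ x = y then 1 else 0) +
    ∑ L ∈ Finset.range n, ∑ z ∈ B, G (L + 1) ω x z * Ren G B (n - (L + 1)) (shift (L + 1) ω) z y := by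
  rw [Ren, ← Fin.sum_univ_eq_sum_range
    (fun L => ∑ z ∈ B, G (L + 1) ω x z * Ren G B (n - (L + 1)) (shift (L + 1) ω) z y)]

lemma Ren_zero (G : ℕ → (ℕ → ℝ) → ℤ → ℤ → ℝ) (ω : ℕ → ℝ) (x y : ℤ) :
    Ren G B 0 ω x y = if x = y then 1 else 0 := by
  rw [Ren_eq]; simp

lemma Ren_pos_eq (G : ℕ → (ℕ → ℝ) → ℤ → ℤ → ℝ) {n : ℕ} (hn : n ≠ 0) (ω : ℕ → ℝ) (x y : ℤ) :
    Ren G B n ω x y =
    ∑ L ∈ Finset.Ioc 0 n, ∑ z ∈ B, G L ω x z * Ren G B (n - L) (shift L ω) z y := by
  rw [Ren_eq, if_neg (fun h => hn h.1), zero_add]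
  rw [Finset.range_eq_Ico, Finset.sum_Ico_add' (fun L => ∑ z ∈ B, G L ω x z * Ren G B (n - L) (shift L ω) z y)]
  congr 1

/-- Decomposition according to the gap that straddles time `T`. -/
lemma Ren_straddle (G : ℕ → (ℕ → ℝ) → ℤ → ℤ → ℝ) :
    ∀ (T n : ℕ), T < n → ∀ (ω : ℕ → ℝ) (x y : ℤ), x ∈ B →
      Ren G B n ω x y = ∑ t ∈ Finset.range (T + 1), ∑ s ∈ Finset.Ioc T n, ∑ z ∈ B, ∑ z' ∈ B,
        Ren G B t ω x z * G (s - t) (shift t ω) z z' * Ren G B (n - s) (shift s ω) z' y := by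
  intro T
  induction T using Nat.strong_induction_on with
  | _ T ih =>
    intro n hTn ω x y hx
    rw [Ren_pos_eq B G (by omega)]
    -- split the first gap
    have hsplit : Finset.Ioc 0 n = Finset.Ioc 0 T ∪ Finset.Ioc T n := by
      ext i; simp only [Finset.mem_union, Finset.mem_Ioc]; omega
    have hdisj : Disjoint (Finset.Ioc 0 T) (Finset.Ioc T n) := by
      rw [Finset.disjoint_left]; intro i h1 h2
      simp only [Finset.mem_Ioc] at h1 h2; omega
    rw [hsplit, Finset.sum_union hdisj]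
    -- the right-hand side: separate t = 0
    rw [Finset.sum_range_succ' (fun t => ∑ s ∈ Finset.Ioc T n, ∑ z ∈ B, ∑ z' ∈ B,
        Ren G B t ω x z * G (s - t) (shift t ω) z z' * Ren G B (n - s) (shift s ω) z' y)]
    have h0 : ∑ s ∈ Finset.Ioc T n, ∑ z ∈ B, ∑ z' ∈ B,
        Ren G B 0 ω x z * G (s - 0) (shift 0 ω) z z' * Ren G B (n - s) (shift s ω) z' y =
        ∑ L ∈ Finset.Ioc T n, ∑ z ∈ B, G L ω x z * Ren G B (n - L) (shift L ω) z y := by
      apply Finset.sum_congr rfl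
      intro s _
      rw [Finset.sum_eq_single x]
      · apply Finset.sum_congr rfl
        intro z' _
        rw [Ren_zero, if_pos rfl]; simp
      · intro z _ hz
        apply Finset.sum_eq_zero
        intro z' _
        rw [Ren_zero, if_neg (fun h => hz h.symm)]; simp
      · intro h; exact absurd hx h
    rw [h0]
    congr 1
    -- main part
    have h1 : ∀ L ∈ Finset.Ioc 0 T, ∑ z ∈ B, G L ω x z * Ren G B (n - L) (shift L ω) z y =
        ∑ z ∈ B, ∑ t ∈ Finset.range (T - L + 1), ∑ s ∈ Finset.Ioc T n, ∑ w ∈ B, ∑ w' ∈ B,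
          G L ω x z * (Ren G B t (shift L ω) z w * G (s - (t + L)) (shift (t + L) ω) w w' *
            Ren G B (n - s) (shift s ω) w' y) := by
      intro L hL
      rw [Finset.mem_Ioc] at hL
      apply Finset.sum_congr rfl
      intro z hz
      rw [ih (T - L) (by omega) (n - L) (by omega) (shift L ω) z y hz, Finset.mul_sum]
      apply Finset.sum_congr rfl
      intro t _
      rw [Finset.mul_sum]
      have h2 : Finset.Ioc T n = (Finset.Ioc (T - L) (n - L)).map (addRightEmbedding L) := by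
        rw [Finset.map_add_right_Ioc]
        congr 1 <;> omega
      rw [h2, Finset.sum_map]
      apply Finset.sum_congr rfl
      intro s hs
      rw [Finset.mem_Ioc] at hs
      rw [Finset.mul_sum]
      apply Finset.sum_congr rfl
      intro w _
      rw [Finset.mul_sum]
      apply Finset.sum_congr rfl
      intro w' _
      simp only [addRightEmbedding_apply]
      rw [shift_shift, shift_shift]
      rw [show s + L - (t + L) = s - t by omega, show n - (s + L) = n - L - s by omega]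
    rw [Finset.sum_congr rfl h1]
    -- reorganise
    have h3 : ∀ t ∈ Finset.range T, ∑ s ∈ Finset.Ioc T n, ∑ z ∈ B, ∑ z' ∈ B,
        Ren G B (t + 1) ω x z * G (s - (t + 1)) (shift (t + 1) ω) z z' *
          Ren G B (n - s) (shift s ω) z' y =
        ∑ L ∈ Finset.Ioc 0 (t + 1), ∑ z ∈ B, ∑ s ∈ Finset.Ioc T n, ∑ w ∈ B, ∑ w' ∈ B,
          G L ω x z * (Ren G B (t + 1 - L) (shift L ω) z w * G (s - (t + 1)) (shift (t + 1) ω) w w' *
            Ren G B (n - s) (shift s ω) w' y) := by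
      intro t _
      simp_rw [Ren_pos_eq B G (Nat.succ_ne_zero t)]
      simp_rw [Finset.sum_mul]
      -- move sums
      rw [show (∑ s ∈ Finset.Ioc T n, ∑ z ∈ B, ∑ z' ∈ B, ∑ i ∈ Finset.Ioc 0 (t + 1), ∑ i_1 ∈ B,
        G i ω x i_1 * Ren G B (t + 1 - i) (shift i ω) i_1 z * G (s - (t + 1)) (shift (t + 1) ω) z z' *
          Ren G B (n - s) (shift s ω) z' y) =
        ∑ s ∈ Finset.Ioc T n, ∑ z ∈ B, ∑ i ∈ Finset.Ioc 0 (t + 1), ∑ i_1 ∈ B, ∑ z' ∈ B,
        G i ω x i_1 * Ren G B (t + 1 - i) (shift i ω) i_1 z * G (s - (t + 1)) (shift (t + 1) ω) z z' *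
          Ren G B (n - s) (shift s ω) z' y from by
          apply Finset.sum_congr rfl; intro s _
          apply Finset.sum_congr rfl; intro z _
          rw [Finset.sum_comm]
          apply Finset.sum_congr rfl; intro i _
          rw [Finset.sum_comm]]
      rw [show (∑ s ∈ Finset.Ioc T n, ∑ z ∈ B, ∑ i ∈ Finset.Ioc 0 (t + 1), ∑ i_1 ∈ B, ∑ z' ∈ B,
        G i ω x i_1 * Ren G B (t + 1 - i) (shift i ω) i_1 z * G (s - (t + 1)) (shift (t + 1) ω) z z' *
          Ren G B (n - s) (shift s ω) z' y) =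
        ∑ s ∈ Finset.Ioc T n, ∑ i ∈ Finset.Ioc 0 (t + 1), ∑ i_1 ∈ B, ∑ z ∈ B, ∑ z' ∈ B,
        G i ω x i_1 * Ren G B (t + 1 - i) (shift i ω) i_1 z * G (s - (t + 1)) (shift (t + 1) ω) z z' *
          Ren G B (n - s) (shift s ω) z' y from by
          apply Finset.sum_congr rfl; intro s _
          rw [Finset.sum_comm]
          apply Finset.sum_congr rfl; intro i _
          rw [Finset.sum_comm]]
      rw [Finset.sum_comm]
      apply Finset.sum_congr rfl; intro i _
      rw [Finset.sum_comm]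
      apply Finset.sum_congr rfl; intro z _
      apply Finset.sum_congr rfl; intro s _
      apply Finset.sum_congr rfl; intro w _
      apply Finset.sum_congr rfl; intro w' _
      ring
    rw [Finset.sum_congr rfl h3]
    -- exchange the order of `t` and `L`
    set Φ : ℕ → ℕ → ℝ := fun t L => ∑ z ∈ B, ∑ s ∈ Finset.Ioc T n, ∑ w ∈ B, ∑ w' ∈ B,
          G L ω x z * (Ren G B (t - L) (shift L ω) z w * G (s - t) (shift t ω) w w' *
            Ren G B (n - s) (shift s ω) w' y) with hΦ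
    have h4 : ∀ L ∈ Finset.Ioc 0 T, (∑ z ∈ B, ∑ t ∈ Finset.range (T - L + 1), ∑ s ∈ Finset.Ioc T n,
        ∑ w ∈ B, ∑ w' ∈ B, G L ω x z * (Ren G B t (shift L ω) z w *
          G (s - (t + L)) (shift (t + L) ω) w w' * Ren G B (n - s) (shift s ω) w' y)) =
        ∑ t ∈ Finset.Icc L T, Φ t L := by
      intro L hL
      rw [Finset.mem_Ioc] at hL
      rw [Finset.sum_comm, hΦ]
      have h5 : Finset.Icc L T = (Finset.range (T - L + 1)).map (addRightEmbedding L) := by
        rw [Finset.range_eq_Ico, Finset.map_add_right_Ico]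
        ext i; simp only [Finset.mem_Icc, Finset.mem_Ico]; omega
      rw [h5, Finset.sum_map]
      apply Finset.sum_congr rfl
      intro t _
      simp only [addRightEmbedding_apply, Nat.add_sub_cancel]
    rw [Finset.sum_congr rfl h4]
    have h6 : ∑ t ∈ Finset.range T, ∑ L ∈ Finset.Ioc 0 (t + 1), Φ (t + 1) L =
        ∑ t ∈ Finset.Ioc 0 T, ∑ L ∈ Finset.Ioc 0 t, Φ t L := by
      rw [Finset.range_eq_Ico, Finset.sum_Ico_add' (fun t => ∑ L ∈ Finset.Ioc 0 t, Φ t L)]
      congr 1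
    rw [h6]
    apply Finset.sum_comm'
    intro L t
    simp only [Finset.mem_Ioc, Finset.mem_Icc]
    omega

end

end MP_daa227_pr
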