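import Pool.Agent.Lib.MP_daa227_pr.Model

/-!
# One-step inequality for slowly varying increments (module KEY1)
-/

open MeasureTheory ProbabilityTheory Set Filter
open scoped ENNReal Topology

namespace MP_daa227_pr

noncomputable section

/-- Increasing functions whose slope is comparable to `p` near the origin. -/
structure Slope (Φ : ℝ) (g : ℝ → ℝ) (p : ℝ) : Prop where
  nonneg : 0 ≤ p
  le : p ≤ Φ
  lip : ∀ u v, |g u - g v| ≤ Φ * |u - v|
  up : ∀ u, |g u - g 0| ≤ p * (|u| * Real.exp (Φ * |u|))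
  down : ∀ u t, 0 ≤ t → t ≤ 1 → g (u - t) ≤ g u - t * (p * Real.exp (-(Φ * (|u| + 1))))

/-- the quadratic error term -/
def keyH (β Φ x : ℝ) : ℝ :=
  2 * (β ^ 2 * (x ^ 2 * Real.exp (3 * Φ * β * |x|)) + Real.exp (Φ * β * |x|)) * Real.exp Φ

lemma keyH_pos {β Φ : ℝ} (x : ℝ) : 0 < keyH β Φ x := by
  unfold keyH; positivity

lemma keyH_int {μ : Measure ℝ} [IsProbabilityMeasure μ] (hexp : ExpMom μ) (β Φ : ℝ) :
    Integrable (keyH β Φ) μ := by
  unfold keyH
  exact ((((hexp.sq_abs (3 * Φ * β)).const_mul (β ^ 2)).add (hexp.abs (Φ * β))).const_mul 2).mul_const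
    (Real.exp Φ)

theorem key_one {μ : Measure ℝ} [IsProbabilityMeasure μ] (hexp : ExpMom μ) {β Φ : ℝ} (hβ : 0 < β)
    (hΦ : 0 < Φ) : ∃ C : ℝ, 0 < C ∧ ∃ γ₀ : ℝ, 0 < γ₀ ∧ γ₀ ≤ 1 ∧ C * γ₀ ≤ 1 ∧
      ∀ γ : ℝ, 0 ≤ γ → γ ≤ γ₀ → ∀ (g : ℝ → ℝ) (p : ℝ), Slope Φ g p →
        ∫⁻ x, ENNReal.ofReal (Real.exp (γ * g (β * x - C * γ))) ∂μ ≤
          ENNReal.ofReal (Real.exp (γ * ∫ x, g (β * x) ∂μ)) := by
  have hc_int : Integrable (fun x : ℝ => Real.exp (-(Φ * β) * |x|)) μ := hexp.abs _
  set c0 : ℝ := ∫ x, Real.exp (-(Φ * β) * |x|) ∂μ with hc0def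
  have hc0 : 0 < c0 := by
    rw [hc0def]
    exact integral_exp_pos hc_int
  set K1 : ℝ := ∫ x, keyH β Φ x ∂μ with hK1def
  have hK1 : 0 < K1 := by
    rw [hK1def, integral_pos_iff_support_of_nonneg (fun x => (keyH_pos x).le) (keyH_int hexp β Φ)]
    have : Function.support (keyH β Φ) = univ := by
      ext x
      simp only [Function.mem_support, mem_univ, iff_true]
      exact (keyH_pos x).ne'
    rw [this]; simp
  set C : ℝ := Φ * K1 * Real.exp Φ / c0 with hCdef
  have hC : 0 < C := by positivity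
  refine ⟨C, hC, min 1 (1 / C), by positivity, min_le_left _ _, ?_, ?_⟩
  · calc C * min 1 (1 / C) ≤ C * (1 / C) := mul_le_mul_of_nonneg_left (min_le_right _ _) hC.le
      _ = 1 := by field_simp
  intro γ hγ0 hγ1 g p hg
  have hγle : γ ≤ 1 := hγ1.trans (min_le_left _ _)
  have hCγ : C * γ ≤ 1 := by
    calc C * γ ≤ C * (1 / C) := mul_le_mul_of_nonneg_left (hγ1.trans (min_le_right _ _)) hC.le
      _ = 1 := by field_simp
  have hCγ0 : 0 ≤ C * γ := by positivity
  have hp := hg.nonneg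
  -- continuity of `g`
  have hgc : Continuous g := by
    have : LipschitzWith (Real.toNNReal Φ) g := by
      apply LipschitzWith.of_dist_le_mul
      intro u v
      rw [Real.dist_eq, Real.dist_eq, Real.coe_toNNReal _ hΦ.le]
      exact hg.lip u v
    exact this.continuous
  have hgint : Integrable (fun x => g (β * x)) μ := by
    refine ((integrable_const (|g 0|)).add (hexp.integrable_abs.const_mul (Φ * β))).mono'
      (hgc.comp (continuous_const.mul continuous_id)).aestronglyMeasurable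
      (ae_of_all _ fun x => ?_)
    have h1 := hg.lip (β * x) 0
    rw [sub_zero, abs_mul, abs_of_pos hβ] at h1
    rw [Real.norm_eq_abs]
    simp only [Pi.add_apply]
    have h2 : |g (β * x)| ≤ |g 0| + |g (β * x) - g 0| := by
      have := abs_add_le (g 0) (g (β * x) - g 0)
      rw [add_sub_cancel] at this
      exact this
    linarith
  -- the majorant
  let Gf : ℝ → ℝ := fun x => Real.exp (γ * g 0) *
    (1 + γ * (g (β * x) - g 0) - C * γ ^ 2 * p * Real.exp (-Φ) * Real.exp (-(Φ * β) * |x|) +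
      γ ^ 2 * p ^ 2 * keyH β Φ x)
  have hpt : ∀ x, Real.exp (γ * g (β * x - C * γ)) ≤ Gf x := by
    intro x
    have hax : |β * x| = β * |x| := by rw [abs_mul, abs_of_pos hβ]
    set X : ℝ := g (β * x) - g 0 with hX
    set Y : ℝ := C * γ * (p * Real.exp (-(Φ * (|β * x| + 1)))) with hY
    have hY0 : 0 ≤ Y := by positivity
    have hYp : Y ≤ p := by
      have h1 : Real.exp (-(Φ * (|β * x| + 1))) ≤ 1 := by
        apply Real.exp_le_one_iff.2
        have : 0 ≤ Φ * (|β * x| + 1) := by positivity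
        linarith
      calc Y ≤ 1 * (p * 1) := by
            apply mul_le_mul hCγ (mul_le_mul_of_nonneg_left h1 hp) (by positivity) (by norm_num)
        _ = p := by ring
    have h1 : g (β * x - C * γ) - g 0 ≤ X - Y := by
      have := hg.down (β * x) (C * γ) hCγ0 hCγ
      linarith
    have hXl : |X| ≤ Φ * (β * |x|) := by
      have := hg.lip (β * x) 0
      rwa [sub_zero, hax] at this
    have hXp : |X| ≤ p * (β * |x| * Real.exp (Φ * (β * |x|))) := by
      have := hg.up (β * x)
      rwa [hax] at this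
    have hz : |γ * (X - Y)| ≤ Φ * β * |x| + Φ := by
      rw [abs_mul, abs_of_nonneg hγ0]
      have h2 : |X - Y| ≤ Φ * β * |x| + Φ := by
        have h3 := abs_sub X Y
        rw [abs_of_nonneg hY0] at h3
        have h4 := hg.le
        nlinarith
      calc γ * |X - Y| ≤ 1 * |X - Y| := mul_le_mul_of_nonneg_right hγle (abs_nonneg _)
        _ ≤ _ := by rw [one_mul]; exact h2
    have hq := Model.exp_le_quad (γ * (X - Y))
    have hsq : (γ * (X - Y)) ^ 2 * Real.exp |γ * (X - Y)| ≤ γ ^ 2 * p ^ 2 * keyH β Φ x := by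
      have h2 : (X - Y) ^ 2 ≤ 2 * p ^ 2 * (β ^ 2 * (x ^ 2 * Real.exp (2 * Φ * β * |x|)) + 1) := by
        have h3 : X ^ 2 ≤ p ^ 2 * (β ^ 2 * (x ^ 2 * Real.exp (2 * Φ * β * |x|))) := by
          have h4 : |X| ^ 2 ≤ (p * (β * |x| * Real.exp (Φ * (β * |x|)))) ^ 2 :=
            pow_le_pow_left₀ (abs_nonneg _) hXp 2
          rw [_root_.sq_abs] at h4
          refine h4.trans (le_of_eq ?_)
          rw [mul_pow, mul_pow, mul_pow, _root_.sq_abs, ← Real.exp_nat_mul]
          have : ((2 : ℕ) : ℝ) * (Φ * (β * |x|)) = 2 * Φ * β * |x| := by push_cast; ring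
          rw [this]; ring
        have h5 : Y ^ 2 ≤ p ^ 2 := pow_le_pow_left₀ hY0 hYp 2
        nlinarith [sq_nonneg (X + Y)]
      have h6 : Real.exp |γ * (X - Y)| ≤ Real.exp (Φ * β * |x|) * Real.exp Φ := by
        rw [← Real.exp_add]; exact Real.exp_le_exp.2 hz
      calc (γ * (X - Y)) ^ 2 * Real.exp |γ * (X - Y)|
          ≤ (γ ^ 2 * (2 * p ^ 2 * (β ^ 2 * (x ^ 2 * Real.exp (2 * Φ * β * |x|)) + 1))) *
            (Real.exp (Φ * β * |x|) * Real.exp Φ) := by
            apply mul_le_mul _ h6 (Real.exp_pos _).le (by positivity)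
            rw [mul_pow]
            exact mul_le_mul_of_nonneg_left h2 (sq_nonneg _)
        _ = γ ^ 2 * p ^ 2 * keyH β Φ x := by
            unfold keyH
            have : Real.exp (3 * Φ * β * |x|) = Real.exp (2 * Φ * β * |x|) * Real.exp (Φ * β * |x|) := by
              rw [← Real.exp_add]; congr 1; ring
            rw [this]; ring
    have hYe : γ * Y = C * γ ^ 2 * p * Real.exp (-Φ) * Real.exp (-(Φ * β) * |x|) := by
      have : Real.exp (-(Φ * (|β * x| + 1))) = Real.exp (-Φ) * Real.exp (-(Φ * β) * |x|) := by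
        rw [← Real.exp_add, hax]; congr 1; ring
      rw [hY, this]; ring
    calc Real.exp (γ * g (β * x - C * γ))
        = Real.exp (γ * g 0) * Real.exp (γ * (g (β * x - C * γ) - g 0)) := by
          rw [← Real.exp_add]; congr 1; ring
      _ ≤ Real.exp (γ * g 0) * Real.exp (γ * (X - Y)) := by
          apply mul_le_mul_of_nonneg_left _ (Real.exp_pos _).le
          exact Real.exp_le_exp.2 (mul_le_mul_of_nonneg_left h1 hγ0)
      _ ≤ Gf x := by
          apply mul_le_mul_of_nonneg_left _ (Real.exp_pos _).le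
          rw [← hYe]
          linarith
  have hI1 : Integrable (fun x => γ * (g (β * x) - g 0)) μ :=
    (hgint.sub (integrable_const _)).const_mul γ
  have hI2 : Integrable (fun x => C * γ ^ 2 * p * Real.exp (-Φ) * Real.exp (-(Φ * β) * |x|)) μ :=
    hc_int.const_mul _
  have hI3 : Integrable (fun x => γ ^ 2 * p ^ 2 * keyH β Φ x) μ := (keyH_int hexp β Φ).const_mul _
  have hI01 : Integrable (fun x => 1 + γ * (g (β * x) - g 0)) μ := (integrable_const 1).add hI1
  have hI012 : Integrable (fun x => 1 + γ * (g (β * x) - g 0) -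
      C * γ ^ 2 * p * Real.exp (-Φ) * Real.exp (-(Φ * β) * |x|)) μ := hI01.sub hI2
  have hGint : Integrable Gf μ := (hI012.add hI3).const_mul _
  have hG : ∫ x, Gf x ∂μ = Real.exp (γ * g 0) *
      (1 + γ * ((∫ x, g (β * x) ∂μ) - g 0) - C * γ ^ 2 * p * Real.exp (-Φ) * c0 +
        γ ^ 2 * p ^ 2 * K1) := by
    simp only [Gf]
    rw [integral_const_mul, integral_add hI012 hI3, integral_sub hI01 hI2,
      integral_add (integrable_const 1) hI1, integral_const_mul, integral_const_mul,
      integral_const_mul, integral_sub hgint (integrable_const _)]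
    simp [hc0def, hK1def]
  calc ∫⁻ x, ENNReal.ofReal (Real.exp (γ * g (β * x - C * γ))) ∂μ
      ≤ ∫⁻ x, ENNReal.ofReal (Gf x) ∂μ :=
        lintegral_mono fun x => ENNReal.ofReal_le_ofReal (hpt x)
    _ = ENNReal.ofReal (∫ x, Gf x ∂μ) :=
        (ofReal_integral_eq_lintegral_ofReal hGint
          (ae_of_all _ fun x => (Real.exp_pos _).le.trans (hpt x))).symm
    _ ≤ ENNReal.ofReal (Real.exp (γ * ∫ x, g (β * x) ∂μ)) := by
        apply ENNReal.ofReal_le_ofReal
        rw [hG]
        have h1 : γ ^ 2 * p ^ 2 * K1 ≤ C * γ ^ 2 * p * Real.exp (-Φ) * c0 := by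
          have h2 : C * Real.exp (-Φ) * c0 = Φ * K1 := by
            rw [hCdef]
            have h3 : Real.exp Φ * Real.exp (-Φ) = 1 := by rw [← Real.exp_add]; simp
            calc Φ * K1 * Real.exp Φ / c0 * Real.exp (-Φ) * c0
                = Φ * K1 * (Real.exp Φ * Real.exp (-Φ)) * (c0 / c0) := by ring
              _ = Φ * K1 := by rw [h3, div_self hc0.ne']; ring
          have h4 : C * γ ^ 2 * p * Real.exp (-Φ) * c0 = γ ^ 2 * p * (Φ * K1) := by
            rw [← h2]; ring
          rw [h4]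
          have h5 : p * p ≤ p * Φ := mul_le_mul_of_nonneg_left hg.le hp
          have h6 : 0 ≤ γ ^ 2 * K1 := by positivity
          nlinarith
        have h7 : 1 + γ * ((∫ x, g (β * x) ∂μ) - g 0) - C * γ ^ 2 * p * Real.exp (-Φ) * c0 +
            γ ^ 2 * p ^ 2 * K1 ≤ Real.exp (γ * ((∫ x, g (β * x) ∂μ) - g 0)) := by
          have := Real.add_one_le_exp (γ * ((∫ x, g (β * x) ∂μ) - g 0))
          linarith
        calc _ ≤ Real.exp (γ * g 0) * Real.exp (γ * ((∫ x, g (β * x) ∂μ) - g 0)) :=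
              mul_le_mul_of_nonneg_left h7 (Real.exp_pos _).le
          _ = Real.exp (γ * ∫ x, g (β * x) ∂μ) := by
              rw [← Real.exp_add]; congr 1; ring

end

end MP_daa227_pr
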