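import Pool.Agent.Lib.MP_daa227_pr.Free

/-!
# Definitions for the generalised smoothing inequality
-/

open MeasureTheory ProbabilityTheory Set Filter
open scoped ENNReal Topology

namespace MP_daa227_pr

noncomputable section

/-- Site weights as function of the local field `u = β ω - h`. -/
def Wu (φ : ℤ → ℝ) : ℝ → ℤ → ℝ := fun a z => Real.exp (a * φ z)

/-- Finite sums of exponentials of linear forms with coefficients in `[0, Φ]`. -/
def ExpSum (Φ : ℝ) (n : ℕ) (F : (ℕ → ℝ) → ℝ) : Prop :=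
  ∃ (m : ℕ) (a : Fin m → ℝ) (ψ : Fin m → ℕ → ℝ), (∀ i, 0 ≤ a i) ∧
    (∀ i k, 0 ≤ ψ i k ∧ ψ i k ≤ Φ) ∧
    ∀ u, F u = ∑ i, a i * Real.exp (∑ k ∈ Finset.range n, u k * ψ i k)

/-- Lower bound for the cost of staying away: `E_0[exp (-η ∑ φ(S_i)); S_n = 0] ≥ exp (-A (n^ξ + 1))`
for even `n`. -/
def Escape (C : Chain) (φ : ℤ → ℝ) (ξ : ℝ) : Prop :=
  ∃ η : ℝ, 0 < η ∧ ∃ A : ℝ, 0 < A ∧ ∀ n : ℕ, Even n →
    Real.exp (-(A * ((n : ℝ) ^ ξ + 1))) ≤ Zk C (Wdet η φ) n (fun _ => 0) 0 0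

/-- The block sum: all point to point partition functions inside the time interval `[0, n]`, between
sites of the box `[-R, R]`, starting at a space-time point of even parity. -/
def SB (C : Chain) (φ : ℤ → ℝ) (R n : ℕ) (u : ℕ → ℝ) : ℝ :=
  ∑ i ∈ Finset.range (n + 1), ∑ j ∈ Finset.Icc i n,
    ∑ x ∈ (Finset.Icc (-(R : ℤ)) R).filter (fun x => Even ((i : ℤ) + x)),
      ∑ y ∈ Finset.Icc (-(R : ℤ)) R, Zk C (Wu φ) (j - i) (shift i u) x y

/-- Homogeneous renewal function of a kernel `k`. -/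
def Uh (k : ℕ → ℝ) (n : ℕ) : ℝ :=
  (if n = 0 then 1 else 0) + ∑ L : Fin n, k (L + 1) * Uh k (n - (L + 1))
termination_by n
decreasing_by omega

lemma Uh_zero (k : ℕ → ℝ) : Uh k 0 = 1 := by rw [Uh]; simp

lemma Uh_pos_eq (k : ℕ → ℝ) {n : ℕ} (hn : n ≠ 0) :
    Uh k n = ∑ L ∈ Finset.Ioc 0 n, k L * Uh k (n - L) := by
  rw [Uh, if_neg hn, zero_add, Fin.sum_univ_eq_sum_range (fun L => k (L + 1) * Uh k (n - (L + 1))),
    Finset.range_eq_Ico, Finset.sum_Ico_add' (fun L => k L * Uh k (n - L))]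
  congr 1

end

end MP_daa227_pr
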