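import Pool.Agent.Lib.MP_daa227_pr.SmDefs

/-!
# One coordinate: a shift of the field is dominated by a tilt of the charge law
-/

open MeasureTheory ProbabilityTheory Set Filter
open scoped ENNReal Topology

namespace MP_daa227_pr

noncomputable section

namespace TiltA

/-- the sum of exponentials -/
def S {m : ℕ} (a ψ : Fin m → ℝ) (u : ℝ) : ℝ := ∑ i, a i * Real.exp (u * ψ i)

/-- the derivative of the sum of exponentials -/
def N {m : ℕ} (a ψ : Fin m → ℝ) (u : ℝ) : ℝ := ∑ i, a i * ψ i * Real.exp (u * ψ i)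

section
variable {m : ℕ} {a ψ : Fin m → ℝ} {Φ : ℝ}

lemma S_pos (ha : ∀ i, 0 ≤ a i) (hpos : ∃ i, 0 < a i) (u : ℝ) : 0 < S a ψ u := by
  obtain ⟨i, hi⟩ := hpos
  refine Finset.sum_pos' (fun j _ => mul_nonneg (ha j) (Real.exp_pos _).le) ⟨i, Finset.mem_univ _, ?_⟩
  exact mul_pos hi (Real.exp_pos _)

lemma N_nonneg (ha : ∀ i, 0 ≤ a i) (hψ : ∀ i, 0 ≤ ψ i ∧ ψ i ≤ Φ) (u : ℝ) : 0 ≤ N a ψ u :=
  Finset.sum_nonneg fun i _ => mul_nonneg (mul_nonneg (ha i) (hψ i).1) (Real.exp_pos _).le

lemma hasDerivAt_S (u : ℝ) : HasDerivAt (S a ψ) (N a ψ u) u := by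
  unfold S N
  have h : ∀ i ∈ (Finset.univ : Finset (Fin m)),
      HasDerivAt (fun u : ℝ => a i * Real.exp (u * ψ i)) (a i * ψ i * Real.exp (u * ψ i)) u := by
    intro i _
    have h1 : HasDerivAt (fun u : ℝ => u * ψ i) (ψ i) u := by
      simpa using (hasDerivAt_id u).mul_const (ψ i)
    exact ((h1.exp).const_mul (a i)).congr_deriv (by ring)
  exact HasDerivAt.fun_sum h

lemma hasDerivAt_log (ha : ∀ i, 0 ≤ a i) (hpos : ∃ i, 0 < a i) (u : ℝ) :
    HasDerivAt (fun u => Real.log (S a ψ u)) (N a ψ u / S a ψ u) u :=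
  (hasDerivAt_S u).log (S_pos ha hpos u).ne'

lemma comp_sum (b : Fin m → ℝ) (hb : ∀ i, 0 ≤ b i) (hψ : ∀ i, 0 ≤ ψ i ∧ ψ i ≤ Φ) {u : ℝ} :
    (0 ≤ u → ∑ i, b i * Real.exp (0 * ψ i) ≤ ∑ i, b i * Real.exp (u * ψ i) ∧
      ∑ i, b i * Real.exp (u * ψ i) ≤ Real.exp (Φ * u) * ∑ i, b i * Real.exp (0 * ψ i)) ∧
    (u ≤ 0 → ∑ i, b i * Real.exp (u * ψ i) ≤ ∑ i, b i * Real.exp (0 * ψ i) ∧
      Real.exp (Φ * u) * ∑ i, b i * Real.exp (0 * ψ i) ≤ ∑ i, b i * Real.exp (u * ψ i)) := by
  constructor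
  · intro hu
    constructor
    · refine Finset.sum_le_sum fun i _ => mul_le_mul_of_nonneg_left (Real.exp_le_exp.2 ?_) (hb i)
      rw [zero_mul]; exact mul_nonneg hu (hψ i).1
    · rw [Finset.mul_sum]
      refine Finset.sum_le_sum fun i _ => ?_
      rw [zero_mul, Real.exp_zero, mul_one, mul_comm (Real.exp (Φ * u))]
      refine mul_le_mul_of_nonneg_left (Real.exp_le_exp.2 ?_) (hb i)
      have := mul_le_mul_of_nonneg_left (hψ i).2 hu
      linarith
  · intro hu
    constructor
    · refine Finset.sum_le_sum fun i _ => mul_le_mul_of_nonneg_left (Real.exp_le_exp.2 ?_) (hb i)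
      rw [zero_mul]; exact mul_nonpos_of_nonpos_of_nonneg hu (hψ i).1
    · rw [Finset.mul_sum]
      refine Finset.sum_le_sum fun i _ => ?_
      rw [zero_mul, Real.exp_zero, mul_one, mul_comm (Real.exp (Φ * u))]
      refine mul_le_mul_of_nonneg_left (Real.exp_le_exp.2 ?_) (hb i)
      have := mul_le_mul_of_nonpos_left (hψ i).2 hu
      linarith

/-- Bounds for the slope. -/
lemma slope_bounds (ha : ∀ i, 0 ≤ a i) (hpos : ∃ i, 0 < a i) (hψ : ∀ i, 0 ≤ ψ i ∧ ψ i ≤ Φ)
    (u : ℝ) :
    N a ψ 0 / S a ψ 0 * Real.exp (-(Φ * |u|)) ≤ N a ψ u / S a ψ u ∧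
      N a ψ u / S a ψ u ≤ N a ψ 0 / S a ψ 0 * Real.exp (Φ * |u|) := by
  have hS0 := S_pos (ψ := ψ) ha hpos 0
  have hSu := S_pos (ψ := ψ) ha hpos u
  have hN0 := N_nonneg (a := a) (ψ := ψ) ha hψ 0
  have hNu := N_nonneg (a := a) (ψ := ψ) ha hψ u
  have hb : ∀ i, 0 ≤ a i * ψ i := fun i => mul_nonneg (ha i) (hψ i).1
  have cS := comp_sum (ψ := ψ) (Φ := Φ) a ha hψ (u := u)
  have cN := comp_sum (ψ := ψ) (Φ := Φ) (fun i => a i * ψ i) hb hψ (u := u)
  change (0 ≤ u → S a ψ 0 ≤ S a ψ u ∧ S a ψ u ≤ Real.exp (Φ * u) * S a ψ 0) ∧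
    (u ≤ 0 → S a ψ u ≤ S a ψ 0 ∧ Real.exp (Φ * u) * S a ψ 0 ≤ S a ψ u) at cS
  change (0 ≤ u → N a ψ 0 ≤ N a ψ u ∧ N a ψ u ≤ Real.exp (Φ * u) * N a ψ 0) ∧
    (u ≤ 0 → N a ψ u ≤ N a ψ 0 ∧ Real.exp (Φ * u) * N a ψ 0 ≤ N a ψ u) at cN
  rcases le_total 0 u with hu | hu
  · rw [abs_of_nonneg hu]
    obtain ⟨s1, s2⟩ := cS.1 hu
    obtain ⟨n1, n2⟩ := cN.1 hu
    constructor
    · rw [div_mul_eq_mul_div, div_le_div_iff₀ hS0 hSu]
      calc N a ψ 0 * Real.exp (-(Φ * u)) * S a ψ u
          ≤ N a ψ 0 * Real.exp (-(Φ * u)) * (Real.exp (Φ * u) * S a ψ 0) := by gcongr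
        _ = N a ψ 0 * S a ψ 0 * (Real.exp (-(Φ * u)) * Real.exp (Φ * u)) := by ring
        _ = N a ψ 0 * S a ψ 0 := by rw [← Real.exp_add]; simp
        _ ≤ N a ψ u * S a ψ 0 := by gcongr
    · rw [div_mul_eq_mul_div, div_le_div_iff₀ hSu hS0]
      calc N a ψ u * S a ψ 0 ≤ (Real.exp (Φ * u) * N a ψ 0) * S a ψ u := by gcongr
        _ = N a ψ 0 * Real.exp (Φ * u) * S a ψ u := by ring
  · rw [abs_of_nonpos hu]
    obtain ⟨s1, s2⟩ := cS.2 hu
    obtain ⟨n1, n2⟩ := cN.2 hu
    constructor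
    · rw [div_mul_eq_mul_div, div_le_div_iff₀ hS0 hSu]
      rw [show -(Φ * -u) = Φ * u by ring]
      calc N a ψ 0 * Real.exp (Φ * u) * S a ψ u ≤ N a ψ 0 * Real.exp (Φ * u) * S a ψ 0 := by
            gcongr
        _ = (Real.exp (Φ * u) * N a ψ 0) * S a ψ 0 := by ring
        _ ≤ N a ψ u * S a ψ 0 := by gcongr
    · rw [div_mul_eq_mul_div, div_le_div_iff₀ hSu hS0]
      calc N a ψ u * S a ψ 0 ≤ N a ψ 0 * S a ψ 0 := by gcongr
        _ = N a ψ 0 * Real.exp (Φ * -u) * (Real.exp (Φ * u) * S a ψ 0) := by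
            rw [show N a ψ 0 * Real.exp (Φ * -u) * (Real.exp (Φ * u) * S a ψ 0) =
              N a ψ 0 * S a ψ 0 * (Real.exp (Φ * -u) * Real.exp (Φ * u)) by ring, ← Real.exp_add]
            simp
        _ ≤ N a ψ 0 * Real.exp (Φ * -u) * S a ψ u := by gcongr

/-- Increments of the logarithm. -/
lemma incr_bounds (ha : ∀ i, 0 ≤ a i) (hpos : ∃ i, 0 < a i) (hψ : ∀ i, 0 ≤ ψ i ∧ ψ i ≤ Φ)
    (hΦ : 0 < Φ) {u v R : ℝ} (huv : u ≤ v) (hu : |u| ≤ R) (hv : |v| ≤ R) :
    N a ψ 0 / S a ψ 0 * Real.exp (-(Φ * R)) * (v - u) ≤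
        Real.log (S a ψ v) - Real.log (S a ψ u) ∧
      Real.log (S a ψ v) - Real.log (S a ψ u) ≤
        N a ψ 0 / S a ψ 0 * Real.exp (Φ * R) * (v - u) := by
  rcases huv.eq_or_lt with rfl | h
  · simp
  have hg0 : 0 ≤ N a ψ 0 / S a ψ 0 := div_nonneg (N_nonneg ha hψ 0) (S_pos ha hpos 0).le
  obtain ⟨c, hc, hc2⟩ := exists_hasDerivAt_eq_slope (fun u => Real.log (S a ψ u))
    (fun u => N a ψ u / S a ψ u) h
    (fun x _ => (hasDerivAt_log ha hpos x).continuousAt.continuousWithinAt)
    (fun x _ => hasDerivAt_log ha hpos x)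
  have hvu : 0 < v - u := sub_pos.2 h
  have h1 : Real.log (S a ψ v) - Real.log (S a ψ u) = N a ψ c / S a ψ c * (v - u) := by
    rw [hc2]
    field_simp
  rw [h1]
  have hcR : |c| ≤ R := by
    rw [abs_le] at hu hv ⊢
    exact ⟨hu.1.trans hc.1.le, hc.2.le.trans hv.2⟩
  obtain ⟨b1, b2⟩ := slope_bounds ha hpos hψ c
  constructor
  · refine mul_le_mul_of_nonneg_right (le_trans ?_ b1) hvu.le
    refine mul_le_mul_of_nonneg_left (Real.exp_le_exp.2 ?_) hg0
    have := mul_le_mul_of_nonneg_left hcR hΦ.le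
    linarith
  · refine mul_le_mul_of_nonneg_right (b2.trans ?_) hvu.le
    refine mul_le_mul_of_nonneg_left (Real.exp_le_exp.2 ?_) hg0
    exact mul_le_mul_of_nonneg_left hcR hΦ.le

end

/-- Product of increments. -/
lemma prod_incr {t g L A β Φ x x0 Fx F0 : ℝ} (hβ : 0 < β) (hΦ : 0 < Φ) (hL : L = Φ * β + 1)
    (ht : 0 ≤ t) (ht1 : t ≤ 1) (hg : 0 ≤ g) (hx0 : 0 ≤ x0) (hA : x0 ≤ A)
    (hF1 : x0 ≤ x → g * Real.exp (-(Φ * (β * (|x| + x0)))) * (β * x - β * x0) ≤ Fx - F0)
    (hF2 : x ≤ x0 → g * Real.exp (-(Φ * (β * (|x| + x0)))) * (β * x0 - β * x) ≤ F0 - Fx) :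
    β * t * g * Real.exp (-(L * A)) * ((x - x0) ^ 2 * Real.exp (-(L * |x|))) ≤
      (Real.exp (t * (x - x0)) - 1) * (Fx - F0) := by
  have hax : 0 ≤ |x| := abs_nonneg x
  have key : Real.exp (-(L * A)) * Real.exp (-(L * |x|)) ≤
      Real.exp (-(Φ * (β * (|x| + x0)))) * Real.exp (-(|x| + x0)) := by
    rw [← Real.exp_add, ← Real.exp_add]
    apply Real.exp_le_exp.2
    have : 0 ≤ (Φ * β + 1) * (A - x0) := by
      have := mul_pos hΦ hβ
      apply mul_nonneg <;> linarith
    rw [hL]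
    nlinarith
  set E1 := Real.exp (-(Φ * (β * (|x| + x0)))) with hE1
  set E2 := Real.exp (-(|x| + x0)) with hE2
  have hE1p : 0 < E1 := Real.exp_pos _
  have hE2p : 0 < E2 := Real.exp_pos _
  have step : β * t * g * Real.exp (-(L * A)) * ((x - x0) ^ 2 * Real.exp (-(L * |x|))) ≤
      (t * |x - x0| * E2) * (g * E1 * (β * |x - x0|)) := by
    have e1 : β * t * g * Real.exp (-(L * A)) * ((x - x0) ^ 2 * Real.exp (-(L * |x|))) =
        (β * t * g * (x - x0) ^ 2) * (Real.exp (-(L * A)) * Real.exp (-(L * |x|))) := by ring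
    have e2 : (t * |x - x0| * E2) * (g * E1 * (β * |x - x0|)) =
        (β * t * g * (x - x0) ^ 2) * (E1 * E2) := by
      rw [← sq_abs (x - x0)]
      ring
    rw [e1, e2]
    exact mul_le_mul_of_nonneg_left key (by positivity)
  refine step.trans ?_
  rcases le_total x0 x with h | h
  · have hd : 0 ≤ x - x0 := sub_nonneg.2 h
    rw [abs_of_nonneg hd]
    have h1 : t * (x - x0) * E2 ≤ Real.exp (t * (x - x0)) - 1 := by
      have h2 : E2 ≤ 1 := Real.exp_le_one_iff.2 (by linarith)
      have h3 := Real.add_one_le_exp (t * (x - x0))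
      have h4 : t * (x - x0) * E2 ≤ t * (x - x0) * 1 := by gcongr
      linarith
    have h2 : g * E1 * (β * (x - x0)) ≤ Fx - F0 := by
      have := hF1 h
      rw [← mul_sub] at this
      exact this
    refine mul_le_mul h1 h2 (by positivity) ?_
    exact le_trans (by positivity) h1
  · have hd : x - x0 ≤ 0 := sub_nonpos.2 h
    rw [abs_of_nonpos hd]
    have h1 : t * (-(x - x0)) * E2 ≤ 1 - Real.exp (t * (x - x0)) := by
      set s := t * (-(x - x0)) with hs
      have hs0 : 0 ≤ s := mul_nonneg ht (by linarith)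
      have h3 := Real.add_one_le_exp s
      have h4 : Real.exp (t * (x - x0)) = Real.exp (-s) := by
        rw [hs]; congr 1; ring
      rw [h4]
      have h5 : E2 ≤ Real.exp (-s) := by
        rw [hE2]
        apply Real.exp_le_exp.2
        have h6 : s ≤ x0 - x := by
          rw [hs]
          nlinarith
        have := neg_abs_le x
        linarith
      have h6 : s * E2 ≤ s * Real.exp (-s) := by gcongr
      have h7 : (s + 1) * Real.exp (-s) ≤ 1 := by
        calc (s + 1) * Real.exp (-s) ≤ Real.exp s * Real.exp (-s) := by gcongr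
          _ = 1 := by rw [← Real.exp_add]; simp
      linarith
    have h2 : g * E1 * (β * (-(x - x0))) ≤ F0 - Fx := by
      have := hF2 h
      rw [← mul_sub] at this
      calc g * E1 * (β * (-(x - x0))) = g * E1 * (β * (x0 - x)) := by ring
        _ ≤ _ := this
    have h3 : (t * (-(x - x0)) * E2) * (g * E1 * (β * (-(x - x0)))) ≤
        (1 - Real.exp (t * (x - x0))) * (F0 - Fx) := by
      refine mul_le_mul h1 h2 ?_ ?_
      · have : 0 ≤ -(x - x0) := by linarith
        positivity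
      · have : 0 ≤ -(x - x0) := by linarith
        exact le_trans (by positivity) h1
    refine h3.trans (le_of_eq ?_)
    ring

section
variable {μ : Measure ℝ} [IsProbabilityMeasure μ]

lemma integrable_sq_exp_neg (hexp : ExpMom μ) {L : ℝ} (hL : 0 ≤ L) (x0 : ℝ) :
    Integrable (fun x => (x - x0) ^ 2 * Real.exp (-(L * |x|))) μ := by
  have h1 : Integrable (fun x : ℝ => 2 * x ^ 2 + 2 * x0 ^ 2) μ := by
    refine Integrable.add ?_ (integrable_const _)
    have h2 := (hexp.sq_abs 0).const_mul 2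
    simpa using h2
  refine h1.mono' (by fun_prop) (ae_of_all _ fun x => ?_)
  rw [Real.norm_eq_abs, abs_of_nonneg (by positivity)]
  have h3 : Real.exp (-(L * |x|)) ≤ 1 := Real.exp_le_one_iff.2 (by
    have := mul_nonneg hL (abs_nonneg x); linarith)
  have h4 : (x - x0) ^ 2 * Real.exp (-(L * |x|)) ≤ (x - x0) ^ 2 * 1 := by gcongr
  nlinarith [sq_nonneg (x + x0)]

lemma mean_abs_pos (hexp : ExpMom μ) (hvar : ∫ x, x ^ 2 ∂μ = 1) : 0 < ∫ x, |x| ∂μ := by
  rcases (integral_nonneg (μ := μ) (f := fun x : ℝ => |x|) fun x => abs_nonneg x).eq_or_lt with h | h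
  · exfalso
    have h1 := (integral_eq_zero_iff_of_nonneg (μ := μ) (f := fun x : ℝ => |x|)
      (fun x => abs_nonneg x) hexp.integrable_abs).1 h.symm
    have h2 : ∫ x, x ^ 2 ∂μ = 0 := by
      rw [integral_eq_zero_of_ae]
      filter_upwards [h1] with x hx
      have : |x| = 0 := hx
      rw [abs_eq_zero] at this
      simp [this]
    rw [h2] at hvar
    norm_num at hvar
  · exact h

/-- The weighted second moment around any point is bounded below. -/
lemma weighted_var (hexp : ExpMom μ) (hmean : ∫ x, x ∂μ = 0) (hvar : ∫ x, x ^ 2 ∂μ = 1)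
    {L : ℝ} (hL : 0 ≤ L) : ∃ c0 : ℝ, 0 < c0 ∧ ∀ x0 : ℝ,
      c0 ≤ ∫ x, (x - x0) ^ 2 * Real.exp (-(L * |x|)) ∂μ := by
  set a1 := ∫ x, |x| ∂μ with ha1
  have ha1p : 0 < a1 := mean_abs_pos hexp hvar
  set M := ∫ x, Real.exp (L * |x|) ∂μ with hM
  have hM1 : 1 ≤ M := by
    have h1 : ∫ _, (1 : ℝ) ∂μ ≤ M := by
      apply integral_mono (integrable_const _) (hexp.abs L)
      intro x
      exact Real.one_le_exp (mul_nonneg hL (abs_nonneg x))
    simpa using h1
  have hMp : 0 < M := by linarith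
  refine ⟨a1 ^ 2 / (4 * M), by positivity, fun x0 => ?_⟩
  set q := ∫ x, (x - x0) ^ 2 * Real.exp (-(L * |x|)) ∂μ with hq
  have hiq := integrable_sq_exp_neg hexp hL x0
  have hi0 : Integrable (fun x : ℝ => x - x0) μ := hexp.integrable_id.sub (integrable_const _)
  have hi1 : Integrable (fun x : ℝ => |x - x0|) μ := hi0.abs
  -- E |x - x0| ≥ a1 / 2
  have h1 : |x0| ≤ ∫ x, |x - x0| ∂μ := by
    have h2 : ∫ x, (x - x0) ∂μ = -x0 := by
      rw [integral_sub hexp.integrable_id (integrable_const _), hmean]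
      simp
    have h3 := abs_integral_le_integral_abs (f := fun x : ℝ => x - x0) (μ := μ)
    rw [h2, abs_neg] at h3
    exact h3
  have h2 : a1 ≤ ∫ x, |x - x0| ∂μ + |x0| := by
    have h3 : ∫ x, |x| ∂μ ≤ ∫ x, (|x - x0| + |x0|) ∂μ := by
      apply integral_mono hexp.integrable_abs (hi1.add (integrable_const _))
      intro x
      have := abs_add_le (x - x0) x0
      simpa using this
    rw [integral_add hi1 (integrable_const _)] at h3
    simpa using h3
  have h3 : a1 / 2 ≤ ∫ x, |x - x0| ∂μ := by linarith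
  -- AM-GM
  set s := 2 * M / a1 with hs
  have hsp : 0 < s := by positivity
  have h4 : ∫ x, |x - x0| ∂μ ≤ s / 2 * q + 1 / (2 * s) * M := by
    have h5 : ∫ x, |x - x0| ∂μ ≤ ∫ x, (s / 2 * ((x - x0) ^ 2 * Real.exp (-(L * |x|))) +
        1 / (2 * s) * Real.exp (L * |x|)) ∂μ := by
      apply integral_mono hi1 ((hiq.const_mul _).add ((hexp.abs L).const_mul _))
      intro x
      have hE : Real.exp (-(L * |x|)) * Real.exp (L * |x|) = 1 := by
        rw [← Real.exp_add]; simp
      have hEp := Real.exp_pos (L * |x|)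
      set E := Real.exp (L * |x|) with hEdef
      have hE2 : Real.exp (-(L * |x|)) = 1 / E := by
        rw [eq_div_iff hEp.ne']; exact hE
      have hy : (x - x0) ^ 2 = |x - x0| ^ 2 := (sq_abs _).symm
      simp only [Pi.add_apply]
      rw [hE2, hy]
      set y := |x - x0|
      have h6 : s / 2 * (y ^ 2 * (1 / E)) + 1 / (2 * s) * E - y = (s * y - E) ^ 2 / (2 * s * E) := by
        field_simp
        ring
      have h7 : 0 ≤ (s * y - E) ^ 2 / (2 * s * E) := by positivity
      linarith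
    rw [integral_add (hiq.const_mul _) ((hexp.abs L).const_mul _), integral_const_mul,
      integral_const_mul] at h5
    exact h5
  have h5 : 1 / (2 * s) * M = a1 / 4 := by
    rw [hs]
    field_simp
    norm_num
  rw [h5] at h4
  have h6 : a1 / 4 ≤ s / 2 * q := by linarith
  rw [hs] at h6
  have h7 : a1 / 4 ≤ M * q / a1 := by
    calc a1 / 4 ≤ 2 * M / a1 / 2 * q := h6
      _ = M * q / a1 := by ring
  rw [div_le_iff₀ (by positivity)]
  rw [div_le_div_iff₀ (by norm_num) ha1p] at h7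
  nlinarith

end

end TiltA

open TiltA in
theorem shift_le_tilt_one {μ : Measure ℝ} [IsProbabilityMeasure μ] (hexp : ExpMom μ)
    (hmean : ∫ x, x ∂μ = 0) (hvar : ∫ x, x ^ 2 ∂μ = 1) {β Φ : ℝ} (hβ : 0 < β) (hΦ : 0 < Φ) :
    ∃ Cs : ℝ, 0 < Cs ∧ ∃ δ₀ : ℝ, 0 < δ₀ ∧ Cs * δ₀ ≤ 1 ∧ ∀ δ : ℝ, 0 ≤ δ → δ ≤ δ₀ →
      ∀ (m : ℕ) (a ψ : Fin m → ℝ), (∀ i, 0 ≤ a i) → (∀ i, 0 ≤ ψ i ∧ ψ i ≤ Φ) → (∃ i, 0 < a i) →
        ∫ x, Real.log (∑ i, a i * Real.exp ((β * x + δ) * ψ i)) ∂μ ≤
          ∫ x, Real.log (∑ i, a i * Real.exp ((β * x) * ψ i)) ∂(μ.tilted (fun x => Cs * δ * x)) := by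
  have hL : 0 ≤ Φ * β + 1 := by positivity
  obtain ⟨c0, hc0, hc0q⟩ := weighted_var hexp hmean hvar hL
  set L := Φ * β + 1 with hLdef
  set A := ∫ x, x ^ 2 * Real.exp (1 * |x|) ∂μ with hAdef
  have hA0 : 0 ≤ A := integral_nonneg fun x => by positivity
  set M1 := ∫ x, Real.exp (Φ * β * |x|) ∂μ with hM1def
  have hM1 : 1 ≤ M1 := by
    have h1 : ∫ _, (1 : ℝ) ∂μ ≤ M1 := by
      apply integral_mono (integrable_const _) (hexp.abs _)
      intro x
      exact Real.one_le_exp (by positivity)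
    simpa using h1
  set Cs := Real.exp Φ * M1 * Real.exp (L * A) / (β * c0) with hCs
  have hCsp : 0 < Cs := by positivity
  refine ⟨Cs, hCsp, min 1 (1 / Cs), by positivity, ?_, ?_⟩
  · calc Cs * min 1 (1 / Cs) ≤ Cs * (1 / Cs) := by gcongr; exact min_le_right _ _
      _ = 1 := by field_simp
  intro δ hδ0 hδ m a ψ ha hψ hpos
  change ∫ x, Real.log (S a ψ (β * x + δ)) ∂μ ≤
    ∫ x, Real.log (S a ψ (β * x)) ∂(μ.tilted (fun x => Cs * δ * x))
  rcases hδ0.eq_or_lt with rfl | hδp
  · simp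
  have hδ1 : δ ≤ 1 := hδ.trans (min_le_left _ _)
  set t := Cs * δ with ht
  have htp : 0 < t := by positivity
  have ht1 : t ≤ 1 := by
    calc Cs * δ ≤ Cs * (1 / Cs) := by gcongr; exact hδ.trans (min_le_right _ _)
      _ = 1 := by field_simp
  set g := N a ψ 0 / S a ψ 0 with hg
  have hg0 : 0 ≤ g := div_nonneg (N_nonneg ha hψ 0) (S_pos ha hpos 0).le
  -- the normalising constant
  set Z := ∫ x, Real.exp (t * x) ∂μ with hZ
  have hZ1 : 1 ≤ Z := by
    have h1 : ∫ x, (t * x + 1) ∂μ ≤ Z := by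
      apply integral_mono ((hexp.integrable_id.const_mul t).add (integrable_const _)) (hexp t)
      intro x
      exact Real.add_one_le_exp _
    rw [integral_add (hexp.integrable_id.const_mul t) (integrable_const _), integral_const_mul,
      hmean] at h1
    simpa using h1
  have hZp : 0 < Z := by linarith
  have hZ2 : Z ≤ 1 + t ^ 2 * A := by
    have h2 : Z ≤ ∫ x, (1 + t * x + t ^ 2 * (x ^ 2 * Real.exp (1 * |x|))) ∂μ := by
      apply integral_mono (hexp t)
      · exact ((integrable_const _).add (hexp.integrable_id.const_mul t)).add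
          ((hexp.sq_abs 1).const_mul _)
      intro x
      simp only []
      refine (Model.exp_le_quad (t * x)).trans ?_
      rw [mul_pow, mul_assoc (t ^ 2)]
      have h3 : Real.exp |t * x| ≤ Real.exp (1 * |x|) := by
        apply Real.exp_le_exp.2
        rw [abs_mul, abs_of_pos htp]
        exact mul_le_mul_of_nonneg_right ht1 (abs_nonneg x)
      have h4 := mul_le_mul_of_nonneg_left (mul_le_mul_of_nonneg_left h3 (sq_nonneg x)) (sq_nonneg t)
      linarith
    have hA' : Integrable (fun x => 1 + t * x) μ :=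
      (integrable_const _).add (hexp.integrable_id.const_mul t)
    rw [integral_add hA' ((hexp.sq_abs 1).const_mul _),
      integral_add (integrable_const _) (hexp.integrable_id.const_mul t),
      integral_const_mul, integral_const_mul, hmean, mul_zero, add_zero, integral_const,
      probReal_univ, one_smul] at h2
    exact h2
  -- the point where the density is one
  set x0 := Real.log Z / t with hx0
  have hx00 : 0 ≤ x0 := div_nonneg (Real.log_nonneg hZ1) htp.le
  have hx0A : x0 ≤ A := by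
    rw [hx0, div_le_iff₀ htp]
    have h1 := Real.log_le_sub_one_of_pos hZp
    have h2 : t ^ 2 * A ≤ A * t := by
      have : t * (A * t) ≤ 1 * (A * t) := by gcongr
      linarith [this]
    linarith
  have hdens : ∀ x, Real.exp (t * x) / Z = Real.exp (t * (x - x0)) := by
    intro x
    have h1 : Real.exp (t * x0) = Z := by
      rw [hx0, mul_div_cancel₀ _ htp.ne', Real.exp_log hZp]
    rw [mul_sub, Real.exp_sub, h1]
  -- integrability
  set F : ℝ → ℝ := fun x => Real.log (S a ψ (β * x)) with hF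
  have hFm : Continuous F := by
    have h1 : Continuous (fun u => Real.log (S a ψ u)) :=
      continuous_iff_continuousAt.2 fun u => (hasDerivAt_log ha hpos u).continuousAt
    exact h1.comp (continuous_const.mul continuous_id)
  have habs : ∀ u : ℝ, |Real.log (S a ψ u)| ≤ |Real.log (S a ψ 0)| + g * Real.exp (Φ * |u|) * |u| := by
    intro u
    have h1 : |Real.log (S a ψ u) - Real.log (S a ψ 0)| ≤ g * Real.exp (Φ * |u|) * |u| := by
      rcases le_total 0 u with hu | hu
      · have h2 := incr_bounds ha hpos hψ hΦ (R := |u|) hu (by simp) le_rfl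
        rw [abs_le]
        rw [sub_zero] at h2
        have h3 : 0 ≤ g * Real.exp (-(Φ * |u|)) * u := by positivity
        have h4 : u = |u| := (abs_of_nonneg hu).symm
        constructor
        · have : 0 ≤ g * Real.exp (Φ * |u|) * |u| := by positivity
          linarith [h2.1]
        · calc _ ≤ g * Real.exp (Φ * |u|) * u := h2.2
            _ ≤ _ := by gcongr; exact le_abs_self u
      · have h2 := incr_bounds ha hpos hψ hΦ (R := |u|) hu le_rfl (by simp)
        have h3 : 0 ≤ g * Real.exp (-(Φ * |u|)) * (0 - u) := by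
          have : 0 ≤ 0 - u := by linarith
          positivity
        have h4 : 0 - u = |u| := by rw [abs_of_nonpos hu]; ring
        rw [abs_sub_comm, abs_le]
        constructor
        · have : 0 ≤ g * Real.exp (Φ * |u|) * |u| := by positivity
          linarith [h2.1]
        · calc _ ≤ g * Real.exp (Φ * |u|) * (0 - u) := h2.2
            _ = _ := by rw [h4]
    have h2 := abs_sub_abs_le_abs_sub (Real.log (S a ψ u)) (Real.log (S a ψ 0))
    linarith
  have hlog : ∀ (s w : ℝ), Integrable (fun x => Real.log (S a ψ (β * x + s)) * Real.exp (w * x)) μ := by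
    intro s w
    have hcont : Continuous (fun x => Real.log (S a ψ (β * x + s)) * Real.exp (w * x)) := by
      have h1 : Continuous (fun u => Real.log (S a ψ u)) :=
        continuous_iff_continuousAt.2 fun u => (hasDerivAt_log ha hpos u).continuousAt
      have h2 : Continuous (fun x : ℝ => β * x + s) := by fun_prop
      have h3 : Continuous (fun x : ℝ => Real.exp (w * x)) := by fun_prop
      exact (h1.comp h2).mul h3
    refine (((hexp.abs |w|).const_mul |Real.log (S a ψ 0)|).add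
      ((hexp.abs ((Φ + 1) * β + |w|)).const_mul (g * Real.exp ((Φ + 1) * |s|)))).mono'
      hcont.aestronglyMeasurable (ae_of_all _ fun x => ?_)
    rw [Real.norm_eq_abs, abs_mul, abs_of_pos (Real.exp_pos _)]
    simp only [Pi.add_apply]
    set u := β * x + s with hu
    have hu1 : |u| ≤ β * |x| + |s| := by
      refine (abs_add_le _ _).trans ?_
      rw [abs_mul, abs_of_pos hβ]
    have hwx : Real.exp (w * x) ≤ Real.exp (|w| * |x|) := by
      apply Real.exp_le_exp.2
      rw [← abs_mul]; exact le_abs_self _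
    have h1 : |u| ≤ Real.exp |u| := by linarith [Real.add_one_le_exp |u|]
    have h2 : Real.exp (Φ * |u|) * |u| ≤ Real.exp ((Φ + 1) * |s|) * Real.exp ((Φ + 1) * β * |x|) := by
      calc Real.exp (Φ * |u|) * |u| ≤ Real.exp (Φ * |u|) * Real.exp |u| := by gcongr
        _ = Real.exp ((Φ + 1) * |u|) := by rw [← Real.exp_add]; congr 1; ring
        _ ≤ Real.exp ((Φ + 1) * (β * |x| + |s|)) := by gcongr
        _ = _ := by rw [← Real.exp_add]; congr 1; ring
    calc |Real.log (S a ψ u)| * Real.exp (w * x)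
        ≤ (|Real.log (S a ψ 0)| + g * Real.exp (Φ * |u|) * |u|) * Real.exp (|w| * |x|) := by
          gcongr
          exact habs u
      _ = |Real.log (S a ψ 0)| * Real.exp (|w| * |x|) +
            g * (Real.exp (Φ * |u|) * |u|) * Real.exp (|w| * |x|) := by ring
      _ ≤ |Real.log (S a ψ 0)| * Real.exp (|w| * |x|) +
            g * (Real.exp ((Φ + 1) * |s|) * Real.exp ((Φ + 1) * β * |x|)) * Real.exp (|w| * |x|) := by
          gcongr
      _ = |Real.log (S a ψ 0)| * Real.exp (|w| * |x|) +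
            g * Real.exp ((Φ + 1) * |s|) * (Real.exp ((Φ + 1) * β * |x|) * Real.exp (|w| * |x|)) := by
          ring
      _ = _ := by rw [← Real.exp_add]; congr 2; ring_nf
  have hiF : Integrable F μ := by
    have := hlog 0 0
    simpa using this
  have hiFδ : Integrable (fun x => Real.log (S a ψ (β * x + δ))) μ := by
    have := hlog δ 0
    simpa using this
  have hiFt : Integrable (fun x => Real.exp (t * x) / Z * F x) μ := by
    have h1 := (hlog 0 t).const_mul (1 / Z)
    refine h1.congr (ae_of_all _ fun x => ?_)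
    simp only [hF, add_zero]
    ring
  have hir : Integrable (fun x => Real.exp (t * x) / Z) μ := (hexp t).div_const Z
  have hint_r : ∫ x, Real.exp (t * x) / Z ∂μ = 1 := by
    rw [integral_div, div_self hZp.ne']
  -- the upper bound for the shift
  have hup : ∫ x, Real.log (S a ψ (β * x + δ)) ∂μ ≤
      ∫ x, F x ∂μ + δ * g * Real.exp Φ * M1 := by
    have h1 : ∫ x, Real.log (S a ψ (β * x + δ)) ∂μ ≤
        ∫ x, (F x + δ * g * Real.exp Φ * Real.exp (Φ * β * |x|)) ∂μ := by
      apply integral_mono hiFδ (hiF.add ((hexp.abs (Φ * β)).const_mul _))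
      intro x
      simp only [Pi.add_apply]
      have h2 := (incr_bounds ha hpos hψ hΦ (u := β * x) (v := β * x + δ) (R := β * |x| + δ)
        (by linarith) (by rw [abs_mul, abs_of_pos hβ]; linarith)
        (by
          refine (abs_add_le _ _).trans ?_
          rw [abs_mul, abs_of_pos hβ, abs_of_pos hδp])).2
      have h3 : Real.exp (Φ * (β * |x| + δ)) ≤ Real.exp Φ * Real.exp (Φ * β * |x|) := by
        rw [← Real.exp_add]
        apply Real.exp_le_exp.2
        have := mul_le_mul_of_nonneg_left hδ1 hΦ.le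
        linarith
      have h4 : g * Real.exp (Φ * (β * |x| + δ)) * (β * x + δ - β * x) ≤
          δ * g * Real.exp Φ * Real.exp (Φ * β * |x|) := by
        calc g * Real.exp (Φ * (β * |x| + δ)) * (β * x + δ - β * x)
            = δ * g * Real.exp (Φ * (β * |x| + δ)) := by ring
          _ ≤ δ * g * (Real.exp Φ * Real.exp (Φ * β * |x|)) := by gcongr
          _ = _ := by ring
      simp only [hF]
      linarith
    rw [integral_add hiF ((hexp.abs (Φ * β)).const_mul _), integral_const_mul] at h1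
    exact h1
  -- the lower bound for the tilt
  have hlow : ∫ x, F x ∂μ + β * t * g * Real.exp (-(L * A)) * c0 ≤
      ∫ x, F x ∂(μ.tilted (fun x => t * x)) := by
    rw [integral_tilted]
    simp only [smul_eq_mul]
    have h1 : ∫ x, Real.exp (t * x) / Z * F x ∂μ - ∫ x, F x ∂μ =
        ∫ x, (Real.exp (t * x) / Z - 1) * (F x - F x0) ∂μ := by
      have e1 : ∀ x, (Real.exp (t * x) / Z - 1) * (F x - F x0) =
          (Real.exp (t * x) / Z * F x - F x) - F x0 * (Real.exp (t * x) / Z - 1) := fun x => by ring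
      have i1 : Integrable (fun x => Real.exp (t * x) / Z * F x - F x) μ := hiFt.sub hiF
      have i2 : Integrable (fun x => Real.exp (t * x) / Z - 1) μ := hir.sub (integrable_const _)
      simp_rw [e1]
      rw [integral_sub i1 (i2.const_mul _),
        integral_sub hiFt hiF, integral_const_mul, integral_sub hir (integrable_const _), hint_r]
      simp
    have h2 : ∫ x, β * t * g * Real.exp (-(L * A)) * ((x - x0) ^ 2 * Real.exp (-(L * |x|))) ∂μ ≤
        ∫ x, (Real.exp (t * x) / Z - 1) * (F x - F x0) ∂μ := by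
      apply integral_mono ((integrable_sq_exp_neg hexp hL x0).const_mul _)
      · have e1 : ∀ x, (Real.exp (t * x) / Z - 1) * (F x - F x0) =
          (Real.exp (t * x) / Z * F x - F x) - F x0 * (Real.exp (t * x) / Z - 1) := fun x => by ring
        simp_rw [e1]
        exact (hiFt.sub hiF).sub ((hir.sub (integrable_const _)).const_mul _)
      intro x
      simp only []
      rw [hdens x]
      have hR1 : |β * x| ≤ β * (|x| + x0) := by
        rw [abs_mul, abs_of_pos hβ]
        gcongr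
        linarith
      have hR2 : |β * x0| ≤ β * (|x| + x0) := by
        rw [abs_mul, abs_of_pos hβ, abs_of_nonneg hx00]
        have := abs_nonneg x
        gcongr
        linarith
      refine prod_incr (A := A) hβ hΦ hLdef htp.le ht1 hg0 hx00 hx0A ?_ ?_
      · intro h
        exact (incr_bounds ha hpos hψ hΦ (mul_le_mul_of_nonneg_left h hβ.le) hR2 hR1).1
      · intro h
        exact (incr_bounds ha hpos hψ hΦ (mul_le_mul_of_nonneg_left h hβ.le) hR1 hR2).1
    rw [integral_const_mul] at h2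
    have h3 : β * t * g * Real.exp (-(L * A)) * c0 ≤ β * t * g * Real.exp (-(L * A)) *
        ∫ x, (x - x0) ^ 2 * Real.exp (-(L * |x|)) ∂μ := by
      refine mul_le_mul_of_nonneg_left (hc0q x0) (by positivity)
    linarith
  have hfin : δ * g * Real.exp Φ * M1 = β * t * g * Real.exp (-(L * A)) * c0 := by
    have h1 : Real.exp (L * A) * Real.exp (-(L * A)) = 1 := by rw [← Real.exp_add]; simp
    rw [ht, hCs]
    calc δ * g * Real.exp Φ * M1 = δ * g * Real.exp Φ * M1 * 1 := by ring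
      _ = δ * g * Real.exp Φ * M1 * (Real.exp (L * A) * Real.exp (-(L * A))) := by rw [h1]
      _ = _ := by field_simp
  linarith

end

end MP_daa227_pr
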