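import Pool.Agent.Lib.MP_daa227_pr.SmDefs
import Pool.Agent.Lib.MP_daa227_pr.TiltA

/-!
# Comparison of a shift of the charges with a tilt of their law, many variables
-/

open MeasureTheory ProbabilityTheory Set Filter
open scoped ENNReal Topology

namespace MP_daa227_pr

noncomputable section

theorem ExpMom.tilted {μ : Measure ℝ} [IsProbabilityMeasure μ] (hexp : ExpMom μ) (t : ℝ) :
    ExpMom (μ.tilted (fun x => t * x)) := by
  intro s
  rw [integrable_tilted_iff (hexp t)]
  refine (hexp (t + s)).congr (ae_of_all _ fun x => ?_)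
  simp only [smul_eq_mul]
  rw [← Real.exp_add]
  congr 1
  ring

namespace TB

variable {Φ : ℝ} {n : ℕ} {F : (ℕ → ℝ) → ℝ}

lemma measurable (h : ExpSum Φ n F) : Measurable F := by
  obtain ⟨m, a, ψ, -, -, hF⟩ := h
  rw [show F = fun u => ∑ i, a i * Real.exp (∑ k ∈ Finset.range n, u k * ψ i k) from funext hF]
  refine Finset.measurable_sum _ fun i _ => Measurable.const_mul ?_ _
  refine Real.measurable_exp.comp (Finset.measurable_sum _ fun k _ => ?_)
  exact (measurable_pi_apply k).mul_const _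

lemma pos (h : ExpSum Φ n F) (hp : ∃ u, 0 < F u) (u : ℕ → ℝ) : 0 < F u := by
  obtain ⟨m, a, ψ, ha, -, hF⟩ := h
  obtain ⟨v, hv⟩ := hp
  have h1 : ∃ i, 0 < a i := by
    by_contra hc
    push Not at hc
    have h2 : ∀ i, a i = 0 := fun i => le_antisymm (hc i) (ha i)
    rw [hF v] at hv
    simp [h2] at hv
  obtain ⟨i, hi⟩ := h1
  rw [hF u]
  refine Finset.sum_pos' (fun j _ => mul_nonneg (ha j) (Real.exp_pos _).le)
    ⟨i, Finset.mem_univ _, mul_pos hi (Real.exp_pos _)⟩

lemma le_exp (h : ExpSum Φ n F) (hp : ∃ u, 0 < F u) (u v : ℕ → ℝ) :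
    Real.log (F u) ≤ Real.log (F v) + Φ * ∑ k ∈ Finset.range n, |u k - v k| := by
  have hpu := pos h hp u
  have hpv := pos h hp v
  obtain ⟨m, a, ψ, ha, hψ, hF⟩ := h
  rw [← Real.log_exp (Φ * ∑ k ∈ Finset.range n, |u k - v k|), ← Real.log_mul hpv.ne'
    (Real.exp_pos _).ne']
  refine Real.log_le_log hpu ?_
  rw [hF u, hF v, Finset.sum_mul]
  refine Finset.sum_le_sum fun i _ => ?_
  rw [mul_assoc, ← Real.exp_add]
  refine mul_le_mul_of_nonneg_left (Real.exp_le_exp.2 ?_) (ha i)
  rw [Finset.mul_sum, ← Finset.sum_add_distrib]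
  refine Finset.sum_le_sum fun k _ => ?_
  have h1 : u k * ψ i k - v k * ψ i k ≤ Φ * |u k - v k| := by
    calc u k * ψ i k - v k * ψ i k = (u k - v k) * ψ i k := by ring
      _ ≤ |u k - v k| * ψ i k := mul_le_mul_of_nonneg_right (le_abs_self _) (hψ i k).1
      _ ≤ |u k - v k| * Φ := mul_le_mul_of_nonneg_left (hψ i k).2 (abs_nonneg _)
      _ = Φ * |u k - v k| := mul_comm _ _
  linarith

lemma lip (h : ExpSum Φ n F) (hp : ∃ u, 0 < F u) (u v : ℕ → ℝ) :
    |Real.log (F u) - Real.log (F v)| ≤ Φ * ∑ k ∈ Finset.range n, |u k - v k| := by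
  rw [abs_sub_le_iff]
  constructor
  · linarith [le_exp h hp u v]
  · have h1 := le_exp h hp v u
    have h2 : ∑ k ∈ Finset.range n, |v k - u k| = ∑ k ∈ Finset.range n, |u k - v k| :=
      Finset.sum_congr rfl fun k _ => abs_sub_comm (v k) (u k)
    rw [h2] at h1
    linarith

/-- Lipschitz bound for affine images. -/
lemma lipOn (h : ExpSum Φ n F) (hp : ∃ u, 0 < F u) {β : ℝ} (hβ : 0 ≤ β) (δ : ℝ) :
    LipOn n (Φ * β) (fun ω => Real.log (F (fun k => β * ω k + δ))) := by
  intro ω ω'
  refine (lip h hp _ _).trans (le_of_eq ?_)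
  have h1 : ∑ k ∈ Finset.range n, |β * ω k + δ - (β * ω' k + δ)| =
      β * ∑ k ∈ Finset.range n, |ω k - ω' k| := by
    rw [Finset.mul_sum]
    refine Finset.sum_congr rfl fun k _ => ?_
    rw [show β * ω k + δ - (β * ω' k + δ) = β * (ω k - ω' k) by ring, abs_mul, abs_of_nonneg hβ]
  rw [h1, mul_assoc]

lemma tail (h : ExpSum Φ (n + 1) F) (x : ℝ) : ExpSum Φ n (fun u => F (cons x u)) := by
  obtain ⟨m, a, ψ, ha, hψ, hF⟩ := h
  refine ⟨m, fun i => a i * Real.exp (x * ψ i 0), fun i k => ψ i (k + 1),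
    fun i => mul_nonneg (ha i) (Real.exp_pos _).le, fun i k => hψ i (k + 1), fun u => ?_⟩
  simp only
  rw [hF]
  refine Finset.sum_congr rfl fun i _ => ?_
  rw [Finset.sum_range_succ', mul_assoc, ← Real.exp_add]
  simp only [cons_succ, cons_zero]
  rw [add_comm]

lemma cons_affine (β δ x : ℝ) (ω : ℕ → ℝ) :
    (fun k => β * cons x ω k + δ) = cons (β * x + δ) (fun k => β * ω k + δ) := by
  funext k
  cases k <;> rfl

end TB

theorem shift_le_tilt {μ : Measure ℝ} [IsProbabilityMeasure μ] (hexp : ExpMom μ)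
    (hmean : ∫ x, x ∂μ = 0) (hvar : ∫ x, x ^ 2 ∂μ = 1) {β Φ : ℝ} (hβ : 0 < β) (hΦ : 0 < Φ) :
    ∃ Cs : ℝ, 0 < Cs ∧ ∃ δ₀ : ℝ, 0 < δ₀ ∧ Cs * δ₀ ≤ 1 ∧ ∀ δ : ℝ, 0 ≤ δ → δ ≤ δ₀ →
      ∀ (n : ℕ) (F : (ℕ → ℝ) → ℝ), ExpSum Φ n F → (∃ u, 0 < F u) →
        ∫ ω, Real.log (F (fun k => β * ω k + δ)) ∂seqLaw μ ≤
          ∫ ω, Real.log (F (fun k => β * ω k)) ∂seqLaw (μ.tilted (fun x => Cs * δ * x)) := by
  obtain ⟨Cs, hCs, δ₀, hδ₀, hC1, key⟩ := shift_le_tilt_one hexp hmean hvar hβ hΦ
  refine ⟨Cs, hCs, δ₀, hδ₀, hC1, fun δ hδ hδ' => ?_⟩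
  have hprob : IsProbabilityMeasure (μ.tilted (fun x => Cs * δ * x)) :=
    isProbabilityMeasure_tilted (hexp _)
  have hexpt : ExpMom (μ.tilted (fun x => Cs * δ * x)) := hexp.tilted _
  generalize hν : μ.tilted (fun x => Cs * δ * x) = ν at hprob hexpt
  have key' : ∀ (m : ℕ) (a ψ : Fin m → ℝ), (∀ i, 0 ≤ a i) → (∀ i, 0 ≤ ψ i ∧ ψ i ≤ Φ) →
      (∃ i, 0 < a i) →
        ∫ x, Real.log (∑ i, a i * Real.exp ((β * x + δ) * ψ i)) ∂μ ≤
          ∫ x, Real.log (∑ i, a i * Real.exp ((β * x) * ψ i)) ∂ν := by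
    rw [← hν]
    exact key δ hδ hδ'
  intro n
  induction n with
  | zero =>
    intro F hF hp
    have h1 : ∀ u v, Real.log (F u) = Real.log (F v) := by
      intro u v
      have := TB.lip hF hp u v
      rw [Finset.range_zero, Finset.sum_empty, mul_zero] at this
      have h2 := abs_nonpos_iff.1 this
      linarith
    have h2 : (fun ω : ℕ → ℝ => Real.log (F (fun k => β * ω k + δ))) =
        fun _ => Real.log (F (fun _ => 0)) := funext fun ω => h1 _ _
    have h3 : (fun ω : ℕ → ℝ => Real.log (F (fun k => β * ω k))) =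
        fun _ => Real.log (F (fun _ => 0)) := funext fun ω => h1 _ _
    rw [h2, h3]
    simp
  | succ n ih =>
    intro F hF hp
    have hFm := TB.measurable hF
    have hpos := TB.pos hF hp
    -- measurability and integrability of the first integrand
    have hm1 : Measurable (fun ω : ℕ → ℝ => Real.log (F (fun k => β * ω k + δ))) := by
      refine Real.measurable_log.comp (hFm.comp ?_)
      exact measurable_pi_lambda _ fun k => by fun_prop
    have hm2 : Measurable (fun ω : ℕ → ℝ => Real.log (F (fun k => β * ω k))) := by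
      refine Real.measurable_log.comp (hFm.comp ?_)
      exact measurable_pi_lambda _ fun k => by fun_prop
    have hi1 : Integrable (fun ω : ℕ → ℝ => Real.log (F (fun k => β * ω k + δ))) (seqLaw μ) :=
      (TB.lipOn hF hp hβ.le δ).integrable hm1 hexp
    have hl2 : LipOn (n + 1) (Φ * β) (fun ω => Real.log (F (fun k => β * ω k))) := by
      have := TB.lipOn hF hp hβ.le 0
      simpa only [add_zero] using this
    have hi2 : Integrable (fun ω : ℕ → ℝ => Real.log (F (fun k => β * ω k))) (seqLaw ν) :=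
      hl2.integrable hm2 hexpt
    -- the mixed function
    set L : ℝ × (ℕ → ℝ) → ℝ := fun q => Real.log (F (cons (β * q.1) (fun k => β * q.2 k + δ)))
      with hL
    have hLm : Measurable L := by
      refine Real.measurable_log.comp (hFm.comp ?_)
      refine measurable_cons.comp (Measurable.prodMk (measurable_fst.const_mul β) ?_)
      exact measurable_pi_lambda _ fun k => by fun_prop
    have hLb : ∀ q : ℝ × (ℕ → ℝ), |L q| ≤ (|L (0, fun _ => 0)| + Φ * β * |q.1|) +
        Φ * β * ∑ k ∈ Finset.range n, |q.2 k| := by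
      intro q
      have h1 := TB.lip hF hp (cons (β * q.1) (fun k => β * q.2 k + δ))
        (cons (β * 0) (fun k => β * 0 + δ))
      rw [sum_cons] at h1
      have h2 : ∀ k, |β * q.2 k + δ - (β * 0 + δ)| = β * |q.2 k| := by
        intro k
        rw [show β * q.2 k + δ - (β * 0 + δ) = β * q.2 k by ring, abs_mul, abs_of_pos hβ]
      have h3 : |β * q.1 - β * 0| = β * |q.1| := by
        rw [mul_zero, sub_zero, abs_mul, abs_of_pos hβ]
      rw [Finset.sum_congr rfl fun k _ => h2 k, h3, ← Finset.mul_sum] at h1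
      have h4 : L q = Real.log (F (cons (β * q.1) (fun k => β * q.2 k + δ))) := rfl
      have h5 : L (0, fun _ => 0) = Real.log (F (cons (β * 0) (fun k => β * 0 + δ))) := rfl
      rw [← h4, ← h5] at h1
      have h6 : |L q| ≤ |L (0, fun _ => 0)| + |L q - L (0, fun _ => 0)| := by
        have := abs_add_le (L (0, fun _ => 0)) (L q - L (0, fun _ => 0))
        rw [add_sub_cancel] at this
        exact this
      have h7 : Φ * (β * |q.1| + β * ∑ k ∈ Finset.range n, |q.2 k|) =
        Φ * β * |q.1| + Φ * β * ∑ k ∈ Finset.range n, |q.2 k| := by ring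
      linarith
    have hLi : Integrable L (ν.prod (seqLaw μ)) := by
      have g1 : Integrable (fun q : ℝ × (ℕ → ℝ) => |L (0, fun _ => 0)| + Φ * β * |q.1|)
          (ν.prod (seqLaw μ)) := by
        refine (integrable_const _).add (Integrable.const_mul ?_ _)
        exact hexpt.integrable_abs.comp_fst (seqLaw μ)
      have g2 : Integrable (fun q : ℝ × (ℕ → ℝ) => Φ * β * ∑ k ∈ Finset.range n, |q.2 k|)
          (ν.prod (seqLaw μ)) := by
        refine Integrable.const_mul (integrable_finsetSum _ fun k _ => ?_) _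
        exact (integrable_apply μ k (Y := fun x => |x|) (by fun_prop) hexp.integrable_abs).comp_snd ν
      refine (g1.add g2).mono' hLm.aestronglyMeasurable (ae_of_all _ fun q => ?_)
      rw [Real.norm_eq_abs]
      exact hLb q
    -- first step: tilt the first coordinate
    have step1 : ∫ ω, Real.log (F (fun k => β * ω k + δ)) ∂seqLaw μ ≤
        ∫ ω, ∫ x, L (x, ω) ∂ν ∂seqLaw μ := by
      rw [integral_cons_symm μ hm1 hi1]
      refine integral_mono ?_ hLi.integral_prod_right ?_
      · exact (integrable_cons μ hm1 hi1).integral_prod_right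
      intro ω
      obtain ⟨m, a, ψ, ha, hψ, hFe⟩ := hF
      have e1 : ∀ (x : ℝ) (v : ℕ → ℝ), F (cons x v) =
          ∑ i, (a i * Real.exp (∑ k ∈ Finset.range n, v k * ψ i (k + 1))) *
            Real.exp (x * ψ i 0) := by
        intro x v
        rw [hFe]
        refine Finset.sum_congr rfl fun i _ => ?_
        rw [Finset.sum_range_succ', mul_assoc, ← Real.exp_add]
        simp only [cons_succ, cons_zero]
      have h1 := key' m (fun i => a i * Real.exp (∑ k ∈ Finset.range n, (β * ω k + δ) * ψ i (k + 1)))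
        (fun i => ψ i 0) (fun i => mul_nonneg (ha i) (Real.exp_pos _).le) (fun i => hψ i 0) ?_
      · simp only [hL]
        have e2 : (fun x => Real.log (F (fun k => β * cons x ω k + δ))) = fun x =>
            Real.log (∑ i, (a i * Real.exp (∑ k ∈ Finset.range n, (β * ω k + δ) * ψ i (k + 1))) *
              Real.exp ((β * x + δ) * ψ i 0)) := by
          funext x
          rw [TB.cons_affine, e1]
        have e3 : (fun x => Real.log (F (cons (β * x) (fun k => β * ω k + δ)))) = fun x =>
            Real.log (∑ i, (a i * Real.exp (∑ k ∈ Finset.range n, (β * ω k + δ) * ψ i (k + 1))) *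
              Real.exp ((β * x) * ψ i 0)) := by
          funext x
          rw [e1]
        rw [e2, e3]
        exact h1
      · by_contra hc
        push Not at hc
        obtain ⟨v, hv⟩ := hp
        have h2 : ∀ i, a i = 0 := by
          intro i
          have h3 := hc i
          have h4 := Real.exp_pos (∑ k ∈ Finset.range n, (β * ω k + δ) * ψ i (k + 1))
          exact le_antisymm (nonpos_of_mul_nonpos_left h3 h4) (ha i)
        rw [hFe v] at hv
        simp [h2] at hv
    -- second step: swap and use the induction hypothesis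
    have step2 : ∫ ω, ∫ x, L (x, ω) ∂ν ∂seqLaw μ = ∫ x, ∫ ω, L (x, ω) ∂seqLaw μ ∂ν := by
      rw [← integral_prod_symm L hLi, integral_prod L hLi]
    have step3 : ∫ x, ∫ ω, L (x, ω) ∂seqLaw μ ∂ν ≤
        ∫ x, ∫ ω, Real.log (F (fun k => β * cons x ω k)) ∂seqLaw ν ∂ν := by
      refine integral_mono hLi.integral_prod_left (integrable_cons ν hm2 hi2).integral_prod_left ?_
      intro x
      have h1 := ih (fun u => F (cons (β * x) u)) (TB.tail hF _) ⟨fun _ => 0, hpos _⟩
      have e1 : (fun ω : ℕ → ℝ => Real.log (F (fun k => β * cons x ω k))) =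
          fun ω => Real.log (F (cons (β * x) (fun k => β * ω k))) := by
        funext ω
        congr 2
        funext k
        cases k <;> rfl
      simp only [hL]
      rw [e1]
      exact h1
    rw [integral_cons ν hm2 hi2]
    linarith [step1, step2, step3]

end

end MP_daa227_pr
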