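import Pool.Agent.Lib.MP_daa227_pr.Key1
import Pool.Agent.Lib.MP_daa227_pr.SmDefs
import Pool.Agent.Lib.MP_daa227_pr.TiltB

/-!
# The key inequality: small fractional moments at a shifted field are dominated by the quenched
average
-/

open MeasureTheory ProbabilityTheory Set Filter
open scoped ENNReal Topology

namespace MP_daa227_pr

noncomputable section

namespace Key

/-- Logarithms of exponential sums of one variable. -/
lemma slope_log {m : ℕ} {a ψ : Fin m → ℝ} {Φ : ℝ} (hΦ : 0 < Φ) (ha : ∀ i, 0 ≤ a i)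
    (hpos : ∃ i, 0 < a i) (hψ : ∀ i, 0 ≤ ψ i ∧ ψ i ≤ Φ) :
    Slope Φ (fun u => Real.log (∑ i, a i * Real.exp (u * ψ i)))
      (TiltA.N a ψ 0 / TiltA.S a ψ 0) := by
  have hS : ∀ u, 0 < TiltA.S a ψ u := TiltA.S_pos ha hpos
  have e : ∀ u, Real.log (∑ i, a i * Real.exp (u * ψ i)) = Real.log (TiltA.S a ψ u) := fun u => rfl
  have hle : ∀ u v, Real.log (TiltA.S a ψ u) ≤ Real.log (TiltA.S a ψ v) + Φ * |u - v| := by
    intro u v
    rw [← Real.log_exp (Φ * |u - v|), ← Real.log_mul (hS v).ne' (Real.exp_pos _).ne']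
    refine Real.log_le_log (hS u) ?_
    unfold TiltA.S
    rw [Finset.sum_mul]
    refine Finset.sum_le_sum fun i _ => ?_
    rw [mul_assoc, ← Real.exp_add]
    refine mul_le_mul_of_nonneg_left (Real.exp_le_exp.2 ?_) (ha i)
    have h1 : (u - v) * ψ i ≤ |u - v| * Φ :=
      (mul_le_mul_of_nonneg_right (le_abs_self _) (hψ i).1).trans
        (mul_le_mul_of_nonneg_left (hψ i).2 (abs_nonneg _))
    linarith [h1, mul_comm Φ |u - v|, sub_mul u v (ψ i)]
  refine ⟨div_nonneg (TiltA.N_nonneg ha hψ 0) (hS 0).le, ?_, fun u v => ?_, fun u => ?_,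
    fun u t ht ht1 => ?_⟩
  · rw [div_le_iff₀ (hS 0)]
    unfold TiltA.N TiltA.S
    rw [Finset.mul_sum]
    refine Finset.sum_le_sum fun i _ => ?_
    have := mul_le_mul_of_nonneg_right (mul_le_mul_of_nonneg_left (hψ i).2 (ha i))
      (Real.exp_pos (0 * ψ i)).le
    linarith
  · rw [e, e, abs_sub_le_iff]
    constructor
    · linarith [hle u v]
    · have := hle v u
      rw [abs_sub_comm v u] at this
      linarith
  · rw [e, e]
    rcases le_total 0 u with hu | hu
    · obtain ⟨h1, h2⟩ := TiltA.incr_bounds ha hpos hψ hΦ (u := 0) (v := u) (R := |u|) hu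
        (by rw [abs_zero]; exact abs_nonneg u) le_rfl
      rw [sub_zero] at h1 h2
      have h3 : 0 ≤ Real.log (TiltA.S a ψ u) - Real.log (TiltA.S a ψ 0) := by
        refine le_trans ?_ h1
        exact mul_nonneg (mul_nonneg (div_nonneg (TiltA.N_nonneg ha hψ 0) (hS 0).le)
          (Real.exp_pos _).le) hu
      rw [abs_of_nonneg h3]
      refine h2.trans (le_of_eq ?_)
      rw [abs_of_nonneg hu]
      ring
    · obtain ⟨h1, h2⟩ := TiltA.incr_bounds ha hpos hψ hΦ (u := u) (v := 0) (R := |u|) hu
        le_rfl (by rw [abs_zero]; exact abs_nonneg u)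
      rw [zero_sub] at h1 h2
      have h3 : 0 ≤ Real.log (TiltA.S a ψ 0) - Real.log (TiltA.S a ψ u) := by
        refine le_trans ?_ h1
        exact mul_nonneg (mul_nonneg (div_nonneg (TiltA.N_nonneg ha hψ 0) (hS 0).le)
          (Real.exp_pos _).le) (by linarith)
      rw [abs_sub_comm, abs_of_nonneg h3]
      refine h2.trans (le_of_eq ?_)
      rw [abs_of_nonpos hu]
      ring
  · rw [e, e]
    obtain ⟨h1, _⟩ := TiltA.incr_bounds ha hpos hψ hΦ (u := u - t) (v := u) (R := |u| + 1)
      (by linarith) (by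
        have := abs_sub u t
        rw [abs_of_nonneg ht] at this
        linarith) (by linarith)
    have h2 : u - (u - t) = t := by ring
    rw [h2] at h1
    linarith [h1, mul_comm t (TiltA.N a ψ 0 / TiltA.S a ψ 0 * Real.exp (-(Φ * (|u| + 1))))]

/-- Averages of functions with controlled slope. -/
lemma slope_integral {Ω : Type*} [MeasurableSpace Ω] {P : Measure Ω} [IsProbabilityMeasure P]
    {Φ : ℝ} {f : ℝ → Ω → ℝ} {p : Ω → ℝ} (h : ∀ ω, Slope Φ (fun u => f u ω) (p ω))
    (hf : ∀ u, Integrable (f u) P) (hp : Integrable p P) :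
    Slope Φ (fun u => ∫ ω, f u ω ∂P) (∫ ω, p ω ∂P) := by
  refine ⟨integral_nonneg fun ω => (h ω).nonneg, ?_, fun u v => ?_, fun u => ?_,
    fun u t ht ht1 => ?_⟩
  · have h1 : ∫ ω, p ω ∂P ≤ ∫ _, Φ ∂P := integral_mono hp (integrable_const _) fun ω => (h ω).le
    simpa using h1
  · rw [← integral_sub (hf u) (hf v)]
    refine (abs_integral_le_integral_abs).trans ?_
    have h1 : ∫ ω, |f u ω - f v ω| ∂P ≤ ∫ _, Φ * |u - v| ∂P :=
      integral_mono ((hf u).sub (hf v)).abs (integrable_const _) fun ω => (h ω).lip u v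
    simpa using h1
  · rw [← integral_sub (hf u) (hf 0)]
    refine (abs_integral_le_integral_abs).trans ?_
    rw [← integral_mul_const]
    exact integral_mono ((hf u).sub (hf 0)).abs (hp.mul_const _) fun ω => (h ω).up u
  · have h1 : ∫ ω, f u ω ∂P - t * ((∫ ω, p ω ∂P) * Real.exp (-(Φ * (|u| + 1)))) =
        ∫ ω, (f u ω - t * (p ω * Real.exp (-(Φ * (|u| + 1))))) ∂P := by
      rw [integral_sub (hf u) ((hp.mul_const _).const_mul t),
        integral_const_mul t (fun ω => p ω * Real.exp (-(Φ * (|u| + 1)))),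
        integral_mul_const (Real.exp (-(Φ * (|u| + 1)))) p]
    rw [h1]
    exact integral_mono (hf _) ((hf u).sub ((hp.mul_const _).const_mul t))
      fun ω => (h ω).down u t ht ht1

end Key

/-- **Key inequality.** -/
theorem key {μ : Measure ℝ} [IsProbabilityMeasure μ] (hexp : ExpMom μ) {β Φ : ℝ} (hβ : 0 < β)
    (hΦ : 0 < Φ) : ∃ C : ℝ, 0 < C ∧ ∃ γ₀ : ℝ, 0 < γ₀ ∧ γ₀ ≤ 1 ∧ C * γ₀ ≤ 1 ∧
      ∀ γ : ℝ, 0 ≤ γ → γ ≤ γ₀ → ∀ (n : ℕ) (F : (ℕ → ℝ) → ℝ), ExpSum Φ n F → (∃ u, 0 < F u) →
        mom μ γ (fun ω => F (fun k => β * ω k - C * γ)) ≤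
          ENNReal.ofReal (Real.exp (γ * ∫ ω, Real.log (F (fun k => β * ω k)) ∂seqLaw μ)) := by
  obtain ⟨C, hC, γ₀, hγ₀, hγ₀1, hCγ, key1⟩ := key_one hexp hβ hΦ
  refine ⟨C, hC, γ₀, hγ₀, hγ₀1, hCγ, fun γ h0 h1 n => ?_⟩
  induction n with
  | zero =>
    intro F hF hp
    have e1 : ∀ u v, F u = F v := by
      obtain ⟨m, a, ψ, -, -, hFe⟩ := hF
      intro u v
      rw [hFe, hFe]
      simp
    have hpos := TB.pos hF hp
    have e2 : (fun ω : ℕ → ℝ => F (fun k => β * ω k - C * γ)) = fun _ => F (fun _ => 0) :=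
      funext fun ω => e1 _ _
    have e3 : (fun ω : ℕ → ℝ => Real.log (F (fun k => β * ω k))) =
        fun _ => Real.log (F (fun _ => 0)) := funext fun ω => by rw [e1 _ (fun _ => 0)]
    rw [e2, e3, mom_const]
    simp only [integral_const, probReal_univ, smul_eq_mul, one_mul]
    rw [ENNReal.ofReal_rpow_of_pos (hpos _), Real.rpow_def_of_pos (hpos _), mul_comm]
  | succ n ih =>
    intro F hF hp
    have hpos := TB.pos hF hp
    have hFm := TB.measurable hF
    have hcons : Measurable (fun ω : ℕ → ℝ => F (fun k => β * ω k - C * γ)) :=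
      hFm.comp (measurable_pi_lambda _ fun k => by fun_prop)
    have hm2 : Measurable (fun ω : ℕ → ℝ => Real.log (F (fun k => β * ω k))) :=
      Real.measurable_log.comp (hFm.comp (measurable_pi_lambda _ fun k => by fun_prop))
    have hl2 : LipOn (n + 1) (Φ * β) (fun ω => Real.log (F (fun k => β * ω k))) := by
      have := TB.lipOn hF hp hβ.le 0
      simpa only [add_zero] using this
    have hi2 : Integrable (fun ω : ℕ → ℝ => Real.log (F (fun k => β * ω k))) (seqLaw μ) :=
      hl2.integrable hm2 hexp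
    -- the averaged logarithm as a function of the first field
    set g : ℝ → ℝ := fun u => ∫ ω, Real.log (F (cons u (fun k => β * ω k))) ∂seqLaw μ with hg
    have hcs : ∀ (c x : ℝ) (ω : ℕ → ℝ), (fun k => β * cons x ω k - c) =
        cons (β * x - c) (fun k => β * ω k - c) := by
      intro c x ω
      funext k
      cases k <;> rfl
    have hcs0 : ∀ (x : ℝ) (ω : ℕ → ℝ), (fun k => β * cons x ω k) =
        cons (β * x) (fun k => β * ω k) := by
      intro x ω
      funext k
      cases k <;> rfl
    -- integrability of the tail functions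
    have hti : ∀ u, Integrable (fun ω : ℕ → ℝ => Real.log (F (cons u (fun k => β * ω k))))
        (seqLaw μ) := by
      intro u
      have ht := TB.tail hF u
      have hp' : ∃ v, 0 < F (cons u v) := ⟨fun _ => 0, hpos _⟩
      have hl : LipOn n (Φ * β) (fun ω => Real.log (F (cons u (fun k => β * ω k)))) := by
        have := TB.lipOn ht hp' hβ.le 0
        simpa only [add_zero] using this
      refine hl.integrable ?_ hexp
      exact Real.measurable_log.comp ((TB.measurable ht).comp
        (measurable_pi_lambda _ fun k => by fun_prop))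
    -- slope of g
    have hslope : ∃ p, Slope Φ g p := by
      obtain ⟨m, a, ψ, ha, hψ, hFe⟩ := hF
      have hapos : ∃ i, 0 < a i := by
        by_contra hc
        push Not at hc
        have h2 : ∀ i, a i = 0 := fun i => le_antisymm (hc i) (ha i)
        have hv := hpos (fun _ => 0)
        rw [hFe] at hv
        simp [h2] at hv
      have e1 : ∀ (x : ℝ) (v : ℕ → ℝ), F (cons x v) =
          ∑ i, (a i * Real.exp (∑ k ∈ Finset.range n, v k * ψ i (k + 1))) *
            Real.exp (x * ψ i 0) := by
        intro x v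
        rw [hFe]
        refine Finset.sum_congr rfl fun i _ => ?_
        rw [Finset.sum_range_succ', mul_assoc, ← Real.exp_add]
        simp only [cons_succ, cons_zero]
      set A : (ℕ → ℝ) → Fin m → ℝ := fun ω i =>
        a i * Real.exp (∑ k ∈ Finset.range n, β * ω k * ψ i (k + 1)) with hA
      have hA0 : ∀ ω i, 0 ≤ A ω i := fun ω i => mul_nonneg (ha i) (Real.exp_pos _).le
      have hAp : ∀ ω, ∃ i, 0 < A ω i := by
        intro ω
        obtain ⟨i, hi⟩ := hapos
        exact ⟨i, mul_pos hi (Real.exp_pos _)⟩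
      set p : (ℕ → ℝ) → ℝ := fun ω => TiltA.N (A ω) (fun i => ψ i 0) 0 /
        TiltA.S (A ω) (fun i => ψ i 0) 0 with hpdef
      have hsl : ∀ ω, Slope Φ (fun u => Real.log (F (cons u (fun k => β * ω k)))) (p ω) := by
        intro ω
        have := Key.slope_log hΦ (hA0 ω) (hAp ω) (fun i => hψ i 0)
        have e2 : (fun u => Real.log (F (cons u (fun k => β * ω k)))) =
            fun u => Real.log (∑ i, A ω i * Real.exp (u * ψ i 0)) := by
          funext u
          rw [e1]
        rw [e2]
        exact this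
      have hAm : ∀ i, Measurable (fun ω => A ω i) := by
        intro i
        refine Measurable.const_mul (Real.measurable_exp.comp ?_) _
        exact Finset.measurable_sum _ fun k _ => by fun_prop
      have hpm : Measurable p := by
        refine Measurable.div ?_ ?_
        · unfold TiltA.N
          exact Finset.measurable_sum _ fun i _ => ((hAm i).mul_const _).mul_const _
        · unfold TiltA.S
          exact Finset.measurable_sum _ fun i _ => (hAm i).mul_const _
      have hpi : Integrable p (seqLaw μ) := by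
        refine (integrable_const Φ).mono' hpm.aestronglyMeasurable (ae_of_all _ fun ω => ?_)
        rw [Real.norm_eq_abs, abs_of_nonneg (hsl ω).nonneg]
        exact (hsl ω).le
      exact ⟨_, Key.slope_integral (f := fun u ω => Real.log (F (cons u (fun k => β * ω k))))
        hsl hti hpi⟩
    obtain ⟨p, hp2⟩ := hslope
    have hint : ∫ ω, Real.log (F (fun k => β * ω k)) ∂seqLaw μ = ∫ x, g (β * x) ∂μ := by
      rw [integral_cons μ hm2 hi2]
      refine integral_congr_ae (ae_of_all _ fun x => ?_)
      simp only [hg]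
      refine integral_congr_ae (ae_of_all _ fun ω => ?_)
      simp only
      rw [hcs0]
    rw [hint]
    refine le_trans ?_ (key1 γ h0 h1 g p hp2)
    unfold mom
    rw [lintegral_cons μ (measurable_momf hcons)]
    refine lintegral_mono fun x => ?_
    have h2 := ih (fun v => F (cons (β * x - C * γ) v)) (TB.tail hF _) ⟨fun _ => 0, hpos _⟩
    unfold mom at h2
    simp only [hcs]
    exact h2

end

end MP_daa227_pr
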