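import Pool.Agent.Lib.MP_daa227_pr.Finite
import Pool.Agent.Lib.MP_daa227_pr.Hold

/-!
# Multiscale comparison: linear lower bound for the free energy below the critical point
-/

open MeasureTheory ProbabilityTheory Set Filter
open scoped ENNReal Topology

namespace MP_daa227_pr

noncomputable section

set_option linter.unusedSectionVars false

/-- The bonus for gaps of length in `(n, 2n]`. -/
def bonus (c r : ℝ) (n : ℕ) (L : ℕ) : ℝ := if n < L ∧ L ≤ 2 * n then c * (2 * n : ℝ) ^ (r - 1) * L else 0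

lemma bonus_nonneg {c r : ℝ} (hc : 0 ≤ c) (n L : ℕ) : 0 ≤ bonus c r n L := by
  unfold bonus
  split_ifs
  · positivity
  · exact le_rfl

lemma bonus_le {c r : ℝ} (hc : 0 ≤ c) (hr1 : r ≤ 1) {n L : ℕ} (hL : 1 ≤ L) :
    bonus c r n L ≤ c * (L : ℝ) ^ r := by
  have hL' : (0 : ℝ) < L := by exact_mod_cast hL
  unfold bonus
  split_ifs with h
  · have h1 : (2 * n : ℝ) ^ (r - 1) ≤ (L : ℝ) ^ (r - 1) := by
      apply Real.rpow_le_rpow_of_nonpos hL' _ (by linarith)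
      exact_mod_cast h.2
    calc c * (2 * n : ℝ) ^ (r - 1) * L ≤ c * (L : ℝ) ^ (r - 1) * L := by
          apply mul_le_mul_of_nonneg_right _ hL'.le
          exact mul_le_mul_of_nonneg_left h1 hc
      _ = c * (L : ℝ) ^ r := by
          rw [mul_assoc, ← Real.rpow_add_one hL'.ne']
          congr 2
          ring
  · positivity

/-- The `ρ_j` are summable with small sum. -/
lemma rho_sum {r E c : ℝ} (hr : 1 / 2 < r) (hE : 0 ≤ E) (hc : 0 < c) :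
    ∃ n₀ : ℕ, 1 ≤ n₀ ∧ Even n₀ ∧ ∀ J : ℕ, ∑ j ∈ Finset.range J,
      Real.log (1 + E * (((2 ^ j * n₀ : ℕ) : ℝ) + 1) ^ 3) /
        (Real.sqrt ((2 ^ j * n₀ : ℕ) : ℝ) * (c * (2 * ((2 ^ j * n₀ : ℕ) : ℝ)) ^ (r - 1))) ≤ 1 / 2 := by
  set s := (r - 1 / 2) / 2 with hs
  have hs0 : 0 < s := by rw [hs]; linarith
  set A := (1 + 8 * E) ^ (s / 3) / (s / 3) with hA
  have hA0 : 0 < A := by rw [hA]; positivity
  set A' := A / (c * 2 ^ (r - 1)) with hA'
  have hA'0 : 0 < A' := by rw [hA']; positivity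
  -- the single term
  have hterm : ∀ n : ℕ, 1 ≤ n → Real.log (1 + E * ((n : ℝ) + 1) ^ 3) /
      (Real.sqrt n * (c * (2 * (n : ℝ)) ^ (r - 1))) ≤ A' * (n : ℝ) ^ (-s) := by
    intro n hn
    have hn1 : (1 : ℝ) ≤ n := by exact_mod_cast hn
    have hn0 : (0 : ℝ) < n := by linarith
    have h1 : Real.log (1 + E * ((n : ℝ) + 1) ^ 3) ≤ A * (n : ℝ) ^ s := by
      have h2 : 1 + E * ((n : ℝ) + 1) ^ 3 ≤ (1 + 8 * E) * (n : ℝ) ^ 3 := by
        have h3 : ((n : ℝ) + 1) ^ 3 ≤ (2 * n) ^ 3 := pow_le_pow_left₀ (by linarith) (by linarith) 3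
        have h4 : (1 : ℝ) ≤ (n : ℝ) ^ 3 := one_le_pow₀ hn1
        have h5 := mul_le_mul_of_nonneg_left h3 hE
        calc 1 + E * ((n : ℝ) + 1) ^ 3 ≤ (n : ℝ) ^ 3 + E * (2 * n) ^ 3 := add_le_add h4 h5
          _ = _ := by ring
      refine (Real.log_le_rpow_div (by positivity) (by positivity : 0 < s / 3)).trans ?_
      rw [hA, div_mul_eq_mul_div]
      apply div_le_div_of_nonneg_right _ (by positivity)
      calc (1 + E * ((n : ℝ) + 1) ^ 3) ^ (s / 3) ≤ ((1 + 8 * E) * (n : ℝ) ^ 3) ^ (s / 3) :=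
            Real.rpow_le_rpow (by positivity) h2 (by positivity)
        _ = (1 + 8 * E) ^ (s / 3) * (n : ℝ) ^ s := by
            rw [Real.mul_rpow (by positivity) (by positivity), ← Real.rpow_natCast (n : ℝ) 3,
              ← Real.rpow_mul hn0.le]
            congr 2
            push_cast
            ring
    rw [div_le_iff₀ (by positivity)]
    refine h1.trans (le_of_eq ?_)
    rw [hA', Real.mul_rpow (by norm_num) hn0.le, Real.sqrt_eq_rpow]
    have h6 : (n : ℝ) ^ (-s) * ((n : ℝ) ^ (1 / 2 : ℝ) * (n : ℝ) ^ (r - 1)) = (n : ℝ) ^ s := by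
      rw [← Real.rpow_add hn0, ← Real.rpow_add hn0]
      congr 1
      rw [hs]; ring
    calc A * (n : ℝ) ^ s = A * ((n : ℝ) ^ (-s) * ((n : ℝ) ^ (1 / 2 : ℝ) * (n : ℝ) ^ (r - 1))) := by rw [h6]
      _ = _ := by field_simp
  -- choose n₀
  set q := (2 : ℝ) ^ (-s) with hq
  have hq0 : 0 < q := by rw [hq]; positivity
  have hq1 : q < 1 := by
    rw [hq]; exact Real.rpow_lt_one_of_one_lt_of_neg (by norm_num) (by linarith)
  have hlim : Tendsto (fun n : ℕ => A' * ((n : ℝ) ^ (-s)) * (1 / (1 - q))) atTop (𝓝 0) := by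
    have h1 : Tendsto (fun n : ℕ => (n : ℝ) ^ (-s)) atTop (𝓝 0) :=
      (tendsto_rpow_neg_atTop hs0).comp tendsto_natCast_atTop_atTop
    have h2 := (h1.const_mul A').mul_const (1 / (1 - q))
    simpa using h2
  obtain ⟨N₀, hN₀⟩ := (hlim.eventually (ge_mem_nhds (show (0 : ℝ) < 1 / 2 by norm_num))).exists_forall_of_atTop
  refine ⟨2 * (N₀ + 1), by omega, even_two_mul _, fun J => ?_⟩
  set n₀ := 2 * (N₀ + 1) with hn₀
  have hn₀1 : 1 ≤ n₀ := by omega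
  have h1 : ∀ j ∈ Finset.range J, Real.log (1 + E * (((2 ^ j * n₀ : ℕ) : ℝ) + 1) ^ 3) /
        (Real.sqrt ((2 ^ j * n₀ : ℕ) : ℝ) * (c * (2 * ((2 ^ j * n₀ : ℕ) : ℝ)) ^ (r - 1))) ≤
      A' * (n₀ : ℝ) ^ (-s) * q ^ j := by
    intro j _
    refine (hterm (2 ^ j * n₀) (Nat.one_le_iff_ne_zero.2 (by positivity))).trans (le_of_eq ?_)
    push_cast
    rw [Real.mul_rpow (by positivity) (by positivity), hq, ← Real.rpow_natCast, ← Real.rpow_mul (by norm_num),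
      ← Real.rpow_natCast, ← Real.rpow_mul (by norm_num), mul_comm (j : ℝ) (-s)]
    ring
  refine (Finset.sum_le_sum h1).trans ?_
  rw [← Finset.mul_sum]
  have h2 : ∑ j ∈ Finset.range J, q ^ j ≤ 1 / (1 - q) := by
    rw [geom_sum_eq hq1.ne, ← neg_div_neg_eq, neg_sub, neg_sub]
    apply div_le_div_of_nonneg_right _ (by linarith)
    have : 0 ≤ q ^ J := by positivity
    linarith
  exact (mul_le_mul_of_nonneg_left h2 (by positivity)).trans (hN₀ n₀ (by omega))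

namespace Model

variable (M : Model)

/-- Tilted gap kernels. -/
def Gt (h : ℝ) (R : ℕ) (g : ℕ → ℝ) : ℕ → (ℕ → ℝ) → ℤ → ℤ → ℝ :=
  fun L ω x y => Real.exp (g L) * M.G h R L ω x y

/-- Tilted renewal sums. -/
def Rt (h : ℝ) (R : ℕ) (g : ℕ → ℝ) (n : ℕ) (ω : ℕ → ℝ) : ℝ :=
  Ren (M.Gt h R g) (Finset.Icc (-(R : ℤ)) R) n ω 0 0

lemma good_Gt (h : ℝ) (R : ℕ) (g : ℕ → ℝ) (L : ℕ) (x y : ℤ) :
    Good L M.κ (fun ω => M.Gt h R g L ω x y) :=
  (M.good_G h R L x y).const_mul (Real.exp_pos _).le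

lemma good_Rt (h : ℝ) (R : ℕ) (g : ℕ → ℝ) (n : ℕ) : Good n M.κ (fun ω => M.Rt h R g n ω) :=
  good_Ren M.κ_pos.le (M.good_Gt h R g) n 0 0

lemma Rt_zero_eq (h : ℝ) (R : ℕ) (n : ℕ) (ω : ℕ → ℝ) : M.Rt h R (fun _ => 0) n ω = M.Z h n ω 0 0 := by
  rw [M.Z_eq_Ren h R n ω 0 (zero_mem_box R)]
  unfold Rt
  congr 1
  funext L ω x y
  simp [Gt]

lemma Rt_mono (h : ℝ) (R : ℕ) {g g' : ℕ → ℝ} (n : ℕ) (hg : ∀ L ∈ Finset.Ioc 0 n, g L ≤ g' L) (ω : ℕ → ℝ) :
    M.Rt h R g n ω ≤ M.Rt h R g' n ω := by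
  refine (Ren_mono (M.Gt h R g) (M.Gt h R g') _ n (fun L hL ω x y _ => ⟨(M.good_Gt h R g L x y).nonneg ω, ?_⟩)
    ω 0 0).2
  exact mul_le_mul_of_nonneg_right (Real.exp_le_exp.2 (hg L hL)) ((M.good_G h R L x y).nonneg ω)

lemma Rt_tilt (h : ℝ) (R : ℕ) (g : ℕ → ℝ) (c : ℝ) (n : ℕ) (ω : ℕ → ℝ) :
    M.Rt h R (fun L => g L - c * L) n ω = Real.exp (-c * n) * M.Rt h R g n ω :=
  Ren_tilt (M.G h R) _ c g n ω 0 0

lemma Rt_pos (h : ℝ) (R : ℕ) {g : ℕ → ℝ} {n : ℕ} (hn : Even n) (hg : ∀ L, 0 ≤ g L) (ω : ℕ → ℝ) :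
    0 < M.Rt h R g n ω := by
  have h1 := M.Rt_mono h R (g := fun _ => 0) (g' := g) n (fun L _ => hg L) ω
  rw [M.Rt_zero_eq] at h1
  exact (M.Z_pos h hn ω).trans_le h1

/-- Quenched average for the tilted renewal sums. -/
def ΨR (h : ℝ) (R : ℕ) (g : ℕ → ℝ) (n : ℕ) : ℝ := ∫ ω, Real.log (M.Rt h R g n ω) ∂seqLaw M.μ

/-- One scale. -/
lemma scale_bound {r : ℝ} (hr : 1 / 2 < r) (hr1 : r ≤ 1) {hc : ℝ} (hFr : M.Fr hc ≤ 0) {R K : ℕ}
    {C₁ c₂ CB H : ℝ} (hC₁ : 1 ≤ C₁) (hc₂ : 0 < c₂) (hc₂1 : c₂ ≤ 1) (hCB : 1 ≤ CB)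
    (hgap : ∀ L : ℕ, 1 ≤ L → ∀ x ∈ Finset.Icc (-(R : ℤ)) R, ∀ y ∈ Finset.Icc (-(R : ℤ)) R,
        mom M.μ 1 (fun ω => M.G hc R L ω x y) ≤ ENNReal.ofReal (C₁ * Real.exp (-c₂ * (L : ℝ) ^ r)))
    (hH : |hc| ≤ H)
    (hext : ∀ h, |h| ≤ H → ∀ γ, 0 ≤ γ → γ ≤ 1 →
      ∀ x ∈ Finset.Icc (-(R : ℤ)) R, ∀ y ∈ Finset.Icc (-(R : ℤ)) R, ∀ l : ℕ, ∃ m : ℕ, Even m ∧ l ≤ m ∧
        m ≤ l + K ∧ mom M.μ γ (fun ω => M.Z h l ω x y) ≤
          ENNReal.ofReal CB * mom M.μ γ (fun ω => M.Z h m ω 0 0)) :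
    ∃ D : ℝ, 1 ≤ D ∧ ∃ E : ℝ, 0 ≤ E ∧ ∀ n : ℕ, 1 ≤ n → ∀ N : ℕ, Even N →
      M.ΨR hc R (bonus (c₂ / 2) r n) N ≤
        Real.sqrt n * Real.log D + N / Real.sqrt n * Real.log (1 + E * ((n : ℝ) + 1) ^ 3) := by
  obtain ⟨Ms, hMs, hser⟩ := exp_series_le hr
  set Kc := concK M.μ M.κ with hKc
  have hKc0 : 0 ≤ Kc := concK_nonneg _ _
  set B := Finset.Icc (-(R : ℤ)) R with hB
  set D := CB * Real.exp (Kc * (1 + K)) with hD
  have hDone : 1 ≤ D := by
    rw [hD]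
    have : 1 ≤ Real.exp (Kc * (1 + K)) := Real.one_le_exp (by positivity)
    exact one_le_mul_of_one_le_of_one_le hCB this
  have hDpos : 0 < D := by linarith
  set E := 16 * (B.card : ℝ) ^ 2 * D * C₁ * Ms / c₂ ^ 4 with hE
  have hEpos : 0 ≤ E := by positivity
  refine ⟨D, hDone, E, hEpos, fun n hn N hN => ?_⟩
  have hnR : (0 : ℝ) < n := by exact_mod_cast hn
  have hn1 : (1 : ℝ) ≤ n := by exact_mod_cast hn
  set sn := Real.sqrt n with hsn
  have hsnpos : 0 < sn := Real.sqrt_pos.2 hnR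
  have hsn1 : 1 ≤ sn := by rw [hsn]; exact Real.one_le_sqrt.2 hn1
  have hsq : sn * sn = n := Real.mul_self_sqrt hnR.le
  set γ := 1 / sn with hγ
  have hγ0 : 0 < γ := by positivity
  have hγ1 : γ ≤ 1 := by rw [hγ, div_le_one hsnpos]; exact hsn1
  have hγ2 : γ ^ 2 * n = 1 := by
    rw [hγ, ← hsq]; field_simp
  set a := γ * (c₂ / 2) with ha
  have ha0 : 0 < a := by positivity
  have ha1 : a ≤ 1 := mul_le_one₀ hγ1 (by linarith) (by linarith)
  set g := bonus (c₂ / 2) r n with hg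
  set Q := 1 + E * ((n : ℝ) + 1) ^ 3 with hQ
  have hQ1 : 1 ≤ Q := by
    rw [hQ]
    have : 0 ≤ E * ((n : ℝ) + 1) ^ 3 := by positivity
    linarith
  -- short sums
  have hζ : ∀ t ≤ n, ∀ x ∈ B, ∀ y ∈ B,
      mom M.μ γ (fun ω => Ren (M.Gt hc R g) B t ω x y) ≤ ENNReal.ofReal D := by
    intro t ht x hx y hy
    have h1 : ∀ ω, Ren (M.Gt hc R g) B t ω x y ≤ M.Z hc t ω x y := by
      intro ω
      rw [M.Z_eq_Ren hc R t ω x hy]
      refine (Ren_mono (M.Gt hc R g) (M.G hc R) B t (fun L hL ω x y _ =>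
        ⟨(M.good_Gt hc R g L x y).nonneg ω, ?_⟩) ω x y).2
      rw [Finset.mem_Ioc] at hL
      have hz : g L = 0 := by
        rw [hg]; unfold bonus; rw [if_neg]; omega
      unfold Gt
      rw [hz, Real.exp_zero, one_mul]
    refine (mom_mono hγ0.le h1).trans ?_
    obtain ⟨m, hm, hm1, hm2, hm3⟩ := hext hc hH γ hγ0.le hγ1 x hx y hy t
    refine hm3.trans ?_
    refine (mul_le_mul_right (M.mom_Z_le_exp hγ0.le hγ1 hc hm) _).trans ?_
    rw [← ENNReal.ofReal_mul (by linarith)]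
    apply ENNReal.ofReal_le_ofReal
    rw [hD]
    apply mul_le_mul_of_nonneg_left _ (by linarith)
    apply Real.exp_le_exp.2
    have h2 : M.Ψ hc m ≤ 0 := (M.Ψ_le_Fr hc hm).trans (mul_nonpos_of_nonneg_of_nonpos (Nat.cast_nonneg _) hFr)
    have h3 : γ * M.Ψ hc m ≤ 0 := mul_nonpos_of_nonneg_of_nonpos hγ0.le h2
    have h4 : Kc * γ ^ 2 * m ≤ Kc * (1 + K) := by
      have hm' : (m : ℝ) ≤ n * (1 + K) := by
        have h5 : m ≤ n + K := by omega
        have h6 : (m : ℝ) ≤ n + K := by exact_mod_cast h5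
        have h7 : (K : ℝ) ≤ n * K := le_mul_of_one_le_left (Nat.cast_nonneg _) hn1
        linarith
      calc Kc * γ ^ 2 * m ≤ Kc * γ ^ 2 * (n * (1 + K)) := mul_le_mul_of_nonneg_left hm' (by positivity)
        _ = Kc * (1 + K) * (γ ^ 2 * n) := by ring
        _ = Kc * (1 + K) := by rw [hγ2, mul_one]
    linarith
  set κ' : ℕ → ℝ := fun L => C₁ * Real.exp (-a * (L : ℝ) ^ r) with hκ'def
  have hκ'0 : ∀ t, 0 ≤ κ' t := by intro t; rw [hκ'def]; positivity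
  have hκ : ∀ L, 1 ≤ L → ∀ x ∈ B, ∀ y ∈ B, mom M.μ γ (fun ω => M.Gt hc R g L ω x y) ≤
      ENNReal.ofReal (κ' L) := by
    intro L hL x hx y hy
    have h1 := M.gap_mom (γ := γ) hC₁ hγ0 hγ1 (hgap L hL x hx y hy)
    unfold Gt
    rw [mom_const_mul (F := fun ω => M.G hc R L ω x y) hγ0.le (Real.exp_pos _).le (M.good_G hc R L x y).meas]
    refine (mul_le_mul_right h1 _).trans ?_
    rw [ENNReal.ofReal_rpow_of_pos (Real.exp_pos _), ← ENNReal.ofReal_mul (by positivity), ← Real.exp_mul]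
    apply ENNReal.ofReal_le_ofReal
    rw [hκ'def]
    dsimp only
    calc Real.exp (g L * γ) * (C₁ * Real.exp (-(γ * c₂) * (L : ℝ) ^ r))
        = C₁ * Real.exp (g L * γ + -(γ * c₂) * (L : ℝ) ^ r) := by rw [Real.exp_add]; ring
      _ ≤ C₁ * Real.exp (-a * (L : ℝ) ^ r) := by
          apply mul_le_mul_of_nonneg_left _ (by linarith)
          apply Real.exp_le_exp.2
          have h2 : g L ≤ c₂ / 2 * (L : ℝ) ^ r := bonus_le (by positivity) hr1 hL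
          have h3 := mul_le_mul_of_nonneg_right h2 hγ0.le
          rw [ha]
          linarith
  have hq : ∀ n', (B.card : ℝ) ^ 2 * ∑ t ∈ Finset.range (n + 1), D *
      ∑ s ∈ Finset.Ioc n n', κ' (s - t) ≤ Q := by
    intro n'
    have hterm : ∀ t ∈ Finset.range (n + 1), D * ∑ s ∈ Finset.Ioc n n', κ' (s - t) ≤
        D * (C₁ * (Ms / a ^ 4)) := by
      intro t ht
      rw [Finset.mem_range] at ht
      rw [sum_gap_shift κ' (by omega) n']
      apply mul_le_mul_of_nonneg_left _ hDpos.le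
      rw [hκ'def]
      dsimp only
      rw [← Finset.mul_sum]
      apply mul_le_mul_of_nonneg_left _ (by linarith)
      refine (hser a ha0 ha1 (n - t) (n' - t)).trans ?_
      have h2 : Real.exp (-(a / 2) * ((n - t : ℕ) : ℝ) ^ r) ≤ 1 := by
        apply Real.exp_le_one_iff.2
        have : 0 ≤ ((n - t : ℕ) : ℝ) ^ r := Real.rpow_nonneg (Nat.cast_nonneg _) _
        exact mul_nonpos_of_nonpos_of_nonneg (by linarith only [ha0]) this
      exact mul_le_of_le_one_right (by positivity) h2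
    have hsum := Finset.sum_le_sum hterm
    rw [Finset.sum_const, Finset.card_range, nsmul_eq_mul] at hsum
    have ha4 : Ms / a ^ 4 = 16 * Ms / c₂ ^ 4 * (n : ℝ) ^ 2 := by
      rw [ha, hγ, ← hsq]
      field_simp
      ring
    calc (B.card : ℝ) ^ 2 * ∑ t ∈ Finset.range (n + 1), D * ∑ s ∈ Finset.Ioc n n', κ' (s - t)
        ≤ (B.card : ℝ) ^ 2 * (((n + 1 : ℕ) : ℝ) * (D * (C₁ * (Ms / a ^ 4)))) :=
          mul_le_mul_of_nonneg_left hsum (by positivity)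
      _ = E * (((n : ℝ) + 1) * (n : ℝ) ^ 2) := by
          rw [ha4, hE]
          push_cast
          field_simp
      _ ≤ E * ((n : ℝ) + 1) ^ 3 := by
          apply mul_le_mul_of_nonneg_left _ hEpos
          rw [show ((n : ℝ) + 1) ^ 3 = ((n : ℝ) + 1) * ((n : ℝ) + 1) ^ 2 by ring]
          exact mul_le_mul_of_nonneg_left (pow_le_pow_left₀ hnR.le (by linarith only) 2) (by linarith only [hnR])
      _ ≤ Q := by rw [hQ]; linarith
  have hmom := mom_Ren_le hγ0 hγ1 M.κ_pos.le (G := M.Gt hc R g) (B := B)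
    (fun L x y => M.good_Gt hc R g L x y) n hDpos.le hQ1 (ζ := fun _ => D) (fun _ => hDpos.le) hκ'0 hζ
    (fun _ _ => le_rfl) hκ hq N 0 (zero_mem_box R) 0 (zero_mem_box R)
  have hpos : ∀ ω, 0 < M.Rt hc R g N ω := M.Rt_pos hc R hN (fun L => bonus_nonneg (by positivity) n L)
  have hJ := (exp_le_mom' M.exp_mom hγ0.le (M.good_Rt hc R g N) hpos).trans hmom
  have hQpos : 0 < Q := by linarith
  rw [ENNReal.ofReal_le_ofReal_iff (by positivity)] at hJ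
  have h1 := Real.log_le_log (Real.exp_pos _) hJ
  rw [Real.log_exp, Real.log_mul hDpos.ne' (pow_pos hQpos _).ne', Real.log_pow] at h1
  have hlogQ : 0 ≤ Real.log Q := Real.log_nonneg hQ1
  have h2 : ((N / (n + 1) : ℕ) : ℝ) ≤ (N : ℝ) / n := by
    refine Nat.cast_div_le.trans ?_
    apply div_le_div_of_nonneg_left (Nat.cast_nonneg _) hnR
    push_cast
    linarith
  have h3 : γ * M.ΨR hc R g N ≤ Real.log D + N / n * Real.log Q := by
    have := mul_le_mul_of_nonneg_right h2 hlogQ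
    unfold ΨR
    linarith
  calc M.ΨR hc R g N = sn * (γ * M.ΨR hc R g N) := by rw [hγ]; field_simp
    _ ≤ sn * (Real.log D + N / n * Real.log Q) := mul_le_mul_of_nonneg_left h3 hsnpos.le
    _ = sn * Real.log D + N / sn * Real.log Q := by
        rw [← hsq]; field_simp

end Model

end

end MP_daa227_pr
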