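import Mathlib

set_option autoImplicit false

/-!
A sum of stretched exponentials, arbitrary exponent.
-/

namespace MP_daa227_pr

theorem exp_series_le' {r : ℝ} (hr : 0 < r) : ∃ M : ℝ, 0 < M ∧ ∃ p : ℕ, ∀ a : ℝ, 0 < a → a ≤ 1 →
    ∀ m n : ℕ, ∑ L ∈ Finset.Ioc m n, Real.exp (-a * (L : ℝ) ^ r) ≤
      M / a ^ p * Real.exp (-(a / 2) * (m : ℝ) ^ r) := by
  obtain ⟨p, hp⟩ : ∃ p : ℕ, 1 < (p : ℝ) * r := by
    obtain ⟨p, hp⟩ := exists_nat_gt (1 / r)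
    refine ⟨p, ?_⟩
    rw [div_lt_iff₀ hr] at hp
    exact hp
  have hs : Summable (fun L : ℕ => (L : ℝ) ^ (-((p : ℝ) * r))) :=
    Real.summable_nat_rpow.mpr (by linarith)
  have hnn : ∀ L : ℕ, 0 ≤ (L : ℝ) ^ (-((p : ℝ) * r)) :=
    fun L => Real.rpow_nonneg (Nat.cast_nonneg L) _
  set Z : ℝ := ∑' L : ℕ, (L : ℝ) ^ (-((p : ℝ) * r)) with hZ
  have hZ0 : 0 ≤ Z := tsum_nonneg hnn
  set F : ℝ := (Nat.factorial p : ℝ) with hF
  have hF0 : 0 < F := by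
    rw [hF]
    exact_mod_cast Nat.factorial_pos p
  refine ⟨F * 2 ^ p * Z + 1, by positivity, p, ?_⟩
  intro a ha _ m n
  have ha4 : 0 < a ^ p := by positivity
  have key : ∀ L ∈ Finset.Ioc m n, Real.exp (-a * (L : ℝ) ^ r) ≤
      F * 2 ^ p / a ^ p * Real.exp (-(a / 2) * (m : ℝ) ^ r) * (L : ℝ) ^ (-((p : ℝ) * r)) := by
    intro L hL
    rw [Finset.mem_Ioc] at hL
    have hLpos : (0 : ℝ) < L := by
      have : 0 < L := by omega
      exact_mod_cast this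
    have hmL : (m : ℝ) ^ r ≤ (L : ℝ) ^ r :=
      Real.rpow_le_rpow (Nat.cast_nonneg m) (by exact_mod_cast hL.1.le) (by linarith)
    have hLr : 0 < (L : ℝ) ^ r := Real.rpow_pos_of_pos hLpos r
    set y : ℝ := a / 2 * (L : ℝ) ^ r with hy
    have hy0 : 0 < y := by positivity
    have h1 : Real.exp (-a * (L : ℝ) ^ r) = Real.exp (-y) * Real.exp (-y) := by
      rw [← Real.exp_add]
      congr 1
      rw [hy]
      ring
    have h2 : Real.exp (-y) ≤ Real.exp (-(a / 2) * (m : ℝ) ^ r) := by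
      apply Real.exp_le_exp.mpr
      rw [hy]
      nlinarith
    have h3 : Real.exp (-y) ≤ F / y ^ p := by
      have h4 : y ^ p / F ≤ Real.exp y := Real.pow_div_factorial_le_exp y hy0.le p
      rw [Real.exp_neg, inv_le_comm₀ (Real.exp_pos y) (by positivity)]
      rw [inv_div]
      exact h4
    have hLp : ((L : ℝ) ^ r) ^ p = (L : ℝ) ^ ((p : ℝ) * r) := by
      rw [← Real.rpow_natCast ((L : ℝ) ^ r) p, ← Real.rpow_mul hLpos.le, mul_comm r]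
    have hL4 : 0 < (L : ℝ) ^ ((p : ℝ) * r) := Real.rpow_pos_of_pos hLpos _
    have h5 : F / y ^ p = F * 2 ^ p / a ^ p * (L : ℝ) ^ (-((p : ℝ) * r)) := by
      rw [hy, mul_pow, div_pow, hLp, Real.rpow_neg hLpos.le]
      field_simp
    rw [h1]
    calc Real.exp (-y) * Real.exp (-y)
        ≤ Real.exp (-(a / 2) * (m : ℝ) ^ r) * (F / y ^ p) := by
          gcongr
      _ = F * 2 ^ p / a ^ p * Real.exp (-(a / 2) * (m : ℝ) ^ r) *
          (L : ℝ) ^ (-((p : ℝ) * r)) := by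
          rw [h5]
          ring
  calc ∑ L ∈ Finset.Ioc m n, Real.exp (-a * (L : ℝ) ^ r)
      ≤ ∑ L ∈ Finset.Ioc m n,
        F * 2 ^ p / a ^ p * Real.exp (-(a / 2) * (m : ℝ) ^ r) * (L : ℝ) ^ (-((p : ℝ) * r)) :=
        Finset.sum_le_sum key
    _ = F * 2 ^ p / a ^ p * Real.exp (-(a / 2) * (m : ℝ) ^ r) *
        ∑ L ∈ Finset.Ioc m n, (L : ℝ) ^ (-((p : ℝ) * r)) := by rw [Finset.mul_sum]
    _ ≤ F * 2 ^ p / a ^ p * Real.exp (-(a / 2) * (m : ℝ) ^ r) * Z := by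
        have h6 : ∑ L ∈ Finset.Ioc m n, (L : ℝ) ^ (-((p : ℝ) * r)) ≤ Z :=
          hs.sum_le_tsum _ (fun L _ => hnn L)
        have h7 : 0 ≤ F * 2 ^ p / a ^ p * Real.exp (-(a / 2) * (m : ℝ) ^ r) := by positivity
        exact mul_le_mul_of_nonneg_left h6 h7
    _ = F * 2 ^ p * Z / a ^ p * Real.exp (-(a / 2) * (m : ℝ) ^ r) := by ring
    _ ≤ (F * 2 ^ p * Z + 1) / a ^ p * Real.exp (-(a / 2) * (m : ℝ) ^ r) := by
        gcongr
        linarith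

end MP_daa227_pr
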