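import Pool.Agent.Lib.MP_daa227_pr.Key2
import Pool.Agent.Lib.MP_daa227_pr.BigGap
import Pool.Agent.Lib.MP_daa227_pr.Ser2
import Pool.Agent.Lib.MP_daa227_pr.ExpS
import Pool.Agent.Lib.MP_daa227_pr.Scale

/-!
# The key inequality for the model and the bound for one scale of gaps
-/

open MeasureTheory ProbabilityTheory Set Filter
open scoped ENNReal Topology

namespace MP_daa227_pr

noncomputable section

set_option linter.unusedSectionVars false

lemma ExpSum.translate' {Φ : ℝ} {n : ℕ} {F : (ℕ → ℝ) → ℝ} (hF : ExpSum Φ n F) (c : ℝ) :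
    ExpSum Φ n (fun u => F (fun k => u k - c)) := by
  obtain ⟨m, a, ψ, ha, hψ, hF⟩ := hF
  refine ⟨m, fun i => a i * Real.exp (-c * ∑ k ∈ Finset.range n, ψ i k), ψ,
    fun i => mul_nonneg (ha i) (Real.exp_pos _).le, hψ, fun u => ?_⟩
  dsimp only
  rw [hF]
  apply Finset.sum_congr rfl
  intro i _
  rw [mul_assoc, ← Real.exp_add]
  congr 2
  rw [Finset.mul_sum, ← Finset.sum_add_distrib]
  apply Finset.sum_congr rfl
  intro k _
  ring

namespace Model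

variable (M : Model)

/-- **Key inequality** for the constrained partition function. -/
lemma key_Z : ∃ Ck : ℝ, 0 < Ck ∧ ∃ γ₀ : ℝ, 0 < γ₀ ∧ γ₀ ≤ 1 ∧ Ck * γ₀ ≤ 1 ∧
    ∀ γ, 0 ≤ γ → γ ≤ γ₀ → ∀ (h : ℝ) (n : ℕ), Even n →
      mom M.μ γ (fun ω => M.Z (h + Ck * γ) n ω 0 0) ≤
        ENNReal.ofReal (Real.exp (γ * M.Ψ h n)) := by
  obtain ⟨Ck, hCk, γ₀, hγ₀, hγ₀1, hCγ, hkey⟩ := key M.exp_mom M.β_pos M.Φ_pos
  refine ⟨Ck, hCk, γ₀, hγ₀, hγ₀1, hCγ, fun γ h0 h1 h n hn => ?_⟩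
  have hE := (expSum_Zk M.C (fun x => ⟨(M.φ_pos x).le, M.φ_le x⟩) n 0 0).translate' h
  have e1 : ∀ (h' : ℝ) (ω : ℕ → ℝ), M.Z h' n ω 0 0 =
      Zk M.C (Wu M.φ) n (fun k => M.β * ω k - h') 0 0 := fun h' ω =>
    Zk_Wu M.C M.φ M.β h' n ω 0 0
  have hpos : ∃ u : ℕ → ℝ, 0 < Zk M.C (Wu M.φ) n (fun k => u k - h) 0 0 := by
    refine ⟨fun _ => M.β * 0, ?_⟩
    have := M.Z_pos h hn (fun _ => 0)
    rw [e1] at this
    exact this
  have h2 := hkey γ h0 h1 n _ hE hpos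
  have e2 : (fun ω : ℕ → ℝ => M.Z (h + Ck * γ) n ω 0 0) =
      fun ω => Zk M.C (Wu M.φ) n (fun k => M.β * ω k - Ck * γ - h) 0 0 := by
    funext ω
    rw [e1]
    congr 1
    funext k
    ring
  rw [e2]
  refine h2.trans (le_of_eq ?_)
  unfold Ψ
  simp only [e1]

/-- Comparison of the gap kernels for two fields. -/
lemma G_shift {h δ : ℝ} (hδ : 0 ≤ δ) (R : ℕ) : ∀ (L : ℕ) (ω : ℕ → ℝ) (x y : ℤ),
    Real.exp (δ * M.φ y) * M.G (h + δ) R L ω x y ≤ M.G h R L ω x y := by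
  have hW : ∀ a z, M.W (h + δ) a z ≤ M.W h a z := by
    intro a z
    unfold W
    apply Real.exp_le_exp.2
    exact mul_le_mul_of_nonneg_right (by linarith) (M.φ_pos z).le
  have hWm : ∀ a y, Real.exp (δ * M.φ y) * M.W (h + δ) a y = M.W h a y := by
    intro a y
    unfold W
    rw [← Real.exp_add]
    congr 1
    ring
  intro L
  induction L with
  | zero => intro ω x y; simp [G, Gk]
  | succ L ih =>
    intro ω x y
    unfold G at ih ⊢
    simp only [Gk]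
    rw [mul_add, Finset.mul_sum]
    apply add_le_add
    · split_ifs
      · calc Real.exp (δ * M.φ y) * (M.C.p x y * M.W (h + δ) (ω 0) y)
            = M.C.p x y * (Real.exp (δ * M.φ y) * M.W (h + δ) (ω 0) y) := by ring
          _ ≤ _ := by rw [hWm]
      · simp
    · apply Finset.sum_le_sum
      intro z _
      calc Real.exp (δ * M.φ y) *
            (M.C.p x z * M.W (h + δ) (ω 0) z * Gk M.C (M.W (h + δ)) _ L (shift 1 ω) z y)
          = (M.C.p x z * M.W (h + δ) (ω 0) z) *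
            (Real.exp (δ * M.φ y) * Gk M.C (M.W (h + δ)) _ L (shift 1 ω) z y) := by ring
        _ ≤ (M.C.p x z * M.W h (ω 0) z) * Gk M.C (M.W h) _ L (shift 1 ω) z y := by
            apply mul_le_mul (mul_le_mul_of_nonneg_left (hW _ _) (M.C.nonneg _ _)) (ih _ _ _)
            · exact mul_nonneg (Real.exp_pos _).le ((M.good_G (h + δ) R L z y).nonneg _)
            · exact mul_nonneg (M.C.nonneg _ _) (M.W_pos _ _ _).le

/-- The bound for one scale of gaps. -/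
lemma scale_key {r : ℝ} (hr : 0 < r) {R K : ℕ} {C₁ c₂ CB H hlo : ℝ} (hC₁ : 1 ≤ C₁) (hc₂ : 0 < c₂)
    (hc₂1 : c₂ ≤ 1) (hCB : 1 ≤ CB) {Ck γ₀ : ℝ} (hCk : 0 < Ck) (hγ₀1 : γ₀ ≤ 1) (hCkγ : Ck * γ₀ ≤ 1)
    (hkey : ∀ γ, 0 ≤ γ → γ ≤ γ₀ → ∀ (h : ℝ) (n : ℕ), Even n →
      mom M.μ γ (fun ω => M.Z (h + Ck * γ) n ω 0 0) ≤ ENNReal.ofReal (Real.exp (γ * M.Ψ h n)))
    (hgap : ∀ h, hlo ≤ h → h ≤ H → ∀ γ, 0 < γ → γ ≤ γ₀ → ∀ L : ℕ, 1 ≤ L →
      ∀ x ∈ Finset.Icc (-(R : ℤ)) R, ∀ y ∈ Finset.Icc (-(R : ℤ)) R,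
        mom M.μ γ (fun ω => M.G h R L ω x y) ≤
          ENNReal.ofReal (C₁ * Real.exp (-(γ * c₂) * (L : ℝ) ^ r)))
    (hext : ∀ h, |h| ≤ H → ∀ γ, 0 ≤ γ → γ ≤ 1 →
      ∀ x ∈ Finset.Icc (-(R : ℤ)) R, ∀ y ∈ Finset.Icc (-(R : ℤ)) R, ∀ l : ℕ, ∃ m : ℕ, Even m ∧ l ≤ m ∧
        m ≤ l + K ∧ mom M.μ γ (fun ω => M.Z h l ω x y) ≤
          ENNReal.ofReal CB * mom M.μ γ (fun ω => M.Z h m ω 0 0)) :
    ∃ A : ℝ, 1 ≤ A ∧ ∃ p : ℕ, ∀ h, hlo ≤ h → 0 ≤ h → h + 1 ≤ H → ∀ F : ℝ, 0 < F → F ≤ 1 →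
      M.Fr h ≤ F → ∀ γ, 0 < γ → γ ≤ γ₀ → ∀ ε, 0 < ε → ε ≤ 1 → ∀ m : ℕ,
        A * Real.exp (-(γ * c₂ / 4) * (m : ℝ) ^ r) ≤ γ ^ (p + 1) * F * ε →
        ∀ g : ℕ → ℝ, (∀ L ≤ m, g L = 0) → (∀ L, 0 ≤ g L) →
          (∀ L, g L ≤ c₂ / 2 * (L : ℝ) ^ r + F * L) →
          ∀ N : ℕ, Even N → M.ΨR (h + Ck * γ) R g N ≤ F * (1 + ε) * N + Real.log A / γ := by
  obtain ⟨Ms, hMs, p, hser⟩ := exp_series_le' hr
  set B := Finset.Icc (-(R : ℤ)) R with hB
  set D := CB * Real.exp K with hD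
  have hD1 : 1 ≤ D := by
    rw [hD]
    exact one_le_mul_of_one_le_of_one_le hCB (Real.one_le_exp (Nat.cast_nonneg _))
  have hD0 : 0 < D := by linarith
  set A₂ := (B.card : ℝ) ^ 2 * (4 * D) * (C₁ * Ms * (2 / c₂) ^ p) with hA₂
  have hA₂0 : 0 ≤ A₂ := by positivity
  refine ⟨2 * D + A₂, by linarith, p, ?_⟩
  intro h hlo' hh0 hhH F hF hF1 hFr γ hγ hγγ₀ ε hε hε1 m hsm g hg0 hgn hgu N hN
  set h' := h + Ck * γ with hh'
  have hγ1 : γ ≤ 1 := hγγ₀.trans hγ₀1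
  have hCγ : Ck * γ ≤ 1 := (mul_le_mul_of_nonneg_left hγγ₀ hCk.le).trans hCkγ
  have hCγ0 : 0 < Ck * γ := mul_pos hCk hγ
  have hh'H : h' ≤ H := by rw [hh']; linarith
  have hh'lo : hlo ≤ h' := by rw [hh']; linarith
  have hh'abs : |h'| ≤ H := by rw [abs_of_nonneg (by rw [hh']; linarith)]; exact hh'H
  set a := γ * c₂ / 2 with ha
  have ha0 : 0 < a := by positivity
  have ha1 : a ≤ 1 := by
    have : γ * c₂ ≤ 1 := mul_le_one₀ hγ1 hc₂.le hc₂1
    rw [ha]; linarith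
  set x₀ := γ * F * ε with hx₀
  have hx₀0 : 0 < x₀ := by positivity
  have hx₀1 : x₀ ≤ 1 := mul_le_one₀ (mul_le_one₀ hγ1 hF.le hF1) hε.le hε1
  set τ := γ * F * (1 + ε) with hτ
  have hτa : τ - γ * F = x₀ := by rw [hτ, hx₀]; ring
  set Gs : ℕ → (ℕ → ℝ) → ℤ → ℤ → ℝ := fun L ω x y => if m < L then 0 else M.G h' R L ω x y with hGs
  set Gb : ℕ → (ℕ → ℝ) → ℤ → ℤ → ℝ := fun L ω x y =>
    if m < L then Real.exp (g L) * M.G h' R L ω x y else 0 with hGb
  have hgood_s : ∀ L x y, Good L M.κ (fun ω => Gs L ω x y) := by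
    intro L x y
    by_cases hL : m < L
    · simp only [hGs, if_pos hL]
      exact Good.const M.κ_pos.le le_rfl
    · simp only [hGs, if_neg hL]
      exact M.good_G h' R L x y
  have hgood_b : ∀ L x y, Good L M.κ (fun ω => Gb L ω x y) := by
    intro L x y
    by_cases hL : m < L
    · simp only [hGb, if_pos hL]
      exact (M.good_G h' R L x y).const_mul (Real.exp_pos _).le
    · simp only [hGb, if_neg hL]
      exact Good.const M.κ_pos.le le_rfl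
  have hsplit : ∀ L ω x y, M.Gt h' R g L ω x y = Gs L ω x y + Gb L ω x y := by
    intro L ω x y
    by_cases hL : m < L
    · simp only [hGs, hGb, if_pos hL, Gt, zero_add]
    · simp only [hGs, hGb, if_neg hL, Gt, add_zero]
      rw [hg0 L (by omega), Real.exp_zero, one_mul]
  -- short sums
  have hζ : ∀ t : ℕ, ∀ x ∈ B, ∀ y ∈ B,
      mom M.μ γ (fun ω => Ren Gs B t ω x y) ≤ ENNReal.ofReal (D * Real.exp (γ * F * t)) := by
    intro t x hx y hy
    have h1 : ∀ ω, Ren Gs B t ω x y ≤ M.Z h' t ω x y := by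
      intro ω
      rw [M.Z_eq_Ren h' R t ω x hy]
      refine (Ren_mono Gs (M.G h' R) B t (fun L _ ω x y _ => ⟨(hgood_s L x y).nonneg ω, ?_⟩) ω x y).2
      simp only [hGs]
      split_ifs
      · exact (M.good_G h' R L x y).nonneg ω
      · exact le_rfl
    refine (mom_mono hγ.le h1).trans ?_
    obtain ⟨m', hm', _, hm2, hm3⟩ := hext h' hh'abs γ hγ.le hγ1 x hx y hy t
    refine hm3.trans ?_
    refine (mul_le_mul_right (hkey γ hγ.le hγγ₀ h m' hm') _).trans ?_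
    rw [← ENNReal.ofReal_mul (by linarith)]
    apply ENNReal.ofReal_le_ofReal
    rw [hD, mul_assoc, ← Real.exp_add]
    apply mul_le_mul_of_nonneg_left _ (by linarith)
    apply Real.exp_le_exp.2
    have h2 : M.Ψ h m' ≤ m' * F :=
      (M.Ψ_le_Fr h hm').trans (mul_le_mul_of_nonneg_left hFr (Nat.cast_nonneg _))
    have h3 : (m' : ℝ) * F ≤ (t + K) * F := by
      apply mul_le_mul_of_nonneg_right _ hF.le
      exact_mod_cast hm2
    have h4 : γ * M.Ψ h m' ≤ γ * ((t + K) * F) := mul_le_mul_of_nonneg_left (h2.trans h3) hγ.le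
    have h5 : γ * F * K ≤ K := by
      have := mul_le_mul_of_nonneg_right (mul_le_one₀ hγ1 hF.le hF1) (Nat.cast_nonneg (α := ℝ) K)
      linarith
    linarith
  set κ' : ℕ → ℝ := fun L => if m < L then C₁ * Real.exp (-a * (L : ℝ) ^ r) else 0 with hκ'def
  have hκ'0 : ∀ t, 0 ≤ κ' t := by
    intro t; rw [hκ'def]; dsimp only; split_ifs <;> positivity
  have hκ : ∀ L : ℕ, 1 ≤ L → ∀ x ∈ B, ∀ y ∈ B, mom M.μ γ (fun ω => Gb L ω x y) ≤
      ENNReal.ofReal (κ' L * Real.exp (τ * L)) := by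
    intro L hL x hx y hy
    by_cases hmL : m < L
    · simp only [hGb, hκ'def, if_pos hmL]
      rw [mom_const_mul (F := fun ω => M.G h' R L ω x y) hγ.le (Real.exp_pos _).le
        (M.good_G h' R L x y).meas]
      refine (mul_le_mul_right (hgap h' hh'lo hh'H γ hγ hγγ₀ L hL x hx y hy) _).trans ?_
      rw [ENNReal.ofReal_rpow_of_pos (Real.exp_pos _), ← ENNReal.ofReal_mul (by positivity),
        ← Real.exp_mul]
      apply ENNReal.ofReal_le_ofReal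
      calc Real.exp (g L * γ) * (C₁ * Real.exp (-(γ * c₂) * (L : ℝ) ^ r))
          = C₁ * Real.exp (g L * γ + -(γ * c₂) * (L : ℝ) ^ r) := by rw [Real.exp_add]; ring
        _ ≤ C₁ * Real.exp (-a * (L : ℝ) ^ r + τ * L) := by
            apply mul_le_mul_of_nonneg_left _ (by linarith)
            apply Real.exp_le_exp.2
            have h3 := mul_le_mul_of_nonneg_right (hgu L) hγ.le
            have h4 : 0 ≤ γ * F * ε * L := by positivity
            have h5 : τ * L = F * L * γ + γ * F * ε * L := by rw [hτ]; ring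
            rw [h5, ha]
            linarith
        _ = C₁ * Real.exp (-a * (L : ℝ) ^ r) * Real.exp (τ * L) := by rw [Real.exp_add]; ring
    · simp only [hGb, hκ'def, if_neg hmL]
      rw [mom_zero hγ]
      exact bot_le
  set S := C₁ * (Ms / a ^ p * Real.exp (-(a / 2) * (m : ℝ) ^ r)) with hS
  have hS0 : 0 ≤ S := by positivity
  have hSum : ∀ n : ℕ, ∑ L ∈ Finset.Ioc 0 n, κ' L ≤ S := by
    intro n
    have h1 : ∑ L ∈ Finset.Ioc 0 n, κ' L ≤
        ∑ L ∈ Finset.Ioc m n, C₁ * Real.exp (-a * (L : ℝ) ^ r) := by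
      rw [hκ'def]
      dsimp only
      rw [← Finset.sum_filter]
      apply Finset.sum_le_sum_of_subset_of_nonneg
      · intro L hL
        rw [Finset.mem_filter, Finset.mem_Ioc] at hL
        rw [Finset.mem_Ioc]
        omega
      · intro L _ _
        positivity
    refine h1.trans ?_
    rw [← Finset.mul_sum, hS]
    exact mul_le_mul_of_nonneg_left (hser a ha0 ha1 m n) (by linarith)
  have hq : (B.card : ℝ) ^ 2 * (2 * D) * S ≤ 1 - Real.exp (-(τ - γ * F)) := by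
    rw [hτa]
    have h1 : x₀ / 2 ≤ 1 - Real.exp (-x₀) := by
      have h3 : Real.exp (-x₀) ≤ 1 - x₀ + x₀ ^ 2 / 2 := by
        have h4 := Real.quadratic_le_exp_of_nonneg hx₀0.le
        rw [Real.exp_neg]
        rw [inv_le_comm₀ (Real.exp_pos _) (by nlinarith)]
        refine le_trans ?_ h4
        rw [inv_le_iff_one_le_mul₀ (by nlinarith)]
        nlinarith [pow_pos hx₀0 3, pow_pos hx₀0 4]
      nlinarith
    refine le_trans ?_ h1
    have h5 : (B.card : ℝ) ^ 2 * (2 * D) * S = A₂ / γ ^ p * Real.exp (-(γ * c₂ / 4) * (m : ℝ) ^ r) / 2 := by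
      rw [hS, hA₂, ha, show -(γ * c₂ / 2 / 2) * (m : ℝ) ^ r = -(γ * c₂ / 4) * (m : ℝ) ^ r by ring]
      rw [div_pow, div_pow, mul_pow]
      field_simp
      ring
    rw [h5]
    have h6 : A₂ * Real.exp (-(γ * c₂ / 4) * (m : ℝ) ^ r) ≤ γ ^ (p + 1) * F * ε := by
      refine le_trans ?_ hsm
      exact mul_le_mul_of_nonneg_right (by linarith) (Real.exp_pos _).le
    have h7 : A₂ / γ ^ p * Real.exp (-(γ * c₂ / 4) * (m : ℝ) ^ r) ≤ x₀ := by
      rw [div_mul_eq_mul_div, div_le_iff₀ (by positivity)]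
      refine h6.trans (le_of_eq ?_)
      rw [hx₀]; ring
    linarith
  have hmom := mom_Ren_split hγ hγ1 M.κ_pos.le hgood_s hgood_b hsplit hD0.le
    (by rw [hτ]; nlinarith [mul_pos hγ hF]) hκ'0 hζ hκ hSum hq N 0 (zero_mem_box R) 0
    (zero_mem_box R)
  have hpos : ∀ ω, 0 < M.Rt h' R g N ω := M.Rt_pos h' R hN hgn
  have hJ := (exp_le_mom' M.exp_mom hγ.le (M.good_Rt h' R g N) hpos).trans hmom
  rw [ENNReal.ofReal_le_ofReal_iff (by positivity)] at hJ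
  have h1 := Real.log_le_log (Real.exp_pos _) hJ
  rw [Real.log_exp, Real.log_mul (by positivity) (Real.exp_pos _).ne', Real.log_exp] at h1
  have h2 : Real.log (2 * D) ≤ Real.log (2 * D + A₂) :=
    Real.log_le_log (by positivity) (by linarith)
  have h3 : γ * M.ΨR h' R g N ≤ Real.log (2 * D + A₂) + τ * N := by
    unfold ΨR
    linarith
  have h4 : M.ΨR h' R g N = (γ * M.ΨR h' R g N) / γ := by field_simp
  rw [h4]
  have h5 : F * (1 + ε) * N + Real.log (2 * D + A₂) / γ =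
      (Real.log (2 * D + A₂) + τ * N) / γ := by
    rw [hτ]; field_simp; ring
  rw [h5]
  exact div_le_div_of_nonneg_right h3 hγ.le

end Model

end

end MP_daa227_pr
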