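import Pool.Agent.Lib.MP_daa227_pr.Gap
import Pool.Agent.Lib.MP_daa227_pr.Deco

/-!
# The free energy as limit of the free partition functions
-/

open MeasureTheory ProbabilityTheory Set Filter
open scoped ENNReal Topology

namespace MP_daa227_pr

noncomputable section

set_option linter.unusedSectionVars false

lemma Zk_mul_Zf_le (C : Chain) (W : ℝ → ℤ → ℝ) (hW : ∀ a z, 0 ≤ W a z) :
    ∀ (m n : ℕ) (ω : ℕ → ℝ) (x y : ℤ),
      Zk C W m ω x y * Zf C W n (shift m ω) y ≤ Zf C W (m + n) ω x := by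
  have hZ0 : ∀ (n : ℕ) (ω : ℕ → ℝ) (x : ℤ), 0 ≤ Zf C W n ω x := by
    intro n
    induction n with
    | zero => intro ω x; simp only [Zf]; exact zero_le_one
    | succ n ih =>
      intro ω x
      simp only [Zf]
      exact Finset.sum_nonneg fun z _ => mul_nonneg (mul_nonneg (C.nonneg _ _) (hW _ _)) (ih _ _)
  intro m
  induction m with
  | zero =>
    intro n ω x y
    simp only [Zk, shift_zero, Nat.zero_add]
    split_ifs with h
    · rw [h, one_mul]
    · rw [zero_mul]; exact hZ0 _ _ _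
  | succ m ih =>
    intro n ω x y
    rw [show m + 1 + n = (m + n) + 1 by omega]
    simp only [Zk, Zf]
    rw [Finset.sum_mul]
    apply Finset.sum_le_sum
    intro w _
    rw [mul_assoc]
    apply mul_le_mul_of_nonneg_left _ (mul_nonneg (C.nonneg _ _) (hW _ _))
    have h1 := ih n (shift 1 ω) w y
    rw [shift_shift] at h1
    exact h1

lemma Zf_pos (C : Chain) {W : ℝ → ℤ → ℝ} (hW : ∀ a z, 0 < W a z) :
    ∀ (n : ℕ) (ω : ℕ → ℝ) (x : ℤ), 0 < Zf C W n ω x
  | 0, ω, x => by simp only [Zf]; exact one_pos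
  | n + 1, ω, x => by
      simp only [Zf]
      apply Finset.sum_pos'
      · intro z _
        exact mul_nonneg (mul_nonneg (C.nonneg _ _) (hW _ _).le) (Zf_pos C hW n _ _).le
      · refine ⟨x + 1, by simp only [Finset.mem_Icc]; omega, ?_⟩
        exact mul_pos (mul_pos (C.up x) (hW _ _)) (Zf_pos C hW n _ _)

namespace Model

variable (M : Model)

/-- The free partition function. -/
def Zl (h : ℝ) (n : ℕ) (ω : ℕ → ℝ) : ℝ := Zf M.C (M.W h) n ω 0

lemma good_Zl (h : ℝ) (n : ℕ) : Good n M.κ (fun ω => M.Zl h n ω) :=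
  good_Zf M.C M.κ_pos.le (M.goodW h) n 0

lemma Zl_pos (h : ℝ) (n : ℕ) (ω : ℕ → ℝ) : 0 < M.Zl h n ω := Zf_pos M.C (M.W_pos h) n ω 0

/-- Quenched average for the free partition function. -/
def ΨF (h : ℝ) (n : ℕ) : ℝ := ∫ ω, Real.log (M.Zl h n ω) ∂seqLaw M.μ

lemma integrable_logZl (h : ℝ) (n : ℕ) : Integrable (fun ω => Real.log (M.Zl h n ω)) (seqLaw M.μ) :=
  (M.good_Zl h n).integrable_log M.exp_mom (M.Zl_pos h n)

lemma ΨF_ge (h : ℝ) {m : ℕ} (hm : Even m) (n : ℕ) : M.Ψ h m + M.ΨF h n ≤ M.ΨF h (m + n) := by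
  have h1 : M.ΨF h n = ∫ ω, Real.log (M.Zl h n (shift m ω)) ∂seqLaw M.μ :=
    (integral_shift M.μ m (Y := fun ω => Real.log (M.Zl h n ω)) (M.good_Zl h n).meas.log).symm
  have h2 := integrable_shift M.μ m (Y := fun ω => Real.log (M.Zl h n ω)) (M.good_Zl h n).meas.log
    (M.integrable_logZl h n)
  rw [h1]
  unfold Ψ ΨF
  rw [← integral_add (M.integrable_logZ h hm) h2]
  apply integral_mono ((M.integrable_logZ h hm).add h2) (M.integrable_logZl h (m + n))
  intro ω
  simp only [Pi.add_apply]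
  rw [← Real.log_mul (M.Z_pos h hm ω).ne' (M.Zl_pos h n _).ne']
  exact Real.log_le_log (mul_pos (M.Z_pos h hm ω) (M.Zl_pos h n _))
    (Zk_mul_Zf_le M.C (M.W h) (fun a z => (M.W_pos h a z).le) m n ω 0 0)

/-- Upper bound for the free partition function. -/
lemma ΨF_le {h : ℝ} (hFr : 0 ≤ M.Fr h) {ε γ : ℝ} (hε : 0 < ε) (h0 : 0 < γ) (h1 : γ ≤ 1) :
    ∃ K : ℕ, ∃ A : ℝ, 1 ≤ A ∧ ∀ N : ℕ, M.ΨF h N ≤
      (N + K) * M.Fr h + concK M.μ M.κ * γ * (N + K) + ε * N + 1 / γ * Real.log (A * (N + 1)) := by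
  have hA := M.A_nonneg
  have hΦ := M.Φ_pos
  have ha0 : 0 < ε / (|h| + M.A * M.β ^ 2 * M.Φ + 1) := by positivity
  obtain ⟨R, hR⟩ := exists_box M.φ_lim ha0
  obtain ⟨K, CB, hCB, hext⟩ := M.ext_bound |h| R
  set B := Finset.Icc (-(R : ℤ)) R with hB
  have h0B : (0 : ℤ) ∈ B := by rw [hB, Finset.mem_Icc]; omega
  have hcard : (1 : ℝ) ≤ B.card := by exact_mod_cast Finset.card_pos.2 ⟨0, h0B⟩
  set Kc := concK M.μ M.κ with hKc
  have hKc0 : 0 ≤ Kc := concK_nonneg _ _
  refine ⟨K, B.card * CB, one_le_mul_of_one_le_of_one_le hcard hCB, fun N => ?_⟩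
  -- annealed weights outside the box
  have hv : ∀ z ∉ B, mom M.μ 1 (fun ω => M.W h (ω 0) z) ≤ ENNReal.ofReal (Real.exp ε) := by
    intro z hz
    apply M.EW_le_of
    have h2 := hR z hz
    rw [lt_div_iff₀ (by positivity)] at h2
    have h3 := M.φ_pos z
    have h4 : -h * M.φ z ≤ |h| * M.φ z := mul_le_mul_of_nonneg_right (neg_le_abs h) h3.le
    have h5 : M.A * M.β ^ 2 * M.φ z ^ 2 ≤ M.A * M.β ^ 2 * M.Φ * M.φ z := by
      have := mul_le_mul_of_nonneg_left (M.φ_le z) (mul_nonneg (mul_nonneg hA (sq_nonneg M.β)) h3.le)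
      nlinarith
    nlinarith
  have hGf : ∀ (n : ℕ) (y : ℤ), mom M.μ γ (fun ω => Gf M.C (M.W h) B n ω y) ≤
      ENNReal.ofReal (Real.exp (γ * ε * n)) := by
    intro n y
    have hg := good_Gf M.C M.κ_pos.le (M.goodW h) B n y
    refine (mom_le_rpow h0 h1 hg.meas hg.nonneg).trans ?_
    refine (ENNReal.rpow_le_rpow (mom_one_Gf_le M.C M.κ_pos.le (M.goodW h) B (Real.exp_pos _).le hv n y)
      h0.le).trans ?_
    rw [ENNReal.ofReal_rpow_of_pos (pow_pos (Real.exp_pos _) _)]
    apply ENNReal.ofReal_le_ofReal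
    rw [← Real.exp_nat_mul, ← Real.exp_mul]
    apply le_of_eq
    congr 1
    ring
  have hZk : ∀ u ≤ N, ∀ y ∈ B, mom M.μ γ (fun ω => M.Z h u ω 0 y) ≤
      ENNReal.ofReal (CB * Real.exp (γ * ((N + K) * M.Fr h) + Kc * γ ^ 2 * (N + K))) := by
    intro u hu y hy
    obtain ⟨m, hm, hm1, hm2, hm3⟩ := hext h le_rfl γ h0.le h1 0 h0B y hy u
    refine hm3.trans ?_
    refine (mul_le_mul_right (M.mom_Z_le_exp h0.le h1 h hm) _).trans ?_
    rw [← ENNReal.ofReal_mul (by linarith)]
    apply ENNReal.ofReal_le_ofReal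
    apply mul_le_mul_of_nonneg_left _ (by linarith)
    apply Real.exp_le_exp.2
    have hmN : (m : ℝ) ≤ N + K := by
      have : m ≤ N + K := by omega
      exact_mod_cast this
    have h2 : M.Ψ h m ≤ (N + K) * M.Fr h :=
      (M.Ψ_le_Fr h hm).trans (mul_le_mul_of_nonneg_right hmN hFr)
    have h3 := mul_le_mul_of_nonneg_left h2 h0.le
    have h4 : Kc * γ ^ 2 * m ≤ Kc * γ ^ 2 * (N + K) := mul_le_mul_of_nonneg_left hmN (by positivity)
    linarith
  have hmom : mom M.μ γ (fun ω => M.Zl h N ω) ≤ ENNReal.ofReal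
      ((B.card * CB * (N + 1)) * Real.exp (γ * ((N + K) * M.Fr h) + Kc * γ ^ 2 * (N + K) + γ * ε * N)) := by
    have hlast : ∀ ω, M.Zl h N ω = ∑ u ∈ Finset.range (N + 1), ∑ y ∈ B,
        Zk M.C (M.W h) u ω 0 y * Gf M.C (M.W h) B (N - u) (shift u ω) y := fun ω =>
      Zf_last M.C (M.W h) B N ω 0 h0B
    rw [mom_congr hlast]
    have hgood : ∀ u ∈ Finset.range (N + 1), ∀ y, Good N M.κ (fun ω =>
        Zk M.C (M.W h) u ω 0 y * Gf M.C (M.W h) B (N - u) (shift u ω) y) := by
      intro u hu y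
      rw [Finset.mem_range] at hu
      have h2 := (M.good_Z h u 0 y).mul_shift (good_Gf M.C M.κ_pos.le (M.goodW h) B (N - u) y)
      rw [show u + (N - u) = N by omega] at h2
      exact h2
    refine (mom_sum_le h0 h1 _ (fun u hu => (Good.sum M.κ_pos.le _ fun y _ => hgood u hu y).meas)
      (fun u hu => (Good.sum M.κ_pos.le _ fun y _ => hgood u hu y).nonneg)).trans ?_
    have hterm : ∀ u ∈ Finset.range (N + 1), mom M.μ γ (fun ω => ∑ y ∈ B,
        Zk M.C (M.W h) u ω 0 y * Gf M.C (M.W h) B (N - u) (shift u ω) y) ≤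
        ENNReal.ofReal (B.card * (CB * Real.exp (γ * ((N + K) * M.Fr h) + Kc * γ ^ 2 * (N + K) + γ * ε * N))) := by
      intro u hu
      refine (mom_sum_le h0 h1 _ (fun y _ => (hgood u hu y).meas) (fun y _ => (hgood u hu y).nonneg)).trans ?_
      have hterm2 : ∀ y ∈ B, mom M.μ γ (fun ω =>
          Zk M.C (M.W h) u ω 0 y * Gf M.C (M.W h) B (N - u) (shift u ω) y) ≤
          ENNReal.ofReal (CB * Real.exp (γ * ((N + K) * M.Fr h) + Kc * γ ^ 2 * (N + K) + γ * ε * N)) := by
        intro y hy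
        have hu' : u ≤ N := by rw [Finset.mem_range] at hu; omega
        rw [mom_mul_shift (k := u) (F := fun ω => Zk M.C (M.W h) u ω 0 y)
          (G := fun ω => Gf M.C (M.W h) B (N - u) ω y) h0.le (M.good_Z h u 0 y).meas
          (good_Gf M.C M.κ_pos.le (M.goodW h) B (N - u) y).meas (M.good_Z h u 0 y).depOn
          (M.good_Z h u 0 y).nonneg]
        refine (mul_le_mul' (hZk u hu' y hy) (hGf (N - u) y)).trans ?_
        rw [← ENNReal.ofReal_mul (by positivity)]
        apply ENNReal.ofReal_le_ofReal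
        rw [mul_assoc, ← Real.exp_add]
        apply mul_le_mul_of_nonneg_left _ (by linarith)
        apply Real.exp_le_exp.2
        have h3 : ((N - u : ℕ) : ℝ) ≤ N := by exact_mod_cast Nat.sub_le _ _
        have h4 := mul_le_mul_of_nonneg_left h3 (mul_pos h0 hε).le
        linarith
      refine (Finset.sum_le_sum hterm2).trans (le_of_eq ?_)
      rw [Finset.sum_const, nsmul_eq_mul, ← ENNReal.ofReal_natCast, ← ENNReal.ofReal_mul (Nat.cast_nonneg _)]
    refine (Finset.sum_le_sum hterm).trans (le_of_eq ?_)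
    rw [Finset.sum_const, Finset.card_range, nsmul_eq_mul, ← ENNReal.ofReal_natCast,
      ← ENNReal.ofReal_mul (Nat.cast_nonneg _)]
    congr 1
    push_cast
    ring
  have hJ := (exp_le_mom' M.exp_mom h0.le (M.good_Zl h N) (M.Zl_pos h N)).trans hmom
  rw [ENNReal.ofReal_le_ofReal_iff (by positivity)] at hJ
  have h2 := Real.log_le_log (Real.exp_pos _) hJ
  rw [Real.log_exp, Real.log_mul (by positivity) (Real.exp_pos _).ne', Real.log_exp] at h2
  have h3 : γ * M.ΨF h N ≤ Real.log (B.card * CB * (N + 1)) +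
      (γ * ((N + K) * M.Fr h) + Kc * γ ^ 2 * (N + K) + γ * ε * N) := h2
  have h4 : M.ΨF h N ≤ (Real.log (B.card * CB * (N + 1)) +
      (γ * ((N + K) * M.Fr h) + Kc * γ ^ 2 * (N + K) + γ * ε * N)) / γ := by
    rw [le_div_iff₀ h0]; linarith
  refine h4.trans (le_of_eq ?_)
  field_simp
  ring

/-- Convergence of the quenched averages of the free partition functions. -/
theorem mean_limit {h : ℝ} (hFr : 0 ≤ M.Fr h) :
    Tendsto (fun N : ℕ => M.ΨF h N / N) atTop (𝓝 (M.Fr h)) := by
  rw [tendsto_order]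
  constructor
  · intro a ha
    -- lower bound
    have h1 : Tendsto (fun N : ℕ => (M.Ψ h (2 * (N / 2)) - |M.ΨF h 1|) / N) atTop (𝓝 (M.Fr h)) := by
      have hdiv : Tendsto (fun N : ℕ => N / 2) atTop atTop := by
        apply tendsto_atTop_atTop.2
        intro b
        exact ⟨2 * b, fun a ha => by omega⟩
      have h2 := (M.tendsto_Fr h).comp hdiv
      have h3 : Tendsto (fun N : ℕ => (2 * ((N / 2 : ℕ) : ℝ)) / N) atTop (𝓝 1) := by
        have h4 : Tendsto (fun N : ℕ => 1 - 1 / (N : ℝ)) atTop (𝓝 1) := by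
          have := (tendsto_one_div_atTop_nhds_zero_nat (𝕜 := ℝ)).const_sub 1
          simpa using this
        refine tendsto_of_tendsto_of_tendsto_of_le_of_le' h4 tendsto_const_nhds ?_ ?_
        · filter_upwards [eventually_gt_atTop 0] with N hN
          have hNR : (0 : ℝ) < N := by exact_mod_cast hN
          rw [le_div_iff₀ hNR, sub_mul, one_mul, one_div_mul_cancel hNR.ne']
          have : N ≤ 2 * (N / 2) + 1 := by omega
          have : (N : ℝ) ≤ 2 * ((N / 2 : ℕ) : ℝ) + 1 := by exact_mod_cast this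
          linarith
        · filter_upwards [eventually_gt_atTop 0] with N hN
          have hNR : (0 : ℝ) < N := by exact_mod_cast hN
          rw [div_le_one hNR]
          have : 2 * (N / 2) ≤ N := by omega
          exact_mod_cast this
      have h5 := h2.mul h3
      have h6 : Tendsto (fun N : ℕ => |M.ΨF h 1| / (N : ℝ)) atTop (𝓝 0) :=
        tendsto_const_div_atTop_nhds_zero_nat _
      have h7 := h5.sub h6
      rw [mul_one, sub_zero] at h7
      refine h7.congr' ?_
      filter_upwards [eventually_ge_atTop 2] with N hN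
      have hN2 : (0 : ℝ) < ((N / 2 : ℕ) : ℝ) := by
        have : 0 < N / 2 := by omega
        exact_mod_cast this
      simp only [Function.comp]
      rw [sub_div]
      congr 1
      field_simp
    filter_upwards [h1.eventually (lt_mem_nhds ha), eventually_gt_atTop 0] with N hN hN0
    have hNR : (0 : ℝ) < N := by exact_mod_cast hN0
    refine hN.trans_le ?_
    apply div_le_div_of_nonneg_right _ hNR.le
    rcases Nat.even_or_odd' N with ⟨m, rfl | rfl⟩
    · have h2 := M.ΨF_ge h (even_two_mul m) 0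
      have h3 : M.ΨF h 0 = 0 := by unfold ΨF Zl; simp [Zf]
      rw [show 2 * m / 2 = m by omega]
      have := abs_nonneg (M.ΨF h 1)
      rw [h3, Nat.add_zero] at h2
      linarith
    · have h2 := M.ΨF_ge h (even_two_mul m) 1
      rw [show (2 * m + 1) / 2 = m by omega]
      have := neg_abs_le (M.ΨF h 1)
      linarith
  · intro a ha
    set Kc := concK M.μ M.κ with hKc
    have hKc0 : 0 ≤ Kc := concK_nonneg _ _
    set e := (a - M.Fr h) / 4 with he
    have he0 : 0 < e := by rw [he]; linarith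
    set γ := min 1 (e / (Kc + 1)) with hγ
    have hγ0 : 0 < γ := lt_min one_pos (by positivity)
    have hγ1 : γ ≤ 1 := min_le_left _ _
    have hγK : Kc * γ ≤ e := by
      have h1 : γ ≤ e / (Kc + 1) := min_le_right _ _
      calc Kc * γ ≤ Kc * (e / (Kc + 1)) := mul_le_mul_of_nonneg_left h1 hKc0
        _ ≤ e := by
            rw [mul_div_assoc', div_le_iff₀ (by positivity)]
            nlinarith
    obtain ⟨K, A, hA, hup⟩ := M.ΨF_le hFr he0 hγ0 hγ1
    -- error terms
    have hlog : Tendsto (fun N : ℕ => Real.log (A * ((N : ℝ) + 1)) / N) atTop (𝓝 0) := by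
      have h1 : Tendsto (fun x : ℝ => Real.log x / x) atTop (𝓝 0) := by
        have := Real.tendsto_pow_log_div_mul_add_atTop 1 0 1 one_ne_zero
        simpa using this
      have h2 : Tendsto (fun N : ℕ => A * ((N : ℝ) + 1)) atTop atTop :=
        (tendsto_natCast_atTop_atTop.atTop_add tendsto_const_nhds).const_mul_atTop (by linarith)
      have h3 := h1.comp h2
      have h4 := h3.mul_const (2 * A)
      rw [zero_mul] at h4
      refine squeeze_zero' ?_ ?_ h4
      · filter_upwards with N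
        apply div_nonneg _ (Nat.cast_nonneg _)
        apply Real.log_nonneg
        have : (0 : ℝ) ≤ N := Nat.cast_nonneg _
        nlinarith
      · filter_upwards [eventually_ge_atTop 1] with N hN
        have hN1 : (1 : ℝ) ≤ N := by exact_mod_cast hN
        have hA0 : 0 < A := by linarith
        have hl : 0 ≤ Real.log (A * ((N : ℝ) + 1)) := Real.log_nonneg (by nlinarith)
        simp only [Function.comp]
        rw [div_mul_eq_mul_div, div_le_div_iff₀ (by linarith) (by positivity)]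
        have h5 : A * ((N : ℝ) + 1) ≤ 2 * A * N := by nlinarith
        have h6 := mul_le_mul_of_nonneg_left h5 hl
        linarith
    have hK : Tendsto (fun N : ℕ => (K * M.Fr h + e * K) / (N : ℝ)) atTop (𝓝 0) :=
      tendsto_const_div_atTop_nhds_zero_nat _
    have herr := (hK.add (hlog.const_mul (1 / γ)))
    rw [mul_zero, add_zero] at herr
    filter_upwards [herr.eventually (gt_mem_nhds he0), eventually_gt_atTop 0] with N hN hN0
    have hNR : (0 : ℝ) < N := by exact_mod_cast hN0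
    have h1 := hup N
    rw [div_lt_iff₀ hNR]
    have h2 : (K * M.Fr h + e * K) + 1 / γ * Real.log (A * ((N : ℝ) + 1)) < e * N := by
      have h3 : ((K * M.Fr h + e * K) / (N : ℝ) + 1 / γ * (Real.log (A * ((N : ℝ) + 1)) / N)) * N < e * N :=
        mul_lt_mul_of_pos_right hN hNR
      have h4 : ((K * M.Fr h + e * K) / (N : ℝ) + 1 / γ * (Real.log (A * ((N : ℝ) + 1)) / N)) * N =
          (K * M.Fr h + e * K) + 1 / γ * Real.log (A * ((N : ℝ) + 1)) := by
        field_simp
      rw [h4] at h3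
      exact h3
    have h5 : Kc * γ * (N + K) ≤ e * (N + K) := mul_le_mul_of_nonneg_right hγK (by positivity)
    have h6 : a = M.Fr h + 4 * e := by rw [he]; ring
    rw [h6]
    nlinarith

end Model

end

end MP_daa227_pr
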