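import Pool.Agent.Lib.MP_daa227_pr.Good

/-!
# Fractional moments
-/

open MeasureTheory ProbabilityTheory Set Filter
open scoped ENNReal

namespace MP_daa227_pr

noncomputable section

set_option linter.unusedSectionVars false

/-- Fractional moment of order `γ`. -/
def mom (μ : Measure ℝ) (γ : ℝ) (F : (ℕ → ℝ) → ℝ) : ℝ≥0∞ :=
  ∫⁻ ω, ENNReal.ofReal (F ω) ^ γ ∂seqLaw μ

section
variable {μ : Measure ℝ} [IsProbabilityMeasure μ] {γ : ℝ}

lemma mom_mono (h0 : 0 ≤ γ) {F G : (ℕ → ℝ) → ℝ} (h : ∀ ω, F ω ≤ G ω) : mom μ γ F ≤ mom μ γ G := by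
  apply lintegral_mono
  intro ω
  exact ENNReal.rpow_le_rpow (ENNReal.ofReal_le_ofReal (h ω)) h0

lemma mom_congr {F G : (ℕ → ℝ) → ℝ} (h : ∀ ω, F ω = G ω) : mom μ γ F = mom μ γ G := by
  rw [funext h]

lemma measurable_momf {F : (ℕ → ℝ) → ℝ} (hF : Measurable F) :
    Measurable (fun ω => ENNReal.ofReal (F ω) ^ γ) :=
  (hF.ennreal_ofReal).pow_const γ

lemma mom_zero (h0 : 0 < γ) : mom μ γ (fun _ => 0) = 0 := by
  simp [mom, ENNReal.zero_rpow_of_pos h0]

lemma mom_add_le (h0 : 0 ≤ γ) (h1 : γ ≤ 1) {F G : (ℕ → ℝ) → ℝ} (hF : Measurable F) (hF0 : ∀ ω, 0 ≤ F ω)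
    (hG0 : ∀ ω, 0 ≤ G ω) : mom μ γ (fun ω => F ω + G ω) ≤ mom μ γ F + mom μ γ G := by
  unfold mom
  rw [← lintegral_add_left (measurable_momf hF)]
  apply lintegral_mono
  intro ω
  dsimp only
  rw [ENNReal.ofReal_add (hF0 ω) (hG0 ω)]
  exact ENNReal.rpow_add_le_add_rpow _ _ h0 h1

lemma mom_sum_le {ι : Type*} (h0 : 0 < γ) (h1 : γ ≤ 1) (s : Finset ι) {F : ι → (ℕ → ℝ) → ℝ}
    (hF : ∀ i ∈ s, Measurable (F i)) (hF0 : ∀ i ∈ s, ∀ ω, 0 ≤ F i ω) :
    mom μ γ (fun ω => ∑ i ∈ s, F i ω) ≤ ∑ i ∈ s, mom μ γ (F i) := by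
  classical
  induction s using Finset.induction_on with
  | empty => simp [mom_zero h0]
  | insert a s ha ih =>
    rw [Finset.sum_insert ha]
    have h2 : mom μ γ (fun ω => ∑ i ∈ insert a s, F i ω) =
        mom μ γ (fun ω => F a ω + ∑ i ∈ s, F i ω) := mom_congr fun ω => Finset.sum_insert ha
    rw [h2]
    refine (mom_add_le h0.le h1 (hF a (Finset.mem_insert_self _ _)) (hF0 a (Finset.mem_insert_self _ _))
      (fun ω => Finset.sum_nonneg fun i hi => hF0 i (Finset.mem_insert_of_mem hi) ω)).trans ?_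
    exact add_le_add le_rfl (ih (fun i hi => hF i (Finset.mem_insert_of_mem hi))
      (fun i hi => hF0 i (Finset.mem_insert_of_mem hi)))

lemma mom_mul_shift (h0 : 0 ≤ γ) {k : ℕ} {F G : (ℕ → ℝ) → ℝ} (hF : Measurable F) (hG : Measurable G)
    (hd : DepOn k F) (hF0 : ∀ ω, 0 ≤ F ω) :
    mom μ γ (fun ω => F ω * G (shift k ω)) = mom μ γ F * mom μ γ G := by
  unfold mom
  rw [← lintegral_mul_shift μ (measurable_momf hG) k (measurable_momf hF)
    (fun ω ω' hω => by rw [hd ω ω' hω])]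
  congr 1
  ext ω
  rw [ENNReal.ofReal_mul (hF0 ω), ENNReal.mul_rpow_of_nonneg _ _ h0]

lemma mom_shift {G : (ℕ → ℝ) → ℝ} (hG : Measurable G) (k : ℕ) :
    mom μ γ (fun ω => G (shift k ω)) = mom μ γ G := by
  unfold mom
  exact lintegral_shift μ k (Y := fun ω => ENNReal.ofReal (G ω) ^ γ) (measurable_momf hG)

lemma mom_const_mul (h0 : 0 ≤ γ) {c : ℝ} (hc : 0 ≤ c) {F : (ℕ → ℝ) → ℝ} (hF : Measurable F) :
    mom μ γ (fun ω => c * F ω) = ENNReal.ofReal c ^ γ * mom μ γ F := by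
  unfold mom
  rw [← lintegral_const_mul _ (measurable_momf hF)]
  congr 1
  ext ω
  rw [ENNReal.ofReal_mul hc, ENNReal.mul_rpow_of_nonneg _ _ h0]

lemma mom_const {c : ℝ} : mom μ γ (fun _ => c) = ENNReal.ofReal c ^ γ := by
  simp [mom]

lemma mom_one {F : (ℕ → ℝ) → ℝ} : mom μ 1 F = ∫⁻ ω, ENNReal.ofReal (F ω) ∂seqLaw μ := by
  simp [mom]

lemma mom_le_rpow (h0 : 0 < γ) (h1 : γ ≤ 1) {F : (ℕ → ℝ) → ℝ} (hF : Measurable F) (hF0 : ∀ ω, 0 ≤ F ω) :
    mom μ γ F ≤ mom μ 1 F ^ γ := by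
  have h := eLpNorm'_le_eLpNorm'_of_exponent_le (f := F) h0 h1 (seqLaw μ) hF.aestronglyMeasurable
  have h2 : ∀ p : ℝ, eLpNorm' F p (seqLaw μ) = (mom μ p F) ^ (1 / p) := by
    intro p
    unfold eLpNorm' mom
    congr 2
    ext ω
    rw [Real.enorm_of_nonneg (hF0 ω)]
  rw [h2, h2] at h
  have h3 := ENNReal.rpow_le_rpow h h0.le
  rw [← ENNReal.rpow_mul, one_div_mul_cancel h0.ne', ENNReal.rpow_one, one_div_one, ENNReal.rpow_one] at h3
  exact h3

/-- Jensen: the quenched average is bounded by the fractional moment. -/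
lemma exp_le_mom (h0 : 0 ≤ γ) {F : (ℕ → ℝ) → ℝ} (hF : Measurable F) (hpos : ∀ ω, 0 < F ω)
    (hi : Integrable (fun ω => Real.log (F ω)) (seqLaw μ)) :
    ENNReal.ofReal (Real.exp (γ * ∫ ω, Real.log (F ω) ∂seqLaw μ)) ≤ mom μ γ F := by
  have h1 : ∀ ω, ENNReal.ofReal (F ω) ^ γ = ENNReal.ofReal (Real.exp (γ * Real.log (F ω))) := by
    intro ω
    rw [ENNReal.ofReal_rpow_of_pos (hpos ω), Real.rpow_def_of_pos (hpos ω), mul_comm]
  unfold mom
  simp_rw [h1]
  by_cases hint : Integrable (fun ω => Real.exp (γ * Real.log (F ω))) (seqLaw μ)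
  · rw [← ofReal_integral_eq_lintegral_ofReal hint (ae_of_all _ fun _ => (Real.exp_pos _).le)]
    apply ENNReal.ofReal_le_ofReal
    have h2 := convexOn_exp.map_integral_le (μ := seqLaw μ) (f := fun ω => γ * Real.log (F ω))
      Real.continuous_exp.continuousOn isClosed_univ (ae_of_all _ fun _ => Set.mem_univ _)
      (hi.const_mul γ) hint
    rw [integral_const_mul] at h2
    exact h2
  · have h3 : ∫⁻ ω, ENNReal.ofReal (Real.exp (γ * Real.log (F ω))) ∂seqLaw μ = ⊤ := by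
      by_contra hne
      apply hint
      refine ⟨(((hF.log).const_mul γ).exp).aestronglyMeasurable, ?_⟩
      rw [hasFiniteIntegral_iff_ofReal (ae_of_all _ fun _ => (Real.exp_pos _).le)]
      exact lt_top_iff_ne_top.2 hne
    rw [h3]
    exact le_top

/-- Concentration: the fractional moment is bounded by the quenched average. -/
lemma mom_le_exp (hexp : ExpMom μ) (h0 : 0 ≤ γ) (h1 : γ ≤ 1) {k : ℕ} {κ : ℝ} {F : (ℕ → ℝ) → ℝ}
    (hF : Good k κ F) (hpos : ∀ ω, 0 < F ω) :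
    mom μ γ F ≤ ENNReal.ofReal
      (Real.exp (γ * ∫ ω, Real.log (F ω) ∂seqLaw μ + concK μ κ * γ ^ 2 * k)) := by
  have hc := conc hexp (μ := μ) (κ := κ) (γ := γ) (abs_le.2 ⟨by linarith, h1⟩) k
    (f := fun ω => Real.log (F ω)) (hF.meas.log) (hF.log_lip hpos)
  set m := ∫ ω, Real.log (F ω) ∂seqLaw μ with hm
  unfold mom
  have h2 : ∀ ω, ENNReal.ofReal (F ω) ^ γ = ENNReal.ofReal (Real.exp (γ * m)) *
      ENNReal.ofReal (Real.exp (γ * (Real.log (F ω) - m))) := by
    intro ω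
    rw [ENNReal.ofReal_rpow_of_pos (hpos ω), Real.rpow_def_of_pos (hpos ω),
      ← ENNReal.ofReal_mul (Real.exp_pos _).le, ← Real.exp_add]
    congr 2
    ring
  simp_rw [h2]
  have hmeas : Measurable (fun ω => ENNReal.ofReal (Real.exp (γ * (Real.log (F ω) - m)))) := by
    have := hF.meas
    fun_prop
  rw [lintegral_const_mul _ hmeas, Real.exp_add, ENNReal.ofReal_mul (Real.exp_pos _).le]
  exact mul_le_mul_right hc _

lemma Good.integrable_log (hexp : ExpMom μ) {k : ℕ} {κ : ℝ} {F : (ℕ → ℝ) → ℝ}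
    (hF : Good k κ F) (hpos : ∀ ω, 0 < F ω) : Integrable (fun ω => Real.log (F ω)) (seqLaw μ) :=
  (hF.log_lip hpos).integrable (hF.meas.log) hexp

lemma exp_le_mom' (hexp : ExpMom μ) (h0 : 0 ≤ γ) {k : ℕ} {κ : ℝ} {F : (ℕ → ℝ) → ℝ}
    (hF : Good k κ F) (hpos : ∀ ω, 0 < F ω) :
    ENNReal.ofReal (Real.exp (γ * ∫ ω, Real.log (F ω) ∂seqLaw μ)) ≤ mom μ γ F :=
  exp_le_mom h0 hF.meas hpos (hF.integrable_log hexp hpos)

/-- The renewal estimate: if short renewal sums are controlled and the gap straddling time `T`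
costs at most `Q`, the moments grow at most like `Q ^ (n / (T + 1))`. -/
theorem mom_Ren_le (h0 : 0 < γ) (h1 : γ ≤ 1) {κ : ℝ} (hκ0 : 0 ≤ κ)
    {G : ℕ → (ℕ → ℝ) → ℤ → ℤ → ℝ} {B : Finset ℤ} (hG : ∀ L x y, Good L κ (fun ω => G L ω x y))
    (T : ℕ) {D Q : ℝ} (hD : 0 ≤ D) (hQ : 1 ≤ Q) {ζ κ' : ℕ → ℝ} (hζ0 : ∀ t, 0 ≤ ζ t) (hκ'0 : ∀ t, 0 ≤ κ' t)
    (hζ : ∀ t ≤ T, ∀ x ∈ B, ∀ y ∈ B, mom μ γ (fun ω => Ren G B t ω x y) ≤ ENNReal.ofReal (ζ t))
    (hζD : ∀ t ≤ T, ζ t ≤ D)
    (hκ : ∀ L, 1 ≤ L → ∀ x ∈ B, ∀ y ∈ B, mom μ γ (fun ω => G L ω x y) ≤ ENNReal.ofReal (κ' L))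
    (hq : ∀ n, (B.card : ℝ) ^ 2 * ∑ t ∈ Finset.range (T + 1), ζ t * ∑ s ∈ Finset.Ioc T n, κ' (s - t) ≤ Q) :
    ∀ n, ∀ x ∈ B, ∀ y ∈ B, mom μ γ (fun ω => Ren G B n ω x y) ≤
      ENNReal.ofReal (D * Q ^ (n / (T + 1))) := by
  have hR := good_Ren hκ0 (B := B) hG
  intro n
  induction n using Nat.strong_induction_on with
  | _ n ih =>
    intro x hx y hy
    by_cases hn : n ≤ T
    · refine (hζ n hn x hx y hy).trans (ENNReal.ofReal_le_ofReal ((hζD n hn).trans ?_))
      exact le_mul_of_one_le_right hD (one_le_pow₀ hQ)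
    · push Not at hn
      have hQ0 : 0 ≤ Q := zero_le_one.trans hQ
      -- decompose
      have hstr : mom μ γ (fun ω => Ren G B n ω x y) ≤
          ∑ t ∈ Finset.range (T + 1), ∑ s ∈ Finset.Ioc T n, ∑ z ∈ B, ∑ z' ∈ B,
            mom μ γ (fun ω => Ren G B t ω x z * G (s - t) (shift t ω) z z' *
              Ren G B (n - s) (shift s ω) z' y) := by
        have hterm : ∀ t ∈ Finset.range (T + 1), ∀ s ∈ Finset.Ioc T n, ∀ z z' : ℤ,
            Good n κ (fun ω => Ren G B t ω x z * G (s - t) (shift t ω) z z' *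
              Ren G B (n - s) (shift s ω) z' y) := by
          intro t ht s hs z z'
          rw [Finset.mem_range] at ht
          rw [Finset.mem_Ioc] at hs
          have h2 := (hR t x z).mul_shift (hG (s - t) z z')
          rw [show t + (s - t) = s by omega] at h2
          have h3 := h2.mul_shift (hR (n - s) z' y)
          rw [show s + (n - s) = n by omega] at h3
          exact h3
        rw [mom_congr (fun ω => Ren_straddle B G T n hn ω x y hx)]
        refine (mom_sum_le h0 h1 _ (fun t ht => ?_) (fun t ht ω => ?_)).trans ?_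
        · exact (Good.sum hκ0 _ fun s hs => Good.sum hκ0 _ fun z _ => Good.sum hκ0 _ fun z' _ =>
            hterm t ht s hs z z').meas
        · exact (Good.sum hκ0 _ fun s hs => Good.sum hκ0 _ fun z _ => Good.sum hκ0 _ fun z' _ =>
            hterm t ht s hs z z').nonneg ω
        apply Finset.sum_le_sum
        intro t ht
        refine (mom_sum_le h0 h1 _ (fun s hs => ?_) (fun s hs ω => ?_)).trans ?_
        · exact (Good.sum hκ0 _ fun z _ => Good.sum hκ0 _ fun z' _ => hterm t ht s hs z z').meas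
        · exact (Good.sum hκ0 _ fun z _ => Good.sum hκ0 _ fun z' _ => hterm t ht s hs z z').nonneg ω
        apply Finset.sum_le_sum
        intro s hs
        refine (mom_sum_le h0 h1 _ (fun z _ => ?_) (fun z _ ω => ?_)).trans ?_
        · exact (Good.sum hκ0 _ fun z' _ => hterm t ht s hs z z').meas
        · exact (Good.sum hκ0 _ fun z' _ => hterm t ht s hs z z').nonneg ω
        apply Finset.sum_le_sum
        intro z _
        refine (mom_sum_le h0 h1 _ (fun z' _ => ?_) (fun z' _ ω => ?_)).trans le_rfl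
        · exact (hterm t ht s hs z z').meas
        · exact (hterm t ht s hs z z').nonneg ω
      have hterm2 : ∀ t ∈ Finset.range (T + 1), ∀ s ∈ Finset.Ioc T n, ∀ z ∈ B, ∀ z' ∈ B,
          mom μ γ (fun ω => Ren G B t ω x z * G (s - t) (shift t ω) z z' *
              Ren G B (n - s) (shift s ω) z' y) ≤
            ENNReal.ofReal (ζ t * κ' (s - t) * (D * Q ^ ((n - (T + 1)) / (T + 1)))) := by
        intro t ht s hs z hz z' hz'
        rw [Finset.mem_range] at ht
        rw [Finset.mem_Ioc] at hs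
        have h2 := (hR t x z).mul_shift (hG (s - t) z z')
        rw [show t + (s - t) = s by omega] at h2
        rw [mom_mul_shift (k := s) (F := fun ω => Ren G B t ω x z * G (s - t) (shift t ω) z z')
          (G := fun ω => Ren G B (n - s) ω z' y) h0.le h2.meas (hR (n - s) z' y).meas h2.depOn h2.nonneg]
        rw [mom_mul_shift (k := t) (F := fun ω => Ren G B t ω x z)
          (G := fun ω => G (s - t) ω z z') h0.le (hR t x z).meas (hG _ _ _).meas (hR t x z).depOn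
            (hR t x z).nonneg]
        rw [ENNReal.ofReal_mul (mul_nonneg (hζ0 _) (hκ'0 _)), ENNReal.ofReal_mul (hζ0 _)]
        refine mul_le_mul' (mul_le_mul' (hζ t (by omega) x hx z hz) (hκ (s - t) (by omega) z hz z' hz')) ?_
        refine (ih (n - s) (by omega) z' hz' y hy).trans (ENNReal.ofReal_le_ofReal ?_)
        apply mul_le_mul_of_nonneg_left _ hD
        exact pow_le_pow_right₀ hQ (Nat.div_le_div_right (by omega))
      refine hstr.trans ?_
      have hsum : ∑ t ∈ Finset.range (T + 1), ∑ s ∈ Finset.Ioc T n, ∑ z ∈ B, ∑ z' ∈ B,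
            mom μ γ (fun ω => Ren G B t ω x z * G (s - t) (shift t ω) z z' *
              Ren G B (n - s) (shift s ω) z' y) ≤
          ∑ t ∈ Finset.range (T + 1), ∑ s ∈ Finset.Ioc T n, ∑ z ∈ B, ∑ z' ∈ B,
            ENNReal.ofReal (ζ t * κ' (s - t) * (D * Q ^ ((n - (T + 1)) / (T + 1)))) :=
        Finset.sum_le_sum fun t ht => Finset.sum_le_sum fun s hs => Finset.sum_le_sum fun z hz =>
          Finset.sum_le_sum fun z' hz' => hterm2 t ht s hs z hz z' hz'
      refine hsum.trans ?_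
      set E := D * Q ^ ((n - (T + 1)) / (T + 1)) with hE
      have hE0 : 0 ≤ E := mul_nonneg hD (pow_nonneg hQ0 _)
      have hreal : ∑ t ∈ Finset.range (T + 1), ∑ s ∈ Finset.Ioc T n, ∑ z ∈ B, ∑ z' ∈ B,
            ENNReal.ofReal (ζ t * κ' (s - t) * E) =
          ENNReal.ofReal (∑ t ∈ Finset.range (T + 1), ∑ s ∈ Finset.Ioc T n, ∑ _z ∈ B, ∑ _z' ∈ B,
            ζ t * κ' (s - t) * E) := by
        have hn0 : ∀ t s, 0 ≤ ζ t * κ' (s - t) * E := fun t s =>
          mul_nonneg (mul_nonneg (hζ0 _) (hκ'0 _)) hE0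
        rw [ENNReal.ofReal_sum_of_nonneg (fun t _ => Finset.sum_nonneg fun s _ => Finset.sum_nonneg fun z _ =>
          Finset.sum_nonneg fun z' _ => hn0 t s)]
        apply Finset.sum_congr rfl; intro t _
        rw [ENNReal.ofReal_sum_of_nonneg (fun s _ => Finset.sum_nonneg fun z _ =>
          Finset.sum_nonneg fun z' _ => hn0 t s)]
        apply Finset.sum_congr rfl; intro s _
        rw [ENNReal.ofReal_sum_of_nonneg (fun z _ => Finset.sum_nonneg fun z' _ => hn0 t s)]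
        apply Finset.sum_congr rfl; intro z _
        rw [ENNReal.ofReal_sum_of_nonneg (fun z' _ => hn0 t s)]
      rw [hreal]
      apply ENNReal.ofReal_le_ofReal
      have h5 : ∑ t ∈ Finset.range (T + 1), ∑ s ∈ Finset.Ioc T n, ∑ _z ∈ B, ∑ _z' ∈ B,
            ζ t * κ' (s - t) * E =
          ((B.card : ℝ) ^ 2 * ∑ t ∈ Finset.range (T + 1), ζ t * ∑ s ∈ Finset.Ioc T n, κ' (s - t)) * E := by
        simp only [Finset.sum_const, nsmul_eq_mul, Finset.mul_sum, Finset.sum_mul]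
        apply Finset.sum_congr rfl; intro t _
        apply Finset.sum_congr rfl; intro s _
        ring
      rw [h5]
      calc _ ≤ Q * E := mul_le_mul_of_nonneg_right (hq n) hE0
        _ = D * Q ^ (n / (T + 1)) := by
            rw [hE]
            have h6 : n / (T + 1) = (n - (T + 1)) / (T + 1) + 1 := by
              rw [← Nat.add_div_right (n - (T + 1)) (Nat.succ_pos T)]
              congr 1
              omega
            rw [h6, pow_succ]
            ring

end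

end

end MP_daa227_pr
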