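import Pool.Agent.Lib.MP_daa227_pr.Scale

/-!
# Combination of the scales
-/

open MeasureTheory ProbabilityTheory Set Filter
open scoped ENNReal Topology

namespace MP_daa227_pr

noncomputable section

set_option linter.unusedSectionVars false

/-- weights of the scales -/
def lamS (w : ℕ → ℝ) (S : ℝ) : ℕ → ℝ
  | 0 => 1 / S
  | j + 1 => w j / S

/-- gap bonuses of the scales -/
def gS (d ρ c r : ℝ) (n : ℕ → ℕ) (b : ℕ → ℝ) : ℕ → ℕ → ℝ
  | 0, L => d - d * ρ * L
  | j + 1, L => bonus c r (n j) L - b j * L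

/-- The algebraic condition needed for the Hölder inequality. -/
lemma scale_cond {d c r : ℝ} (hd : 0 < d) (hc : 0 < c) {n₀ : ℕ} (hn₀ : 1 ≤ n₀) (J : ℕ) (rho : ℕ → ℝ)
    (hrho : ∑ j ∈ Finset.range J, rho j ≤ 1 / 2)
    (a : ℕ → ℝ) (ha : ∀ j, a j = c * (2 * ((2 ^ j * n₀ : ℕ) : ℝ)) ^ (r - 1)) {L : ℕ} (hL1 : 1 ≤ L)
    (hL : L ≤ 2 ^ J * n₀) :
    0 ≤ (d - d * (1 / (2 * n₀)) * L) + ∑ j ∈ Finset.range J, 2 * d * (1 / (2 * n₀)) / a j *
      (bonus c r (2 ^ j * n₀) L - a j * rho j * L) := by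
  have hn₀R : (0 : ℝ) < n₀ := by exact_mod_cast hn₀
  have ha0 : ∀ j, 0 < a j := by
    intro j
    rw [ha]
    have : (0 : ℝ) < ((2 ^ j * n₀ : ℕ) : ℝ) := by exact_mod_cast (by positivity : 0 < 2 ^ j * n₀)
    positivity
  set ρ : ℝ := 1 / (2 * n₀) with hρ
  have hρ0 : 0 < ρ := by positivity
  have hLR : (0 : ℝ) < L := by exact_mod_cast hL1
  -- rewrite the terms
  have h1 : ∀ j, 2 * d * ρ / a j * (bonus c r (2 ^ j * n₀) L - a j * rho j * L) =
      2 * d * ρ * L * ((if 2 ^ j * n₀ < L ∧ L ≤ 2 * (2 ^ j * n₀) then 1 else 0) - rho j) := by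
    intro j
    have h2 : bonus c r (2 ^ j * n₀) L =
        a j * L * (if 2 ^ j * n₀ < L ∧ L ≤ 2 * (2 ^ j * n₀) then 1 else 0) := by
      unfold bonus
      split_ifs
      · rw [ha, mul_one]
      · rw [mul_zero]
    rw [h2]
    have := (ha0 j).ne'
    field_simp
  rw [Finset.sum_congr rfl (fun j _ => h1 j), ← Finset.mul_sum, Finset.sum_sub_distrib]
  have h3 : 0 ≤ 2 * d * ρ * L := by positivity
  have hnn : ∀ j ∈ Finset.range J, (0 : ℝ) ≤ (if 2 ^ j * n₀ < L ∧ L ≤ 2 * (2 ^ j * n₀) then 1 else 0) := by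
    intro j _; split_ifs <;> norm_num
  by_cases hsmall : L ≤ n₀
  · have h4 := Finset.sum_nonneg hnn
    have h5 : ρ * L ≤ 1 / 2 := by
      rw [hρ, one_div_mul_eq_div, div_le_div_iff₀ (by positivity) (by norm_num)]
      have : (L : ℝ) ≤ n₀ := by exact_mod_cast hsmall
      linarith
    have h6 := mul_le_mul_of_nonneg_left (show (0 : ℝ) - 1 / 2 ≤
      ∑ j ∈ Finset.range J, (if 2 ^ j * n₀ < L ∧ L ≤ 2 * (2 ^ j * n₀) then (1 : ℝ) else 0) -
        ∑ j ∈ Finset.range J, rho j by linarith) h3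
    have h7 : d * (ρ * L) ≤ d * (1 / 2) := mul_le_mul_of_nonneg_left h5 hd.le
    nlinarith
  · push Not at hsmall
    -- some scale contains L
    obtain ⟨j, hj, hj1, hj2⟩ : ∃ j, j < J ∧ 2 ^ j * n₀ < L ∧ L ≤ 2 * (2 ^ j * n₀) := by
      clear h1 hnn hrho h3
      induction J with
      | zero => simp at hL; omega
      | succ J ih =>
        by_cases h8 : L ≤ 2 ^ J * n₀
        · obtain ⟨j, hj, h9⟩ := ih h8
          exact ⟨j, by omega, h9⟩
        · refine ⟨J, by omega, by omega, ?_⟩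
          rw [pow_succ] at hL
          linarith
    have h4 : (1 : ℝ) ≤ ∑ j ∈ Finset.range J, (if 2 ^ j * n₀ < L ∧ L ≤ 2 * (2 ^ j * n₀) then (1 : ℝ) else 0) := by
      refine le_trans ?_ (Finset.single_le_sum hnn (Finset.mem_range.2 hj))
      rw [if_pos ⟨hj1, hj2⟩]
    have h6 := mul_le_mul_of_nonneg_left (show (1 : ℝ) - 1 / 2 ≤
      ∑ j ∈ Finset.range J, (if 2 ^ j * n₀ < L ∧ L ≤ 2 * (2 ^ j * n₀) then (1 : ℝ) else 0) -
        ∑ j ∈ Finset.range J, rho j by linarith) h3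
    nlinarith

namespace Model

variable (M : Model)

/-- The multiscale inequality. -/
lemma multi_scale {hc : ℝ} {R : ℕ} {r c D E : ℝ} (hc0 : 0 < c) (_hE : 0 ≤ E)
    (hsc : ∀ n : ℕ, 1 ≤ n → ∀ N : ℕ, Even N →
      M.ΨR hc R (bonus c r n) N ≤
        Real.sqrt n * Real.log D + N / Real.sqrt n * Real.log (1 + E * ((n : ℝ) + 1) ^ 3))
    {n₀ : ℕ} (hn₀ : 1 ≤ n₀) (hev : Even n₀) (J : ℕ)
    (hrho : ∑ j ∈ Finset.range J,
      Real.log (1 + E * (((2 ^ j * n₀ : ℕ) : ℝ) + 1) ^ 3) /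
        (Real.sqrt ((2 ^ j * n₀ : ℕ) : ℝ) * (c * (2 * ((2 ^ j * n₀ : ℕ) : ℝ)) ^ (r - 1))) ≤ 1 / 2)
    {d : ℝ} (hd : 0 < d) :
    d * (1 / (2 * n₀)) * ((2 ^ J * n₀ : ℕ) : ℝ) +
      (1 + ∑ j ∈ Finset.range J, 2 * d * (1 / (2 * n₀)) / (c * (2 * ((2 ^ j * n₀ : ℕ) : ℝ)) ^ (r - 1))) *
        M.Ψ hc (2 ^ J * n₀) -
      ∑ j ∈ Finset.range J, 2 * d * (1 / (2 * n₀)) / (c * (2 * ((2 ^ j * n₀ : ℕ) : ℝ)) ^ (r - 1)) *
        (Real.sqrt ((2 ^ j * n₀ : ℕ) : ℝ) * Real.log D) ≤
      M.ΨR hc R (fun _ => d) (2 ^ J * n₀) := by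
  set N := 2 ^ J * n₀ with hN
  have hNev : Even N := hev.mul_left _
  set n : ℕ → ℕ := fun j => 2 ^ j * n₀ with hn
  have hnpos : ∀ j, 1 ≤ n j := fun j => Nat.one_le_iff_ne_zero.2 (by rw [hn]; positivity)
  have hnR : ∀ j, (0 : ℝ) < n j := fun j => by exact_mod_cast hnpos j
  set a : ℕ → ℝ := fun j => c * (2 * (n j : ℝ)) ^ (r - 1) with ha
  have ha0 : ∀ j, 0 < a j := fun j => by rw [ha]; have := hnR j; positivity
  set rho : ℕ → ℝ := fun j => Real.log (1 + E * ((n j : ℝ) + 1) ^ 3) / (Real.sqrt (n j) * a j) with hrhodef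
  set ρ : ℝ := 1 / (2 * n₀) with hρ
  have hn₀R : (0 : ℝ) < n₀ := by exact_mod_cast hn₀
  have hρ0 : 0 < ρ := by positivity
  set w : ℕ → ℝ := fun j => 2 * d * ρ / a j with hw
  have hw0 : ∀ j, 0 < w j := fun j => by rw [hw]; have := ha0 j; positivity
  set S := 1 + ∑ j ∈ Finset.range J, w j with hS
  have hS0 : 0 < S := by
    have : 0 ≤ ∑ j ∈ Finset.range J, w j := Finset.sum_nonneg fun j _ => (hw0 j).le
    linarith
  set b : ℕ → ℝ := fun j => a j * rho j with hb
  set g := gS d ρ c r n b with hg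
  set lam := lamS w S with hlam
  have hlam0 : ∀ i ∈ Finset.range (J + 1), 0 < lam i := by
    intro i _
    rw [hlam]
    cases i with
    | zero => simp only [lamS]; positivity
    | succ j => simp only [lamS]; exact div_pos (hw0 j) hS0
  have hlam1 : ∑ i ∈ Finset.range (J + 1), lam i = 1 := by
    rw [Finset.sum_range_succ', hlam]
    simp only [lamS]
    rw [← Finset.sum_div, ← add_div, add_comm, ← hS, div_self hS0.ne']
  have hcond : ∀ L ∈ Finset.Ioc 0 N, 0 ≤ ∑ i ∈ Finset.range (J + 1), lam i * g i L := by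
    intro L hL
    rw [Finset.mem_Ioc] at hL
    have h1 := scale_cond (r := r) hd hc0 hn₀ J rho hrho a (fun j => rfl) (L := L) (by omega) hL.2
    rw [Finset.sum_range_succ', hlam, hg]
    simp only [lamS, gS]
    have h2 : ∑ j ∈ Finset.range J, w j / S * (bonus c r (n j) L - b j * L) + 1 / S * (d - d * ρ * L) =
        ((d - d * ρ * L) + ∑ j ∈ Finset.range J, w j * (bonus c r (n j) L - b j * L)) / S := by
      rw [add_div, Finset.sum_div, add_comm]
      congr 1
      · ring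
      · apply Finset.sum_congr rfl
        intro j _
        ring
    rw [h2]
    exact div_nonneg h1 hS0.le
  -- positivity of all tilted sums
  have hposB : ∀ j ω, 0 < M.Rt hc R (bonus c r (n j)) N ω := fun j ω =>
    M.Rt_pos hc R hNev (fun L => bonus_nonneg hc0.le _ L) ω
  have hposD : ∀ ω, 0 < M.Rt hc R (fun _ => d) N ω := fun ω => M.Rt_pos hc R hNev (fun _ => hd.le) ω
  have hg0 : ∀ ω, M.Rt hc R (g 0) N ω = Real.exp (-(d * ρ) * N) * M.Rt hc R (fun _ => d) N ω := fun ω =>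
    M.Rt_tilt hc R (fun _ => d) (d * ρ) N ω
  have hgj : ∀ j ω, M.Rt hc R (g (j + 1)) N ω =
      Real.exp (-(b j) * N) * M.Rt hc R (bonus c r (n j)) N ω := fun j ω =>
    M.Rt_tilt hc R (bonus c r (n j)) (b j) N ω
  have hposg : ∀ i ω, 0 < M.Rt hc R (g i) N ω := by
    intro i ω
    cases i with
    | zero => rw [hg0]; exact mul_pos (Real.exp_pos _) (hposD ω)
    | succ j => rw [hgj]; exact mul_pos (Real.exp_pos _) (hposB j ω)
  have hint : ∀ i, Integrable (fun ω => Real.log (M.Rt hc R (g i) N ω)) (seqLaw M.μ) := fun i =>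
    (M.good_Rt hc R (g i) N).integrable_log M.exp_mom (hposg i)
  -- pointwise inequality
  have hpt : ∀ ω, Real.log (M.Z hc N ω 0 0) ≤
      ∑ i ∈ Finset.range (J + 1), lam i * Real.log (M.Rt hc R (g i) N ω) := by
    intro ω
    have h1 : Ren (M.G hc R) (Finset.Icc (-(R : ℤ)) R) N ω 0 0 ≤
        ∏ i ∈ Finset.range (J + 1), (M.Rt hc R (g i) N ω) ^ lam i :=
      Ren_holder (Finset.range (J + 1)) lam hlam0 hlam1 g (M.G hc R) (Finset.Icc (-(R : ℤ)) R)
      (fun L ω x y => (M.good_G hc R L x y).nonneg ω) N ω 0 0 hcond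
    rw [← M.Z_eq_Ren hc R N ω 0 (zero_mem_box R)] at h1
    have h2 := Real.log_le_log (M.Z_pos hc hNev ω) h1
    rw [Real.log_prod (fun i _ => (Real.rpow_pos_of_pos (hposg i ω) _).ne')] at h2
    refine h2.trans (le_of_eq ?_)
    apply Finset.sum_congr rfl
    intro i _
    exact Real.log_rpow (hposg i ω) _
  have hintsum : M.Ψ hc N ≤ ∑ i ∈ Finset.range (J + 1), lam i * M.ΨR hc R (g i) N := by
    have h1 : ∑ i ∈ Finset.range (J + 1), lam i * M.ΨR hc R (g i) N =
        ∫ ω, ∑ i ∈ Finset.range (J + 1), lam i * Real.log (M.Rt hc R (g i) N ω) ∂seqLaw M.μ := by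
      rw [integral_finsetSum _ (fun i _ => (hint i).const_mul _)]
      apply Finset.sum_congr rfl
      intro i _
      rw [integral_const_mul]
      rfl
    rw [h1]
    exact integral_mono (M.integrable_logZ hc hNev)
      (integrable_finsetSum _ fun i _ => (hint i).const_mul _) hpt
  -- evaluate
  have hΨ0 : M.ΨR hc R (g 0) N = -(d * ρ) * N + M.ΨR hc R (fun _ => d) N := by
    unfold ΨR
    have h1 : ∀ ω, Real.log (M.Rt hc R (g 0) N ω) = -(d * ρ) * N + Real.log (M.Rt hc R (fun _ => d) N ω) := by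
      intro ω
      rw [hg0, Real.log_mul (Real.exp_pos _).ne' (hposD ω).ne', Real.log_exp]
    simp_rw [h1]
    rw [integral_add (integrable_const _) ((M.good_Rt hc R (fun _ => d) N).integrable_log M.exp_mom hposD)]
    simp
  have hΨj : ∀ j, M.ΨR hc R (g (j + 1)) N ≤ Real.sqrt (n j) * Real.log D := by
    intro j
    have h2 : M.ΨR hc R (g (j + 1)) N = -(b j) * N + M.ΨR hc R (bonus c r (n j)) N := by
      unfold ΨR
      have h1 : ∀ ω, Real.log (M.Rt hc R (g (j + 1)) N ω) =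
          -(b j) * N + Real.log (M.Rt hc R (bonus c r (n j)) N ω) := by
        intro ω
        rw [hgj, Real.log_mul (Real.exp_pos _).ne' (hposB j ω).ne', Real.log_exp]
      simp_rw [h1]
      rw [integral_add (integrable_const _)
        ((M.good_Rt hc R (bonus c r (n j)) N).integrable_log M.exp_mom (hposB j))]
      simp
    have h3 := hsc (n j) (hnpos j) N hNev
    have h4 : b j * N = N / Real.sqrt (n j) * Real.log (1 + E * ((n j : ℝ) + 1) ^ 3) := by
      rw [hb, hrhodef]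
      have h5 := (ha0 j).ne'
      have h6 : Real.sqrt (n j) ≠ 0 := (Real.sqrt_pos.2 (hnR j)).ne'
      field_simp
    rw [h2]
    linarith
  rw [Finset.sum_range_succ'] at hintsum
  have hl0 : lam 0 = 1 / S := rfl
  have hlj : ∀ j, lam (j + 1) = w j / S := fun j => rfl
  rw [hl0, hΨ0] at hintsum
  simp_rw [hlj] at hintsum
  have h7 : ∑ j ∈ Finset.range J, w j / S * M.ΨR hc R (g (j + 1)) N ≤
      ∑ j ∈ Finset.range J, w j / S * (Real.sqrt (n j) * Real.log D) :=
    Finset.sum_le_sum fun j _ => mul_le_mul_of_nonneg_left (hΨj j) (div_pos (hw0 j) hS0).le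
  have h8 : M.Ψ hc N ≤ (∑ j ∈ Finset.range J, w j * (Real.sqrt (n j) * Real.log D) +
      (-(d * ρ) * N + M.ΨR hc R (fun _ => d) N)) / S := by
    rw [add_div, Finset.sum_div]
    refine (hintsum.trans (add_le_add_left h7 _)).trans (le_of_eq ?_)
    congr 1
    · apply Finset.sum_congr rfl; intro j _; ring
    · ring
  rw [le_div_iff₀ hS0] at h8
  linarith

/-- Renewal sums with a bonus for each contact are dominated by the model with smaller `h`. -/
lemma Rt_le_Z {h δ m : ℝ} (hδ : 0 ≤ δ) {R : ℕ} (hm : ∀ y ∈ Finset.Icc (-(R : ℤ)) R, m ≤ M.φ y)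
    (n : ℕ) (ω : ℕ → ℝ) : M.Rt h R (fun _ => δ * m) n ω ≤ M.Z (h - δ) n ω 0 0 := by
  rw [M.Z_eq_Ren (h - δ) R n ω 0 (zero_mem_box R)]
  have hW : ∀ a z, M.W h a z ≤ M.W (h - δ) a z := by
    intro a z
    unfold W
    apply Real.exp_le_exp.2
    exact mul_le_mul_of_nonneg_right (by linarith) (M.φ_pos z).le
  have hWm : ∀ a y, y ∈ Finset.Icc (-(R : ℤ)) R → Real.exp (δ * m) * M.W h a y ≤ M.W (h - δ) a y := by
    intro a y hy
    unfold W
    rw [← Real.exp_add]
    apply Real.exp_le_exp.2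
    have := mul_le_mul_of_nonneg_left (hm y hy) hδ
    linarith
  have hG : ∀ (L : ℕ) (ω : ℕ → ℝ) (x y : ℤ), y ∈ Finset.Icc (-(R : ℤ)) R →
      Real.exp (δ * m) * M.G h R L ω x y ≤ M.G (h - δ) R L ω x y := by
    intro L
    induction L with
    | zero => intro ω x y _; simp [G, Gk]
    | succ L ih =>
      intro ω x y hy
      unfold G at ih ⊢
      simp only [Gk]
      rw [mul_add, Finset.mul_sum]
      apply add_le_add
      · split_ifs
        · calc Real.exp (δ * m) * (M.C.p x y * M.W h (ω 0) y)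
              = M.C.p x y * (Real.exp (δ * m) * M.W h (ω 0) y) := by ring
            _ ≤ _ := mul_le_mul_of_nonneg_left (hWm _ _ hy) (M.C.nonneg _ _)
        · simp
      · apply Finset.sum_le_sum
        intro z _
        calc Real.exp (δ * m) * (M.C.p x z * M.W h (ω 0) z * Gk M.C (M.W h) _ L (shift 1 ω) z y)
            = (M.C.p x z * M.W h (ω 0) z) * (Real.exp (δ * m) * Gk M.C (M.W h) _ L (shift 1 ω) z y) := by ring
          _ ≤ (M.C.p x z * M.W (h - δ) (ω 0) z) * Gk M.C (M.W (h - δ)) _ L (shift 1 ω) z y := by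
              apply mul_le_mul (mul_le_mul_of_nonneg_left (hW _ _) (M.C.nonneg _ _)) (ih _ _ _ hy)
              · exact mul_nonneg (Real.exp_pos _).le ((M.good_G h R L z y).nonneg _)
              · exact mul_nonneg (M.C.nonneg _ _) (M.W_pos _ _ _).le
  exact (Ren_mono (M.Gt h R (fun _ => δ * m)) (M.G (h - δ) R) _ n (fun L _ ω x y hy =>
    ⟨(M.good_Gt h R _ L x y).nonneg ω, hG L ω x y hy⟩) ω 0 0).2

/-- **Linear lower bound below the critical point.** -/
theorem Fr_lower {r : ℝ} (hr : 1 / 2 < r) (hconf : Confine M.C M.φ r) {hc : ℝ} (hc0 : 0 < hc)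
    (hcrit : ∀ h, 0 < M.Fr h ↔ h < hc) :
    ∃ c₀ : ℝ, 0 < c₀ ∧ ∀ δ : ℝ, 0 < δ → c₀ * δ ≤ M.Fr (hc - δ) := by
  -- reduce to `r ≤ 1`
  obtain ⟨r', hr', hr'1, hconf'⟩ : ∃ r' : ℝ, 1 / 2 < r' ∧ r' ≤ 1 ∧ Confine M.C M.φ r' :=
    ⟨min r 1, lt_min hr (by norm_num), min_le_right _ _,
      hconf.mono (lt_min (by linarith) one_pos) (min_le_left _ _)⟩
  clear hconf hr
  obtain ⟨CA, hCA, hΨ⟩ := M.Ψ_ge_crit hr' hconf' hc0 hcrit
  obtain ⟨R, C₁, hC₁, c₂, hc₂, hc₂1, hgap⟩ := M.gap_bound (by linarith : 0 < r') hconf'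
    (η := hc / 4) (by linarith)
  obtain ⟨K, CB, hCB, hext⟩ := M.ext_bound hc R
  have hFr : M.Fr hc ≤ 0 := by
    by_contra hcon
    push Not at hcon
    exact lt_irrefl _ ((hcrit hc).1 hcon)
  obtain ⟨D, hD, E, hE, hsc⟩ := M.scale_bound hr' hr'1 hFr hC₁ hc₂ hc₂1 hCB
    (fun L hL x hx y hy => hgap hc (by linarith) L hL x hx y hy) (by rw [abs_of_pos hc0]) hext
  obtain ⟨n₀, hn₀, hev, hrho⟩ := rho_sum hr' hE (by positivity : 0 < c₂ / 2)
  obtain ⟨m, hm0, hm⟩ : ∃ m, 0 < m ∧ ∀ y ∈ Finset.Icc (-(R : ℤ)) R, m ≤ M.φ y :=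
    finset_pos_min _ (fun y m => m ≤ M.φ y) (fun x c c' _ h1 h2 => h1.trans h2)
      (fun y _ => ⟨M.φ y, M.φ_pos y, le_rfl⟩)
  have hn₀R : (0 : ℝ) < n₀ := by exact_mod_cast hn₀
  refine ⟨m * (1 / (2 * n₀)), by positivity, fun δ hδ => ?_⟩
  set d := δ * m with hd
  have hd0 : 0 < d := mul_pos hδ hm0
  set ρ : ℝ := 1 / (2 * n₀) with hρ
  have hρ0 : 0 < ρ := by positivity
  set c := c₂ / 2 with hcdef
  have hcpos : 0 < c := by positivity
  have hlogD : 0 ≤ Real.log D := Real.log_nonneg hD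
  -- error term
  set q := (2 : ℝ) ^ (1 / 2 - r') with hq
  have hq0 : 0 < q := by positivity
  have hq1 : q < 1 := by rw [hq]; exact Real.rpow_lt_one_of_one_lt_of_neg (by norm_num) (by linarith)
  set p := (2 : ℝ) ^ (-(1 / 2 : ℝ)) with hp
  have hp0 : 0 < p := by positivity
  have hp1 : p < 1 := by rw [hp]; exact Real.rpow_lt_one_of_one_lt_of_neg (by norm_num) (by norm_num)
  set A₁ := Real.log 2 + Real.log (n₀ + 2) with hA₁
  have hlog2 : 0 < Real.log 2 := Real.log_pos (by norm_num)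
  have hlogn : 0 < Real.log ((n₀ : ℝ) + 2) := Real.log_pos (by linarith)
  have hA₁0 : 0 < A₁ := by linarith
  set c₃ := 2 * d * ρ / c * (2 * (n₀ : ℝ)) ^ (1 - r') with hc₃
  have hc₃0 : 0 < c₃ := by positivity
  set c₄ := 1 / Real.sqrt n₀ with hc₄
  have hc₄0 : 0 < c₄ := by positivity
  have hkey : ∀ J : ℕ, d * ρ - c₄ * (CA * A₁ * (((J : ℝ) + 1) * p ^ J) +
      c₃ * CA * A₁ * ((J : ℝ) * ((J : ℝ) + 1) * q ^ J) + c₃ * Real.log D * ((J : ℝ) * q ^ J)) ≤
      M.Fr (hc - δ) := by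
    intro J
    have hms := M.multi_scale hcpos hE hsc hn₀ hev J (hrho J) hd0
    have hN0 : 0 < 2 ^ J * n₀ := by positivity
    set N := 2 ^ J * n₀ with hN
    have hNev : Even N := hev.mul_left _
    have hNR : (0 : ℝ) < N := by exact_mod_cast hN0
    have hNcast : (N : ℝ) = 2 ^ J * n₀ := by rw [hN]; push_cast; ring
    -- upper bound for the left side
    have hup : M.ΨR hc R (fun _ => d) N ≤ N * M.Fr (hc - δ) := by
      refine le_trans ?_ (M.Ψ_le_Fr (hc - δ) hNev)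
      apply integral_mono ((M.good_Rt hc R (fun _ => d) N).integrable_log M.exp_mom
        (M.Rt_pos hc R hNev (fun _ => hd0.le))) (M.integrable_logZ (hc - δ) hNev)
      intro ω
      exact Real.log_le_log (M.Rt_pos hc R hNev (fun _ => hd0.le) ω) (M.Rt_le_Z hδ.le hm N ω)
    set t := ((2 : ℝ) ^ J) ^ (1 - r') with ht
    have ht0 : 0 < t := by positivity
    set W := c₃ * t with hW
    have hW0 : 0 < W := by positivity
    set w : ℕ → ℝ := fun j => 2 * d * ρ / (c * (2 * ((2 ^ j * n₀ : ℕ) : ℝ)) ^ (r' - 1)) with hw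
    have hw0 : ∀ j, 0 < w j := by
      intro j
      rw [hw]
      have : (0 : ℝ) < ((2 ^ j * n₀ : ℕ) : ℝ) := by exact_mod_cast (by positivity : 0 < 2 ^ j * n₀)
      positivity
    have hwW : ∀ j ∈ Finset.range J, w j ≤ W := by
      intro j hj
      rw [Finset.mem_range] at hj
      have h0 : (0 : ℝ) < ((2 ^ j * n₀ : ℕ) : ℝ) := by exact_mod_cast (by positivity : 0 < 2 ^ j * n₀)
      have h1 : w j = 2 * d * ρ / c * (2 * ((2 ^ j * n₀ : ℕ) : ℝ)) ^ (1 - r') := by
        rw [hw]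
        dsimp only
        rw [show (r' - 1) = -(1 - r') by ring, Real.rpow_neg (by positivity)]
        field_simp
      have h2 : (2 * ((2 ^ j * n₀ : ℕ) : ℝ)) ^ (1 - r') ≤ (2 * (n₀ : ℝ)) ^ (1 - r') * t := by
        rw [ht, ← Real.mul_rpow (by positivity) (by positivity)]
        apply Real.rpow_le_rpow (by positivity) _ (by linarith)
        push_cast
        have h3 : (2 : ℝ) ^ j ≤ 2 ^ J := pow_le_pow_right₀ (by norm_num) hj.le
        nlinarith
      rw [h1]
      refine (mul_le_mul_of_nonneg_left h2 (by positivity)).trans (le_of_eq ?_)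
      rw [hW, hc₃]
      ring
    have hsumw : ∑ j ∈ Finset.range J, w j ≤ J * W := by
      refine (Finset.sum_le_sum hwW).trans (le_of_eq ?_)
      rw [Finset.sum_const, Finset.card_range, nsmul_eq_mul]
    have hsumw0 : 0 ≤ ∑ j ∈ Finset.range J, w j := Finset.sum_nonneg fun j _ => (hw0 j).le
    set sN := Real.sqrt N with hsN
    have hsN0 : 0 < sN := Real.sqrt_pos.2 hNR
    have hsq : sN * sN = N := Real.mul_self_sqrt hNR.le
    have hlogN : Real.log ((N : ℝ) + 2) ≤ A₁ * ((J : ℝ) + 1) := by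
      have h1 : (N : ℝ) + 2 ≤ 2 ^ J * ((n₀ : ℝ) + 2) := by
        rw [hNcast]
        have : (1 : ℝ) ≤ 2 ^ J := one_le_pow₀ (by norm_num)
        nlinarith
      refine (Real.log_le_log (by positivity) h1).trans ?_
      rw [Real.log_mul (by positivity) (by positivity), Real.log_pow, hA₁]
      have hJ0 : (0 : ℝ) ≤ J := Nat.cast_nonneg _
      nlinarith
    have hlogN0 : 0 ≤ Real.log ((N : ℝ) + 2) := Real.log_nonneg (by linarith)
    have hX : -(CA * sN * (A₁ * ((J : ℝ) + 1))) ≤ M.Ψ hc N := by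
      have h1 := hΨ N hNev
      have h2 : CA * sN * Real.log ((N : ℝ) + 2) ≤ CA * sN * (A₁ * ((J : ℝ) + 1)) :=
        mul_le_mul_of_nonneg_left hlogN (by positivity)
      linarith
    have hX0 : 0 ≤ CA * sN * (A₁ * ((J : ℝ) + 1)) := by positivity
    have hterm2 : ∑ j ∈ Finset.range J, w j * (Real.sqrt ((2 ^ j * n₀ : ℕ) : ℝ) * Real.log D) ≤
        J * (W * (sN * Real.log D)) := by
      refine (Finset.sum_le_sum (g := fun _ => W * (sN * Real.log D)) fun j hj => ?_).trans (le_of_eq ?_)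
      · apply mul_le_mul (hwW j hj) _ (by positivity) hW0.le
        apply mul_le_mul_of_nonneg_right _ hlogD
        apply Real.sqrt_le_sqrt
        rw [Finset.mem_range] at hj
        have : 2 ^ j * n₀ ≤ N := by
          rw [hN]; exact Nat.mul_le_mul_right _ (Nat.pow_le_pow_right (by norm_num) hj.le)
        exact_mod_cast this
      · rw [Finset.sum_const, Finset.card_range, nsmul_eq_mul]
    have hterm1 : -((1 + J * W) * (CA * sN * (A₁ * ((J : ℝ) + 1)))) ≤
        (1 + ∑ j ∈ Finset.range J, w j) * M.Ψ hc N := by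
      have h1 := mul_le_mul_of_nonneg_left hX (by linarith : 0 ≤ 1 + ∑ j ∈ Finset.range J, w j)
      have h2 := mul_le_mul_of_nonneg_right (add_le_add_right hsumw 1) hX0
      linarith
    have hmain : d * ρ * N - (1 + J * W) * (CA * sN * (A₁ * ((J : ℝ) + 1))) -
        J * (W * (sN * Real.log D)) ≤ N * M.Fr (hc - δ) := by
      have h1 : d * ρ * (N : ℝ) + (1 + ∑ j ∈ Finset.range J, w j) * M.Ψ hc N -
        ∑ j ∈ Finset.range J, w j * (Real.sqrt ((2 ^ j * n₀ : ℕ) : ℝ) * Real.log D) ≤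
        M.ΨR hc R (fun _ => d) N := hms
      linarith
    -- divide by N
    have hpJ : 1 / sN = c₄ * p ^ J := by
      rw [hc₄, hsN, hNcast, Real.sqrt_mul (by positivity), hp, pow_half_aux, one_div_mul_one_div_rev]
    have hWp : t * p ^ J = q ^ J := by
      rw [ht, hp, hq, ← Real.rpow_natCast (2 : ℝ) J, ← Real.rpow_mul (by norm_num), ← Real.rpow_natCast,
        ← Real.rpow_natCast, ← Real.rpow_mul (by norm_num), ← Real.rpow_mul (by norm_num),
        ← Real.rpow_add (by norm_num)]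
      congr 1
      ring
    have hfin : d * ρ - (1 / sN) * ((1 + J * W) * (CA * (A₁ * ((J : ℝ) + 1))) + J * (W * Real.log D)) ≤
        M.Fr (hc - δ) := by
      have h1 : N * (d * ρ - (1 / sN) * ((1 + J * W) * (CA * (A₁ * ((J : ℝ) + 1))) + J * (W * Real.log D))) ≤
          N * M.Fr (hc - δ) := by
        refine le_trans (le_of_eq ?_) hmain
        rw [← hsq]
        field_simp
        ring
      exact le_of_mul_le_mul_left h1 hNR
    refine le_trans (le_of_eq ?_) hfin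
    rw [hpJ, hW, ← hWp]
    ring
  -- limit
  have hlim : Tendsto (fun J : ℕ => d * ρ - c₄ * (CA * A₁ * (((J : ℝ) + 1) * p ^ J) +
      c₃ * CA * A₁ * ((J : ℝ) * ((J : ℝ) + 1) * q ^ J) + c₃ * Real.log D * ((J : ℝ) * q ^ J))) atTop
      (𝓝 (d * ρ)) := by
    have hq' : |q| < 1 := by rw [abs_of_pos hq0]; exact hq1
    have hp' : |p| < 1 := by rw [abs_of_pos hp0]; exact hp1
    have e1 := tendsto_pow_const_mul_const_pow_of_abs_lt_one 1 hp'
    have e0 := tendsto_pow_const_mul_const_pow_of_abs_lt_one 0 hp'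
    have f1 := tendsto_pow_const_mul_const_pow_of_abs_lt_one 1 hq'
    have f2 := tendsto_pow_const_mul_const_pow_of_abs_lt_one 2 hq'
    have g1 : Tendsto (fun J : ℕ => ((J : ℝ) + 1) * p ^ J) atTop (𝓝 0) := by
      have := e1.add e0
      rw [add_zero] at this
      refine this.congr (fun J => ?_)
      ring
    have g2 : Tendsto (fun J : ℕ => (J : ℝ) * ((J : ℝ) + 1) * q ^ J) atTop (𝓝 0) := by
      have := f2.add f1
      rw [add_zero] at this
      refine this.congr (fun J => ?_)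
      ring
    have g3 : Tendsto (fun J : ℕ => (J : ℝ) * q ^ J) atTop (𝓝 0) := by
      refine f1.congr (fun J => ?_)
      ring
    have := ((((g1.const_mul (CA * A₁)).add (g2.const_mul (c₃ * CA * A₁))).add
      (g3.const_mul (c₃ * Real.log D))).const_mul c₄).const_sub (d * ρ)
    simpa using this
  have := le_of_tendsto' hlim hkey
  calc m * ρ * δ = d * ρ := by rw [hd]; ring
    _ ≤ _ := this

end Model

end

end MP_daa227_pr
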