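import Pool.Agent.Lib.MP_daa227_pr.Par

/-!
# One step: a small increase of the field decreases the free energy by a fixed factor
-/

open MeasureTheory ProbabilityTheory Set Filter
open scoped ENNReal Topology

namespace MP_daa227_pr

noncomputable section

set_option linter.unusedSectionVars false

/-- Requirements on the correlation length `l`. -/
lemma exists_large {r c₂ γ₀ ε A : ℝ} (hr : 0 < r) (hc₂ : 0 < c₂) (hγ₀ : 0 < γ₀) (hε : 0 < ε)
    {J : ℕ} (hJ : 0 < J) (p : ℕ) :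
    ∃ l₀ : ℝ, 1 < l₀ ∧ ∀ l : ℝ, l₀ ≤ l → l ^ (-(r / (2 * J))) ≤ γ₀ ∧ 2 ≤ l ^ (1 / (J : ℝ)) ∧
      A * l ^ ((p : ℝ) + 2) * Real.exp (-(c₂ / 8) * l ^ (r / (2 * J))) ≤ ε := by
  have hJ' : (0 : ℝ) < J := by exact_mod_cast hJ
  have hs : 0 < r / (2 * J) := by positivity
  have h1 : ∀ᶠ l : ℝ in atTop, l ^ (-(r / (2 * J))) ≤ γ₀ :=
    (tendsto_rpow_neg_atTop hs).eventually (ge_mem_nhds hγ₀)
  have h2 : ∀ᶠ l : ℝ in atTop, 2 ≤ l ^ (1 / (J : ℝ)) :=
    (tendsto_rpow_atTop (by positivity)).eventually_ge_atTop 2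
  have h3 : ∀ᶠ l : ℝ in atTop,
      A * l ^ ((p : ℝ) + 2) * Real.exp (-(c₂ / 8) * l ^ (r / (2 * J))) ≤ ε := by
    have h4 := (tendsto_rpow_mul_exp_neg_mul_atTop_nhds_zero (((p : ℝ) + 2) / (r / (2 * J)))
      (c₂ / 8) (by positivity)).comp (tendsto_rpow_atTop hs)
    have h5 := h4.const_mul A
    rw [mul_zero] at h5
    filter_upwards [h5.eventually (ge_mem_nhds hε), eventually_gt_atTop 0] with l hl hl0
    refine le_trans (le_of_eq ?_) hl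
    simp only [Function.comp]
    rw [← Real.rpow_mul hl0.le, mul_div_cancel₀ _ hs.ne']
    ring
  obtain ⟨l₀, hl₀⟩ := (h1.and (h2.and h3)).exists_forall_of_atTop
  exact ⟨max l₀ 2, by simp, fun l hl => hl₀ l ((le_max_left _ _).trans hl)⟩

namespace Model

variable (M : Model)

theorem one_step {r : ℝ} (hr : 0 < r) (hr2 : r ≤ 1 / 2) {hc : ℝ} (hc0 : 0 < hc) {R : ℕ}
    {C₁ c₂ γg : ℝ} (hC₁ : 1 ≤ C₁) (hc₂ : 0 < c₂) (hc₂1 : c₂ ≤ 1) (hγg : 0 < γg)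
    (hgap : ∀ h, hc / 2 ≤ h → h ≤ hc + 1 → ∀ γ, 0 < γ → γ ≤ γg → ∀ L : ℕ, 1 ≤ L →
      ∀ x ∈ Finset.Icc (-(R : ℤ)) R, ∀ y ∈ Finset.Icc (-(R : ℤ)) R,
        mom M.μ γ (fun ω => M.G h R L ω x y) ≤
          ENNReal.ofReal (C₁ * Real.exp (-(γ * c₂) * (L : ℝ) ^ r)))
    {ϑ : ℝ} (hϑr : ϑ < r / (1 - r)) :
    ∃ Cs : ℝ, 0 < Cs ∧ ∃ ρ : ℝ, 0 < ρ ∧ ρ < 1 ∧ ∃ F₀ : ℝ, 0 < F₀ ∧ ∀ h, hc / 2 ≤ h → h ≤ hc →
      ∀ F : ℝ, 0 < F → F ≤ F₀ → M.Fr h ≤ F → M.Fr (h + Cs * F ^ ϑ) ≤ ρ * F := by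
  have hr1 : r < 1 := by linarith
  have h1r : 0 < 1 - r := by linarith
  obtain ⟨Ck, hCk, γk, hγk, hγk1, hCγk, hkey⟩ := M.key_Z
  set γ₀ := min γk γg with hγ₀def
  have hγ₀ : 0 < γ₀ := lt_min hγk hγg
  have hγ₀1 : γ₀ ≤ 1 := (min_le_left _ _).trans hγk1
  have hCγ₀ : Ck * γ₀ ≤ 1 := (mul_le_mul_of_nonneg_left (min_le_left _ _) hCk.le).trans hCγk
  obtain ⟨K, CB, hCB, hext⟩ := M.ext_bound (hc + 1) R
  obtain ⟨A, hA1, p, hscale⟩ := M.scale_key hr hC₁ hc₂ hc₂1 hCB hCk hγ₀1 hCγ₀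
    (fun γ h0 h1 => hkey γ h0 (h1.trans (min_le_left _ _)))
    (fun h h1 h2 γ h3 h4 => hgap h h1 h2 γ h3 (h4.trans (min_le_right _ _))) hext
  obtain ⟨φm, hφm0, hφm⟩ : ∃ m, 0 < m ∧ ∀ y ∈ Finset.Icc (-(R : ℤ)) R, m ≤ M.φ y :=
    finset_pos_min _ (fun y m => m ≤ M.φ y) (fun x c c' _ h1 h2 => h1.trans h2)
      (fun y _ => ⟨M.φ y, M.φ_pos y, le_rfl⟩)
  -- number of scales
  have hgapr : 0 < r - ϑ * (1 - r) := by
    rw [lt_div_iff₀ h1r] at hϑr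
    linarith
  obtain ⟨J, hJ1, hJϑ⟩ : ∃ J : ℕ, 0 < J ∧ 1 / (J : ℝ) ≤ r - ϑ * (1 - r) := by
    obtain ⟨n, hn⟩ := exists_nat_one_div_lt hgapr
    exact ⟨n + 1, Nat.succ_pos n, by push_cast; exact hn.le⟩
  have hJ' : (0 : ℝ) < J := by exact_mod_cast hJ1
  set c := c₂ / 2 with hcdef
  have hcpos : 0 < c := by positivity
  set c₆ := 1 / (2 * (1 + J / c)) with hc₆def
  have hc₆ : 0 < c₆ := by positivity
  have hc₆J : c₆ * (1 + J / c) = 1 / 2 := by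
    rw [hc₆def]
    have : (1 + (J : ℝ) / c) ≠ 0 := by positivity
    field_simp
  have hJ1' : (1 : ℝ) ≤ J := by exact_mod_cast hJ1
  have hc₆c : c₆ / c ≤ 1 := by
    have h1 : c₆ * (1 / c) ≤ c₆ * (1 + J / c) := by
      apply mul_le_mul_of_nonneg_left _ hc₆.le
      have : 1 / c ≤ J / c := div_le_div_of_nonneg_right hJ1' hcpos.le
      linarith
    rw [mul_one_div] at h1
    linarith
  have hc₆1 : c₆ ≤ 1 := by
    have h1 : c₆ * 1 ≤ c₆ * (1 + J / c) := by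
      apply mul_le_mul_of_nonneg_left _ hc₆.le
      have : 0 ≤ J / c := by positivity
      linarith
    linarith
  set ε := c₆ / 2 with hε
  have hε0 : 0 < ε := by positivity
  have hε1 : ε ≤ 1 := by rw [hε]; linarith
  obtain ⟨l₀, hl₀1, hl₀⟩ := exists_large (A := A) hr hc₂ hγ₀ hε0 hJ1 p
  have hl₀0 : 0 < l₀ := by linarith
  refine ⟨Ck * J + 1 / φm, by positivity, 1 - c₆ / 2, by linarith, by linarith,
    l₀ ^ (-(1 - r)), Real.rpow_pos_of_pos hl₀0 _, fun h hh1 hh2 F hF hFF₀ hFr => ?_⟩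
  -- the correlation length
  set l := F ^ (-(1 / (1 - r))) with hl
  have hl0 : 0 < l := Real.rpow_pos_of_pos hF _
  have hlF : l ^ (-(1 - r)) = F := by
    rw [hl, ← Real.rpow_mul hF.le, show -(1 / (1 - r)) * -(1 - r) = 1 by field_simp, Real.rpow_one]
  have hll₀ : l₀ ≤ l := by
    have h1 : F ^ (1 / (1 - r)) ≤ (l₀ ^ (-(1 - r))) ^ (1 / (1 - r)) :=
      Real.rpow_le_rpow hF.le hFF₀ (by positivity)
    have h2 : (l₀ ^ (-(1 - r))) ^ (1 / (1 - r)) = l₀⁻¹ := by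
      rw [← Real.rpow_mul hl₀0.le, show -(1 - r) * (1 / (1 - r)) = -1 by field_simp,
        Real.rpow_neg_one]
    rw [h2] at h1
    rw [hl, Real.rpow_neg hF.le]
    rw [le_inv_comm₀ hl₀0 (Real.rpow_pos_of_pos hF _)]
    exact h1
  have hl1 : 1 < l := lt_of_lt_of_le hl₀1 hll₀
  obtain ⟨hP1, hP2, hP3⟩ := hl₀ l hll₀
  have hF1 : F ≤ 1 := by
    rw [← hlF]
    exact Real.rpow_le_one_of_one_le_of_nonpos hl1.le (by linarith)
  -- the data of the scales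
  set t := c₆ * F with ht
  have ht0 : 0 < t := by positivity
  set lam : ℕ → ℝ := fun j => c₆ * l ^ (-(1 - r)) / nuS l r c J j with hlam
  have hlam0 : ∀ j < J, 0 < lam j := fun j _ => by
    rw [hlam]
    exact div_pos (mul_pos hc₆ (Real.rpow_pos_of_pos hl0 _)) (nuS_pos hl1 hcpos j)
  have hlamsum : ∑ j ∈ Finset.range J, lam j < 1 := by
    have h1 : ∑ j ∈ Finset.range J, lam j ≤
        ∑ j ∈ Finset.range J, (c₆ / c + (if j + 1 = J then c₆ else 0)) :=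
      Finset.sum_le_sum fun j hj => lam_le hl1 hr1 hJ1 hc₆ hcpos (Finset.mem_range.1 hj)
    have h2 : ∑ j ∈ Finset.range J, (c₆ / c + (if j + 1 = J then c₆ else 0)) =
        J * (c₆ / c) + c₆ := by
      rw [Finset.sum_add_distrib, Finset.sum_const, Finset.card_range, nsmul_eq_mul]
      congr 1
      rw [Finset.sum_eq_single (J - 1)]
      · rw [if_pos (by omega)]
      · intro j hj hj2
        rw [Finset.mem_range] at hj
        rw [if_neg (by omega)]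
      · intro h3
        exact absurd (Finset.mem_range.2 (by omega)) h3
    have h3 : (J : ℝ) * (c₆ / c) + c₆ = 1 / 2 := by
      rw [← hc₆J]; ring
    linarith
  set γs : ℕ → ℝ := fun j => gamS l r J j with hγs
  have hlamgam : ∀ j < J, lam j * γs j ≤ l ^ (-r + 1 / (J : ℝ)) := fun j hj =>
    lam_gam hl1 hr hr2 hJ1 hc₆ hc₆1 hcpos hc₆c hj
  have hFϑ : l ^ (-r + 1 / (J : ℝ)) ≤ F ^ ϑ := by
    rw [← hlF, ← Real.rpow_mul hl0.le]
    apply Real.rpow_le_rpow_of_exponent_le hl1.le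
    linarith
  have hFϑ0 : 0 ≤ F ^ ϑ := Real.rpow_nonneg hF.le _
  have hsumlg : Ck * ∑ j ∈ Finset.range J, lam j * γs j ≤ Ck * J * F ^ ϑ := by
    have h1 : ∑ j ∈ Finset.range J, lam j * γs j ≤ ∑ _j ∈ Finset.range J, F ^ ϑ :=
      Finset.sum_le_sum fun j hj => (hlamgam j (Finset.mem_range.1 hj)).trans hFϑ
    rw [Finset.sum_const, Finset.card_range, nsmul_eq_mul] at h1
    rw [mul_assoc]
    exact mul_le_mul_of_nonneg_left h1 hCk.le
  set g : ℕ → ℕ → ℝ := fun j => gSc l r c J j with hg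
  set mb := ⌈bS l J 0⌉₊ - 1 with hmb
  have hb0 : 0 < bS l J 0 := bS_pos hl1 0
  have hmb1 : (mb : ℝ) ≤ bS l J 0 := by
    have h1 : 0 < ⌈bS l J 0⌉₊ := Nat.ceil_pos.2 hb0
    have h2 : mb < ⌈bS l J 0⌉₊ := by omega
    exact (Nat.lt_ceil.1 h2).le
  have hsum : ∀ L : ℕ, mb < L → t * L ≤ ∑ j ∈ Finset.range J, lam j * g j L := by
    intro L hL
    have h1 : ⌈bS l J 0⌉₊ ≤ L := by omega
    have h2 : bS l J 0 ≤ L := Nat.ceil_le.1 h1
    obtain ⟨j, hj, hj1, hj2⟩ := exists_scale hJ1 h2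
    have h3 : lam j * g j L = t * L := by
      rw [hlam, hg, ht, ← hlF]
      simp only
      unfold gSc
      rw [if_pos ⟨hj1, hj2⟩]
      have := (nuS_pos (r := r) (J := J) hl1 hcpos j).ne'
      field_simp
    rw [← h3]
    exact Finset.single_le_sum (f := fun j => lam j * g j L) (fun i hi =>
      mul_nonneg (hlam0 i (Finset.mem_range.1 hi)).le (gSc_nonneg hl1 hcpos i L))
      (Finset.mem_range.2 hj)
  set h'' := h + (Ck * J + 1 / φm) * F ^ ϑ with hh''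
  have hslack : F ^ ϑ / φm ≤ h'' - h - Ck * ∑ j ∈ Finset.range J, lam j * γs j := by
    have h1 : h'' - h = Ck * J * F ^ ϑ + F ^ ϑ / φm := by rw [hh'']; ring
    rw [h1]
    linarith
  have htmb : t * mb ≤ F ^ ϑ := by
    have h1 : t * mb ≤ 1 * F * bS l J 0 := by
      rw [ht]
      exact mul_le_mul (mul_le_mul_of_nonneg_right hc₆1 hF.le) hmb1 (Nat.cast_nonneg _)
        (by positivity)
    refine h1.trans (le_trans ?_ hFϑ)
    rw [one_mul]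
    nth_rewrite 1 [← hlF]
    unfold bS
    rw [← Real.rpow_add hl0]
    apply Real.rpow_le_rpow_of_exponent_le hl1.le
    push_cast
    rw [zero_add]
    linarith
  have hB₀ : 0 ≤ Real.log A * l := mul_nonneg (Real.log_nonneg hA1) hl0.le
  have hmain := M.combine (h := h) (h'' := h'') (F := F) (ε := ε) (t := t) (B₀ := Real.log A * l)
    (Ck := Ck) hφm hlam0 hlamsum (g := g) (fun j _ L => gSc_nonneg hl1 hcpos j L) hsum ht0.le
    (by
      have : 0 ≤ F ^ ϑ / φm := by positivity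
      linarith)
    (by
      have h1 := mul_le_mul_of_nonneg_right hslack hφm0.le
      rw [div_mul_cancel₀ _ hφm0.ne'] at h1
      linarith)
    (γ := γs) ?_ hFr hF.le hε0.le hB₀
  · have h1 : F * (1 + ε) - t = (1 - c₆ / 2) * F := by rw [hε, ht]; ring
    linarith
  -- the scales
  intro j hj N hN
  have hγj0 : 0 < γs j := gamS_pos hl1 j
  have hγj1 : γs j ≤ γ₀ := (gamS_le hl1 hr hJ1 j).trans hP1
  have hγjl : l ^ (-1 : ℝ) ≤ γs j := gamS_ge hl1 hr (by linarith) hJ1 hj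
  set m := ⌈bS l J j⌉₊ - 1 with hm
  have hbj0 : 0 < bS l J j := bS_pos hl1 j
  have hbj2 : 2 ≤ bS l J j := by
    refine hP2.trans ?_
    unfold bS
    apply Real.rpow_le_rpow_of_exponent_le hl1.le
    apply div_le_div_of_nonneg_right _ hJ'.le
    have : (0 : ℝ) ≤ j := Nat.cast_nonneg _
    linarith
  have hmb2 : bS l J j / 2 ≤ m := by
    have h1 : 1 ≤ ⌈bS l J j⌉₊ := Nat.ceil_pos.2 hbj0
    have h2 : (m : ℝ) = (⌈bS l J j⌉₊ : ℝ) - 1 := by
      rw [hm, Nat.cast_sub h1]; simp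
    have h3 := Nat.le_ceil (bS l J j)
    rw [h2]
    linarith
  have hsm : A * Real.exp (-(γs j * c₂ / 4) * (m : ℝ) ^ r) ≤ (γs j) ^ (p + 1) * F * ε := by
    have h1 : l ^ (r / (2 * J)) / 2 ≤ γs j * (m : ℝ) ^ r := by
      have h2 : (bS l J j / 2) ^ r ≤ (m : ℝ) ^ r :=
        Real.rpow_le_rpow (by positivity) hmb2 hr.le
      have h3 : (bS l J j) ^ r / 2 ≤ (bS l J j / 2) ^ r := by
        rw [Real.div_rpow hbj0.le (by norm_num)]
        apply div_le_div_of_nonneg_left (Real.rpow_nonneg hbj0.le _) (by positivity)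
        calc (2 : ℝ) ^ r ≤ 2 ^ (1 : ℝ) :=
              Real.rpow_le_rpow_of_exponent_le (by norm_num) (by linarith)
          _ = 2 := Real.rpow_one 2
      have h4 := gamS_mul_b (r := r) (J := J) hl1 j
      calc l ^ (r / (2 * J)) / 2 = γs j * ((bS l J j) ^ r / 2) := by rw [← h4]; ring
        _ ≤ γs j * (m : ℝ) ^ r := mul_le_mul_of_nonneg_left (h3.trans h2) hγj0.le
    have h5 : -(γs j * c₂ / 4) * (m : ℝ) ^ r ≤ -(c₂ / 8) * l ^ (r / (2 * J)) := by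
      have := mul_le_mul_of_nonneg_left h1 (by positivity : 0 ≤ c₂ / 4)
      linarith
    have h6 : A * Real.exp (-(γs j * c₂ / 4) * (m : ℝ) ^ r) ≤
        A * Real.exp (-(c₂ / 8) * l ^ (r / (2 * J))) :=
      mul_le_mul_of_nonneg_left (Real.exp_le_exp.2 h5) (by linarith)
    have h7 : A * Real.exp (-(c₂ / 8) * l ^ (r / (2 * J))) ≤ l ^ (-((p : ℝ) + 2)) * ε := by
      have h8 : l ^ (-((p : ℝ) + 2)) * l ^ ((p : ℝ) + 2) = 1 := by
        rw [← Real.rpow_add hl0]; simp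
      have h9 := mul_le_mul_of_nonneg_left hP3 (Real.rpow_nonneg hl0.le (-((p : ℝ) + 2)))
      calc A * Real.exp (-(c₂ / 8) * l ^ (r / (2 * J)))
          = (l ^ (-((p : ℝ) + 2)) * l ^ ((p : ℝ) + 2)) *
            (A * Real.exp (-(c₂ / 8) * l ^ (r / (2 * J)))) := by rw [h8, one_mul]
        _ = l ^ (-((p : ℝ) + 2)) *
            (A * l ^ ((p : ℝ) + 2) * Real.exp (-(c₂ / 8) * l ^ (r / (2 * J)))) := by ring
        _ ≤ _ := h9
    refine h6.trans (h7.trans ?_)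
    apply mul_le_mul_of_nonneg_right _ hε0.le
    have h10 : l ^ (-((p : ℝ) + 2)) = (l ^ (-1 : ℝ)) ^ (p + 1) * l ^ (-1 : ℝ) := by
      rw [← Real.rpow_natCast, ← Real.rpow_mul hl0.le, ← Real.rpow_add hl0]
      congr 1
      push_cast
      ring
    rw [h10]
    apply mul_le_mul (pow_le_pow_left₀ (Real.rpow_nonneg hl0.le _) hγjl _) _
      (Real.rpow_nonneg hl0.le _) (pow_nonneg hγj0.le _)
    calc l ^ (-1 : ℝ) ≤ l ^ (-(1 - r)) :=
          Real.rpow_le_rpow_of_exponent_le hl1.le (by linarith)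
      _ = F := hlF
  refine (hscale h hh1 (by linarith) (by linarith) F hF hF1 hFr (γs j) hγj0 hγj1 ε hε0 hε1 m hsm
    (g j) (fun L hL => gSc_zero hbj0 hL) (gSc_nonneg hl1 hcpos j) (fun L => ?_) N hN).trans ?_
  · have h1 := gSc_le (c := c) (J := J) hl1 hcpos hr hr1 j L
    rw [hlF] at h1
    exact h1
  · have h1 : Real.log A / γs j ≤ Real.log A * l := by
      rw [div_le_iff₀ hγj0, mul_assoc]
      have h2 : 1 ≤ l * γs j := by
        have h3 := mul_le_mul_of_nonneg_left hγjl hl0.le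
        rw [Real.rpow_neg_one, mul_inv_cancel₀ hl0.ne'] at h3
        exact h3
      exact le_mul_of_one_le_right (Real.log_nonneg hA1) h2
    linarith

end Model

/-- Iteration of the one step inequality. -/
lemma iterate_step {Fr : ℝ → ℝ} (hanti : ∀ h h', h ≤ h' → Fr h' ≤ Fr h) {hc Cs ρ F₀ ϑ : ℝ}
    (hCs : 0 < Cs) (hρ : 0 < ρ) (hρ1 : ρ < 1) (hϑ : 0 < ϑ)
    (hcrit : ∀ h, 0 < Fr h ↔ h < hc)
    (hstep : ∀ h, hc / 2 ≤ h → h ≤ hc → ∀ F : ℝ, 0 < F → F ≤ F₀ → Fr h ≤ F →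
      Fr (h + Cs * F ^ ϑ) ≤ ρ * F) :
    ∀ h, hc / 2 ≤ h → h < hc → Fr h ≤ F₀ → hc - h ≤ Cs / (1 - ρ ^ ϑ) * (Fr h) ^ ϑ := by
  intro h hh1 hh2 hF₀
  have hF : 0 < Fr h := (hcrit h).2 hh2
  set F := Fr h with hFdef
  set q := ρ ^ ϑ with hq
  have hq0 : 0 < q := Real.rpow_pos_of_pos hρ _
  have hq1 : q < 1 := Real.rpow_lt_one hρ.le hρ1 hϑ
  have h1q : 0 < 1 - q := by linarith
  by_contra hcon
  push Not at hcon
  set hinf := h + Cs / (1 - q) * F ^ ϑ with hhinf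
  have hlt : hinf < hc := by rw [hhinf]; linarith
  have hFϑ : 0 < F ^ ϑ := Real.rpow_pos_of_pos hF _
  set hk : ℕ → ℝ := fun k => h + Cs * F ^ ϑ * ∑ i ∈ Finset.range k, q ^ i with hhk
  have hgeo : ∀ k : ℕ, ∑ i ∈ Finset.range k, q ^ i ≤ 1 / (1 - q) := by
    intro k
    rw [geom_sum_eq hq1.ne, ← neg_div_neg_eq, neg_sub, neg_sub]
    apply div_le_div_of_nonneg_right _ h1q.le
    have : 0 ≤ q ^ k := by positivity
    linarith
  have hk_le : ∀ k, hk k ≤ hinf := by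
    intro k
    rw [hhk, hhinf]
    have h1 := mul_le_mul_of_nonneg_left (hgeo k) (mul_pos hCs hFϑ).le
    have h2 : Cs * F ^ ϑ * (1 / (1 - q)) = Cs / (1 - q) * F ^ ϑ := by ring
    rw [h2] at h1
    simp only
    linarith
  have hk_ge : ∀ k, h ≤ hk k := by
    intro k
    rw [hhk]
    have : 0 ≤ Cs * F ^ ϑ * ∑ i ∈ Finset.range k, q ^ i :=
      mul_nonneg (mul_pos hCs hFϑ).le (Finset.sum_nonneg fun i _ => pow_nonneg hq0.le _)
    simp only
    linarith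
  have hFk : ∀ k, Fr (hk k) ≤ ρ ^ k * F := by
    intro k
    induction k with
    | zero =>
      rw [hhk]
      simp [hFdef]
    | succ k ih =>
      have h0 : 0 < ρ ^ k * F := mul_pos (pow_pos hρ _) hF
      have h1 : ρ ^ k * F ≤ F₀ := by
        refine le_trans ?_ hF₀
        exact mul_le_of_le_one_left hF.le (pow_le_one₀ hρ.le hρ1.le)
      have h2 := hstep (hk k) (hh1.trans (hk_ge k)) ((hk_le k).trans hlt.le) (ρ ^ k * F) h0 h1 ih
      have h3 : hk k + Cs * (ρ ^ k * F) ^ ϑ = hk (k + 1) := by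
        rw [hhk]
        simp only
        rw [Finset.sum_range_succ, Real.mul_rpow (pow_nonneg hρ.le _) hF.le]
        have h4 : (ρ ^ k) ^ ϑ = q ^ k := by
          rw [hq, ← Real.rpow_natCast, ← Real.rpow_natCast, ← Real.rpow_mul hρ.le,
            ← Real.rpow_mul hρ.le, mul_comm]
        rw [h4]
        ring
      rw [h3] at h2
      refine h2.trans (le_of_eq ?_)
      ring
  have hlim : Tendsto (fun k : ℕ => ρ ^ k * F) atTop (𝓝 0) := by
    have := (tendsto_pow_atTop_nhds_zero_of_lt_one hρ.le hρ1).mul_const F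
    rwa [zero_mul] at this
  have hfin : Fr hinf ≤ 0 := ge_of_tendsto' hlim fun k => (hanti _ _ (hk_le k)).trans (hFk k)
  have := (hcrit hinf).2 hlt
  linarith

namespace Model

variable (M : Model)

/-- **Finite order.** -/
theorem finite_order {r : ℝ} (hr : 0 < r) (hr2 : r ≤ 1 / 2) {hc : ℝ} (hc0 : 0 < hc)
    (hcrit : ∀ h, 0 < M.Fr h ↔ h < hc) {R : ℕ}
    {C₁ c₂ γg : ℝ} (hC₁ : 1 ≤ C₁) (hc₂ : 0 < c₂) (hc₂1 : c₂ ≤ 1) (hγg : 0 < γg)
    (hgap : ∀ h, hc / 2 ≤ h → h ≤ hc + 1 → ∀ γ, 0 < γ → γ ≤ γg → ∀ L : ℕ, 1 ≤ L →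
      ∀ x ∈ Finset.Icc (-(R : ℤ)) R, ∀ y ∈ Finset.Icc (-(R : ℤ)) R,
        mom M.μ γ (fun ω => M.G h R L ω x y) ≤
          ENNReal.ofReal (C₁ * Real.exp (-(γ * c₂) * (L : ℝ) ^ r)))
    {q : ℝ} (hq : (1 - r) / r < q) :
    ∃ c₀ : ℝ, 0 < c₀ ∧ ∃ δ₀ : ℝ, 0 < δ₀ ∧ ∀ δ : ℝ, 0 < δ → δ < δ₀ → c₀ * δ ^ q ≤ M.Fr (hc - δ) := by
  have h1r : 0 < 1 - r := by linarith
  have hq0 : 0 < q := (div_pos h1r hr).trans hq
  have hϑr : 1 / q < r / (1 - r) := by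
    rw [div_lt_div_iff₀ hq0 h1r, one_mul]
    rw [div_lt_iff₀ hr] at hq
    linarith
  obtain ⟨Cs, hCs, ρ, hρ, hρ1, F₀, hF₀, hstep⟩ := M.one_step hr hr2 hc0 hC₁ hc₂ hc₂1 hγg hgap hϑr
  have hϑ : 0 < 1 / q := by positivity
  have hit := iterate_step (Fr := M.Fr) (fun h h' hh => M.Fr_anti hh) hCs hρ hρ1 hϑ hcrit hstep
  have hρϑ : ρ ^ (1 / q) < 1 := Real.rpow_lt_one hρ.le hρ1 hϑ
  set C' := Cs / (1 - ρ ^ (1 / q)) with hC'
  have hC'0 : 0 < C' := div_pos hCs (by linarith)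
  have hFr : M.Fr hc ≤ 0 := by
    by_contra hcon
    push Not at hcon
    exact lt_irrefl _ ((hcrit hc).1 hcon)
  refine ⟨C' ^ (-q), Real.rpow_pos_of_pos hC'0 _, min (hc / 2) (F₀ / M.Φ),
    lt_min (by linarith) (div_pos hF₀ M.Φ_pos), fun δ hδ hδ2 => ?_⟩
  have h1 : δ < hc / 2 := hδ2.trans_le (min_le_left _ _)
  have h2 : δ < F₀ / M.Φ := hδ2.trans_le (min_le_right _ _)
  have h3 : M.Fr (hc - δ) ≤ F₀ := by
    have h4 := M.Fr_lip (h := hc - δ) (h' := hc) (by linarith)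
    rw [lt_div_iff₀ M.Φ_pos] at h2
    have h5 : (hc - (hc - δ)) * M.Φ = δ * M.Φ := by ring
    linarith
  have h4 := hit (hc - δ) (by linarith) (by linarith) h3
  have hFp : 0 < M.Fr (hc - δ) := (hcrit _).2 (by linarith)
  have h5 : δ ≤ C' * (M.Fr (hc - δ)) ^ (1 / q) := by linarith
  have h6 : δ ^ q ≤ C' ^ q * M.Fr (hc - δ) := by
    calc δ ^ q ≤ (C' * (M.Fr (hc - δ)) ^ (1 / q)) ^ q := Real.rpow_le_rpow hδ.le h5 hq0.le
      _ = C' ^ q * M.Fr (hc - δ) := by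
          rw [Real.mul_rpow hC'0.le (Real.rpow_nonneg hFp.le _), ← Real.rpow_mul hFp.le,
            one_div_mul_cancel hq0.ne', Real.rpow_one]
  calc C' ^ (-q) * δ ^ q ≤ C' ^ (-q) * (C' ^ q * M.Fr (hc - δ)) :=
        mul_le_mul_of_nonneg_left h6 (Real.rpow_nonneg hC'0.le _)
    _ = M.Fr (hc - δ) := by
        rw [← mul_assoc, ← Real.rpow_add hC'0]
        simp

end Model

end

end MP_daa227_pr
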