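import Pool.Agent.Lib.MP_daa227_pr.Comb

/-!
# Choice of the scales
-/

open MeasureTheory ProbabilityTheory Set Filter
open scoped ENNReal Topology

namespace MP_daa227_pr

noncomputable section

set_option linter.unusedSectionVars false

/-- lower end of the scale `j` -/
def bS (l : ℝ) (J j : ℕ) : ℝ := l ^ (((j : ℝ) + 1) / J)

/-- bonus per unit length in scale `j` -/
def nuS (l r c : ℝ) (J j : ℕ) : ℝ :=
  if j + 1 < J then c * (bS l J (j + 1)) ^ (r - 1) else l ^ (-(1 - r))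

/-- bonus of the gaps in scale `j` -/
def gSc (l r c : ℝ) (J j : ℕ) (L : ℕ) : ℝ :=
  if bS l J j ≤ L ∧ (j + 1 < J → (L : ℝ) < bS l J (j + 1)) then nuS l r c J j * L else 0

/-- order of the moment in scale `j` -/
def gamS (l r : ℝ) (J j : ℕ) : ℝ := l ^ (-(r * ((j : ℝ) + 1) / J) + r / (2 * J))

section
variable {l r c : ℝ} {J : ℕ}

lemma bS_pos (hl : 1 < l) (j : ℕ) : 0 < bS l J j := Real.rpow_pos_of_pos (by linarith) _

lemma bS_mono (hl : 1 < l) {i j : ℕ} (hij : i ≤ j) : bS l J i ≤ bS l J j := by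
  unfold bS
  apply Real.rpow_le_rpow_of_exponent_le hl.le
  apply div_le_div_of_nonneg_right _ (Nat.cast_nonneg _)
  have : (i : ℝ) ≤ j := by exact_mod_cast hij
  linarith

lemma bS_top (hJ : 0 < J) : bS l J (J - 1) = l := by
  unfold bS
  have h1 : (((J - 1 : ℕ) : ℝ) + 1) = J := by
    rw [Nat.cast_sub (by omega)]; push_cast; ring
  have hJ' : (J : ℝ) ≠ 0 := by exact_mod_cast hJ.ne'
  rw [h1, div_self hJ', Real.rpow_one]

lemma bS_le (hl : 1 < l) (hJ : 0 < J) {j : ℕ} (hj : j < J) : bS l J j ≤ l := by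
  calc bS l J j ≤ bS l J (J - 1) := bS_mono hl (by omega)
    _ = l := bS_top hJ

lemma nuS_pos (hl : 1 < l) (hc : 0 < c) (j : ℕ) : 0 < nuS l r c J j := by
  unfold nuS
  split_ifs
  · exact mul_pos hc (Real.rpow_pos_of_pos (bS_pos hl _) _)
  · exact Real.rpow_pos_of_pos (by linarith) _

lemma gSc_nonneg (hl : 1 < l) (hc : 0 < c) (j L : ℕ) : 0 ≤ gSc l r c J j L := by
  unfold gSc
  split_ifs
  · exact mul_nonneg (nuS_pos hl hc j).le (Nat.cast_nonneg _)
  · exact le_rfl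

lemma gSc_le (hl : 1 < l) (hc : 0 < c) (hr : 0 < r) (hr1 : r < 1) (j L : ℕ) :
    gSc l r c J j L ≤ c * (L : ℝ) ^ r + l ^ (-(1 - r)) * L := by
  have h0 : 0 ≤ c * (L : ℝ) ^ r := mul_nonneg hc.le (Real.rpow_nonneg (Nat.cast_nonneg _) _)
  have h1 : 0 ≤ l ^ (-(1 - r)) * L :=
    mul_nonneg (Real.rpow_nonneg (by linarith) _) (Nat.cast_nonneg _)
  unfold gSc
  split_ifs with h
  · obtain ⟨hb, hb2⟩ := h
    have hL : (0 : ℝ) < L := (bS_pos hl j).trans_le hb
    unfold nuS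
    split_ifs with hj
    · have h2 := hb2 hj
      have h3 : (bS l J (j + 1)) ^ (r - 1) ≤ (L : ℝ) ^ (r - 1) :=
        Real.rpow_le_rpow_of_nonpos hL h2.le (by linarith)
      have h4 : c * (bS l J (j + 1)) ^ (r - 1) * L ≤ c * (L : ℝ) ^ (r - 1) * L :=
        mul_le_mul_of_nonneg_right (mul_le_mul_of_nonneg_left h3 hc.le) hL.le
      have h5 : c * (L : ℝ) ^ (r - 1) * L = c * (L : ℝ) ^ r := by
        rw [mul_assoc, ← Real.rpow_add_one hL.ne']
        congr 2
        ring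
      linarith
    · linarith
  · linarith

lemma gSc_zero {j L : ℕ} (hb : 0 < bS l J j) (hL : L ≤ ⌈bS l J j⌉₊ - 1) : gSc l r c J j L = 0 := by
  unfold gSc
  rw [if_neg]
  rintro ⟨h1, -⟩
  have h2 : 0 < ⌈bS l J j⌉₊ := Nat.ceil_pos.2 hb
  have h3 : L < ⌈bS l J j⌉₊ := by omega
  rw [Nat.lt_ceil] at h3
  linarith

lemma exists_scale (hJ : 0 < J) {x : ℝ} (hx : bS l J 0 ≤ x) :
    ∃ j < J, bS l J j ≤ x ∧ (j + 1 < J → x < bS l J (j + 1)) := by
  classical
  obtain ⟨k, rfl⟩ : ∃ k, J = k + 1 := ⟨J - 1, by omega⟩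
  have h1 : ∀ n : ℕ, n < k + 1 → ∃ j ≤ n, bS l (k + 1) j ≤ x ∧
      (j + 1 ≤ n → x < bS l (k + 1) (j + 1)) := by
    intro n
    induction n with
    | zero => intro _; exact ⟨0, le_rfl, hx, fun h => by omega⟩
    | succ n ih =>
      intro hn
      by_cases hb : bS l (k + 1) (n + 1) ≤ x
      · exact ⟨n + 1, le_rfl, hb, fun h => by omega⟩
      · push Not at hb
        obtain ⟨j, hj, h2, h3⟩ := ih (by omega)
        refine ⟨j, by omega, h2, fun h => ?_⟩
        rcases Nat.lt_or_ge j n with h4 | h4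
        · exact h3 (by omega)
        · have : j = n := by omega
          rw [this]; exact hb
  obtain ⟨j, hj, h2, h3⟩ := h1 k (by omega)
  exact ⟨j, by omega, h2, fun h => h3 (by omega)⟩

lemma gamS_pos (hl : 1 < l) (j : ℕ) : 0 < gamS l r J j := Real.rpow_pos_of_pos (by linarith) _

lemma gamS_ge (hl : 1 < l) (hr : 0 < r) (hr1 : r ≤ 1) (hJ : 0 < J) {j : ℕ} (hj : j < J) :
    l ^ (-1 : ℝ) ≤ gamS l r J j := by
  unfold gamS
  apply Real.rpow_le_rpow_of_exponent_le hl.le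
  have hJ' : (0 : ℝ) < J := by exact_mod_cast hJ
  have h1 : (j : ℝ) + 1 ≤ J := by exact_mod_cast hj
  have h2 : r * ((j : ℝ) + 1) / J ≤ 1 := by
    rw [div_le_one hJ']
    have : r * ((j : ℝ) + 1) ≤ 1 * ((j : ℝ) + 1) := mul_le_mul_of_nonneg_right hr1 (by positivity)
    linarith
  have h3 : 0 ≤ r / (2 * J) := by positivity
  linarith

lemma gamS_le (hl : 1 < l) (hr : 0 < r) (hJ : 0 < J) (j : ℕ) :
    gamS l r J j ≤ l ^ (-(r / (2 * J))) := by
  unfold gamS
  apply Real.rpow_le_rpow_of_exponent_le hl.le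
  have hJ' : (0 : ℝ) < J := by exact_mod_cast hJ
  have h1 : r / J ≤ r * ((j : ℝ) + 1) / J := by
    apply div_le_div_of_nonneg_right _ hJ'.le
    have : 0 ≤ r * (j : ℝ) := by positivity
    linarith
  have h2 : r / J = r / (2 * J) + r / (2 * J) := by field_simp; ring
  linarith

lemma gamS_mul_b (hl : 1 < l) (j : ℕ) :
    gamS l r J j * (bS l J j) ^ r = l ^ (r / (2 * J)) := by
  unfold gamS bS
  rw [← Real.rpow_mul (by linarith), ← Real.rpow_add (by linarith)]
  congr 1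
  ring

/-- The weight of scale `j` times the order of the moment. -/
lemma lam_gam (hl : 1 < l) (hr : 0 < r) (hr2 : r ≤ 1 / 2) (hJ : 0 < J) {c₆ : ℝ} (hc₆ : 0 < c₆)
    (hc₆1 : c₆ ≤ 1) (hc : 0 < c) (hc₆c : c₆ / c ≤ 1) {j : ℕ} (hj : j < J) :
    c₆ * l ^ (-(1 - r)) / nuS l r c J j * gamS l r J j ≤ l ^ (-r + 1 / J) := by
  have hJ' : (0 : ℝ) < J := by exact_mod_cast hJ
  have hl0 : 0 < l := by linarith
  unfold nuS
  split_ifs with h
  · have e1 : c₆ * l ^ (-(1 - r)) / (c * bS l J (j + 1) ^ (r - 1)) * gamS l r J j =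
        c₆ / c * (l ^ (-(1 - r)) * (bS l J (j + 1)) ^ (1 - r) * gamS l r J j) := by
      have h1 : (bS l J (j + 1)) ^ (r - 1) * (bS l J (j + 1)) ^ (1 - r) = 1 := by
        rw [← Real.rpow_add (bS_pos hl _)]; simp
      have h2 : (bS l J (j + 1)) ^ (r - 1) ≠ 0 := (Real.rpow_pos_of_pos (bS_pos hl _) _).ne'
      field_simp
      linear_combination (-(gamS l r J j)) * h1
    rw [e1]
    have h3 : l ^ (-(1 - r)) * (bS l J (j + 1)) ^ (1 - r) * gamS l r J j ≤ l ^ (-r + 1 / J) := by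
      unfold bS gamS
      rw [← Real.rpow_mul hl0.le, ← Real.rpow_add hl0, ← Real.rpow_add hl0]
      apply Real.rpow_le_rpow_of_exponent_le hl.le
      have h4 : ((j : ℝ) + 1) / J ≤ 1 := by
        rw [div_le_one hJ']
        have : j + 1 ≤ J := by omega
        exact_mod_cast this
      have h5 : (1 - 2 * r) * (((j : ℝ) + 1) / J) ≤ (1 - 2 * r) * 1 :=
        mul_le_mul_of_nonneg_left h4 (by linarith)
      have h6 : -(1 - r) + (((j + 1 : ℕ) : ℝ) + 1) / J * (1 - r) +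
          (-(r * ((j : ℝ) + 1) / J) + r / (2 * J)) =
          -(1 - r) + (1 - 2 * r) * (((j : ℝ) + 1) / J) + (1 - r / 2) * (1 / J) := by
        push_cast
        field_simp
        ring
      rw [h6]
      have h7 : (1 - r / 2) * (1 / J) ≤ 1 * (1 / (J : ℝ)) :=
        mul_le_mul_of_nonneg_right (by linarith) (by positivity)
      linarith
    calc _ ≤ 1 * (l ^ (-(1 - r)) * (bS l J (j + 1)) ^ (1 - r) * gamS l r J j) := by
          apply mul_le_mul_of_nonneg_right hc₆c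
          exact mul_nonneg (mul_nonneg (Real.rpow_nonneg hl0.le _)
            (Real.rpow_nonneg (bS_pos hl _).le _)) (gamS_pos hl j).le
      _ ≤ _ := by rw [one_mul]; exact h3
  · have hjJ : j + 1 = J := by omega
    have h1 : l ^ (-(1 - r)) ≠ 0 := (Real.rpow_pos_of_pos hl0 _).ne'
    rw [mul_div_assoc, div_self h1, mul_one]
    have h2 : gamS l r J j ≤ l ^ (-r + 1 / J) := by
      unfold gamS
      apply Real.rpow_le_rpow_of_exponent_le hl.le
      have h3 : (j : ℝ) + 1 = J := by exact_mod_cast hjJ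
      rw [h3, mul_div_assoc, div_self hJ'.ne', mul_one]
      have h4 : r / (2 * J) ≤ 1 / J := by
        rw [div_le_div_iff₀ (by positivity) hJ']
        nlinarith
      linarith
    calc c₆ * gamS l r J j ≤ 1 * gamS l r J j :=
          mul_le_mul_of_nonneg_right hc₆1 (gamS_pos hl j).le
      _ ≤ _ := by rw [one_mul]; exact h2

/-- The weight of scale `j`. -/
lemma lam_le (hl : 1 < l) (hr1 : r < 1) (hJ : 0 < J) {c₆ : ℝ} (hc₆ : 0 < c₆)
    (hc : 0 < c) {j : ℕ} (hj : j < J) :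
    c₆ * l ^ (-(1 - r)) / nuS l r c J j ≤ c₆ / c + (if j + 1 = J then c₆ else 0) := by
  have hl0 : 0 < l := by linarith
  have h1 : 0 < l ^ (-(1 - r)) := Real.rpow_pos_of_pos hl0 _
  unfold nuS
  by_cases h : j + 1 < J
  · rw [if_pos h, if_neg (by omega), add_zero]
    have hb := bS_pos (J := J) hl (j + 1)
    have h2 : 0 < (bS l J (j + 1)) ^ (r - 1) := Real.rpow_pos_of_pos hb _
    have h3 : l ^ (-(1 - r)) ≤ (bS l J (j + 1)) ^ (r - 1) := by
      rw [show -(1 - r) = r - 1 by ring]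
      exact Real.rpow_le_rpow_of_nonpos hb (bS_le hl hJ h) (by linarith)
    rw [div_le_div_iff₀ (by positivity) hc]
    calc c₆ * l ^ (-(1 - r)) * c ≤ c₆ * (bS l J (j + 1)) ^ (r - 1) * c := by gcongr
      _ = c₆ * (c * (bS l J (j + 1)) ^ (r - 1)) := by ring
  · rw [if_neg h, if_pos (by omega), mul_div_assoc, div_self h1.ne', mul_one]
    have : 0 < c₆ / c := by positivity
    linarith

end

end

end MP_daa227_pr
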