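import Mathlib

/-!
# I.i.d. charges: product measure on sequences, independence, concentration
-/

open MeasureTheory ProbabilityTheory Set Filter
open scoped ENNReal

namespace MP_daa227_pr

noncomputable section

/-- Prepend a charge. -/
def cons (x : ℝ) (ω : ℕ → ℝ) : ℕ → ℝ
  | 0 => x
  | n + 1 => ω n

/-- Forget the first `k` charges. -/
def shift (k : ℕ) (ω : ℕ → ℝ) : ℕ → ℝ := fun n => ω (n + k)

/-- The law of an i.i.d. sequence of charges with common law `μ`. -/
def seqLaw (μ : Measure ℝ) : Measure (ℕ → ℝ) := Measure.infinitePi (fun _ : ℕ => μ)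

@[simp] lemma cons_zero (x : ℝ) (ω : ℕ → ℝ) : cons x ω 0 = x := rfl
@[simp] lemma cons_succ (x : ℝ) (ω : ℕ → ℝ) (n : ℕ) : cons x ω (n + 1) = ω n := rfl
@[simp] lemma shift_zero (ω : ℕ → ℝ) : shift 0 ω = ω := rfl
@[simp] lemma shift_apply (k n : ℕ) (ω : ℕ → ℝ) : shift k ω n = ω (n + k) := rfl
lemma shift_shift (k l : ℕ) (ω : ℕ → ℝ) : shift k (shift l ω) = shift (k + l) ω := by
  funext n; simp [shift, Nat.add_assoc]
lemma shift_succ_cons (k : ℕ) (x : ℝ) (ω : ℕ → ℝ) : shift (k + 1) (cons x ω) = shift k ω := by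
  funext n; simp only [shift]; rw [← Nat.add_assoc]; rfl
@[simp] lemma shift_one_cons (x : ℝ) (ω : ℕ → ℝ) : shift 1 (cons x ω) = ω := by
  rw [shift_succ_cons 0]; rfl

lemma measurable_cons : Measurable (fun q : ℝ × (ℕ → ℝ) => cons q.1 q.2) := by
  rw [measurable_pi_iff]
  intro n
  cases n with
  | zero => exact measurable_fst
  | succ n => exact (measurable_pi_apply n).comp measurable_snd

lemma measurable_cons' (x : ℝ) : Measurable (fun ω : ℕ → ℝ => cons x ω) :=
  measurable_cons.comp (measurable_const.prodMk measurable_id)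

@[fun_prop] lemma measurable_shift (k : ℕ) : Measurable (shift k) := by
  rw [measurable_pi_iff]
  intro n
  exact measurable_pi_apply (n + k)

section
variable (μ : Measure ℝ) [IsProbabilityMeasure μ]

instance : IsProbabilityMeasure (seqLaw μ) := by unfold seqLaw; infer_instance

lemma map_cons : Measure.map (fun q : ℝ × (ℕ → ℝ) => cons q.1 q.2) (μ.prod (seqLaw μ)) = seqLaw μ := by
  apply Measure.eq_infinitePi
  intro s t ht
  rw [Measure.map_apply measurable_cons (MeasurableSet.pi s.countable_toSet (fun i _ => ht i))]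
  have hinj : Set.InjOn Nat.succ (Nat.succ ⁻¹' (s : Set ℕ)) := Nat.succ_injective.injOn
  have hpre : (fun q : ℝ × (ℕ → ℝ) => cons q.1 q.2) ⁻¹' (Set.pi s t) =
      (if 0 ∈ s then t 0 else Set.univ) ×ˢ
        (Set.pi (s.preimage Nat.succ hinj : Finset ℕ) (fun n => t (n + 1))) := by
    ext ⟨x, ω⟩
    simp only [Set.mem_preimage, Set.mem_pi, Finset.mem_coe, Set.mem_prod, Finset.mem_preimage]
    constructor
    · intro h
      refine ⟨?_, fun n hn => h (n + 1) hn⟩
      split_ifs with h0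
      · exact h 0 h0
      · trivial
    · rintro ⟨h0, h1⟩ i hi
      cases i with
      | zero => rw [if_pos hi] at h0; exact h0
      | succ n => exact h1 n hi
  rw [hpre, Measure.prod_prod]
  unfold seqLaw
  rw [Measure.infinitePi_pi _ (fun i _ => ht (i + 1))]
  have h2 : ∏ i ∈ s.preimage Nat.succ hinj, μ (t (i + 1)) = ∏ i ∈ s.erase 0, μ (t i) := by
    have h3 : s.preimage Nat.succ hinj = (s.erase 0).preimage Nat.succ Nat.succ_injective.injOn := by
      ext n; simp
    rw [h3]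
    exact Finset.prod_preimage Nat.succ (s.erase 0) Nat.succ_injective.injOn (fun i => μ (t i))
      (by
        intro x hx hx'
        exfalso
        apply hx'
        rw [Finset.mem_erase] at hx
        exact ⟨x - 1, by simp only [Nat.succ_eq_add_one]; omega⟩)
  rw [h2]
  by_cases h0 : 0 ∈ s
  · rw [if_pos h0, Finset.mul_prod_erase s (fun i => μ (t i)) h0]
  · rw [if_neg h0, measure_univ, one_mul, Finset.erase_eq_of_notMem h0]

lemma lintegral_cons {F : (ℕ → ℝ) → ℝ≥0∞} (hF : Measurable F) :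
    ∫⁻ ω, F ω ∂seqLaw μ = ∫⁻ x, ∫⁻ ω, F (cons x ω) ∂seqLaw μ ∂μ := by
  conv_lhs => rw [← map_cons μ]
  rw [lintegral_map hF measurable_cons, lintegral_prod (fun q : ℝ × (ℕ → ℝ) => F (cons q.1 q.2))
    (hF.comp measurable_cons).aemeasurable]

lemma lintegral_cons_symm {F : (ℕ → ℝ) → ℝ≥0∞} (hF : Measurable F) :
    ∫⁻ ω, F ω ∂seqLaw μ = ∫⁻ ω, ∫⁻ x, F (cons x ω) ∂μ ∂seqLaw μ := by
  conv_lhs => rw [← map_cons μ]
  rw [lintegral_map hF measurable_cons, lintegral_prod_symm (fun q : ℝ × (ℕ → ℝ) => F (cons q.1 q.2))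
    (hF.comp measurable_cons).aemeasurable]

lemma integrable_cons {F : (ℕ → ℝ) → ℝ} (hF : Measurable F) (hi : Integrable F (seqLaw μ)) :
    Integrable (fun q : ℝ × (ℕ → ℝ) => F (cons q.1 q.2)) (μ.prod (seqLaw μ)) := by
  rw [← map_cons μ] at hi
  exact (integrable_map_measure hF.aestronglyMeasurable measurable_cons.aemeasurable).1 hi

lemma integral_cons {F : (ℕ → ℝ) → ℝ} (hF : Measurable F) (hi : Integrable F (seqLaw μ)) :
    ∫ ω, F ω ∂seqLaw μ = ∫ x, ∫ ω, F (cons x ω) ∂seqLaw μ ∂μ := by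
  conv_lhs => rw [← map_cons μ]
  rw [integral_map measurable_cons.aemeasurable hF.aestronglyMeasurable,
    integral_prod _ (integrable_cons μ hF hi)]

lemma integral_cons_symm {F : (ℕ → ℝ) → ℝ} (hF : Measurable F) (hi : Integrable F (seqLaw μ)) :
    ∫ ω, F ω ∂seqLaw μ = ∫ ω, ∫ x, F (cons x ω) ∂μ ∂seqLaw μ := by
  conv_lhs => rw [← map_cons μ]
  rw [integral_map measurable_cons.aemeasurable hF.aestronglyMeasurable,
    integral_prod_symm _ (integrable_cons μ hF hi)]

/-- `F` depends only on the first `k` charges. -/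
def DepOn {α : Type*} (k : ℕ) (F : (ℕ → ℝ) → α) : Prop :=
  ∀ ω ω' : ℕ → ℝ, (∀ i < k, ω i = ω' i) → F ω = F ω'

lemma DepOn.cons {α : Type*} {k : ℕ} {F : (ℕ → ℝ) → α} (h : DepOn (k + 1) F) (x : ℝ) :
    DepOn k (fun ω => F (cons x ω)) := by
  intro ω ω' hω
  apply h
  intro i hi
  cases i with
  | zero => rfl
  | succ n => exact hω n (by omega)

/-- Independence of the first `k` charges and the others; stationarity. -/
lemma lintegral_mul_shift {Y : (ℕ → ℝ) → ℝ≥0∞} (hY : Measurable Y) :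
    ∀ (k : ℕ) {X : (ℕ → ℝ) → ℝ≥0∞}, Measurable X → DepOn k X →
      ∫⁻ ω, X ω * Y (shift k ω) ∂seqLaw μ = (∫⁻ ω, X ω ∂seqLaw μ) * ∫⁻ ω, Y ω ∂seqLaw μ
  | 0, X, hX, hd => by
      have hc : ∀ ω, X ω = X (fun _ => 0) := fun ω => hd _ _ (by simp)
      simp_rw [shift_zero]
      have h1 : ∀ ω, X ω * Y ω = X (fun _ => 0) * Y ω := fun ω => by rw [hc ω]
      simp_rw [h1]
      rw [lintegral_const_mul _ hY]
      congr 1
      simp_rw [hc]
      simp
  | k + 1, X, hX, hd => by
      rw [lintegral_cons μ (F := fun ω => X ω * Y (shift (k + 1) ω))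
        (hX.mul (hY.comp (measurable_shift _))), lintegral_cons μ hX]
      simp_rw [shift_succ_cons]
      have h1 : ∀ x, ∫⁻ ω, X (cons x ω) * Y (shift k ω) ∂seqLaw μ =
          (∫⁻ ω, X (cons x ω) ∂seqLaw μ) * ∫⁻ ω, Y ω ∂seqLaw μ := fun x =>
        lintegral_mul_shift hY k (hX.comp (measurable_cons' x)) (hd.cons x)
      simp_rw [h1]
      rw [lintegral_mul_const]
      exact (hX.comp measurable_cons).lintegral_prod_right'

lemma lintegral_shift (k : ℕ) {Y : (ℕ → ℝ) → ℝ≥0∞} (hY : Measurable Y) :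
    ∫⁻ ω, Y (shift k ω) ∂seqLaw μ = ∫⁻ ω, Y ω ∂seqLaw μ := by
  have h := lintegral_mul_shift μ hY k (X := fun _ => 1) measurable_const (fun _ _ _ => rfl)
  simpa using h

lemma map_shift (k : ℕ) : Measure.map (shift k) (seqLaw μ) = seqLaw μ := by
  ext s hs
  rw [Measure.map_apply (measurable_shift k) hs]
  have h := lintegral_shift μ k (Y := s.indicator 1) (measurable_one.indicator hs)
  rw [lintegral_indicator_one hs] at h
  rw [← h]
  rw [← lintegral_indicator_one ((measurable_shift k) hs)]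
  rfl

lemma integral_shift (k : ℕ) {Y : (ℕ → ℝ) → ℝ} (hY : Measurable Y) :
    ∫ ω, Y (shift k ω) ∂seqLaw μ = ∫ ω, Y ω ∂seqLaw μ := by
  conv_rhs => rw [← map_shift μ k]
  rw [integral_map (measurable_shift k).aemeasurable hY.aestronglyMeasurable]

lemma integrable_shift (k : ℕ) {Y : (ℕ → ℝ) → ℝ} (hY : Measurable Y) (hi : Integrable Y (seqLaw μ)) :
    Integrable (fun ω => Y (shift k ω)) (seqLaw μ) := by
  rw [← map_shift μ k] at hi
  exact (integrable_map_measure hY.aestronglyMeasurable (measurable_shift k).aemeasurable).1 hi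

lemma lintegral_apply (i : ℕ) {Y : ℝ → ℝ≥0∞} (hY : Measurable Y) :
    ∫⁻ ω, Y (ω i) ∂seqLaw μ = ∫⁻ x, Y x ∂μ := by
  have h := lintegral_shift μ i (Y := fun ω => Y (ω 0)) (hY.comp (measurable_pi_apply 0))
  simp only [shift_apply, zero_add] at h
  rw [h, lintegral_cons μ (F := fun ω => Y (ω 0)) (hY.comp (measurable_pi_apply 0))]
  simp

lemma map_apply_seq (i : ℕ) : Measure.map (fun ω : ℕ → ℝ => ω i) (seqLaw μ) = μ := by
  ext s hs
  rw [Measure.map_apply (measurable_pi_apply i) hs]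
  have h := lintegral_apply μ i (Y := s.indicator 1) (measurable_one.indicator hs)
  rw [lintegral_indicator_one hs] at h
  rw [← h]
  rw [← lintegral_indicator_one ((measurable_pi_apply i) hs)]
  rfl

lemma integrable_apply (i : ℕ) {Y : ℝ → ℝ} (hY : Measurable Y) (hi : Integrable Y μ) :
    Integrable (fun ω : ℕ → ℝ => Y (ω i)) (seqLaw μ) := by
  rw [← map_apply_seq μ i] at hi
  exact (integrable_map_measure hY.aestronglyMeasurable (measurable_pi_apply i).aemeasurable).1 hi

lemma integral_apply (i : ℕ) {Y : ℝ → ℝ} (hY : Measurable Y) :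
    ∫ ω : ℕ → ℝ, Y (ω i) ∂seqLaw μ = ∫ x, Y x ∂μ := by
  conv_rhs => rw [← map_apply_seq μ i]
  rw [integral_map (measurable_pi_apply i).aemeasurable hY.aestronglyMeasurable]

end

end

end MP_daa227_pr
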