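import Pool.Agent.Lib.MP_daa227_pr.BlockCrit
import Pool.Agent.Lib.MP_daa227_pr.ExpS
import Pool.Agent.Lib.MP_daa227_pr.TiltB
import Pool.Agent.Lib.MP_daa227_pr.Dens

/-!
# The generalised smoothing inequality
-/

open MeasureTheory ProbabilityTheory Set Filter
open scoped ENNReal Topology

namespace MP_daa227_pr

noncomputable section

lemma Zk_le_one (C : Chain) {W : ℝ → ℤ → ℝ} (hW0 : ∀ a z, 0 ≤ W a z) :
    ∀ (n : ℕ) (ω : ℕ → ℝ), (∀ k z, W (ω k) z ≤ 1) → ∀ x y : ℤ, 0 ≤ Zk C W n ω x y ∧ Zk C W n ω x y ≤ 1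
  | 0, ω, _, x, y => by simp only [Zk]; split_ifs <;> norm_num
  | n + 1, ω, h, x, y => by
      have ih := Zk_le_one C hW0 n (shift 1 ω) (fun k z => h (k + 1) z)
      simp only [Zk]
      refine ⟨Finset.sum_nonneg fun z _ => mul_nonneg (mul_nonneg (C.nonneg _ _) (hW0 _ _)) (ih z y).1, ?_⟩
      calc _ ≤ ∑ z ∈ Finset.Icc (x - 1) (x + 1), C.p x z * 1 * 1 := by
            apply Finset.sum_le_sum
            intro z _
            apply mul_le_mul _ (ih z y).2 (ih z y).1 (mul_nonneg (C.nonneg _ _) zero_le_one)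
            exact mul_le_mul_of_nonneg_left (h 0 z) (C.nonneg _ _)
        _ = 1 := by simp only [mul_one]; exact C.sum_one x

lemma ExpSum.translate {Φ : ℝ} {n : ℕ} {F : (ℕ → ℝ) → ℝ} (hF : ExpSum Φ n F) (c : ℝ) :
    ExpSum Φ n (fun u => F (fun k => u k - c)) := by
  obtain ⟨m, a, ψ, ha, hψ, hF⟩ := hF
  refine ⟨m, fun i => a i * Real.exp (-c * ∑ k ∈ Finset.range n, ψ i k), ψ,
    fun i => mul_nonneg (ha i) (Real.exp_pos _).le, hψ, fun u => ?_⟩
  dsimp only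
  rw [hF]
  apply Finset.sum_congr rfl
  intro i _
  rw [mul_assoc, ← Real.exp_add]
  congr 2
  rw [Finset.mul_sum, ← Finset.sum_add_distrib]
  apply Finset.sum_congr rfl
  intro k _
  ring

namespace Model

variable (M : Model)

/-- Upper bound for the free energy by one block. -/
lemma Fr_le_block (hnl : ∀ x, M.C.p x x = 0) {h : ℝ} {R : ℕ} {cy : ℝ} (hcy : 1 ≤ cy)
    (hout : ∀ z, z ∉ Finset.Icc (-(R : ℤ)) R → mom M.μ 1 (fun ω => M.W h (ω 0) z) ≤ 1)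
    (hin : ∀ z, mom M.μ 1 (fun ω => M.W h (ω 0) z) ≤ ENNReal.ofReal cy) {n : ℕ} (hn : Even n)
    (hn1 : 1 ≤ n) :
    M.Fr h ≤ (∫ ω, Real.log (SB M.C M.φ R n (fun k => M.β * ω k - h)) ∂seqLaw M.μ +
      Real.log (n * (2 * R + 1) * cy)) / n := by
  obtain ⟨k, hk⟩ := hn
  have hk1 : 1 ≤ k := by omega
  have hnR : (0 : ℝ) < n := by exact_mod_cast hn1
  have h1 : Tendsto (fun m : ℕ => m * k) atTop atTop :=
    tendsto_atTop_mono (fun m => Nat.le_mul_of_pos_right m hk1) tendsto_id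
  have h2 := (M.tendsto_Fr h).comp h1
  refine le_of_tendsto h2 ?_
  filter_upwards [eventually_ge_atTop 1] with m hm
  have hmR : (0 : ℝ) < m := by exact_mod_cast hm
  have h3 := Ψ_le_block M hnl hcy hout hin (n := n) ⟨k, hk⟩ hn1 m
  simp only [Function.comp]
  have h4 : 2 * (m * k) = m * n := by rw [hk]; ring
  have h5 : (2 : ℝ) * ((m * k : ℕ) : ℝ) = m * n := by
    rw [← Nat.cast_mul, ← h4]; push_cast; ring
  rw [h4, h5, div_le_div_iff₀ (by positivity) hnR]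
  have h6 := mul_le_mul_of_nonneg_right h3 hnR.le
  refine h6.trans (le_of_eq ?_)
  ring

lemma log_Sb_nonneg (h : ℝ) (R n : ℕ) (ω : ℕ → ℝ) : 0 ≤ Real.log (M.Sb h R n ω) :=
  Real.log_nonneg (M.one_le_Sb h R n ω)

lemma log_Sb_le {h : ℝ} (hh : 0 ≤ h) (R n : ℕ) (ω : ℕ → ℝ) :
    Real.log (M.Sb h R n ω) ≤ (2 + 2 * Real.log (2 * (R : ℝ) + 1)) * (n + 1) +
      M.κ * ∑ k ∈ Finset.range n, |ω k| := by
  have hR0 : (0 : ℝ) ≤ R := Nat.cast_nonneg R
  have hn0 : (0 : ℝ) ≤ n := Nat.cast_nonneg n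
  have hpos : ∀ ω, 0 < M.Sb h R n ω := fun ω => one_pos.trans_le (M.one_le_Sb h R n ω)
  have h1 := (M.good_Sb h R n).log_lip hpos ω (fun _ => 0)
  have h2 : M.Sb h R n (fun _ => 0) ≤ ((n : ℝ) + 1) ^ 2 * (2 * R + 1) ^ 2 := by
    have hcard : ((Finset.Icc (-(R : ℤ)) R).card : ℝ) = 2 * R + 1 := by
      rw [Int.card_Icc]
      have : ((R : ℤ) + 1 - -(R : ℤ)).toNat = 2 * R + 1 := by omega
      rw [this]
      push_cast
      ring
    have hZ : ∀ (k i : ℕ) (x y : ℤ), M.Z h k (shift i (fun _ => 0)) x y ≤ 1 := by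
      intro k i x y
      refine (Zk_le_one M.C (fun a z => (M.W_pos h a z).le) k _ (fun j z => ?_) x y).2
      unfold W
      apply Real.exp_le_one_iff.2
      simp only [shift_apply, mul_zero, zero_sub]
      have := mul_nonneg hh (M.φ_pos z).le
      linarith
    unfold Sb
    calc _ ≤ ∑ i ∈ Finset.range (n + 1), ∑ j ∈ Finset.range (n + 1),
        ∑ x ∈ Finset.Icc (-(R : ℤ)) R, ∑ y ∈ Finset.Icc (-(R : ℤ)) R, (1 : ℝ) := by
          apply Finset.sum_le_sum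
          intro i _
          refine (Finset.sum_le_sum (fun j hj => ?_)).trans
            (Finset.sum_le_sum_of_subset_of_nonneg (f := fun _ => ∑ x ∈ Finset.Icc (-(R : ℤ)) R,
              ∑ y ∈ Finset.Icc (-(R : ℤ)) R, (1 : ℝ)) ?_ (fun _ _ _ => by positivity))
          · refine (Finset.sum_le_sum (fun x _ => Finset.sum_le_sum (fun y _ => hZ _ _ _ _))).trans
              (Finset.sum_le_sum_of_subset_of_nonneg (Finset.filter_subset _ _)
                (fun _ _ _ => by positivity))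
          · intro j hj
            rw [Finset.mem_Icc] at hj
            exact Finset.mem_range.2 (by omega)
      _ = _ := by
          rw [Finset.sum_const, Finset.sum_const, Finset.sum_const, Finset.sum_const, Finset.card_range,
            nsmul_eq_mul, nsmul_eq_mul, nsmul_eq_mul, nsmul_eq_mul, hcard]
          push_cast
          ring
  have h3 := Real.log_le_log (hpos _) h2
  rw [Real.log_mul (by positivity) (by positivity), Real.log_pow, Real.log_pow] at h3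
  have h4 : Real.log ((n : ℝ) + 1) ≤ n := by
    have := Real.log_le_sub_one_of_pos (by positivity : (0 : ℝ) < n + 1)
    linarith
  have h5 : 0 ≤ Real.log (2 * (R : ℝ) + 1) := Real.log_nonneg (by linarith)
  have h6 : ∑ k ∈ Finset.range n, |ω k - 0| = ∑ k ∈ Finset.range n, |ω k| := by simp
  rw [h6] at h1
  have h7 := (abs_le.1 h1).2
  push_cast at h3
  nlinarith

/-- Second moment of the logarithm of the block sum. -/
lemma sq_log_Sb {h : ℝ} (hh : 0 ≤ h) (R : ℕ) : ∃ A : ℝ, 0 < A ∧ ∀ n : ℕ,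
    Integrable (fun ω => Real.log (M.Sb h R n ω) ^ 2) (seqLaw M.μ) ∧
      Real.sqrt (∫ ω, Real.log (M.Sb h R n ω) ^ 2 ∂seqLaw M.μ) ≤ A * (n + 1) := by
  set c₀ := 2 + 2 * Real.log (2 * (R : ℝ) + 1) with hc₀
  have hR0 : (0 : ℝ) ≤ R := Nat.cast_nonneg R
  have hc₀0 : 0 < c₀ := by
    have : 0 ≤ Real.log (2 * (R : ℝ) + 1) := Real.log_nonneg (by linarith)
    rw [hc₀]; linarith
  refine ⟨Real.sqrt (2 * (c₀ ^ 2 + M.κ ^ 2)), Real.sqrt_pos.2 (by positivity), fun n => ?_⟩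
  have hn0 : (0 : ℝ) ≤ n := Nat.cast_nonneg n
  have hx2 : Integrable (fun x : ℝ => x ^ 2) M.μ := by
    refine (M.exp_mom.sq_abs 0).congr (ae_of_all _ fun x => ?_)
    simp
  have hi : ∀ k : ℕ, Integrable (fun ω : ℕ → ℝ => ω k ^ 2) (seqLaw M.μ) := fun k =>
    integrable_apply M.μ k (Y := fun x => x ^ 2) (by fun_prop) hx2
  have hiv : ∀ k : ℕ, ∫ ω : ℕ → ℝ, ω k ^ 2 ∂seqLaw M.μ = 1 := fun k => by
    rw [integral_apply M.μ k (Y := fun x => x ^ 2) (by fun_prop)]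
    exact M.var
  have hb : ∀ ω : ℕ → ℝ, Real.log (M.Sb h R n ω) ^ 2 ≤
      2 * c₀ ^ 2 * ((n : ℝ) + 1) ^ 2 + 2 * M.κ ^ 2 * (n * ∑ k ∈ Finset.range n, ω k ^ 2) := by
    intro ω
    have h1 := M.log_Sb_le hh R n ω
    have h0 := M.log_Sb_nonneg h R n ω
    have h2 : (∑ k ∈ Finset.range n, |ω k|) ^ 2 ≤ n * ∑ k ∈ Finset.range n, ω k ^ 2 := by
      have := sq_sum_le_card_mul_sum_sq (s := Finset.range n) (f := fun k => |ω k|)
      simpa using this
    set X := ∑ k ∈ Finset.range n, |ω k| with hX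
    calc Real.log (M.Sb h R n ω) ^ 2 ≤ (c₀ * (n + 1) + M.κ * X) ^ 2 :=
          pow_le_pow_left₀ h0 h1 2
      _ ≤ 2 * (c₀ * (n + 1)) ^ 2 + 2 * (M.κ * X) ^ 2 := by
          nlinarith [sq_nonneg (c₀ * ((n : ℝ) + 1) - M.κ * X)]
      _ = 2 * c₀ ^ 2 * ((n : ℝ) + 1) ^ 2 + 2 * M.κ ^ 2 * X ^ 2 := by ring
      _ ≤ _ := by
          have := mul_le_mul_of_nonneg_left h2 (by positivity : 0 ≤ 2 * M.κ ^ 2)
          linarith
  have hint2 : Integrable (fun ω : ℕ → ℝ => 2 * c₀ ^ 2 * ((n : ℝ) + 1) ^ 2 +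
      2 * M.κ ^ 2 * (n * ∑ k ∈ Finset.range n, ω k ^ 2)) (seqLaw M.μ) :=
    (integrable_const _).add (((integrable_finsetSum _ fun k _ => hi k).const_mul _).const_mul _)
  have hint : Integrable (fun ω => Real.log (M.Sb h R n ω) ^ 2) (seqLaw M.μ) := by
    refine hint2.mono' (((M.good_Sb h R n).meas.log.pow_const 2).aestronglyMeasurable)
      (ae_of_all _ fun ω => ?_)
    rw [Real.norm_of_nonneg (sq_nonneg _)]
    exact hb ω
  refine ⟨hint, ?_⟩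
  have h1 := integral_mono hint hint2 hb
  have h2 : ∫ ω : ℕ → ℝ, (2 * c₀ ^ 2 * ((n : ℝ) + 1) ^ 2 +
      2 * M.κ ^ 2 * (n * ∑ k ∈ Finset.range n, ω k ^ 2)) ∂seqLaw M.μ =
      2 * c₀ ^ 2 * ((n : ℝ) + 1) ^ 2 + 2 * M.κ ^ 2 * (n * n) := by
    rw [integral_add (integrable_const _)
      (((integrable_finsetSum _ fun k _ => hi k).const_mul _).const_mul _),
      integral_const_mul (2 * M.κ ^ 2) (fun ω : ℕ → ℝ => (n : ℝ) * ∑ k ∈ Finset.range n, ω k ^ 2),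
      integral_const_mul (n : ℝ) (fun ω : ℕ → ℝ => ∑ k ∈ Finset.range n, ω k ^ 2),
      integral_finsetSum _ (fun k _ => hi k)]
    simp [hiv]
  rw [h2] at h1
  rw [Real.sqrt_le_left (by positivity)]
  refine h1.trans ?_
  rw [mul_pow, Real.sq_sqrt (by positivity)]
  have : (n : ℝ) * n ≤ ((n : ℝ) + 1) ^ 2 := by nlinarith
  have h3 := mul_le_mul_of_nonneg_left this (by positivity : 0 ≤ 2 * M.κ ^ 2)
  linarith

/-- **Generalised smoothing inequality.** -/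
theorem smoothing (hnl : ∀ x, M.C.p x x = 0) {ξ : ℝ} (hξ : 0 ≤ ξ) (hesc : Escape M.C M.φ ξ)
    {hc : ℝ} (hc0 : 0 < hc) (hF : M.Fr hc ≤ 0) {q : ℝ} (hq0 : 0 < q) (hq : q < 2 * (1 - ξ)) :
    ∃ C : ℝ, 0 < C ∧ ∃ δ₁ : ℝ, 0 < δ₁ ∧ ∀ δ : ℝ, 0 < δ → δ ≤ δ₁ → M.Fr (hc - δ) ≤ C * δ ^ q := by
  -- the box
  have hA0 := M.A_nonneg
  have hβ := M.β_pos
  set aφ : ℝ := hc / (2 * (M.A * M.β ^ 2 + 1)) with haφ
  have haφ0 : 0 < aφ := by positivity
  obtain ⟨R, hR⟩ := exists_box M.φ_lim haφ0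
  have hR0 : (0 : ℝ) ≤ R := Nat.cast_nonneg R
  have hout : ∀ h, hc / 2 ≤ h → ∀ z, z ∉ Finset.Icc (-(R : ℤ)) R →
      mom M.μ 1 (fun ω => M.W h (ω 0) z) ≤ 1 := by
    intro h hh z hz
    have h1 := M.EW_le_of (h := h) (z := z) (a := 0) (by
      have h2 : M.φ z ≤ aφ := (hR z hz).le
      have h3 := (M.φ_pos z).le
      have h4 : M.A * M.β ^ 2 * M.φ z ≤ hc / 2 := by
        calc M.A * M.β ^ 2 * M.φ z ≤ (M.A * M.β ^ 2 + 1) * aφ := by
              apply mul_le_mul (by linarith) h2 h3 (by positivity)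
          _ = hc / 2 := by rw [haφ]; field_simp
      have h5 := mul_le_mul_of_nonneg_right (h4.trans hh) h3
      nlinarith)
    simpa using h1
  obtain ⟨cy, hcy, hin⟩ : ∃ cy : ℝ, 1 ≤ cy ∧ ∀ h, |h| ≤ hc → ∀ z,
      mom M.μ 1 (fun ω => M.W h (ω 0) z) ≤ ENNReal.ofReal cy := by
    refine ⟨max 1 (Real.exp (hc * M.Φ + M.A * M.β ^ 2 * M.Φ ^ 2)), le_max_left _ _, fun h hh z => ?_⟩
    refine (M.EW_le_of (h := h) (z := z) (a := hc * M.Φ + M.A * M.β ^ 2 * M.Φ ^ 2) ?_).trans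
      (ENNReal.ofReal_le_ofReal (le_max_right _ _))
    have h3 := (M.φ_pos z).le
    have h4 : -h * M.φ z ≤ hc * M.Φ :=
      mul_le_mul ((neg_le_abs h).trans hh) (M.φ_le z) h3 hc0.le
    have h5 : M.φ z ^ 2 ≤ M.Φ ^ 2 := pow_le_pow_left₀ h3 (M.φ_le z) 2
    have h6 := mul_le_mul_of_nonneg_left h5 (by positivity : 0 ≤ M.A * M.β ^ 2)
    linarith
  -- the ingredients
  set ε := (2 * (1 - ξ) - q) / 4 with hε
  have hε0 : 0 < ε := by rw [hε]; linarith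
  obtain ⟨A', hA', hcrit⟩ := block_crit M hnl hξ hesc hF R
  obtain ⟨Cs, hCs, δ₀, hδ₀, hCsδ, hshift⟩ := shift_le_tilt M.exp_mom M.mean M.var hβ M.Φ_pos
  obtain ⟨A₂, hA₂, htilt⟩ := tilt_change M.exp_mom M.mean hε0
  obtain ⟨S, hS, hsq⟩ := M.sq_log_Sb hc0.le R
  set c₃ : ℝ := 1 + 2 ^ ε / ε with hc₃
  have hc₃0 : 0 < c₃ := by positivity
  set l₀ : ℝ := Real.log ((2 * R + 1) * cy) with hl₀
  have hl₀0 : 0 ≤ l₀ := Real.log_nonneg (one_le_mul_of_one_le_of_one_le (by linarith) hcy)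
  set C₄ : ℝ := A' * 2 * c₃ + 2 * A₂ * S + c₃ + l₀ with hC₄
  have hC₄0 : 0 < C₄ := by positivity
  refine ⟨C₄ * (2 ^ (q / 2) * Cs ^ q), by positivity, min δ₀ (min (hc / 2) (1 / (2 * Cs))),
    lt_min hδ₀ (lt_min (by linarith) (by positivity)), fun δ hδ hδ1 => ?_⟩
  have hδδ₀ : δ ≤ δ₀ := hδ1.trans (min_le_left _ _)
  have hδhc : δ ≤ hc / 2 := hδ1.trans ((min_le_right _ _).trans (min_le_left _ _))
  have hδCs : δ ≤ 1 / (2 * Cs) := hδ1.trans ((min_le_right _ _).trans (min_le_right _ _))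
  set t := Cs * δ with ht
  have ht0 : 0 < t := mul_pos hCs hδ
  have ht12 : t ≤ 1 / 2 := by
    calc t ≤ Cs * (1 / (2 * Cs)) := mul_le_mul_of_nonneg_left hδCs hCs.le
      _ = 1 / 2 := by field_simp
  have ht1 : t ≤ 1 := by linarith
  have htsq : t ^ 2 ≤ 1 / 4 := by nlinarith
  have htsq0 : 0 < t ^ 2 := by positivity
  set n := 2 * ⌊1 / (2 * t ^ 2)⌋₊ with hn
  have hne : Even n := even_two_mul _
  have hx2 : 2 ≤ 1 / (2 * t ^ 2) := by
    rw [le_div_iff₀ (by positivity)]; linarith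
  have hfl : 1 / (2 * t ^ 2) < ⌊1 / (2 * t ^ 2)⌋₊ + 1 := Nat.lt_floor_add_one _
  have hfl2 : (⌊1 / (2 * t ^ 2)⌋₊ : ℝ) ≤ 1 / (2 * t ^ 2) := Nat.floor_le (by positivity)
  have hnlow : 1 / (2 * t ^ 2) ≤ n := by
    rw [hn]
    push_cast
    linarith
  have hn1 : 1 ≤ n := by
    have : (1 : ℝ) ≤ n := by linarith
    exact_mod_cast this
  have hnR : (1 : ℝ) ≤ n := by exact_mod_cast hn1
  have hnt : (n : ℝ) * t ^ 2 ≤ 1 := by
    have h1 : (n : ℝ) ≤ 2 * (1 / (2 * t ^ 2)) := by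
      rw [hn]; push_cast; linarith
    calc (n : ℝ) * t ^ 2 ≤ 2 * (1 / (2 * t ^ 2)) * t ^ 2 := mul_le_mul_of_nonneg_right h1 htsq0.le
      _ = 1 := by field_simp
  -- free energy by a block
  have hlo : hc / 2 ≤ hc - δ := by linarith
  have habs : |hc - δ| ≤ hc := by rw [abs_of_nonneg (by linarith)]; linarith
  have hblock := M.Fr_le_block hnl hcy (hout (hc - δ) hlo) (hin (hc - δ) habs) hne hn1
  -- shift to tilt
  have hexps : ExpSum M.Φ n (fun u => SB M.C M.φ R n (fun k => u k - hc)) :=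
    (expSum_SB M.C (fun x => ⟨(M.φ_pos x).le, M.φ_le x⟩) R n).translate hc
  have hSB : ∀ ω : ℕ → ℝ, SB M.C M.φ R n (fun k => M.β * ω k - hc) = M.Sb hc R n ω := fun ω =>
    M.Sb_eq hc R n ω
  have h1 : ∫ ω, Real.log (SB M.C M.φ R n (fun k => M.β * ω k - (hc - δ))) ∂seqLaw M.μ ≤
      ∫ ω, Real.log (M.Sb hc R n ω) ∂seqLaw (M.μ.tilted (fun x => t * x)) := by
    have h2 := hshift δ hδ.le hδδ₀ n _ hexps ⟨fun k => M.β * (0 : ℝ), by
      have := M.one_le_Sb hc R n (fun _ => 0)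
      rw [← hSB] at this
      exact one_pos.trans_le this⟩
    have e1 : ∀ ω : ℕ → ℝ, SB M.C M.φ R n (fun k => M.β * ω k - (hc - δ)) =
        SB M.C M.φ R n (fun k => M.β * ω k + δ - hc) := by
      intro ω; congr 1; funext k; ring
    simp only [e1]
    refine h2.trans (le_of_eq ?_)
    congr 1
    funext ω
    rw [hSB]
  have h2 := htilt t ht0 ht1 n hn1 hnt (fun ω => Real.log (M.Sb hc R n ω)) (M.good_Sb hc R n).meas.log
    (fun ω ω' hω => congrArg Real.log ((M.good_Sb hc R n).depOn ω ω' hω)) (M.log_Sb_nonneg hc R n) (hsq n).1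
  have h3 := hcrit n hne
  have e3 : ∫ ω, Real.log (SB M.C M.φ R n (fun k => M.β * ω k - hc)) ∂seqLaw M.μ =
      ∫ ω, Real.log (M.Sb hc R n ω) ∂seqLaw M.μ := by
    congr 1; funext ω; rw [hSB]
  rw [e3] at h3
  -- sizes
  have hn0 : (0 : ℝ) < n := by linarith
  have hnξ1 : (1 : ℝ) ≤ (n : ℝ) ^ ξ := Real.one_le_rpow hnR hξ
  have hnε1 : (1 : ℝ) ≤ (n : ℝ) ^ ε := Real.one_le_rpow hnR hε0.le
  have hlog : 1 + Real.log ((n : ℝ) + 1) ≤ c₃ * (n : ℝ) ^ ε := by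
    have h4 := Real.log_le_rpow_div (by positivity : (0 : ℝ) ≤ n + 1) hε0
    have h5 : ((n : ℝ) + 1) ^ ε ≤ 2 ^ ε * (n : ℝ) ^ ε := by
      rw [← Real.mul_rpow (by norm_num) hn0.le]
      exact Real.rpow_le_rpow (by positivity) (by linarith) hε0.le
    have h6 : Real.log ((n : ℝ) + 1) ≤ 2 ^ ε * (n : ℝ) ^ ε / ε :=
      h4.trans (div_le_div_of_nonneg_right h5 hε0.le)
    rw [hc₃, add_mul, one_mul]
    have e : 2 ^ ε * (n : ℝ) ^ ε / ε = 2 ^ ε / ε * (n : ℝ) ^ ε := by ring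
    rw [e] at h6
    linarith
  set Y : ℝ := (n : ℝ) ^ (ξ + 2 * ε) with hY
  have hYe : Y = (n : ℝ) ^ ξ * ((n : ℝ) ^ ε * (n : ℝ) ^ ε) := by
    rw [hY, ← Real.rpow_add hn0, ← Real.rpow_add hn0]
    congr 1; ring
  have hY1 : 1 ≤ Y := by
    rw [hY]; exact Real.one_le_rpow hnR (by positivity)
  have hεY : (n : ℝ) ^ ε ≤ Y := by
    rw [hYe]
    calc (n : ℝ) ^ ε = 1 * (1 * (n : ℝ) ^ ε) := by ring
      _ ≤ _ := mul_le_mul hnξ1 (mul_le_mul_of_nonneg_right hnε1 (by positivity)) (by positivity)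
        (by positivity)
  have t1 : (n : ℝ) ^ ε * ∫ ω, Real.log (M.Sb hc R n ω) ∂seqLaw M.μ ≤ A' * 2 * c₃ * Y := by
    have h5 : A' * ((n : ℝ) ^ ξ + 1) * (1 + Real.log (n + 1)) ≤ A' * (2 * (n : ℝ) ^ ξ) * (c₃ * (n : ℝ) ^ ε) := by
      have hl : 0 ≤ 1 + Real.log ((n : ℝ) + 1) := by
        have := Real.log_nonneg (by linarith : (1 : ℝ) ≤ n + 1)
        linarith
      apply mul_le_mul _ hlog hl (by positivity)
      exact mul_le_mul_of_nonneg_left (by linarith) hA'.le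
    calc _ ≤ (n : ℝ) ^ ε * (A' * (2 * (n : ℝ) ^ ξ) * (c₃ * (n : ℝ) ^ ε)) :=
          mul_le_mul_of_nonneg_left (h3.trans h5) (by positivity)
      _ = A' * 2 * c₃ * Y := by rw [hYe]; ring
  have t2 : A₂ / n * Real.sqrt (∫ ω, Real.log (M.Sb hc R n ω) ^ 2 ∂seqLaw M.μ) ≤ 2 * A₂ * S * Y := by
    calc _ ≤ A₂ / n * (S * (n + 1)) := mul_le_mul_of_nonneg_left (hsq n).2 (by positivity)
      _ ≤ A₂ / n * (S * (2 * n)) := by
          apply mul_le_mul_of_nonneg_left _ (by positivity)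
          apply mul_le_mul_of_nonneg_left _ hS.le
          linarith
      _ = 2 * A₂ * S := by field_simp
      _ ≤ _ := le_mul_of_one_le_right (by positivity) hY1
  have t3 : Real.log (n * (2 * R + 1) * cy) ≤ (c₃ + l₀) * Y := by
    rw [mul_assoc, Real.log_mul (by positivity) (by positivity)]
    have h5 : Real.log (n : ℝ) ≤ c₃ * (n : ℝ) ^ ε := by
      have h6 : Real.log (n : ℝ) ≤ Real.log ((n : ℝ) + 1) := Real.log_le_log hn0 (by linarith)
      linarith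
    have h7 : c₃ * (n : ℝ) ^ ε ≤ c₃ * Y := mul_le_mul_of_nonneg_left hεY hc₃0.le
    have h8 : l₀ ≤ l₀ * Y := le_mul_of_one_le_right hl₀0 hY1
    rw [← hl₀, add_mul]
    linarith
  have t4 : M.Fr (hc - δ) ≤ C₄ * (Y / n) := by
    refine hblock.trans ?_
    rw [← mul_div_assoc]
    apply div_le_div_of_nonneg_right _ hn0.le
    calc _ ≤ (n : ℝ) ^ ε * ∫ ω, Real.log (M.Sb hc R n ω) ∂seqLaw M.μ +
        A₂ / n * Real.sqrt (∫ ω, Real.log (M.Sb hc R n ω) ^ 2 ∂seqLaw M.μ) +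
        Real.log (n * (2 * R + 1) * cy) := by
          have := h1.trans h2
          linarith
      _ ≤ A' * 2 * c₃ * Y + 2 * A₂ * S * Y + (c₃ + l₀) * Y := add_le_add (add_le_add t1 t2) t3
      _ = C₄ * Y := by rw [hC₄]; ring
  have t5 : Y / n = (n : ℝ) ^ (-(q / 2)) := by
    rw [hY]
    conv_lhs => rw [← Real.rpow_one (n : ℝ), ← Real.rpow_mul hn0.le, one_mul, ← Real.rpow_sub hn0]
    congr 1
    rw [hε]; ring
  have t6 : (n : ℝ) ^ (-(q / 2)) ≤ 2 ^ (q / 2) * Cs ^ q * δ ^ q := by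
    calc (n : ℝ) ^ (-(q / 2)) ≤ (1 / (2 * t ^ 2)) ^ (-(q / 2)) :=
          Real.rpow_le_rpow_of_nonpos (by positivity) hnlow (by linarith)
      _ = (2 * t ^ 2) ^ (q / 2) := by
          rw [one_div, Real.inv_rpow (by positivity), Real.rpow_neg (by positivity), inv_inv]
      _ = 2 ^ (q / 2) * t ^ q := by
          rw [Real.mul_rpow (by norm_num) (by positivity), ← Real.rpow_natCast t 2,
            ← Real.rpow_mul ht0.le]
          congr 2
          push_cast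
          ring
      _ = 2 ^ (q / 2) * Cs ^ q * δ ^ q := by
          rw [ht, Real.mul_rpow hCs.le hδ.le]; ring
  rw [t5] at t4
  refine t4.trans ?_
  rw [mul_assoc C₄]
  exact mul_le_mul_of_nonneg_left t6 hC₄0.le

end Model

end

end MP_daa227_pr
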